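import Pool.Agent.Work.MP_7b0bad_ag.SV.VStmts2

set_option autoImplicit false

/-!
# Base change `x = u ^ m`
-/

namespace MP7b0bad.SV

open Polynomial

theorem VBC_pI {k : Type} [Field k] (σ : LaurentSeries k →+* LaurentSeries k) (m : ℕ)
    (h : σ (HahnSeries.single (1 : ℤ) (1 : k)) = HahnSeries.single (m : ℤ) (1 : k)) :
    σ (pI k) = (X ^ m : k[X]).eval₂ HahnSeries.C (pI k) := by
  have h1 : pI k = (HahnSeries.single (1 : ℤ) (1 : k))⁻¹ := by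
    apply eq_inv_of_mul_eq_one_left
    rw [pI, HahnSeries.single_mul_single]
    simp
  have h2 : (HahnSeries.single (1 : ℤ) (1 : k)) ^ m = HahnSeries.single (m : ℤ) (1 : k) := by
    rw [HahnSeries.single_pow]
    simp
  rw [eval₂_X_pow, h1, map_inv₀, h, inv_pow, h2]

theorem prf_VBC (hBase : VBase) (hRC : VRC) (hCR : VCR) (hSur : VSur) (hBcU : VBcU)
    (hBcI : VBcI) (hSt : VSt) (hStI : VStI) (hPl : VPl) (hH : VH) (hCp : VCp) (hSub : VSub) :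
    VBC := by
  intro k _ _ p _ _ G _ _ P c m hD hpm hRel
  obtain ⟨Ω, Λ, _, _, _, _, hI, jI, ρI, hB⟩ := hBase k p
  have hgΩ := hB.galΩ
  have hsΩ := hB.scΩ
  have hgΛ := hB.galΛ
  have hsΛ := hB.scΛ
  have hm : 0 < m := by
    rcases Nat.eq_zero_or_pos m with h0 | h0
    · exact absurd (h0 ▸ dvd_zero p) hpm
    · exact h0
  obtain ⟨Φ, hΦ⟩ := hRC k p Ω Λ hI jI ρI hB G (GT.Pc P c) hRel
  obtain ⟨-, -, hHR, -⟩ := hH k
  obtain ⟨h, hR⟩ := hHR (X ^ m) (by rw [natDegree_X_pow]; exact hm)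
  obtain ⟨e, ρe, hCe⟩ := (hPl (RatFunc k) (RatFunc k) Ω Ω h).1
  obtain ⟨σ, hσc, hσ1, -⟩ := hSub k (HahnSeries.single (m : ℤ) (1 : k))
    (HahnSeries.single_ne_zero one_ne_zero)
    (by rw [HahnSeries.order_single one_ne_zero]; exact_mod_cast hm)
  have hσI := VBC_pI σ m hσ1
  obtain ⟨jσ, ρσ, hCσ⟩ := (hPl (LaurentSeries k) (LaurentSeries k) Λ Λ σ).1
  obtain ⟨γ₀, hγ⟩ := hBcI k p Ω Λ hI jI ρI hB (X ^ m) h e ρe hR hCe σ jσ ρσ hσc hσI hCσ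
  have hchL : CharP (LaurentSeries k) p :=
    charP_of_injective_ringHom (HahnSeries.C_injective (Γ := ℤ) (R := k)) p
  have hchΛ : CharP Λ p :=
    charP_of_injective_ringHom (algebraMap (LaurentSeries k) Λ).injective p
  have hmΛ : (m : Λ) ≠ 0 := fun h0 => hpm ((CharP.cast_eq_zero_iff Λ p m).1 h0)
  have : NeZero (m : Λ) := ⟨hmΛ⟩
  obtain ⟨t, ht⟩ := IsSepClosed.exists_pow_nat_eq (lΛ Λ (HahnSeries.single (1 : ℤ) (1 : k))) m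
  have hr := hSt k p Λ m hm hpm t ht σ jσ ρσ hσc hσ1 hCσ
  have hcts : Cts (Φ.comp ρI) := hCp.2.1 _ _ _ _ hI jI ρI hB.comp G Φ hΦ.cts
  have hmap := hStI k p Λ m hm hpm t ht G P c hD.pgr hD.nrm hD.cop (Φ.comp ρI) hcts hΦ.inf
  -- the base change
  let Φ' : (Ω ≃ₐ[RatFunc k] Ω) →* G := (MulAut.conj (Φ γ₀)).toMonoidHom.comp (Φ.comp ρe)
  have hΦ'e : ∀ γ, Φ' γ = Φ γ₀ * Φ (ρe γ) * (Φ γ₀)⁻¹ := fun γ => rfl
  have hΦ'I : ∀ δ, Φ' (ρI δ) = Φ (ρI (ρσ δ)) := by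
    intro δ
    rw [hΦ'e, hγ, map_mul, map_mul, map_inv]
    group
  refine hCR k p Ω Λ hI jI ρI hB G (GT.Pc P (c ^ m)) Φ' ⟨?_, ?_, ?_, ?_⟩
  · exact hCp.2.2 _ _ _ _ _ _ (hCp.2.1 _ _ _ _ h e ρe hCe G Φ hΦ.cts)
  · exact (MulAut.conj (Φ γ₀)).surjective.comp
      (hSur k p Ω Λ hI jI ρI hB m h e ρe hm hpm hR hCe G Φ hΦ.cts hΦ.surj hΦ.unr)
  · intro a h' j' ρ' hh' hc' δ
    have h1 := hBcU k p Ω Λ hI jI ρI hB G Φ (X ^ m) (by rw [natDegree_X_pow]; exact hm) h e ρe hR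
      hCe a (hΦ.unr _) h' j' ρ' hh' hc' δ
    rw [hΦ'e]
    rw [MonoidHom.comp_apply] at h1
    rw [h1]
    group
  · change (Φ'.comp ρI).range = P ⊔ Subgroup.zpowers (c ^ m)
    rw [← hmap, ← hr]
    ext x
    constructor
    · rintro ⟨δ, rfl⟩
      exact ⟨ρσ δ, ⟨δ, rfl⟩, (hΦ'I δ).symm⟩
    · rintro ⟨_, ⟨δ, rfl⟩, rfl⟩
      exact ⟨δ, hΦ'I δ⟩

end MP7b0bad.SV
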