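import Pool.Agent.Work.MP_7b0bad_ag.SV.VStmts2

set_option autoImplicit false

/-!
# Existence of the base fields
-/

namespace MP7b0bad.SV

open Polynomial

theorem VBase_pI (k : Type) [Field k] (c : k) : pI k ≠ HahnSeries.C c := by
  intro h
  have h1 := congrArg (fun a : LaurentSeries k => a.coeff (-1)) h
  simp only [pI, HahnSeries.coeff_single_same] at h1
  rw [HahnSeries.C_apply, HahnSeries.coeff_single_of_ne (by norm_num)] at h1
  exact one_ne_zero h1

theorem prf_VBase (hVPl : VPl) (hVH : VH) : VBase := by
  intro k _ _ p _ _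
  obtain ⟨hI, hhI⟩ := (hVH k).1 (pI k) (VBase_pI k)
  obtain ⟨jI, ρI, hc⟩ := (hVPl (RatFunc k) (LaurentSeries k) (SeparableClosure (RatFunc k))
    (SeparableClosure (LaurentSeries k)) hI).1
  exact ⟨SeparableClosure (RatFunc k), SeparableClosure (LaurentSeries k), inferInstance,
    inferInstance, inferInstance, inferInstance, hI, jI, ρI,
    ⟨inferInstance, inferInstance, Fact.out, inferInstance, inferInstance, inferInstance,
      inferInstance, hhI, hc⟩⟩

end MP7b0bad.SV
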