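import Pool.Agent.Work.MP_7b0bad_ag.SV.VStmts

set_option autoImplicit false

/-!
# Base change at infinity: comparison of the places
-/

namespace MP7b0bad.SV

open Polynomial

theorem prf_VBcI (hPl : VPl) (hCp : VCp) (hH : VH) : VBcI := by
  intro k _ p Ω Λ _ _ _ _ hI jI ρI hB f h e ρe hR hCe σ jσ ρσ hσc hσI hCσ
  have hgΩ := hB.galΩ
  have hgΛ := hB.galΛ
  have hsΛ := hB.scΛ
  obtain ⟨-, hHu, -, hHc⟩ := hH k
  have h1 : IsH (hI.comp h) (f.eval₂ HahnSeries.C (pI k)) := hHc f (pI k) h hI hR hB.isH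
  have h2 : IsH (σ.comp hI) (f.eval₂ HahnSeries.C (pI k)) := by
    constructor
    · intro c
      rw [RingHom.comp_apply, hB.isH.cst, hσc]
    · rw [RingHom.comp_apply, hB.isH.X, hσI]
  have h3 : hI.comp h = σ.comp hI := hHu _ _ _ h1 h2
  have c1 : Comp (σ.comp hI) (jI.comp e) (ρe.comp ρI) := by
    rw [← h3]
    exact hCp.1 _ _ _ _ _ _ h hI e jI ρe ρI hCe hB.comp
  have c2 : Comp (σ.comp hI) (jσ.comp jI) (ρI.comp ρσ) :=
    hCp.1 _ _ _ _ _ _ hI σ jI jσ ρI ρσ hB.comp hCσ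
  obtain ⟨γ₀, -, hγ⟩ := (hPl (RatFunc k) (LaurentSeries k) Ω Λ (σ.comp hI)).2
    (jσ.comp jI) (jI.comp e) (ρI.comp ρσ) (ρe.comp ρI) c2 c1
  exact ⟨γ₀, fun δ => hγ δ⟩

end MP7b0bad.SV
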