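import Pool.Agent.Work.MP_7b0bad_ag.SV.VStmts

set_option autoImplicit false

/-!
# Item VBcU: base change by a polynomial, unramified points
-/

namespace MP7b0bad.SV

open Polynomial

theorem VBcU_coeff {k : Type} [Field k] (P : PowerSeries k) (n : ℤ) (hn : n < 0) :
    (HahnSeries.ofPowerSeries ℤ k P).coeff n = 0 := by
  rw [HahnSeries.ofPowerSeries_apply]
  apply HahnSeries.embDomain_of_notMem_range
  rintro ⟨m, hm⟩
  have h1 : (m : ℤ) = n := hm
  have h2 : (0 : ℤ) ≤ (m : ℤ) := Int.natCast_nonneg m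
  omega

theorem VBcU_order_nonneg {k : Type} [Field k] (a : k) (q : k[X])
    (hq : q.eval₂ (HahnSeries.C : k →+* LaurentSeries k) (pA a) ≠ 0) :
    0 ≤ (q.eval₂ (HahnSeries.C : k →+* LaurentSeries k) (pA a)).order := by
  set w := q.eval₂ (HahnSeries.C : k →+* LaurentSeries k) (pA a) with hw
  set P : PowerSeries k := q.eval₂ (PowerSeries.C (R := k)) (PowerSeries.C a + PowerSeries.X)
    with hP
  have h1 : HahnSeries.ofPowerSeries ℤ k P = w := by
    rw [hP, hw, Polynomial.hom_eval₂]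
    congr 1
    · ext x : 1
      simp [HahnSeries.ofPowerSeries_C]
    · rw [pA, map_add, HahnSeries.ofPowerSeries_C, HahnSeries.ofPowerSeries_X]
  by_contra hneg
  rw [not_le] at hneg
  apply hq
  rw [← HahnSeries.coeff_order_eq_zero]
  have h2 := VBcU_coeff P w.order hneg
  rw [h1] at h2
  exact h2

theorem prf_VBcU (hUp : VUp) (hH : VH) (hCp : VCp) : VBcU := by
  intro k _ p Ω Λ _ _ _ _ hI jI ρI hB G _ Φ f hf h e ρe hR hC a hun h' j' ρ' hH' hC' δ
  obtain ⟨-, -, -, h4⟩ := hH k
  have hcomp := hCp.1 _ _ _ _ _ _ h h' e j' ρe ρ' hC hC'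
  have hIs := h4 f (pA a) h h' hR hH'
  set g : LaurentSeries k := f.eval₂ HahnSeries.C (pA a) - HahnSeries.C (f.eval a) with hg
  have hfg : f.eval₂ HahnSeries.C (pA a) = HahnSeries.C (f.eval a) + g := by rw [hg]; ring
  have hpA : pA a - HahnSeries.C a = HahnSeries.single (1 : ℤ) (1 : k) := by rw [pA]; ring
  obtain ⟨q, hq⟩ : X - C a ∣ f - C (f.eval a) := by
    rw [dvd_iff_isRoot]
    simp
  have hgq : g = HahnSeries.single (1 : ℤ) (1 : k) * q.eval₂ HahnSeries.C (pA a) := by
    have h1 := congrArg (Polynomial.eval₂ (HahnSeries.C : k →+* LaurentSeries k) (pA a)) hq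
    rw [eval₂_sub, eval₂_mul, eval₂_sub, eval₂_X, eval₂_C, eval₂_C, hpA] at h1
    rw [hg, h1]
  have hg0 : g ≠ 0 := by
    intro h0
    rw [h0, add_zero] at hfg
    have h1 : h' (algebraMap k[X] (RatFunc k) f) = h' (algebraMap k[X] (RatFunc k) (C (f.eval a))) := by
      have h2 : h' (algebraMap k[X] (RatFunc k) f) = f.eval₂ HahnSeries.C (pA a) := by
        have h3 := (h4 f (pA a) h h' hR hH').X
        rw [RingHom.comp_apply, hR.X] at h3
        exact h3
      have h5 : algebraMap k[X] (RatFunc k) (C (f.eval a)) = RatFunc.C (f.eval a) := by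
        rw [RatFunc.algebraMap_C]
      rw [h2, hfg, h5, hH'.cst]
    have h6 := (IsFractionRing.injective k[X] (RatFunc k)) (h'.injective h1)
    rw [h6, natDegree_C] at hf
    exact lt_irrefl _ hf
  have hq0 : q.eval₂ (HahnSeries.C : k →+* LaurentSeries k) (pA a) ≠ 0 := by
    intro h0
    rw [h0, mul_zero] at hgq
    exact hg0 hgq
  have hord : 0 < g.order := by
    rw [hgq, HahnSeries.order_mul (by simp) hq0, HahnSeries.order_single one_ne_zero]
    have := VBcU_order_nonneg a q hq0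
    omega
  rw [hfg] at hIs
  exact hUp k p Ω Λ hI jI ρI hB G Φ (f.eval a) hun g hg0 hord (h'.comp h) (j'.comp e)
    (ρe.comp ρ') hIs hcomp δ

end MP7b0bad.SV
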