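import Pool.Agent.Work.MP_7b0bad_ag.SV.VStmts

set_option autoImplicit false

/-!
# Item VCR: a cover gives `Rel`
-/

namespace MP7b0bad.SV

open Polynomial

theorem VCR_atInf {k : Type} [Field k] {hI : RatFunc k →+* LaurentSeries k} (h : IsH hI (pI k))
    (f : k[X]) : hI (algebraMap k[X] (RatFunc k) f) = atInf k f := by
  have h1 : hI.comp (algebraMap k[X] (RatFunc k)) = atInf k := by
    apply Polynomial.ringHom_ext
    · intro c
      rw [RingHom.comp_apply, RatFunc.algebraMap_C, h.cst]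
      simp [atInf]
    · rw [RingHom.comp_apply, RatFunc.algebraMap_X, h.X]
      simp [atInf, pI]
  rw [← h1]
  rfl

theorem prf_VCR (_hPl : VPl) (hCp : VCp) (hFld : VFld) (hRg : VRg) : VCR := by
  intro k _ p Ω Λ _ _ _ _ hI jI ρI hB G _ _ G₀ Φ hC
  obtain ⟨B, iB1, iB2, iB3, β, hGal, hdom, hβinj, hβalg, hβact⟩ :=
    hRg k p Ω Λ hI jI ρI hB G Φ hC.cts hC.surj hC.unr
  have := hB.galΛ
  have hmem : ∀ δ : Λ ≃ₐ[LaurentSeries k] Λ, Φ (ρI δ) ∈ G₀ := by
    intro δ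
    rw [← hC.inf]
    exact ⟨δ, rfl⟩
  let Ψ : (Λ ≃ₐ[LaurentSeries k] Λ) →* G₀ := (Φ.comp ρI).codRestrict G₀ hmem
  have hΨ : ∀ δ, ((Ψ δ : G₀) : G) = Φ (ρI δ) := fun δ => rfl
  have hsurj : Function.Surjective Ψ := by
    rintro ⟨g, hg⟩
    rw [← hC.inf] at hg
    obtain ⟨δ, hδ⟩ := hg
    exact ⟨δ, Subtype.ext hδ⟩
  have hcts : Cts Ψ := by
    obtain ⟨S, hS⟩ := hCp.2.1 (RatFunc k) (LaurentSeries k) Ω Λ hI jI ρI hB.comp G Φ hC.cts
    exact ⟨S, fun γ hγ => Subtype.ext (hS γ hγ)⟩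
  obtain ⟨E, iE1, iE2, iE3, ε, hGalE, hεalg, hεact, hεfix⟩ :=
    hFld (LaurentSeries k) Λ G₀ Ψ hcts hsurj
  have hεinj : Function.Injective ε := ε.injective
  have hact : ∀ (δ : Λ ≃ₐ[LaurentSeries k] Λ) (b : B),
      δ (jI (β b)) = jI (β (((Ψ δ : G₀) : G) • b)) := by
    intro δ b
    rw [← hB.comp.res, hβact, hΨ]
  have hex : ∀ b : B, ∃ x : E, ε x = jI (β b) := by
    intro b
    apply hεfix
    intro δ hδ
    rw [hact, hδ]
    simp
  choose ι hι using hex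
  let ι' : B →+* E :=
    { toFun := ι
      map_one' := hεinj (by rw [hι, map_one, map_one, map_one])
      map_zero' := hεinj (by rw [hι, map_zero, map_zero, map_zero])
      map_mul' := fun a b => hεinj (by rw [map_mul, hι, hι, hι, map_mul, map_mul])
      map_add' := fun a b => hεinj (by rw [map_add, hι, hι, hι, map_add, map_add]) }
  refine ⟨B, iB1, iB2, iB3, E, inferInstance, iE2, iE3, ι', hGal, hdom, hGalE, inferInstance,
    ?_, ?_⟩
  · intro f
    apply hεinj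
    change ε (ι _) = _
    rw [hι, hβalg, hB.comp.alg, hεalg, VCR_atInf hB.isH]
  · intro g b
    obtain ⟨δ, rfl⟩ := hsurj g
    apply hεinj
    change ε (ι _) = ε (Ψ δ • ι b)
    rw [hι, ← hact, ← hεact, hι]

end MP7b0bad.SV
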