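import Pool.Agent.Work.MP_7b0bad_ag.SV.VStmts

set_option autoImplicit false

namespace MP7b0bad.SV

theorem prf_VCp : VCp := by
  classical
  refine ⟨?_, ?_, ?_⟩
  · intro F₁ F₂ F₃ Ω₁ Ω₂ Ω₃ _ _ _ _ _ _ _ _ _ h h' j j' ρ ρ' H H'
    refine ⟨fun a => ?_, fun δ x => ?_⟩
    · change j' (j (algebraMap F₁ Ω₁ a)) = algebraMap F₃ Ω₃ (h' (h a))
      rw [H.alg, H'.alg]
    · change j' (j (ρ (ρ' δ) x)) = δ (j' (j x))
      rw [H.res, H'.res]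
  · rintro F₁ F₂ Ω₁ Ω₂ _ _ _ _ _ _ h j ρ H G _ Φ ⟨S, hS⟩
    refine ⟨S.image j, fun γ hγ => ?_⟩
    refine hS _ fun x hx => ?_
    apply j.injective
    rw [H.res]
    exact hγ _ (Finset.mem_image_of_mem _ hx)
  · rintro F Ω _ _ _ G G' _ _ Φ q ⟨S, hS⟩
    refine ⟨S, fun γ hγ => ?_⟩
    change q (Φ γ) = 1
    rw [hS γ hγ, map_one]

end MP7b0bad.SV
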