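import Pool.Agent.Work.MP_7b0bad_ag.SV.VStmts

set_option autoImplicit false

/-!
# The field of a homomorphism (item VFld)
-/

namespace MP7b0bad.SV

section

variable {F Ω G : Type} [Field F] [Field Ω] [Algebra F Ω] [Group G]

/-- the fixed field of the kernel -/
noncomputable abbrev VFldL (Φ : (Ω ≃ₐ[F] Ω) →* G) : IntermediateField F Ω :=
  IntermediateField.fixedField Φ.ker

theorem VFld_mem (Φ : (Ω ≃ₐ[F] Ω) →* G) (x : Ω) :
    x ∈ VFldL Φ ↔ ∀ γ : Ω ≃ₐ[F] Ω, Φ γ = 1 → γ x = x := by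
  rw [VFldL, IntermediateField.mem_fixedField_iff]
  exact ⟨fun h γ hγ => h γ (by rwa [MonoidHom.mem_ker]), fun h γ hγ => h γ
    (by rwa [MonoidHom.mem_ker] at hγ)⟩

theorem VFld_act_mem (Φ : (Ω ≃ₐ[F] Ω) →* G) (γ : Ω ≃ₐ[F] Ω) (x : Ω) (hx : x ∈ VFldL Φ) :
    γ x ∈ VFldL Φ := by
  rw [VFld_mem] at hx ⊢
  intro δ hδ
  have h1 : (γ⁻¹ * δ * γ) x = x := hx _ (by simp [hδ])
  have h2 : γ ((γ⁻¹ * δ * γ) x) = δ (γ x) := by
    have : γ * (γ⁻¹ * δ * γ) = δ * γ := by group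
    calc γ ((γ⁻¹ * δ * γ) x) = (γ * (γ⁻¹ * δ * γ)) x := rfl
      _ = (δ * γ) x := by rw [this]
      _ = δ (γ x) := rfl
  rw [← h2, h1]

theorem VFld_act_eq (Φ : (Ω ≃ₐ[F] Ω) →* G) (γ γ' : Ω ≃ₐ[F] Ω) (h : Φ γ = Φ γ') (x : Ω)
    (hx : x ∈ VFldL Φ) : γ x = γ' x := by
  rw [VFld_mem] at hx
  have h1 : (γ'⁻¹ * γ) x = x := hx _ (by simp [h])
  have h2 : γ' ((γ'⁻¹ * γ) x) = γ x := by
    have : γ' * (γ'⁻¹ * γ) = γ := by group
    calc γ' ((γ'⁻¹ * γ) x) = (γ' * (γ'⁻¹ * γ)) x := rfl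
      _ = γ x := by rw [this]
  rw [← h2, h1]

/-- the action of `G` on the fixed field -/
@[reducible] noncomputable def VFldAct (Φ : (Ω ≃ₐ[F] Ω) →* G) (hs : Function.Surjective Φ) :
    MulSemiringAction G (VFldL Φ) where
  smul g x := ⟨(Function.surjInv hs g) (x : Ω), VFld_act_mem Φ _ _ x.2⟩
  one_smul x := by
    apply Subtype.ext
    change (Function.surjInv hs 1) (x : Ω) = x
    rw [VFld_act_eq Φ (Function.surjInv hs 1) 1 (by rw [Function.surjInv_eq hs, map_one]) _ x.2]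
    rfl
  mul_smul g g' x := by
    apply Subtype.ext
    change (Function.surjInv hs (g * g')) (x : Ω) =
      (Function.surjInv hs g) ((Function.surjInv hs g') (x : Ω))
    rw [VFld_act_eq Φ (Function.surjInv hs (g * g'))
      (Function.surjInv hs g * Function.surjInv hs g')
      (by rw [Function.surjInv_eq hs, map_mul, Function.surjInv_eq hs, Function.surjInv_eq hs]) _ x.2]
    rfl
  smul_zero g := by
    apply Subtype.ext
    change (Function.surjInv hs g) ((0 : VFldL Φ) : Ω) = ((0 : VFldL Φ) : Ω)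
    simp
  smul_add g x y := by
    apply Subtype.ext
    change (Function.surjInv hs g) ((x + y : VFldL Φ) : Ω) =
      (Function.surjInv hs g) (x : Ω) + (Function.surjInv hs g) (y : Ω)
    simp
  smul_one g := by
    apply Subtype.ext
    change (Function.surjInv hs g) ((1 : VFldL Φ) : Ω) = ((1 : VFldL Φ) : Ω)
    simp
  smul_mul g x y := by
    apply Subtype.ext
    change (Function.surjInv hs g) ((x * y : VFldL Φ) : Ω) =
      (Function.surjInv hs g) (x : Ω) * (Function.surjInv hs g) (y : Ω)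
    simp

theorem VFld_smul (Φ : (Ω ≃ₐ[F] Ω) →* G) (hs : Function.Surjective Φ) (γ : Ω ≃ₐ[F] Ω)
    (x : VFldL Φ) : letI := VFldAct Φ hs
    (((Φ γ) • x : VFldL Φ) : Ω) = γ (x : Ω) := by
  change (Function.surjInv hs (Φ γ)) (x : Ω) = γ (x : Ω)
  exact VFld_act_eq Φ _ _ (by rw [Function.surjInv_eq hs]) _ x.2

theorem VFld_moved [IsGalois F Ω] (Φ : (Ω ≃ₐ[F] Ω) →* G) (hc : Cts Φ) (γ : Ω ≃ₐ[F] Ω)
    (hγ : Φ γ ≠ 1) : ∃ x ∈ VFldL Φ, γ x ≠ x := by
  obtain ⟨S, hS⟩ := hc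
  by_contra hcon
  push Not at hcon
  -- the kernel is open
  let E : IntermediateField F Ω := IntermediateField.adjoin F (S : Set Ω)
  have : FiniteDimensional F E :=
    IntermediateField.finiteDimensional_adjoin fun x _ => Algebra.IsIntegral.isIntegral x
  have hle : E.fixingSubgroup ≤ Φ.ker := by
    intro δ hδ
    rw [MonoidHom.mem_ker]
    apply hS
    intro x hx
    rw [IntermediateField.mem_fixingSubgroup_iff] at hδ
    exact hδ x (IntermediateField.subset_adjoin F _ hx)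
  have hopen : IsOpen (Φ.ker : Set (Ω ≃ₐ[F] Ω)) :=
    Subgroup.isOpen_mono hle (IntermediateField.fixingSubgroup_isOpen E)
  have hclosed : IsClosed (Φ.ker : Set (Ω ≃ₐ[F] Ω)) := OpenSubgroup.isClosed ⟨Φ.ker, hopen⟩
  have hfix := InfiniteGalois.fixingSubgroup_fixedField
    (⟨Φ.ker, hclosed⟩ : ClosedSubgroup (Ω ≃ₐ[F] Ω))
  have hmem : γ ∈ (VFldL Φ).fixingSubgroup := by
    rw [IntermediateField.mem_fixingSubgroup_iff]
    exact hcon
  have : γ ∈ Φ.ker := by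
    have h := hfix ▸ hmem
    exact h
  exact hγ (by rwa [MonoidHom.mem_ker] at this)

end

theorem prf_VFld : VFld := by
  intro F Ω _ _ _ _ G _ _ Φ hc hs
  letI := VFldAct Φ hs
  refine ⟨VFldL Φ, inferInstance, inferInstance, VFldAct Φ hs, (VFldL Φ).val.toRingHom,
    ⟨?_, ?_, ?_, ?_⟩, ?_, ?_, ?_⟩
  · intro g a
    obtain ⟨γ, rfl⟩ := hs g
    apply Subtype.ext
    rw [VFld_smul Φ hs]
    exact γ.commutes a
  · exact (algebraMap F (VFldL Φ)).injective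
  · intro b hb
    have h1 : ∀ γ : Ω ≃ₐ[F] Ω, γ (b : Ω) = b := by
      intro γ
      rw [← VFld_smul Φ hs, hb]
    have h2 := (InfiniteGalois.mem_bot_iff_fixed (k := F) (b : Ω)).2 h1
    obtain ⟨a, ha⟩ := IntermediateField.mem_bot.1 h2
    exact ⟨a, Subtype.ext ha⟩
  · intro σ hσ
    obtain ⟨γ, rfl⟩ := hs σ
    obtain ⟨x, hx, hne⟩ := VFld_moved Φ hc γ hσ
    have hmem : ((⟨x, hx⟩ : VFldL Φ) - Φ γ • (⟨x, hx⟩ : VFldL Φ)) ∈
        {y : VFldL Φ | ∃ b : VFldL Φ, y = b - Φ γ • b} := ⟨_, rfl⟩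
    have hne0 : ((⟨x, hx⟩ : VFldL Φ) - Φ γ • (⟨x, hx⟩ : VFldL Φ)) ≠ 0 := by
      intro h0
      have h1 : (⟨x, hx⟩ : VFldL Φ) = Φ γ • (⟨x, hx⟩ : VFldL Φ) := sub_eq_zero.1 h0
      have h2 := congrArg (fun y : VFldL Φ => (y : Ω)) h1
      simp only [VFld_smul Φ hs] at h2
      exact hne h2.symm
    exact Ideal.eq_top_of_isUnit_mem _ (Ideal.subset_span hmem) (isUnit_iff_ne_zero.2 hne0)
  · intro a
    rfl
  · intro γ x
    exact (VFld_smul Φ hs γ x).symm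
  · intro y hy
    exact ⟨⟨y, (VFld_mem Φ y).2 hy⟩, rfl⟩

end MP7b0bad.SV
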