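import Pool.Agent.Work.MP_7b0bad_ag.SV.VStmts

set_option autoImplicit false

/-!
Proof of the statement VHom: the homomorphism of a Galois extension.
-/

namespace MP7b0bad.SV

/-- a Galois algebra which is a field is a Galois extension with group `G` -/
theorem VHom_gal {F G L : Type} [Field F] [Group G] [Field L] [Algebra F L]
    [MulSemiringAction G L] (h : GalAlg F G L) : IsGaloisGroup G F L := by
  refine ⟨⟨?_⟩, ⟨?_⟩, ⟨?_⟩⟩
  · intro g g' hgg
    by_contra hne
    have h1 : g⁻¹ * g' ≠ 1 := by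
      intro h2
      exact hne (inv_mul_eq_one.1 h2)
    have h2 := h.unr _ h1
    have h3 : {x : L | ∃ b : L, x = b - (g⁻¹ * g') • b} ⊆ {0} := by
      rintro x ⟨b, rfl⟩
      rw [Set.mem_singleton_iff, sub_eq_zero, mul_smul, ← hgg b, inv_smul_smul]
    have h4 : Ideal.span {x : L | ∃ b : L, x = b - (g⁻¹ * g') • b} ≤ ⊥ := by
      rw [Ideal.span_le]
      intro x hx
      exact (Submodule.mem_bot L).2 (h3 hx)
    rw [h2] at h4
    exact bot_ne_top (le_antisymm bot_le h4)
  · intro g a x
    rw [Algebra.smul_def, Algebra.smul_def, smul_mul', h.comm]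
  · exact h.inv

theorem prf_VHom : VHom := by
  intro F Ω _ _ _ _ _ G _ _ L _ _ _ h
  haveI hG : IsGaloisGroup G F L := VHom_gal h
  haveI : IsGalois F L := IsGaloisGroup.isGalois G F L
  haveI : FiniteDimensional F L := IsGaloisGroup.finiteDimensional G F L
  have f : L →ₐ[F] Ω := IsSepClosed.lift
  letI : Algebra L Ω := f.toRingHom.toAlgebra
  haveI : IsScalarTower F L Ω := IsScalarTower.of_algebraMap_eq' f.comp_algebraMap.symm
  set e : G ≃* (L ≃ₐ[F] L) := IsGaloisGroup.mulEquivAlgEquiv G F L with he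
  have hes : ∀ (g : G) (x : L), e g x = g • x := fun g x => rfl
  set Φ : (Ω ≃ₐ[F] Ω) →* G := e.symm.toMonoidHom.comp (AlgEquiv.restrictNormalHom L) with hΦ
  have hrel : ∀ (γ : Ω ≃ₐ[F] Ω) (x : L), γ (algebraMap L Ω x) = algebraMap L Ω (Φ γ • x) := by
    intro γ x
    rw [← hes]
    have h1 : e (Φ γ) = AlgEquiv.restrictNormalHom L γ := e.apply_symm_apply _
    rw [h1]
    exact (AlgEquiv.restrictNormal_commutes γ L x).symm
  refine ⟨algebraMap L Ω, Φ, ?_, ?_, ?_, hrel⟩
  · classical
    set b := Module.finBasis F L with hb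
    refine ⟨Finset.univ.image (fun i => algebraMap L Ω (b i)), ?_⟩
    intro γ hγ
    have h1 : ∀ i, Φ γ • b i = b i := by
      intro i
      apply (algebraMap L Ω).injective
      rw [← hrel]
      exact hγ _ (Finset.mem_image_of_mem _ (Finset.mem_univ i))
    have h2 : (e (Φ γ)).toLinearMap = LinearMap.id := by
      apply b.ext
      intro i
      exact h1 i
    have h3 : e (Φ γ) = 1 := by
      ext x
      exact LinearMap.congr_fun h2 x
    exact (MulEquiv.map_eq_one_iff e).1 h3
  · intro g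
    obtain ⟨γ, hγ⟩ := AlgEquiv.restrictNormalHom_surjective (F := F) (K₁ := L) Ω (e g)
    refine ⟨γ, ?_⟩
    show e.symm (AlgEquiv.restrictNormalHom L γ) = g
    rw [hγ]
    exact e.symm_apply_apply g
  · intro a
    exact (IsScalarTower.algebraMap_apply F L Ω a).symm

end MP7b0bad.SV
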