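import Pool.Agent.Work.MP_7b0bad_ag.SV.VStmts

set_option autoImplicit false

/-!
# Hilbert 90 for characters of a Galois group with values in the base field
-/

namespace MP7b0bad.SV

open groupCohomology

theorem prf_VKum : VKum := by
  intro F Ω _ _ _ _ χ hχ
  obtain ⟨S, hS⟩ := hχ
  have : Finite (S : Set Ω) := Finset.finite_toSet S
  let K : FiniteGaloisIntermediateField F Ω :=
    FiniteGaloisIntermediateField.adjoin F (S : Set Ω)
  have hSK : (S : Set Ω) ⊆ K.toIntermediateField := by
    exact FiniteGaloisIntermediateField.subset_adjoin F (S : Set Ω)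
  have : FiniteDimensional F K.toIntermediateField := K.finiteDimensional
  have : IsGalois F K.toIntermediateField := K.isGalois
  have : Normal F K.toIntermediateField := inferInstance
  have : Normal F Ω := inferInstance
  -- the action on `K` determines the value of the character
  have hker : ∀ γ δ : Ω ≃ₐ[F] Ω, (∀ x : K.toIntermediateField, γ (x : Ω) = δ (x : Ω)) →
      χ γ = χ δ := by
    intro γ δ hx
    have h1 : χ (δ⁻¹ * γ) = 1 := by
      apply hS
      intro x hxS
      have h2 : γ x = δ x := hx ⟨x, hSK hxS⟩
      have h3 : (δ⁻¹ * γ) x = δ⁻¹ (γ x) := rfl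
      rw [h3, h2]
      exact δ.symm_apply_apply x
    have h2 : χ γ = χ δ * χ (δ⁻¹ * γ) := by
      rw [← map_mul]
      congr 1
      group
    rw [h2, h1, mul_one]
  -- lifts of the automorphisms of `K`
  have hlift : ∀ σ : K.toIntermediateField ≃ₐ[F] K.toIntermediateField,
      ∃ γ : Ω ≃ₐ[F] Ω, ∀ x : K.toIntermediateField, γ (x : Ω) = (σ x : Ω) := by
    intro σ
    refine ⟨σ.liftNormal Ω, fun x => ?_⟩
    exact AlgEquiv.liftNormal_commutes σ Ω x
  choose lift hl using hlift
  let f : (K.toIntermediateField ≃ₐ[F] K.toIntermediateField) → (K.toIntermediateField)ˣ :=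
    fun σ => Units.map (algebraMap F K.toIntermediateField).toMonoidHom (χ (lift σ))
  have hf : IsMulCocycle₁ f := by
    intro g h
    have h1 : χ (lift (g * h)) = χ (lift h) * χ (lift g) := by
      rw [mul_comm, ← map_mul]
      apply hker
      intro x
      rw [hl]
      have h2 : (lift g * lift h) (x : Ω) = lift g (lift h (x : Ω)) := rfl
      rw [h2, hl, hl]
      rfl
    have h2 : g • f h = f h := by
      apply Units.ext
      change g (algebraMap F K.toIntermediateField ((χ (lift h) : Fˣ) : F)) = _
      rw [AlgEquiv.commutes]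
      rfl
    rw [h2]
    change Units.map _ _ = Units.map _ _ * Units.map _ _
    rw [h1, map_mul]
  obtain ⟨y, hy⟩ := isMulCoboundary₁_of_isMulCocycle₁_of_aut_to_units f hf
  refine ⟨((y : K.toIntermediateField) : Ω), ?_, ?_⟩
  · intro h0
    apply y.ne_zero
    exact Subtype.ext h0
  · intro γ
    -- the restriction of `γ`
    let σ : K.toIntermediateField ≃ₐ[F] K.toIntermediateField :=
      γ.restrictNormal K.toIntermediateField
    have hσ : ∀ x : K.toIntermediateField, ((σ x : K.toIntermediateField) : Ω) = γ (x : Ω) := by
      intro x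
      exact AlgEquiv.restrictNormal_commutes γ K.toIntermediateField x
    have h1 : χ (lift σ) = χ γ := by
      apply hker
      intro x
      rw [hl, hσ]
    have h2 : σ • y = f σ * y := by
      rw [← hy σ]
      simp
    have h3 : σ (y : K.toIntermediateField) =
        algebraMap F K.toIntermediateField ((χ (lift σ) : Fˣ) : F) * (y : K.toIntermediateField) := by
      have h4 := congrArg (fun u : (K.toIntermediateField)ˣ => (u : K.toIntermediateField)) h2
      exact h4
    rw [← hσ, h3, h1]
    rfl

end MP7b0bad.SV
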