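import Pool.Agent.Work.MP_7b0bad_ag.SV.VStmts

set_option autoImplicit false

/-!
# MP_7b0bad_ag, item VLT: tame characters (helper12)
-/

namespace MP7b0bad.SV

open Polynomial

/-- `X ^ n - s` is irreducible over `k((s))` -/
theorem VLT_irr (k : Type) [Field k] (n : ℕ) (hn : 0 < n) :
    Irreducible (X ^ n - C (HahnSeries.single (1 : ℤ) (1 : k)) : (LaurentSeries k)[X]) := by
  have hP : (Ideal.span {(PowerSeries.X : PowerSeries k)}).IsPrime := PowerSeries.span_X_isPrime
  have hmon : (X ^ n - C (PowerSeries.X : PowerSeries k) : (PowerSeries k)[X]).Monic :=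
    monic_X_pow_sub_C _ hn.ne'
  have hdeg : (X ^ n - C (PowerSeries.X : PowerSeries k) : (PowerSeries k)[X]).natDegree = n :=
    natDegree_X_pow_sub_C
  have h1 : Irreducible (X ^ n - C (PowerSeries.X : PowerSeries k) : (PowerSeries k)[X]) := by
    refine Polynomial.IsEisensteinAt.irreducible
      (𝓟 := Ideal.span {(PowerSeries.X : PowerSeries k)}) ⟨?_, ?_, ?_⟩ hP hmon.isPrimitive
      (by rw [hdeg]; exact hn)
    · rw [hmon.leadingCoeff]
      exact fun h => hP.ne_top ((Ideal.eq_top_iff_one _).2 h)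
    · intro m hm
      rw [hdeg] at hm
      rw [coeff_sub, coeff_X_pow, if_neg hm.ne, zero_sub, coeff_C]
      split_ifs
      · exact neg_mem (Ideal.mem_span_singleton_self _)
      · simp
    · rw [coeff_sub, coeff_X_pow, if_neg hn.ne, zero_sub, coeff_C_zero, neg_mem_iff,
        Ideal.span_singleton_pow, Ideal.mem_span_singleton, PowerSeries.X_pow_dvd_iff]
      intro h
      have := h 1 (by norm_num)
      rw [PowerSeries.coeff_one_X] at this
      exact one_ne_zero this
  have h2 := (Monic.irreducible_iff_irreducible_map_fraction_map (K := LaurentSeries k) hmon).1 h1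
  rwa [Polynomial.map_sub, Polynomial.map_pow, Polynomial.map_X, Polynomial.map_C,
    LaurentSeries.coe_algebraMap, HahnSeries.ofPowerSeries_X] at h2

/-- powers of `s` -/
theorem VLT_zpow (k : Type) [Field k] (m : ℤ) :
    (HahnSeries.single (1 : ℤ) (1 : k) : LaurentSeries k) ^ m = HahnSeries.single m (1 : k) := by
  have h1 : ∀ m : ℕ, (HahnSeries.single (1 : ℤ) (1 : k) : LaurentSeries k) ^ m =
      HahnSeries.single (m : ℤ) (1 : k) := by
    intro m
    rw [HahnSeries.single_pow, one_pow]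
    simp
  obtain ⟨m, rfl | rfl⟩ := m.eq_nat_or_neg
  · rw [zpow_natCast, h1]
  · rw [zpow_neg, zpow_natCast, h1]
    apply inv_eq_of_mul_eq_one_right
    rw [HahnSeries.single_mul_single, add_neg_cancel, one_mul, HahnSeries.single_zero_one]

theorem prf_VLT (hKum : VKum) (hY : YRoot) : VLT := by
  intro k _ _ p _ _ Λ _ _ _ _ n ζ hn hpn hζ
  have hnk : (n : k) ≠ 0 := by
    rw [Ne, CharP.cast_eq_zero_iff k p]
    exact hpn
  have hinj : Function.Injective (cΛ Λ : k → Λ) := by
    intro a b hab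
    exact HahnSeries.C_injective ((algebraMap (LaurentSeries k) Λ).injective hab)
  have hcmul : ∀ a b : k, cΛ Λ (a * b) = cΛ Λ a * cΛ Λ b := by
    intro a b
    simp only [cΛ, map_mul]
  have hcpow : ∀ (a : k) (m : ℕ), cΛ Λ (a ^ m) = cΛ Λ a ^ m := by
    intro a m
    simp only [cΛ, map_pow]
  have hcone : cΛ Λ (1 : k) = 1 := by simp [cΛ]
  have hcfix : ∀ (δ : Λ ≃ₐ[LaurentSeries k] Λ) (a : k), δ (cΛ Λ a) = cΛ Λ a := by
    intro δ a
    exact δ.commutes _
  have : NeZero n := ⟨hn.ne'⟩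
  have hζΛ : IsPrimitiveRoot (cΛ Λ ζ) n := by
    have := hζ.map_of_injective (f := ((algebraMap (LaurentSeries k) Λ).comp
      (HahnSeries.C : k →+* LaurentSeries k) : k →+* Λ)) (RingHom.injective _)
    exact this
  have hroots : ∀ x : Λ, x ^ n = 1 → ∃ m : ℕ, x = cΛ Λ (ζ ^ m) := by
    intro x hx
    obtain ⟨i, _, hi⟩ := hζΛ.eq_pow_of_pow_eq_one hx
    exact ⟨i, by rw [hcpow, hi]⟩
  have hnΛ : (n : Λ) ≠ 0 := by
    intro h
    apply hnk
    apply hinj
    have : cΛ Λ ((n : ℕ) : k) = ((n : ℕ) : Λ) := by simp [cΛ]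
    rw [this, h]
    simp [cΛ]
  have hs0 : lΛ Λ (HahnSeries.single (1 : ℤ) (1 : k)) ≠ 0 := by
    intro h
    have h2 : (HahnSeries.single (1 : ℤ) (1 : k) : LaurentSeries k) = 0 :=
      (map_eq_zero (algebraMap (LaurentSeries k) Λ)).1 h
    exact one_ne_zero ((HahnSeries.single_eq_zero_iff).1 h2)
  refine ⟨?_, ?_⟩
  · have : NeZero ((n : ℕ) : Λ) := ⟨hnΛ⟩
    obtain ⟨t, ht⟩ := IsSepClosed.exists_pow_nat_eq
      (lΛ Λ (HahnSeries.single (1 : ℤ) (1 : k))) n
    exact ⟨t, hζ, ht⟩
  · intro t ht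
    have ht0 : t ≠ 0 := by
      rintro rfl
      have := ht.root
      rw [zero_pow hn.ne'] at this
      exact hs0 this.symm
    have hτ : ∃ τ : Λ ≃ₐ[LaurentSeries k] Λ, τ t = cΛ Λ ζ * t := by
      have hmin : minpoly (LaurentSeries k) t =
          X ^ n - C (HahnSeries.single (1 : ℤ) (1 : k)) := by
        refine (minpoly.eq_of_irreducible_of_monic (VLT_irr k n hn) ?_
          (monic_X_pow_sub_C _ hn.ne')).symm
        rw [map_sub, map_pow, aeval_X, aeval_C, ht.root, sub_self]
      refine minpoly.exists_algEquiv_of_root' (Algebra.IsAlgebraic.isAlgebraic t) ?_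
      rw [hmin, map_sub, map_pow, aeval_X, aeval_C, mul_pow, ht.root, ← hcpow, hζ.pow_eq_one,
        hcone, one_mul, sub_self]
    have hδ : ∀ δ : Λ ≃ₐ[LaurentSeries k] Λ, ∃ m : ℕ, δ t = cΛ Λ (ζ ^ m) * t := by
      intro δ
      have h1 : (δ t * t⁻¹) ^ n = 1 := by
        rw [mul_pow, ← map_pow, ht.root, δ.commutes, inv_pow, ht.root, mul_inv_cancel₀ hs0]
      obtain ⟨m, hm⟩ := hroots _ h1
      exact ⟨m, by rw [← hm, inv_mul_cancel_right₀ ht0]⟩
    refine ⟨hτ, hδ, ?_⟩
    intro A _ _ c hc hA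
    -- the key fact
    have hkey : ∀ δ : Λ ≃ₐ[LaurentSeries k] Λ, δ t = t → c δ = 1 := by
      intro δ hδt
      by_contra hne
      have hexp : Monoid.exponent A ∣ n := Monoid.exponent_dvd_of_forall_pow_eq_one hA
      have : NeZero ((Monoid.exponent A : ℕ) : k) := by
        refine ⟨fun h => ?_⟩
        obtain ⟨m, hm⟩ := hexp
        apply hnk
        rw [hm, Nat.cast_mul, h, zero_mul]
      obtain ⟨ψ, hψ⟩ := CommGroup.exists_apply_ne_one_of_hasEnoughRootsOfUnity A k hne
      let χ : (Λ ≃ₐ[LaurentSeries k] Λ) →* (LaurentSeries k)ˣ :=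
        ((Units.map ((HahnSeries.C : k →+* LaurentSeries k) : k →* LaurentSeries k)).comp
          ψ).comp c
      have hχ : ∀ γ, ((χ γ : (LaurentSeries k)ˣ) : LaurentSeries k) =
          HahnSeries.C ((ψ (c γ) : kˣ) : k) := fun γ => rfl
      have hχc : Cts χ := by
        obtain ⟨S, hS⟩ := hc
        refine ⟨S, fun γ hγ => ?_⟩
        apply Units.ext
        rw [hχ, hS γ hγ, map_one]
        simp
      obtain ⟨y, hy0, hy⟩ := hKum _ _ χ hχc
      have hχn : ∀ γ, ((ψ (c γ) : kˣ) : k) ^ n = 1 := by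
        intro γ
        rw [← Units.val_pow_eq_pow_val, ← map_pow, hA, map_one, Units.val_one]
      have hyn : ∀ γ : Λ ≃ₐ[LaurentSeries k] Λ, γ (y ^ n) = y ^ n := by
        intro γ
        rw [map_pow, hy, mul_pow, hχ, ← map_pow, ← map_pow, hχn]
        simp
      obtain ⟨b, hb⟩ := (InfiniteGalois.mem_range_algebraMap_iff_fixed
        (k := LaurentSeries k) (K := Λ) (y ^ n)).2 hyn
      have hb0 : b ≠ 0 := by
        rintro rfl
        rw [map_zero] at hb
        exact pow_ne_zero n hy0 hb.symm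
      set s : LaurentSeries k := HahnSeries.single (1 : ℤ) (1 : k) with hs
      -- `b = s ^ m * v ^ n`
      obtain ⟨m, v, hv⟩ : ∃ (m : ℤ) (v : LaurentSeries k), b = s ^ m * v ^ n := by
        refine ⟨b.order, ?_⟩
        have h1 : HahnSeries.single (-b.order) (1 : k) * b ≠ 0 :=
          mul_ne_zero (by rw [Ne, HahnSeries.single_eq_zero_iff]; exact one_ne_zero) hb0
        have h2 : (HahnSeries.single (-b.order) (1 : k) * b).order = 0 := by
          rw [HahnSeries.order_mul (by rw [Ne, HahnSeries.single_eq_zero_iff]; exact one_ne_zero)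
            hb0, HahnSeries.order_single one_ne_zero, neg_add_cancel]
        obtain ⟨v, hv⟩ := hY k n hnk _ h1 (by rw [h2]; exact dvd_zero _)
        refine ⟨v, ?_⟩
        rw [hv, ← mul_assoc, VLT_zpow, HahnSeries.single_mul_single, add_neg_cancel, one_mul,
          HahnSeries.single_zero_one, one_mul]
      have hst : lΛ Λ s = t ^ n := ht.root.symm
      have hv0 : v ≠ 0 := by
        rintro rfl
        rw [zero_pow hn.ne', mul_zero] at hv
        exact hb0 hv
      have hz0 : t ^ m * lΛ Λ v ≠ 0 :=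
        mul_ne_zero (zpow_ne_zero _ ht0) ((_root_.map_ne_zero _).2 hv0)
      have hyz : (y * (t ^ m * lΛ Λ v)⁻¹) ^ n = 1 := by
        rw [mul_pow, ← hb, hv, inv_pow, mul_pow, map_mul, map_zpow₀, map_pow]
        have : (t ^ m) ^ n = (lΛ Λ s) ^ m := by
          rw [hst, ← zpow_natCast, ← zpow_natCast, ← zpow_mul, ← zpow_mul, mul_comm]
        rw [this]
        refine mul_inv_cancel₀ (mul_ne_zero (zpow_ne_zero _ ?_) (pow_ne_zero _ ?_))
        · exact hs0
        · exact (_root_.map_ne_zero _).2 hv0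
      obtain ⟨j, hj⟩ := hroots _ hyz
      have hyj : y = cΛ Λ (ζ ^ j) * (t ^ m * lΛ Λ v) := by
        rw [← hj, inv_mul_cancel_right₀ hz0]
      have hfix : δ y = y := by
        rw [hyj, map_mul, map_mul, map_zpow₀, hδt, hcfix]
        congr 2
        exact δ.commutes v
      have h3 := hy δ
      rw [hfix, hχ] at h3
      have h4 : cΛ Λ ((ψ (c δ) : kˣ) : k) = 1 := by
        have : cΛ Λ ((ψ (c δ) : kˣ) : k) * y = 1 * y := by
          rw [one_mul]
          exact h3.symm
        exact mul_right_cancel₀ hy0 this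
      apply hψ
      apply Units.ext
      apply hinj
      rw [h4, Units.val_one, hcone]
    obtain ⟨τ, hτ⟩ := hτ
    refine ⟨c τ, fun δ m hm => ?_⟩
    have hτm : ∀ m : ℕ, (τ ^ m) t = cΛ Λ (ζ ^ m) * t := by
      intro m
      induction m with
      | zero => simp [hcone]
      | succ m ih =>
        rw [pow_succ', AlgEquiv.mul_apply, ih, map_mul, hτ, hcfix, pow_succ, hcmul, mul_assoc]
    have h1 : ((τ ^ m)⁻¹ * δ) t = t := by
      rw [AlgEquiv.mul_apply, hm, ← hτm m, ← AlgEquiv.mul_apply, inv_mul_cancel,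
        AlgEquiv.one_apply]
    have h2 := hkey _ h1
    rw [map_mul, map_inv, map_pow, inv_mul_eq_one] at h2
    exact h2.symm

end MP7b0bad.SV
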