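import Pool.Agent.Work.MP_7b0bad_ag.SV.VStmts

set_option autoImplicit false

/-!
# VNaq: no unramified abelian covers of the line of degree prime to `p`
-/

namespace MP7b0bad.SV

open Polynomial

theorem VNaq_h (k : Type) [Field k] (u : LaurentSeries k) (h : RatFunc k →+* LaurentSeries k)
    (hh : IsH h u) (U : k[X]) :
    h (algebraMap k[X] (RatFunc k) U) = U.eval₂ HahnSeries.C u := by
  have e : h.comp (algebraMap k[X] (RatFunc k)) = eval₂RingHom HahnSeries.C u := by
    refine Polynomial.ringHom_ext (fun c => ?_) ?_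
    · simp only [RingHom.comp_apply, coe_eval₂RingHom, eval₂_C]
      rw [RatFunc.algebraMap_C, hh.cst]
    · simp only [RingHom.comp_apply, coe_eval₂RingHom, eval₂_X]
      rw [RatFunc.algebraMap_X, hh.X]
  exact congrArg (fun f : k[X] →+* LaurentSeries k => f U) e

theorem VNaq_unit (k : Type) [Field k] (a : k) (W : k[X]) (hW : W.eval a ≠ 0) :
    W.eval₂ HahnSeries.C (pA a) ≠ 0 ∧ (W.eval₂ HahnSeries.C (pA a)).order = 0 := by
  have e : W.eval₂ HahnSeries.C (pA a) = HahnSeries.ofPowerSeries ℤ k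
      (W.eval₂ PowerSeries.C (PowerSeries.C a + PowerSeries.X)) := by
    rw [hom_eval₂]
    congr 1
    · ext c
      simp [HahnSeries.ofPowerSeries_C]
    · rw [map_add, HahnSeries.ofPowerSeries_C, HahnSeries.ofPowerSeries_X]
      rfl
  set Q := W.eval₂ PowerSeries.C (PowerSeries.C a + PowerSeries.X) with hQ
  have h0 : PowerSeries.constantCoeff Q = W.eval a := by
    rw [hQ, hom_eval₂]
    have e1 : (PowerSeries.constantCoeff (R := k)).comp PowerSeries.C = RingHom.id k := by
      ext c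
      simp
    rw [e1, map_add, PowerSeries.constantCoeff_C, PowerSeries.constantCoeff_X, add_zero]
    rfl
  have h1 : (HahnSeries.ofPowerSeries ℤ k Q).coeff 0 ≠ 0 := by
    have := HahnSeries.ofPowerSeries_apply_coeff (Γ := ℤ) Q 0
    rw [Nat.cast_zero] at this
    rw [this, PowerSeries.coeff_zero_eq_constantCoeff_apply, h0]
    exact hW
  have h2 : HahnSeries.ofPowerSeries ℤ k Q ≠ 0 := by
    intro h
    rw [h] at h1
    exact h1 (by simp)
  rw [e]
  refine ⟨h2, le_antisymm (HahnSeries.order_le_of_coeff_ne_zero h1) ?_⟩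
  by_contra hlt
  rw [not_le] at hlt
  have h3 := HahnSeries.coeff_order_eq_zero.not.2 h2
  apply h3
  rw [HahnSeries.ofPowerSeries_apply, HahnSeries.embDomain_of_notMem_range]
  rintro ⟨n, hn⟩
  have : (0 : ℤ) ≤ (n : ℤ) := Int.natCast_nonneg n
  have h4 : ((n : ℕ) : ℤ) = (HahnSeries.ofPowerSeries ℤ k Q).order := hn
  omega

/-- the order of a polynomial at `a` is the multiplicity of the root `a` -/
theorem VNaq_ord (k : Type) [Field k] (a : k) (h : RatFunc k →+* LaurentSeries k)
    (hh : IsH h (pA a)) (U : k[X]) (hU : U ≠ 0) :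
    (h (algebraMap k[X] (RatFunc k) U)).order = U.rootMultiplicity a := by
  obtain ⟨W, hW, hW'⟩ := Polynomial.exists_eq_pow_rootMultiplicity_mul_and_not_dvd U hU a
  rw [dvd_iff_isRoot, IsRoot.def] at hW'
  obtain ⟨h1, h2⟩ := VNaq_unit k a W hW'
  have h3 : h (algebraMap k[X] (RatFunc k) (X - C a)) = HahnSeries.single (1 : ℤ) (1 : k) := by
    rw [VNaq_h k _ h hh, eval₂_sub, eval₂_X, eval₂_C]
    unfold pA
    ring
  set m := U.rootMultiplicity a with hm
  rw [hW, map_mul, map_mul, map_pow, map_pow, h3, VNaq_h k _ h hh W, HahnSeries.order_mul _ h1, h2,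
    HahnSeries.order_pow, HahnSeries.order_single (one_ne_zero)]
  · simp
  · exact pow_ne_zero _ (by simp)

/-- polynomials with all multiplicities divisible by `n` -/
theorem VNaq_pow (k : Type) [Field k] [IsAlgClosed k] (n : ℕ) (hn : 0 < n) : ∀ (d : ℕ) (U : k[X]),
    U.natDegree = d → U ≠ 0 → (∀ a : k, n ∣ U.rootMultiplicity a) → ∃ V : k[X], U = V ^ n := by
  intro d
  induction d using Nat.strong_induction_on with
  | _ d ih =>
    intro U hd hU hdiv
    by_cases h0 : d = 0
    · rw [h0] at hd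
      obtain ⟨z, hz⟩ := IsAlgClosed.exists_pow_nat_eq (U.coeff 0) hn
      refine ⟨C z, ?_⟩
      rw [← C_pow, hz]
      exact eq_C_of_natDegree_eq_zero hd
    · obtain ⟨a, ha⟩ := IsAlgClosed.exists_root U (by
        rw [degree_eq_natDegree hU, hd]
        exact_mod_cast h0)
      obtain ⟨W, hW, hW'⟩ := Polynomial.exists_eq_pow_rootMultiplicity_mul_and_not_dvd U hU a
      obtain ⟨t, ht⟩ := hdiv a
      have hm : 0 < U.rootMultiplicity a := (rootMultiplicity_pos hU).2 ha
      have hW0 : W ≠ 0 := by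
        rintro rfl
        rw [mul_zero] at hW
        exact hU hW
      have hdW : W.natDegree < d := by
        have h1 : U.natDegree = U.rootMultiplicity a + W.natDegree := by
          conv_lhs => rw [hW]
          rw [natDegree_mul (pow_ne_zero _ (X_sub_C_ne_zero a)) hW0, natDegree_pow,
            natDegree_X_sub_C, mul_one]
        omega
      obtain ⟨V, hV⟩ := ih _ hdW W rfl hW0 (by
        intro b
        by_cases hb : b = a
        · subst hb
          rw [dvd_iff_isRoot] at hW'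
          rw [rootMultiplicity_eq_zero hW']
          exact dvd_zero n
        · have h1 := hdiv b
          have h2 : rootMultiplicity b ((X - C a) ^ rootMultiplicity a U) = 0 := by
            apply rootMultiplicity_eq_zero
            rw [IsRoot.def, eval_pow, eval_sub, eval_X, eval_C]
            exact pow_ne_zero _ (sub_ne_zero.2 hb)
          rw [hW, rootMultiplicity_mul (by rw [← hW]; exact hU), h2, zero_add] at h1
          exact h1)
      refine ⟨(X - C a) ^ t * V, ?_⟩
      rw [hW, hV, ht, mul_pow, ← pow_mul, mul_comm t n]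

/-- `n`-th powers in `k(x)` -/
theorem VNaq_rat (k : Type) [Field k] [IsAlgClosed k] (n : ℕ) (hn : 0 < n) (u : RatFunc k)
    (hu : u ≠ 0) (hdiv : ∀ a : k, ∃ h : RatFunc k →+* LaurentSeries k, IsH h (pA a) ∧
      ∃ b : LaurentSeries k, h u = b ^ n) : ∃ v : RatFunc k, u = v ^ n := by
  have hd : algebraMap k[X] (RatFunc k) u.denom ≠ 0 := by
    rw [Ne, map_eq_zero_iff _ (RatFunc.algebraMap_injective k)]
    exact RatFunc.denom_ne_zero u
  have hN : u.num ≠ 0 := by
    rw [Ne, RatFunc.num_eq_zero_iff]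
    exact hu
  set U : k[X] := u.num * u.denom ^ (n - 1) with hU
  have hU0 : U ≠ 0 := mul_ne_zero hN (pow_ne_zero _ (RatFunc.denom_ne_zero u))
  have e : algebraMap k[X] (RatFunc k) U = u * algebraMap k[X] (RatFunc k) u.denom ^ n := by
    rw [hU, map_mul, map_pow]
    have h1 : algebraMap k[X] (RatFunc k) u.num = u * algebraMap k[X] (RatFunc k) u.denom :=
      (div_eq_iff hd).1 (RatFunc.num_div_denom u)
    rw [h1, mul_assoc, ← pow_succ', Nat.sub_add_cancel hn]
  obtain ⟨V, hV⟩ := VNaq_pow k n hn _ U rfl hU0 (by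
    intro a
    obtain ⟨h, hh, b, hb⟩ := hdiv a
    have h1 := VNaq_ord k a h hh U hU0
    rw [e, map_mul, map_pow, hb, ← mul_pow] at h1
    have h2 : b * h (algebraMap k[X] (RatFunc k) u.denom) ≠ 0 := by
      refine mul_ne_zero ?_ ?_
      · rintro rfl
        rw [zero_pow hn.ne', map_eq_zero] at hb
        exact hu hb
      · rw [Ne, map_eq_zero]
        exact hd
    rw [HahnSeries.order_pow] at h1
    have h3 : (n : ℤ) ∣ (U.rootMultiplicity a : ℤ) := by
      rw [← h1, nsmul_eq_mul]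
      exact Dvd.intro _ rfl
    exact_mod_cast h3)
  refine ⟨algebraMap k[X] (RatFunc k) V / algebraMap k[X] (RatFunc k) u.denom, ?_⟩
  rw [div_pow, ← map_pow, ← hV, e, mul_div_cancel_right₀ _ (pow_ne_zero n hd)]

theorem prf_VNaq (hPl : VPl) (hH : VH) (hKum : VKum) : VNaq := by
  intro k _ p Ω Λ _ _ _ _ hI jI ρI hB A _ _ hpA χ hχ hunr
  have := hB.ac
  have := hB.ch
  have := hB.galΩ
  have := hB.scΩ
  have := hB.galΛ
  have := hB.scΛ
  have : Fact p.Prime := ⟨hB.pr⟩
  by_contra hne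
  obtain ⟨γ₀, hγ₀⟩ : ∃ γ, χ γ ≠ 1 := by
    by_contra h
    push Not at h
    exact hne (MonoidHom.ext h)
  set n := Monoid.exponent A with hndef
  have hn : 0 < n := Monoid.exponent_pos.2 Monoid.ExponentExists.of_finite
  have hpn : ¬ p ∣ n := fun h => hpA (h.trans Group.exponent_dvd_nat_card)
  have hnk : (n : k) ≠ 0 := by
    rw [Ne, CharP.cast_eq_zero_iff k p]
    exact hpn
  have : NeZero (n : k) := ⟨hnk⟩
  have hEn : HasEnoughRootsOfUnity k n := inferInstance
  obtain ⟨ψ, hψ⟩ := CommGroup.exists_apply_ne_one_of_hasEnoughRootsOfUnity A k hγ₀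
  -- the character with values in `k(x)`
  let X' : (Ω ≃ₐ[RatFunc k] Ω) →* (RatFunc k)ˣ :=
    ((Units.map (RatFunc.C : k →+* RatFunc k).toMonoidHom).comp ψ).comp χ
  have hX' : ∀ γ, ((X' γ : (RatFunc k)ˣ) : RatFunc k) = RatFunc.C ((ψ (χ γ) : kˣ) : k) :=
    fun γ => rfl
  have hcts : Cts X' := by
    obtain ⟨S, hS⟩ := hχ
    refine ⟨S, fun γ hγ => ?_⟩
    have h1 : X' γ = ((Units.map (RatFunc.C : k →+* RatFunc k).toMonoidHom).comp ψ) (χ γ) := rfl
    rw [h1, hS γ hγ, map_one]
  obtain ⟨y, hy0, hy⟩ := hKum (RatFunc k) Ω X' hcts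
  have hψn : ∀ a : A, ((ψ a : kˣ) : k) ^ n = 1 := by
    intro a
    rw [← Units.val_pow_eq_pow_val, ← map_pow, Monoid.pow_exponent_eq_one, map_one, Units.val_one]
  obtain ⟨u, hu⟩ : y ^ n ∈ Set.range (algebraMap (RatFunc k) Ω) := by
    rw [InfiniteGalois.mem_range_algebraMap_iff_fixed]
    intro γ
    rw [map_pow, hy, mul_pow, hX', ← map_pow, ← map_pow, hψn, map_one, map_one, one_mul]
  have hu0 : u ≠ 0 := by
    rintro rfl
    rw [map_zero] at hu
    exact pow_ne_zero n hy0 hu.symm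
  obtain ⟨v, hv⟩ := VNaq_rat k n hn u hu0 (by
    intro a
    have hcon : ∀ c : k, pA a ≠ HahnSeries.C c := by
      intro c h
      have h1 := congrArg (fun f : LaurentSeries k => f.coeff 1) h
      simp [pA, HahnSeries.C_apply, HahnSeries.coeff_single_of_ne] at h1
    obtain ⟨h, hh⟩ := (hH k).1 (pA a) hcon
    refine ⟨h, hh, ?_⟩
    obtain ⟨j, ρ, hj⟩ := (hPl (RatFunc k) (LaurentSeries k) Ω Λ h).1
    obtain ⟨b, hb⟩ : j y ∈ Set.range (algebraMap (LaurentSeries k) Λ) := by
      rw [InfiniteGalois.mem_range_algebraMap_iff_fixed]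
      intro δ
      rw [← hj.res, hy, hX', hunr a h j ρ hh hj δ, map_one, Units.val_one, map_one, map_one,
        one_mul]
    refine ⟨b, ?_⟩
    apply (algebraMap (LaurentSeries k) Λ).injective
    rw [← hj.alg, hu, map_pow, map_pow, hb])
  -- `y` is in `k(x)`
  have hv0 : v ≠ 0 := by
    rintro rfl
    rw [zero_pow hn.ne'] at hv
    exact hu0 hv
  obtain ⟨ζ, hζ⟩ := hEn.prim
  have hζΩ : IsPrimitiveRoot (algebraMap (RatFunc k) Ω (RatFunc.C ζ)) n :=
    (hζ.map_of_injective (RatFunc.C : k →+* RatFunc k).injective).map_of_injective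
      (algebraMap (RatFunc k) Ω).injective
  have hvΩ : algebraMap (RatFunc k) Ω v ≠ 0 := by
    rw [Ne, map_eq_zero]
    exact hv0
  have h1 : (y / algebraMap (RatFunc k) Ω v) ^ n = 1 := by
    rw [div_pow, ← hu, hv, map_pow, div_self (pow_ne_zero n hvΩ)]
  have : NeZero n := ⟨hn.ne'⟩
  obtain ⟨i, -, hi⟩ := hζΩ.eq_pow_of_pow_eq_one h1
  have h2 : y = algebraMap (RatFunc k) Ω (RatFunc.C ζ ^ i * v) := by
    rw [map_mul, map_pow, hi, div_mul_cancel₀ _ hvΩ]
  have h3 := hy γ₀
  rw [h2, AlgEquiv.commutes, ← h2] at h3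
  have h4 : algebraMap (RatFunc k) Ω ((X' γ₀ : (RatFunc k)ˣ) : RatFunc k) = 1 := by
    have h5 : algebraMap (RatFunc k) Ω ((X' γ₀ : (RatFunc k)ˣ) : RatFunc k) * y = 1 * y := by
      rw [one_mul]
      exact h3.symm
    exact mul_right_cancel₀ hy0 h5
  rw [hX'] at h4
  have h5 : RatFunc.C ((ψ (χ γ₀) : kˣ) : k) = 1 := by
    apply (algebraMap (RatFunc k) Ω).injective
    rw [h4, map_one]
  have h6 : ((ψ (χ γ₀) : kˣ) : k) = 1 := by
    apply (RatFunc.C : k →+* RatFunc k).injective
    rw [h5, map_one]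
  exact hψ (Units.ext h6)

end MP7b0bad.SV
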