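import Pool.Agent.Work.MP_7b0bad_ag.SV.VStmts2

set_option autoImplicit false

/-! # Item VNrm of the block SV: the image of a base change is normal -/

namespace MP7b0bad.SV

open Polynomial

theorem VNrm_exists {E : Type} [Field E] {r : ℕ} {z : E} (hz : IsPrimitiveRoot z r) (hr : r ≠ 0)
    {a b : E} (hb : b ≠ 0) (h : a ^ r = b ^ r) : ∃ n : ℕ, a = z ^ n * b := by
  have : NeZero r := ⟨hr⟩
  have h1 : (a / b) ^ r = 1 := by rw [div_pow, h, div_self (pow_ne_zero _ hb)]
  obtain ⟨n, _, hn⟩ := hz.eq_pow_of_pow_eq_one h1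
  exact ⟨n, by rw [hn, div_mul_cancel₀ _ hb]⟩

theorem VNrm_pow {E : Type} [Field E] {r : ℕ} {z : E} (hz : IsPrimitiveRoot z r) (hr : r ≠ 0)
    {n m : ℕ} (h : z ^ n = z ^ m) {A : Type} [Group A] (a : A) (ha : a ^ r = 1) :
    a ^ n = a ^ m := by
  have hz0 : z ≠ 0 := hz.ne_zero hr
  have key : ∀ n m : ℕ, n ≤ m → z ^ n = z ^ m → a ^ n = a ^ m := by
    intro n m hnm h
    obtain ⟨d, rfl⟩ := Nat.exists_eq_add_of_le hnm
    rw [pow_add] at h
    have h1 : z ^ d = 1 := by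
      have := mul_left_cancel₀ (pow_ne_zero n hz0) ((mul_one (z ^ n)).trans h)
      exact this.symm
    obtain ⟨e, rfl⟩ := hz.dvd_of_pow_eq_one d h1
    rw [pow_add, pow_mul, ha, one_pow, mul_one]
  rcases le_total n m with h1 | h1
  · exact key n m h1 h
  · exact (key m n h1 h.symm).symm

/-- a subfield of `k(x)` containing the constants and `x` is everything -/
theorem VNrm_top {k : Type} [Field k] (T : Subfield (RatFunc k)) (hC : ∀ c : k, RatFunc.C c ∈ T)
    (hX : RatFunc.X ∈ T) (a : RatFunc k) : a ∈ T := by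
  have hP : ∀ p : k[X], algebraMap k[X] (RatFunc k) p ∈ T := by
    intro p
    induction p using Polynomial.induction_on' with
    | add p q hp hq => rw [map_add]; exact T.add_mem hp hq
    | monomial n c =>
      rw [← C_mul_X_pow_eq_monomial, map_mul, map_pow, RatFunc.algebraMap_X,
        RatFunc.algebraMap_C]
      exact T.mul_mem (hC c) (T.pow_mem hX n)
  induction a using RatFunc.induction_on with
  | f p q hq => exact T.div_mem (hP p) (hP q)

theorem VNrm_surj {k Ω : Type} [Field k] [Field Ω] [Algebra (RatFunc k) Ω]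
    [IsGalois (RatFunc k) Ω] [IsSepClosed Ω] (e : Ω →+* Ω)
    (hC : ∀ c : k, e (algebraMap (RatFunc k) Ω (RatFunc.C c)) =
      algebraMap (RatFunc k) Ω (RatFunc.C c))
    (v : Ω) (hv : e v = algebraMap (RatFunc k) Ω RatFunc.X) : Function.Surjective e := by
  have h1 : ∀ a : RatFunc k, algebraMap (RatFunc k) Ω a ∈ e.fieldRange := by
    intro a
    have := VNrm_top (e.fieldRange.comap (algebraMap (RatFunc k) Ω))
      (fun c => ⟨_, hC c⟩) ⟨_, hv⟩ a
    exact this
  let E : Ω ≃+* e.fieldRange := RingEquiv.ofBijective e.rangeRestrictField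
    (RingHom.rangeRestrictField_bijective e)
  let g : RatFunc k →+* Ω :=
    E.symm.toRingHom.comp ((algebraMap (RatFunc k) Ω).codRestrict e.fieldRange h1)
  have hg : e.comp g = algebraMap (RatFunc k) Ω := by
    ext a
    have h2 : ((E (g a) : e.fieldRange) : Ω) = e (g a) := rfl
    have h3 : E (g a) = ⟨algebraMap (RatFunc k) Ω a, h1 a⟩ := by
      change E (E.symm _) = _
      rw [E.apply_symm_apply]
      rfl
    rw [RingHom.comp_apply, ← h2, h3]
  intro x
  have hsep : (minpoly (RatFunc k) x).Separable := Algebra.IsSeparable.isSeparable _ x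
  have hspl : ((minpoly (RatFunc k) x).map g).Splits := IsSepClosed.splits_codomain _ hsep
  have h4 : x ∈ (((minpoly (RatFunc k) x).map g).map e).roots := by
    rw [Polynomial.map_map, hg, mem_roots_map_of_injective (algebraMap (RatFunc k) Ω).injective
      hsep.ne_zero]
    exact minpoly.aeval _ x
  rw [hspl.roots_map, Multiset.mem_map] at h4
  obtain ⟨y, _, hy⟩ := h4
  exact ⟨y, hy⟩

theorem VNrm_crit {k Ω : Type} [Field k] [Field Ω] [Algebra (RatFunc k) Ω]
    [IsGalois (RatFunc k) Ω] [IsSepClosed Ω] (h : RatFunc k →+* RatFunc k) (e : Ω →+* Ω)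
    (ρe : (Ω ≃ₐ[RatFunc k] Ω) →* (Ω ≃ₐ[RatFunc k] Ω)) (hc : Comp h e ρe)
    (hC : ∀ c : k, e (algebraMap (RatFunc k) Ω (RatFunc.C c)) =
      algebraMap (RatFunc k) Ω (RatFunc.C c))
    (v : Ω) (hv : e v = algebraMap (RatFunc k) Ω RatFunc.X) (γ : Ω ≃ₐ[RatFunc k] Ω) :
    γ ∈ ρe.range ↔ γ v = v := by
  constructor
  · rintro ⟨δ, rfl⟩
    apply e.injective
    rw [hc.res, hv, δ.commutes]
  · intro hγ
    have hs := VNrm_surj e hC v hv
    let E : Ω ≃+* Ω := RingEquiv.ofBijective e ⟨e.injective, hs⟩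
    have hE : ∀ x, E x = e x := fun x => rfl
    let D : Ω ≃+* Ω := (E.symm.trans γ.toRingEquiv).trans E
    have hD : ∀ x, D (e x) = e (γ x) := by
      intro x
      change E (γ (E.symm (e x))) = _
      rw [← hE x, E.symm_apply_apply, hE]
    have hD2 : ∀ a : RatFunc k, D (algebraMap (RatFunc k) Ω a) = algebraMap (RatFunc k) Ω a := by
      intro a
      let T : Subfield (RatFunc k) :=
        (RingHom.eqLocusField ((D : Ω →+* Ω).comp (algebraMap (RatFunc k) Ω))
          (algebraMap (RatFunc k) Ω))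
      have := VNrm_top T (fun c => by
        change D (algebraMap (RatFunc k) Ω (RatFunc.C c)) = algebraMap (RatFunc k) Ω (RatFunc.C c)
        conv_lhs => rw [← hC c, hD, γ.commutes]
        rw [hC]) (by
        change D (algebraMap (RatFunc k) Ω RatFunc.X) = algebraMap (RatFunc k) Ω RatFunc.X
        rw [← hv, hD, hγ]) a
      exact this
    let δ : Ω ≃ₐ[RatFunc k] Ω := AlgEquiv.ofRingEquiv (f := D) hD2
    refine ⟨δ, ?_⟩
    ext x
    apply e.injective
    rw [hc.res]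
    exact hD x

theorem VNrm_const {k Ω : Type} [Field k] [Field Ω] [Algebra (RatFunc k) Ω]
    {f : k[X]} {h : RatFunc k →+* RatFunc k} {e : Ω →+* Ω}
    {ρe : (Ω ≃ₐ[RatFunc k] Ω) →* (Ω ≃ₐ[RatFunc k] Ω)} (hR : IsR h f) (hc : Comp h e ρe) (c : k) :
    e (algebraMap (RatFunc k) Ω (RatFunc.C c)) = algebraMap (RatFunc k) Ω (RatFunc.C c) := by
  rw [hc.alg, hR.cst]

theorem VNrm_kum {k Ω : Type} [Field k] [IsAlgClosed k] [Field Ω] [Algebra (RatFunc k) Ω]
    [IsGalois (RatFunc k) Ω] [IsSepClosed Ω] (m : ℕ) [NeZero (m : k)]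
    (h : RatFunc k →+* RatFunc k) (e : Ω →+* Ω)
    (ρe : (Ω ≃ₐ[RatFunc k] Ω) →* (Ω ≃ₐ[RatFunc k] Ω)) (hR : IsR h (X ^ m)) (hc : Comp h e ρe) :
    ∃ χ : (Ω ≃ₐ[RatFunc k] Ω) →* Multiplicative (ZMod m), Cts χ ∧ χ.ker = ρe.range := by
  have hm0 : m ≠ 0 := by
    rintro rfl
    exact NeZero.ne ((0 : ℕ) : k) (by simp)
  have : NeZero m := ⟨hm0⟩
  obtain ⟨ζ, hζ⟩ := HasEnoughRootsOfUnity.exists_primitiveRoot k m
  set z : Ω := algebraMap (RatFunc k) Ω (RatFunc.C ζ) with hzdef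
  have hinjC : Function.Injective
      ((algebraMap (RatFunc k) Ω).comp (RatFunc.C : k →+* RatFunc k)) := RingHom.injective _
  have hz : IsPrimitiveRoot z m := hζ.map_of_injective hinjC
  have hz0 : z ≠ 0 := hz.ne_zero hm0
  have hmΩ : (m : Ω) ≠ 0 := by
    have : (m : Ω) = ((algebraMap (RatFunc k) Ω).comp (RatFunc.C : k →+* RatFunc k)) (m : k) := by
      rw [map_natCast]
    rw [this]
    exact (map_ne_zero_iff _ hinjC).2 (NeZero.ne _)
  have : NeZero (m : Ω) := ⟨hmΩ⟩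
  set x : Ω := algebraMap (RatFunc k) Ω RatFunc.X with hxdef
  have hx0 : x ≠ 0 := (map_ne_zero_iff _ (algebraMap (RatFunc k) Ω).injective).2 RatFunc.X_ne_zero
  obtain ⟨w, hw⟩ := IsSepClosed.exists_pow_nat_eq x m
  have hw0 : w ≠ 0 := by
    rintro rfl
    rw [zero_pow hm0] at hw
    exact hx0 hw.symm
  have hzγ : ∀ (γ : Ω ≃ₐ[RatFunc k] Ω) (n : ℕ), γ (z ^ n) = z ^ n := by
    intro γ n
    rw [map_pow, hzdef, γ.commutes]
  have hzC := VNrm_const hR hc
  have hez : ∀ n : ℕ, e (z ^ n) = z ^ n := by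
    intro n
    rw [map_pow, hzdef, hzC]
  have hewm : (e w) ^ m = x ^ m := by
    rw [← map_pow, hw, hxdef, hc.alg, hR.X, map_pow, RatFunc.algebraMap_X, map_pow]
  obtain ⟨n, hn⟩ := VNrm_exists hz hm0 hx0 hewm
  have hv : e ((z ^ n)⁻¹ * w) = x := by
    rw [map_mul, map_inv₀, hez, hn, inv_mul_cancel_left₀ (pow_ne_zero _ hz0)]
  have hcrit : ∀ γ : Ω ≃ₐ[RatFunc k] Ω, γ ∈ ρe.range ↔ γ w = w := by
    intro γ
    rw [VNrm_crit h e ρe hc hzC _ hv γ, map_mul, map_inv₀, hzγ]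
    constructor
    · intro h1
      exact mul_left_cancel₀ (inv_ne_zero (pow_ne_zero n hz0)) h1
    · intro h1
      rw [h1]
  have hE : ∀ γ : Ω ≃ₐ[RatFunc k] Ω, ∃ n : ℕ, γ w = z ^ n * w := by
    intro γ
    apply VNrm_exists hz hm0 hw0
    rw [← map_pow, hw, hxdef, γ.commutes]
  choose E hEE using hE
  have hco : ∀ γ δ : Ω ≃ₐ[RatFunc k] Ω, z ^ E (γ * δ) = z ^ (E γ + E δ) := by
    intro γ δ
    have h1 : (γ * δ) w = γ (δ w) := rfl
    rw [hEE δ, map_mul, hzγ, hEE γ, hEE (γ * δ), ← mul_assoc, ← pow_add] at h1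
    rw [mul_right_cancel₀ hw0 h1, add_comm]
  set g : Multiplicative (ZMod m) := Multiplicative.ofAdd 1 with hgdef
  have hg : g ^ m = 1 := by
    rw [hgdef, ← ofAdd_nsmul, nsmul_one, ZMod.natCast_self, ofAdd_zero]
  have hg1 : ∀ n : ℕ, g ^ n = 1 → z ^ n = 1 := by
    intro n hn
    rw [hgdef, ← ofAdd_nsmul, nsmul_one, ← ofAdd_zero, Multiplicative.ofAdd.injective.eq_iff,
      ZMod.natCast_eq_zero_iff] at hn
    exact (hz.pow_eq_one_iff_dvd n).2 hn
  let χ : (Ω ≃ₐ[RatFunc k] Ω) →* Multiplicative (ZMod m) :=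
    MonoidHom.mk' (fun γ => g ^ E γ) (fun γ δ => by
      rw [VNrm_pow hz hm0 (hco γ δ) g hg, pow_add])
  have hχ : ∀ γ, χ γ = 1 ↔ γ w = w := by
    intro γ
    change g ^ E γ = 1 ↔ _
    constructor
    · intro h1
      rw [hEE, hg1 _ h1, one_mul]
    · intro h1
      rw [hEE] at h1
      have h2 : z ^ E γ = z ^ 0 := by
        rw [pow_zero]
        exact mul_right_cancel₀ hw0 (h1.trans (one_mul _).symm)
      rw [VNrm_pow hz hm0 h2 g hg, pow_zero]
  refine ⟨χ, ⟨{w}, fun γ hγ => (hχ γ).2 (hγ w (Finset.mem_singleton_self w))⟩, ?_⟩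
  ext γ
  rw [MonoidHom.mem_ker, hχ, hcrit]

theorem VNrm_noAS {k : Type} [Field k] (p : ℕ) (hp : p.Prime) (b : k) (hb : b ≠ 0)
    (a : RatFunc k) (ha : a ^ p - a = RatFunc.C b * RatFunc.X) : False := by
  have hint : IsIntegral k[X] a := by
    refine ⟨X ^ p - (X + C (C b * X)), ?_, ?_⟩
    · apply monic_X_pow_sub
      have : (X + C (C b * X) : k[X][X]).degree ≤ 1 := by
        refine (degree_add_le _ _).trans (max_le degree_X_le ?_)
        exact degree_C_le.trans (by norm_num)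
      refine lt_of_le_of_lt this ?_
      exact_mod_cast hp.one_lt
    · rw [← aeval_def, map_sub, map_pow, map_add, aeval_X, aeval_C, map_mul,
        RatFunc.algebraMap_X, RatFunc.algebraMap_C, ← ha]
      ring
  obtain ⟨g, hg⟩ := IsIntegrallyClosed.isIntegral_iff.1 hint
  have h1 : g ^ p - g = C b * X := by
    apply RatFunc.algebraMap_injective k
    rw [map_sub, map_pow, hg, ha, map_mul, RatFunc.algebraMap_X, RatFunc.algebraMap_C]
  have h2 : (C b * X : k[X]).natDegree = 1 := natDegree_C_mul_X b hb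
  rcases Nat.eq_zero_or_pos g.natDegree with h0 | h0
  · rw [← h1] at h2
    have h3 : (g ^ p - g).natDegree ≤ 0 := by
      refine (natDegree_sub_le _ _).trans (max_le ?_ h0.le)
      rw [natDegree_pow, h0, mul_zero]
    omega
  · have h3 : (g ^ p - g).natDegree = p * g.natDegree := by
      rw [natDegree_sub_eq_left_of_natDegree_lt, natDegree_pow]
      rw [natDegree_pow]
      have := hp.two_le
      nlinarith
    rw [h1, h2] at h3
    have := hp.two_le
    nlinarith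

theorem VNrm_as {k Ω : Type} [Field k] [Field Ω] [Algebra (RatFunc k) Ω]
    [IsGalois (RatFunc k) Ω] [IsSepClosed Ω] (p : ℕ) [Fact p.Prime] [CharP k p] (b : k)
    (hb : b ≠ 0) (h : RatFunc k →+* RatFunc k) (e : Ω →+* Ω)
    (ρe : (Ω ≃ₐ[RatFunc k] Ω) →* (Ω ≃ₐ[RatFunc k] Ω)) (hR : IsR h (C b⁻¹ * (X ^ p - X)))
    (hc : Comp h e ρe) : ρe.range.Normal ∧ ρe.range.index = p ∧
    ∀ z : Ω, z ^ p - z = algebraMap (RatFunc k) Ω (RatFunc.C b * RatFunc.X) →
      ∀ γ : Ω ≃ₐ[RatFunc k] Ω, γ ∈ ρe.range ↔ γ z = z := by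
  have hinjC : Function.Injective
      ((algebraMap (RatFunc k) Ω).comp (RatFunc.C : k →+* RatFunc k)) := RingHom.injective _
  have hch : CharP Ω p := charP_of_injective_ringHom hinjC p
  have hp : p.Prime := Fact.out
  have hzC := VNrm_const hR hc
  set x : Ω := algebraMap (RatFunc k) Ω RatFunc.X with hxdef
  have hF : ∀ y : Ω, y ^ p = y → ∃ n : ℤ, y = (n : Ω) := by
    intro y hy
    obtain ⟨n, hn⟩ := (mem_bot_iff_intCast p Ω).1 ((Subfield.mem_bot_iff_pow_eq_self Ω p).2 hy)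
    exact ⟨n, hn.symm⟩
  have hcrit : ∀ z : Ω, z ^ p - z = algebraMap (RatFunc k) Ω (RatFunc.C b * RatFunc.X) →
      ∀ γ : Ω ≃ₐ[RatFunc k] Ω, γ ∈ ρe.range ↔ γ z = z := by
    intro z hz γ
    have h1 : (e z) ^ p - e z = x ^ p - x := by
      have hbb : (RatFunc.C b : RatFunc k) * RatFunc.C b⁻¹ = 1 := by
        rw [← map_mul, mul_inv_cancel₀ hb, map_one]
      have h0 : (RatFunc.C b : RatFunc k) * algebraMap k[X] (RatFunc k) (C b⁻¹ * (X ^ p - X)) =
          RatFunc.X ^ p - RatFunc.X := by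
        rw [map_mul, map_sub, map_pow, RatFunc.algebraMap_X, RatFunc.algebraMap_C, ← mul_assoc,
          hbb, one_mul]
      rw [← map_pow, ← map_sub, hz, hc.alg, map_mul h, hR.cst, hR.X, h0, map_sub, map_pow]
    have h2 : (e z - x) ^ p = e z - x := by
      rw [sub_pow_char, ← sub_eq_zero]
      have : (e z) ^ p - x ^ p - (e z - x) = ((e z) ^ p - e z) - (x ^ p - x) := by ring
      rw [this, h1, sub_self]
    obtain ⟨n, hn⟩ := hF _ h2
    have hv : e (z - (n : Ω)) = x := by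
      rw [map_sub, map_intCast, ← hn]
      ring
    rw [VNrm_crit h e ρe hc hzC _ hv γ, map_sub, map_intCast]
    constructor
    · intro h3
      exact sub_left_injective h3
    · intro h3
      rw [h3]
  obtain ⟨z, hz⟩ : ∃ z : Ω, z ^ p - z = algebraMap (RatFunc k) Ω (RatFunc.C b * RatFunc.X) := by
    obtain ⟨z, hz⟩ := IsSepClosed.exists_root_C_mul_X_pow_add_C_mul_X_add_C' p p (1 : Ω) (-1)
      (-algebraMap (RatFunc k) Ω (RatFunc.C b * RatFunc.X)) (dvd_refl p) hp.two_le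
      (neg_ne_zero.2 one_ne_zero)
    exact ⟨z, by linear_combination hz⟩
  have hE : ∀ γ : Ω ≃ₐ[RatFunc k] Ω, ∃ n : ℤ, γ z = z + (n : Ω) := by
    intro γ
    obtain ⟨n, hn⟩ := hF (γ z - z) (by
      have h1 : (γ z) ^ p - γ z = z ^ p - z := by
        rw [← map_pow, ← map_sub, hz, γ.commutes]
      rw [sub_pow_char, ← sub_eq_zero]
      have : (γ z) ^ p - z ^ p - (γ z - z) = ((γ z) ^ p - γ z) - (z ^ p - z) := by ring
      rw [this, h1, sub_self])
    exact ⟨n, by rw [← hn]; ring⟩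
  choose E hEE using hE
  have hcast : ∀ n m : ℤ, (n : Ω) = m → (n : ZMod p) = m := by
    intro n m hnm
    rw [ZMod.intCast_eq_intCast_iff]
    exact (CharP.intCast_eq_intCast Ω p).1 hnm
  let χ : (Ω ≃ₐ[RatFunc k] Ω) →* Multiplicative (ZMod p) :=
    MonoidHom.mk' (fun γ => Multiplicative.ofAdd ((E γ : ℤ) : ZMod p)) (fun γ δ => by
      rw [← ofAdd_add, Multiplicative.ofAdd.injective.eq_iff, ← Int.cast_add]
      apply hcast
      have h1 : (γ * δ) z = γ (δ z) := rfl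
      rw [hEE δ, map_add, map_intCast, hEE γ, hEE (γ * δ), add_assoc, ← Int.cast_add] at h1
      exact add_left_cancel h1)
  have hχ : ∀ γ, χ γ = 1 ↔ γ z = z := by
    intro γ
    change Multiplicative.ofAdd ((E γ : ℤ) : ZMod p) = 1 ↔ _
    rw [← ofAdd_zero, Multiplicative.ofAdd.injective.eq_iff, hEE, add_eq_left,
      ZMod.intCast_zmod_eq_zero_iff_dvd, CharP.intCast_eq_zero_iff Ω p]
  have hker : χ.ker = ρe.range := by
    ext γ
    rw [MonoidHom.mem_ker, hχ, hcrit z hz]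
  refine ⟨hker ▸ inferInstance, ?_, hcrit⟩
  rw [← hker, Subgroup.index_ker]
  have hcard : Nat.card (Multiplicative (ZMod p)) = p := by
    rw [Nat.card_congr Multiplicative.toAdd, Nat.card_zmod]
  have : Fact (Nat.card (Multiplicative (ZMod p))).Prime := ⟨by rw [hcard]; exact hp⟩
  rcases Subgroup.eq_bot_or_eq_top_of_prime_card χ.range with h0 | h0
  · exfalso
    have h1 : ∀ γ : Ω ≃ₐ[RatFunc k] Ω, γ z = z := by
      intro γ
      have h2 : χ γ ∈ χ.range := ⟨γ, rfl⟩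
      rw [h0, Subgroup.mem_bot] at h2
      exact (hχ γ).1 h2
    obtain ⟨a, ha⟩ := (InfiniteGalois.mem_range_algebraMap_iff_fixed z).2 h1
    refine VNrm_noAS p hp b hb a ?_
    apply (algebraMap (RatFunc k) Ω).injective
    rw [map_sub, map_pow, ha, hz]
  · rw [h0, Subgroup.card_top, hcard]

theorem prf_VNrm : VNrm := by
  intro k _ p Ω Λ _ _ _ _ hI jI ρI hB f h e ρe hR hc
  have := hB.ac
  have := hB.ch
  have : Fact p.Prime := ⟨hB.pr⟩
  have := hB.galΩ
  have := hB.scΩ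
  refine ⟨fun m hm hpm hf => ?_, fun b hb hf => ?_⟩
  · subst hf
    have hmk : NeZero (m : k) := ⟨fun h0 => hpm ((CharP.cast_eq_zero_iff k p m).1 h0)⟩
    have hm0 : NeZero m := ⟨hm.ne'⟩
    obtain ⟨χ, hχ, hker⟩ := VNrm_kum m h e ρe hR hc
    refine ⟨hker ▸ inferInstance, Multiplicative (ZMod m), inferInstance, inferInstance, χ, hχ,
      hker, ?_⟩
    rw [Nat.card_congr Multiplicative.toAdd, Nat.card_zmod]
    exact hpm
  · subst hf
    exact VNrm_as p b hb h e ρe hR hc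

end MP7b0bad.SV
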