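import Pool.Agent.Work.MP_7b0bad_ag.SV.VStmts

set_option autoImplicit false

/-!
# Existence and conjugacy of places
-/

namespace MP7b0bad.SV

theorem VPl_lift {F₁ F₂ Ω₁ Ω₂ : Type} [Field F₁] [Field F₂] [Field Ω₁] [Field Ω₂]
    [Algebra F₁ Ω₁] [Algebra F₂ Ω₂] [IsGalois F₁ Ω₁] [IsSepClosed Ω₂] (h : F₁ →+* F₂) :
    ∃ j : Ω₁ →+* Ω₂, ∀ a : F₁, j (algebraMap F₁ Ω₁ a) = algebraMap F₂ Ω₂ (h a) := by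
  letI : Algebra F₁ Ω₂ := ((algebraMap F₂ Ω₂).comp h).toAlgebra
  let φ : Ω₁ →ₐ[F₁] Ω₂ := IsSepClosed.lift
  exact ⟨φ.toRingHom, fun a => φ.commutes a⟩

/-- two homomorphisms of a normal extension differ by an automorphism -/
theorem VPl_aut {F Ω₁ Ω₂ : Type} [Field F] [Field Ω₁] [Field Ω₂] [Algebra F Ω₁]
    [IsGalois F Ω₁] (i : F →+* Ω₂) (j j' : Ω₁ →+* Ω₂)
    (hj : ∀ a : F, j (algebraMap F Ω₁ a) = i a) (hj' : ∀ a : F, j' (algebraMap F Ω₁ a) = i a) :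
    ∃ γ : Ω₁ ≃ₐ[F] Ω₁, ∀ x, j' x = j (γ x) := by
  letI : Algebra F Ω₂ := i.toAlgebra
  letI : Algebra Ω₁ Ω₂ := j.toAlgebra
  haveI : IsScalarTower F Ω₁ Ω₂ := IsScalarTower.of_algebraMap_eq fun a => (hj a).symm
  let f : Ω₁ →ₐ[F] Ω₂ := { j' with commutes' := hj' }
  refine ⟨Normal.algHomEquivAut F Ω₂ Ω₁ f, fun x => ?_⟩
  have h1 := (Normal.algHomEquivAut F Ω₂ Ω₁).symm_apply_apply f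
  have h2 := DFunLike.congr_fun h1 x
  exact h2.symm

theorem VPl_ex {F₁ F₂ Ω₁ Ω₂ : Type} [Field F₁] [Field F₂] [Field Ω₁] [Field Ω₂]
    [Algebra F₁ Ω₁] [Algebra F₂ Ω₂] [IsGalois F₁ Ω₁] [IsSepClosed Ω₂] (h : F₁ →+* F₂) :
    ∃ (j : Ω₁ →+* Ω₂) (ρ : (Ω₂ ≃ₐ[F₂] Ω₂) →* (Ω₁ ≃ₐ[F₁] Ω₁)), Comp h j ρ := by
  obtain ⟨j, hj⟩ := VPl_lift (Ω₁ := Ω₁) (Ω₂ := Ω₂) h
  have H : ∀ δ : Ω₂ ≃ₐ[F₂] Ω₂, ∃ γ : Ω₁ ≃ₐ[F₁] Ω₁, ∀ x, δ (j x) = j (γ x) := by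
    intro δ
    refine VPl_aut ((algebraMap F₂ Ω₂).comp h) j ((δ : Ω₂ →+* Ω₂).comp j) hj fun a => ?_
    simp [hj a]
  choose r hr using H
  refine ⟨j, MonoidHom.mk' r fun δ ε => ?_, hj, fun δ x => (hr δ x).symm⟩
  ext x
  apply j.injective
  rw [← hr, AlgEquiv.mul_apply, hr ε, hr δ, AlgEquiv.mul_apply]

theorem VPl_conj {F₁ F₂ Ω₁ Ω₂ : Type} [Field F₁] [Field F₂] [Field Ω₁] [Field Ω₂]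
    [Algebra F₁ Ω₁] [Algebra F₂ Ω₂] [IsGalois F₁ Ω₁] (h : F₁ →+* F₂)
    (j j' : Ω₁ →+* Ω₂) (ρ ρ' : (Ω₂ ≃ₐ[F₂] Ω₂) →* (Ω₁ ≃ₐ[F₁] Ω₁)) (hc : Comp h j ρ)
    (hc' : Comp h j' ρ') :
    ∃ γ₀ : Ω₁ ≃ₐ[F₁] Ω₁, (∀ x, j' x = j (γ₀ x)) ∧ ∀ δ, ρ' δ = γ₀⁻¹ * ρ δ * γ₀ := by
  obtain ⟨γ₀, hγ⟩ := VPl_aut ((algebraMap F₂ Ω₂).comp h) j j' hc.alg hc'.alg
  refine ⟨γ₀, hγ, fun δ => ?_⟩
  ext x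
  apply j'.injective
  rw [hc'.res, hγ x, ← hc.res, AlgEquiv.mul_apply, AlgEquiv.mul_apply, hγ]
  congr 1
  exact (AlgEquiv.apply_symm_apply γ₀ _).symm

theorem prf_VPl : VPl := by
  intro F₁ F₂ Ω₁ Ω₂ _ _ _ _ _ _ _ _ _ h
  exact ⟨VPl_ex h, fun j j' ρ ρ' hc hc' => VPl_conj h j j' ρ ρ' hc hc'⟩

end MP7b0bad.SV
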