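import Pool.Agent.Work.MP_7b0bad_ag.SV.VStmts2

set_option autoImplicit false

/-!
# Quotients and the trivial group
-/

namespace MP7b0bad.SV

open Polynomial

theorem prf_VQuo (hVBase : VBase) (hVRC : VRC) (hVCR : VCR) (hVCp : VCp) : VQuo := by
  refine ⟨?_, ?_⟩
  · intro k _ _ p _ _ G G' _ _ _ q G₀ hq hR
    obtain ⟨Ω, Λ, _, _, _, _, hI, jI, ρI, hB⟩ := hVBase k p
    obtain ⟨Φ, hΦ⟩ := hVRC k p Ω Λ hI jI ρI hB G G₀ hR
    haveI : Finite G' := Finite.of_surjective q hq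
    refine hVCR k p Ω Λ hI jI ρI hB G' (G₀.map q) (q.comp Φ) ⟨?_, ?_, ?_, ?_⟩
    · exact hVCp.2.2 (RatFunc k) Ω G G' Φ q hΦ.cts
    · exact hq.comp hΦ.surj
    · intro a h j ρ hh hc δ
      change q (Φ (ρ δ)) = 1
      rw [hΦ.unr a h j ρ hh hc δ, map_one]
    · rw [MonoidHom.comp_assoc, MonoidHom.range_comp, hΦ.inf]
  · intro k _ _ p _ _ G _ hG G₀
    obtain ⟨Ω, Λ, _, _, _, _, hI, jI, ρI, hB⟩ := hVBase k p
    refine hVCR k p Ω Λ hI jI ρI hB G G₀ 1 ⟨?_, ?_, ?_, ?_⟩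
    · exact ⟨∅, fun γ _ => rfl⟩
    · exact fun y => ⟨1, Subsingleton.elim _ _⟩
    · intro a h j ρ hh hc δ
      rfl
    · exact Subsingleton.elim _ _

end MP7b0bad.SV

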