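import Pool.Agent.Work.MP_7b0bad_ag.SV.VStmts
import Pool.Agent.Work.MP_7b0bad_ag.AP.APCpl
import Pool.Agent.Work.MP_7b0bad_ag.AP.APPt

set_option autoImplicit false

/-!
# `Rel` gives a cover
-/

namespace MP7b0bad.SV

open Polynomial

/-- two homomorphisms of a Galois algebra to a domain, equal on the base ring -/
theorem VRC_two {R : Type} [CommRing R] {G : Type} [Group G] [Finite G] {B : Type} [CommRing B]
    [Algebra R B] [MulSemiringAction G B] (h : GalAlg R G B) {D : Type} [CommRing D] [IsDomain D]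
    (f1 f2 : B →+* D) (hf : ∀ a : R, f1 (algebraMap R B a) = f2 (algebraMap R B a)) :
    ∃ g : G, ∀ b, f1 b = f2 (g • b) := by
  classical
  have := Fintype.ofFinite G
  obtain ⟨n, x, y, h1, h2⟩ := gal_dual' h
  choose t ht using gal_trace (G := G) h
  have h1' : ∀ σ : G, σ ≠ 1 → ∑ m, y m * (σ • x m) = 0 := by
    intro σ hσ
    have h3 := h1 σ⁻¹ (fun h4 => hσ (inv_eq_one.1 h4))
    have h4 := congrArg (fun z => σ • z) h3
    simp only [Finset.smul_sum, smul_mul', smul_inv_smul, smul_zero] at h4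
    rw [← h4]
    exact Finset.sum_congr rfl fun m _ => mul_comm _ _
  have h2' : ∑ m, y m * x m = 1 := by
    rw [← h2]
    exact Finset.sum_congr rfl fun m _ => mul_comm _ _
  have hform : ∀ b, b = ∑ m, algebraMap R B (t (y m * b)) * x m := by
    intro b
    conv_lhs => rw [gal_formula h1 h2 b]
    simp only [ht]
  have hform' : ∀ b, b = ∑ m, algebraMap R B (t (x m * b)) * y m := by
    intro b
    conv_lhs => rw [gal_formula h1' h2' b]
    simp only [ht]
  let e : G → D := fun g => ∑ m, f1 (x m) * f2 (g • y m)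
  have hsum : ∑ g, e g = 1 := by
    have h3 : ∑ g, e g = ∑ m, f1 (x m) * f2 (∑ g : G, g • y m) := by
      simp only [e]
      rw [Finset.sum_comm]
      refine Finset.sum_congr rfl fun m _ => ?_
      rw [map_sum, Finset.mul_sum]
    have h4 : ∀ m, f1 (x m) * f2 (∑ g : G, g • y m) = f1 (x m * ∑ g : G, g • y m) := by
      intro m
      rw [← ht, ← hf, map_mul]
    rw [h3]
    simp only [h4]
    rw [← map_sum, ← map_one f1]
    congr 1
    simp only [Finset.mul_sum]
    rw [Finset.sum_comm, Finset.sum_eq_single (1 : G)]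
    · simpa using h2
    · intro g _ hg
      exact h1 g hg
    · intro h5
      exact absurd (Finset.mem_univ _) h5
  have hmul : ∀ g b, f1 b * e g = e g * f2 (g • b) := by
    intro g b
    calc f1 b * e g = ∑ m, f1 (b * x m) * f2 (g • y m) := by
          simp only [e, Finset.mul_sum]
          refine Finset.sum_congr rfl fun m _ => ?_
          rw [map_mul, mul_assoc]
      _ = ∑ m, ∑ l, f1 (x l) * (f2 (algebraMap R B (t (y l * (b * x m)))) * f2 (g • y m)) := by
          refine Finset.sum_congr rfl fun m _ => ?_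
          conv_lhs => rw [hform (b * x m)]
          rw [map_sum, Finset.sum_mul]
          refine Finset.sum_congr rfl fun l _ => ?_
          rw [map_mul, hf]
          ring
      _ = ∑ l, f1 (x l) * f2 (g • (y l * b)) := by
          rw [Finset.sum_comm]
          refine Finset.sum_congr rfl fun l _ => ?_
          rw [← Finset.mul_sum]
          congr 1
          conv_rhs => rw [hform' (y l * b)]
          rw [Finset.smul_sum, map_sum]
          refine Finset.sum_congr rfl fun m _ => ?_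
          rw [smul_mul', h.comm, map_mul]
          congr 4
          ring
      _ = e g * f2 (g • b) := by
          simp only [e, Finset.sum_mul]
          refine Finset.sum_congr rfl fun l _ => ?_
          rw [smul_mul', map_mul, mul_assoc]
  obtain ⟨g, hg⟩ : ∃ g, e g ≠ 0 := by
    by_contra hcon
    push Not at hcon
    rw [Finset.sum_eq_zero fun g _ => hcon g] at hsum
    exact zero_ne_one hsum
  refine ⟨g, fun b => ?_⟩
  have h3 := hmul g b
  rw [mul_comm] at h3
  exact mul_left_cancel₀ hg h3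

/-- the action on a Galois algebra is faithful -/
theorem VRC_faith {R : Type} [CommRing R] {G : Type} [Group G] {B : Type} [CommRing B]
    [Nontrivial B] [Algebra R B] [MulSemiringAction G B] (h : GalAlg R G B) (g : G)
    (hg : ∀ b : B, g • b = b) : g = 1 := by
  by_contra hne
  have h1 := h.unr g hne
  have h2 : Ideal.span {x : B | ∃ b : B, x = b - g • b} ≤ ⊥ := by
    rw [Ideal.span_le]
    rintro _ ⟨b, rfl⟩
    rw [hg b, sub_self]
    exact Ideal.zero_mem _
  rw [h1] at h2
  exact bot_ne_top (le_antisymm bot_le h2)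

theorem VRC_faith' {R : Type} [CommRing R] {G : Type} [Group G] {B : Type} [CommRing B]
    [Nontrivial B] [Algebra R B] [MulSemiringAction G B] (h : GalAlg R G B) (g g' : G)
    (hg : ∀ b : B, g • b = g' • b) : g = g' := by
  have h1 : g'⁻¹ * g = 1 := VRC_faith h _ fun b => by
    rw [mul_smul, hg b, inv_smul_smul]
  rw [inv_mul_eq_one] at h1
  exact h1.symm

/-- Galois extensions are Galois algebras -/
theorem VRC_gal {F G L : Type} [Field F] [Group G] [Field L] [Algebra F L]
    [FiniteDimensional F L] [IsGalois F L] (φ : G ≃* (L ≃ₐ[F] L)) :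
    ∃ _ : MulSemiringAction G L, GalAlg F G L ∧ ∀ (g : G) (x : L), g • x = φ g x := by
  let act : MulSemiringAction G L := MulSemiringAction.compHom L φ.toMonoidHom
  have hact : ∀ (g : G) (x : L), g • x = φ g x := fun _ _ => rfl
  refine ⟨act, ⟨?_, (algebraMap F L).injective, ?_, ?_⟩, hact⟩
  · intro g a
    rw [hact]
    exact (φ g).commutes a
  · intro b hb
    have h1 : b ∈ Set.range (algebraMap F L) := by
      rw [IsGalois.mem_range_algebraMap_iff_fixed]
      intro f
      have := hb (φ.symm f)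
      rwa [hact, MulEquiv.apply_symm_apply] at this
    exact h1
  · intro σ hσ
    obtain ⟨z, hz⟩ : ∃ z : L, σ • z ≠ z := by
      by_contra hcon
      push Not at hcon
      apply hσ
      apply φ.injective
      rw [map_one]
      ext z
      rw [← hact, hcon]
      rfl
    rw [Ideal.eq_top_iff_one]
    have h1 : z - σ • z ∈ Ideal.span {x : L | ∃ b : L, x = b - σ • b} :=
      Ideal.subset_span ⟨z, rfl⟩
    have h2 : z - σ • z ≠ 0 := sub_ne_zero.2 hz.symm
    have h3 := Ideal.mul_mem_left _ (z - σ • z)⁻¹ h1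
    rwa [inv_mul_cancel₀ h2] at h3

/-- the two embeddings of `k[x]` -/
theorem VRC_poly {k : Type} [Field k] {h : RatFunc k →+* LaurentSeries k} {u : LaurentSeries k}
    (hu : IsH h u) (f : k[X]) : h (algebraMap k[X] (RatFunc k) f) =
      f.eval₂ (HahnSeries.C : k →+* LaurentSeries k) u := by
  have h1 : h.comp (algebraMap k[X] (RatFunc k)) =
      Polynomial.eval₂RingHom (HahnSeries.C : k →+* LaurentSeries k) u := by
    refine Polynomial.ringHom_ext (fun c => ?_) ?_
    · rw [RingHom.comp_apply, coe_eval₂RingHom, eval₂_C, ← hu.cst c]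
      rfl
    · rw [RingHom.comp_apply, coe_eval₂RingHom, eval₂_X, RatFunc.algebraMap_X, hu.X]
  exact RingHom.congr_fun h1 f

theorem VRC_main (hVHom : VHom) (k : Type) [Field k] (p : ℕ) (Ω Λ : Type) [Field Ω]
    [Algebra (RatFunc k) Ω] [Field Λ] [Algebra (LaurentSeries k) Λ]
    (hI : RatFunc k →+* LaurentSeries k) (jI : Ω →+* Λ)
    (ρI : (Λ ≃ₐ[LaurentSeries k] Λ) →* (Ω ≃ₐ[RatFunc k] Ω)) (hB : Base k p Ω Λ hI jI ρI)
    (G : Type) [Group G] [Finite G] (G₀ : Subgroup G) (B : Type) [CommRing B] [Algebra k[X] B]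
    [MulSemiringAction G B] (E : Type) [Field E] [Algebra (LaurentSeries k) E]
    [MulSemiringAction G₀ E] (ι : B →+* E) (hG : GalAlg k[X] G B) (hdB : IsDomain B)
    (hE : GalAlg (LaurentSeries k) G₀ E)
    (hι : ∀ f : k[X], ι (algebraMap k[X] B f) = algebraMap (LaurentSeries k) E (atInf k f))
    (hιg : ∀ (g : G₀) (b : B), ι ((g : G) • b) = g • ι b) :
    ∃ Φ : (Ω ≃ₐ[RatFunc k] Ω) →* G, Cov Λ Φ ρI G₀ := by
  have := hB.ac
  have := hB.galΩ
  have := hB.scΩ
  have := hB.galΛ
  have := hB.scΛ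
  obtain ⟨L, iF, iA, ιL, hιLinj, hιL, hfd, hgal, φ, hφ⟩ := all_QF1 k G B hG hdB
  obtain ⟨iM, hGL, hact⟩ := VRC_gal φ
  obtain ⟨βL, Φ, hΦc, hΦs, hβa, hβg⟩ := hVHom (RatFunc k) Ω G L hGL
  obtain ⟨ε, Ψ, hΨc, hΨs, hεa, hεg⟩ := hVHom (LaurentSeries k) Λ G₀ E hE
  -- the embedding of `B`
  let β : B →+* Ω := βL.comp ιL
  have hβinj : Function.Injective β := βL.injective.comp hιLinj
  have hβ1 : ∀ f : k[X], β (algebraMap k[X] B f) =
      algebraMap (RatFunc k) Ω (algebraMap k[X] (RatFunc k) f) := by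
    intro f
    change βL (ιL _) = _
    rw [hιL, hβa]
  have hβ2 : ∀ (γ : Ω ≃ₐ[RatFunc k] Ω) (b : B), γ (β b) = β (Φ γ • b) := by
    intro γ b
    change γ (βL (ιL b)) = βL (ιL (Φ γ • b))
    rw [hβg, hact, hφ]
  -- comparison with the local extension
  obtain ⟨g, hg⟩ := VRC_two hG (ε.comp ι) (jI.comp β) (by
    intro f
    change ε (ι (algebraMap k[X] B f)) = jI (β (algebraMap k[X] B f))
    rw [hι, hεa, hβ1, hB.comp.alg, VRC_poly hB.isH]
    rfl)
  have hconj : ∀ δ, Φ (ρI δ) = g * (Ψ δ : G) * g⁻¹ := by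
    intro δ
    have h1 : Φ (ρI δ) * g = g * (Ψ δ : G) := by
      refine VRC_faith' hG _ _ fun b => ?_
      apply hβinj
      apply jI.injective
      rw [mul_smul, mul_smul, ← hβ2, hB.comp.res]
      have h2 : ε (ι b) = jI (β (g • b)) := hg b
      have h3 : ε (ι ((Ψ δ : G) • b)) = jI (β (g • (Ψ δ : G) • b)) := hg ((Ψ δ : G) • b)
      rw [← h2, ← h3, hεg, hιg]
    rw [← h1]
    group
  let Φ' : (Ω ≃ₐ[RatFunc k] Ω) →* G := (MulAut.conj g⁻¹).toMonoidHom.comp Φ
  have hΦ' : ∀ γ, Φ' γ = g⁻¹ * Φ γ * g := by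
    intro γ
    change MulAut.conj g⁻¹ (Φ γ) = _
    rw [MulAut.conj_apply, inv_inv]
  refine ⟨Φ', ?_, ?_, ?_, ?_⟩
  · obtain ⟨S, hS⟩ := hΦc
    refine ⟨S, fun γ hγ => ?_⟩
    rw [hΦ', hS γ hγ]
    group
  · intro z
    obtain ⟨γ, hγ⟩ := hΦs (g * z * g⁻¹)
    refine ⟨γ, ?_⟩
    rw [hΦ', hγ]
    group
  · intro a h j ρ hh hj δ
    obtain ⟨y, hy, hyX⟩ := prf_APPt k G B hG a
    obtain ⟨c, hc, -⟩ := prf_APCpl k G B hG y hy
    rw [hyX] at hc
    have hcf : ∀ f : k[X], c (algebraMap k[X] B f) =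
        f.eval₂ (HahnSeries.C : k →+* LaurentSeries k) (pA a) := by
      intro f
      have h1 : c.comp (algebraMap k[X] B) =
          Polynomial.eval₂RingHom (HahnSeries.C : k →+* LaurentSeries k) (pA a) := by
        refine Polynomial.ringHom_ext (fun d => ?_) ?_
        · rw [RingHom.comp_apply, coe_eval₂RingHom, eval₂_C, hc.1 d]
        · rw [RingHom.comp_apply, coe_eval₂RingHom, eval₂_X, hc.2]
          rfl
      exact RingHom.congr_fun h1 f
    obtain ⟨g1, hg1⟩ := VRC_two hG (j.comp β) ((algebraMap (LaurentSeries k) Λ).comp c) (by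
      intro f
      change j (β (algebraMap k[X] B f)) = algebraMap (LaurentSeries k) Λ (c (algebraMap k[X] B f))
      rw [hβ1, hj.alg, VRC_poly hh, hcf])
    have h1 : Φ (ρ δ) = 1 := by
      refine VRC_faith hG _ fun b => ?_
      apply hβinj
      apply j.injective
      rw [← hβ2, hj.res]
      have h2 : j (β b) = algebraMap (LaurentSeries k) Λ (c (g1 • b)) := hg1 b
      rw [h2, AlgEquiv.commutes]
    rw [hΦ', h1]
    group
  · ext z
    constructor
    · rintro ⟨δ, rfl⟩
      rw [MonoidHom.comp_apply, hΦ', hconj]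
      have h1 : g⁻¹ * (g * (Ψ δ : G) * g⁻¹) * g = (Ψ δ : G) := by group
      rw [h1]
      exact (Ψ δ).2
    · intro hz
      obtain ⟨δ, hδ⟩ := hΨs ⟨z, hz⟩
      refine ⟨δ, ?_⟩
      rw [MonoidHom.comp_apply, hΦ', hconj, hδ]
      group

theorem prf_VRC (hVHom : VHom) : VRC := by
  intro k _ p Ω Λ _ _ _ _ hI jI ρI hB G _ _ G₀ hR
  obtain ⟨B, iB, iBA, iBM, E, iE, iEA, iEM, ι, hG, hdB, hE, hdE, hι, hιg⟩ := hR
  have hfin : Module.Finite (LaurentSeries k) E := gal_finite hE
  have hF : IsField E := isField_of_isIntegral_of_isField'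
    (R := LaurentSeries k) (Field.toIsField (LaurentSeries k))
  exact @VRC_main hVHom k _ p Ω Λ _ _ _ _ hI jI ρI hB G _ _ G₀ B iB iBA iBM E hF.toField iEA iEM
    ι hG hdB hE hι hιg

end MP7b0bad.SV
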