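import Pool.Agent.Work.MP_7b0bad_ag.SV.VStmts

set_option autoImplicit false

/-!
# Item VRg: the ring of an unramified homomorphism
-/

namespace MP7b0bad.SV

open Polynomial

/-- factoring a homomorphism through an injective one -/
theorem VRg_lift {A B C : Type} [CommRing A] [CommRing B] [CommRing C] (f : A →+* C) (g : B →+* C)
    (hg : Function.Injective g) (h : ∀ a, ∃ b, g b = f a) :
    ∃ e : A →+* B, ∀ a, g (e a) = f a := by
  choose e he using h
  refine ⟨{ toFun := e
            map_one' := hg (by rw [he, map_one, map_one])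
            map_mul' := fun x y => hg (by rw [he, map_mul, map_mul, he, he])
            map_zero' := hg (by rw [he, map_zero, map_zero])
            map_add' := fun x y => hg (by rw [he, map_add, map_add, he, he]) }, he⟩

theorem prf_VRg (hPl : VPl) (hFld : VFld) (hH : VH) (hEt : YEt) : VRg := by
  intro k _ p Ω Λ _ _ _ _ hI jI ρI hB G _ _ Φ hc hs hu
  have hac : IsAlgClosed k := hB.ac
  have hgΩ : IsGalois (RatFunc k) Ω := hB.galΩ
  have hgΛ : IsGalois (LaurentSeries k) Λ := hB.galΛ
  have hsΛ : IsSepClosed Λ := hB.scΛ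
  obtain ⟨L, iL, aL, mL, β, hG, hβa, hβγ, -⟩ := hFld (RatFunc k) Ω G Φ hc hs
  have hemb : ∀ x0 : k, ∃ j : L →+* LaurentSeries k, YEmb (algebraMap (RatFunc k) L RatFunc.X)
      (HahnSeries.C x0 + HahnSeries.single (1 : ℤ) (1 : k)) j := by
    intro x0
    have hne : ∀ c : k, pA x0 ≠ HahnSeries.C c := by
      intro c hcon
      have h1 := congrArg (fun z : LaurentSeries k => z.coeff 1) hcon
      simp [pA] at h1
    obtain ⟨h, hh⟩ := (hH k).1 (pA x0) hne
    obtain ⟨⟨j, ρ, hj⟩, -⟩ := hPl (RatFunc k) (LaurentSeries k) Ω Λ h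
    have hinj : Function.Injective (algebraMap (LaurentSeries k) Λ) :=
      (algebraMap (LaurentSeries k) Λ).injective
    have hfix : ∀ x : L, ∃ a : LaurentSeries k,
        algebraMap (LaurentSeries k) Λ a = (j.comp β) x := by
      intro x
      refine (InfiniteGalois.mem_range_algebraMap_iff_fixed (k := LaurentSeries k) (K := Λ)
        ((j.comp β) x)).2 fun δ => ?_
      show δ (j (β x)) = j (β x)
      rw [← hj.res δ, hβγ, hu x0 h j ρ hh hj δ, one_smul]
    obtain ⟨e, he⟩ := VRg_lift (j.comp β) (algebraMap (LaurentSeries k) Λ) hinj hfix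
    have hea : ∀ a : RatFunc k, e (algebraMap (RatFunc k) L a) = h a := by
      intro a
      apply hinj
      rw [he]
      show j (β (algebraMap (RatFunc k) L a)) = _
      rw [hβa, hj.alg]
    refine ⟨e, ?_, ?_⟩
    · intro c
      rw [hea, hh.cst]
    · rw [hea, hh.X]
      rfl
  obtain ⟨B, iB, aB, mB, ι, hGB, hdB, hιi, hιa, hιg, -⟩ := hEt k G L hG hemb
  refine ⟨B, iB, aB, mB, β.comp ι, hGB, hdB, β.injective.comp hιi, ?_, ?_⟩
  · intro a
    show β (ι (algebraMap k[X] B a)) = _
    rw [hιa, hβa]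
  · intro γ b
    show γ (β (ι b)) = β (ι (Φ γ • b))
    rw [hβγ, hιg]

end MP7b0bad.SV
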