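import Pool.Agent.Work.MP_7b0bad_ag.SV.VStmts

set_option autoImplicit false

/-!
# Item VSt: the subgroup of a tame base change
-/

namespace MP7b0bad.SV

open Polynomial

theorem VSt_zpow {k : Type} [Field k] (n : ℤ) :
    (HahnSeries.single n (1 : k) : LaurentSeries k) = HahnSeries.single (1 : ℤ) (1 : k) ^ n :=
  RatFunc.single_zpow n

/-- a homomorphism over `k` with `s ↦ s^m` multiplies orders by `m` -/
theorem VSt_order (YR : YRoot) (k : Type) [Field k] [IsAlgClosed k] (p : ℕ) [Fact p.Prime]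
    [CharP k p] (m : ℕ) (σ : LaurentSeries k →+* LaurentSeries k)
    (hX : σ (HahnSeries.single (1 : ℤ) (1 : k)) = HahnSeries.single (m : ℤ) (1 : k))
    (a : LaurentSeries k) (ha : a ≠ 0) : σ a ≠ 0 ∧ (σ a).order = m * a.order := by
  have h1 : ∀ x : LaurentSeries k, x ≠ 0 → σ x ≠ 0 := fun x hx => (map_ne_zero σ).2 hx
  refine ⟨h1 a ha, ?_⟩
  -- units
  have hu : ∀ u : LaurentSeries k, u ≠ 0 → u.order = 0 → (σ u).order = 0 := by
    intro u hu0 huo
    obtain ⟨q, hq1, hq⟩ := Nat.exists_infinite_primes (p + 1)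
    have hqk : ∀ j : ℕ, ((q ^ j : ℕ) : k) ≠ 0 := by
      intro j h
      rw [CharP.cast_eq_zero_iff k p] at h
      have h2 := (Fact.out : p.Prime).dvd_of_dvd_pow h
      have h3 := (Nat.prime_dvd_prime_iff_eq Fact.out hq).1 h2
      omega
    have hd : ∀ j : ℕ, ((q ^ j : ℕ) : ℤ) ∣ (σ u).order := by
      intro j
      obtain ⟨v, hv⟩ := YR k (q ^ j) (hqk j) u hu0 (by rw [huo]; exact dvd_zero _)
      have hv0 : v ≠ 0 := by
        rintro rfl
        rw [zero_pow (pow_ne_zero _ hq.ne_zero)] at hv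
        exact hu0 hv.symm
      refine ⟨(σ v).order, ?_⟩
      rw [← hv, map_pow, HahnSeries.order_pow, nsmul_eq_mul]
    by_contra hne
    have h4 := Int.natAbs_dvd_natAbs.2 (hd ((σ u).order.natAbs))
    rw [Int.natAbs_natCast] at h4
    have h5 := Nat.le_of_dvd (Int.natAbs_pos.2 hne) h4
    have h6 := Nat.lt_pow_self (n := (σ u).order.natAbs) hq.one_lt
    omega
  set n := a.order with hn
  set u : LaurentSeries k := HahnSeries.single (-n) (1 : k) * a with hu'
  have hs0 : ∀ i : ℤ, (HahnSeries.single i (1 : k) : LaurentSeries k) ≠ 0 := fun i =>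
    HahnSeries.single_ne_zero one_ne_zero
  have hau : a = HahnSeries.single n (1 : k) * u := by
    rw [hu', ← mul_assoc, HahnSeries.single_mul_single, add_neg_cancel, one_mul,
      HahnSeries.single_zero_one, one_mul]
  have hu0 : u ≠ 0 := mul_ne_zero (hs0 _) ha
  have huo : u.order = 0 := by
    rw [hu', HahnSeries.order_mul (hs0 _) ha, HahnSeries.order_single one_ne_zero, ← hn]
    ring
  have hsn : σ (HahnSeries.single n (1 : k)) = HahnSeries.single (m * n) (1 : k) := by
    rw [VSt_zpow n, map_zpow₀, hX]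
    rw [VSt_zpow (m * n : ℤ), VSt_zpow (m : ℤ), ← zpow_mul]
  rw [hau, map_mul, HahnSeries.order_mul (h1 _ (hs0 _)) (h1 _ hu0), hu u hu0 huo, hsn,
    HahnSeries.order_single one_ne_zero, add_zero]

/-- roots of a polynomial that splits are in the image -/
theorem VSt_root {K L : Type} [Field K] [Field L] (φ : K →+* L) (P : K[X]) (hP : P.Splits)
    (hP0 : P ≠ 0) (y : L) (hy : (P.map φ).eval y = 0) : ∃ r : K, φ r = y := by
  have h1 := hP.eq_prod_roots
  rw [h1] at hy
  rw [Polynomial.map_mul, Polynomial.map_C, Polynomial.eval_mul, Polynomial.eval_C,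
    mul_eq_zero] at hy
  rcases hy with hy | hy
  · exact absurd hy ((map_ne_zero φ).2 (leadingCoeff_ne_zero.2 hP0))
  · rw [Polynomial.map_multiset_prod, Polynomial.eval_multiset_prod, Multiset.map_map,
      Multiset.map_map, Multiset.prod_eq_zero_iff, Multiset.mem_map] at hy
    obtain ⟨r, _, hr⟩ := hy
    refine ⟨r, ?_⟩
    simp only [Function.comp_apply, Polynomial.map_sub, Polynomial.map_X, Polynomial.map_C,
      Polynomial.eval_sub, Polynomial.eval_X, Polynomial.eval_C] at hr
    exact (sub_eq_zero.1 hr).symm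

theorem prf_VSt (YR : YRoot) (YD : YDim) : VSt := by
  intro k _ _ p _ _ Λ _ _ _ _ m hm hpm t ht σ jσ ρσ hC hX hcomp
  have hjinj : Function.Injective jσ := jσ.injective
  set X : LaurentSeries k := HahnSeries.single (1 : ℤ) (1 : k) with hXdef
  have hXm : (HahnSeries.single (m : ℤ) (1 : k) : LaurentSeries k) = X ^ m := by
    rw [hXdef, HahnSeries.single_pow, one_pow, nsmul_eq_mul, mul_one]
  have hX0 : X ≠ 0 := HahnSeries.single_ne_zero one_ne_zero
  have hlX0 : lΛ Λ X ≠ 0 := (map_ne_zero (algebraMap (LaurentSeries k) Λ)).2 hX0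
  -- the constant
  obtain ⟨ζ, hζ⟩ : ∃ ζ : k, cΛ Λ ζ * lΛ Λ X = jσ t := by
    have h1 : jσ t ^ m = lΛ Λ X ^ m := by
      rw [← map_pow, ht, hcomp.alg, hX, hXm, map_pow]
    have h2 : (jσ t / lΛ Λ X) ^ m = 1 := by
      rw [div_pow, h1, div_self (pow_ne_zero _ hlX0)]
    obtain ⟨ζ, hζ⟩ := VSt_root ((algebraMap (LaurentSeries k) Λ).comp HahnSeries.C)
      (Polynomial.X ^ m - 1 : k[X]) (IsAlgClosed.splits _)
      (Polynomial.X_pow_sub_C_ne_zero hm (1 : k) |> fun h => by simpa using h) (jσ t / lΛ Λ X)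
      (by simp [h2])
    refine ⟨ζ, ?_⟩
    have h3 : cΛ Λ ζ = jσ t / lΛ Λ X := hζ
    rw [h3, div_mul_cancel₀ _ hlX0]
  have hζ0 : cΛ Λ ζ ≠ 0 := by
    intro h
    rw [h, zero_mul] at hζ
    have h1 : t = 0 := hjinj (by rw [← hζ, map_zero])
    rw [h1, zero_pow hm.ne'] at ht
    exact hlX0 ht.symm
  have hjc : ∀ c : k, jσ (cΛ Λ c) = cΛ Λ c := by
    intro c
    rw [cΛ, hcomp.alg, hC]
  -- decomposition
  have hdec := YD k σ m hm hC (fun a ha => VSt_order YR k p m σ hX a ha)
  have hlX : jσ ((cΛ Λ ζ)⁻¹ * t) = lΛ Λ X := by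
    rw [map_mul, map_inv₀, hjc, ← hζ, inv_mul_cancel_left₀ hζ0]
  have hsX : ∀ l : ℕ, (HahnSeries.single (l : ℤ) (1 : k) : LaurentSeries k) = X ^ l := by
    intro l
    rw [hXdef, HahnSeries.single_pow, one_pow, nsmul_eq_mul, mul_one]
  ext δ'
  rw [MonoidHom.mem_range, MulAction.mem_stabilizer_iff, AlgEquiv.smul_def]
  constructor
  · rintro ⟨δ, rfl⟩
    apply hjinj
    rw [hcomp.res, ← hζ, map_mul, cΛ, AlgEquiv.commutes, AlgEquiv.commutes]
  · intro hδ'
    -- `jσ` is surjective
    have himg : ∀ f : LaurentSeries k, ∃ z : Λ, jσ z = lΛ Λ f := by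
      intro f
      obtain ⟨h, hh⟩ := hdec f
      refine ⟨∑ l, lΛ Λ (h l) * ((cΛ Λ ζ)⁻¹ * t) ^ (l : ℕ), ?_⟩
      rw [map_sum]
      show _ = algebraMap (LaurentSeries k) Λ f
      conv_rhs => rw [hh]
      rw [map_sum]
      refine Finset.sum_congr rfl fun l _ => ?_
      rw [map_mul, map_pow, hlX, map_mul, hsX, map_pow, hcomp.alg]
    have hsurj : Function.Surjective jσ := by
      let e0 : Λ ≃+* jσ.range := RingEquiv.ofBijective jσ.rangeRestrict
        ⟨fun a b hab => hjinj (congrArg Subtype.val hab), jσ.rangeRestrict_surjective⟩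
      let g : LaurentSeries k →+* Λ := (e0.symm : jσ.range →+* Λ).comp
        ((algebraMap (LaurentSeries k) Λ).codRestrict jσ.range (fun f => himg f))
      have hg : ∀ f, jσ (g f) = lΛ Λ f := by
        intro f
        have h1 : e0 (g f) = (algebraMap (LaurentSeries k) Λ).codRestrict jσ.range
            (fun f => himg f) f := e0.apply_symm_apply _
        exact congrArg Subtype.val h1
      intro y
      have hsep : (minpoly (LaurentSeries k) y).Separable :=
        Algebra.IsSeparable.isSeparable (LaurentSeries k) y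
      have hint : IsIntegral (LaurentSeries k) y := Algebra.IsIntegral.isIntegral y
      refine VSt_root jσ ((minpoly (LaurentSeries k) y).map g)
        (IsSepClosed.splits_of_separable _ (hsep.map)) ?_ y ?_
      · exact (Polynomial.map_ne_zero (minpoly.ne_zero hint))
      · rw [Polynomial.map_map]
        have h2 : jσ.comp g = algebraMap (LaurentSeries k) Λ := RingHom.ext hg
        rw [h2, Polynomial.eval_map_algebraMap]
        exact minpoly.aeval _ _
    let e : Λ ≃+* Λ := RingEquiv.ofBijective jσ ⟨hjinj, hsurj⟩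
    have he : ∀ x, e x = jσ x := fun x => rfl
    let D : Λ ≃+* Λ := (e.symm.trans (δ' : Λ ≃+* Λ)).trans e
    have hD : ∀ x, D (jσ x) = jσ (δ' x) := by
      intro x
      show e (δ' (e.symm (jσ x))) = _
      rw [← he x, e.symm_apply_apply, he]
    have hDf : ∀ f : LaurentSeries k, D (algebraMap (LaurentSeries k) Λ f) =
        algebraMap (LaurentSeries k) Λ f := by
      intro f
      obtain ⟨h, hh⟩ := hdec f
      have h1 : algebraMap (LaurentSeries k) Λ f =
          jσ (∑ l, lΛ Λ (h l) * ((cΛ Λ ζ)⁻¹ * t) ^ (l : ℕ)) := by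
        rw [map_sum]
        conv_lhs => rw [hh]
        rw [map_sum]
        refine Finset.sum_congr rfl fun l _ => ?_
        rw [map_mul, map_mul, map_pow, hlX, hsX, map_pow, hcomp.alg]
      rw [h1, hD]
      congr 1
      rw [map_sum]
      refine Finset.sum_congr rfl fun l _ => ?_
      rw [map_mul, map_pow, map_mul, map_inv₀, hδ', cΛ, AlgEquiv.commutes, AlgEquiv.commutes]
    refine ⟨AlgEquiv.ofRingEquiv (f := D) hDf, ?_⟩
    apply AlgEquiv.ext
    intro x
    apply hjinj
    rw [hcomp.res]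
    exact hD x

end MP7b0bad.SV
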