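import Pool.Agent.Work.MP_7b0bad_ag.SV.VStmts

set_option autoImplicit false

namespace MP7b0bad.SV

open Polynomial

/-- a unit power series has order zero as a Laurent series -/
theorem VSub_unit_order {k : Type} [Field k] (u : PowerSeries k) (hu : IsUnit u) :
    (HahnSeries.ofPowerSeries ℤ k u).order = 0 ∧ HahnSeries.ofPowerSeries ℤ k u ≠ 0 := by
  have h0 : PowerSeries.constantCoeff u ≠ 0 := (hu.map PowerSeries.constantCoeff).ne_zero
  have h1 : (HahnSeries.ofPowerSeries ℤ k u).coeff 0 ≠ 0 := by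
    have := HahnSeries.ofPowerSeries_apply_coeff (Γ := ℤ) u 0
    rw [Nat.cast_zero] at this
    rw [this]
    simpa using h0
  have hne : HahnSeries.ofPowerSeries ℤ k u ≠ 0 := by
    intro h
    rw [h] at h1
    exact h1 HahnSeries.coeff_zero
  refine ⟨le_antisymm (HahnSeries.order_le_of_coeff_ne_zero h1) ?_, hne⟩
  by_contra hlt
  push Not at hlt
  have h2 : (HahnSeries.ofPowerSeries ℤ k u).coeff (HahnSeries.ofPowerSeries ℤ k u).order ≠ 0 :=
    fun h => hne (HahnSeries.coeff_order_eq_zero.1 h)
  apply h2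
  rw [HahnSeries.ofPowerSeries_apply]
  refine HahnSeries.embDomain_of_notMem_range ?_
  rintro ⟨n, hn⟩
  have h3 : ((n : ℕ) : ℤ) = (HahnSeries.ofPowerSeries ℤ k u).order := hn
  omega

theorem VSub_part_unit {k : Type} [Field k] (a : LaurentSeries k) (ha : a ≠ 0) :
    IsUnit a.powerSeriesPart := by
  rw [PowerSeries.isUnit_iff_constantCoeff, isUnit_iff_ne_zero,
    ← PowerSeries.coeff_zero_eq_constantCoeff_apply, LaurentSeries.powerSeriesPart_coeff,
    Nat.cast_zero, add_zero]
  exact fun h => ha (HahnSeries.coeff_order_eq_zero.1 h)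

theorem VSub_order_zpow {k : Type} [Field k] (g : LaurentSeries k) (hg : g ≠ 0) (n : ℤ) :
    (g ^ n).order = n * g.order := by
  have hnat : ∀ m : ℕ, (g ^ m).order = m * g.order := by
    intro m
    rw [HahnSeries.order_pow, nsmul_eq_mul]
  obtain ⟨m, rfl | rfl⟩ := n.eq_nat_or_neg
  · rw [zpow_natCast, hnat]
  · rw [zpow_neg, zpow_natCast]
    have h1 : g ^ m ≠ 0 := pow_ne_zero m hg
    have h2 := HahnSeries.order_mul h1 (inv_ne_zero h1)
    rw [mul_inv_cancel₀ h1, HahnSeries.order_one, hnat] at h2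
    linarith

theorem prf_VSub : VSub := by
  intro k _ g hg hg0
  obtain ⟨n, hn⟩ : ∃ n : ℕ, (n : ℤ) = g.order := ⟨g.order.toNat, by omega⟩
  have hn0 : n ≠ 0 := by omega
  set G : PowerSeries k := PowerSeries.X ^ n * g.powerSeriesPart with hG
  have hGg : HahnSeries.ofPowerSeries ℤ k G = g := LaurentSeries.X_order_mul_powerSeriesPart hn
  have hG0 : PowerSeries.constantCoeff G = 0 := by
    rw [hG, map_mul, map_pow, PowerSeries.constantCoeff_X, zero_pow hn0, zero_mul]
  have hs : PowerSeries.HasSubst G := PowerSeries.HasSubst.of_constantCoeff_zero' hG0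
  let τ : PowerSeries k →+* LaurentSeries k :=
    (HahnSeries.ofPowerSeries ℤ k).comp
      ((PowerSeries.substAlgHom (R := k) hs : PowerSeries k →ₐ[k] PowerSeries k) :
        PowerSeries k →+* PowerSeries k)
  have hτX : τ PowerSeries.X = g := by
    change HahnSeries.ofPowerSeries ℤ k (PowerSeries.substAlgHom (R := k) hs PowerSeries.X) = g
    rw [PowerSeries.substAlgHom_X]
    exact hGg
  have hτC : ∀ c : k, τ (PowerSeries.C c) = HahnSeries.C c := by
    intro c
    change HahnSeries.ofPowerSeries ℤ k (PowerSeries.substAlgHom (R := k) hs (PowerSeries.C c)) = _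
    have h1 : (PowerSeries.C c : PowerSeries k) = algebraMap k (PowerSeries k) c := rfl
    rw [h1, AlgHom.commutes]
    exact HahnSeries.ofPowerSeries_C c
  have hτu : ∀ u : PowerSeries k, IsUnit u → (τ u).order = 0 ∧ τ u ≠ 0 := by
    intro u hu
    exact VSub_unit_order _ (hu.map _)
  have hinj : Function.Injective τ := by
    rw [injective_iff_map_eq_zero]
    intro f hf
    by_contra hf0
    have hF : HahnSeries.ofPowerSeries ℤ k f ≠ 0 := fun h => hf0 (by
      apply HahnSeries.ofPowerSeries_injective (Γ := ℤ)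
      rw [h, map_zero])
    obtain ⟨m, u, hu, hfu⟩ : ∃ (m : ℕ) (u : PowerSeries k), IsUnit u ∧
        f = PowerSeries.X ^ m * u := by
      refine ⟨f.order.toNat, _, ?_, (PowerSeries.X_pow_order_mul_divXPowOrder (f := f)).symm⟩
      exact PowerSeries.isUnit_divided_by_X_pow_order hf0
    rw [hfu, map_mul, map_pow, hτX] at hf
    exact mul_ne_zero (pow_ne_zero m hg) (hτu u hu).2 hf
  let σ : LaurentSeries k →+* LaurentSeries k := IsFractionRing.lift hinj
  have hσ : ∀ f : PowerSeries k, σ (HahnSeries.ofPowerSeries ℤ k f) = τ f := by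
    intro f
    have := IsFractionRing.lift_algebraMap (K := LaurentSeries k) hinj f
    rw [LaurentSeries.coe_algebraMap] at this
    exact this
  have hσX : σ (HahnSeries.single (1 : ℤ) (1 : k)) = g := by
    rw [← HahnSeries.ofPowerSeries_X, hσ, hτX]
  refine ⟨σ, ?_, hσX, ?_⟩
  · intro c
    rw [← HahnSeries.ofPowerSeries_C, hσ, hτC, HahnSeries.ofPowerSeries_C]
  · intro a ha
    have h1 := LaurentSeries.single_order_mul_powerSeriesPart a
    have h2 : (HahnSeries.single a.order (1 : k) : LaurentSeries k) =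
        (HahnSeries.single (1 : ℤ) (1 : k)) ^ a.order := by
      exact RatFunc.single_zpow a.order
    have h3 := hτu _ (VSub_part_unit a ha)
    conv_lhs => rw [← h1]
    rw [h2, map_mul, map_zpow₀, hσX, hσ, HahnSeries.order_mul (zpow_ne_zero _ hg) h3.2, h3.1,
      VSub_order_zpow g hg, add_zero, mul_comm]

end MP7b0bad.SV
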