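import Pool.Agent.Work.MP_7b0bad_ag.SV.VStmts2

set_option autoImplicit false

/-!
Surjectivity after a base change with abelian group of order prime to `p`.
-/

namespace MP7b0bad.SV

open Polynomial

theorem prf_VSur (hNrm : VNrm) (hNaq : VNaq) : VSur := by
  intro k _ p Ω Λ _ _ _ _ hI jI ρI hB m h e ρe hm hpm hh he G _ _ Φ hΦ hs hu
  obtain ⟨hN, C, _, _, χ, -, hker, hpC⟩ :=
    (hNrm k p Ω Λ hI jI ρI hB (X ^ m) h e ρe hh he).1 m hm hpm rfl
  have hM : (ρe.range.map Φ).Normal := hN.map Φ hs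
  set M : Subgroup G := ρe.range.map Φ with hMd
  have hcomm : ∀ a b : G ⧸ M, a * b = b * a := by
    intro a b
    obtain ⟨g, rfl⟩ := QuotientGroup.mk'_surjective M a
    obtain ⟨g', rfl⟩ := QuotientGroup.mk'_surjective M b
    obtain ⟨γ, rfl⟩ := hs g
    obtain ⟨γ', rfl⟩ := hs g'
    rw [← map_mul, ← map_mul, ← map_mul, ← map_mul]
    refine QuotientGroup.eq.2 ?_
    rw [← map_inv, ← map_mul]
    refine Subgroup.mem_map_of_mem Φ ?_
    rw [← hker, MonoidHom.mem_ker]
    simp only [map_mul, map_inv]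
    rw [mul_comm (χ γ') (χ γ), inv_mul_cancel]
  let inst : CommGroup (G ⧸ M) := { (inferInstance : Group (G ⧸ M)) with mul_comm := hcomm }
  have hcard : ¬ p ∣ Nat.card (G ⧸ M) := by
    intro hp
    apply hpC
    have hsur : Function.Surjective ((QuotientGroup.mk' M).comp Φ) :=
      (QuotientGroup.mk'_surjective M).comp hs
    have h1 : ((QuotientGroup.mk' M).comp Φ).ker.index = Nat.card (G ⧸ M) := by
      rw [Subgroup.index_ker, MonoidHom.range_eq_top.2 hsur, Subgroup.card_top]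
    have h2 : χ.ker ≤ ((QuotientGroup.mk' M).comp Φ).ker := by
      intro γ hγ
      rw [MonoidHom.mem_ker, MonoidHom.comp_apply, ← MonoidHom.mem_ker, QuotientGroup.ker_mk']
      rw [hker] at hγ
      exact Subgroup.mem_map_of_mem Φ hγ
    have h3 := Subgroup.index_dvd_of_le h2
    rw [h1, Subgroup.index_ker] at h3
    exact (hp.trans h3).trans (Subgroup.card_subgroup_dvd_card _)
  obtain ⟨S, hS⟩ := hΦ
  have hone : (QuotientGroup.mk' M).comp Φ = 1 :=
    hNaq k p Ω Λ hI jI ρI hB (G ⧸ M) hcard ((QuotientGroup.mk' M).comp Φ)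
      ⟨S, fun γ hγ => by
        rw [MonoidHom.comp_apply, hS γ hγ, map_one]⟩
      (fun a h' j' ρ' hh' hc' δ => by
        rw [MonoidHom.comp_apply, hu a h' j' ρ' hh' hc' δ, map_one])
  intro g
  obtain ⟨γ, rfl⟩ := hs g
  have h4 : (QuotientGroup.mk' M) (Φ γ) = 1 := DFunLike.congr_fun hone γ
  rw [← MonoidHom.mem_ker, QuotientGroup.ker_mk'] at h4
  obtain ⟨γ', ⟨δ, rfl⟩, h5⟩ := h4
  exact ⟨δ, h5⟩

end MP7b0bad.SV
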