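import Pool.Agent.Work.MP_7b0bad_ag.SV.VStmts

set_option autoImplicit false

/-!
# Item VUp: unramified at `a` implies trivial at all places with parameter `a + g`
-/

namespace MP7b0bad.SV

open Polynomial

theorem VUp_pA_ne {k : Type} [Field k] (a : k) (c : k) : pA a ≠ HahnSeries.C c := by
  intro h
  have h1 := congrArg (fun z : LaurentSeries k => HahnSeries.coeff z 1) h
  simp [pA, HahnSeries.C_apply, HahnSeries.coeff_single] at h1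

theorem prf_VUp (hPl : VPl) (hCp : VCp) (hH : VH) (hSub : VSub) : VUp := by
  intro k _ p Ω Λ _ _ _ _ hI jI ρI hB G _ Φ a hU g hg0 hg h j ρ hh hc δ
  haveI := hB.galΩ
  haveI := hB.scΩ
  haveI := hB.galΛ
  haveI := hB.scΛ
  obtain ⟨σ, hσC, hσs, _⟩ := hSub k g hg0 hg
  obtain ⟨h₀, hh₀⟩ := (hH k).1 (pA a) (VUp_pA_ne a)
  have hcomp : IsH (σ.comp h₀) (HahnSeries.C a + g) := by
    refine ⟨fun c => ?_, ?_⟩
    · rw [RingHom.comp_apply, hh₀.cst, hσC]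
    · rw [RingHom.comp_apply, hh₀.X, pA, map_add, hσC, hσs]
  have hEq : σ.comp h₀ = h := (hH k).2.1 _ _ _ hcomp hh
  obtain ⟨⟨jσ, ρσ, hσ⟩, _⟩ := hPl (LaurentSeries k) (LaurentSeries k) Λ Λ σ
  obtain ⟨⟨j₀, ρ₀, h0⟩, _⟩ := hPl (RatFunc k) (LaurentSeries k) Ω Λ h₀
  have hC := hCp.1 (RatFunc k) (LaurentSeries k) (LaurentSeries k) Ω Λ Λ h₀ σ j₀ jσ ρ₀ ρσ h0 hσ
  rw [hEq] at hC
  obtain ⟨γ₀, _, hγ⟩ := (hPl (RatFunc k) (LaurentSeries k) Ω Λ h).2 _ _ _ _ hC hc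
  rw [hγ δ, map_mul, map_mul, MonoidHom.comp_apply, hU h₀ j₀ ρ₀ hh₀ h0 (ρσ δ), mul_one,
    ← map_mul, inv_mul_cancel, map_one]

end MP7b0bad.SV
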