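import Pool.Agent.Work.MP_7b0bad_ag.SV.LStmts
import Pool.Agent.Work.MP_7b0bad_ag.Bd.B14
import Pool.Agent.Work.MP_7b0bad_ag.Bd.B13

set_option autoImplicit false

/-!
# Connected Galois algebras over `k((ξ))` are fields of Laurent series
-/

namespace MP7b0bad

open Polynomial

/-- linear independence of `1, ω, …, ω^(e-1)`, in terms of `k((ω))` -/
theorem ELS_indep {k : Type} [Field k] (σ : LaurentSeries k →+* LaurentSeries k) (e : ℕ)
    (he : 0 < e) (hσ : ∀ a, a ≠ 0 → σ a ≠ 0 ∧ (σ a).order = e * a.order)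
    (c : Fin e → LaurentSeries k)
    (h0 : ∑ l, σ (c l) * HahnSeries.single ((l : ℕ) : ℤ) (1 : k) = 0) : ∀ l, c l = 0 := by
  classical
  by_contra hne
  push Not at hne
  obtain ⟨l1, hl1⟩ := hne
  let S : Finset (Fin e) := Finset.univ.filter fun l => c l ≠ 0
  obtain ⟨l0, hl0, hmin⟩ := Finset.exists_min_image S
    (fun l => (e : ℤ) * (c l).order + ((l : ℕ) : ℤ)) ⟨l1, by simp [S, hl1]⟩
  have hl0' : c l0 ≠ 0 := by simpa [S] using hl0
  have hcoeff := congrArg (fun x : LaurentSeries k => x.coeff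
    ((e : ℤ) * (c l0).order + ((l0 : ℕ) : ℤ))) h0
  simp only [HahnSeries.coeff_zero] at hcoeff
  rw [HahnSeries.coeff_sum, Finset.sum_eq_single l0] at hcoeff
  · have h1 := HahnSeries.coeff_mul_single_add (x := σ (c l0)) (r := (1 : k))
      (a := (e : ℤ) * (c l0).order) (b := ((l0 : ℕ) : ℤ))
    rw [h1, mul_one, ← (hσ _ hl0').2] at hcoeff
    exact (hσ _ hl0').1 (HahnSeries.coeff_order_eq_zero.1 hcoeff)
  · intro l _ hl
    by_cases hcl : c l = 0
    · rw [hcl, map_zero, zero_mul, HahnSeries.coeff_zero]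
    · have h1 := HahnSeries.coeff_mul_single_add (x := σ (c l)) (r := (1 : k))
        (a := (e : ℤ) * (c l0).order + ((l0 : ℕ) : ℤ) - ((l : ℕ) : ℤ)) (b := ((l : ℕ) : ℤ))
      rw [sub_add_cancel, mul_one] at h1
      rw [h1]
      apply HahnSeries.coeff_eq_zero_of_lt_order
      rw [(hσ _ hcl).2]
      have h2 := hmin l (by simp [S, hcl])
      have h3 : (e : ℤ) * (c l0).order + ((l0 : ℕ) : ℤ) ≠ (e : ℤ) * (c l).order + ((l : ℕ) : ℤ) := by
        intro h
        apply hl
        have hll : ((l : ℕ) : ℤ) < e := by exact_mod_cast l.2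
        have hll0 : ((l0 : ℕ) : ℤ) < e := by exact_mod_cast l0.2
        have h4 : (((l0 : ℕ) : ℤ)) % (e : ℤ) = (((l : ℕ) : ℤ)) % (e : ℤ) := by
          have h5 := congrArg (fun x : ℤ => x % (e : ℤ)) h
          simpa [Int.add_emod] using h5
        rw [Int.emod_eq_of_lt (by positivity) hll0, Int.emod_eq_of_lt (by positivity) hll] at h4
        exact Fin.ext (by exact_mod_cast h4.symm)
      have h4 := lt_of_le_of_ne h2 h3
      linarith
  · intro h
    exact absurd (Finset.mem_univ _) h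

/-- the field version -/
theorem ELS_field (hSVd : SVd) (hSVc : SVc) (k : Type) [Field k] [IsAlgClosed k] (Γ : Type)
    [Group Γ] [Finite Γ] (E : Type) [Field E] [Algebra (LaurentSeries k) E]
    [MulSemiringAction Γ E] (hG : GalAlg (LaurentSeries k) Γ E) :
    ∃ φ : E ≃+* LaurentSeries k,
    (∀ c : k, φ (algebraMap (LaurentSeries k) E (HahnSeries.C c)) = HahnSeries.C c) ∧
    ∀ a : LaurentSeries k, a ≠ 0 → φ (algebraMap (LaurentSeries k) E a) ≠ 0 ∧
      (φ (algebraMap (LaurentSeries k) E a)).order = Nat.card Γ * a.order := by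
  obtain ⟨v, ω, c, hCDV, hc0, hc1, -, hva⟩ := hSVd k Γ E hG
  obtain ⟨φ, hφC, hφω, hφo⟩ := hSVc k E _ v ω hCDV
  have hfin : Module.Finite (LaurentSeries k) E := gal_finite hG
  have hvω0 : 0 < v ω := hCDV.nrm.pos ω hCDV.om0
  have hvω1 : v ω < 1 := hCDV.om1
  have hne : ∀ a : LaurentSeries k, a ≠ 0 → algebraMap (LaurentSeries k) E a ≠ 0 := by
    intro a ha h
    exact ha (hG.inj (by rw [h, map_zero]))
  have hne' : ∀ a : LaurentSeries k, a ≠ 0 → φ (algebraMap (LaurentSeries k) E a) ≠ 0 := by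
    intro a ha h
    exact hne a ha (φ.injective (by rw [h, map_zero]))
  -- the ramification index
  have hs1 : (HahnSeries.single (1 : ℤ) (1 : k)) ≠ 0 := HahnSeries.single_ne_zero one_ne_zero
  set eZ : ℤ := (φ (algebraMap (LaurentSeries k) E (HahnSeries.single (1 : ℤ) (1 : k)))).order
    with heZ
  have hceZ : c = v ω ^ eZ := by
    have h1 := hva _ hs1
    rw [hφo _ (hne _ hs1), HahnSeries.order_single one_ne_zero, zpow_one] at h1
    exact h1.symm
  have heZ0 : 0 < eZ := by
    by_contra hle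
    push Not at hle
    have h1 : 1 ≤ v ω ^ eZ := one_le_zpow_of_nonpos₀ hvω0 hvω1.le hle
    rw [← hceZ] at h1
    linarith
  obtain ⟨e, he⟩ := Int.eq_ofNat_of_zero_le heZ0.le
  have he0 : 0 < e := by
    have : (0 : ℤ) < e := by rw [← he]; exact heZ0
    exact_mod_cast this
  have hord : ∀ a : LaurentSeries k, a ≠ 0 →
      (φ (algebraMap (LaurentSeries k) E a)).order = (e : ℤ) * a.order := by
    intro a ha
    have h1 := hva a ha
    rw [hφo _ (hne a ha), hceZ, ← zpow_mul, he] at h1
    exact zpow_right_injective₀ hvω0 hvω1.ne h1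
  let σ : LaurentSeries k →+* LaurentSeries k :=
    (φ : E →+* LaurentSeries k).comp (algebraMap (LaurentSeries k) E)
  have hσC : ∀ c, σ (HahnSeries.C c) = HahnSeries.C c := hφC
  have hσo : ∀ a, a ≠ 0 → σ a ≠ 0 ∧ (σ a).order = (e : ℤ) * a.order :=
    fun a ha => ⟨hne' a ha, hord a ha⟩
  -- the degree
  have hle : Module.finrank (LaurentSeries k) E ≤ e :=
    YInf_rank σ e (prf_YDim k σ e he0 hσC hσo) E (φ : E →+* LaurentSeries k) fun a => rfl
  have hge : e ≤ Module.finrank (LaurentSeries k) E := by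
    have hli : LinearIndependent (LaurentSeries k) (fun l : Fin e => ω ^ (l : ℕ)) := by
      rw [Fintype.linearIndependent_iff]
      intro a ha
      refine ELS_indep σ e he0 hσo a ?_
      have h1 := congrArg φ ha
      rw [map_zero, map_sum] at h1
      rw [← h1]
      refine Finset.sum_congr rfl fun l _ => ?_
      rw [Algebra.smul_def, map_mul, map_pow, hφω, HahnSeries.single_pow, one_pow, nsmul_eq_mul,
        mul_one]
      rfl
    have := hli.fintype_card_le_finrank
    rwa [Fintype.card_fin] at this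
  have hcard : Module.finrank (LaurentSeries k) E = Nat.card Γ :=
    QDomB_rank prf_QGL hG (Module.finBasis (LaurentSeries k) E)
  have hee : (e : ℤ) = (Nat.card Γ : ℤ) := by
    rw [← hcard]
    exact_mod_cast le_antisymm hge hle
  refine ⟨φ, hφC, fun a ha => ⟨hne' a ha, ?_⟩⟩
  rw [hord a ha, hee]

theorem prf_ELS (hSVd : SVd) (hSVc : SVc) : ELS := by
  intro k _ _ Γ _ _ E iE iA iM hdom hG
  have hfin : Module.Finite (LaurentSeries k) E := gal_finite hG
  have hF : IsField E := isField_of_isIntegral_of_isField'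
    (R := LaurentSeries k) (Field.toIsField (LaurentSeries k))
  exact @ELS_field hSVd hSVc k _ _ Γ _ _ E hF.toField iA iM hG

end MP7b0bad
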