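import Pool.Agent.Work.MP_7b0bad_ag.SV.LStmts
import Pool.Agent.Work.MP_7b0bad_ag.Bd.B12

set_option autoImplicit false

/-!
# Block SV, item QLLG: connected local embedding problems with `p`-kernel (helper53)
-/

namespace MP7b0bad

open Polynomial

/-- a nontrivial normal `p`-subgroup contains a minimal normal subgroup, elementary abelian -/
theorem QLLG_min {G : Type} [Group G] [Finite G] (p : ℕ) [hp : Fact p.Prime] (K : Subgroup G)
    [K.Normal] (hK : IsPGroup p K) (hne : K ≠ ⊥) :
    ∃ M : Subgroup G, M.Normal ∧ M ≤ K ∧ M ≠ ⊥ ∧ (∀ a ∈ M, a ^ p = 1) ∧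
      (∀ a ∈ M, ∀ b ∈ M, a * b = b * a) ∧
      ∀ M' : Subgroup G, M'.Normal → M' ≤ M → M' = ⊥ ∨ M' = M := by
  classical
  obtain ⟨M, ⟨hMn, hMK, hM1⟩, hmin⟩ := (Set.toFinite {M : Subgroup G | M.Normal ∧ M ≤ K ∧ M ≠ ⊥}).exists_minimal
    ⟨K, ⟨inferInstance, le_rfl, hne⟩⟩
  have hmin' : ∀ M' : Subgroup G, M'.Normal → M' ≤ M → M' = ⊥ ∨ M' = M := by
    intro M' h1 h2
    by_cases h3 : M' = ⊥
    · exact Or.inl h3
    · exact Or.inr (le_antisymm h2 (hmin ⟨h1, h2.trans hMK, h3⟩ h2))
  have hMp : IsPGroup p M := hK.to_le hMK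
  have hMnt : Nontrivial M := by
    rw [Subgroup.nontrivial_iff_ne_bot]; exact hM1
  -- commutative
  have hcomm : ∀ a ∈ M, ∀ b ∈ M, a * b = b * a := by
    have hZn : ((Subgroup.center M).map M.subtype).Normal := inferInstance
    have hZle : (Subgroup.center M).map M.subtype ≤ M := Subgroup.map_subtype_le _
    have hZ1 : (Subgroup.center M).map M.subtype ≠ ⊥ := by
      have h1 : Nontrivial (Subgroup.center M) := hMp.center_nontrivial
      rw [Ne, Subgroup.map_eq_bot_iff_of_injective _ M.subtype_injective]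
      exact (Subgroup.nontrivial_iff_ne_bot _).1 h1
    have hZ := (hmin' _ hZn hZle).resolve_left hZ1
    intro a ha b hb
    rw [← hZ] at ha
    obtain ⟨z, hz, rfl⟩ := ha
    have h1 := (Subgroup.mem_center_iff.1 hz) ⟨b, hb⟩
    exact (congrArg (fun x : M => (x : G)) h1).symm
  -- exponent
  have hexp : ∀ a ∈ M, a ^ p = 1 := by
    let Ω : Subgroup G :=
      { carrier := {a | a ∈ M ∧ a ^ p = 1}
        mul_mem' := by
          rintro a b ⟨ha, ha'⟩ ⟨hb, hb'⟩
          refine ⟨M.mul_mem ha hb, ?_⟩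
          have h1 : Commute a b := hcomm a ha b hb
          rw [h1.mul_pow, ha', hb', one_mul]
        one_mem' := ⟨M.one_mem, one_pow _⟩
        inv_mem' := by
          rintro a ⟨ha, ha'⟩
          exact ⟨M.inv_mem ha, by rw [inv_pow, ha', inv_one]⟩ }
    have hΩn : Ω.Normal := ⟨fun a ha g => ⟨hMn.conj_mem a ha.1 g, by rw [conj_pow, ha.2]; group⟩⟩
    have hΩle : Ω ≤ M := fun a ha => ha.1
    have hΩ1 : Ω ≠ ⊥ := by
      have hdvd : p ∣ Nat.card M := by
        obtain ⟨n, hn, h4⟩ := hMp.nontrivial_iff_card.1 hMnt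
        rw [h4]
        exact dvd_pow_self p hn.ne'
      obtain ⟨x, hx⟩ := exists_prime_orderOf_dvd_card' p hdvd
      intro h
      have h1 : (x : G) ∈ Ω := ⟨x.2, by
        have h2 : x ^ p = 1 := by rw [← hx]; exact pow_orderOf_eq_one x
        have h3 := congrArg (fun y : M => (y : G)) h2
        simpa using h3⟩
      rw [h, Subgroup.mem_bot] at h1
      have h2 : x = 1 := Subtype.ext h1
      rw [h2, orderOf_one] at hx
      exact hp.out.one_lt.ne hx
    have hΩ := (hmin' _ hΩn hΩle).resolve_left hΩ1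
    intro a ha
    rw [← hΩ] at ha
    exact ha.2
  exact ⟨M, hMn, hMK, hM1, hexp, hcomm, hmin'⟩

/-- the torsor is a domain when the equation has no solution -/
theorem QLLG_dom (hYComp : YComp) {F : Type} [Field F] {G G1 : Type} [Group G] [Finite G]
    [Group G1] (q : G →* G1) (hq : Function.Surjective q)
    (hab : ∀ a ∈ q.ker, ∀ b ∈ q.ker, a * b = b * a)
    (hmin : ∀ M' : Subgroup G, M'.Normal → M' ≤ q.ker → M' = ⊥ ∨ M' = q.ker)
    {E1 : Type} [CommRing E1] [IsDomain E1] [Algebra F E1] [MulSemiringAction G1 E1]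
    (hE1 : GalAlg F G1 E1) {E : Type} [CommRing E] [Algebra F E] [MulSemiringAction G E]
    (hE : GalAlg F G E) (i : E1 →+* E) (hi : Function.Injective i)
    (hia : ∀ a : F, i (algebraMap F E1 a) = algebraMap F E a)
    (hig : ∀ (g : G) (e : E1), g • i e = i (q g • e))
    (hinv : ∀ x : E, (∀ n ∈ q.ker, n • x = x) → ∃ e, i e = x)
    {p r : ℕ} (y : Fin r → E) (m : Fin r → E1) (hy : ∀ j, y j ^ p - y j = i (m j))
    (hno : ∀ n : Fin r → E1, ¬ ∀ j, n j ^ p - n j = m j) : IsDomain E := by
  classical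
  have hnt : Nontrivial E := hi.nontrivial
  obtain ⟨𝔪, hm⟩ := Ideal.exists_maximal E
  obtain ⟨G₀, E', _, _, _, π, hG₀, hE', hπs, hπk, hπa, hπg, -, -, htop, -, hN⟩ :=
    hYComp F G E hE 𝔪 hm.isPrime
  have hsup : q.ker ⊔ G₀ = ⊤ := by
    refine hN q.ker inferInstance ?_
    intro x x' hx hx' hxx
    obtain ⟨e, rfl⟩ := hinv x hx
    obtain ⟨e', rfl⟩ := hinv x' hx'
    rw [← map_mul] at hxx
    have h1 : e * e' = 0 := hi (by rw [hxx, map_zero])
    rcases mul_eq_zero.1 h1 with h2 | h2
    · left; rw [h2, map_zero]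
    · right; rw [h2, map_zero]
  have hdec : ∀ g : G, ∃ n ∈ q.ker, ∃ h ∈ G₀, n * h = g := by
    intro g
    have h1 : g ∈ q.ker ⊔ G₀ := hsup ▸ Subgroup.mem_top g
    exact Subgroup.mem_sup_of_normal_left.1 h1
  have hnorm : (q.ker ⊓ G₀).Normal := by
    refine ⟨fun x hx g => ?_⟩
    obtain ⟨n, hn, h, hh, rfl⟩ := hdec g
    obtain ⟨hx1, hx2⟩ := Subgroup.mem_inf.1 hx
    have h3 : h * x * h⁻¹ ∈ q.ker ⊓ G₀ := Subgroup.mem_inf.2
      ⟨(inferInstance : q.ker.Normal).conj_mem x hx1 h,
        G₀.mul_mem (G₀.mul_mem hh hx2) (G₀.inv_mem hh)⟩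
    have h4 : n * h * x * (n * h)⁻¹ = h * x * h⁻¹ := by
      have h5 := hab n hn _ (Subgroup.mem_inf.1 h3).1
      calc n * h * x * (n * h)⁻¹ = n * (h * x * h⁻¹) * n⁻¹ := by group
        _ = h * x * h⁻¹ * n * n⁻¹ := by rw [h5]
        _ = h * x * h⁻¹ := by group
    rw [h4]
    exact h3
  rcases hmin _ hnorm inf_le_left with h | h
  · -- the stabiliser is a complement
    exfalso
    let e0 : G₀ →* G1 := q.comp G₀.subtype
    have he0i : Function.Injective e0 := by
      rw [injective_iff_map_eq_one]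
      intro g hg
      have h1 : (g : G) ∈ q.ker ⊓ G₀ := Subgroup.mem_inf.2 ⟨hg, g.2⟩
      rw [h, Subgroup.mem_bot] at h1
      exact Subtype.ext h1
    have he0s : Function.Surjective e0 := by
      intro x
      obtain ⟨g, rfl⟩ := hq x
      obtain ⟨n, hn, h', hh, rfl⟩ := hdec g
      refine ⟨⟨h', hh⟩, ?_⟩
      change q h' = q (n * h')
      rw [map_mul, MonoidHom.mem_ker.1 hn, one_mul]
    let inst1 : MulSemiringAction G₀ E1 := MulSemiringAction.compHom E1 e0
    have hact : ∀ (g : G₀) (e : E1), g • e = q (g : G) • e := fun g e => rfl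
    have hE1' : GalAlg F G₀ E1 := by
      refine ⟨?_, hE1.inj, ?_, ?_⟩
      · intro g a
        rw [hact, hE1.comm]
      · intro b hb
        refine hE1.inv b fun g => ?_
        obtain ⟨g', rfl⟩ := he0s g
        exact hb g'
      · intro σ hσ
        have h1 : e0 σ ≠ 1 := fun h => hσ (he0i (by rw [h, map_one]))
        exact hE1.unr (e0 σ) h1
    have hbij := gal_hom_bijective hE1' hE' (π.comp i)
      (fun a => by rw [RingHom.comp_apply, hia, hπa])
      (fun g e => by
        rw [RingHom.comp_apply, RingHom.comp_apply, hact, ← hig, hπg])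
    choose n hn using fun j => hbij.2 (π (y j))
    refine hno n fun j => hbij.1 ?_
    rw [map_sub, map_pow, hn, ← map_pow, ← map_sub, hy]
    rfl
  · have h1 : q.ker ≤ G₀ := by
      rw [← h]
      exact inf_le_right
    have h2 : G₀ = ⊤ := by
      rw [← hsup]
      exact (sup_eq_right.2 h1).symm
    exact (htop h2).2

theorem prf_QLLG (hSVtw : SVtw) (hQELN : QELN) (hQASN : QASN) (hYComp : YComp) : QLLG := by
  intro k _ _ p hp _ G
  have hCinj : Function.Injective (HahnSeries.C : k →+* LaurentSeries k) := HahnSeries.C_injective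
  have hchar : CharP (LaurentSeries k) p := charP_of_injective_ringHom hCinj p
  induction hn : Nat.card G using Nat.strong_induction_on generalizing G with
  | _ N ih =>
  intro Gb _ _ _ q Eb _ _ _ hP hq hdom hgal
  by_cases hker : q.ker = ⊥
  · -- `q` is an isomorphism
    have hqi : Function.Injective q := (MonoidHom.ker_eq_bot_iff q).1 hker
    let _ : MulSemiringAction G Eb := MulSemiringAction.compHom Eb q
    have hact : ∀ (g : G) (e : Eb), g • e = q g • e := fun g e => rfl
    refine ⟨Eb, inferInstance, inferInstance, inferInstance, RingHom.id Eb, hdom, ⟨?_, hgal.inj, ?_, ?_⟩,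
      fun a => rfl, fun g e => rfl⟩
    · intro g a
      rw [hact, hgal.comm]
    · intro b hb
      refine hgal.inv b fun g => ?_
      obtain ⟨g', rfl⟩ := hq g
      exact hb g'
    · intro σ hσ
      have h1 : q σ ≠ 1 := fun h => hσ (hqi (by rw [h, map_one]))
      exact hgal.unr (q σ) h1
  · obtain ⟨M, hMn, hMq, hM1, hMexp, hMab, hMmin⟩ := QLLG_min p q.ker hP hker
    let G1 := G ⧸ M
    let π : G →* G1 := QuotientGroup.mk' M
    have hπ : Function.Surjective π := QuotientGroup.mk'_surjective _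
    have hπk : π.ker = M := QuotientGroup.ker_mk' _
    let q1 : G1 →* Gb := QuotientGroup.lift M q hMq
    have hq1 : ∀ g : G, q1 (π g) = q g := fun g => rfl
    have hq1s : Function.Surjective q1 := by
      intro g
      obtain ⟨g', rfl⟩ := hq g
      exact ⟨π g', hq1 g'⟩
    have hq1p : IsPGroup p q1.ker := by
      rintro ⟨x, hx⟩
      obtain ⟨g, rfl⟩ := hπ x
      rw [MonoidHom.mem_ker, hq1] at hx
      obtain ⟨n, hn⟩ := hP ⟨g, hx⟩
      refine ⟨n, Subtype.ext ?_⟩
      have h1 : g ^ p ^ n = 1 := congrArg (fun y : q.ker => (y : G)) hn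
      change (π g) ^ p ^ n = 1
      rw [← map_pow, h1, map_one]
    have hcard : Nat.card G1 < N := by
      have h1 := Subgroup.card_eq_card_quotient_mul_card_subgroup M
      rw [hn] at h1
      have h2 : 0 < Nat.card G1 := Nat.card_pos
      have h3 : 1 < Nat.card M := by
        rw [Subgroup.one_lt_card_iff_ne_bot]
        exact hM1
      change N = Nat.card G1 * Nat.card M at h1
      nlinarith
    obtain ⟨E1, _, _, _, i1, hdom1, hgal1, hi1, hi1'⟩ :=
      ih (Nat.card G1) hcard G1 rfl Gb q1 Eb hq1p hq1s hdom hgal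
    obtain ⟨r, ρ, ν, hEx⟩ := QR2_pres p G M hMexp hMab
    obtain ⟨b, m, hb, hbn, hbm⟩ := hQELN (LaurentSeries k) p r G G1 π ρ ν E1 hEx hgal1
    have hr : 0 < r := by
      rcases Nat.eq_zero_or_pos r with h0 | h0
      · exfalso
        subst h0
        apply hM1
        rw [Subgroup.eq_bot_iff_forall]
        intro a ha
        exact hEx.nu_bij.injOn (x₁ := a) (x₂ := 1) (by rw [hπk]; exact ha)
          (by rw [hπk]; exact M.one_mem) (Subsingleton.elim _ _)
      · exact h0
    -- the representation of the quotient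
    let s : G1 → G := Function.surjInv hEx.surj
    have hs : ∀ x, π (s x) = x := Function.surjInv_eq hEx.surj
    let ρb : G1 → Matrix (Fin r) (Fin r) (ZMod p) := fun x => ρ (s x)
    have hρb : ∀ g, ρb (π g) = ρ g := by
      intro g
      have h1 : g⁻¹ * s (π g) ∈ π.ker := by
        rw [MonoidHom.mem_ker, map_mul, map_inv, hs, inv_mul_cancel]
      have h2 : s (π g) = g * (g⁻¹ * s (π g)) := by group
      change ρ (s (π g)) = ρ g
      rw [h2, hEx.mul, hEx.ker _ h1, mul_one]
    have hρbm : ∀ x y, ρb (x * y) = ρb x * ρb y := by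
      intro x y
      obtain ⟨g, rfl⟩ := hπ x
      obtain ⟨g', rfl⟩ := hπ y
      rw [← map_mul, hρb, hρb, hρb, hEx.mul]
    have hρb1 : ρb 1 = 1 := by rw [← map_one π, hρb, hEx.one]
    -- the field `E1`
    have hfin := gal_finite hgal1
    have hint : Algebra.IsIntegral (LaurentSeries k) E1 := Algebra.IsIntegral.of_finite _ _
    have hfield : IsField E1 := isField_of_isIntegral_of_isField' (Field.toIsField (LaurentSeries k))
    have htw : ∃ w : Fin r → E1, (∀ g : G1, stA (ρb g) (fun x => g • x) w = w) ∧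
        ∀ n : Fin r → E1, ¬ ∀ j, n j ^ p - n j = m j + w j := by
      let _ : Field E1 := hfield.toField
      exact hSVtw k p r G1 ρb E1 hr hρbm hρb1 hgal1 m
    obtain ⟨w, hw, hno⟩ := htw
    have hm' : ∀ g j, b g j ^ p - b g j = stA (ρ g) (fun x => π g • x) (fun l => m l + w l) j -
        (m j + w j) := by
      intro g j
      have h1 := congrFun (hw (π g)) j
      rw [hρb, QASN_stA] at h1
      rw [hbm, QASN_stA, QASN_stA]
      have h2 : (fun l => π g • (m l + w l)) = fun l => π g • m l + π g • w l := by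
        funext l
        rw [smul_add]
      rw [h2, QASN_mv_add, h1]
      ring
    obtain ⟨E, _, _, _, i, y, hgalE, hi, hiinj, hi', -, hyrel, -, -, hinvN⟩ :=
      hQASN (LaurentSeries k) p r G G1 π ρ ν E1 b (fun l => m l + w l) hEx hgal1 hb hbn hm'
    refine ⟨E, inferInstance, inferInstance, inferInstance, i.comp i1, ?_, hgalE, ?_, ?_⟩
    · -- domain
      refine QLLG_dom hYComp π hπ ?_ ?_ hgal1 hgalE i hiinj hi hi' hinvN y _ hyrel hno
      · rw [hπk]
        exact hMab
      · rw [hπk]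
        exact hMmin
    · intro a
      rw [RingHom.comp_apply, hi1, hi]
    · intro g e
      rw [RingHom.comp_apply, RingHom.comp_apply, hi', hi1', hq1]

end MP7b0bad
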