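import Pool.Agent.Work.MP_7b0bad_ag.SV.LStmts
import Pool.Agent.Work.MP_7b0bad_ag.Bd.B12

set_option autoImplicit false

/-!
# QR2G: embedding problems with elementary abelian `p`-kernel, arbitrary `G₀`
-/

namespace MP7b0bad

open Polynomial

theorem prf_QR2G (hQLLG : QLLG) (hQELN : QELN) (hQASN : QASN) (hQDenV : QDenV) (hQComp : QComp)
    (hQSub : QSub) : QR2G := by
  classical
  intro k _ _ p hpF _ G _ _ N P hNn hN1 hN2 hRel
  have hp : p.Prime := hpF.out
  obtain ⟨r, ρ, ν, hEx⟩ := QR2_pres p G N hN1 hN2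
  have hker : (QuotientGroup.mk' N).ker = N := QuotientGroup.ker_mk' N
  generalize QuotientGroup.mk' N = q at hEx hRel hker
  obtain ⟨Bb, _, _, _, Eb, _, _, _, ιb, hBb, hBbd, hEb, hEbd, hιb, hιba⟩ := hRel
  have hK : CharP (LaurentSeries k) p :=
    charP_of_injective_ringHom (HahnSeries.C_injective (Γ := ℤ) (R := k)) p
  obtain ⟨b, m, hb, hbn, hm⟩ := hQELN k[X] p r G (G ⧸ N) q ρ ν Bb hEx hBb
  -- the local field
  let qP : P →* P.map q := q.subgroupMap P
  have hqP : Function.Surjective qP := q.subgroupMap_surjective P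
  have hqPc : ∀ g : P, ((qP g : P.map q) : G ⧸ N) = q g := fun g => rfl
  have hP : IsPGroup p qP.ker := by
    intro γ
    have hγ1 : (((γ : P) : G)) ∈ q.ker :=
      congrArg (fun z : P.map q => (z : G ⧸ N)) (MonoidHom.mem_ker.1 γ.2)
    have hγ2 : (((γ : P) : G)) ∈ N := hker.le hγ1
    refine ⟨1, ?_⟩
    rw [pow_one]
    apply Subtype.ext
    apply Subtype.ext
    exact hN1 _ hγ2
  obtain ⟨E, _, _, _, i0, hEd, hE, hi0, hi0a⟩ := hQLLG k p P (P.map q) qP Eb hP hqP hEbd hEb
  have hEc : CharP E p := charP_of_injective_ringHom hE.inj p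
  obtain ⟨hi0inj, hi0inv⟩ := QR2_inv hQSub qP hqP i0 hEb hE hi0 hi0a
  have hBbc : CharP Bb p := charP_of_injective_ringHom hBb.inj p
  have hEbc : CharP Eb p := charP_of_injective_ringHom hEb.inj p
  have hρi : ∀ g, ρ g⁻¹ * ρ g = 1 := fun g => by rw [← hEx.mul, inv_mul_cancel, hEx.one]
  have hρi' : ∀ g, ρ g * ρ g⁻¹ = 1 := fun g => by rw [← hEx.mul, mul_inv_cancel, hEx.one]
  let ψ : Bb →+* E := i0.comp ιb
  have hψ : ∀ (g : P) (e : Bb), ψ (q g • e) = g • ψ e := by
    intro g e
    change i0 (ιb (((qP g : P.map q) : G ⧸ N) • e)) = g • i0 (ιb e)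
    rw [hιba, hi0a]
  have hψst : ∀ (g : P) (v : Fin r → Bb) (j : Fin r),
      ψ (stA (ρ g) (fun x => q g • x) v j) = QASN_mv (ρ g) (fun l => g • ψ (v l)) j := by
    intro g v j
    rw [QASN_stA, QASN_mv_map]
    congr 1
    funext l
    exact hψ g (v l)
  -- twisted Hilbert 90
  obtain ⟨y0, hy0⟩ := QR2_H90 (p := p) (r := r) hE (fun g : P => ρ g)
    (fun (g : P) j => ψ (b g j)) (fun g g' => by
      funext j
      have h1 := congrArg ψ (congrFun (hb g g') j)
      rw [Pi.add_apply, map_add, hψst] at h1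
      exact h1)
  have hy0' : ∀ (g : P), QASN_mv (ρ g) (fun l => g • y0 l) = fun l => y0 l + ψ (b g l) := hy0
  have hρsub : ∀ (g : P) (v : Fin r → E) (j : Fin r), QASN_mv (ρ g) (fun l => g • (v l ^ p - v l)) j
      = QASN_mv (ρ g) (fun l => g • v l) j ^ p - QASN_mv (ρ g) (fun l => g • v l) j := by
    intro g v j
    rw [QASN_mv_pow, ← QASN_mv_sub]
    congr 1
    funext l
    rw [smul_sub, smul_pow']
  -- the defect
  have hw0 : ∀ (g : P) (j : Fin r), QASN_mv (ρ g) (fun l => g • (y0 l ^ p - y0 l - ψ (m l))) j =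
      y0 j ^ p - y0 j - ψ (m j) := by
    intro g j
    have h1 : (fun l => g • (y0 l ^ p - y0 l - ψ (m l))) =
        fun l => g • (y0 l ^ p - y0 l) - g • ψ (m l) := by
      funext l
      rw [smul_sub]
    rw [h1, QASN_mv_sub, hρsub, hy0', ← hψst]
    have h2 := congrArg ψ (hm g j)
    rw [map_sub, map_pow, map_sub] at h2
    simp only [add_pow_char]
    linear_combination h2
  have hex : ∀ j, ∃ e : Eb, i0 e = y0 j ^ p - y0 j - ψ (m j) := by
    intro j
    refine hi0inv _ fun γ hγ => ?_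
    have hγ2 : (γ : G) ∈ q.ker := by
      have h1 := congrArg (fun z : P.map q => (z : G ⧸ N)) (MonoidHom.mem_ker.1 hγ)
      exact h1
    have h1 := hw0 γ j
    rw [hEx.ker _ hγ2, QASN_mv_one] at h1
    exact h1
  choose w hw using hex
  -- the representation of the quotient
  let s : (G ⧸ N) → G := Function.surjInv hEx.surj
  have hs : ∀ x, q (s x) = x := Function.surjInv_eq hEx.surj
  let ρb : (G ⧸ N) → Matrix (Fin r) (Fin r) (ZMod p) := fun x => ρ (s x)
  have hρb : ∀ g, ρb (q g) = ρ g := by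
    intro g
    have h1 : g⁻¹ * s (q g) ∈ q.ker := by
      rw [MonoidHom.mem_ker, map_mul, map_inv, hs, inv_mul_cancel]
    have h2 : s (q g) = g * (g⁻¹ * s (q g)) := by group
    change ρ (s (q g)) = ρ g
    rw [h2, hEx.mul, hEx.ker _ h1, mul_one]
  have hρbm : ∀ x y, ρb (x * y) = ρb x * ρb y := by
    intro x y
    obtain ⟨g, rfl⟩ := hEx.surj x
    obtain ⟨g', rfl⟩ := hEx.surj y
    rw [← map_mul, hρb, hρb, hρb, hEx.mul]
  have hρb1 : ρb 1 = 1 := by rw [← map_one q, hρb, hEx.one]
  have hi0st : ∀ (g : P) (v : Fin r → Eb) (j : Fin r),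
      i0 (stA (ρb ((qP g : P.map q) : G ⧸ N)) (fun x => qP g • x) v j) =
        QASN_mv (ρ g) (fun l => g • i0 (v l)) j := by
    intro g v j
    rw [QASN_stA, QASN_mv_map, hqPc, hρb]
    congr 1
    funext l
    exact (hi0a g (v l)).symm
  obtain ⟨f, h, hf, hh, hwfh⟩ := hQDenV k p r (G ⧸ N) (P.map q) ρb Bb Eb ιb hρbm hρb1 hBb hEb hιb
    hιba w (fun g => by
      obtain ⟨g, rfl⟩ := hqP g
      funext j
      refine hi0inj ?_
      rw [hi0st, hw]
      have h1 : (fun l => g • i0 (w l)) = fun l => g • (y0 l ^ p - y0 l - ψ (m l)) := by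
        funext l
        rw [hw]
      rw [h1, hw0])
  -- the torsor
  have hm' : ∀ g j, b g j ^ p - b g j = stA (ρ g) (fun x => q g • x) (fun l => m l + f l) j -
      (m j + f j) := by
    intro g j
    have h1 := congrFun (hf (q g)) j
    rw [hρb, QASN_stA] at h1
    rw [hm, QASN_stA, QASN_stA]
    have h2 : (fun l => q g • (m l + f l)) = fun l => q g • m l + q g • f l := by
      funext l
      rw [smul_add]
    rw [h2, QASN_mv_add, h1]
    ring
  obtain ⟨BB, _, _, _, i, y, hBB, hial, hiinj, hia, hyst, hyrel, huni, hext, hinvN⟩ :=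
    hQASN k[X] p r G (G ⧸ N) q ρ ν Bb b (fun l => m l + f l) hEx hBb hb hbn hm'
  obtain ⟨F, hF1, hF2⟩ := huni E ψ (fun j => y0 j - i0 (h j)) (by
    intro j
    have h1 := hw j
    have h2 := congrArg i0 (hwfh j)
    rw [map_add, map_sub, map_pow] at h2
    have h3 : ψ (m j + f j) = ψ (m j) + i0 (ιb (f j)) := by rw [map_add]; rfl
    rw [h3, sub_pow_char]
    linear_combination h2 - h1)
  -- equivariance
  have hh' : ∀ (g : P) (j : Fin r), QASN_mv (ρ g) (fun l => g • i0 (h l)) j = i0 (h j) := by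
    intro g j
    rw [← hi0st, hh]
  have hFa : ∀ (g : P) (z : BB), F ((g : G) • z) = g • F z := by
    intro g z
    have h1 : F.comp (MulSemiringAction.toRingHom G BB (g : G)) =
        (MulSemiringAction.toRingHom P E g).comp F := by
      refine hext E _ _ (fun e => ?_) fun j => ?_
      · change F ((g : G) • i e) = g • F (i e)
        rw [hia, hF1, hF1, hψ]
      · change F ((g : G) • y j) = g • F (y j)
        have h2 : (fun l => F ((g : G) • y l)) = fun l => g • F (y l) := by
          refine QR2_cancel (ρ g) (ρ (g : G)⁻¹) (hρi g) _ _ ?_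
          funext l
          rw [← QASN_mv_map F]
          have h3 := hyst g l
          rw [QASN_stA] at h3
          rw [h3, map_add, hF2, hF1]
          have h4 : (fun l => g • F (y l)) = fun l => g • y0 l - g • i0 (h l) := by
            funext l
            rw [hF2, smul_sub]
          rw [h4, QASN_mv_sub, hh', hy0']
          ring
        exact congrFun h2 j
    exact congrArg (fun H : BB →+* E => H z) h1
  have hFalg : ∀ a : k[X], F (algebraMap k[X] BB a) = algebraMap (LaurentSeries k) E (atInf k a) := by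
    intro a
    rw [← hial, hF1]
    change i0 (ιb (algebraMap k[X] Bb a)) = _
    rw [hιb, hi0]
  -- the component
  obtain ⟨G', B', _, _, _, q', ι', hPG, hB', hB'd, hq's, hq'alg, hq'a, hι'q, hι'inj, hNtop⟩ :=
    hQComp k G BB E F P (MulSemiringAction.toRingAut P E) hBB
      (fun a a' haa => by
        simp only [hFalg] at haa
        exact E7_atInf_inj k (hE.inj haa))
      (fun g z => by
        rw [hFa]
        rfl)
  refine ⟨G', hPG, hNtop N hNn fun z z' hz hz' hzz => ?_, ?_⟩
  · obtain ⟨e, rfl⟩ := hinvN z (by rw [hker]; exact hz)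
    obtain ⟨e', rfl⟩ := hinvN z' (by rw [hker]; exact hz')
    rw [← map_mul] at hzz
    have h1 : e * e' = 0 := hiinj (by rw [hzz, map_zero])
    rcases mul_eq_zero.1 h1 with h2 | h2
    · left; rw [h2, map_zero]
    · right; rw [h2, map_zero]
  · let eP : P.subgroupOf G' ≃* P := Subgroup.subgroupOfEquivOfLe hPG
    have heP : ∀ g : P.subgroupOf G', ((eP g : P) : G) = ((g : G') : G) := fun g => rfl
    let instM : MulSemiringAction (P.subgroupOf G') E :=
      MulSemiringAction.compHom E eP.toMonoidHom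
    have hsm : ∀ (g : P.subgroupOf G') (x : E), g • x = eP g • x := fun g x => rfl
    refine ⟨B', inferInstance, inferInstance, inferInstance, E, inferInstance, inferInstance,
      instM, ι', hB', hB'd, ⟨?_, hE.inj, ?_, ?_⟩, hEd, ?_, ?_⟩
    · intro g a
      rw [hsm, hE.comm]
    · intro x hx
      refine hE.inv x fun g => ?_
      have h1 := hx (eP.symm g)
      rwa [hsm, eP.apply_symm_apply] at h1
    · intro σ hσ
      have h1 : eP σ ≠ 1 := fun h => hσ (eP.injective (by rw [h, map_one]))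
      exact hE.unr (eP σ) h1
    · intro a
      rw [← hq'alg, hι'q, hFalg]
    · intro g z
      obtain ⟨z, rfl⟩ := hq's z
      rw [← hq'a, hι'q, hι'q, hsm, ← hFa, heP]

end MP7b0bad
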