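import Pool.Agent.Work.MP_7b0bad_ag.SV.LStmts

set_option autoImplicit false

namespace MP7b0bad

open Polynomial

section SVc

variable {k : Type} [Field k] {F : Type} [Field F] {C : k →+* F} {v : F → ℝ} {ω : F}

theorem SVc_one (h : Nrm F v) : v 1 = 1 := by
  have h1 := h.mul 1 1
  have h2 := h.pos 1 one_ne_zero
  rw [mul_one] at h1
  have h3 : v 1 * (v 1 - 1) = 0 := by linarith [h1]
  rcases mul_eq_zero.1 h3 with h4 | h4
  · exact absurd h4 h2.ne'
  · linarith

/-- the norm as a homomorphism -/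
def SVc_hom (h : Nrm F v) : F →*₀ ℝ where
  toFun := v
  map_zero' := h.zero
  map_one' := SVc_one h
  map_mul' := h.mul

theorem SVc_pow (h : Nrm F v) (x : F) (n : ℕ) : v (x ^ n) = v x ^ n :=
  map_pow (SVc_hom h) x n

theorem SVc_zpow (h : Nrm F v) (x : F) (n : ℤ) : v (x ^ n) = v x ^ n :=
  map_zpow₀ (SVc_hom h) x n

theorem SVc_nonneg (h : Nrm F v) (x : F) : 0 ≤ v x := by
  by_cases hx : x = 0
  · rw [hx, h.zero]
  · exact (h.pos x hx).le

theorem SVc_neg1 (h : Nrm F v) : v (-1) = 1 := by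
  have h1 := h.mul (-1) (-1)
  rw [neg_one_mul, neg_neg, SVc_one h] at h1
  have h2 := SVc_nonneg h (-1)
  nlinarith

theorem SVc_neg (h : Nrm F v) (x : F) : v (-x) = v x := by
  rw [← neg_one_mul, h.mul, SVc_neg1 h, one_mul]

theorem SVc_sub (h : Nrm F v) (x y : F) : v (x - y) ≤ max (v x) (v y) := by
  rw [sub_eq_add_neg, ← SVc_neg h y]
  exact h.add x (-y)

theorem SVc_sum (h : Nrm F v) {ι : Type} (s : Finset ι) (f : ι → F) (b : ℝ) (hb : 0 ≤ b)
    (hf : ∀ i ∈ s, v (f i) ≤ b) : v (∑ i ∈ s, f i) ≤ b := by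
  classical
  induction s using Finset.induction_on with
  | empty => simpa [h.zero] using hb
  | insert a s ha ih =>
    rw [Finset.sum_insert ha]
    refine (h.add _ _).trans (max_le (hf a (Finset.mem_insert_self a s)) ?_)
    exact ih fun i hi => hf i (Finset.mem_insert_of_mem hi)

theorem SVc_om (h : CDV k F C v ω) : 0 < v ω := h.nrm.pos ω h.om0

theorem SVc_C (h : CDV k F C v ω) (c : k) : v (C c) ≤ 1 := by
  by_cases hc : c = 0
  · rw [hc, map_zero, h.nrm.zero]; exact zero_le_one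
  · exact (h.const c hc).le

theorem SVc_eval (h : CDV k F C v ω) (n : ℕ) (P : k[X]) (hP : ∀ i < n, P.coeff i = 0) :
    v (P.eval₂ C ω) ≤ v ω ^ n := by
  rw [eval₂_eq_sum_range]
  refine SVc_sum h.nrm _ _ _ (pow_nonneg (SVc_om h).le n) fun i _ => ?_
  by_cases hi : i < n
  · rw [hP i hi, map_zero, zero_mul, h.nrm.zero]
    exact pow_nonneg (SVc_om h).le n
  · rw [h.nrm.mul, SVc_pow h.nrm]
    calc v (C (P.coeff i)) * v ω ^ i ≤ 1 * v ω ^ i :=
          mul_le_mul_of_nonneg_right (SVc_C h _) (pow_nonneg (SVc_om h).le i)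
      _ = v ω ^ i := one_mul _
      _ ≤ v ω ^ n := pow_le_pow_of_le_one (SVc_om h).le h.om1.le (not_lt.1 hi)

/-- the partial sums -/
noncomputable def SVc_u (C : k →+* F) (ω : F) (f : PowerSeries k) (n : ℕ) : F :=
  (PowerSeries.trunc n f).eval₂ C ω

theorem SVc_ex (h : CDV k F C v ω) (f : PowerSeries k) :
    ∃ x, ∀ n, v (x - SVc_u C ω f n) ≤ v ω ^ n := by
  refine h.compl (v ω) (SVc_u C ω f) (SVc_om h) h.om1 fun n => ?_
  have : SVc_u C ω f (n + 1) - SVc_u C ω f n =
      (PowerSeries.trunc (n + 1) f - PowerSeries.trunc n f).eval₂ C ω := by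
    rw [eval₂_sub]; rfl
  rw [this]
  refine SVc_eval h n _ fun i hi => ?_
  rw [coeff_sub, PowerSeries.coeff_trunc, PowerSeries.coeff_trunc, if_pos hi,
    if_pos (hi.trans (Nat.lt_succ_self n)), sub_self]

theorem SVc_uniq (h : CDV k F C v ω) (x y : F) (hxy : ∀ n : ℕ, v (x - y) ≤ v ω ^ n) : x = y := by
  by_contra hne
  have h1 : 0 < v (x - y) := h.nrm.pos _ (sub_ne_zero.2 hne)
  obtain ⟨n, hn⟩ := exists_pow_lt_of_lt_one h1 h.om1
  exact absurd (hxy n) (not_le.2 hn)

/-- the value of a power series -/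
noncomputable def SVc_psi (h : CDV k F C v ω) (f : PowerSeries k) : F := (SVc_ex h f).choose

theorem SVc_psi_spec (h : CDV k F C v ω) (f : PowerSeries k) (n : ℕ) :
    v (SVc_psi h f - SVc_u C ω f n) ≤ v ω ^ n := (SVc_ex h f).choose_spec n

theorem SVc_psi_eq (h : CDV k F C v ω) (f : PowerSeries k) (x : F)
    (hx : ∀ n, v (x - SVc_u C ω f n) ≤ v ω ^ n) : SVc_psi h f = x := by
  refine SVc_uniq h _ _ fun n => ?_
  have : SVc_psi h f - x = (SVc_psi h f - SVc_u C ω f n) - (x - SVc_u C ω f n) := by ring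
  rw [this]
  exact (SVc_sub h.nrm _ _).trans (max_le (SVc_psi_spec h f n) (hx n))

theorem SVc_psi_le (h : CDV k F C v ω) (f : PowerSeries k) : v (SVc_psi h f) ≤ 1 := by
  have := SVc_psi_spec h f 0
  simpa [SVc_u] using this

theorem SVc_u_le (h : CDV k F C v ω) (f : PowerSeries k) (n : ℕ) : v (SVc_u C ω f n) ≤ 1 := by
  have := SVc_eval h 0 (PowerSeries.trunc n f) (fun i hi => absurd hi (Nat.not_lt_zero i))
  rw [pow_zero] at this
  exact this

theorem SVc_psi_poly (h : CDV k F C v ω) (P : k[X]) :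
    SVc_psi h (P : PowerSeries k) = P.eval₂ C ω := by
  refine SVc_psi_eq h _ _ fun n => ?_
  have : P.eval₂ C ω - SVc_u C ω (P : PowerSeries k) n =
      (P - PowerSeries.trunc n (P : PowerSeries k)).eval₂ C ω := by
    rw [eval₂_sub]; rfl
  rw [this]
  refine SVc_eval h n _ fun i hi => ?_
  rw [coeff_sub, PowerSeries.coeff_trunc, if_pos hi, Polynomial.coeff_coe, sub_self]

theorem SVc_psi_add (h : CDV k F C v ω) (f g : PowerSeries k) :
    SVc_psi h (f + g) = SVc_psi h f + SVc_psi h g := by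
  refine SVc_psi_eq h _ _ fun n => ?_
  have : SVc_psi h f + SVc_psi h g - SVc_u C ω (f + g) n =
      (SVc_psi h f - SVc_u C ω f n) + (SVc_psi h g - SVc_u C ω g n) := by
    have : SVc_u C ω (f + g) n = SVc_u C ω f n + SVc_u C ω g n := by
      unfold SVc_u
      rw [← eval₂_add]
      congr 1
      exact map_add _ _ _
    rw [this]; ring
  rw [this]
  exact (h.nrm.add _ _).trans (max_le (SVc_psi_spec h f n) (SVc_psi_spec h g n))

theorem SVc_psi_mul (h : CDV k F C v ω) (f g : PowerSeries k) :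
    SVc_psi h (f * g) = SVc_psi h f * SVc_psi h g := by
  refine SVc_psi_eq h _ _ fun n => ?_
  have h1 : SVc_psi h f * SVc_psi h g - SVc_u C ω (f * g) n =
      (SVc_psi h f - SVc_u C ω f n) * SVc_psi h g +
      (SVc_u C ω f n * (SVc_psi h g - SVc_u C ω g n) +
      (SVc_u C ω f n * SVc_u C ω g n - SVc_u C ω (f * g) n)) := by ring
  have h2 : SVc_u C ω f n * SVc_u C ω g n - SVc_u C ω (f * g) n =
      (PowerSeries.trunc n f * PowerSeries.trunc n g - PowerSeries.trunc n (f * g)).eval₂ C ω := by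
    rw [eval₂_sub, eval₂_mul]; rfl
  have hq := pow_nonneg (SVc_om h).le n
  rw [h1]
  refine (h.nrm.add _ _).trans (max_le ?_ ((h.nrm.add _ _).trans (max_le ?_ ?_)))
  · rw [h.nrm.mul]
    calc _ ≤ v ω ^ n * 1 := mul_le_mul (SVc_psi_spec h f n) (SVc_psi_le h g)
          (SVc_nonneg h.nrm _) hq
      _ = _ := mul_one _
  · rw [h.nrm.mul]
    calc _ ≤ 1 * v ω ^ n := mul_le_mul (SVc_u_le h f n) (SVc_psi_spec h g n)
          (SVc_nonneg h.nrm _) zero_le_one
      _ = _ := one_mul _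
  · rw [h2]
    refine SVc_eval h n _ fun i hi => ?_
    rw [coeff_sub, PowerSeries.coeff_trunc, if_pos hi, PowerSeries.coeff_mul, coeff_mul,
      sub_eq_zero]
    refine Finset.sum_congr rfl fun x hx => ?_
    have hx' := Finset.HasAntidiagonal.mem_antidiagonal.1 hx
    rw [PowerSeries.coeff_trunc, PowerSeries.coeff_trunc, if_pos (by omega), if_pos (by omega)]

/-- the homomorphism `k[[T]] → F` -/
noncomputable def SVc_psiHom (h : CDV k F C v ω) : PowerSeries k →+* F where
  toFun := SVc_psi h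
  map_one' := by
    have := SVc_psi_poly h 1
    simpa using this
  map_mul' := SVc_psi_mul h
  map_zero' := by
    have := SVc_psi_poly h 0
    simpa using this
  map_add' := SVc_psi_add h

theorem SVc_psiHom_apply (h : CDV k F C v ω) (f : PowerSeries k) : SVc_psiHom h f = SVc_psi h f :=
  rfl

theorem SVc_psi_X (h : CDV k F C v ω) : SVc_psiHom h PowerSeries.X = ω := by
  have := SVc_psi_poly h X
  rw [SVc_psiHom_apply]
  simpa using this

theorem SVc_psi_C (h : CDV k F C v ω) (c : k) : SVc_psiHom h (PowerSeries.C c) = C c := by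
  have := SVc_psi_poly h (Polynomial.C c)
  rw [SVc_psiHom_apply]
  simpa using this

theorem SVc_psi_unit (h : CDV k F C v ω) (f : PowerSeries k) (hf : PowerSeries.coeff 0 f ≠ 0) :
    v (SVc_psi h f) = 1 := by
  have h1 := SVc_psi_spec h f 1
  have h2 : SVc_u C ω f 1 = C (PowerSeries.coeff 0 f) := by
    unfold SVc_u
    rw [eval₂_eq_sum_range' C (n := 1) (p := PowerSeries.trunc 1 f)
      (PowerSeries.natDegree_trunc_lt f 0)]
    simp
  rw [h2, pow_one] at h1
  refine le_antisymm (SVc_psi_le h f) ?_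
  have h3 := h.const _ hf
  have h4 : C (PowerSeries.coeff 0 f) =
      SVc_psi h f - (SVc_psi h f - C (PowerSeries.coeff 0 f)) := by ring
  have h5 := SVc_sub h.nrm (SVc_psi h f) (SVc_psi h f - C (PowerSeries.coeff 0 f))
  rw [← h4, h3] at h5
  rcases le_max_iff.1 h5 with h6 | h6
  · exact h6
  · exact absurd (h6.trans h1) (not_le.2 h.om1)

theorem SVc_psi_inj (h : CDV k F C v ω) : Function.Injective (SVc_psiHom h) := by
  rw [injective_iff_map_eq_zero]
  intro f hf
  by_contra hne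
  obtain ⟨n, g, hg, hfg⟩ : ∃ (n : ℕ) (g : PowerSeries k), PowerSeries.coeff 0 g ≠ 0 ∧
      f = PowerSeries.X ^ n * g := by
    classical
    obtain ⟨n, hn⟩ : ∃ n, PowerSeries.coeff n f ≠ 0 := by
      by_contra hcon
      push Not at hcon
      exact hne (PowerSeries.ext (by simpa using hcon))
    have hex : ∃ n, PowerSeries.coeff n f ≠ 0 := ⟨n, hn⟩
    refine ⟨Nat.find hex, PowerSeries.mk fun i =>
      PowerSeries.coeff (i + Nat.find hex) f, ?_, ?_⟩
    · rw [PowerSeries.coeff_mk, zero_add]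
      exact Nat.find_spec hex
    · ext i
      rw [PowerSeries.coeff_X_pow_mul']
      split_ifs with hi
      · rw [PowerSeries.coeff_mk, Nat.sub_add_cancel hi]
      · by_contra hcon
        exact Nat.find_min hex (not_le.1 hi) hcon
  rw [hfg, map_mul, map_pow, SVc_psi_X] at hf
  rcases mul_eq_zero.1 hf with h1 | h1
  · exact (pow_ne_zero n h.om0) h1
  · have := SVc_psi_unit h g hg
    rw [SVc_psiHom_apply] at h1
    rw [h1, h.nrm.zero] at this
    exact zero_ne_one this

theorem SVc_psi_surj (h : CDV k F C v ω) (y : F) (hy : v y ≤ 1) :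
    ∃ f, SVc_psiHom h f = y := by
  have step : ∀ y : {y : F // v y ≤ 1}, ∃ (c : k) (z : {y : F // v y ≤ 1}),
      (y : F) = C c + ω * z := by
    intro y
    obtain ⟨c, hc⟩ := h.res y y.2
    have h1 := h.disc _ hc
    have h0 := SVc_om h
    have h2 : v (((y : F) - C c) * ω⁻¹) ≤ 1 := by
      have h3 : v ω * v (ω⁻¹) = 1 := by
        rw [← h.nrm.mul, mul_inv_cancel₀ h.om0, SVc_one h.nrm]
      rw [h.nrm.mul]
      have h4 : 0 ≤ v (ω⁻¹) := SVc_nonneg h.nrm _
      nlinarith
    refine ⟨c, ⟨((y : F) - C c) * ω⁻¹, h2⟩, ?_⟩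
    have := h.om0
    field_simp
    ring
  choose c nx hstep using step
  let s : ℕ → {y : F // v y ≤ 1} := fun n => nx^[n] ⟨y, hy⟩
  have hs : ∀ n, (s n : F) = C (c (s n)) + ω * s (n + 1) := by
    intro n
    have : s (n + 1) = nx (s n) := Function.iterate_succ_apply' nx n _
    rw [this]
    exact hstep (s n)
  let f : PowerSeries k := PowerSeries.mk fun n => c (s n)
  have hu : ∀ n, y = SVc_u C ω f n + ω ^ n * s n := by
    intro n
    induction n with
    | zero => simp [SVc_u, s]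
    | succ n ih =>
      have h1 : SVc_u C ω f (n + 1) = SVc_u C ω f n + C (c (s n)) * ω ^ n := by
        unfold SVc_u
        rw [PowerSeries.trunc_succ, eval₂_add, eval₂_monomial, PowerSeries.coeff_mk]
      rw [h1]
      conv_lhs => rw [ih, hs n]
      ring
  refine ⟨f, ?_⟩
  rw [SVc_psiHom_apply]
  refine SVc_psi_eq h f y fun n => ?_
  have h1 : y - SVc_u C ω f n = ω ^ n * s n := by
    conv_lhs => rw [hu n]
    ring
  rw [h1, h.nrm.mul, SVc_pow h.nrm]
  calc v ω ^ n * v (s n) ≤ v ω ^ n * 1 :=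
        mul_le_mul_of_nonneg_left (s n).2 (pow_nonneg (SVc_om h).le n)
    _ = v ω ^ n := mul_one _

/-- the homomorphism `k((T)) → F` -/
noncomputable def SVc_Psi (h : CDV k F C v ω) : LaurentSeries k →+* F :=
  IsFractionRing.lift (A := PowerSeries k) (SVc_psi_inj h)

theorem SVc_Psi_coe (h : CDV k F C v ω) (f : PowerSeries k) :
    SVc_Psi h (HahnSeries.ofPowerSeries ℤ k f) = SVc_psiHom h f := by
  have := IsFractionRing.lift_algebraMap (K := LaurentSeries k) (SVc_psi_inj h) f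
  exact this

theorem SVc_Psi_C (h : CDV k F C v ω) (c : k) : SVc_Psi h (HahnSeries.C c) = C c := by
  rw [← SVc_psi_C h c, ← SVc_Psi_coe, HahnSeries.ofPowerSeries_C]

theorem SVc_Psi_X (h : CDV k F C v ω) :
    SVc_Psi h (HahnSeries.single (1 : ℤ) (1 : k)) = ω := by
  conv_rhs => rw [← SVc_psi_X h]
  rw [← SVc_Psi_coe, HahnSeries.ofPowerSeries_X]

theorem SVc_Psi_surj (h : CDV k F C v ω) : Function.Surjective (SVc_Psi h) := by
  intro x
  obtain ⟨m, hm⟩ : ∃ m : ℕ, v (ω ^ m * x) ≤ 1 := by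
    have h1 : 0 < v x + 1 := by linarith [SVc_nonneg h.nrm x]
    obtain ⟨m, hm⟩ := exists_pow_lt_of_lt_one (inv_pos.2 h1) h.om1
    refine ⟨m, ?_⟩
    rw [h.nrm.mul, SVc_pow h.nrm]
    have h2 : v ω ^ m * (v x + 1) ≤ 1 := by
      have := mul_le_mul_of_nonneg_right hm.le h1.le
      rwa [inv_mul_cancel₀ h1.ne'] at this
    have h3 := pow_nonneg (SVc_om h).le m
    nlinarith
  obtain ⟨f, hf⟩ := SVc_psi_surj h _ hm
  refine ⟨HahnSeries.ofPowerSeries ℤ k f * ((HahnSeries.single (1 : ℤ) (1 : k)) ^ m)⁻¹, ?_⟩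
  rw [map_mul, map_inv₀, map_pow, SVc_Psi_X, SVc_Psi_coe, hf]
  have := pow_ne_zero m h.om0
  field_simp

theorem SVc_Psi_norm (h : CDV k F C v ω) (a : LaurentSeries k) (ha : a ≠ 0) :
    v (SVc_Psi h a) = v ω ^ a.order := by
  have h1 := LaurentSeries.single_order_mul_powerSeriesPart a
  have h2 : PowerSeries.coeff 0 a.powerSeriesPart ≠ 0 := by
    rw [LaurentSeries.powerSeriesPart_coeff, Nat.cast_zero, add_zero]
    exact HahnSeries.coeff_order_eq_zero.not.2 ha
  conv_lhs => rw [← h1]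
  rw [map_mul, h.nrm.mul, SVc_Psi_coe, SVc_psiHom_apply, SVc_psi_unit h _ h2, mul_one]
  have h3 : (HahnSeries.single a.order (1 : k) : LaurentSeries k) =
      (HahnSeries.single (1 : ℤ) (1 : k)) ^ a.order := by
    exact RatFunc.single_zpow a.order
  rw [h3, map_zpow₀, SVc_Psi_X, SVc_zpow h.nrm]

end SVc

theorem prf_SVc : SVc := by
  intro k _ F _ C v ω h
  let e : LaurentSeries k ≃+* F := RingEquiv.ofBijective (SVc_Psi h)
    ⟨(SVc_Psi h).injective, SVc_Psi_surj h⟩
  have he : ∀ a, e a = SVc_Psi h a := fun a => rfl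
  refine ⟨e.symm, fun c => ?_, ?_, fun x hx => ?_⟩
  · rw [RingEquiv.symm_apply_eq, he, SVc_Psi_C]
  · rw [RingEquiv.symm_apply_eq, he, SVc_Psi_X]
  · have h1 : e.symm x ≠ 0 := by
      intro h0
      rw [RingEquiv.symm_apply_eq, map_zero] at h0
      exact hx h0
    have h2 := SVc_Psi_norm h (e.symm x) h1
    rw [← he, RingEquiv.apply_symm_apply] at h2
    exact h2

end MP7b0bad
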