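import Pool.Agent.Work.MP_7b0bad_ag.SV.LStmts

set_option autoImplicit false

/-!
# SVd: the spectral norm is a complete discrete valuation with residue field `k`
-/

namespace MP7b0bad

open Polynomial

section

variable {F : Type} [Field F] {v : F → ℝ} (h : Nrm F v)

include h

theorem SVd_one : v 1 = 1 := by
  have h1 := h.mul 1 1
  rw [mul_one] at h1
  have h2 := h.pos 1 one_ne_zero
  nlinarith

theorem SVd_nonneg (x : F) : 0 ≤ v x := by
  by_cases hx : x = 0
  · rw [hx, h.zero]
  · exact (h.pos x hx).le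

theorem SVd_negone : v (-1) = 1 := by
  have h1 := h.mul (-1) (-1)
  rw [neg_mul_neg, one_mul, SVd_one h] at h1
  have h2 := SVd_nonneg h (-1)
  nlinarith

theorem SVd_neg (x : F) : v (-x) = v x := by
  rw [← neg_one_mul, h.mul, SVd_negone h, one_mul]

theorem SVd_sub (x y : F) : v (x - y) ≤ max (v x) (v y) := by
  rw [sub_eq_add_neg, ← SVd_neg h y]
  exact h.add _ _

theorem SVd_pow (x : F) (n : ℕ) : v (x ^ n) = v x ^ n := by
  induction n with
  | zero => simp [SVd_one h]
  | succ n ih => rw [pow_succ, h.mul, ih, pow_succ]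

theorem SVd_prod {ι : Type} (s : Finset ι) (f : ι → F) : v (∏ i ∈ s, f i) = ∏ i ∈ s, v (f i) := by
  classical
  induction s using Finset.induction_on with
  | empty => simp [SVd_one h]
  | insert a s ha ih => rw [Finset.prod_insert ha, Finset.prod_insert ha, h.mul, ih]

theorem SVd_mprod_ge (s : Multiset F) (hs : ∀ x ∈ s, 1 ≤ v x) : 1 ≤ v s.prod := by
  induction s using Multiset.induction_on with
  | empty => simp [SVd_one h]
  | cons a s ih =>
    rw [Multiset.prod_cons, h.mul]
    have h1 := hs a (Multiset.mem_cons_self a s)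
    have h2 := ih fun x hx => hs x (Multiset.mem_cons_of_mem hx)
    nlinarith

theorem SVd_sum_le {ι : Type} (s : Finset ι) (f : ι → F) (c : ℝ) (hc : 0 ≤ c)
    (hf : ∀ i ∈ s, v (f i) ≤ c) : v (∑ i ∈ s, f i) ≤ c := by
  classical
  induction s using Finset.induction_on with
  | empty => simpa [h.zero] using hc
  | insert a s ha ih =>
    rw [Finset.sum_insert ha]
    exact (h.add _ _).trans (max_le (hf a (Finset.mem_insert_self a s))
      (ih fun i hi => hf i (Finset.mem_insert_of_mem hi)))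

/-- the ring of the elements of norm at most one -/
def SVd_O : Subring F where
  carrier := {x | v x ≤ 1}
  mul_mem' := by
    intro a b ha hb
    have h1 := SVd_nonneg h a
    have h2 := SVd_nonneg h b
    change v a ≤ 1 at ha
    change v b ≤ 1 at hb
    change v (a * b) ≤ 1
    rw [h.mul]
    nlinarith
  one_mem' := (SVd_one h).le
  add_mem' := by
    intro a b ha hb
    exact (h.add _ _).trans (max_le ha hb)
  zero_mem' := by
    change v 0 ≤ 1
    rw [h.zero]
    exact zero_le_one
  neg_mem' := by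
    intro a ha
    change v a ≤ 1 at ha
    change v (-a) ≤ 1
    rwa [SVd_neg h]

end

/-- the coefficients of the characteristic polynomial have norm at most one -/
theorem SVd_coeff {Γ : Type} [Group Γ] [Fintype Γ] {E : Type} [Field E] [MulSemiringAction Γ E]
    {v : E → ℝ} (h : Nrm E v) (hinv : ∀ (g : Γ) (x : E), v (g • x) = v x) (x : E) (hx : v x ≤ 1)
    (n : ℕ) : v ((MulSemiringAction.charpoly Γ x).coeff n) ≤ 1 := by
  have h1 : MulSemiringAction.charpoly Γ x ∈ Polynomial.lifts (SVd_O h).subtype := by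
    rw [MulSemiringAction.charpoly_eq]
    refine Subsemiring.prod_mem _ fun g _ => ?_
    rw [sub_eq_add_neg, ← C_neg]
    refine Subsemiring.add_mem _ (X_mem_lifts _) (C'_mem_lifts ?_)
    refine ⟨⟨-(g • x), ?_⟩, rfl⟩
    change v (-(g • x)) ≤ 1
    rw [SVd_neg h, hinv]
    exact hx
  rw [lifts_iff_coeff_lifts] at h1
  obtain ⟨y, hy⟩ := h1 n
  rw [← hy]
  exact y.2

/-- a Laurent series of nonnegative order is a constant up to order one -/
theorem SVd_const {k : Type} [Field k] (a : LaurentSeries k) (ha : a ≠ 0 → 0 ≤ a.order)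
    (h : a - HahnSeries.C (a.coeff 0) ≠ 0) : 1 ≤ (a - HahnSeries.C (a.coeff 0)).order := by
  by_contra hlt
  have hlt' : (a - HahnSeries.C (a.coeff 0)).order ≤ 0 := by omega
  set m := (a - HahnSeries.C (a.coeff 0)).order with hm
  have hne : (a - HahnSeries.C (a.coeff 0)).coeff m ≠ 0 := by
    rw [hm]
    exact fun h0 => h (HahnSeries.coeff_order_eq_zero.1 h0)
  rw [HahnSeries.coeff_sub, HahnSeries.C_apply] at hne
  rcases lt_or_eq_of_le hlt' with h0 | h0
  · have h1 : (HahnSeries.single (0 : ℤ) (a.coeff 0)).coeff m = 0 :=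
      HahnSeries.coeff_single_of_ne h0.ne
    have h2 : a.coeff m = 0 := by
      by_cases ha0 : a = 0
      · rw [ha0, HahnSeries.coeff_zero]
      · exact HahnSeries.coeff_eq_zero_of_lt_order (lt_of_lt_of_le h0 (ha ha0))
    exact hne (by rw [h1, h2, sub_zero])
  · rw [h0, HahnSeries.coeff_single_same, sub_self] at hne
    exact hne rfl

theorem SVd_res {k : Type} [Field k] [IsAlgClosed k] {Γ : Type} [Group Γ] [Finite Γ] {E : Type}
    [Field E] [Algebra (LaurentSeries k) E] [MulSemiringAction Γ E]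
    (hG : GalAlg (LaurentSeries k) Γ E) {v : E → ℝ} {c : ℝ} (hc0 : 0 < c) (hc1 : c < 1)
    (h : Nrm E v) (hinv : ∀ (g : Γ) (x : E), v (g • x) = v x)
    (hv : ∀ a : LaurentSeries k, a ≠ 0 → v (algebraMap (LaurentSeries k) E a) = c ^ a.order)
    (x : E) (hx : v x ≤ 1) :
    ∃ r : k, v (x - ((algebraMap (LaurentSeries k) E).comp
      (HahnSeries.C : k →+* LaurentSeries k)) r) < 1 := by
  have := Fintype.ofFinite Γ
  by_contra hcon
  push Not at hcon
  set i : k →+* E := (algebraMap (LaurentSeries k) E).comp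
      (HahnSeries.C : k →+* LaurentSeries k) with hi
  set P := MulSemiringAction.charpoly Γ x with hP
  have hPm : P.Monic := MulSemiringAction.monic_charpoly Γ x
  have hP0 : P.eval x = 0 := MulSemiringAction.eval_charpoly Γ x
  choose a ha using fun n => hG.inv (P.coeff n) fun g => MulSemiringAction.smul_coeff_charpoly x n g
  -- the coefficients are power series
  have hord : ∀ n, a n ≠ 0 → 0 ≤ (a n).order := by
    intro n hn
    have h1 := SVd_coeff h hinv x hx n
    rw [← hP, ← ha n, hv _ hn] at h1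
    by_contra h2
    push Not at h2
    have h3 : 1 < c ^ (a n).order := by
      obtain ⟨m, hm⟩ : ∃ m : ℕ, (a n).order = -(m : ℤ) := ⟨(-(a n).order).toNat, by omega⟩
      have hm0 : m ≠ 0 := by omega
      rw [hm, zpow_neg, zpow_natCast, ← inv_pow]
      exact one_lt_pow₀ ((one_lt_inv₀ hc0).2 hc1) hm0
    linarith
  set N := P.natDegree with hN
  -- the reduced polynomial
  set f : k[X] := ∑ n ∈ Finset.range (N + 1), C ((a n).coeff 0) * X ^ n with hf
  have haN : a N = 1 := by
    apply hG.inj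
    rw [ha N, map_one]
    exact hPm.coeff_natDegree
  have hfc : ∀ n, n ≤ N → f.coeff n = (a n).coeff 0 := by
    intro n hn
    rw [hf, finsetSum_coeff, Finset.sum_eq_single n]
    · rw [coeff_C_mul, coeff_X_pow_self, mul_one]
    · intro b _ hb
      rw [coeff_C_mul, coeff_X_pow, if_neg (Ne.symm hb), mul_zero]
    · intro hn'
      exact absurd (Finset.mem_range.2 (Nat.lt_succ_of_le hn)) hn'
  have hfN : f.coeff N = 1 := by
    rw [hfc N le_rfl, haN, HahnSeries.coeff_one, if_pos rfl]
  have hfd : f.natDegree ≤ N := by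
    rw [hf]
    refine natDegree_sum_le_of_forall_le _ _ fun n hn => ?_
    exact (natDegree_C_mul_X_pow_le _ _).trans (Nat.lt_succ_iff.1 (Finset.mem_range.1 hn))
  have hfm : f.Monic := monic_of_natDegree_le_of_coeff_eq_one N hfd hfN
  -- the value of f at x is small
  have hsmall : v (f.eval₂ i x) ≤ c := by
    have h1 : f.eval₂ i x = ∑ n ∈ Finset.range (N + 1),
        (i ((a n).coeff 0) - algebraMap (LaurentSeries k) E (a n)) * x ^ n := by
      have h2 : P.eval x = ∑ n ∈ Finset.range (N + 1),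
          algebraMap (LaurentSeries k) E (a n) * x ^ n := by
        rw [eval_eq_sum_range]
        exact Finset.sum_congr rfl fun n _ => by rw [ha n]
      have h3 : f.eval₂ i x = ∑ n ∈ Finset.range (N + 1), i ((a n).coeff 0) * x ^ n := by
        rw [hf, eval₂_finsetSum]
        exact Finset.sum_congr rfl fun n _ => by rw [eval₂_mul, eval₂_C, eval₂_X_pow]
      rw [h3, ← sub_zero (∑ n ∈ Finset.range (N + 1), i ((a n).coeff 0) * x ^ n), ← hP0, h2,
        ← Finset.sum_sub_distrib]
      exact Finset.sum_congr rfl fun n _ => by ring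
    rw [h1]
    refine SVd_sum_le h _ _ c hc0.le fun n _ => ?_
    rw [h.mul, SVd_pow h]
    have h4 : v (i ((a n).coeff 0) - algebraMap (LaurentSeries k) E (a n)) ≤ c := by
      rw [← SVd_neg h, neg_sub]
      have h5 : algebraMap (LaurentSeries k) E (a n) - i ((a n).coeff 0) =
          algebraMap (LaurentSeries k) E (a n - HahnSeries.C ((a n).coeff 0)) := by
        rw [map_sub]
        rfl
      rw [h5]
      by_cases h6 : a n - HahnSeries.C ((a n).coeff 0) = 0
      · rw [h6, map_zero, h.zero]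
        exact hc0.le
      · rw [hv _ h6]
        have h7 := SVd_const (a n) (hord n) h6
        obtain ⟨m, hm⟩ : ∃ m : ℕ, (a n - HahnSeries.C ((a n).coeff 0)).order = (m : ℤ) + 1 :=
          ⟨((a n - HahnSeries.C ((a n).coeff 0)).order - 1).toNat, by omega⟩
        rw [hm, ← Nat.cast_one (R := ℤ), ← Nat.cast_add, zpow_natCast, pow_succ]
        have h8 : c ^ m ≤ 1 := pow_le_one₀ hc0.le hc1.le
        nlinarith
    have h9 : v x ^ n ≤ 1 := pow_le_one₀ (SVd_nonneg h x) hx
    have h10 : 0 ≤ v x ^ n := pow_nonneg (SVd_nonneg h x) n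
    have h11 := SVd_nonneg h (i ((a n).coeff 0) - algebraMap (LaurentSeries k) E (a n))
    nlinarith
  -- factorisation
  have hsplit : f = (f.roots.map fun r => X - C r).prod := by
    have := (IsAlgClosed.splits f).eq_prod_roots_of_monic hfm
    exact this
  have hbig : 1 ≤ v (f.eval₂ i x) := by
    rw [hsplit, eval₂_multiset_prod, Multiset.map_map]
    refine SVd_mprod_ge h _ fun y hy => ?_
    rw [Multiset.mem_map] at hy
    obtain ⟨r, -, hr⟩ := hy
    rw [← hr]
    simp only [Function.comp_apply, eval₂_sub, eval₂_X, eval₂_C]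
    exact hcon r
  linarith

theorem prf_SVd (hSVn : SVn) : SVd := by
  intro k _ _ Γ _ _ E _ _ _ hG
  obtain ⟨v, c, hc0, hc1, h, hcm, hinv, hv⟩ := hSVn k Γ E hG
  have := Fintype.ofFinite Γ
  set N := Fintype.card Γ with hN
  have hN0 : N ≠ 0 := Fintype.card_ne_zero
  -- values
  have hval : ∀ x : E, x ≠ 0 → ∃ m : ℤ, v x ^ N = c ^ m := by
    intro x hx
    obtain ⟨a, ha⟩ := hG.inv (∏ g : Γ, g • x) fun g => Finset.smul_prod_perm x g
    have h1 : ∏ g : Γ, g • x ≠ 0 :=
      Finset.prod_ne_zero_iff.2 fun g _ => (smul_ne_zero_iff_ne g).2 hx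
    have h2 : a ≠ 0 := by
      rintro rfl
      rw [map_zero] at ha
      exact h1 ha.symm
    refine ⟨a.order, ?_⟩
    rw [← hv a h2, ha, SVd_prod h]
    simp only [hinv]
    rw [Finset.prod_const, Finset.card_univ]
  have hpos : ∀ x : E, x ≠ 0 → v x < 1 → ∃ m : ℕ, 0 < m ∧ v x ^ N = c ^ m := by
    intro x hx hx1
    obtain ⟨m, hm⟩ := hval x hx
    have h1 : v x ^ N < 1 := pow_lt_one₀ (SVd_nonneg h x) hx1 hN0
    have h2 : 0 < m := by
      by_contra h2
      obtain ⟨j, hj⟩ : ∃ j : ℕ, m = -(j : ℤ) := ⟨(-m).toNat, by omega⟩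
      rw [hm, hj, zpow_neg, zpow_natCast, ← inv_pow] at h1
      have h3 : 1 ≤ c⁻¹ ^ j := one_le_pow₀ ((one_lt_inv₀ hc0).2 hc1).le
      linarith
    obtain ⟨j, hj⟩ : ∃ j : ℕ, m = (j : ℤ) := ⟨m.toNat, by omega⟩
    refine ⟨j, by omega, ?_⟩
    rw [hm, hj, zpow_natCast]
  have hex : ∃ m : ℕ, 0 < m ∧ ∃ x : E, x ≠ 0 ∧ v x < 1 ∧ v x ^ N = c ^ m := by
    have h1 : (HahnSeries.single (1 : ℤ) (1 : k) : LaurentSeries k) ≠ 0 :=
      HahnSeries.single_ne_zero one_ne_zero
    have h2 := hv _ h1
    rw [HahnSeries.order_single one_ne_zero, zpow_one] at h2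
    have h3 : algebraMap (LaurentSeries k) E (HahnSeries.single (1 : ℤ) (1 : k)) ≠ 0 := by
      intro h4
      rw [h4, h.zero] at h2
      linarith
    obtain ⟨m, hm0, hm⟩ := hpos _ h3 (by rw [h2]; exact hc1)
    exact ⟨m, hm0, _, h3, by rw [h2]; exact hc1, hm⟩
  classical
  obtain ⟨hm0, ω, hω0, hω1, hωm⟩ := Nat.find_spec hex
  refine ⟨v, ω, c, ⟨h, hcm, ?_, ?_, hω0, hω1, ?_⟩, hc0, hc1, hinv, hv⟩
  · intro r hr
    rw [RingHom.comp_apply, hv _ (HahnSeries.C_ne_zero hr), HahnSeries.order_C, zpow_zero]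
  · intro x hx
    exact SVd_res hG hc0 hc1 h hinv hv x hx
  · intro x hx
    by_cases hx0 : x = 0
    · rw [hx0, h.zero]
      exact SVd_nonneg h ω
    · obtain ⟨m, hm0', hm⟩ := hpos x hx0 hx
      have h1 : Nat.find hex ≤ m := Nat.find_min' hex ⟨hm0', x, hx0, hx, hm⟩
      have h2 : v x ^ N ≤ v ω ^ N := by
        rw [hm, hωm]
        exact pow_le_pow_of_le_one hc0.le hc1.le h1
      exact (pow_le_pow_iff_left₀ (SVd_nonneg h x) (SVd_nonneg h ω) hN0).1 h2

end MP7b0bad
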