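import Pool.Agent.Work.MP_7b0bad_ag.SV.LStmts

set_option autoImplicit false

/-!
# Block SV, item SVn: the spectral norm of a connected Galois algebra over `k((ξ))`
-/

namespace MP7b0bad

open Polynomial Pointwise WithZero

theorem SVn_single_zpow (k : Type) [Field k] (n : ℤ) :
    (HahnSeries.single n (1 : k) : LaurentSeries k) =
      (HahnSeries.single (1 : ℤ) (1 : k) : LaurentSeries k) ^ n := by
  induction n using Int.induction_on with
  | zero => simp
  | succ n ih =>
    rw [zpow_add₀ (by simp), ← ih, zpow_one, HahnSeries.single_mul_single, one_mul]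
  | pred n ih =>
    rw [zpow_sub₀ (by simp), ← ih, zpow_one, eq_div_iff (by simp), HahnSeries.single_mul_single,
      one_mul, sub_add_cancel]

theorem SVn_val (k : Type) [Field k] (a : LaurentSeries k) (ha : a ≠ 0) :
    (Valued.v a : ℤᵐ⁰) = exp (-a.order) := by
  have key : ∀ b : LaurentSeries k, b ≠ 0 → (Valued.v b : ℤᵐ⁰) ≤ exp (-b.order) := by
    intro b hb
    rw [LaurentSeries.valuation_le_iff_coeff_lt_eq_zero]
    intro n hn
    exact HahnSeries.coeff_eq_zero_of_lt_order hn
  refine le_antisymm (key a ha) ?_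
  have h1 := key a⁻¹ (inv_ne_zero ha)
  have h2 : a.order + a⁻¹.order = 0 := by
    rw [← HahnSeries.order_mul ha (inv_ne_zero ha), mul_inv_cancel₀ ha, HahnSeries.order_one]
  have h3 : a⁻¹.order = -a.order := by omega
  rw [h3, neg_neg, map_inv₀] at h1
  have h4 : (0 : ℤᵐ⁰) < Valued.v a := by
    rw [zero_lt_iff]
    exact (Valuation.ne_zero_iff _).2 ha
  rw [exp_neg]
  exact inv_le_of_inv_le₀ h4 h1

theorem SVn_disc (k : Type) [Field k] :
    Nonempty (Valuation.RankOne (Valued.v : Valuation (LaurentSeries k) ℤᵐ⁰)) := by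
  have : (Valued.v : Valuation (LaurentSeries k) ℤᵐ⁰).IsRankOneDiscrete := by
    rw [LaurentSeries.valuation_def]
    infer_instance
  exact ⟨Valuation.IsRankOneDiscrete.rankOne _ (e := 2) (by norm_num)⟩

open scoped Valued in
theorem SVn_main (k : Type) [Field k] [Valuation.RankOne (Valued.v : Valuation (LaurentSeries k) ℤᵐ⁰)]
   : ∃ c : ℝ, 0 < c ∧ c < 1 ∧ ∀ a : LaurentSeries k, a ≠ 0 → ‖a‖ = c ^ a.order := by
  refine ⟨‖(HahnSeries.single (1 : ℤ) (1 : k) : LaurentSeries k)‖, ?_, ?_, ?_⟩
  · rw [norm_pos_iff]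
    simp
  · rw [Valued.toNormedField.norm_lt_one_iff, SVn_val k _ (by simp), HahnSeries.order_single (by simp)]
    rw [← exp_zero]
    rw [exp_lt_exp]
    norm_num
  · intro a ha
    rw [← norm_zpow, ← SVn_single_zpow]
    have h1 : (Valued.v a : ℤᵐ⁰) = Valued.v (HahnSeries.single a.order (1 : k) : LaurentSeries k) := by
      rw [SVn_val k a ha, SVn_val k _ (by simp), HahnSeries.order_single (by simp)]
    refine le_antisymm ?_ ?_
    · rw [Valued.toNormedField.norm_le_iff, h1]
    · rw [Valued.toNormedField.norm_le_iff, h1]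


theorem SVn_spec (K E : Type) [NontriviallyNormedField K] [IsUltrametricDist K] [CompleteSpace K]
    [Field E] [Algebra K E] [FiniteDimensional K E] :
    Nrm E (spectralNorm K E) ∧ Cmpl (spectralNorm K E) := by
  have hmul : ∀ x y : E, spectralNorm K E (x * y) = spectralNorm K E x * spectralNorm K E y :=
    fun x y => map_mul (spectralMulAlgNorm K E) x y
  have hadd : ∀ x y : E, spectralNorm K E (x + y) ≤ max (spectralNorm K E x) (spectralNorm K E y) :=
    fun x y => isNonarchimedean_spectralNorm x y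
  have hneg : ∀ x : E, spectralNorm K E (-x) = spectralNorm K E x :=
    fun x => spectralNorm_neg (Algebra.IsAlgebraic.isAlgebraic x)
  refine ⟨⟨spectralNorm_zero, fun x hx => spectralNorm_zero_lt hx
    (Algebra.IsAlgebraic.isAlgebraic x), hmul, hadd⟩, ?_⟩
  intro c u hc0 hc1 hu
  let := spectralNorm.normedField K E
  have : CompleteSpace E := spectralNorm.completeSpace K E
  have hcs : CauchySeq u := by
    refine cauchySeq_of_le_geometric c 1 hc1 fun n => ?_
    rw [one_mul]
    change spectralNorm K E (u n - u (n + 1)) ≤ c ^ n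
    rw [← neg_sub, hneg]
    exact hu n
  obtain ⟨x, hx⟩ := cauchySeq_tendsto_of_complete hcs
  refine ⟨x, fun n => ?_⟩
  have h1 : ∀ m, n ≤ m → spectralNorm K E (u m - u n) ≤ c ^ n := by
    intro m hm
    induction m, hm using Nat.le_induction with
    | base => rw [sub_self, spectralNorm_zero]; positivity
    | succ m hm ih =>
      have h2 : u (m + 1) - u n = (u (m + 1) - u m) + (u m - u n) := by ring
      rw [h2]
      refine (hadd _ _).trans (max_le ((hu m).trans ?_) ih)
      exact pow_le_pow_of_le_one hc0.le hc1.le hm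
  have h3 : ∀ᶠ m in Filter.atTop, dist (u m) x < c ^ n :=
    (Metric.tendsto_nhds.1 hx) _ (by positivity)
  obtain ⟨m, hm1, hm2⟩ := (h3.and (Filter.eventually_ge_atTop n)).exists
  have h4 : spectralNorm K E (u m - x) < c ^ n := hm1
  have h5 : x - u n = -(u m - x) + (u m - u n) := by ring
  rw [h5]
  refine (hadd _ _).trans (max_le ?_ (h1 m hm2))
  rw [hneg]
  exact h4.le

theorem SVn_inv (K E Γ : Type) [NontriviallyNormedField K] [Field E] [Algebra K E]
    [Group Γ] [MulSemiringAction Γ E] (h : ∀ (g : Γ) (a : K), g • algebraMap K E a = algebraMap K E a)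
    (g : Γ) (x : E) : spectralNorm K E (g • x) = spectralNorm K E x := by
  let σ : E ≃ₐ[K] E := AlgEquiv.ofRingEquiv (f := MulSemiringAction.toRingEquiv Γ E g) (fun r => h g r)
  exact (spectralNorm_eq_of_equiv σ x).symm

open scoped Valued in
/-- [SVn] the spectral norm of a connected Galois algebra over `k((ξ))` -/
theorem prf_SVn : SVn := by
  intro k _ Γ _ _ E _ _ _ h
  have : Module.Finite (LaurentSeries k) E := gal_finite h
  obtain ⟨hr⟩ := SVn_disc k
  obtain ⟨c, hc0, hc1, hc⟩ := SVn_main k
  obtain ⟨hn, hcm⟩ := SVn_spec (LaurentSeries k) E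
  refine ⟨spectralNorm (LaurentSeries k) E, c, hc0, hc1, hn, hcm,
    fun g x => SVn_inv (LaurentSeries k) E Γ h.comm g x, fun a ha => ?_⟩
  rw [spectralNorm_extends, hc a ha]

end MP7b0bad
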