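import Pool.Agent.Work.MP_7b0bad_ag.SV.LStmts
import Pool.Agent.Work.MP_7b0bad_ag.Bd.B09

set_option autoImplicit false

/-!
# Item SVtw of block [7b0bad SV L]: twisting the Artin-Schreier system

`prf_SVtw : SVd → SVtw`.
-/

namespace MP7b0bad

open Polynomial

/-! ### norms -/

section norm

variable {F : Type} [Field F] {v : F → ℝ}

theorem SVtw_nonneg (hv : Nrm F v) (x : F) : 0 ≤ v x := by
  by_cases h : x = 0
  · rw [h, hv.zero]
  · exact (hv.pos x h).le

theorem SVtw_one (hv : Nrm F v) : v 1 = 1 := by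
  have h1 := hv.mul 1 1
  rw [mul_one] at h1
  have h2 := hv.pos 1 one_ne_zero
  have h3 : v 1 * (v 1 - 1) = 0 := by linarith
  rcases mul_eq_zero.1 h3 with h | h
  · exact absurd h h2.ne'
  · linarith

theorem SVtw_neg (hv : Nrm F v) (x : F) : v (-x) = v x := by
  have h1 : v (-1) * v (-1) = 1 := by
    rw [← hv.mul, neg_mul_neg, one_mul, SVtw_one hv]
  have h2 : 0 ≤ v (-1) := SVtw_nonneg hv _
  have h3 : v (-1) = 1 := by nlinarith
  have h4 : -x = (-1) * x := by ring
  rw [h4, hv.mul, h3, one_mul]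

theorem SVtw_pow (hv : Nrm F v) (x : F) (n : ℕ) : v (x ^ n) = v x ^ n := by
  induction n with
  | zero => rw [pow_zero, pow_zero, SVtw_one hv]
  | succ n ih => rw [pow_succ, pow_succ, hv.mul, ih]

/-- `v (h^p - h) = (v h)^p` when `v h > 1`, and `≤ 1` otherwise -/
theorem SVtw_as (hv : Nrm F v) (p : ℕ) (hp : 1 < p) (h x : F) (hx : h ^ p - h = x) :
    (1 < v h → v x = v h ^ p) ∧ (v h ≤ 1 → v x ≤ 1) := by
  constructor
  · intro h1
    have h2 : v h < v h ^ p := by
      calc v h = v h ^ 1 := (pow_one _).symm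
        _ < v h ^ p := pow_lt_pow_right₀ h1 hp
    apply le_antisymm
    · rw [← hx, sub_eq_add_neg]
      refine (hv.add _ _).trans ?_
      rw [SVtw_neg hv, SVtw_pow hv]
      exact max_le le_rfl h2.le
    · have h3 : h ^ p = x + h := by rw [← hx]; ring
      have h4 : v (h ^ p) ≤ max (v x) (v h) := by rw [h3]; exact hv.add _ _
      rw [SVtw_pow hv] at h4
      rcases le_max_iff.1 h4 with h5 | h5
      · exact h5
      · exact absurd h2 (not_lt.2 h5)
  · intro h1
    rw [← hx, sub_eq_add_neg]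
    refine (hv.add _ _).trans ?_
    rw [SVtw_neg hv, SVtw_pow hv]
    exact max_le (pow_le_one₀ (SVtw_nonneg hv _) h1) h1

/-- discreteness: between `s^n` and `s^(n+1)` there is no value, `s = (v ω)⁻¹` -/
theorem SVtw_disc (hv : Nrm F v) (ω : F) (h0 : ω ≠ 0)
    (hd : ∀ x, v x < 1 → v x ≤ v ω) (n : ℕ) (y : F) (hy : (v ω)⁻¹ ^ n < v y) :
    (v ω)⁻¹ ^ (n + 1) ≤ v y := by
  have hω := hv.pos ω h0
  have hy0 : y ≠ 0 := by
    intro h
    rw [h, hv.zero] at hy
    exact absurd hy (not_lt.2 (by positivity))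
  have hyp := hv.pos y hy0
  have hne : y * ω ^ n ≠ 0 := mul_ne_zero hy0 (pow_ne_zero _ h0)
  have h1 : v (y * ω ^ n) * v ((y * ω ^ n)⁻¹) = 1 := by
    rw [← hv.mul, mul_inv_cancel₀ hne, SVtw_one hv]
  have h2 : v (y * ω ^ n) = v y * v ω ^ n := by rw [hv.mul, SVtw_pow hv]
  have h3 : 1 < v (y * ω ^ n) := by
    rw [h2]
    have h4 : (v ω)⁻¹ ^ n * v ω ^ n = 1 := by
      rw [← mul_pow, inv_mul_cancel₀ hω.ne', one_pow]
    calc 1 = (v ω)⁻¹ ^ n * v ω ^ n := h4.symm
      _ < v y * v ω ^ n := mul_lt_mul_of_pos_right hy (pow_pos hω n)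
  have h4 : v ((y * ω ^ n)⁻¹) < 1 := by
    have h5 : 0 < v ((y * ω ^ n)⁻¹) := hv.pos _ (inv_ne_zero hne)
    nlinarith
  have h5 := hd _ h4
  have h6 : v ((y * ω ^ n)⁻¹) = (v y * v ω ^ n)⁻¹ := by
    rw [← h2]
    exact eq_inv_of_mul_eq_one_right h1
  rw [h6] at h5
  have h7 : 0 < v y * v ω ^ n := by positivity
  have h8 : 1 ≤ v ω * (v y * v ω ^ n) := by
    have := mul_le_mul_of_nonneg_right h5 h7.le
    rwa [inv_mul_cancel₀ h7.ne'] at this
  rw [inv_pow, inv_le_iff_one_le_mul₀ (pow_pos hω _)]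
  calc 1 ≤ v ω * (v y * v ω ^ n) := h8
    _ = v y * v ω ^ (n + 1) := by ring

end norm

/-- the finite set of roots of `X^p - X` -/
theorem SVtw_fin {E : Type} [Field E] (p : ℕ) (hp1 : 1 < p) : {x : E | x ^ p = x}.Finite := by
  have hne : (X ^ p - X : E[X]) ≠ 0 := by
    intro h
    have h1 : (X ^ p - X : E[X]).coeff p = 1 := by
      rw [coeff_sub, coeff_X_pow, coeff_X, if_pos rfl, if_neg (by omega), sub_zero]
    rw [h, coeff_zero] at h1
    exact zero_ne_one h1
  classical
  refine Set.Finite.subset ((X ^ p - X : E[X]).roots.toFinset.finite_toSet) ?_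
  intro x hx
  simp only [Finset.mem_coe, Multiset.mem_toFinset, mem_roots', IsRoot.def, eval_sub, eval_pow,
    eval_X]
  exact ⟨hne, sub_eq_zero.2 hx⟩

section tw

variable {p r : ℕ} [Fact p.Prime] {G : Type} [Group G] {B : Type} [CommRing B] [CharP B p]
  [MulSemiringAction G B] (ρ : G → Matrix (Fin r) (Fin r) (ZMod p))

omit [Fact p.Prime] [CharP B p] in
theorem SVtw_sub (g : G) (v v' : Fin r → B) :
    QDenV_tw ρ g (v - v') = QDenV_tw ρ g v - QDenV_tw ρ g v' := by
  have h := QDenV_tw_add ρ g (v - v') v'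
  rw [sub_add_cancel] at h
  rw [h, add_sub_cancel_right]

end tw

/-- there is a nonzero twisted invariant vector -/
theorem SVtw_nonzero {R : Type} [CommRing R] {p r : ℕ} [Fact p.Prime] {G : Type} [Group G]
    [Finite G] (ρ : G → Matrix (Fin r) (Fin r) (ZMod p)) {E : Type} [Field E] [CharP E p]
    [Algebra R E] [MulSemiringAction G E] (hr : 0 < r) (hρ : ∀ g h, ρ (g * h) = ρ g * ρ h)
    (hρ1 : ρ 1 = 1) (hE : GalAlg R G E) :
    ∃ x : Fin r → E, (∀ g, QDenV_tw ρ g x = x) ∧ ∃ j, x j ≠ 0 := by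
  classical
  have := Fintype.ofFinite G
  obtain ⟨n, x, y, h1, h2⟩ := gal_dual' hE
  by_contra hcon
  push Not at hcon
  let j0 : Fin r := ⟨0, hr⟩
  let e : Fin r → E := Pi.single j0 1
  have h3 : ∀ a : E, QDenV_pi ρ a e j0 = 0 := fun a => hcon _ (QDenV_pi_inv ρ hρ a e) j0
  have h4 : ∀ a : E, QDenV_pi ρ a e j0 = ∑ g : G, ((ρ g j0 j0).val : E) * (g • a) := by
    intro a
    unfold QDenV_pi
    rw [Finset.sum_apply]
    refine Finset.sum_congr rfl fun g _ => ?_
    unfold QDenV_tw stA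
    rw [Finset.sum_eq_single j0]
    · simp [e]
    · intro j _ hj
      simp [e, hj]
    · intro h
      exact absurd (Finset.mem_univ _) h
  have h5 : ∑ m, x m * QDenV_pi ρ (y m) e j0 = 1 := by
    simp only [h4]
    calc ∑ m, x m * ∑ g : G, ((ρ g j0 j0).val : E) * (g • y m)
        = ∑ g : G, ((ρ g j0 j0).val : E) * ∑ m, x m * (g • y m) := by
          simp only [Finset.mul_sum]
          rw [Finset.sum_comm]
          refine Finset.sum_congr rfl fun g _ => Finset.sum_congr rfl fun m _ => ?_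
          ring
      _ = 1 := by
          rw [Finset.sum_eq_single 1]
          · simp only [one_smul]
            rw [h2, hρ1, Matrix.one_apply_eq, QDenV_val, map_one, one_mul]
          · intro g _ hg
            rw [h1 g hg, mul_zero]
          · intro h
            exact absurd (Finset.mem_univ _) h
  simp only [h3, mul_zero, Finset.sum_const_zero] at h5
  exact zero_ne_one h5

theorem prf_SVtw (hSVd : SVd) : SVtw := by
  classical
  intro k _ _ p r hpF _ G _ _ ρ E _ _ _ hr hρ hρ1 hE m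
  have hp1 : 1 < p := hpF.out.one_lt
  have hCinj : Function.Injective (HahnSeries.C : k →+* LaurentSeries k) := HahnSeries.C_injective
  have hcL : CharP (LaurentSeries k) p := charP_of_injective_ringHom hCinj p
  have hcE : CharP E p := charP_of_injective_ringHom hE.inj p
  have hinf : Infinite k := IsAlgClosed.instInfinite
  obtain ⟨v, ω, c, hC, hc0, hc1, -, hcv⟩ := hSVd k G E hE
  have hv := hC.nrm
  have hω := hv.pos ω hC.om0
  set s : ℝ := (v ω)⁻¹ with hs
  have hs1 : 1 < s := (one_lt_inv₀ hω).2 hC.om1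
  let V : Set (Fin r → E) := {x | ∀ g : G, QDenV_tw ρ g x = x}
  -- multiplication by elements of `k((ξ))`
  have hVm : ∀ (a : LaurentSeries k) (x : Fin r → E), x ∈ V →
      (fun j => algebraMap (LaurentSeries k) E a * x j) ∈ V := by
    intro a x hx g
    rw [QDenV_tw_mul_left, hE.comm, hx g]
  have hCk : ∀ e : k, e ≠ 0 → v (algebraMap (LaurentSeries k) E (HahnSeries.C e)) = 1 :=
    fun e he => hC.const e he
  -- a vector with a large coordinate
  have hbig : ∃ x ∈ V, ∃ j, 1 < v (x j) := by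
    obtain ⟨x, hx, j, hj⟩ := SVtw_nonzero ρ hr hρ hρ1 hE
    have hxj := hv.pos _ hj
    obtain ⟨n, hn⟩ := pow_unbounded_of_one_lt (v (x j))⁻¹ (one_lt_inv₀ hc0 |>.2 hc1)
    refine ⟨_, hVm (HahnSeries.single (-(n : ℤ)) (1 : k)) x hx, j, ?_⟩
    have hne : (HahnSeries.single (-(n : ℤ)) (1 : k) : LaurentSeries k) ≠ 0 :=
      HahnSeries.single_ne_zero one_ne_zero
    rw [hv.mul, hcv _ hne, HahnSeries.order_single one_ne_zero, zpow_neg, zpow_natCast,
      ← inv_pow]
    calc 1 = (v (x j))⁻¹ * v (x j) := (inv_mul_cancel₀ hxj.ne').symm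
      _ < c⁻¹ ^ n * v (x j) := mul_lt_mul_of_pos_right hn hxj
  have hD : ∃ N : ℕ, ∃ x ∈ V, (∃ j, 1 < v (x j)) ∧ ∀ j, v (x j) ≤ s ^ N := by
    obtain ⟨x, hx, hj⟩ := hbig
    choose N hN using fun j => pow_unbounded_of_one_lt (v (x j)) hs1
    refine ⟨Finset.univ.sup N, x, hx, hj, fun j => (hN j).le.trans ?_⟩
    exact pow_le_pow_right₀ hs1.le (Finset.le_sup (Finset.mem_univ j))
  obtain ⟨x, hx, ⟨j0, hj0⟩, hxN⟩ := Nat.find_spec hD
  have hmin : ∀ N', N' < Nat.find hD → ¬ ∃ x ∈ V, (∃ j, 1 < v (x j)) ∧ ∀ j, v (x j) ≤ s ^ N' :=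
    fun N' h => Nat.find_min hD h
  generalize Nat.find hD = N at hxN hmin
  have hN : N ≠ 0 := by
    rintro rfl
    have := hxN j0
    rw [pow_zero] at this
    exact absurd hj0 (not_lt.2 this)
  obtain ⟨N', rfl⟩ := Nat.exists_eq_succ_of_ne_zero hN
  -- no solution in `V`
  have hno : ∀ (e : k), e ≠ 0 → ∀ h ∈ V,
      ¬ ∀ j, h j ^ p - h j = algebraMap (LaurentSeries k) E (HahnSeries.C e) * x j := by
    intro e he h hh hsol
    have hvx : ∀ j, v (algebraMap (LaurentSeries k) E (HahnSeries.C e) * x j) = v (x j) := by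
      intro j
      rw [hv.mul, hCk e he, one_mul]
    refine hmin N' (Nat.lt_succ_self _) ⟨h, hh, ⟨j0, ?_⟩, fun j => ?_⟩
    · by_contra h1
      have h2 := (SVtw_as hv p hp1 _ _ (hsol j0)).2 (not_lt.1 h1)
      rw [hvx] at h2
      exact absurd hj0 (not_lt.2 h2)
    · by_contra h1
      have h2 : s ^ N' < v (h j) := not_le.1 h1
      have h3 : s ^ (N' + 1) ≤ v (h j) := SVtw_disc hv ω hC.om0 hC.disc N' (h j) h2
      have hsN : 1 < s ^ (N' + 1) := one_lt_pow₀ hs1 (Nat.succ_ne_zero _)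
      have h4 : 1 < v (h j) := lt_of_lt_of_le hsN h3
      have h5 := (SVtw_as hv p hp1 _ _ (hsol j)).1 h4
      rw [hvx] at h5
      have h6 : v (h j) < v (h j) ^ p := by
        calc v (h j) = v (h j) ^ 1 := (pow_one _).symm
          _ < v (h j) ^ p := pow_lt_pow_right₀ h4 hp1
      have h7 := hxN j
      rw [h5] at h7
      exact absurd (lt_of_le_of_lt h3 h6) (not_lt.2 h7)
  -- the twist
  by_contra hcon
  push Not at hcon
  choose n hn using fun e : k => hcon _ (hVm (HahnSeries.C e) x hx)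
  have hfin : Finite {x : E | x ^ p = x} := SVtw_fin p hp1
  let h : k → Fin r → E := fun e => n e - n 0
  have hh : ∀ e j, h e j ^ p - h e j =
      algebraMap (LaurentSeries k) E (HahnSeries.C e) * x j := by
    intro e j
    have h1 := hn e j
    have h2 := hn 0 j
    simp only [map_zero, zero_mul, add_zero] at h2
    change (n e j - n 0 j) ^ p - (n e j - n 0 j) = _
    rw [sub_pow_char]
    linear_combination h1 - h2
  have hhp : ∀ e, (fun j => h e j ^ p) =
      h e + fun j => algebraMap (LaurentSeries k) E (HahnSeries.C e) * x j := by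
    intro e
    funext j
    rw [Pi.add_apply, ← hh e j]
    ring
  have key : ∀ (e : k) (g : G) (i : Fin r), (QDenV_tw ρ g (h e) i - h e i) ^ p =
      QDenV_tw ρ g (h e) i - h e i := by
    intro e g i
    have h1 := congrFun (QDenV_tw_pow ρ g (h e)) i
    rw [hhp, QDenV_tw_add, hVm (HahnSeries.C e) x hx g] at h1
    rw [sub_pow_char]
    have h2 := hh e i
    rw [Pi.add_apply] at h1
    linear_combination -h1 - h2
  let χ : k → G → Fin r → {x : E | x ^ p = x} := fun e g i => ⟨_, key e g i⟩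
  obtain ⟨e, e', hee, hχ⟩ := Finite.exists_ne_map_eq_of_infinite χ
  refine hno (e - e') (sub_ne_zero.2 hee) (h e - h e') ?_ ?_
  · intro g
    rw [SVtw_sub]
    funext i
    have h1 : QDenV_tw ρ g (h e) i - h e i = QDenV_tw ρ g (h e') i - h e' i :=
      congrArg Subtype.val (congrFun (congrFun hχ g) i)
    rw [Pi.sub_apply, Pi.sub_apply]
    linear_combination h1
  · intro j
    rw [Pi.sub_apply, sub_pow_char, map_sub, map_sub]
    linear_combination hh e j - hh e' j

end MP7b0bad
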