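import Pool.Agent.Work.MP_7b0bad_ag.SV.LiftStmts

set_option autoImplicit false

/-!
# Block SV, lifts: the statement `VAct`

The field defined by a continuous homomorphism from an open subgroup of a Galois group to a group,
with the action of the image.
-/

namespace MP7b0bad.SV

section

variable {F Ω : Type} [Field F] [Field Ω] [Algebra F Ω] {Γ' : Subgroup (Ω ≃ₐ[F] Ω)}
  {Q : Type} [Group Q] (φ : Γ' →* Q)

/-- the kernel of `φ` as a subgroup of the Galois group -/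
def VAct_H : Subgroup (Ω ≃ₐ[F] Ω) := φ.ker.map Γ'.subtype

theorem VAct_memH (γ : Γ') : (γ : Ω ≃ₐ[F] Ω) ∈ VAct_H φ ↔ φ γ = 1 := by
  constructor
  · rintro ⟨δ, hδ, h⟩
    have e : δ = γ := Subtype.ext h
    rw [← e]
    exact hδ
  · intro h
    exact ⟨γ, h, rfl⟩

theorem VAct_sub {γ : Ω ≃ₐ[F] Ω} (h : γ ∈ VAct_H φ) : γ ∈ Γ' := by
  obtain ⟨δ, -, h⟩ := h
  rw [← h]
  exact δ.2

/-- the fixed field of the kernel -/
def VAct_L : IntermediateField F Ω := IntermediateField.fixedField (VAct_H φ)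

theorem VAct_memL (x : Ω) : x ∈ VAct_L φ ↔ ∀ γ : Γ', φ γ = 1 → (γ : Ω ≃ₐ[F] Ω) x = x := by
  constructor
  · intro h γ hγ
    exact h ⟨γ, (VAct_memH φ γ).2 hγ⟩
  · intro h γ
    exact h ⟨γ.1, VAct_sub φ γ.2⟩ ((VAct_memH φ ⟨γ.1, VAct_sub φ γ.2⟩).1 γ.2)

theorem VAct_stab (γ : Γ') {x : Ω} (hx : x ∈ VAct_L φ) : (γ : Ω ≃ₐ[F] Ω) x ∈ VAct_L φ := by
  rw [VAct_memL] at hx ⊢
  intro δ hδ
  have h1 : φ (γ⁻¹ * δ * γ) = 1 := by
    rw [map_mul, map_mul, hδ, mul_one, map_inv, inv_mul_cancel]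
  have h2 := hx _ h1
  have h3 : (γ : Ω ≃ₐ[F] Ω) (((γ⁻¹ * δ * γ : Γ') : Ω ≃ₐ[F] Ω) x) =
      (δ : Ω ≃ₐ[F] Ω) ((γ : Ω ≃ₐ[F] Ω) x) := by
    have e : (γ : Ω ≃ₐ[F] Ω) * ((γ⁻¹ * δ * γ : Γ') : Ω ≃ₐ[F] Ω) =
        (δ : Ω ≃ₐ[F] Ω) * (γ : Ω ≃ₐ[F] Ω) := by
      simp only [Subgroup.coe_mul, Subgroup.coe_inv]
      group
    exact DFunLike.congr_fun e x
  rw [← h3, h2]

theorem VAct_well (γ δ : Γ') (h : φ γ = φ δ) {x : Ω} (hx : x ∈ VAct_L φ) :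
    (γ : Ω ≃ₐ[F] Ω) x = (δ : Ω ≃ₐ[F] Ω) x := by
  have h1 : φ (δ⁻¹ * γ) = 1 := by
    rw [map_mul, h, map_inv, inv_mul_cancel]
  have h2 := (VAct_memL φ x).1 hx _ h1
  have e : (δ : Ω ≃ₐ[F] Ω) * ((δ⁻¹ * γ : Γ') : Ω ≃ₐ[F] Ω) = (γ : Ω ≃ₐ[F] Ω) := by
    simp only [Subgroup.coe_mul, Subgroup.coe_inv]
    group
  have h3 : (δ : Ω ≃ₐ[F] Ω) (((δ⁻¹ * γ : Γ') : Ω ≃ₐ[F] Ω) x) = (γ : Ω ≃ₐ[F] Ω) x :=
    DFunLike.congr_fun e x
  rw [← h3, h2]

/-- a preimage of an element of the image -/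
noncomputable def VAct_c (g : φ.range) : Γ' := Classical.choose g.2

theorem VAct_c_spec (g : φ.range) : φ (VAct_c φ g) = g := Classical.choose_spec g.2

/-- the action of the image of `φ` -/
@[reducible] noncomputable def VAct_act : MulSemiringAction φ.range (VAct_L φ) where
  smul g x := ⟨(VAct_c φ g : Ω ≃ₐ[F] Ω) x, VAct_stab φ _ x.2⟩
  one_smul x := by
    apply Subtype.ext
    change (VAct_c φ 1 : Ω ≃ₐ[F] Ω) (x : Ω) = x
    rw [VAct_well φ (VAct_c φ 1) 1 (by rw [VAct_c_spec, map_one]; rfl) x.2]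
    rfl
  mul_smul g h x := by
    apply Subtype.ext
    change (VAct_c φ (g * h) : Ω ≃ₐ[F] Ω) (x : Ω) =
      (VAct_c φ g : Ω ≃ₐ[F] Ω) ((VAct_c φ h : Ω ≃ₐ[F] Ω) (x : Ω))
    rw [VAct_well φ (VAct_c φ (g * h)) (VAct_c φ g * VAct_c φ h)
      (by rw [VAct_c_spec, map_mul, VAct_c_spec, VAct_c_spec]; rfl) x.2]
    rfl
  smul_zero g := by
    apply Subtype.ext
    change (VAct_c φ g : Ω ≃ₐ[F] Ω) (0 : Ω) = 0
    exact map_zero _
  smul_add g x y := by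
    apply Subtype.ext
    change (VAct_c φ g : Ω ≃ₐ[F] Ω) ((x : Ω) + y) = _
    exact map_add _ _ _
  smul_one g := by
    apply Subtype.ext
    change (VAct_c φ g : Ω ≃ₐ[F] Ω) (1 : Ω) = 1
    exact map_one _
  smul_mul g x y := by
    apply Subtype.ext
    change (VAct_c φ g : Ω ≃ₐ[F] Ω) ((x : Ω) * y) = _
    exact map_mul _ _ _

end

theorem VAct_bas {F Ω : Type} [Field F] [Field Ω] [Algebra F Ω] {Γ' : Subgroup (Ω ≃ₐ[F] Ω)}
    {Q : Type} [Group Q] (φ : Γ' →* Q) (hΓ : Opn Γ') (hφ : CtsOn φ) :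
    ∃ S : Finset Ω, (IntermediateField.adjoin F (S : Set Ω)).fixingSubgroup ≤ VAct_H φ := by
  classical
  obtain ⟨S, hS⟩ := hΓ
  obtain ⟨T, hT⟩ := hφ
  refine ⟨S ∪ T, ?_⟩
  intro γ hγ
  rw [IntermediateField.mem_fixingSubgroup_iff] at hγ
  have h1 : ∀ x ∈ S ∪ T, γ x = x := fun x hx =>
    hγ x (IntermediateField.subset_adjoin F _ (by exact_mod_cast hx))
  have h2 : γ ∈ Γ' := hS γ fun x hx => h1 x (Finset.mem_union_left _ hx)
  exact (VAct_memH φ ⟨γ, h2⟩).2 (hT ⟨γ, h2⟩ fun x hx => h1 x (Finset.mem_union_right _ hx))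

theorem VAct_fd {F Ω : Type} [Field F] [Field Ω] [Algebra F Ω] [IsGalois F Ω]
    {Γ' : Subgroup (Ω ≃ₐ[F] Ω)}
    {Q : Type} [Group Q] (φ : Γ' →* Q) (S : Finset Ω)
    (hS : (IntermediateField.adjoin F (S : Set Ω)).fixingSubgroup ≤ VAct_H φ) :
    FiniteDimensional F (VAct_L φ) ∧ (VAct_L φ).fixingSubgroup = VAct_H φ := by
  have hfd : FiniteDimensional F (IntermediateField.adjoin F (S : Set Ω)) :=
    IntermediateField.finiteDimensional_adjoin fun x _ => Algebra.IsIntegral.isIntegral x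
  have hle : VAct_L φ ≤ IntermediateField.adjoin F (S : Set Ω) := by
    rw [← InfiniteGalois.fixedField_fixingSubgroup (IntermediateField.adjoin F (S : Set Ω))]
    intro x hx γ
    exact hx ⟨γ.1, hS γ.2⟩
  refine ⟨?_, ?_⟩
  · exact FiniteDimensional.of_injective (IntermediateField.inclusion hle).toLinearMap
      (IntermediateField.inclusion hle).injective
  · have ho : IsOpen (VAct_H φ : Set (Ω ≃ₐ[F] Ω)) :=
      Subgroup.isOpen_mono hS (IntermediateField.fixingSubgroup_isOpen _)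
    have hc : IsClosed (VAct_H φ : Set (Ω ≃ₐ[F] Ω)) := Subgroup.isClosed_of_isOpen _ ho
    exact InfiniteGalois.fixingSubgroup_fixedField ⟨VAct_H φ, hc⟩

/-- **VAct.** -/
theorem prf_VAct : VAct := by
  intro F Ω _ _ _ _ Γ' hΓ Q _ φ hφ
  obtain ⟨S, hS⟩ := VAct_bas φ hΓ hφ
  obtain ⟨hfd, hfix⟩ := VAct_fd φ S hS
  refine ⟨VAct_L φ, inferInstance, inferInstance, VAct_act φ, (VAct_L φ).val, hfd, ?_, ?_, ?_⟩
  · intro γ g x hg
    change (VAct_c φ g : Ω ≃ₐ[F] Ω) (x : Ω) = (γ : Ω ≃ₐ[F] Ω) x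
    exact VAct_well φ _ _ (by rw [VAct_c_spec, hg]) x.2
  · intro g hg
    by_contra hcon
    push Not at hcon
    apply hg
    have h1 : (VAct_c φ g : Ω ≃ₐ[F] Ω) ∈ (VAct_L φ).fixingSubgroup := by
      rw [IntermediateField.mem_fixingSubgroup_iff]
      intro x hx
      exact congrArg Subtype.val (hcon ⟨x, hx⟩)
    rw [hfix, VAct_memH, VAct_c_spec] at h1
    exact Subtype.ext h1
  · intro g a
    apply Subtype.ext
    change (VAct_c φ g : Ω ≃ₐ[F] Ω) (algebraMap F Ω a) = algebraMap F Ω a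
    exact AlgEquiv.commutes _ _

end MP7b0bad.SV
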