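import Pool.Agent.Work.MP_7b0bad_ag.SV.VStmts2

set_option autoImplicit false

/-!
# Item VAsc: Artin-Schreier classes with prescribed local class at infinity
-/

namespace MP7b0bad.SV

open Polynomial

theorem VAsc_pres0 (p : ℕ) [Fact p.Prime] (G A : Type) [Group G] [CommGroup A] (act : G →* MulAut A)
    (V : Type) [AddCommGroup V] [Finite V] [Module (ZMod p) V] (e : Additive A ≃+ V) :
    ∃ (r : ℕ) (ρ : G → Matrix (Fin r) (Fin r) (ZMod p)) (ν : A → Fin r → ZMod p),
      (∀ g h, ρ (g * h) = ρ g * ρ h) ∧ ρ 1 = 1 ∧ Function.Bijective ν ∧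
      (∀ a b, ν (a * b) = ν a + ν b) ∧ ∀ g a, ν (act g a) = Matrix.mulVec (ρ g) (ν a) := by
  classical
  let β := Module.finBasis (ZMod p) V
  let cj0 : G → (V →+ V) := fun g => (e.toAddMonoidHom.comp
    (MonoidHom.toAdditive (act g).toMonoidHom)).comp e.symm.toAddMonoidHom
  let cj : G → (V →ₗ[ZMod p] V) := fun g => AddMonoidHom.toZModLinearMap p (cj0 g)
  have hcj : ∀ (g : G) (x : V), cj g x = e (Additive.ofMul (act g (Additive.toMul (e.symm x)))) :=
    fun g x => rfl
  refine ⟨_, fun g => LinearMap.toMatrix β β (cj g), fun a => β.equivFun (e (Additive.ofMul a)),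
    ?_, ?_, ?_, ?_, ?_⟩
  · intro g h
    rw [← LinearMap.toMatrix_comp]
    refine congrArg (LinearMap.toMatrix β β) ?_
    refine LinearMap.ext fun x => ?_
    rw [LinearMap.comp_apply, hcj, hcj, hcj, map_mul, MulAut.mul_apply, e.symm_apply_apply,
      toMul_ofMul]
  · have : cj 1 = LinearMap.id := by
      refine LinearMap.ext fun x => ?_
      rw [hcj, map_one, MulAut.one_apply, LinearMap.id_apply, ofMul_toMul, e.apply_symm_apply]
    show LinearMap.toMatrix β β (cj 1) = 1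
    rw [this, LinearMap.toMatrix_id]
  · exact β.equivFun.bijective.comp (e.bijective.comp Additive.ofMul.bijective)
  · intro a b
    show β.equivFun (e (Additive.ofMul (a * b))) =
      β.equivFun (e (Additive.ofMul a)) + β.equivFun (e (Additive.ofMul b))
    rw [ofMul_mul, map_add, map_add]
  · intro g a
    have h3 := LinearMap.toMatrix_mulVec_repr β β (cj g) (e (Additive.ofMul a))
    rw [hcj, e.symm_apply_apply] at h3
    exact h3.symm

/-- coordinates on a finite abelian group of exponent `p` with an action -/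
theorem VAsc_pres (p : ℕ) [Fact p.Prime] (G A : Type) [Group G] [CommGroup A] [Finite A]
    (act : G →* MulAut A) (hexp : ∀ a : A, a ^ p = 1) :
    ∃ (r : ℕ) (ρ : G → Matrix (Fin r) (Fin r) (ZMod p)) (ν : A → Fin r → ZMod p),
      (∀ g h, ρ (g * h) = ρ g * ρ h) ∧ ρ 1 = 1 ∧ Function.Bijective ν ∧
      (∀ a b, ν (a * b) = ν a + ν b) ∧ ∀ g a, ν (act g a) = Matrix.mulVec (ρ g) (ν a) := by
  have hfA : Finite (Additive A) := inferInstanceAs (Finite A)
  exact @VAsc_pres0 p _ G A _ _ act (Additive A) _ hfA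
    (AddCommGroup.zmodModule (fun x => hexp (Additive.toMul x))) (AddEquiv.refl _)

theorem VAsc_fp (p : ℕ) [Fact p.Prime] {K : Type} [Field K] [CharP K p] (x : K) (h : x ^ p = x) :
    ∃ a : ZMod p, x = ((a.val : ℕ) : K) := by
  have h1 : x ∈ (⊥ : Subfield K) := (Subfield.mem_bot_iff_pow_eq_self K p).2 h
  have h2 : (⊥ : Subfield K) ≤ (ZMod.castHom (dvd_refl p) K).fieldRange := bot_le
  obtain ⟨a, ha⟩ := h2 h1
  exact ⟨a, by rw [QDenV_val, ha]⟩

theorem VAsc_fpv (p r : ℕ) [Fact p.Prime] {K : Type} [Field K] [CharP K p] (x : Fin r → K)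
    (h : ∀ j, x j ^ p = x j) : ∃ a : Fin r → ZMod p, ∀ j, x j = (((a j).val : ℕ) : K) := by
  choose a ha using fun j => VAsc_fp p (x j) (h j)
  exact ⟨a, ha⟩

theorem VAsc_sub (p : ℕ) [Fact p.Prime] {K : Type} [CommRing K] [CharP K p] {x y : K}
    (h : x ^ p - x = y ^ p - y) : (x - y) ^ p = x - y := by
  have h1 : (x - y) ^ p = x ^ p - y ^ p := sub_pow_char x y
  rw [h1]
  linear_combination h

theorem VAsc_val_inj (p : ℕ) [Fact p.Prime] {K : Type} [Field K] [CharP K p] {a b : ZMod p}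
    (h : ((a.val : ℕ) : K) = ((b.val : ℕ) : K)) : a = b := by
  rw [QDenV_val, QDenV_val] at h
  exact (ZMod.castHom (dvd_refl p) K).injective h

theorem VAsc_val_add (p : ℕ) [Fact p.Prime] {K : Type} [CommRing K] [CharP K p] (a b : ZMod p) :
    (((a + b).val : ℕ) : K) = ((a.val : ℕ) : K) + ((b.val : ℕ) : K) := by
  rw [QDenV_val, QDenV_val, QDenV_val, map_add]

theorem VAsc_val_mul (p : ℕ) [Fact p.Prime] {K : Type} [CommRing K] [CharP K p] (a b : ZMod p) :
    (((a * b).val : ℕ) : K) = ((a.val : ℕ) : K) * ((b.val : ℕ) : K) := by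
  rw [QDenV_val, QDenV_val, QDenV_val, map_mul]

/-- the twisted action on constants times an element -/
theorem VAsc_stA_const (p r : ℕ) [Fact p.Prime] {K : Type} [CommRing K] [CharP K p] (σ : K →+* K)
    (M : Matrix (Fin r) (Fin r) (ZMod p)) (a : Fin r → ZMod p) (θ : K) (l : Fin r) :
    stA M σ (fun j => (((a j).val : ℕ) : K) * θ) l = (((M.mulVec a l).val : ℕ) : K) * σ θ := by
  unfold stA Matrix.mulVec dotProduct
  rw [QDenV_val, map_sum, Finset.sum_mul]
  refine Finset.sum_congr rfl fun j _ => ?_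
  rw [map_mul, map_mul, ← QDenV_val, ← QDenV_val, map_natCast]
  ring

theorem VAsc_stA_add (p r : ℕ) {K : Type} [CommRing K] (σ : K →+* K)
    (M : Matrix (Fin r) (Fin r) (ZMod p)) (v v' : Fin r → K) (l : Fin r) :
    stA M σ (fun j => v j + v' j) l = stA M σ v l + stA M σ v' l := by
  rw [QDenV_stA_add σ (fun x y => map_add σ x y)]

theorem VAsc_stA_sub (p r : ℕ) {K : Type} [CommRing K] (σ : K →+* K)
    (M : Matrix (Fin r) (Fin r) (ZMod p)) (v v' : Fin r → K) (l : Fin r) :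
    stA M σ (fun j => v j - v' j) l = stA M σ v l - stA M σ v' l := by
  unfold stA
  rw [← Finset.sum_sub_distrib]
  exact Finset.sum_congr rfl fun j _ => by rw [map_sub, mul_sub]

/-- the homomorphism given by Artin-Schreier roots -/
theorem VAsc_core (p r : ℕ) [Fact p.Prime] {F Ω : Type} [Field F] [Field Ω] [Algebra F Ω]
    [CharP Ω p] {G A : Type} [Group G] [CommGroup A] (i : A →* G) (act : G →* MulAut A)
    (hA : AbK p i act) (ρ : G → Matrix (Fin r) (Fin r) (ZMod p)) (ν : A → Fin r → ZMod p)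
    (hρ : ∀ g h, ρ (g * h) = ρ g * ρ h) (hν : Function.Bijective ν)
    (hνa : ∀ a b, ν (a * b) = ν a + ν b)
    (hνg : ∀ g a, ν (act g a) = Matrix.mulVec (ρ g) (ν a)) (Φ : (Ω ≃ₐ[F] Ω) →* G) (hΦ : Cts Φ)
    (m τ : Fin r → Ω) (hτ : ∀ j, τ j ^ p - τ j = m j)
    (hm : ∀ γ : Ω ≃ₐ[F] Ω, stA (ρ (Φ γ)) (fun x => γ x) m = m) :
    ∃ (Φ' : (Ω ≃ₐ[F] Ω) →* G) (α : (Ω ≃ₐ[F] Ω) → A), Cts Φ' ∧ (∀ γ, Φ' γ = i (α γ) * Φ γ) ∧
      ∀ γ l, (((ν (α γ) l).val : ℕ) : Ω) = stA (ρ (Φ γ)) (fun x => γ x) τ l - τ l := by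
  have hu : ∀ γ : Ω ≃ₐ[F] Ω, ∃ a : A, ∀ l, (((ν a l).val : ℕ) : Ω) =
      stA (ρ (Φ γ)) (fun x => γ x) τ l - τ l := by
    intro γ
    obtain ⟨b, hb⟩ := VAsc_fpv p r (fun l => stA (ρ (Φ γ)) (fun x => γ x) τ l - τ l) (by
      intro l
      apply VAsc_sub
      have h1 := QDenV_stA_pow ((γ : Ω →ₐ[F] Ω) : Ω →+* Ω) (ρ (Φ γ)) τ l
      have h2 := VAsc_stA_sub p r ((γ : Ω →ₐ[F] Ω) : Ω →+* Ω) (ρ (Φ γ)) (fun j => τ j ^ p) τ l
      have h3 := congrFun (hm γ) l
      have h4 : (fun j => τ j ^ p - τ j) = m := funext hτ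
      rw [h4] at h2
      rw [hτ l, ← h3]
      refine Eq.trans ?_ h2.symm
      congr 1)
    obtain ⟨a, ha⟩ := hν.2 b
    exact ⟨a, fun l => by rw [ha, ← hb l]⟩
  choose α hα using hu
  have hco : ∀ γ δ, α (γ * δ) = α γ * act (Φ γ) (α δ) := by
    intro γ δ
    apply hν.1
    funext l
    apply VAsc_val_inj p (K := Ω)
    rw [hνa, Pi.add_apply, VAsc_val_add, hα, hα, hνg]
    have h1 := VAsc_stA_const p r ((γ : Ω →ₐ[F] Ω) : Ω →+* Ω) (ρ (Φ γ)) (ν (α δ)) 1 l
    have h2 := VAsc_stA_add p r ((γ : Ω →ₐ[F] Ω) : Ω →+* Ω) (ρ (Φ γ)) τ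
      (fun j => (((ν (α δ) j).val : ℕ) : Ω) * 1) l
    have h3 := QDenV_stA_mul ((γ : Ω →ₐ[F] Ω) : Ω →+* Ω) ((δ : Ω →ₐ[F] Ω) : Ω →+* Ω) (ρ (Φ γ))
      (ρ (Φ δ)) τ
    rw [← hρ, ← map_mul] at h3
    have h4 : (fun j => τ j + (((ν (α δ) j).val : ℕ) : Ω) * 1) =
        stA (ρ (Φ δ)) (((δ : Ω →ₐ[F] Ω) : Ω →+* Ω)) τ := by
      funext j
      rw [hα δ j, mul_one]
      exact add_sub_cancel _ _
    rw [h4, h3, h1, map_one, mul_one] at h2
    have h5 : stA (ρ (Φ (γ * δ))) (fun x => (γ * δ) x) τ l =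
        stA (ρ (Φ (γ * δ))) (fun x => ((γ : Ω →ₐ[F] Ω) : Ω →+* Ω)
          (((δ : Ω →ₐ[F] Ω) : Ω →+* Ω) x)) τ l := rfl
    rw [h5, h2]
    have h6 : stA (ρ (Φ γ)) (((γ : Ω →ₐ[F] Ω) : Ω →+* Ω)) τ l =
      stA (ρ (Φ γ)) (fun x => γ x) τ l := rfl
    rw [h6]
    ring
  have hmul : ∀ γ δ, i (α (γ * δ)) * Φ (γ * δ) = i (α γ) * Φ γ * (i (α δ) * Φ δ) := by
    intro γ δ
    rw [hco, map_mul i, hA.conj, map_mul Φ]
    group
  refine ⟨MonoidHom.mk' (fun γ => i (α γ) * Φ γ) hmul, α, ?_, fun γ => rfl, hα⟩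
  obtain ⟨S, hS⟩ := hΦ
  classical
  refine ⟨S ∪ Finset.univ.image τ, fun γ hγ => ?_⟩
  have h1 : Φ γ = 1 := hS γ fun x hx => hγ x (Finset.mem_union_left _ hx)
  have h2 : α γ = α 1 := by
    apply hν.1
    funext l
    apply VAsc_val_inj p (K := Ω)
    rw [hα, hα, h1, map_one]
    congr 1
    unfold stA
    refine Finset.sum_congr rfl fun j _ => ?_
    show _ * γ (τ j) = _ * τ j
    rw [hγ (τ j) (Finset.mem_union_right _ (Finset.mem_image_of_mem _ (Finset.mem_univ j)))]
  have h3 : α 1 = 1 := by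
    have := hco 1 1
    rw [mul_one, map_one, map_one, MulAut.one_apply] at this
    exact (mul_eq_left.1 this.symm)
  show i (α γ) * Φ γ = 1
  rw [h2, h3, h1, map_one, one_mul]

/-- Artin-Schreier equations over power series -/
theorem VAsc_ps (k : Type) [Field k] [IsAlgClosed k] (p : ℕ) [Fact p.Prime] [CharP k p]
    (f : PowerSeries k) : ∃ t : PowerSeries k, t ^ p - t = f := by
  have hp : p.Prime := Fact.out
  have hc := B5a_complete k
  have hh : HenselianRing (PowerSeries k) (Ideal.span {(PowerSeries.X : PowerSeries k)}) :=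
    inferInstance
  have hchar : CharP (PowerSeries k) p := charP_of_injective_algebraMap
    (algebraMap k (PowerSeries k)).injective p
  set c : k := PowerSeries.constantCoeff f with hcdef
  have hmonic : ∀ {R : Type} [CommRing R] (a : R), Nontrivial R → (asPoly p a).Monic := by
    intro R _ a _
    have h1 : asPoly p a = X ^ p - (X + C a) := by
      unfold asPoly
      ring
    rw [h1]
    apply monic_X_pow_sub
    refine lt_of_le_of_lt (degree_add_le _ _) ?_
    refine max_lt ?_ ?_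
    · rw [degree_X]
      exact_mod_cast hp.one_lt
    · refine lt_of_le_of_lt degree_C_le ?_
      exact_mod_cast hp.pos
  obtain ⟨c0, hc0⟩ := IsAlgClosed.exists_root (asPoly p c) (by
    have h1 := (TI_asPoly_monic p hp.two_le c).1
    intro h0
    have h2 := Polynomial.natDegree_eq_of_degree_eq_some h0
    rw [h1] at h2
    exact hp.ne_zero h2)
  have hc1 : c0 ^ p - c0 = c := by
    have h1 : (asPoly p c).eval c0 = 0 := hc0
    simp only [asPoly, eval_sub, eval_pow, eval_X, eval_C] at h1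
    linear_combination h1
  obtain ⟨a, ha, -⟩ := hh.is_henselian (asPoly p f) (hmonic f inferInstance)
    (PowerSeries.C c0)
    (by
      rw [Ideal.mem_span_singleton, PowerSeries.X_dvd_iff]
      simp only [asPoly, eval_sub, eval_pow, eval_X, eval_C, map_sub, map_pow,
        PowerSeries.constantCoeff_C]
      rw [hc1, ← hcdef, sub_self])
    (by
      have h1 : (asPoly p f).derivative.eval (PowerSeries.C c0) = -1 := by
        simp only [asPoly, derivative_sub, derivative_X_pow, derivative_X, derivative_C, eval_sub,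
          eval_mul, eval_C, eval_pow, eval_X, eval_one, eval_zero, CharP.cast_eq_zero, zero_mul]
        ring
      rw [h1, map_neg, map_one]
      exact isUnit_one.neg)
  refine ⟨a, ?_⟩
  have h1 : (asPoly p f).eval a = 0 := ha
  simp only [asPoly, eval_sub, eval_pow, eval_X, eval_C] at h1
  linear_combination h1

theorem VAsc_h (k : Type) [Field k] (u : LaurentSeries k) (h : RatFunc k →+* LaurentSeries k)
    (hh : IsH h u) (U : k[X]) :
    h (algebraMap k[X] (RatFunc k) U) = U.eval₂ HahnSeries.C u := by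
  have e : h.comp (algebraMap k[X] (RatFunc k)) = eval₂RingHom HahnSeries.C u := by
    refine Polynomial.ringHom_ext (fun c => ?_) ?_
    · simp only [RingHom.comp_apply, coe_eval₂RingHom, eval₂_C]
      rw [RatFunc.algebraMap_C, hh.cst]
    · simp only [RingHom.comp_apply, coe_eval₂RingHom, eval₂_X]
      rw [RatFunc.algebraMap_X, hh.X]
  exact congrArg (fun f : k[X] →+* LaurentSeries k => f U) e

/-- the values at a finite place of integral elements are power series -/
theorem VAsc_int (k : Type) [Field k] (a : k) {Λ : Type} [Field Λ] [Algebra (LaurentSeries k) Λ]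
    {B : Type} [CommRing B] [Algebra k[X] B] (θ : B →+* Λ)
    (hθ : ∀ U : k[X], θ (algebraMap k[X] B U) = lΛ Λ (U.eval₂ HahnSeries.C (pA a)))
    (c : B) (hc : IsIntegral k[X] c) (y : LaurentSeries k) (hy : lΛ Λ y = θ c) :
    ∃ F : PowerSeries k, HahnSeries.ofPowerSeries ℤ k F = y := by
  obtain ⟨P, hP, hPc⟩ := hc
  let φ : k[X] →+* PowerSeries k :=
    eval₂RingHom (PowerSeries.C : k →+* PowerSeries k) (PowerSeries.C a + PowerSeries.X)
  have hφ : ∀ U : k[X], HahnSeries.ofPowerSeries ℤ k (φ U) = U.eval₂ HahnSeries.C (pA a) := by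
    intro U
    show HahnSeries.ofPowerSeries ℤ k (U.eval₂ PowerSeries.C (PowerSeries.C a + PowerSeries.X)) = _
    rw [hom_eval₂]
    congr 1
    · ext c
      simp [HahnSeries.ofPowerSeries_C]
    · rw [map_add, HahnSeries.ofPowerSeries_C, HahnSeries.ofPowerSeries_X]
      rfl
  have h1 : IsIntegral (PowerSeries k) y := by
    refine ⟨P.map φ, hP.map φ, ?_⟩
    rw [eval₂_map]
    apply (algebraMap (LaurentSeries k) Λ).injective
    rw [hom_eval₂, map_zero]
    have h2 : (algebraMap (LaurentSeries k) Λ).comp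
        ((algebraMap (PowerSeries k) (LaurentSeries k)).comp φ) =
        θ.comp (algebraMap k[X] B) := by
      refine RingHom.ext fun U => ?_
      rw [RingHom.comp_apply, RingHom.comp_apply, RingHom.comp_apply, hθ, ← hφ]
      rfl
    have h3 : algebraMap (LaurentSeries k) Λ y = θ c := hy
    rw [h2, h3, ← hom_eval₂, hPc, map_zero]
  obtain ⟨F, hF⟩ := IsIntegrallyClosed.isIntegral_iff.1 h1
  exact ⟨F, hF⟩

theorem prf_VAsc (hFld : VFld) (hRg : VRg) : VAsc := by
  intro k _ p Ω Λ _ _ _ _ hI jI ρI hB G A _ _ _ _ i act hA Φ hΦ hun v hv b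
  have hac : IsAlgClosed k := hB.ac
  have hch : CharP k p := hB.ch
  have hpF : Fact p.Prime := ⟨hB.pr⟩
  have hgΩ := hB.galΩ
  have hsΩ := hB.scΩ
  have hgΛ := hB.galΛ
  have hsΛ := hB.scΛ
  have hcΩ : CharP Ω p := charP_of_injective_ringHom
    ((algebraMap (RatFunc k) Ω).comp (RatFunc.C : k →+* RatFunc k)).injective p
  have hcΛ : CharP Λ p := charP_of_injective_ringHom
    ((algebraMap (LaurentSeries k) Λ).comp (HahnSeries.C : k →+* LaurentSeries k)).injective p
  obtain ⟨r, ρ, ν, hρ, hρ1, hν, hνa, hνg⟩ := VAsc_pres p G A act hA.exp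
  have hν1 : ν 1 = 0 := by
    have h1 := hνa 1 1
    rw [mul_one] at h1
    exact left_eq_add.1 h1
  have hνp : ∀ (n : ℕ), ν (v ^ n) = fun l => (n : ZMod p) * ν v l := by
    intro n
    induction n with
    | zero =>
      rw [pow_zero, hν1]
      funext l
      simp
    | succ n ih =>
      rw [pow_succ, hνa, ih]
      funext l
      simp only [Pi.add_apply]
      push_cast
      ring
  let Φ₁ : (Ω ≃ₐ[RatFunc k] Ω) →* Φ.range := Φ.rangeRestrict
  have hΦ₁ : ∀ γ, ((Φ₁ γ : Φ.range) : G) = Φ γ := fun γ => rfl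
  have hs₁ : Function.Surjective Φ₁ := Φ.rangeRestrict_surjective
  have hc₁ : Cts Φ₁ := by
    obtain ⟨S, hS⟩ := hΦ
    exact ⟨S, fun γ hγ => Subtype.ext (hS γ hγ)⟩
  have hun₁ : ∀ a, UnrAt (Λ := Λ) Φ₁ a := fun a h j ρ' hh hC δ =>
    Subtype.ext (hun a h j ρ' hh hC δ)
  obtain ⟨B, iB1, iB2, iB3, β, hGal, hdom, hβinj, hβalg, hβact⟩ :=
    hRg k p Ω Λ hI jI ρI hB Φ.range Φ₁ hc₁ hs₁ hun₁
  let P : Subgroup Φ.range := (Φ₁.comp ρI).range
  let Ψ : (Λ ≃ₐ[LaurentSeries k] Λ) →* P := (Φ₁.comp ρI).rangeRestrict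
  have hΨ : ∀ δ, ((Ψ δ : P) : Φ.range) = Φ₁ (ρI δ) := fun δ => rfl
  have hΨs : Function.Surjective Ψ := MonoidHom.rangeRestrict_surjective _
  have hΨc : Cts Ψ := by
    classical
    obtain ⟨S, hS⟩ := hc₁
    refine ⟨S.image jI, fun δ hδ => Subtype.ext (hS _ fun x hx => jI.injective ?_)⟩
    rw [hB.comp.res]
    exact hδ _ (Finset.mem_image_of_mem _ hx)
  obtain ⟨E, iE1, iE2, iE3, ε, hGalE, hεalg, hεact, hεfix⟩ :=
    hFld (LaurentSeries k) Λ P Ψ hΨc hΨs
  have hεinj : Function.Injective ε := ε.injective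
  have hcE : CharP E p := charP_of_injective_ringHom
    ((algebraMap (LaurentSeries k) E).comp (HahnSeries.C : k →+* LaurentSeries k)).injective p
  have hact : ∀ (δ : Λ ≃ₐ[LaurentSeries k] Λ) (c : B),
      δ (jI (β c)) = jI (β (((Ψ δ : P) : Φ.range) • c)) := by
    intro δ c
    rw [← hB.comp.res, hβact, hΨ]
  have hex : ∀ c : B, ∃ x : E, ε x = jI (β c) := by
    intro c
    apply hεfix
    intro δ hδ
    rw [hact, hδ, Subgroup.coe_one, one_smul]
  choose ι hι using hex
  let ι' : B →+* E :=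
    { toFun := ι
      map_one' := hεinj (by rw [hι, map_one, map_one, map_one])
      map_zero' := hεinj (by rw [hι, map_zero, map_zero, map_zero])
      map_mul' := fun a b => hεinj (by rw [map_mul, hι, hι, hι, map_mul, map_mul])
      map_add' := fun a b => hεinj (by rw [map_add, hι, hι, hι, map_add, map_add]) }
  have hι' : ∀ c, ε (ι' c) = jI (β c) := hι
  set s : E := algebraMap (LaurentSeries k) E (HahnSeries.single (-1 : ℤ) b) with hs
  obtain ⟨f, h, hf, hh, hw⟩ := all_QDenV k p r Φ.range P (fun g => ρ (g : G)) B E ι'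
    (fun g h => by rw [Subgroup.coe_mul, hρ]) (by rw [Subgroup.coe_one, hρ1]) hGal hGalE
    (by
      intro U
      apply hεinj
      rw [hι', hβalg, hB.comp.alg, hεalg, VAsc_h k _ hI hB.isH]
      rfl)
    (by
      intro g c
      obtain ⟨δ, rfl⟩ := hΨs g
      apply hεinj
      rw [hι', ← hact, ← hεact, hι'])
    (fun j => (((ν v j).val : ℕ) : E) * s) (by
      intro g
      obtain ⟨δ, rfl⟩ := hΨs g
      funext l
      have h1 := VAsc_stA_const p r (MulSemiringAction.toRingHom P E (Ψ δ)) (ρ (Φ (ρI δ))) (ν v) s l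
      rw [← hνg, hv] at h1
      have h2 : (MulSemiringAction.toRingHom P E (Ψ δ)) s = s := hGalE.comm (Ψ δ) _
      rw [h2] at h1
      exact h1)
  have hτex : ∀ l, ∃ x : Ω, x ^ p - x = β (f l) := by
    intro l
    obtain ⟨x, hx⟩ := IsSepClosed.exists_root_C_mul_X_pow_add_C_mul_X_add_C (n := p) (1 : Ω) (-1)
      (-(β (f l))) (CharP.cast_eq_zero Ω p) hB.pr.two_le (neg_ne_zero.2 one_ne_zero)
    exact ⟨x, by linear_combination hx⟩
  choose τ hτ using hτex
  obtain ⟨Φ', α, hcts', hΦ', hα⟩ := VAsc_core p r i act hA ρ ν hρ hν hνa hνg Φ hΦ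
    (fun l => β (f l)) τ hτ (by
      intro γ
      funext l
      have h1 := QDenV_stA_nat β (fun x => Φ₁ γ • x) (fun x => γ x) (fun x => (hβact γ x).symm)
        (ρ (Φ γ)) f l
      rw [← h1]
      have h2 := congrFun (hf (Φ₁ γ)) l
      exact congrArg β h2)
  refine ⟨Φ', hcts', fun γ => ⟨α γ, hΦ' γ⟩, ?_, ?_⟩
  · intro a h' j ρ' hh' hC' δ
    have h1 : Φ (ρ' δ) = 1 := hun a h' j ρ' hh' hC' δ
    have h2 : ∀ l, ρ' δ (τ l) = τ l := by
      intro l
      apply j.injective
      rw [hC'.res]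
      have h3 : j (β (f l)) ∈ Set.range (algebraMap (LaurentSeries k) Λ) := by
        refine (InfiniteGalois.mem_range_algebraMap_iff_fixed (k := LaurentSeries k) (K := Λ)
          _).2 fun δ' => ?_
        show δ' (j (β (f l))) = j (β (f l))
        rw [← hC'.res δ', hβact, hun₁ a h' j ρ' hh' hC' δ', one_smul]
      obtain ⟨y, hy⟩ := h3
      have hinv : Algebra.IsInvariant k[X] B Φ.range := ⟨hGal.inv⟩
      have hint : Algebra.IsIntegral k[X] B := Algebra.IsInvariant.isIntegral k[X] B Φ.range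
      obtain ⟨F, hF⟩ := VAsc_int k a (j.comp β) (by
        intro U
        rw [RingHom.comp_apply, hβalg, hC'.alg, VAsc_h k _ h' hh']) (f l)
        (Algebra.IsIntegral.isIntegral _) y hy
      obtain ⟨t, ht⟩ := VAsc_ps k p F
      set t' : Λ := lΛ Λ (HahnSeries.ofPowerSeries ℤ k t) with ht'
      have h40 : t' ^ p - t' = j (β (f l)) := by
        rw [← hy, ← hF, ← ht, ht', map_sub, map_sub, map_pow, map_pow]
      have h41 : j (τ l) ^ p - j (τ l) = j (β (f l)) := by
        rw [← map_pow, ← map_sub, hτ l]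
      have h4 : t' ^ p - t' = j (τ l) ^ p - j (τ l) := by
        rw [h40, h41]
      obtain ⟨d, hd⟩ := VAsc_fp p (j (τ l) - t') (VAsc_sub p h4.symm)
      have h5 : j (τ l) = ((d.val : ℕ) : Λ) + t' := by rw [← hd]; ring
      rw [h5, map_add, map_natCast, ht', δ.commutes]
    rw [hΦ', h1, mul_one]
    have h3 : α (ρ' δ) = 1 := by
      apply hν.1
      rw [hν1]
      funext l
      apply VAsc_val_inj p (K := Ω)
      rw [hα, h1, Pi.zero_apply, ZMod.val_zero, Nat.cast_zero, sub_eq_zero]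
      have h4 := QDenV_stA_one (p := p) τ (fun x => x) (fun x => rfl)
      rw [← hρ1] at h4
      refine Eq.trans ?_ (congrFun h4 l)
      unfold stA
      refine Finset.sum_congr rfl fun m _ => ?_
      show _ * ρ' δ (τ m) = _ * τ m
      rw [h2]
    rw [h3, map_one]
  · intro z hz
    have hfp : ∀ l, (jI (τ l) - (((ν v l).val : ℕ) : Λ) * z + ε (h l)) ^ p =
        jI (τ l) - (((ν v l).val : ℕ) : Λ) * z + ε (h l) := by
      intro l
      have h1 := hw l
      have h2 : ε ((((ν v l).val : ℕ) : E) * s) = ε (ι' (f l) + (h l ^ p - h l)) :=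
        congrArg ε h1
      rw [map_mul, map_natCast, map_add, hι', map_sub, map_pow, hs, hεalg] at h2
      have h3 : jI (τ l) ^ p - jI (τ l) = jI (β (f l)) := by
        rw [← map_pow, ← map_sub, hτ l]
      have h4 : (((ν v l).val : ℕ) : Λ) ^ p = (((ν v l).val : ℕ) : Λ) := by
        rw [QDenV_val, ← map_pow, ZMod.pow_card]
      have h5 : (jI (τ l) - (((ν v l).val : ℕ) : Λ) * z + ε (h l)) ^ p =
          jI (τ l) ^ p - (((ν v l).val : ℕ) : Λ) ^ p * z ^ p + ε (h l) ^ p := by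
        rw [add_pow_char, sub_pow_char, mul_pow]
      rw [h5, h4]
      have h6 : z ^ p = z + lΛ Λ (HahnSeries.single (-1 : ℤ) b) := by rw [← hz]; ring
      have h7 : lΛ Λ (HahnSeries.single (-1 : ℤ) b) =
        algebraMap (LaurentSeries k) Λ (HahnSeries.single (-1 : ℤ) b) := rfl
      rw [h6, h7]
      linear_combination h3 - h2
    obtain ⟨a', ha'⟩ := VAsc_fpv p r _ hfp
    obtain ⟨a₀, rfl⟩ := hν.2 a'
    refine ⟨a₀, fun δ m hm => ?_⟩
    rw [hΦ']
    have key : α (ρI δ) = act (Φ (ρI δ)) a₀ * a₀⁻¹ * v ^ m := by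
      have h0 : α (ρI δ) * a₀ = act (Φ (ρI δ)) a₀ * v ^ m := by
        apply hν.1
        funext l
        apply VAsc_val_inj p (K := Λ)
        rw [hνa, hνa, hνp, Pi.add_apply, Pi.add_apply, VAsc_val_add, VAsc_val_add,
          VAsc_val_mul]
        have h1 : ((((m : ZMod p)).val : ℕ) : Λ) = (m : Λ) := by
          rw [QDenV_val, map_natCast]
        have h2 := congrArg jI (hα (ρI δ) l)
        rw [map_natCast, map_sub, QDenV_stA_nat jI (fun x => ρI δ x) (fun x => δ x)
          (fun x => hB.comp.res δ x)] at h2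
        have h3 : (fun j => jI (τ j)) = fun j => ((((ν a₀ j).val : ℕ) : Λ) * 1 +
            (((ν v j).val : ℕ) : Λ) * z) - ε (h j) := by
          funext j
          rw [← ha' j]
          ring
        have h4 := VAsc_stA_sub p r ((δ : Λ →ₐ[LaurentSeries k] Λ) : Λ →+* Λ) (ρ (Φ (ρI δ)))
          (fun j => (((ν a₀ j).val : ℕ) : Λ) * 1 + (((ν v j).val : ℕ) : Λ) * z)
          (fun j => ε (h j)) l
        rw [← h3] at h4
        have h5 := VAsc_stA_add p r ((δ : Λ →ₐ[LaurentSeries k] Λ) : Λ →+* Λ) (ρ (Φ (ρI δ)))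
          (fun j => (((ν a₀ j).val : ℕ) : Λ) * 1) (fun j => (((ν v j).val : ℕ) : Λ) * z) l
        rw [VAsc_stA_const, VAsc_stA_const, map_one, mul_one, ← hνg, ← hνg, hv] at h5
        have h6 : stA (ρ (Φ (ρI δ))) ((δ : Λ →ₐ[LaurentSeries k] Λ) : Λ →+* Λ)
            (fun j => ε (h j)) l = ε (h l) := by
          have h7 := QDenV_stA_nat ε (fun x => Ψ δ • x)
            (((δ : Λ →ₐ[LaurentSeries k] Λ) : Λ →+* Λ)) (fun x => (hεact δ x).symm)
            (ρ (Φ (ρI δ))) h l
          rw [← h7]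
          exact congrArg ε (congrFun (hh (Ψ δ)) l)
        have h8 : ((δ : Λ →ₐ[LaurentSeries k] Λ) : Λ →+* Λ) z = z + (m : Λ) := hm
        have h9 : stA (ρ (Φ (ρI δ))) (fun x => δ x) (fun j => jI (τ j)) l =
          stA (ρ (Φ (ρI δ))) ((δ : Λ →ₐ[LaurentSeries k] Λ) : Λ →+* Λ) (fun j => jI (τ j)) l := rfl
        rw [h9, h4, h5, h6, h8] at h2
        rw [h1, h2]
        have h10 := ha' l
        linear_combination -h10
      rw [mul_right_comm, ← h0, mul_inv_cancel_right]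
    rw [key]

end MP7b0bad.SV
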