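import Pool.Agent.Work.MP_7b0bad_ag.SV.LiftStmts

set_option autoImplicit false

/-!
# Averaging over the cosets of a subgroup of index prime to `r`
-/

namespace MP7b0bad.SV

section

variable {Γ G : Type} [Group Γ] [Group G]

/-- a set theoretic lift which is multiplicative on the right by the subgroup -/
theorem VAvg_lam (ΓS : Subgroup Γ) (M : Subgroup G) [M.Normal] (φ : Γ →* G ⧸ M) (ΦS : ΓS →* G)
    (h : ∀ s : ΓS, (ΦS s : G ⧸ M) = φ s) :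
    ∃ lam : Γ → G, (∀ γ, (lam γ : G ⧸ M) = φ γ) ∧ (∀ (γ : Γ) (s : ΓS),
      lam (γ * s) = lam γ * ΦS s) ∧ lam 1 = 1 := by
  classical
  have hrep : ∀ q : Γ ⧸ ΓS, ∃ t : Γ, (t : Γ ⧸ ΓS) = q ∧ (q = ((1 : Γ) : Γ ⧸ ΓS) → t = 1) := by
    intro q
    by_cases hq : q = ((1 : Γ) : Γ ⧸ ΓS)
    · exact ⟨1, hq.symm, fun _ => rfl⟩
    · exact ⟨q.out, Quotient.out_eq' q, fun hh => absurd hh hq⟩
  choose rep hrep1 hrep2 using hrep
  have hl : ∀ q : Γ ⧸ ΓS, ∃ g : G, (g : G ⧸ M) = φ (rep q) ∧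
      (q = ((1 : Γ) : Γ ⧸ ΓS) → g = 1) := by
    intro q
    by_cases hq : q = ((1 : Γ) : Γ ⧸ ΓS)
    · refine ⟨1, ?_, fun _ => rfl⟩
      rw [hrep2 q hq, map_one]
      rfl
    · obtain ⟨g, hg⟩ := QuotientGroup.mk_surjective (φ (rep q))
      exact ⟨g, hg, fun hh => absurd hh hq⟩
  choose l hl1 hl2 using hl
  have hmem : ∀ γ : Γ, (rep (γ : Γ ⧸ ΓS))⁻¹ * γ ∈ ΓS := by
    intro γ
    exact QuotientGroup.eq.mp (hrep1 (γ : Γ ⧸ ΓS))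
  refine ⟨fun γ => l (γ : Γ ⧸ ΓS) * ΦS ⟨(rep (γ : Γ ⧸ ΓS))⁻¹ * γ, hmem γ⟩, ?_, ?_, ?_⟩
  · intro γ
    have h1 : ((l (γ : Γ ⧸ ΓS) * ΦS ⟨(rep (γ : Γ ⧸ ΓS))⁻¹ * γ, hmem γ⟩ : G) : G ⧸ M) =
        (l (γ : Γ ⧸ ΓS) : G ⧸ M) * (ΦS ⟨(rep (γ : Γ ⧸ ΓS))⁻¹ * γ, hmem γ⟩ : G ⧸ M) := rfl
    rw [h1, hl1, h, ← map_mul]
    congr 1
    exact mul_inv_cancel_left _ _
  · intro γ s
    have h1 : ((γ * s : Γ) : Γ ⧸ ΓS) = (γ : Γ ⧸ ΓS) := by
      rw [QuotientGroup.eq]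
      have : (γ * (s : Γ))⁻¹ * γ = ((s : Γ))⁻¹ := by group
      rw [this]
      exact ΓS.inv_mem s.2
    have h2 : (⟨(rep ((γ * s : Γ) : Γ ⧸ ΓS))⁻¹ * (γ * s), hmem (γ * s)⟩ : ΓS) =
        ⟨(rep (γ : Γ ⧸ ΓS))⁻¹ * γ, hmem γ⟩ * s := by
      apply Subtype.ext
      change (rep ((γ * s : Γ) : Γ ⧸ ΓS))⁻¹ * (γ * s) = (rep (γ : Γ ⧸ ΓS))⁻¹ * γ * s
      rw [h1, mul_assoc]
    change l ((γ * s : Γ) : Γ ⧸ ΓS) * ΦS _ = l (γ : Γ ⧸ ΓS) * ΦS _ * ΦS s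
    rw [h2, h1, map_mul, mul_assoc]
  · change l ((1 : Γ) : Γ ⧸ ΓS) * ΦS _ = 1
    have h2 : (⟨(rep ((1 : Γ) : Γ ⧸ ΓS))⁻¹ * 1, hmem 1⟩ : ΓS) = 1 := by
      apply Subtype.ext
      change (rep ((1 : Γ) : Γ ⧸ ΓS))⁻¹ * 1 = 1
      rw [hrep2 _ rfl]
      simp
    rw [h2, map_one, hl2 _ rfl, mul_one]

end

theorem prf_VAvg : VAvg := by
  classical
  intro Γ _ Γ₀ ΓS _ r hr h0S hidx G _ M _ hab hexp φ ΦS hΦφ hΦ0
  obtain ⟨lam, hlam1, hlam2, hlam3⟩ := VAvg_lam ΓS M φ ΦS hΦφ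
  have hlamS : ∀ s : ΓS, lam s = ΦS s := by
    intro s
    have := hlam2 1 s
    rw [one_mul, hlam3, one_mul] at this
    exact this
  have hidx0 : ΓS.index ≠ 0 := by
    intro h0
    exact hidx (h0 ▸ dvd_zero r)
  have hfi : ΓS.FiniteIndex := ⟨hidx0⟩
  have hfin : Finite (Γ ⧸ ΓS) := Subgroup.finite_quotient_of_finiteIndex
  let hft : Fintype (Γ ⧸ ΓS) := Fintype.ofFinite _
  letI : CommGroup M := { (inferInstance : Group M) with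
    mul_comm := fun a b => Subtype.ext (hab a a.2 b b.2) }
  -- the cocycle
  have hc : ∀ γ δ : Γ, lam γ * lam δ * (lam (γ * δ))⁻¹ ∈ M := by
    intro γ δ
    rw [← QuotientGroup.eq_one_iff]
    have h1 : ((lam γ * lam δ * (lam (γ * δ))⁻¹ : G) : G ⧸ M) =
        (lam γ : G ⧸ M) * (lam δ : G ⧸ M) * ((lam (γ * δ) : G ⧸ M))⁻¹ := rfl
    rw [h1, hlam1, hlam1, hlam1, map_mul]
    exact mul_inv_cancel _
  let c : Γ → Γ → M := fun γ δ => ⟨lam γ * lam δ * (lam (γ * δ))⁻¹, hc γ δ⟩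
  have hcval : ∀ γ δ, (c γ δ : G) = lam γ * lam δ * (lam (γ * δ))⁻¹ := fun _ _ => rfl
  have hcinv : ∀ (γ δ : Γ) (s : ΓS), c γ (δ * s) = c γ δ := by
    intro γ δ s
    apply Subtype.ext
    rw [hcval, hcval, hlam2, ← mul_assoc γ δ, hlam2]
    group
  let act : Γ → M →* M := fun γ => (MulAut.conjNormal (lam γ) : M ≃* M).toMonoidHom
  have hact : ∀ (γ : Γ) (a : M), ((act γ a : M) : G) = lam γ * (a : G) * (lam γ)⁻¹ := by
    intro γ a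
    exact MulAut.conjNormal_apply (lam γ) a
  have hcoc : ∀ γ δ ε : Γ, act γ (c δ ε) * c γ (δ * ε) = c γ δ * c (γ * δ) ε := by
    intro γ δ ε
    apply Subtype.ext
    have h1 : ((act γ (c δ ε) * c γ (δ * ε) : M) : G) =
      ((act γ (c δ ε) : M) : G) * (c γ (δ * ε) : G) := rfl
    have h2 : ((c γ δ * c (γ * δ) ε : M) : G) = (c γ δ : G) * (c (γ * δ) ε : G) := rfl
    rw [h1, h2, hact, hcval, hcval, hcval, hcval, mul_assoc γ δ ε]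
    group
  -- values on the cosets
  let c' : Γ → Γ ⧸ ΓS → M := fun γ q => c γ q.out
  have hc' : ∀ (γ ε : Γ), c' γ (ε : Γ ⧸ ΓS) = c γ ε := by
    intro γ ε
    obtain ⟨s, hs⟩ := QuotientGroup.mk_out_eq_mul ΓS ε
    change c γ ((ε : Γ ⧸ ΓS).out) = c γ ε
    rw [hs, hcinv]
  have hcoc' : ∀ (γ δ : Γ) (q : Γ ⧸ ΓS),
      act γ (c' δ q) * c' γ (δ • q) = c γ δ * c' (γ * δ) q := by
    intro γ δ q
    obtain ⟨ε, rfl⟩ := QuotientGroup.mk_surjective q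
    have h1 : (δ • (ε : Γ ⧸ ΓS)) = ((δ * ε : Γ) : Γ ⧸ ΓS) := rfl
    rw [h1, hc', hc', hc', hcoc]
  let U : Γ → M := fun γ => ∏ q : Γ ⧸ ΓS, c' γ q
  have hU : ∀ γ δ : Γ, act γ (U δ) * U γ = (c γ δ) ^ ΓS.index * U (γ * δ) := by
    intro γ δ
    have h1 : ∏ q : Γ ⧸ ΓS, (act γ (c' δ q) * c' γ (δ • q)) =
        ∏ q : Γ ⧸ ΓS, (c γ δ * c' (γ * δ) q) :=
      Finset.prod_congr rfl (fun q _ => hcoc' γ δ q)
    rw [Finset.prod_mul_distrib, Finset.prod_mul_distrib, Finset.prod_const,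
      Finset.card_univ] at h1
    have h2 : ∏ q : Γ ⧸ ΓS, c' γ (δ • q) = U γ :=
      Equiv.prod_comp (MulAction.toPerm δ) (fun q => c' γ q)
    have h3 : Fintype.card (Γ ⧸ ΓS) = ΓS.index := by
      rw [Subgroup.index, Nat.card_eq_fintype_card]
    rw [h2, h3, ← map_prod] at h1
    exact h1
  -- the inverse of the index
  obtain ⟨m, -, hm⟩ := Nat.exists_mul_mod_eq_one_of_coprime
    (Nat.Coprime.symm ((Nat.Prime.coprime_iff_not_dvd hr).mpr hidx)) hr.one_lt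
  let u : Γ → M := fun γ => (U γ) ^ m
  have hu : ∀ γ δ : Γ, act γ (u δ) * u γ = c γ δ * u (γ * δ) := by
    intro γ δ
    have h1 : act γ (u δ) * u γ = (act γ (U δ) * U γ) ^ m := by
      rw [mul_pow, ← map_pow]
    have hr1 : (c γ δ) ^ r = 1 := by
      apply Subtype.ext
      have := hexp (c γ δ : G) (c γ δ).2
      exact this
    have h2 : ((c γ δ) ^ ΓS.index) ^ m = c γ δ := by
      rw [← pow_mul, pow_eq_pow_mod _ hr1, hm, pow_one]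
    rw [h1, hU, mul_pow, h2]
  have hu' : ∀ γ δ : Γ, (lam γ * (u δ : G) * (lam γ)⁻¹) * (u γ : G) =
      (lam γ * lam δ * (lam (γ * δ))⁻¹) * (u (γ * δ) : G) := by
    intro γ δ
    have h1 : ((act γ (u δ) * u γ : M) : G) = ((c γ δ * u (γ * δ) : M) : G) := by
      rw [hu γ δ]
    have h2 : ((act γ (u δ) * u γ : M) : G) = ((act γ (u δ) : M) : G) * (u γ : G) := rfl
    have h3 : ((c γ δ * u (γ * δ) : M) : G) = (c γ δ : G) * (u (γ * δ) : G) := rfl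
    rw [h2, h3, hact, hcval] at h1
    exact h1
  have hcomm : ∀ γ δ : Γ, (lam γ * lam δ * (lam (γ * δ))⁻¹) * (u (γ * δ) : G) =
      (u (γ * δ) : G) * (lam γ * lam δ * (lam (γ * δ))⁻¹) := by
    intro γ δ
    exact hab _ (hc γ δ) _ (u (γ * δ)).2
  have hmul : ∀ γ δ : Γ, ((u (γ * δ) : G))⁻¹ * lam (γ * δ) =
      (((u γ : G))⁻¹ * lam γ) * (((u δ : G))⁻¹ * lam δ) := by
    intro γ δ
    have h1 : (lam γ * (u δ : G) * (lam γ)⁻¹) * (u γ : G) =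
        (u (γ * δ) : G) * (lam γ * lam δ * (lam (γ * δ))⁻¹) := (hu' γ δ).trans (hcomm γ δ)
    have h2 : ((u γ : G))⁻¹ * (lam γ * (u δ : G) * (lam γ)⁻¹)⁻¹ =
        (lam γ * lam δ * (lam (γ * δ))⁻¹)⁻¹ * ((u (γ * δ) : G))⁻¹ := by
      rw [← mul_inv_rev, ← mul_inv_rev, h1]
    have h3 : (lam γ * lam δ * (lam (γ * δ))⁻¹)⁻¹ * ((u (γ * δ) : G))⁻¹ =
        ((u (γ * δ) : G))⁻¹ * (lam γ * lam δ * (lam (γ * δ))⁻¹)⁻¹ := by
      rw [← mul_inv_rev, ← mul_inv_rev, hcomm γ δ]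
    have h4 : (((u γ : G))⁻¹ * lam γ) * (((u δ : G))⁻¹ * lam δ) =
        (((u γ : G))⁻¹ * (lam γ * (u δ : G) * (lam γ)⁻¹)⁻¹) * (lam γ * lam δ) := by
      group
    rw [h4, h2, h3]
    group
  have hone : (((u 1 : M) : G))⁻¹ * lam 1 = 1 := by
    have h1 := hmul 1 1
    rw [one_mul] at h1
    exact (mul_eq_left.mp h1.symm)
  let Φ : Γ →* G :=
    { toFun := fun γ => ((u γ : G))⁻¹ * lam γ
      map_one' := hone
      map_mul' := hmul }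
  refine ⟨Φ, ?_, ?_⟩
  · intro γ
    change ((((u γ : G))⁻¹ * lam γ : G) : G ⧸ M) = φ γ
    have h1 : ((((u γ : G))⁻¹ * lam γ : G) : G ⧸ M) =
        ((((u γ : G))⁻¹ : G) : G ⧸ M) * (lam γ : G ⧸ M) := rfl
    have h2 : ((((u γ : G))⁻¹ : G) : G ⧸ M) = 1 :=
      (QuotientGroup.eq_one_iff _).mpr (M.inv_mem (u γ).2)
    rw [h1, h2, one_mul, hlam1]
  · intro γ hγ
    change ((u γ : G))⁻¹ * lam γ = 1
    have h1 : lam γ = 1 := by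
      have h2 := hlamS ⟨γ, h0S hγ⟩
      rw [hΦ0 ⟨γ, h0S hγ⟩ hγ] at h2
      exact h2
    have h2 : ∀ δ : Γ, lam (γ * δ) = lam δ := by
      intro δ
      have h3 : δ⁻¹ * γ * δ ∈ Γ₀ := by
        have := (inferInstance : Γ₀.Normal).conj_mem γ hγ δ⁻¹
        rw [inv_inv] at this
        exact this
      have h4 := hlam2 δ ⟨δ⁻¹ * γ * δ, h0S h3⟩
      rw [hΦ0 ⟨δ⁻¹ * γ * δ, h0S h3⟩ h3, mul_one] at h4
      have h5 : δ * (δ⁻¹ * γ * δ) = γ * δ := by group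
      change lam (δ * (δ⁻¹ * γ * δ)) = lam δ at h4
      rw [h5] at h4
      exact h4
    have h3 : ∀ δ : Γ, c γ δ = 1 := by
      intro δ
      apply Subtype.ext
      rw [hcval, h1, h2, one_mul]
      exact mul_inv_cancel _
    have h4 : u γ = 1 := by
      change (∏ q : Γ ⧸ ΓS, c' γ q) ^ m = 1
      have h5 : ∏ q : Γ ⧸ ΓS, c' γ q = 1 := by
        apply Finset.prod_eq_one
        intro q _
        exact h3 _
      rw [h5, one_pow]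
    rw [h4, h1]
    simp

end MP7b0bad.SV
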