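import Pool.Agent.Work.MP_7b0bad_ag.SV.VStmts2

set_option autoImplicit false

/-!
# Item VBc0: ramification at `0` killed by `y = x ^ m`
-/

namespace MP7b0bad.SV

open Polynomial

theorem VBc0_fix {k Λ : Type} [Field k] [Field Λ] [Algebra (LaurentSeries k) Λ] {r : ℕ} {ζ : k}
    (hr : 0 < r) (hζ : IsPrimitiveRoot ζ r) (x : Λ) (b : LaurentSeries k) (hb : b ≠ 0)
    (hx : x ^ r = (lΛ Λ b) ^ r) (δ : Λ ≃ₐ[LaurentSeries k] Λ) : δ x = x := by
  have hb' : lΛ Λ b ≠ 0 := by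
    intro h0
    exact hb ((algebraMap (LaurentSeries k) Λ).injective (by rw [map_zero]; exact h0))
  have hinj : Function.Injective
      ((algebraMap (LaurentSeries k) Λ).comp (HahnSeries.C : k →+* LaurentSeries k)) :=
    RingHom.injective _
  have hζ' : IsPrimitiveRoot (cΛ Λ ζ) r := hζ.map_of_injective hinj
  have h1 : (x / lΛ Λ b) ^ r = 1 := by
    rw [div_pow, hx, div_self (pow_ne_zero _ hb')]
  haveI : NeZero r := ⟨hr.ne'⟩
  obtain ⟨n, -, hn⟩ := hζ'.eq_pow_of_pow_eq_one h1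
  have hx2 : x = algebraMap (LaurentSeries k) Λ (HahnSeries.C ζ ^ n * b) := by
    rw [map_mul, map_pow]
    have : x = (x / lΛ Λ b) * lΛ Λ b := by field_simp
    rw [this, ← hn]
    rfl
  rw [hx2, AlgEquiv.commutes]

theorem prf_VBc0 (hPl : VPl) (hH : VH) (hCp : VCp) (hBcU : VBcU) (hSub : VSub) : VBc0 := by
  intro k _ p Ω Λ _ _ _ _ hI jI ρI hB r m ζ t hr hrp hTm hm hrm hpm G A _ _ _ i hA Φ hΦ
    h₀ j₀ ρ₀ hh₀ hj₀ v hv h e ρe hh hje a
  by_cases ha : a = 0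
  · subst ha
    intro h' j' ρ' hh' hj' δ
    haveI := hB.galΩ
    haveI := hB.galΛ
    haveI := hB.scΛ
    have hs : pA (0 : k) = HahnSeries.single (1 : ℤ) (1 : k) := by
      unfold pA; rw [map_zero, zero_add]
    have hg : (HahnSeries.single (m : ℤ) (1 : k) : LaurentSeries k) ≠ 0 := by
      simp
    have hgo : (HahnSeries.single (m : ℤ) (1 : k) : LaurentSeries k).order = m :=
      HahnSeries.order_single one_ne_zero
    obtain ⟨σ, hσ1, hσ2, -⟩ := hSub k (HahnSeries.single (m : ℤ) (1 : k)) hg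
      (by rw [hgo]; exact_mod_cast hm)
    obtain ⟨⟨jσ, ρσ, hjσ⟩, -⟩ := hPl (LaurentSeries k) (LaurentSeries k) Λ Λ σ
    obtain ⟨hc1, -, -⟩ := hCp
    obtain ⟨-, huniq, -, hcomp⟩ := hH k
    have hX1 : IsH (h'.comp h) ((X ^ m : k[X]).eval₂ HahnSeries.C (pA (0 : k))) :=
      hcomp (X ^ m) (pA 0) h h' hh hh'
    have hpow : ((X ^ m : k[X]).eval₂ HahnSeries.C (pA (0 : k))) =
        (HahnSeries.single (m : ℤ) (1 : k) : LaurentSeries k) := by
      rw [eval₂_pow, eval₂_X, hs, HahnSeries.single_pow]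
      simp
    have hX2 : IsH (σ.comp h₀) (HahnSeries.single (m : ℤ) (1 : k) : LaurentSeries k) := by
      constructor
      · intro c
        rw [RingHom.comp_apply, hh₀.cst, hσ1]
      · rw [RingHom.comp_apply, hh₀.X, hs, hσ2]
    have heq : h'.comp h = σ.comp h₀ := huniq _ _ _ (hpow ▸ hX1) hX2
    have hA1 : Comp (h'.comp h) (j'.comp e) (ρe.comp ρ') :=
      hc1 _ _ _ _ _ _ h h' e j' ρe ρ' hje hj'
    rw [heq] at hA1
    have hA2 : Comp (σ.comp h₀) (jσ.comp j₀) (ρ₀.comp ρσ) :=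
      hc1 _ _ _ _ _ _ h₀ σ j₀ jσ ρ₀ ρσ hj₀ hjσ
    obtain ⟨-, hconj⟩ := hPl (RatFunc k) (LaurentSeries k) Ω Λ (σ.comp h₀)
    obtain ⟨γ₀, -, hγ⟩ := hconj _ _ _ _ hA2 hA1
    have hγδ := hγ δ
    have hfix : (ρσ δ) t = t := by
      apply jσ.injective
      rw [hjσ.res]
      obtain ⟨q, rfl⟩ := hrm
      apply VBc0_fix hr.pos hTm.prim (jσ t) (HahnSeries.single (q : ℤ) (1 : k))
      · simp
      · rw [← map_pow, hTm.root, hjσ.alg, hσ2, ← map_pow, HahnSeries.single_pow]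
        simp
    have h1 : Φ (ρ₀ (ρσ δ)) = 1 := by
      have := hv (ρσ δ) 0 (by
        rw [hfix, pow_zero]
        simp [cΛ])
      rw [this, pow_zero, map_one]
    show Φ (ρe (ρ' δ)) = 1
    have h2 : ρe (ρ' δ) = γ₀⁻¹ * ρ₀ (ρσ δ) * γ₀ := hγδ
    rw [h2, map_mul, map_mul, h1, mul_one, ← map_mul, inv_mul_cancel, map_one]
  · apply hBcU k p Ω Λ hI jI ρI hB G Φ (X ^ m) (by simpa using hm) h e ρe hh hje a
    apply hΦ
    rw [eval_pow, eval_X]
    exact pow_ne_zero _ ha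

end MP7b0bad.SV
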