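import Mathlib

set_option autoImplicit false

/-!
# Galois formalism for the inertia conjecture with tame part

`Ω` a separable closure of `k(x)`, `Λ` a separable closure of `k((s))`. A cover is a continuous
homomorphism `Φ : Gal(Ω / k(x)) → G`; places are homomorphisms `j : Ω → Λ` over
`h : k(x) → k((s))`, with the restriction `ρ : Gal(Λ / k((s))) → Gal(Ω / k(x))`.
-/

namespace MP7b0bad.SV

open Polynomial

/-- continuity of a homomorphism from a Galois group -/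
def Cts {F Ω : Type} [Field F] [Field Ω] [Algebra F Ω] {G : Type} [Group G]
    (Φ : (Ω ≃ₐ[F] Ω) →* G) : Prop :=
  ∃ S : Finset Ω, ∀ γ : Ω ≃ₐ[F] Ω, (∀ x ∈ S, γ x = x) → Φ γ = 1

/-- `j : Ω₁ → Ω₂` over `h : F₁ → F₂` with the restriction `ρ` of automorphisms -/
structure Comp {F₁ F₂ Ω₁ Ω₂ : Type} [Field F₁] [Field F₂] [Field Ω₁] [Field Ω₂] [Algebra F₁ Ω₁]
    [Algebra F₂ Ω₂] (h : F₁ →+* F₂) (j : Ω₁ →+* Ω₂)
    (ρ : (Ω₂ ≃ₐ[F₂] Ω₂) →* (Ω₁ ≃ₐ[F₁] Ω₁)) : Prop where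
  alg : ∀ a : F₁, j (algebraMap F₁ Ω₁ a) = algebraMap F₂ Ω₂ (h a)
  res : ∀ (δ : Ω₂ ≃ₐ[F₂] Ω₂) (x : Ω₁), j (ρ δ x) = δ (j x)

/-- `h : k(x) → k((s))` over `k` with `x ↦ u` -/
structure IsH {k : Type} [Field k] (h : RatFunc k →+* LaurentSeries k) (u : LaurentSeries k) :
    Prop where
  cst : ∀ c : k, h (RatFunc.C c) = HahnSeries.C c
  X : h RatFunc.X = u

/-- `h : k(y) → k(x)` over `k` with `y ↦ f(x)` -/
structure IsR {k : Type} [Field k] (h : RatFunc k →+* RatFunc k) (f : k[X]) : Prop where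
  cst : ∀ c : k, h (RatFunc.C c) = RatFunc.C c
  X : h RatFunc.X = algebraMap k[X] (RatFunc k) f

/-- the parameter at `x = a` -/
noncomputable def pA {k : Type} [Field k] (a : k) : LaurentSeries k :=
  HahnSeries.C a + HahnSeries.single (1 : ℤ) (1 : k)

/-- the parameter at infinity -/
noncomputable def pI (k : Type) [Field k] : LaurentSeries k := HahnSeries.single (-1 : ℤ) (1 : k)

/-- `Φ` is trivial at the places over `x = a` -/
def UnrAt {k Ω Λ : Type} [Field k] [Field Ω] [Algebra (RatFunc k) Ω] [Field Λ]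
    [Algebra (LaurentSeries k) Λ] {G : Type} [Group G] (Φ : (Ω ≃ₐ[RatFunc k] Ω) →* G) (a : k) :
    Prop :=
  ∀ (h : RatFunc k →+* LaurentSeries k) (j : Ω →+* Λ)
    (ρ : (Λ ≃ₐ[LaurentSeries k] Λ) →* (Ω ≃ₐ[RatFunc k] Ω)), IsH h (pA a) → Comp h j ρ →
    ∀ δ : Λ ≃ₐ[LaurentSeries k] Λ, Φ (ρ δ) = 1

/-- a cover: continuous, surjective, unramified over the affine line, with decomposition group
`G₀` at the place `ρ` over infinity -/
structure Cov {k Ω : Type} (Λ : Type) [Field k] [Field Ω] [Algebra (RatFunc k) Ω] [Field Λ]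
    [Algebra (LaurentSeries k) Λ] {G : Type} [Group G] (Φ : (Ω ≃ₐ[RatFunc k] Ω) →* G)
    (ρ : (Λ ≃ₐ[LaurentSeries k] Λ) →* (Ω ≃ₐ[RatFunc k] Ω)) (G₀ : Subgroup G) : Prop where
  cts : Cts Φ
  surj : Function.Surjective Φ
  unr : ∀ a : k, UnrAt (Λ := Λ) Φ a
  inf : (Φ.comp ρ).range = G₀

/-- an abelian normal subgroup of exponent `r`: `i : A → G` injective, `act` the conjugation -/
structure AbK (r : ℕ) {G A : Type} [Group G] [CommGroup A] (i : A →* G) (act : G →* MulAut A) :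
    Prop where
  inj : Function.Injective i
  conj : ∀ (g : G) (a : A), i (act g a) = g * i a * g⁻¹
  exp : ∀ a : A, a ^ r = 1

/-- `Φ' = Φ` modulo `A` -/
def Eqv {Γ G A : Type} [Group Γ] [Group G] [CommGroup A] (i : A →* G) (Φ Φ' : Γ →* G) : Prop :=
  ∀ γ, ∃ a : A, Φ' γ = i a * Φ γ

/-- the base fields: `k` algebraically closed of characteristic `p`, `Ω` and `Λ` separable closures
of `k(x)` and `k((s))`, and a place over infinity -/
structure Base (k : Type) [Field k] (p : ℕ) (Ω Λ : Type) [Field Ω] [Algebra (RatFunc k) Ω]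
    [Field Λ] [Algebra (LaurentSeries k) Λ] (hI : RatFunc k →+* LaurentSeries k) (jI : Ω →+* Λ)
    (ρI : (Λ ≃ₐ[LaurentSeries k] Λ) →* (Ω ≃ₐ[RatFunc k] Ω)) : Prop where
  ac : IsAlgClosed k
  ch : CharP k p
  pr : p.Prime
  galΩ : IsGalois (RatFunc k) Ω
  scΩ : IsSepClosed Ω
  galΛ : IsGalois (LaurentSeries k) Λ
  scΛ : IsSepClosed Λ
  isH : IsH hI (pI k)
  comp : Comp hI jI ρI

end MP7b0bad.SV
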