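import Pool.Agent.Work.MP_7b0bad_ag.Bd.B12
import Pool.Agent.Work.MP_7b0bad_ag.SV.VDefs

set_option autoImplicit false

/-!
# Statements of the Galois part (block SV)
-/

namespace MP7b0bad.SV

open Polynomial

/-- the constant `c` in `Λ` -/
noncomputable def cΛ {k : Type} [Field k] (Λ : Type) [Field Λ] [Algebra (LaurentSeries k) Λ]
    (c : k) : Λ := algebraMap (LaurentSeries k) Λ (HahnSeries.C c)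

/-- the image of a Laurent series in `Λ` -/
noncomputable abbrev lΛ {k : Type} [Field k] (Λ : Type) [Field Λ] [Algebra (LaurentSeries k) Λ]
    (a : LaurentSeries k) : Λ := algebraMap (LaurentSeries k) Λ a

/-! ## Galois theory -/

/-- existence and conjugacy of places -/
def VPl : Prop := ∀ (F₁ F₂ Ω₁ Ω₂ : Type) [Field F₁] [Field F₂] [Field Ω₁] [Field Ω₂]
  [Algebra F₁ Ω₁] [Algebra F₂ Ω₂] [IsGalois F₁ Ω₁] [IsGalois F₂ Ω₂] [IsSepClosed Ω₂]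
  (h : F₁ →+* F₂),
  (∃ (j : Ω₁ →+* Ω₂) (ρ : (Ω₂ ≃ₐ[F₂] Ω₂) →* (Ω₁ ≃ₐ[F₁] Ω₁)), Comp h j ρ) ∧
  ∀ (j j' : Ω₁ →+* Ω₂) (ρ ρ' : (Ω₂ ≃ₐ[F₂] Ω₂) →* (Ω₁ ≃ₐ[F₁] Ω₁)), Comp h j ρ → Comp h j' ρ' →
    ∃ γ₀ : Ω₁ ≃ₐ[F₁] Ω₁, (∀ x, j' x = j (γ₀ x)) ∧ ∀ δ, ρ' δ = γ₀⁻¹ * ρ δ * γ₀

/-- composition of places and continuity -/
def VCp : Prop := (∀ (F₁ F₂ F₃ Ω₁ Ω₂ Ω₃ : Type) [Field F₁] [Field F₂] [Field F₃] [Field Ω₁]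
    [Field Ω₂] [Field Ω₃] [Algebra F₁ Ω₁] [Algebra F₂ Ω₂] [Algebra F₃ Ω₃] (h : F₁ →+* F₂)
    (h' : F₂ →+* F₃) (j : Ω₁ →+* Ω₂) (j' : Ω₂ →+* Ω₃)
    (ρ : (Ω₂ ≃ₐ[F₂] Ω₂) →* (Ω₁ ≃ₐ[F₁] Ω₁)) (ρ' : (Ω₃ ≃ₐ[F₃] Ω₃) →* (Ω₂ ≃ₐ[F₂] Ω₂)),
    Comp h j ρ → Comp h' j' ρ' → Comp (h'.comp h) (j'.comp j) (ρ.comp ρ')) ∧
  (∀ (F₁ F₂ Ω₁ Ω₂ : Type) [Field F₁] [Field F₂] [Field Ω₁] [Field Ω₂]
    [Algebra F₁ Ω₁] [Algebra F₂ Ω₂] (h : F₁ →+* F₂) (j : Ω₁ →+* Ω₂)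
    (ρ : (Ω₂ ≃ₐ[F₂] Ω₂) →* (Ω₁ ≃ₐ[F₁] Ω₁)), Comp h j ρ →
    ∀ (G : Type) [Group G] (Φ : (Ω₁ ≃ₐ[F₁] Ω₁) →* G), Cts Φ → Cts (Φ.comp ρ)) ∧
  ∀ (F Ω : Type) [Field F] [Field Ω] [Algebra F Ω] (G G' : Type) [Group G] [Group G']
    (Φ : (Ω ≃ₐ[F] Ω) →* G) (q : G →* G'), Cts Φ → Cts (q.comp Φ)

/-- homomorphisms `k(x) → k((s))` and `k(y) → k(x)` -/
def VH : Prop := ∀ (k : Type) [Field k],
  (∀ u : LaurentSeries k, (∀ c : k, u ≠ HahnSeries.C c) →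
    ∃ h : RatFunc k →+* LaurentSeries k, IsH h u) ∧
  (∀ (u : LaurentSeries k) (h h' : RatFunc k →+* LaurentSeries k), IsH h u → IsH h' u → h = h') ∧
  (∀ f : k[X], 0 < f.natDegree → ∃ h : RatFunc k →+* RatFunc k, IsR h f) ∧
  ∀ (f : k[X]) (u : LaurentSeries k) (h : RatFunc k →+* RatFunc k)
    (h' : RatFunc k →+* LaurentSeries k), IsR h f → IsH h' u →
    IsH (h'.comp h) (f.eval₂ HahnSeries.C u)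

/-- substitution `s ↦ g` -/
def VSub : Prop := ∀ (k : Type) [Field k] (g : LaurentSeries k), g ≠ 0 → 0 < g.order →
  ∃ σ : LaurentSeries k →+* LaurentSeries k, (∀ c : k, σ (HahnSeries.C c) = HahnSeries.C c) ∧
    σ (HahnSeries.single (1 : ℤ) (1 : k)) = g ∧
    ∀ a : LaurentSeries k, a ≠ 0 → (σ a).order = g.order * a.order

/-- Hilbert 90 -/
def VKum : Prop := ∀ (F Ω : Type) [Field F] [Field Ω] [Algebra F Ω] [IsGalois F Ω]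
  (χ : (Ω ≃ₐ[F] Ω) →* Fˣ), Cts χ →
  ∃ y : Ω, y ≠ 0 ∧ ∀ γ : Ω ≃ₐ[F] Ω, γ y = algebraMap F Ω ((χ γ : Fˣ) : F) * y

/-- the field of a homomorphism -/
def VFld : Prop := ∀ (F Ω : Type) [Field F] [Field Ω] [Algebra F Ω] [IsGalois F Ω] (G : Type)
  [Group G] [Finite G] (Φ : (Ω ≃ₐ[F] Ω) →* G), Cts Φ → Function.Surjective Φ →
  ∃ (L : Type) (_ : Field L) (_ : Algebra F L) (_ : MulSemiringAction G L) (β : L →+* Ω),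
    GalAlg F G L ∧ (∀ a, β (algebraMap F L a) = algebraMap F Ω a) ∧
    (∀ (γ : Ω ≃ₐ[F] Ω) (x : L), γ (β x) = β (Φ γ • x)) ∧
    ∀ y : Ω, (∀ γ : Ω ≃ₐ[F] Ω, Φ γ = 1 → γ y = y) → ∃ x, β x = y

/-- the homomorphism of a Galois extension -/
def VHom : Prop := ∀ (F Ω : Type) [Field F] [Field Ω] [Algebra F Ω] [IsGalois F Ω] [IsSepClosed Ω]
  (G : Type) [Group G] [Finite G] (L : Type) [Field L] [Algebra F L] [MulSemiringAction G L],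
  GalAlg F G L → ∃ (β : L →+* Ω) (Φ : (Ω ≃ₐ[F] Ω) →* G), Cts Φ ∧ Function.Surjective Φ ∧
    (∀ a, β (algebraMap F L a) = algebraMap F Ω a) ∧
    ∀ (γ : Ω ≃ₐ[F] Ω) (x : L), γ (β x) = β (Φ γ • x)

/-! ## Covers -/

/-- `Rel` gives a cover -/
def VRC : Prop := ∀ (k : Type) [Field k] (p : ℕ) (Ω Λ : Type) [Field Ω] [Algebra (RatFunc k) Ω]
  [Field Λ] [Algebra (LaurentSeries k) Λ] (hI : RatFunc k →+* LaurentSeries k) (jI : Ω →+* Λ)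
  (ρI : (Λ ≃ₐ[LaurentSeries k] Λ) →* (Ω ≃ₐ[RatFunc k] Ω)), Base k p Ω Λ hI jI ρI →
  ∀ (G : Type) [Group G] [Finite G] (G₀ : Subgroup G), Rel k G G₀ →
  ∃ Φ : (Ω ≃ₐ[RatFunc k] Ω) →* G, Cov Λ Φ ρI G₀

/-- the ring of an unramified homomorphism -/
def VRg : Prop := ∀ (k : Type) [Field k] (p : ℕ) (Ω Λ : Type) [Field Ω] [Algebra (RatFunc k) Ω]
  [Field Λ] [Algebra (LaurentSeries k) Λ] (hI : RatFunc k →+* LaurentSeries k) (jI : Ω →+* Λ)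
  (ρI : (Λ ≃ₐ[LaurentSeries k] Λ) →* (Ω ≃ₐ[RatFunc k] Ω)), Base k p Ω Λ hI jI ρI →
  ∀ (G : Type) [Group G] [Finite G] (Φ : (Ω ≃ₐ[RatFunc k] Ω) →* G), Cts Φ →
  Function.Surjective Φ → (∀ a : k, UnrAt (Λ := Λ) Φ a) →
  ∃ (B : Type) (_ : CommRing B) (_ : Algebra k[X] B) (_ : MulSemiringAction G B) (β : B →+* Ω),
    GalAlg k[X] G B ∧ IsDomain B ∧ Function.Injective β ∧
    (∀ a : k[X], β (algebraMap k[X] B a) =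
      algebraMap (RatFunc k) Ω (algebraMap k[X] (RatFunc k) a)) ∧
    ∀ (γ : Ω ≃ₐ[RatFunc k] Ω) (b : B), γ (β b) = β (Φ γ • b)

/-- a cover gives `Rel` -/
def VCR : Prop := ∀ (k : Type) [Field k] (p : ℕ) (Ω Λ : Type) [Field Ω] [Algebra (RatFunc k) Ω]
  [Field Λ] [Algebra (LaurentSeries k) Λ] (hI : RatFunc k →+* LaurentSeries k) (jI : Ω →+* Λ)
  (ρI : (Λ ≃ₐ[LaurentSeries k] Λ) →* (Ω ≃ₐ[RatFunc k] Ω)), Base k p Ω Λ hI jI ρI →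
  ∀ (G : Type) [Group G] [Finite G] (G₀ : Subgroup G) (Φ : (Ω ≃ₐ[RatFunc k] Ω) →* G),
  Cov Λ Φ ρI G₀ → Rel k G G₀

/-- finitely many ramified points -/
def VRam : Prop := ∀ (k : Type) [Field k] (p : ℕ) (Ω Λ : Type) [Field Ω] [Algebra (RatFunc k) Ω]
  [Field Λ] [Algebra (LaurentSeries k) Λ] (hI : RatFunc k →+* LaurentSeries k) (jI : Ω →+* Λ)
  (ρI : (Λ ≃ₐ[LaurentSeries k] Λ) →* (Ω ≃ₐ[RatFunc k] Ω)), Base k p Ω Λ hI jI ρI →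
  ∀ (G : Type) [Group G] [Finite G] (Φ : (Ω ≃ₐ[RatFunc k] Ω) →* G), Cts Φ →
  ∃ Z : Finset k, ∀ a ∉ Z, UnrAt (Λ := Λ) Φ a

/-- unramified at `a`: trivial at all places with parameter `a + g`, `g(0) = 0` -/
def VUp : Prop := ∀ (k : Type) [Field k] (p : ℕ) (Ω Λ : Type) [Field Ω] [Algebra (RatFunc k) Ω]
  [Field Λ] [Algebra (LaurentSeries k) Λ] (hI : RatFunc k →+* LaurentSeries k) (jI : Ω →+* Λ)
  (ρI : (Λ ≃ₐ[LaurentSeries k] Λ) →* (Ω ≃ₐ[RatFunc k] Ω)), Base k p Ω Λ hI jI ρI →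
  ∀ (G : Type) [Group G] (Φ : (Ω ≃ₐ[RatFunc k] Ω) →* G) (a : k), UnrAt (Λ := Λ) Φ a →
  ∀ g : LaurentSeries k, g ≠ 0 → 0 < g.order → ∀ (h : RatFunc k →+* LaurentSeries k)
    (j : Ω →+* Λ) (ρ : (Λ ≃ₐ[LaurentSeries k] Λ) →* (Ω ≃ₐ[RatFunc k] Ω)),
    IsH h (HahnSeries.C a + g) → Comp h j ρ → ∀ δ : Λ ≃ₐ[LaurentSeries k] Λ, Φ (ρ δ) = 1

/-- no unramified abelian covers of the line of degree prime to `p` -/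
def VNaq : Prop := ∀ (k : Type) [Field k] (p : ℕ) (Ω Λ : Type) [Field Ω] [Algebra (RatFunc k) Ω]
  [Field Λ] [Algebra (LaurentSeries k) Λ] (hI : RatFunc k →+* LaurentSeries k) (jI : Ω →+* Λ)
  (ρI : (Λ ≃ₐ[LaurentSeries k] Λ) →* (Ω ≃ₐ[RatFunc k] Ω)), Base k p Ω Λ hI jI ρI →
  ∀ (A : Type) [CommGroup A] [Finite A], ¬ p ∣ Nat.card A →
  ∀ χ : (Ω ≃ₐ[RatFunc k] Ω) →* A, Cts χ → (∀ a : k, UnrAt (Λ := Λ) χ a) → χ = 1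

/-- base change by a polynomial -/
def VBcU : Prop := ∀ (k : Type) [Field k] (p : ℕ) (Ω Λ : Type) [Field Ω] [Algebra (RatFunc k) Ω]
  [Field Λ] [Algebra (LaurentSeries k) Λ] (hI : RatFunc k →+* LaurentSeries k) (jI : Ω →+* Λ)
  (ρI : (Λ ≃ₐ[LaurentSeries k] Λ) →* (Ω ≃ₐ[RatFunc k] Ω)), Base k p Ω Λ hI jI ρI →
  ∀ (G : Type) [Group G] (Φ : (Ω ≃ₐ[RatFunc k] Ω) →* G) (f : k[X]), 0 < f.natDegree →
  ∀ (h : RatFunc k →+* RatFunc k) (e : Ω →+* Ω)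
    (ρe : (Ω ≃ₐ[RatFunc k] Ω) →* (Ω ≃ₐ[RatFunc k] Ω)), IsR h f → Comp h e ρe →
  ∀ a : k, UnrAt (Λ := Λ) Φ (f.eval a) → UnrAt (Λ := Λ) (Φ.comp ρe) a

/-- base change at infinity: comparison of the places -/
def VBcI : Prop := ∀ (k : Type) [Field k] (p : ℕ) (Ω Λ : Type) [Field Ω] [Algebra (RatFunc k) Ω]
  [Field Λ] [Algebra (LaurentSeries k) Λ] (hI : RatFunc k →+* LaurentSeries k) (jI : Ω →+* Λ)
  (ρI : (Λ ≃ₐ[LaurentSeries k] Λ) →* (Ω ≃ₐ[RatFunc k] Ω)), Base k p Ω Λ hI jI ρI →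
  ∀ (f : k[X]) (h : RatFunc k →+* RatFunc k) (e : Ω →+* Ω)
    (ρe : (Ω ≃ₐ[RatFunc k] Ω) →* (Ω ≃ₐ[RatFunc k] Ω)), IsR h f → Comp h e ρe →
  ∀ (σ : LaurentSeries k →+* LaurentSeries k) (jσ : Λ →+* Λ)
    (ρσ : (Λ ≃ₐ[LaurentSeries k] Λ) →* (Λ ≃ₐ[LaurentSeries k] Λ)),
  (∀ c : k, σ (HahnSeries.C c) = HahnSeries.C c) → σ (pI k) = f.eval₂ HahnSeries.C (pI k) →
  Comp σ jσ ρσ →
  ∃ γ₀ : Ω ≃ₐ[RatFunc k] Ω, ∀ δ, ρe (ρI δ) = γ₀⁻¹ * ρI (ρσ δ) * γ₀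

/-! ## Local theory -/

/-- `t ^ n = s`, `ζ` a primitive `n`-th root of unity -/
structure Tm {k Λ : Type} [Field k] [Field Λ] [Algebra (LaurentSeries k) Λ] (n : ℕ) (ζ : k)
    (t : Λ) : Prop where
  prim : IsPrimitiveRoot ζ n
  root : t ^ n = lΛ Λ (HahnSeries.single (1 : ℤ) (1 : k))

/-- local extensions with solvable group are Laurent series fields -/
def VELS : Prop := ∀ (k : Type) [Field k] [IsAlgClosed k] (p : ℕ) [Fact p.Prime] [CharP k p]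
  (Γ : Type) [Group Γ] [Finite Γ], Group.IsSolvable Γ → ∀ (E : Type) [CommRing E]
  [Algebra (LaurentSeries k) E] [MulSemiringAction Γ E], GalAlg (LaurentSeries k) Γ E →
  IsDomain E → ∃ φ : E ≃+* LaurentSeries k,
    (∀ c : k, φ (algebraMap (LaurentSeries k) E (HahnSeries.C c)) = HahnSeries.C c) ∧
    ∀ a : LaurentSeries k, a ≠ 0 →
      (φ (algebraMap (LaurentSeries k) E a)).order = Nat.card Γ * a.order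

/-- tame characters -/
def VLT : Prop := ∀ (k : Type) [Field k] [IsAlgClosed k] (p : ℕ) [Fact p.Prime] [CharP k p]
  (Λ : Type) [Field Λ] [Algebra (LaurentSeries k) Λ] [IsGalois (LaurentSeries k) Λ]
  [IsSepClosed Λ] (n : ℕ) (ζ : k), 0 < n → ¬ p ∣ n → IsPrimitiveRoot ζ n →
  (∃ t : Λ, Tm n ζ t) ∧ ∀ t : Λ, Tm n ζ t →
  (∃ τ : Λ ≃ₐ[LaurentSeries k] Λ, τ t = cΛ Λ ζ * t) ∧
  (∀ δ : Λ ≃ₐ[LaurentSeries k] Λ, ∃ m : ℕ, δ t = cΛ Λ (ζ ^ m) * t) ∧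
  ∀ (A : Type) [CommGroup A] [Finite A] (c : (Λ ≃ₐ[LaurentSeries k] Λ) →* A), Cts c →
    (∀ a : A, a ^ n = 1) → ∃ a : A, ∀ (δ : Λ ≃ₐ[LaurentSeries k] Λ) (m : ℕ),
      δ t = cΛ Λ (ζ ^ m) * t → c δ = a ^ m

/-- after a tame extension the image of a local homomorphism is a `p`-group -/
def VLW : Prop := ∀ (k : Type) [Field k] [IsAlgClosed k] (p : ℕ) [Fact p.Prime] [CharP k p]
  (Λ : Type) [Field Λ] [Algebra (LaurentSeries k) Λ] [IsGalois (LaurentSeries k) Λ]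
  [IsSepClosed Λ] (D : Type) [Group D] [Finite D], Group.IsSolvable D →
  ∀ Ψ : (Λ ≃ₐ[LaurentSeries k] Λ) →* D, Cts Ψ →
  ∃ n : ℕ, 0 < n ∧ ¬ p ∣ n ∧ ∀ (N : ℕ) (t : Λ), n ∣ N → 0 < N → ¬ p ∣ N →
    t ^ N = lΛ Λ (HahnSeries.single (1 : ℤ) (1 : k)) →
    IsPGroup p ((MulAction.stabilizer (Λ ≃ₐ[LaurentSeries k] Λ) t).map Ψ)

/-- the subgroup of a tame base change -/
def VSt : Prop := ∀ (k : Type) [Field k] [IsAlgClosed k] (p : ℕ) [Fact p.Prime] [CharP k p]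
  (Λ : Type) [Field Λ] [Algebra (LaurentSeries k) Λ] [IsGalois (LaurentSeries k) Λ]
  [IsSepClosed Λ] (m : ℕ), 0 < m → ¬ p ∣ m → ∀ t : Λ,
  t ^ m = lΛ Λ (HahnSeries.single (1 : ℤ) (1 : k)) →
  ∀ (σ : LaurentSeries k →+* LaurentSeries k) (jσ : Λ →+* Λ)
    (ρσ : (Λ ≃ₐ[LaurentSeries k] Λ) →* (Λ ≃ₐ[LaurentSeries k] Λ)),
  (∀ c : k, σ (HahnSeries.C c) = HahnSeries.C c) →
  σ (HahnSeries.single (1 : ℤ) (1 : k)) = HahnSeries.single (m : ℤ) (1 : k) →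
  Comp σ jσ ρσ → ρσ.range = MulAction.stabilizer (Λ ≃ₐ[LaurentSeries k] Λ) t

/-- tame base change of `P⟨c⟩` -/
def VStI : Prop := ∀ (k : Type) [Field k] [IsAlgClosed k] (p : ℕ) [Fact p.Prime] [CharP k p]
  (Λ : Type) [Field Λ] [Algebra (LaurentSeries k) Λ] [IsGalois (LaurentSeries k) Λ]
  [IsSepClosed Λ] (m : ℕ), 0 < m → ¬ p ∣ m → ∀ t : Λ,
  t ^ m = lΛ Λ (HahnSeries.single (1 : ℤ) (1 : k)) →
  ∀ (G : Type) [Group G] [Finite G] (P : Subgroup G) (c : G), IsPGroup p P →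
  (∀ u ∈ P, c * u * c⁻¹ ∈ P) → ¬ p ∣ orderOf c →
  ∀ Ψ : (Λ ≃ₐ[LaurentSeries k] Λ) →* G, Cts Ψ → Ψ.range = P ⊔ Subgroup.zpowers c →
  (MulAction.stabilizer (Λ ≃ₐ[LaurentSeries k] Λ) t).map Ψ = P ⊔ Subgroup.zpowers (c ^ m)

/-- local groups that are `P⟨c⟩` modulo a central subgroup -/
def VCyc : Prop := ∀ (k : Type) [Field k] [IsAlgClosed k] (p : ℕ) [Fact p.Prime] [CharP k p]
  (Λ : Type) [Field Λ] [Algebra (LaurentSeries k) Λ] [IsGalois (LaurentSeries k) Λ]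
  [IsSepClosed Λ] (G : Type) [Group G] [Finite G] (P Z : Subgroup G) (c : G), IsPGroup p P →
  (∀ u ∈ P, c * u * c⁻¹ ∈ P) → ¬ p ∣ orderOf c → Z ≤ Subgroup.center G → ¬ p ∣ Nat.card Z →
  ∀ Ψ : (Λ ≃ₐ[LaurentSeries k] Λ) →* G, Cts Ψ → Ψ.range ⊔ Z = P ⊔ Subgroup.zpowers c ⊔ Z →
  ∃ z ∈ Z, Ψ.range = P ⊔ Subgroup.zpowers (c * z)

/-- homomorphisms onto `p`-groups that are equal modulo `A` -/
def VPc : Prop := ∀ (p r : ℕ) [Fact p.Prime] (Γ G A : Type) [Group Γ] [Group G] [Finite G]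
  [CommGroup A] [Finite A] (i : A →* G) (act : G →* MulAut A), r.Prime → r ≠ p → AbK r i act →
  ∀ Ψ Ψ' : Γ →* G, IsPGroup p Ψ.range → IsPGroup p Ψ'.range → Eqv i Ψ Ψ' →
  ∃ b : A, ∀ δ, Ψ' δ = (i b)⁻¹ * Ψ δ * i b

/-- local lifting with group `P⟨c⟩` -/
def VLL : Prop := ∀ (k : Type) [Field k] [IsAlgClosed k] (p r : ℕ) [Fact p.Prime] [CharP k p]
  (Λ : Type) [Field Λ] [Algebra (LaurentSeries k) Λ] [IsGalois (LaurentSeries k) Λ]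
  [IsSepClosed Λ], r.Prime → r ≠ p → ∀ (G Q : Type) [Group G] [Finite G] [Group Q] (q : G →* Q)
  (P : Subgroup G) (c : G), (∀ a b : G, q a = 1 → q b = 1 → a * b = b * a) →
  (∀ a : G, q a = 1 → a ^ r = 1) → IsPGroup p P → (∀ u ∈ P, c * u * c⁻¹ ∈ P) →
  ¬ p ∣ orderOf c → ∀ φ : (Λ ≃ₐ[LaurentSeries k] Λ) →* Q, Cts φ →
  φ.range = (P ⊔ Subgroup.zpowers c).map q →
  ∃ Ψ : (Λ ≃ₐ[LaurentSeries k] Λ) →* G, Cts Ψ ∧ Ψ.range = P ⊔ Subgroup.zpowers c ∧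
    ∀ δ, q (Ψ δ) = φ δ

/-- local classes are Kummer classes -/
def VLS : Prop := ∀ (k : Type) [Field k] [IsAlgClosed k] (p r : ℕ) [Fact p.Prime] [CharP k p]
  (Λ : Type) [Field Λ] [Algebra (LaurentSeries k) Λ] [IsGalois (LaurentSeries k) Λ]
  [IsSepClosed Λ] (ζ : k), r.Prime → r ≠ p → IsPrimitiveRoot ζ r →
  ∀ (G A Q : Type) [Group G] [Finite G] [CommGroup A] [Finite A] [Group Q] [Fintype Q]
  (i : A →* G) (act : G →* MulAut A) (q : G →* Q), AbK r i act →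
  (∀ g : G, q g = 1 ↔ g ∈ i.range) → ∀ Ψ Ψ₁ : (Λ ≃ₐ[LaurentSeries k] Λ) →* G, Cts Ψ → Cts Ψ₁ →
  Group.IsSolvable Ψ.range → Group.IsSolvable Ψ₁.range → (∀ δ, q (Ψ δ) = q (Ψ₁ δ)) →
  ∀ g : Q → G, (∀ c, q (g c) = c) →
  ∃ (m b : A) (e w : Q → Λ), (∀ c, e c ≠ 0) ∧ (∀ c, w c ^ r = e c) ∧
    (∀ (δ : Λ ≃ₐ[LaurentSeries k] Λ) c, δ (e c) = e (q (Ψ₁ δ) * c)) ∧
    ∀ (δ : Λ ≃ₐ[LaurentSeries k] Λ) (ε : Q → ℕ),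
      (∀ c, δ (w c) = cΛ Λ (ζ ^ ε c) * w (q (Ψ₁ δ) * c)) →
      Ψ δ = i (act (Ψ₁ δ) b * b⁻¹ * ∏ c, act (Ψ₁ δ * g c) m ^ ε c) * Ψ₁ δ

/-! ## Twisting by Kummer classes -/

/-- the twist by the class of `F ⊗ m` -/
def VTw : Prop := ∀ (k Ω : Type) [Field k] [Field Ω] [Algebra (RatFunc k) Ω]
  [IsGalois (RatFunc k) Ω] [IsSepClosed Ω] (r : ℕ) (ζ : k), (r : k) ≠ 0 → IsPrimitiveRoot ζ r →
  ∀ (G A Q : Type) [Group G] [Finite G] [CommGroup A] [Finite A] [Group Q] [Fintype Q]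
  (i : A →* G) (act : G →* MulAut A) (q : G →* Q), AbK r i act →
  (∀ g : G, q g = 1 ↔ g ∈ i.range) → ∀ Φ : (Ω ≃ₐ[RatFunc k] Ω) →* G, Cts Φ →
  ∀ s : Q → (Ω ≃ₐ[RatFunc k] Ω), (∀ c, q (Φ (s c)) = c) → ∀ (F : Ω) (m : A), F ≠ 0 →
  (∀ γ : Ω ≃ₐ[RatFunc k] Ω, q (Φ γ) = 1 → γ F = F) →
  ∃ Φ' : (Ω ≃ₐ[RatFunc k] Ω) →* G, Cts Φ' ∧ Eqv i Φ Φ' ∧
    ∀ (Λ : Type) [Field Λ] [Algebra (LaurentSeries k) Λ] (h : RatFunc k →+* LaurentSeries k)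
      (j : Ω →+* Λ) (ρ : (Λ ≃ₐ[LaurentSeries k] Λ) →* (Ω ≃ₐ[RatFunc k] Ω)), Comp h j ρ →
      (∀ c : k, h (RatFunc.C c) = HahnSeries.C c) →
      ∀ e y w : Q → Λ, (∀ c, y c ≠ 0) → (∀ c, w c ^ r = e c) →
      (∀ c, j (s c F) = e c * y c ^ r) →
      (∀ (δ : Λ ≃ₐ[LaurentSeries k] Λ) c, δ (y c) = y (q (Φ (ρ δ)) * c)) →
      ∃ b : A, ∀ (δ : Λ ≃ₐ[LaurentSeries k] Λ) (ε : Q → ℕ),
        (∀ c, δ (w c) = cΛ Λ (ζ ^ ε c) * w (q (Φ (ρ δ)) * c)) →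
        Φ' (ρ δ) =
          i (act (Φ (ρ δ)) b * b⁻¹ * ∏ c, act (Φ (ρ δ) * Φ (s c)) m ^ ε c) * Φ (ρ δ)

/-- characters ramified at one point -/
def VTwC : Prop := ∀ (k : Type) [Field k] (p : ℕ) (Ω Λ : Type) [Field Ω] [Algebra (RatFunc k) Ω]
  [Field Λ] [Algebra (LaurentSeries k) Λ] (hI : RatFunc k →+* LaurentSeries k) (jI : Ω →+* Λ)
  (ρI : (Λ ≃ₐ[LaurentSeries k] Λ) →* (Ω ≃ₐ[RatFunc k] Ω)), Base k p Ω Λ hI jI ρI →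
  ∀ (r : ℕ) (ζ : k) (t : Λ), r.Prime → r ≠ p → Tm r ζ t → ∀ (A : Type) [CommGroup A] [Finite A],
  (∀ a : A, a ^ r = 1) → ∀ (a₁ : k) (m : A), ∃ κ : (Ω ≃ₐ[RatFunc k] Ω) →* A, Cts κ ∧
    (∀ a : k, a ≠ a₁ → UnrAt (Λ := Λ) κ a) ∧
    ∀ (h : RatFunc k →+* LaurentSeries k) (j : Ω →+* Λ)
      (ρ : (Λ ≃ₐ[LaurentSeries k] Λ) →* (Ω ≃ₐ[RatFunc k] Ω)), IsH h (pA a₁) → Comp h j ρ →
      ∀ (δ : Λ ≃ₐ[LaurentSeries k] Λ) (n : ℕ), δ t = cΛ Λ (ζ ^ n) * t → κ (ρ δ) = m ^ n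

/-- the tame value `a` of `Φ` at the place `ρ` -/
def LV {k Ω Λ : Type} [Field k] [Field Ω] [Algebra (RatFunc k) Ω] [Field Λ]
    [Algebra (LaurentSeries k) Λ] {G A : Type} [Group G] [CommGroup A] (ζ : k) (t : Λ)
    (i : A →* G) (Φ : (Ω ≃ₐ[RatFunc k] Ω) →* G)
    (ρ : (Λ ≃ₐ[LaurentSeries k] Λ) →* (Ω ≃ₐ[RatFunc k] Ω)) (a : A) : Prop :=
  ∀ (δ : Λ ≃ₐ[LaurentSeries k] Λ) (n : ℕ), δ t = cΛ Λ (ζ ^ n) * t → Φ (ρ δ) = i (a ^ n)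

/-- existence of the tame value; the value `1` means unramified -/
def VLv : Prop := ∀ (k : Type) [Field k] (p : ℕ) (Ω Λ : Type) [Field Ω] [Algebra (RatFunc k) Ω]
  [Field Λ] [Algebra (LaurentSeries k) Λ] (hI : RatFunc k →+* LaurentSeries k) (jI : Ω →+* Λ)
  (ρI : (Λ ≃ₐ[LaurentSeries k] Λ) →* (Ω ≃ₐ[RatFunc k] Ω)), Base k p Ω Λ hI jI ρI →
  ∀ (r : ℕ) (ζ : k) (t : Λ), r.Prime → r ≠ p → Tm r ζ t → ∀ (G A : Type) [Group G] [Finite G]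
  [CommGroup A] [Finite A] (i : A →* G), Function.Injective i → (∀ a : A, a ^ r = 1) →
  ∀ Φ : (Ω ≃ₐ[RatFunc k] Ω) →* G, Cts Φ → ∀ (a : k) (h : RatFunc k →+* LaurentSeries k)
  (j : Ω →+* Λ) (ρ : (Λ ≃ₐ[LaurentSeries k] Λ) →* (Ω ≃ₐ[RatFunc k] Ω)), IsH h (pA a) →
  Comp h j ρ → ((∀ δ, ∃ b : A, Φ (ρ δ) = i b) → ∃ v : A, LV ζ t i Φ ρ v) ∧
  (LV ζ t i Φ ρ 1 ↔ UnrAt (Λ := Λ) Φ a)

end MP7b0bad.SV
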