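import Mathlib
import Pool.Agent.Work.MP_7b0bad_ag.SV.VStmts

set_option autoImplicit false

/-!
# Block SV, item VCyc: local groups that are `P⟨c⟩` modulo a central subgroup
-/

namespace MP7b0bad.SV

open Pointwise

/-- `i + e j` prime to `t` -/
theorem VCyc_coprime (i e : ℤ) (h : IsCoprime i e) (t : ℕ) (ht : t ≠ 0) :
    ∃ j : ℤ, IsCoprime (i + e * j) (t : ℤ) := by
  classical
  refine ⟨∏ q ∈ t.primeFactors.filter (fun q : ℕ => ¬ (q : ℤ) ∣ i), ((q : ℕ) : ℤ), ?_⟩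
  rw [Int.isCoprime_iff_gcd_eq_one]
  by_contra hne
  obtain ⟨q, hq, hqd⟩ := Nat.exists_prime_and_dvd hne
  have hq1 : (q : ℤ) ∣ i + e * ∏ q ∈ t.primeFactors.filter (fun q : ℕ => ¬ (q : ℤ) ∣ i), ((q : ℕ) : ℤ) :=
    (Int.natCast_dvd_natCast.2 hqd).trans (Int.gcd_dvd_left _ _)
  have hq2 : (q : ℤ) ∣ (t : ℤ) := (Int.natCast_dvd_natCast.2 hqd).trans (Int.gcd_dvd_right _ _)
  have hqt : q ∣ t := Int.natCast_dvd_natCast.1 hq2
  have hqp : Prime (q : ℤ) := Nat.prime_iff_prime_int.1 hq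
  by_cases hi : (q : ℤ) ∣ i
  · have h1 : (q : ℤ) ∣ e * ∏ q ∈ t.primeFactors.filter (fun q : ℕ => ¬ (q : ℤ) ∣ i), ((q : ℕ) : ℤ) := by
      have := dvd_sub hq1 hi
      rwa [add_sub_cancel_left] at this
    rcases hqp.dvd_or_dvd h1 with h2 | h2
    · exact hqp.not_isUnit (h.isUnit_of_dvd' hi h2)
    · obtain ⟨r, hr, hqr⟩ := (Prime.dvd_finsetProd_iff hqp _).1 h2
      rw [Finset.mem_filter, Nat.mem_primeFactors] at hr
      have h3 : q = r := (Nat.prime_dvd_prime_iff_eq hq hr.1.1).1 (Int.natCast_dvd_natCast.1 hqr)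
      exact hr.2 (h3 ▸ hi)
  · have hm : q ∈ t.primeFactors.filter (fun q : ℕ => ¬ (q : ℤ) ∣ i) := by
      rw [Finset.mem_filter, Nat.mem_primeFactors]
      exact ⟨⟨hq, hqt, ht⟩, hi⟩
    have h1 : (q : ℤ) ∣ ∏ q ∈ t.primeFactors.filter (fun q : ℕ => ¬ (q : ℤ) ∣ i), ((q : ℕ) : ℤ) :=
      Finset.dvd_prod_of_mem (fun q : ℕ => (q : ℤ)) hm
    apply hi
    have := dvd_sub hq1 (h1.mul_left e)
    rwa [add_sub_cancel_right] at this

/-- `P` is normalised by `c` -/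
theorem VCyc_norm {G : Type} [Group G] [Finite G] (P Z : Subgroup G) (c : G)
    (hn : ∀ u ∈ P, c * u * c⁻¹ ∈ P) (hZ : Z ≤ Subgroup.center G) :
    Subgroup.zpowers c ⊔ Z ≤ Subgroup.normalizer (P : Set G) := by
  have hc : c ∈ Subgroup.normalizer (P : Set G) := by
    have hinj : Function.Injective (fun u : P => (⟨c * u * c⁻¹, hn u u.2⟩ : P)) := by
      intro u v huv
      have : c * (u : G) * c⁻¹ = c * (v : G) * c⁻¹ := congrArg Subtype.val huv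
      exact Subtype.ext (by simpa using this)
    have hsurj := Finite.surjective_of_injective hinj
    intro u
    refine ⟨fun hu => hn u hu, fun hu => ?_⟩
    obtain ⟨v, hv⟩ := hsurj ⟨c * u * c⁻¹, hu⟩
    have : c * (v : G) * c⁻¹ = c * u * c⁻¹ := congrArg Subtype.val hv
    have h2 : (v : G) = u := by simpa using this
    exact h2 ▸ v.2
  refine sup_le (Subgroup.zpowers_le.2 hc) ?_
  intro z hz u
  have hz' := Subgroup.mem_center_iff.1 (hZ hz) u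
  have h3 : z * u * z⁻¹ = u := by rw [← hz', mul_inv_cancel_right]
  rw [h3]

/-- the elements of `P⟨c⟩Z` -/
theorem VCyc_mem {G : Type} [Group G] [Finite G] (P Z : Subgroup G) (c : G)
    (hn : ∀ u ∈ P, c * u * c⁻¹ ∈ P) (hZ : Z ≤ Subgroup.center G) (x : G)
    (hx : x ∈ P ⊔ Subgroup.zpowers c ⊔ Z) :
    ∃ (u : G) (l : ℤ) (z : G), u ∈ P ∧ z ∈ Z ∧ x = c ^ l * z * u := by
  have h1 : x ∈ (Subgroup.zpowers c ⊔ Z) ⊔ P := by
    have : P ⊔ Subgroup.zpowers c ⊔ Z = (Subgroup.zpowers c ⊔ Z) ⊔ P := by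
      rw [sup_assoc, sup_comm]
    rwa [this] at hx
  have h2 : x ∈ ((Subgroup.zpowers c ⊔ Z : Subgroup G) : Set G) * (P : Set G) := by
    rw [← Subgroup.coe_mul_of_left_le_normalizer_right _ _ (VCyc_norm P Z c hn hZ)]
    exact h1
  obtain ⟨y, hy, u, hu, hxy⟩ := Set.mem_mul.1 h2
  have h3 : y ∈ ((Subgroup.zpowers c : Subgroup G) : Set G) * (Z : Set G) := by
    rw [← Subgroup.coe_mul_of_left_le_normalizer_right]
    · exact hy
    · refine (Subgroup.zpowers_le.2 ?_)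
      intro w
      constructor
      · intro hw
        have hw' := Subgroup.mem_center_iff.1 (hZ hw) c
        rw [hw', mul_inv_cancel_right]
        exact hw
      · intro hw
        have hw' := Subgroup.mem_center_iff.1 (hZ hw) c
        have h5 : c * w * c⁻¹ = w := by
          have h6 : c * (c * w * c⁻¹) = c * w := by rw [hw', inv_mul_cancel_right]
          exact mul_left_cancel h6
        exact h5 ▸ hw
  obtain ⟨b, hb, z, hz, hbz⟩ := Set.mem_mul.1 h3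
  obtain ⟨l, hl⟩ := Subgroup.mem_zpowers_iff.1 hb
  exact ⟨u, l, z, hu, hz, by rw [← hxy, ← hbz, hl]⟩

/-- the group theoretic part -/
theorem VCyc_grp {G : Type} [Group G] [Finite G] (D P Z : Subgroup G) (c d : G)
    (hn : ∀ u ∈ P, c * u * c⁻¹ ∈ P) (hZ : Z ≤ Subgroup.center G) (hPD : P ≤ D)
    (h : D ⊔ Z = P ⊔ Subgroup.zpowers c ⊔ Z) (hd : d ∈ D)
    (hgen : ∀ x ∈ D, ∃ j : ℤ, ∃ u ∈ P, x = d ^ j * u) :
    ∃ z ∈ Z, D = P ⊔ Subgroup.zpowers (c * z) := by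
  have hZn : ∀ z ∈ Z, ∀ g : G, g * z = z * g := fun z hz g => Subgroup.mem_center_iff.1 (hZ hz) g
  have hnor := VCyc_norm P Z c hn hZ
  have hPn : P ≤ Subgroup.normalizer (P : Set G) := Subgroup.le_normalizer
  have hDn : D ≤ Subgroup.normalizer (P : Set G) := by
    have : D ≤ D ⊔ Z := le_sup_left
    refine this.trans ?_
    rw [h, sup_assoc]
    exact sup_le hPn hnor
  -- `c` is in `DZ`
  have hcDZ : c ∈ D ⊔ Z := by
    rw [h]
    exact Subgroup.mem_sup_left (Subgroup.mem_sup_right (Subgroup.mem_zpowers c))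
  have hZnor : Z ≤ Subgroup.normalizer (D : Set G) := by
    intro z hz u
    have h3 : z * u * z⁻¹ = u := by rw [← hZn z hz, mul_inv_cancel_right]
    rw [h3]
  have hDZ : ∀ x ∈ D ⊔ Z, ∃ y ∈ D, ∃ z ∈ Z, x = y * z := by
    intro x hx
    have : x ∈ (D : Set G) * (Z : Set G) := by
      rw [← Subgroup.coe_mul_of_right_le_normalizer_left _ _ hZnor]
      exact hx
    obtain ⟨y, hy, z, hz, hyz⟩ := Set.mem_mul.1 this
    exact ⟨y, hy, z, hz, hyz.symm⟩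
  obtain ⟨d₁, hd₁, z₁, hz₁, hc⟩ := hDZ c hcDZ
  obtain ⟨i, u₁, hu₁, hd₁i⟩ := hgen d₁ hd₁
  -- the group `PZ`
  set K : Subgroup G := P ⊔ Z with hK
  have hKn : ∀ x ∈ K, ∃ u ∈ P, ∃ z ∈ Z, x = z * u := by
    intro x hx
    have hx' : x ∈ Z ⊔ P := by rwa [hK, sup_comm] at hx
    have : x ∈ (Z : Set G) * (P : Set G) := by
      rw [← Subgroup.coe_mul_of_left_le_normalizer_right]
      · exact hx'
      · exact le_sup_right.trans hnor
    obtain ⟨z, hz, u, hu, hzu⟩ := Set.mem_mul.1 this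
    exact ⟨u, hu, z, hz, hzu.symm⟩
  have hKnor : Subgroup.normalizer (P : Set G) ≤ Subgroup.normalizer (K : Set G) := by
    intro g hg x
    have hfor : ∀ g ∈ Subgroup.normalizer (P : Set G), ∀ x ∈ K, g * x * g⁻¹ ∈ K := by
      intro g hg x hx
      obtain ⟨u, hu, z, hz, hxu⟩ := hKn x hx
      have h4 : g * x * g⁻¹ = z * (g * u * g⁻¹) := by
        rw [hxu, ← mul_assoc, hZn z hz g]
        simp only [mul_assoc]
      rw [h4]
      exact K.mul_mem (Subgroup.mem_sup_right hz) (Subgroup.mem_sup_left ((hg u).1 hu))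
    refine ⟨fun hx => hfor g hg x hx, fun hx => ?_⟩
    have := hfor g⁻¹ (Subgroup.inv_mem _ hg) _ hx
    simpa [mul_assoc] using this
  have hcN : c ∈ Subgroup.normalizer (P : Set G) :=
    hnor (Subgroup.mem_sup_left (Subgroup.mem_zpowers c))
  -- `d ^ i = c` modulo `K`
  have hdi : ∃ u ∈ P, ∃ z ∈ Z, d ^ i = c * z * u := by
    refine ⟨u₁⁻¹, P.inv_mem hu₁, z₁⁻¹, Z.inv_mem hz₁, ?_⟩
    rw [hc, hd₁i]
    group
  obtain ⟨u₂, hu₂, z₂, hz₂, hdi⟩ := hdi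
  -- `d = c ^ l` modulo `K`
  have hdH : d ∈ P ⊔ Subgroup.zpowers c ⊔ Z := by rw [← h]; exact Subgroup.mem_sup_left hd
  obtain ⟨u₃, l, z₃, hu₃, hz₃, hdl⟩ := VCyc_mem P Z c hn hZ d hdH
  -- work in the quotient of the normaliser of `P` by `K`
  have hquot : d ^ (1 - i * l) ∈ K := by
    set N := Subgroup.normalizer (K : Set G) with hN
    have hKN : K ≤ N := Subgroup.le_normalizer
    have : (K.subgroupOf N).Normal := Subgroup.normal_in_normalizer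
    set π : N →* N ⧸ K.subgroupOf N := QuotientGroup.mk' (K.subgroupOf N) with hπ
    have hπ1 : ∀ x : N, π x = 1 ↔ (x : G) ∈ K := by
      intro x
      rw [hπ, QuotientGroup.mk'_apply, QuotientGroup.eq_one_iff, Subgroup.mem_subgroupOf]
    have hdN : d ∈ N := hKnor (hDn hd)
    have hcN' : c ∈ N := hKnor hcN
    have hzN : ∀ z ∈ Z, z ∈ N := fun z hz => hKN (Subgroup.mem_sup_right hz)
    have huN : ∀ u ∈ P, u ∈ N := fun u hu => hKN (Subgroup.mem_sup_left hu)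
    have e1 : π ⟨d, hdN⟩ ^ i = π ⟨c, hcN'⟩ := by
      have : (⟨d, hdN⟩ : N) ^ i = ⟨c, hcN'⟩ * ⟨z₂, hzN _ hz₂⟩ * ⟨u₂, huN _ hu₂⟩ :=
        Subtype.ext (by simpa using hdi)
      rw [← map_zpow, this, map_mul, map_mul, (hπ1 ⟨z₂, hzN _ hz₂⟩).2 (Subgroup.mem_sup_right hz₂),
        (hπ1 ⟨u₂, huN _ hu₂⟩).2 (Subgroup.mem_sup_left hu₂), mul_one, mul_one]
    have e2 : π ⟨d, hdN⟩ = π ⟨c, hcN'⟩ ^ l := by
      have : (⟨d, hdN⟩ : N) = ⟨c, hcN'⟩ ^ l * ⟨z₃, hzN _ hz₃⟩ * ⟨u₃, huN _ hu₃⟩ :=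
        Subtype.ext (by simpa using hdl)
      rw [← map_zpow, this, map_mul, map_mul, (hπ1 ⟨z₃, hzN _ hz₃⟩).2 (Subgroup.mem_sup_right hz₃),
        (hπ1 ⟨u₃, huN _ hu₃⟩).2 (Subgroup.mem_sup_left hu₃), mul_one, mul_one]
    have e3 : π (⟨d, hdN⟩ ^ (1 - i * l)) = 1 := by
      rw [map_zpow, zpow_sub, zpow_one, zpow_mul, e1, ← e2, mul_inv_cancel]
    have e4 := (hπ1 _).1 e3
    simpa using e4
  -- the choice of the exponent
  have hcop : IsCoprime i (1 - i * l) := ⟨l, 1, by ring⟩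
  obtain ⟨j, hj⟩ := VCyc_coprime i (1 - i * l) hcop (orderOf d) (orderOf_pos d).ne'
  obtain ⟨u₄, hu₄, z₄, hz₄, hK4⟩ := hKn _ (K.zpow_mem hquot j)
  -- `d ^ (i + e j) = c z u`
  have hpow : d ^ (i + (1 - i * l) * j) = c * (z₂ * z₄) * (u₂ * u₄) := by
    rw [zpow_add, zpow_mul, hdi, hK4]
    rw [show c * z₂ * u₂ * (z₄ * u₄) = c * z₂ * (u₂ * z₄) * u₄ by simp only [mul_assoc],
      hZn z₄ hz₄ u₂]
    simp only [mul_assoc]
  refine ⟨z₂ * z₄, Z.mul_mem hz₂ hz₄, ?_⟩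
  set w := c * (z₂ * z₄) with hw
  have hwD : w ∈ D := by
    have : w = d ^ (i + (1 - i * l) * j) * (u₂ * u₄)⁻¹ := by rw [hpow, mul_inv_cancel_right]
    rw [this]
    exact D.mul_mem (D.zpow_mem hd _) (hPD (P.inv_mem (P.mul_mem hu₂ hu₄)))
  apply le_antisymm
  · have hd' : d ∈ P ⊔ Subgroup.zpowers w := by
      have h5 : d ^ (i + (1 - i * l) * j) ∈ P ⊔ Subgroup.zpowers w := by
        rw [hpow]
        exact Subgroup.mul_mem _ (Subgroup.mem_sup_right (Subgroup.mem_zpowers w))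
          (Subgroup.mem_sup_left (P.mul_mem hu₂ hu₄))
      obtain ⟨a, b, hab⟩ := hj
      have h6 : d = (d ^ (i + (1 - i * l) * j)) ^ a := by
        have h7 : d = d ^ (a * (i + (1 - i * l) * j) + b * (orderOf d : ℤ)) := by
          rw [hab, zpow_one]
        have h8 : d ^ (b * (orderOf d : ℤ)) = 1 := by
          rw [mul_comm, zpow_mul, zpow_natCast, pow_orderOf_eq_one, one_zpow]
        rw [zpow_add, h8, mul_one, mul_comm, zpow_mul] at h7
        exact h7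
      rw [h6]
      exact Subgroup.zpow_mem _ h5 a
    intro x hx
    obtain ⟨m, u, hu, hxu⟩ := hgen x hx
    rw [hxu]
    exact Subgroup.mul_mem _ (Subgroup.zpow_mem _ hd' m) (Subgroup.mem_sup_left hu)
  · exact sup_le hPD (Subgroup.zpowers_le.2 hwD)

/-- `P` is contained in `D` -/
theorem VCyc_le {G : Type} [Group G] [Finite G] (p : ℕ) [Fact p.Prime] (D P Z : Subgroup G) (c : G)
    (hP : IsPGroup p P) (hZ : Z ≤ Subgroup.center G) (hpZ : ¬ p ∣ Nat.card Z)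
    (h : D ⊔ Z = P ⊔ Subgroup.zpowers c ⊔ Z) : P ≤ D := by
  have hZn : ∀ z ∈ Z, ∀ g : G, g * z = z * g := fun z hz g => Subgroup.mem_center_iff.1 (hZ hz) g
  have hZnor : Z ≤ Subgroup.normalizer (D : Set G) := by
    intro z hz u
    have h3 : z * u * z⁻¹ = u := by rw [← hZn z hz, mul_inv_cancel_right]
    rw [h3]
  intro u hu
  have hu' : u ∈ D ⊔ Z := by
    rw [h]
    exact Subgroup.mem_sup_left (Subgroup.mem_sup_left hu)
  have hu2 : u ∈ (D : Set G) * (Z : Set G) := by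
    rw [← Subgroup.coe_mul_of_right_le_normalizer_left _ _ hZnor]
    exact hu'
  obtain ⟨y, hy, z, hz, hyz⟩ := Set.mem_mul.1 hu2
  have hcomm : Commute y z := hZn z hz y
  have hzn : z ^ Nat.card Z = 1 := by
    have : (⟨z, hz⟩ : Z) ^ Nat.card Z = 1 := pow_card_eq_one'
    exact congrArg Subtype.val this
  have h1 : u ^ Nat.card Z ∈ D := by
    rw [← hyz, hcomm.mul_pow, hzn, mul_one]
    exact D.pow_mem hy _
  obtain ⟨k, hk⟩ := hP ⟨u, hu⟩
  have hk' : u ^ p ^ k = 1 := congrArg Subtype.val hk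
  have hcop : Nat.Coprime (Nat.card Z) (p ^ k) :=
    (Nat.Coprime.pow_left k ((Nat.Prime.coprime_iff_not_dvd (Fact.out : p.Prime)).2 hpZ)).symm
  have hcopZ : IsCoprime (Nat.card Z : ℤ) ((p ^ k : ℕ) : ℤ) := Nat.isCoprime_iff_coprime.2 hcop
  obtain ⟨a, b, hab⟩ := hcopZ
  have h2 : u = (u ^ Nat.card Z) ^ a := by
    have h3 : u = u ^ (a * (Nat.card Z : ℤ) + b * ((p ^ k : ℕ) : ℤ)) := by rw [hab, zpow_one]
    have h4 : u ^ (b * ((p ^ k : ℕ) : ℤ)) = 1 := by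
      rw [mul_comm, zpow_mul, zpow_natCast, hk', one_zpow]
    rw [zpow_add, h4, mul_one, mul_comm, zpow_mul, zpow_natCast] at h3
    exact h3
  rw [h2]
  exact D.zpow_mem h1 a

theorem prf_VCyc (hLT : VLT) : VCyc := by
  intro k _ _ p _ _ Λ _ _ _ _ G _ _ P Z c hP hn hpc hZ hpZ Ψ hΨ hrange
  have hpp : p.Prime := Fact.out
  have hPD : P ≤ Ψ.range := VCyc_le p Ψ.range P Z c hP hZ hpZ hrange
  have hnor := VCyc_norm P Z c hn hZ
  have hPn : P ≤ Subgroup.normalizer (P : Set G) := Subgroup.le_normalizer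
  have hDH : Ψ.range ≤ P ⊔ Subgroup.zpowers c ⊔ Z := by rw [← hrange]; exact le_sup_left
  have hHn : P ⊔ Subgroup.zpowers c ⊔ Z ≤ Subgroup.normalizer (P : Set G) := by
    rw [sup_assoc]
    exact sup_le hPn hnor
  set N := Subgroup.normalizer (P : Set G) with hN
  have : (P.subgroupOf N).Normal := Subgroup.normal_in_normalizer
  let π : N →* N ⧸ P.subgroupOf N := QuotientGroup.mk' (P.subgroupOf N)
  have hπ1 : ∀ x : N, π x = 1 ↔ (x : G) ∈ P := by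
    intro x
    rw [QuotientGroup.mk'_apply, QuotientGroup.eq_one_iff, Subgroup.mem_subgroupOf]
  let Ψ' : (Λ ≃ₐ[LaurentSeries k] Λ) →* N := Ψ.codRestrict N (fun γ => hHn (hDH ⟨γ, rfl⟩))
  have hΨ' : ∀ γ, ((Ψ' γ : N) : G) = Ψ γ := fun γ => rfl
  let χ := π.comp Ψ'
  have hcN : c ∈ N := hnor (Subgroup.mem_sup_left (Subgroup.mem_zpowers c))
  have hzN : ∀ z ∈ Z, z ∈ N := fun z hz => hnor (Subgroup.mem_sup_right hz)
  have hform : ∀ γ, ∃ (l : ℤ) (z : G) (hz : z ∈ Z), χ γ = π ⟨c, hcN⟩ ^ l * π ⟨z, hzN z hz⟩ := by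
    intro γ
    obtain ⟨u, l, z, hu, hz, he⟩ := VCyc_mem P Z c hn hZ (Ψ γ) (hDH ⟨γ, rfl⟩)
    refine ⟨l, z, hz, ?_⟩
    have h1 : Ψ' γ = ⟨c, hcN⟩ ^ l * ⟨z, hzN z hz⟩ * ⟨u, hPn hu⟩ := by
      apply Subtype.ext
      rw [hΨ' γ, he]
      simp
    change π (Ψ' γ) = _
    rw [h1, map_mul, map_mul, map_zpow, (hπ1 ⟨u, hPn hu⟩).2 hu, mul_one]
  have hzc : ∀ (z : G) (hz : z ∈ Z) (g : N), Commute (π g) (π ⟨z, hzN z hz⟩) := by
    intro z hz g
    have : g * ⟨z, hzN z hz⟩ = ⟨z, hzN z hz⟩ * g :=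
      Subtype.ext (Subgroup.mem_center_iff.1 (hZ hz) (g : G))
    change π g * π ⟨z, hzN z hz⟩ = π ⟨z, hzN z hz⟩ * π g
    rw [← map_mul, ← map_mul, this]
  have hcomm : ∀ γ δ, χ γ * χ δ = χ δ * χ γ := by
    intro γ δ
    obtain ⟨l, z, hz, h1⟩ := hform γ
    obtain ⟨l', z', hz', h2⟩ := hform δ
    have e1 : Commute (π ⟨c, hcN⟩ ^ l) (π ⟨c, hcN⟩ ^ l') := Commute.zpow_zpow_self _ l l'
    have e2 : Commute (π ⟨c, hcN⟩ ^ l) (π ⟨z', hzN z' hz'⟩) := (hzc z' hz' ⟨c, hcN⟩).zpow_left l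
    have e3 : Commute (π ⟨z, hzN z hz⟩) (π ⟨c, hcN⟩ ^ l') :=
      ((hzc z hz ⟨c, hcN⟩).zpow_left l').symm
    have e4 : Commute (π ⟨z, hzN z hz⟩) (π ⟨z', hzN z' hz'⟩) := hzc z' hz' ⟨z, hzN z hz⟩
    have e5 : Commute (χ γ) (χ δ) := by
      rw [h1, h2]
      exact (e1.mul_right e2).mul_left (e3.mul_right e4)
    exact e5
  letI : CommGroup χ.range :=
    { (inferInstance : Group χ.range) with
      mul_comm := by
        rintro ⟨_, γ, rfl⟩ ⟨_, δ, rfl⟩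
        exact Subtype.ext (hcomm γ δ) }
  set n : ℕ := orderOf c * Nat.card Z with hndef
  have hn0 : 0 < n := Nat.mul_pos (orderOf_pos c) Nat.card_pos
  have hpn : ¬ p ∣ n := fun hd => (hpp.dvd_mul.1 hd).elim hpc hpZ
  have : NeZero (n : k) := ⟨fun h0 => hpn ((CharP.cast_eq_zero_iff k p n).1 h0)⟩
  have : NeZero n := ⟨hn0.ne'⟩
  obtain ⟨ζ, hζ⟩ := HasEnoughRootsOfUnity.exists_primitiveRoot k n
  obtain ⟨⟨t, ht⟩, hall⟩ := hLT k p Λ n ζ hn0 hpn hζ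
  obtain ⟨-, hm, hA⟩ := hall t ht
  have hexp : ∀ a : χ.range, a ^ n = 1 := by
    rintro ⟨_, γ, rfl⟩
    obtain ⟨l, z, hz, h1⟩ := hform γ
    have hc1 : π ⟨c, hcN⟩ ^ n = 1 := by
      have : (⟨c, hcN⟩ : N) ^ n = 1 := by
        apply Subtype.ext
        change c ^ n = 1
        rw [hndef, pow_mul, pow_orderOf_eq_one, one_pow]
      rw [← map_pow, this, map_one]
    have hz1 : π ⟨z, hzN z hz⟩ ^ n = 1 := by
      have : (⟨z, hzN z hz⟩ : N) ^ n = 1 := by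
        apply Subtype.ext
        change z ^ n = 1
        have h3 : (⟨z, hz⟩ : Z) ^ Nat.card Z = 1 := pow_card_eq_one'
        have h4 : z ^ Nat.card Z = 1 := congrArg Subtype.val h3
        rw [hndef, mul_comm, pow_mul, h4, one_pow]
      rw [← map_pow, this, map_one]
    apply Subtype.ext
    change (χ γ) ^ n = 1
    rw [h1, ((hzc z hz ⟨c, hcN⟩).zpow_left l).mul_pow, hz1, mul_one, ← zpow_natCast, ← zpow_mul,
      mul_comm, zpow_mul, zpow_natCast, hc1, one_zpow]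
  have hcts : Cts χ.rangeRestrict := by
    obtain ⟨S, hS⟩ := hΨ
    refine ⟨S, fun γ hγ => ?_⟩
    apply Subtype.ext
    change π (Ψ' γ) = 1
    rw [hπ1, hΨ', hS γ hγ]
    exact P.one_mem
  obtain ⟨a, ha⟩ := hA χ.range χ.rangeRestrict hcts hexp
  obtain ⟨⟨_, δ, rfl⟩, hδ⟩ : ∃ b : χ.range, b = a := ⟨a, rfl⟩
  refine VCyc_grp Ψ.range P Z c (Ψ δ) hn hZ hPD hrange ⟨δ, rfl⟩ ?_
  rintro _ ⟨γ, rfl⟩
  obtain ⟨m, hm'⟩ := hm γ
  have h1 := ha γ m hm'
  rw [← hδ] at h1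
  have h2 : χ γ = χ δ ^ m := congrArg Subtype.val h1
  refine ⟨m, (Ψ δ ^ (m : ℤ))⁻¹ * Ψ γ, ?_, by group⟩
  have h3 : π ((Ψ' δ ^ m)⁻¹ * Ψ' γ) = 1 := by
    have h4 : π (Ψ' γ) = π (Ψ' δ) ^ m := h2
    rw [map_mul, map_inv, map_pow, h4, inv_mul_cancel]
  have h5 := (hπ1 _).1 h3
  rw [zpow_natCast]
  exact h5

end MP7b0bad.SV
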