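import Pool.Agent.Work.MP_7b0bad_ag.SV.VStmts2

set_option autoImplicit false

namespace MP7b0bad.SV

open Polynomial

/-- commutative kernel, solvable image -/
theorem VFabG_ext {G H : Type} [Group G] [Group H] (f : G →* H)
    (hc : ∀ a b, f a = 1 → f b = 1 → a * b = b * a) (hs : Group.IsSolvable f.range) :
    Group.IsSolvable G := by
  haveI : Group.IsSolvable f.ker :=
    Group.isSolvable_of_comm fun a b => Subtype.ext (hc a b a.2 b.2)
  haveI := hs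
  refine Group.isSolvable_of_ker_le_range f.ker.subtype f.rangeRestrict ?_
  rw [Subgroup.range_subtype, MonoidHom.ker_rangeRestrict]

/-- `P⟨c⟩` is solvable -/
theorem VFabG_Pc {G : Type} [Group G] [Finite G] (p : ℕ) [Fact p.Prime] (P : Subgroup G) (c : G)
    (hP : IsPGroup p P) (hn : ∀ u ∈ P, c * u * c⁻¹ ∈ P) :
    Group.IsSolvable (P ⊔ Subgroup.zpowers c : Subgroup G) := by
  have hcn : c ∈ Subgroup.normalizer (P : Set G) :=
    Subgroup.mem_normalizer_fintype (S := (P : Set G)) fun n h => hn n h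
  have hz : Subgroup.zpowers c ≤ Subgroup.normalizer (P : Set G) := Subgroup.zpowers_le.2 hcn
  have hmem : ∀ g ∈ P ⊔ Subgroup.zpowers c, ∃ u ∈ P, ∃ n : ℤ, g = u * c ^ n := by
    intro g hg
    have h1 : g ∈ ((P ⊔ Subgroup.zpowers c : Subgroup G) : Set G) := hg
    rw [Subgroup.coe_mul_of_right_le_normalizer_left _ _ hz] at h1
    obtain ⟨u, hu, v, hv, rfl⟩ := Set.mem_mul.1 h1
    obtain ⟨n, rfl⟩ := Subgroup.mem_zpowers_iff.1 hv
    exact ⟨u, hu, n, rfl⟩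
  set S : Subgroup G := P ⊔ Subgroup.zpowers c with hS
  have hle : S ≤ Subgroup.normalizer (P : Set G) := sup_le Subgroup.le_normalizer hz
  have hPS : P ≤ S := le_sup_left
  have hN : (P.subgroupOf S).Normal := by
    refine ⟨fun x hx g => ?_⟩
    rw [Subgroup.mem_subgroupOf] at hx ⊢
    have h1 := (Subgroup.mem_normalizer_iff.1 (hle g.2) (x : G)).1 hx
    simpa using h1
  have hP2 : Group.IsSolvable P := by
    haveI : Group.IsNilpotent P := hP.isNilpotent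
    infer_instance
  have hPs : Group.IsSolvable (P.subgroupOf S) := by
    haveI := hP2
    exact Group.isSolvable_of_isSolvable_injective
      (f := (Subgroup.subgroupOfEquivOfLe hPS).toMonoidHom)
      (Subgroup.subgroupOfEquivOfLe hPS).injective
  have hc : c ∈ S := (le_sup_right : Subgroup.zpowers c ≤ S) (Subgroup.mem_zpowers c)
  have hq : ∀ x : S ⧸ P.subgroupOf S, ∃ n : ℤ,
      x = (QuotientGroup.mk' (P.subgroupOf S) ⟨c, hc⟩) ^ n := by
    intro x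
    obtain ⟨g, rfl⟩ := QuotientGroup.mk'_surjective _ x
    obtain ⟨u, hu, n, hg⟩ := hmem g g.2
    refine ⟨n, ?_⟩
    have h1 : g = ⟨u, hPS hu⟩ * (⟨c, hc⟩ : S) ^ n := by
      apply Subtype.ext
      rw [hg]
      simp
    rw [h1, map_mul, map_zpow]
    have h2 : QuotientGroup.mk' (P.subgroupOf S) ⟨u, hPS hu⟩ = 1 := by
      rw [QuotientGroup.mk'_apply, QuotientGroup.eq_one_iff, Subgroup.mem_subgroupOf]
      exact hu
    rw [h2, one_mul]
  haveI : Group.IsSolvable (S ⧸ P.subgroupOf S) := by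
    refine Group.isSolvable_of_comm fun a b => ?_
    obtain ⟨n, rfl⟩ := hq a
    obtain ⟨m, rfl⟩ := hq b
    rw [← zpow_add, ← zpow_add, add_comm]
  haveI := hPs
  refine Group.isSolvable_of_ker_le_range (P.subgroupOf S).subtype
    (QuotientGroup.mk' (P.subgroupOf S)) ?_
  rw [Subgroup.range_subtype, QuotientGroup.ker_mk']

/-- the kernel as an abstract commutative group -/
theorem VFabG_A {G : Type} [Group G] [Finite G] (r : ℕ) (M : Subgroup G) [M.Normal]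
    (hr : ∀ a ∈ M, a ^ r = 1) (hc : ∀ a ∈ M, ∀ b ∈ M, a * b = b * a)
    (hM : M ≤ ⁅M, (⊤ : Subgroup G)⁆) :
    ∃ (A : Type) (_ : CommGroup A) (_ : Finite A) (i : A →* G) (act : G →* MulAut A),
      AbK r i act ∧ i.range = M ∧
      Subgroup.closure {x : A | ∃ (g : G) (a : A), x = act g a * a⁻¹} = ⊤ := by
  letI : CommGroup M :=
    { (inferInstance : Group M) with
      mul_comm := fun a b => Subtype.ext (hc a a.2 b b.2) }
  refine ⟨M, inferInstance, inferInstance, M.subtype, MulAut.conjNormal,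
    ⟨M.subtype_injective, fun g a => ?_, fun a => ?_⟩, M.range_subtype, ?_⟩
  · exact MulAut.conjNormal_apply g a
  · apply Subtype.ext
    have := hr a a.2
    simpa using this
  · rw [eq_top_iff]
    intro x _
    have h1 : (x : G) ∈ (Subgroup.closure {x : M | ∃ (g : G) (a : M),
        x = MulAut.conjNormal g a * a⁻¹}).map M.subtype := by
      have h2 : ⁅M, (⊤ : Subgroup G)⁆ ≤ (Subgroup.closure {x : M | ∃ (g : G) (a : M),
        x = MulAut.conjNormal g a * a⁻¹}).map M.subtype := by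
        rw [Subgroup.commutator_le]
        intro m hm g _
        refine ⟨MulAut.conjNormal g (⟨m, hm⟩⁻¹) * (⟨m, hm⟩⁻¹)⁻¹,
          Subgroup.subset_closure ⟨g, ⟨m, hm⟩⁻¹, rfl⟩, ?_⟩
        have hx : g * m⁻¹ * g⁻¹ ∈ M := Subgroup.Normal.conj_mem inferInstance _ (M.inv_mem hm) g
        have h3 : (g * m⁻¹ * g⁻¹) * m = m * (g * m⁻¹ * g⁻¹) := hc _ hx _ hm
        have h4 : M.subtype (MulAut.conjNormal g (⟨m, hm⟩⁻¹) * (⟨m, hm⟩⁻¹)⁻¹) =
            (g * m⁻¹ * g⁻¹) * m := by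
          simp [MulAut.conjNormal_apply, mul_assoc]
        rw [h4, h3, commutatorElement_def]
        group
      exact h2 (hM x.2)
    obtain ⟨y, hy, hyx⟩ := h1
    have : y = x := Subtype.ext hyx
    rwa [this] at hy

theorem prf_VFabG (hLift : VLift) (hLL : VLL) (hLoc : VLoc) (hMov : VMov) (hLv : VLv) (hLT : VLT)
    (hH : VH) (hPl : VPl) (hCp : VCp) : VFabG := by
  intro k _ p Ω Λ _ _ _ _ hI jI ρI hB G _ _ r M P _ c hr hrp hD hMr hMc hMM φ hφ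
  classical
  have := hB.ac
  have := hB.ch
  haveI : Fact p.Prime := ⟨hB.pr⟩
  have := hB.galΩ
  have := hB.scΩ
  have := hB.galΛ
  have := hB.scΛ
  have hpr : ¬ p ∣ r := fun hd => hrp (((Nat.prime_dvd_prime_iff_eq hB.pr hr).1 hd).symm)
  have hrk : (r : k) ≠ 0 := fun h0 => hpr ((CharP.cast_eq_zero_iff k p r).1 h0)
  haveI : NeZero (r : k) := ⟨hrk⟩
  haveI : NeZero r := ⟨hr.ne_zero⟩
  obtain ⟨ζ, hζ⟩ := HasEnoughRootsOfUnity.exists_primitiveRoot k r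
  obtain ⟨t, ht⟩ := (hLT k p Λ r ζ hr.pos hpr hζ).1
  obtain ⟨A, iA1, iA2, i, act, hA, hiM, hcl⟩ := VFabG_A r M hMr hMc hMM
  set q : G →* G ⧸ M := QuotientGroup.mk' M with hq
  have hq1 : ∀ g : G, q g = 1 ↔ g ∈ M := fun g => by
    rw [hq, QuotientGroup.mk'_apply, QuotientGroup.eq_one_iff]
  have hqi : ∀ g : G, q g = 1 ↔ g ∈ i.range := fun g => by rw [hq1, hiM]
  have hqi1 : ∀ a : A, q (i a) = 1 := fun a => (hqi _).2 ⟨a, rfl⟩
  -- a lift
  obtain ⟨Φ₁, hΦ₁, hΦ₁q⟩ := hLift k Ω p r hr hrp G M hMc hMr φ hφ.cts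
  have hΦ₁φ : q.comp Φ₁ = φ := MonoidHom.ext fun γ => hΦ₁q γ
  -- the local lift
  have hφI : Cts (φ.comp ρI) := hCp.2.1 _ _ _ _ hI jI ρI hB.comp _ φ hφ.cts
  obtain ⟨Ψ, hΨ, hΨr, hΨq⟩ := hLL k p r Λ hr hrp G (G ⧸ M) q P c
    (fun a b ha hb => hMc a ((hq1 a).1 ha) b ((hq1 b).1 hb))
    (fun a ha => hMr a ((hq1 a).1 ha)) hD.pgr hD.nrm hD.cop (φ.comp ρI) hφI hφ.inf
  have hPc : Group.IsSolvable (P ⊔ Subgroup.zpowers c : Subgroup G) :=
    VFabG_Pc p P c hD.pgr hD.nrm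
  have hs1 : Group.IsSolvable Ψ.range := by
    rw [hΨr]
    exact hPc
  have hs2 : Group.IsSolvable (Φ₁.comp ρI).range := by
    refine VFabG_ext (q.comp (Φ₁.comp ρI).range.subtype) (fun a b ha hb => ?_) ?_
    · exact Subtype.ext (hMc a ((hq1 a).1 ha) b ((hq1 b).1 hb))
    · have h1 : (q.comp (Φ₁.comp ρI).range.subtype).range =
          (P ⊔ Subgroup.zpowers c).map q := by
        have h2 : (φ.comp ρI).range = (P ⊔ Subgroup.zpowers c).map q := hφ.inf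
        rw [← h2, ← hΦ₁φ, MonoidHom.range_comp, Subgroup.range_subtype,
          MonoidHom.comp_assoc, MonoidHom.range_comp q (Φ₁.comp ρI)]
      rw [h1]
      haveI := hPc
      exact Group.isSolvable_of_surjective
        (MonoidHom.subgroupMap_surjective q (P ⊔ Subgroup.zpowers c))
  have hsur : Function.Surjective (q.comp Φ₁) := by
    rw [hΦ₁φ]
    exact hφ.surj
  have hunr : ∀ a : k, UnrAt (Λ := Λ) (q.comp Φ₁) a := by
    rw [hΦ₁φ]
    exact hφ.unr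
  obtain ⟨Φ₂, hΦ₂, hE₂, b₂, hb₂⟩ := hLoc k p Ω Λ hI jI ρI hB r hr hrp G A (G ⧸ M) i act q hA
    hqi Φ₁ hΦ₁ hsur hunr Ψ hΨ hs1 hs2 (fun δ => by
      rw [hΨq δ]
      exact (hΦ₁q (ρI δ)).symm)
  have hΦ₂φ : q.comp Φ₂ = φ := by
    ext γ
    obtain ⟨a, ha⟩ := hE₂ γ
    change q (Φ₂ γ) = φ γ
    rw [ha, map_mul, hqi1, one_mul]
    exact hΦ₁q γ
  -- the place over `0`
  obtain ⟨h₀, hh₀⟩ := (hH k).1 (pA (0 : k)) (fun c hc => by
    have h1 := congrArg (fun u : LaurentSeries k => u.coeff 1) hc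
    simp [pA] at h1)
  obtain ⟨j₀, ρ₀, hC₀⟩ := (hPl (RatFunc k) (LaurentSeries k) Ω Λ h₀).1
  obtain ⟨Φ₃, hΦ₃, hE₃, hu₃, hv₃, b₃, hb₃⟩ := hMov k p Ω Λ hI jI ρI hB r ζ t hr hrp ht G A
    (G ⧸ M) i act q hA hqi hcl Φ₂ hΦ₂ (by rw [hΦ₂φ]; exact hφ.surj)
    (by rw [hΦ₂φ]; exact hφ.unr) 0 h₀ j₀ ρ₀ hh₀ hC₀ 1
  have hu0 : UnrAt (Λ := Λ) Φ₃ 0 :=
    (hLv k p Ω Λ hI jI ρI hB r ζ t hr hrp ht G A i hA.inj hA.exp Φ₃ hΦ₃ 0 h₀ j₀ ρ₀ hh₀
      hC₀).2.1 hv₃
  have hΦ₃q : ∀ γ, q (Φ₃ γ) = φ γ := by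
    intro γ
    obtain ⟨a, ha⟩ := hE₃ γ
    rw [ha, map_mul, hqi1, one_mul, ← hΦ₂φ]
    rfl
  -- conjugation
  let x : G := i b₂ * i b₃
  have hqx : q x = 1 := by
    change q (i b₂ * i b₃) = 1
    rw [map_mul, hqi1, hqi1, one_mul]
  refine ⟨(MulAut.conj x).toMonoidHom.comp Φ₃, hCp.2.2 _ _ _ _ Φ₃ _ hΦ₃, fun γ => ?_,
    fun a => ?_, ?_⟩
  · change q (x * Φ₃ γ * x⁻¹) = φ γ
    rw [map_mul, map_mul, map_inv, hqx, hΦ₃q]
    simp
  · intro h j ρ hh hC δ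
    have h1 : Φ₃ (ρ δ) = 1 := by
      by_cases ha : a = 0
      · subst ha
        exact hu0 h j ρ hh hC δ
      · exact hu₃ a ha h j ρ hh hC δ
    change x * Φ₃ (ρ δ) * x⁻¹ = 1
    rw [h1]
    simp
  · have h1 : ((MulAut.conj x).toMonoidHom.comp Φ₃).comp ρI = Ψ := by
      ext δ
      change x * Φ₃ (ρI δ) * x⁻¹ = Ψ δ
      rw [hb₃, hb₂]
      change i b₂ * i b₃ * ((i b₃)⁻¹ * ((i b₂)⁻¹ * Ψ δ * i b₂) * i b₃) * (i b₂ * i b₃)⁻¹ = Ψ δ
      group
    rw [h1, hΨr]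
    rfl

end MP7b0bad.SV
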