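import Pool.Agent.Work.MP_7b0bad_ag.SV.VStmts2

set_option autoImplicit false

/-!
# Item VGen: Artin-Schreier extensions independent of a given extension
-/

namespace MP7b0bad.SV

open Polynomial

/-- `x ^ p - x = c / s` has no solution in `k((s))` for `c ≠ 0` -/
theorem VGen_noroot {k : Type} [Field k] (p : ℕ) (hp : 2 ≤ p) (x : LaurentSeries k) (c : k)
    (hc : c ≠ 0) (h : x ^ p - x = HahnSeries.single (-1 : ℤ) c) : False := by
  have h0 : x ≠ 0 := by
    rintro rfl
    rw [zero_pow (by omega), sub_zero] at h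
    have h1 := congrArg (fun z : LaurentSeries k => z.coeff (-1)) h
    simp only [HahnSeries.coeff_zero, HahnSeries.coeff_single_same] at h1
    exact hc h1.symm
  have hord : (x ^ p).order = p • x.order := HahnSeries.order_pow x p
  have hco : ∀ n : ℤ, (x ^ p).coeff n - x.coeff n = (HahnSeries.single (-1 : ℤ) c).coeff n := by
    intro n
    rw [← h, HahnSeries.coeff_sub]
  by_cases hx : x.order < 0
  · have h1 := hco (x ^ p).order
    have h2 : (x ^ p).coeff (x ^ p).order ≠ 0 :=
      HahnSeries.coeff_order_eq_zero.not.2 (pow_ne_zero p h0)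
    have h3 : x.coeff (x ^ p).order = 0 := by
      refine HahnSeries.coeff_eq_zero_of_lt_order ?_
      rw [hord, nsmul_eq_mul]
      have : (2 : ℤ) ≤ (p : ℤ) := by exact_mod_cast hp
      nlinarith
    rw [h3, sub_zero] at h1
    by_cases h4 : (x ^ p).order = -1
    · rw [hord, nsmul_eq_mul] at h4
      have h5 : (p : ℤ) ∣ 1 := ⟨-x.order, by linarith⟩
      have h6 := Int.le_of_dvd one_pos h5
      have : (2 : ℤ) ≤ (p : ℤ) := by exact_mod_cast hp
      omega
    · rw [HahnSeries.coeff_single_of_ne h4] at h1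
      exact h2 h1
  · have h1 := hco (-1)
    rw [HahnSeries.coeff_single_same] at h1
    have h2 : x.coeff (-1) = 0 := HahnSeries.coeff_eq_zero_of_lt_order (by omega)
    have h3 : (x ^ p).coeff (-1) = 0 := by
      refine HahnSeries.coeff_eq_zero_of_lt_order ?_
      rw [hord, nsmul_eq_mul]
      have : (0 : ℤ) ≤ (p : ℤ) := by exact_mod_cast Nat.zero_le p
      have h5 : 0 ≤ x.order := by omega
      have h6 := mul_nonneg this h5
      omega
    rw [h2, h3, sub_zero] at h1
    exact hc h1.symm

theorem prf_VGen : VGen := by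
  intro k _ _ p hpf _ Λ _ _ _ _ D _ _ Ψ _
  classical
  by_contra hcon
  push Not at hcon
  have hp2 : 2 ≤ p := hpf.out.two_le
  have hinj : Function.Injective (algebraMap (LaurentSeries k) Λ) :=
    (algebraMap (LaurentSeries k) Λ).injective
  have hchL : CharP (LaurentSeries k) p :=
    charP_of_injective_ringHom (f := (HahnSeries.C : k →+* LaurentSeries k))
      (HahnSeries.C : k →+* LaurentSeries k).injective p
  have hchΛ : CharP Λ p := charP_of_injective_ringHom hinj p
  choose! z hz hfix using hcon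
  -- the differences are in the finite set of roots of `X ^ p - X`
  have hroot : ∀ b : k, b ≠ 0 → ∀ δ : Λ ≃ₐ[LaurentSeries k] Λ,
      (δ (z b) - z b) ^ p - (δ (z b) - z b) = 0 := by
    intro b hb δ
    have h1 : δ (z b) ^ p = δ (z b) + lΛ Λ (HahnSeries.single (-1 : ℤ) b) := by
      have h2 : z b ^ p = z b + lΛ Λ (HahnSeries.single (-1 : ℤ) b) := by
        rw [← hz b hb]; ring
      rw [← map_pow, h2, map_add, AlgEquiv.commutes]
    have h2 : z b ^ p = z b + lΛ Λ (HahnSeries.single (-1 : ℤ) b) := by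
      rw [← hz b hb]; ring
    rw [sub_pow_char, h1, h2]
    ring
  have hTfin : {t : Λ | t ^ p - t = 0}.Finite := by
    have h1 : (X ^ p - X : Λ[X]) ≠ 0 := by
      intro h0
      have h2 := congrArg (fun f : Λ[X] => f.coeff p) h0
      simp only [coeff_sub, coeff_X_pow_self, coeff_zero] at h2
      rw [coeff_X, if_neg (by omega), sub_zero] at h2
      exact one_ne_zero h2
    refine ((X ^ p - X : Λ[X]).roots.toFinset.finite_toSet).subset ?_
    intro t ht
    rw [Finset.mem_coe, Multiset.mem_toFinset, mem_roots h1]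
    simpa [IsRoot] using ht
  have hTf : Finite {t : Λ | t ^ p - t = 0} := hTfin
  have hinf : Infinite k := IsAlgClosed.instInfinite
  have hinf' : Infinite {b : k // b ≠ 0} := by
    have : Infinite ({0}ᶜ : Set k) := (Set.finite_singleton (0 : k)).infinite_compl.to_subtype
    exact this
  let F : {b : k // b ≠ 0} → D → {t : Λ | t ^ p - t = 0} := fun b d =>
    if h : ∃ δ, Ψ δ = d then ⟨h.choose (z b) - z b, hroot b b.2 _⟩
    else ⟨0, by simp [show p ≠ 0 by omega]⟩
  obtain ⟨b, b', hbb, hF⟩ := Finite.exists_ne_map_eq_of_infinite F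
  have hval : ∀ (b : {b : k // b ≠ 0}) (δ : Λ ≃ₐ[LaurentSeries k] Λ),
      ((F b (Ψ δ)) : Λ) = δ (z b) - z b := by
    intro b δ
    have h : ∃ δ', Ψ δ' = Ψ δ := ⟨δ, rfl⟩
    have h1 : F b (Ψ δ) = ⟨h.choose (z b) - z b, hroot b b.2 _⟩ := dif_pos h
    rw [h1]
    show h.choose (z b) - z b = _
    have h2 : Ψ (δ⁻¹ * h.choose) = 1 := by
      rw [map_mul, map_inv, h.choose_spec, inv_mul_cancel]
    have h3 := hfix b b.2 _ h2
    have h4 : h.choose (z b) = δ (z b) := by
      have h5 : δ ((δ⁻¹ * h.choose) (z b)) = h.choose (z b) := by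
        rw [AlgEquiv.mul_apply]
        exact AlgEquiv.apply_symm_apply δ _
      rw [← h5, h3]
    rw [h4]
  have hfixed : ∀ δ : Λ ≃ₐ[LaurentSeries k] Λ, δ (z b - z b') = z b - z b' := by
    intro δ
    have h1 := hval b δ
    rw [hF, hval b' δ] at h1
    rw [map_sub]
    linear_combination -h1
  obtain ⟨x, hx⟩ := (InfiniteGalois.mem_range_algebraMap_iff_fixed (k := LaurentSeries k) (K := Λ)
    (z b - z b')).2 hfixed
  refine VGen_noroot p hp2 x ((b : k) - b') (sub_ne_zero.2 fun h => hbb (Subtype.ext h)) ?_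
  apply hinj
  rw [map_sub, map_pow, hx, sub_pow_char, HahnSeries.single_sub, map_sub]
  have h1 := hz b b.2
  have h2 := hz b' b'.2
  linear_combination h1 - h2

end MP7b0bad.SV
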