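import Pool.Agent.Work.MP_7b0bad_ag.SV.VStmts2

set_option autoImplicit false

/-!
# Group theory for the surjectivity over the base change
-/

namespace MP7b0bad.SV

theorem prf_VGrp : VGrp := by
  intro G _ _ V J JN hV hab hmin hcen hle hnor htop hne
  have hdec : ∀ g : G, ∃ n ∈ JN, ∃ v ∈ V, n * v = g := by
    intro g
    have hg : g ∈ JN ⊔ V := by rw [htop]; exact Subgroup.mem_top g
    exact Subgroup.mem_sup_of_normal_right.1 hg
  have hK : (J ⊓ V).Normal := by
    refine ⟨fun x hx g => ?_⟩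
    obtain ⟨hxJ, hxV⟩ := Subgroup.mem_inf.1 hx
    obtain ⟨n, hn, v, hv, rfl⟩ := hdec g
    have h1 : n * v * x * (n * v)⁻¹ = n * x * n⁻¹ := by
      have h2 : v * x * v⁻¹ = x := by rw [hab v hv x hxV]; group
      calc n * v * x * (n * v)⁻¹ = n * (v * x * v⁻¹) * n⁻¹ := by group
        _ = n * x * n⁻¹ := by rw [h2]
    rw [h1]
    exact Subgroup.mem_inf.2 ⟨J.mul_mem (J.mul_mem (hle hn) hxJ) (J.inv_mem (hle hn)),
      hV.conj_mem x hxV n⟩
  have hVJ : V ≤ J := by
    rcases hmin _ hK inf_le_right with h | h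
    · exact absurd h hne
    · exact h.symm.le.trans inf_le_left
  have hJ : J = ⊤ := by
    rw [eq_top_iff, ← htop]
    exact sup_le hle hVJ
  have hJN : JN.Normal := ⟨fun x hx g => hnor g (by rw [hJ]; exact Subgroup.mem_top g) x hx⟩
  have hL : (JN ⊓ V).Normal := inferInstance
  rcases hmin _ hL inf_le_right with h | h
  · exfalso
    apply hcen
    intro v hv
    rw [Subgroup.mem_center_iff]
    intro g
    obtain ⟨n, hn, w, hw, rfl⟩ := hdec g
    have h1 : n * v = v * n := by
      have h2 : n * v * n⁻¹ * v⁻¹ ∈ JN ⊓ V := by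
        refine Subgroup.mem_inf.2 ⟨?_, ?_⟩
        · have h3 := hJN.conj_mem n⁻¹ (JN.inv_mem hn) v
          have h4 := JN.mul_mem hn h3
          have h5 : n * (v * n⁻¹ * v⁻¹) = n * v * n⁻¹ * v⁻¹ := by group
          rwa [h5] at h4
        · exact V.mul_mem (hV.conj_mem v hv n) (V.inv_mem hv)
      rw [h, Subgroup.mem_bot] at h2
      have h6 := mul_inv_eq_one.1 h2
      calc n * v = (n * v * n⁻¹) * n := by group
        _ = v * n := by rw [h6]
    calc n * w * v = n * (w * v) := by group
      _ = n * (v * w) := by rw [hab w hw v hv]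
      _ = n * v * w := by group
      _ = v * n * w := by rw [h1]
      _ = v * (n * w) := by group
  · have hVJN : V ≤ JN := h.symm.le.trans inf_le_left
    rw [eq_top_iff, ← htop]
    exact sup_le le_rfl hVJN

end MP7b0bad.SV
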