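import Pool.Agent.Work.MP_7b0bad_ag.SV.VStmts

set_option autoImplicit false

/-!
# Item VH of the block SV
-/

namespace MP7b0bad.SV

open Polynomial

/-- a power series which is not constant is transcendental over the field -/
theorem VH_ps {k : Type} [Field k] (v : PowerSeries k) (hv : ∀ c : k, v ≠ PowerSeries.C c)
    (f : k[X]) (hf : f ≠ 0) : f.eval₂ (PowerSeries.C (R := k)) v ≠ 0 := by
  obtain ⟨q, hq, hnd⟩ := Polynomial.exists_eq_pow_rootMultiplicity_mul_and_not_dvd f hf
    (PowerSeries.constantCoeff (R := k) v)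
  rw [hq, Polynomial.eval₂_mul, Polynomial.eval₂_pow]
  apply mul_ne_zero
  · apply pow_ne_zero
    rw [Polynomial.eval₂_sub, Polynomial.eval₂_X, Polynomial.eval₂_C]
    exact sub_ne_zero.2 (hv _)
  · intro h0
    apply hnd
    rw [Polynomial.dvd_iff_isRoot, Polynomial.IsRoot.def]
    have h1 := congrArg (PowerSeries.constantCoeff (R := k)) h0
    rw [Polynomial.hom_eval₂, map_zero] at h1
    have h2 : (PowerSeries.constantCoeff (R := k)).comp (PowerSeries.C (R := k)) = RingHom.id k := by
      ext c
      simp
    rw [h2] at h1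
    exact h1

/-- a Laurent series of nonnegative order is a power series -/
theorem VH_nonneg {k : Type} [Field k] (u : LaurentSeries k) (h : 0 ≤ u.order) :
    ∃ v : PowerSeries k, u = HahnSeries.ofPowerSeries ℤ k v := by
  obtain ⟨n, hn⟩ := Int.eq_ofNat_of_zero_le h
  refine ⟨PowerSeries.X ^ n * u.powerSeriesPart, ?_⟩
  rw [map_mul, HahnSeries.ofPowerSeries_X_pow]
  have := LaurentSeries.single_order_mul_powerSeriesPart u
  rw [hn] at this
  exact this.symm

theorem VH_ofC {k : Type} [Field k] (c : k) :
    HahnSeries.ofPowerSeries ℤ k (PowerSeries.C c) = HahnSeries.C c := by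
  exact HahnSeries.ofPowerSeries_C c

theorem VH_pos {k : Type} [Field k] (u : LaurentSeries k) (hu : ∀ c : k, u ≠ HahnSeries.C c)
    (h : 0 ≤ u.order) (f : k[X]) (hf : f ≠ 0) : f.eval₂ (HahnSeries.C (Γ := ℤ)) u ≠ 0 := by
  obtain ⟨v, rfl⟩ := VH_nonneg u h
  have hC : (HahnSeries.ofPowerSeries ℤ k).comp (PowerSeries.C (R := k))
      = (HahnSeries.C : k →+* LaurentSeries k) := by
    ext1 c
    exact VH_ofC c
  rw [← hC, ← Polynomial.hom_eval₂]
  intro h0
  have h1 : f.eval₂ (PowerSeries.C (R := k)) v = 0 :=
    HahnSeries.ofPowerSeries_injective (by rw [h0, map_zero])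
  refine VH_ps v ?_ f hf h1
  intro c hc
  apply hu c
  rw [hc, VH_ofC]

theorem VH_tr {k : Type} [Field k] (u : LaurentSeries k) (hu : ∀ c : k, u ≠ HahnSeries.C c)
    (f : k[X]) (hf : f ≠ 0) : f.eval₂ (HahnSeries.C (Γ := ℤ)) u ≠ 0 := by
  rcases le_or_gt 0 u.order with h | h
  · exact VH_pos u hu h f hf
  · intro h0
    have hu0 : u ≠ 0 := by
      intro h1
      exact hu 0 (by rw [h1, map_zero])
    have h2 : f.reverse.eval₂ (HahnSeries.C (Γ := ℤ)) u⁻¹ = 0 := by
      let _ : Invertible u := invertibleOfNonzero hu0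
      have h5 := (Polynomial.eval₂_reverse_eq_zero_iff (HahnSeries.C (Γ := ℤ)) u f).2 h0
      rwa [invOf_eq_inv] at h5
    have hinv : (u⁻¹).order = - u.order := by
      have h3 : (u * u⁻¹).order = u.order + (u⁻¹).order :=
        HahnSeries.order_mul hu0 (inv_ne_zero hu0)
      rw [mul_inv_cancel₀ hu0, HahnSeries.order_one] at h3
      omega
    refine VH_pos u⁻¹ ?_ (by omega) f.reverse ?_ h2
    · intro c hc
      apply hu c⁻¹
      rw [← inv_inv u, hc, map_inv₀]
    · intro h3
      exact hf (Polynomial.reverse_eq_zero.1 h3)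

theorem VH_uniq {k K : Type} [Field k] [Field K] (h h' : RatFunc k →+* K)
    (hC : ∀ c : k, h (RatFunc.C c) = h' (RatFunc.C c)) (hX : h RatFunc.X = h' RatFunc.X) :
    h = h' := by
  apply IsLocalization.ringHom_ext (nonZeroDivisors k[X])
  apply Polynomial.ringHom_ext
  · intro c
    simp only [RingHom.comp_apply, RatFunc.algebraMap_C]
    exact hC c
  · simp only [RingHom.comp_apply, RatFunc.algebraMap_X]
    exact hX

theorem prf_VH : VH := by
  intro k _
  refine ⟨?_, ?_, ?_, ?_⟩
  · intro u hu
    have hinj : Function.Injective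
        (Polynomial.eval₂RingHom (HahnSeries.C : k →+* LaurentSeries k) u) := by
      rw [injective_iff_map_eq_zero]
      intro f hf0
      by_contra hf
      exact VH_tr u hu f hf hf0
    refine ⟨IsFractionRing.lift (K := RatFunc k) hinj, ?_, ?_⟩
    · intro c
      rw [← RatFunc.algebraMap_C, IsFractionRing.lift_algebraMap]
      simp
    · rw [← RatFunc.algebraMap_X, IsFractionRing.lift_algebraMap]
      simp
  · intro u h h' h1 h2
    apply VH_uniq h h'
    · intro c
      rw [h1.cst, h2.cst]
    · rw [h1.X, h2.X]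
  · intro f hf
    have hinj : Function.Injective ((algebraMap k[X] (RatFunc k)).comp
        (Polynomial.compRingHom f)) := by
      rw [injective_iff_map_eq_zero]
      intro g hg
      rw [RingHom.comp_apply, Polynomial.coe_compRingHom_apply] at hg
      have h1 : g.comp f = 0 := by
        apply IsFractionRing.injective k[X] (RatFunc k)
        rw [hg, map_zero]
      rcases Polynomial.comp_eq_zero_iff.1 h1 with h2 | ⟨_, h2⟩
      · exact h2
      · exfalso
        rw [h2] at hf
        simp at hf
    refine ⟨IsFractionRing.lift (K := RatFunc k) hinj, ?_, ?_⟩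
    · intro c
      rw [← RatFunc.algebraMap_C, IsFractionRing.lift_algebraMap]
      simp
    · rw [← RatFunc.algebraMap_X, IsFractionRing.lift_algebraMap]
      simp
  · intro f u h h' h1 h2
    refine ⟨?_, ?_⟩
    · intro c
      rw [RingHom.comp_apply, h1.cst, h2.cst]
    · rw [RingHom.comp_apply, h1.X]
      have h3 : h'.comp (algebraMap k[X] (RatFunc k))
          = Polynomial.eval₂RingHom (HahnSeries.C : k →+* LaurentSeries k) u := by
        apply Polynomial.ringHom_ext
        · intro c
          simp only [RingHom.comp_apply, RatFunc.algebraMap_C]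
          rw [h2.cst]
          simp
        · simp only [RingHom.comp_apply, RatFunc.algebraMap_X]
          rw [h2.X]
          simp
      exact congrArg (fun φ : k[X] →+* LaurentSeries k => φ f) h3

end MP7b0bad.SV
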