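import Pool.Agent.Work.MP_7b0bad_ag.SV.VStmts2

set_option autoImplicit false

/-!
# Item VJG: the join theorem in terms of homomorphisms
-/

namespace MP7b0bad.SV

open Polynomial

theorem VJG_atInf {k : Type} [Field k] {hI : RatFunc k →+* LaurentSeries k} (h : IsH hI (pI k))
    (f : k[X]) : hI (algebraMap k[X] (RatFunc k) f) = atInf k f := by
  have h1 : hI.comp (algebraMap k[X] (RatFunc k)) = atInf k := by
    apply Polynomial.ringHom_ext
    · intro c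
      rw [RingHom.comp_apply, RatFunc.algebraMap_C, h.cst]
      simp [atInf]
    · rw [RingHom.comp_apply, RatFunc.algebraMap_X, h.X]
      simp [atInf, pI]
  rw [← h1]
  rfl

theorem VJG_isR {k : Type} [Field k] {h : RatFunc k →+* RatFunc k} {f : k[X]} (H : IsR h f)
    (a : k[X]) : h (algebraMap k[X] (RatFunc k) a) = algebraMap k[X] (RatFunc k) (a.comp f) := by
  have h1 : h.comp (algebraMap k[X] (RatFunc k)) =
      (algebraMap k[X] (RatFunc k)).comp (Polynomial.compRingHom f) := by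
    apply Polynomial.ringHom_ext
    · intro c
      rw [RingHom.comp_apply, RatFunc.algebraMap_C, H.cst, RingHom.comp_apply]
      simp [RatFunc.algebraMap_C]
    · rw [RingHom.comp_apply, RatFunc.algebraMap_X, H.X, RingHom.comp_apply]
      simp
  have h2 := congrArg (fun g => g a) h1
  exact h2

/-- the field of the restriction to the place over infinity -/
theorem VJG_fld (hCp : VCp) (hFld : VFld) {k : Type} [Field k] {Ω Λ : Type} [Field Ω]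
    [Algebra (RatFunc k) Ω] [Field Λ] [Algebra (LaurentSeries k) Λ] [IsGalois (LaurentSeries k) Λ]
    {hI : RatFunc k →+* LaurentSeries k} {jI : Ω →+* Λ}
    {ρI : (Λ ≃ₐ[LaurentSeries k] Λ) →* (Ω ≃ₐ[RatFunc k] Ω)} (hcomp : Comp hI jI ρI)
    {G : Type} [Group G] [Finite G] (Φ : (Ω ≃ₐ[RatFunc k] Ω) →* G) (hc : Cts Φ)
    (G₀ : Subgroup G) (hr : (Φ.comp ρI).range = G₀) :
    ∃ (E : Type) (_ : Field E) (_ : Algebra (LaurentSeries k) E) (_ : MulSemiringAction G₀ E)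
      (ε : E →+* Λ), GalAlg (LaurentSeries k) G₀ E ∧
      (∀ a, ε (algebraMap (LaurentSeries k) E a) = algebraMap (LaurentSeries k) Λ a) ∧
      (∀ (τ : G₀) (δ : Λ ≃ₐ[LaurentSeries k] Λ), Φ (ρI δ) = (τ : G) →
        ∀ x : E, δ (ε x) = ε (τ • x)) ∧
      (∀ τ : G₀, ∃ δ : Λ ≃ₐ[LaurentSeries k] Λ, Φ (ρI δ) = (τ : G)) ∧
      ∀ y : Λ, (∀ δ : Λ ≃ₐ[LaurentSeries k] Λ, Φ (ρI δ) = 1 → δ y = y) → ∃ x, ε x = y := by
  have hmem : ∀ δ : Λ ≃ₐ[LaurentSeries k] Λ, (Φ.comp ρI) δ ∈ G₀ := by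
    intro δ
    rw [← hr]
    exact ⟨δ, rfl⟩
  let Ψ : (Λ ≃ₐ[LaurentSeries k] Λ) →* G₀ := (Φ.comp ρI).codRestrict G₀ hmem
  have hΨ : ∀ δ, ((Ψ δ : G₀) : G) = Φ (ρI δ) := fun δ => rfl
  have hsurj : Function.Surjective Ψ := by
    rintro ⟨g, hg⟩
    rw [← hr] at hg
    obtain ⟨δ, hδ⟩ := hg
    exact ⟨δ, Subtype.ext hδ⟩
  have hcts : Cts Ψ := by
    obtain ⟨S, hS⟩ := hCp.2.1 (RatFunc k) (LaurentSeries k) Ω Λ hI jI ρI hcomp G Φ hc
    exact ⟨S, fun γ hγ => Subtype.ext (hS γ hγ)⟩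
  obtain ⟨E, iE1, iE2, iE3, ε, hGalE, hεalg, hεact, hεfix⟩ :=
    hFld (LaurentSeries k) Λ G₀ Ψ hcts hsurj
  refine ⟨E, iE1, iE2, iE3, ε, hGalE, hεalg, ?_, ?_, ?_⟩
  · intro τ δ hδ x
    have : Ψ δ = τ := Subtype.ext hδ
    rw [hεact, this]
  · intro τ
    obtain ⟨δ, hδ⟩ := hsurj τ
    exact ⟨δ, by rw [← hΨ, hδ]⟩
  · intro y hy
    apply hεfix
    intro δ hδ
    apply hy
    rw [← hΨ, hδ]
    rfl

/-- a ring homomorphism with given values -/
theorem VJG_hom {B E Λ : Type} [CommRing B] [Field E] [Field Λ] (ε : E →+* Λ) (g : B →+* Λ)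
    (hex : ∀ b : B, ∃ x : E, ε x = g b) : ∃ ι : B →+* E, ∀ b, ε (ι b) = g b := by
  have hεinj : Function.Injective ε := ε.injective
  choose ι hι using hex
  refine ⟨{ toFun := ι
            map_one' := hεinj (by rw [hι, map_one, map_one])
            map_zero' := hεinj (by rw [hι, map_zero, map_zero])
            map_mul' := fun a b => hεinj (by rw [map_mul, hι, hι, hι, map_mul])
            map_add' := fun a b => hεinj (by rw [map_add, hι, hι, hι, map_add]) }, ?_⟩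
  intro b
  exact hι b

theorem prf_VJG (hJJ : JJ) (hRg : VRg) (hFld : VFld) (hCp : VCp) : VJG := by
  intro k _ p Ω Λ _ _ _ _ hI jI ρI hB G _ _ H G₀ h0 Φ hC hS
  obtain ⟨f, h, e, ρe, Ψ, _hf, hR, he, hΨc, hΨs, hΨu, hΨΦ⟩ := hS
  have := hB.galΛ
  have := hB.ac
  -- the cover with group `H`
  obtain ⟨BH, iB1, iB2, iB3, βH, hGalH, hdomH, hβHinj, hβHalg, hβHact⟩ :=
    hRg k p Ω Λ hI jI ρI hB H Φ hC.cts hC.surj hC.unr
  have hrH : (((H.subtype).comp Φ).comp ρI).range = G₀ := by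
    ext g
    constructor
    · rintro ⟨δ, rfl⟩
      have h1 : (Φ.comp ρI) δ ∈ (Φ.comp ρI).range := ⟨δ, rfl⟩
      rw [hC.inf] at h1
      exact h1
    · intro hg
      have h1 : (⟨g, h0 hg⟩ : H) ∈ G₀.subgroupOf H := hg
      rw [← hC.inf] at h1
      obtain ⟨δ, hδ⟩ := h1
      exact ⟨δ, congrArg Subtype.val hδ⟩
  obtain ⟨EH, iE1, iE2, iE3, εH, hGalEH, hεHalg, hεHact, hεHsurj, hεHfix⟩ :=
    VJG_fld hCp hFld hB.comp (H.subtype.comp Φ)
      (hCp.2.2 (RatFunc k) Ω H G Φ H.subtype hC.cts) G₀ hrH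
  have hactH : ∀ (δ : Λ ≃ₐ[LaurentSeries k] Λ) (b : BH),
      δ (jI (βH b)) = jI (βH (Φ (ρI δ) • b)) := by
    intro δ b
    rw [← hB.comp.res, hβHact]
  obtain ⟨ιH, hιH⟩ := VJG_hom εH (jI.comp βH) (by
    intro b
    apply hεHfix
    intro δ hδ
    have h1 : Φ (ρI δ) = 1 := Subtype.ext hδ
    change δ (jI (βH b)) = jI (βH b)
    rw [hactH, h1, one_smul])
  have hιH' : ∀ b, εH (ιH b) = jI (βH b) := hιH
  -- the cover with group `G`
  obtain ⟨BG, jB1, jB2, jB3, βG, hGalG, hdomG, hβGinj, hβGalg, hβGact⟩ :=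
    hRg k p Ω Λ hI jI ρI hB G Ψ hΨc hΨs hΨu
  obtain ⟨E', jE1, jE2, jE3, ε', hGalE', hε'alg, hε'act, hε'surj, hε'fix⟩ :=
    VJG_fld hCp hFld hB.comp Ψ hΨc (Ψ.comp ρI).range rfl
  have hP : (Ψ.comp ρI).range ≤ H := by
    rintro g ⟨δ, rfl⟩
    change Ψ (ρI δ) ∈ H
    rw [hΨΦ]
    exact (Φ (ρe (ρI δ))).2
  have hactG : ∀ (δ : Λ ≃ₐ[LaurentSeries k] Λ) (b : BG),
      δ (jI (βG b)) = jI (βG (Ψ (ρI δ) • b)) := by
    intro δ b
    rw [← hB.comp.res, hβGact]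
  obtain ⟨ι, hι⟩ := VJG_hom ε' (jI.comp βG) (by
    intro b
    apply hε'fix
    intro δ hδ
    change δ (jI (βG b)) = jI (βG b)
    rw [hactG, hδ, one_smul])
  have hι' : ∀ b, ε' (ι b) = jI (βG b) := hι
  have hacte : ∀ (δ : Λ ≃ₐ[LaurentSeries k] Λ) (b : BH),
      δ (jI (e (βH b))) = jI (e (βH (Φ (ρe (ρI δ)) • b))) := by
    intro δ b
    rw [← hB.comp.res, ← he.res, hβHact]
  obtain ⟨φ, hφ⟩ := VJG_hom ε' (jI.comp (e.comp βH)) (by
    intro b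
    apply hε'fix
    intro δ hδ
    have h1 : Φ (ρe (ρI δ)) = 1 := Subtype.ext (by rw [← hΨΦ, hδ]; rfl)
    change δ (jI (e (βH b))) = jI (e (βH b))
    rw [hacte, h1, one_smul])
  have hφ' : ∀ b, ε' (φ b) = jI (e (βH b)) := hφ
  refine hJJ k G H G₀ (Ψ.comp ρI).range h0 hP BH EH ιH hGalH hGalEH inferInstance ?_ ?_ BG E' ι φ f
    hGalG hdomG hGalE' ?_ ?_ ?_ ?_
  · intro a
    apply εH.injective
    rw [hιH', hβHalg, hB.comp.alg, hεHalg, VJG_atInf hB.isH]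
  · intro τ x
    obtain ⟨δ, hδ⟩ := hεHsurj τ
    have h1 : Φ (ρI δ) = Subgroup.inclusion h0 τ := Subtype.ext hδ
    apply εH.injective
    rw [hιH', ← hεHact τ δ hδ, hιH', hactH, h1]
  · intro a
    apply ε'.injective
    rw [hι', hβGalg, hB.comp.alg, hε'alg, VJG_atInf hB.isH]
  · intro τ x
    obtain ⟨δ, hδ⟩ := hε'surj τ
    apply ε'.injective
    rw [hι', ← hε'act τ δ hδ, hι', hactG, hδ]
  · intro a
    apply ε'.injective
    rw [hφ', hβHalg, he.alg, hB.comp.alg, hε'alg, VJG_isR hR, VJG_atInf hB.isH]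
  · intro τ x
    obtain ⟨δ, hδ⟩ := hε'surj τ
    have h1 : Φ (ρe (ρI δ)) = Subgroup.inclusion hP τ :=
      Subtype.ext (by rw [← hΨΦ, hδ]; rfl)
    apply ε'.injective
    rw [hφ', ← hε'act τ δ hδ, hφ', hacte, h1]

end MP7b0bad.SV
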