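import Pool.Agent.Work.MP_7b0bad_ag.SV.VStmts

set_option autoImplicit false

/-!
# Local lifting with group `P⟨c⟩` (item VLL)
-/

namespace MP7b0bad.SV

open Polynomial

section
variable {G : Type} [Group G] [Finite G]

omit [Finite G] in
theorem vll_conj {P : Subgroup G} {c : G} (hc : ∀ u ∈ P, c * u * c⁻¹ ∈ P) (i : ℕ) :
    ∀ u ∈ P, c ^ i * u * (c ^ i)⁻¹ ∈ P := by
  induction i with
  | zero => intro u hu; simpa using hu
  | succ i ih =>
    intro u hu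
    have h1 := hc _ (ih u hu)
    have h2 : c ^ (i + 1) * u * (c ^ (i + 1))⁻¹ = c * (c ^ i * u * (c ^ i)⁻¹) * c⁻¹ := by
      rw [pow_succ']
      group
    rw [h2]
    exact h1

theorem vll_inv (c : G) (i : ℕ) : (c ^ i)⁻¹ = c ^ (i * (orderOf c - 1)) := by
  rw [inv_eq_iff_mul_eq_one, ← pow_add]
  have h : 0 < orderOf c := orderOf_pos c
  have h2 : i + i * (orderOf c - 1) = orderOf c * i := by
    obtain ⟨m, hm⟩ : ∃ m, orderOf c = m + 1 := ⟨orderOf c - 1, by omega⟩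
    rw [hm]
    simp only [Nat.add_sub_cancel]
    ring
  rw [h2, pow_mul, pow_orderOf_eq_one, one_pow]

theorem vll_mem {P : Subgroup G} {c : G} (hc : ∀ u ∈ P, c * u * c⁻¹ ∈ P) {x : G}
    (hx : x ∈ P ⊔ Subgroup.zpowers c) : ∃ u ∈ P, ∃ i : ℕ, x = u * c ^ i := by
  let D : Subgroup G :=
    { carrier := {x | ∃ u ∈ P, ∃ i : ℕ, x = u * c ^ i}
      one_mem' := ⟨1, P.one_mem, 0, by simp⟩
      mul_mem' := by
        rintro _ _ ⟨u, hu, i, rfl⟩ ⟨v, hv, j, rfl⟩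
        refine ⟨u * (c ^ i * v * (c ^ i)⁻¹), P.mul_mem hu (vll_conj hc i v hv), i + j, ?_⟩
        rw [pow_add]
        group
      inv_mem' := by
        rintro _ ⟨u, hu, i, rfl⟩
        refine ⟨(c ^ i)⁻¹ * u⁻¹ * c ^ i, ?_, i * (orderOf c - 1), ?_⟩
        · have h := vll_conj hc (i * (orderOf c - 1)) u⁻¹ (P.inv_mem hu)
          rw [← vll_inv] at h
          simpa using h
        · rw [← vll_inv]
          group }
  have h1 : P ≤ D := fun u hu => ⟨u, hu, 0, by simp⟩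
  have h2 : Subgroup.zpowers c ≤ D := by
    rw [Subgroup.zpowers_le]
    exact ⟨1, P.one_mem, 1, by simp⟩
  exact sup_le h1 h2 hx

omit [Finite G] in
theorem vll_pow {P : Subgroup G} {c : G} (hc : ∀ u ∈ P, c * u * c⁻¹ ∈ P) {u : G} (hu : u ∈ P)
    (i m : ℕ) : ∃ v ∈ P, (u * c ^ i) ^ m = v * c ^ (i * m) := by
  induction m with
  | zero => exact ⟨1, P.one_mem, by simp⟩
  | succ m ih =>
    obtain ⟨v, hv, h⟩ := ih
    refine ⟨v * (c ^ (i * m) * u * (c ^ (i * m))⁻¹), P.mul_mem hv (vll_conj hc _ u hu), ?_⟩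
    rw [pow_succ, h, Nat.mul_succ, pow_add]
    group

end

theorem vll_coprime {p r : ℕ} (hp : p.Prime) (hr : r.Prime) (hrp : r ≠ p) {G : Type} [Group G]
    {P : Subgroup G} (hP : IsPGroup p P) {u : G} (hu : u ∈ P) (h : u ^ r = 1) : u = 1 := by
  obtain ⟨k, hk⟩ := hP ⟨u, hu⟩
  have hk' : u ^ p ^ k = 1 := by
    have := congrArg Subtype.val hk
    simpa using this
  have h1 : orderOf u ∣ r := orderOf_dvd_of_pow_eq_one h
  have h2 : orderOf u ∣ p ^ k := orderOf_dvd_of_pow_eq_one hk'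
  have h3 : Nat.Coprime r (p ^ k) :=
    Nat.Coprime.pow_right k ((Nat.coprime_primes hr hp).2 hrp)
  have h4 : orderOf u ∣ 1 := by
    rw [← h3]
    exact Nat.dvd_gcd h1 h2
  exact orderOf_eq_one_iff.1 (Nat.dvd_one.1 h4)

/-- a residue prime to `n'` lifts to a residue prime to `n` -/
theorem vll_lift {n n' j : ℕ} (hn : 0 < n) (hd : n' ∣ n) (hj : Nat.Coprime j n') :
    ∃ j' : ℕ, Nat.Coprime j' n ∧ j' ≡ j [MOD n'] := by
  have : NeZero n := ⟨hn.ne'⟩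
  obtain ⟨u, hu⟩ := ZMod.unitsMap_surjective hd (ZMod.unitOfCoprime j hj)
  refine ⟨(u : ZMod n).val, ZMod.val_coe_unit_coprime u, ?_⟩
  rw [← ZMod.natCast_eq_natCast_iff]
  have h := congrArg Units.val hu
  simp only [ZMod.unitsMap_def, Units.coe_map, ZMod.coe_unitOfCoprime, MonoidHom.coe_coe,
    ZMod.castHom_apply] at h
  rw [← h]
  simp

/-- the abstract form: `T δ m` stands for `δ t = ζ ^ m t` -/
theorem vll_core {p r : ℕ} (hp : p.Prime) (hr : r.Prime) (hrp : r ≠ p) {Γ G Q : Type} [Group Γ]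
    [Group G] [Finite G] [Group Q] (q : G →* Q) (P : Subgroup G) (c : G)
    (hexp : ∀ a : G, q a = 1 → a ^ r = 1) (hP : IsPGroup p P)
    (hc : ∀ u ∈ P, c * u * c⁻¹ ∈ P) (hpc : ¬ p ∣ orderOf c) (φ : Γ →* Q)
    (hφr : φ.range = (P ⊔ Subgroup.zpowers c).map q) (T : Γ → ℕ → Prop)
    (hTm : ∀ δ δ' m m', T δ m → T δ' m' → T (δ * δ') (m + m')) (hTe : ∀ δ, ∃ m, T δ m)
    (hTu : ∀ δ m m', T δ m → T δ m' → m ≡ m' [MOD orderOf c]) (hT1 : ∃ τ, T τ 1)
    (hchar : ∀ (A : Type) [CommGroup A] [Finite A] (χ : Γ →* A), (∀ δ, φ δ = 1 → χ δ = 1) →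
      (∀ a : A, a ^ orderOf c = 1) → ∃ a : A, ∀ δ m, T δ m → χ δ = a ^ m) :
    ∃ Ψ : Γ →* G, Ψ.range = P ⊔ Subgroup.zpowers c ∧ (∀ δ, q (Ψ δ) = φ δ) ∧
      ∀ δ, φ δ = 1 → T δ 0 → Ψ δ = 1 := by
  classical
  have hn : 0 < orderOf c := orderOf_pos c
  -- the quotient `q(D) / q(P)`
  let H : Subgroup Q := φ.range
  have hHmem : ∀ x : Q, x ∈ H ↔ ∃ u ∈ P, ∃ i : ℕ, x = q (u * c ^ i) := by
    intro x
    show x ∈ φ.range ↔ _
    rw [hφr]
    constructor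
    · rintro ⟨y, hy, rfl⟩
      obtain ⟨u, hu, i, rfl⟩ := vll_mem hc hy
      exact ⟨u, hu, i, rfl⟩
    · rintro ⟨u, hu, i, rfl⟩
      exact ⟨u * c ^ i, Subgroup.mul_mem _ (Subgroup.mem_sup_left hu)
        (Subgroup.mem_sup_right (Subgroup.pow_mem _ (Subgroup.mem_zpowers c) i)), rfl⟩
  let N : Subgroup H := (P.map q).subgroupOf H
  have hNmem : ∀ x : H, x ∈ N ↔ ∃ u ∈ P, q u = (x : Q) := by
    intro x
    exact Subgroup.mem_subgroupOf
  have hNn : N.Normal := by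
    refine ⟨fun x hx g => ?_⟩
    rw [hNmem] at hx ⊢
    obtain ⟨v, hv, hvx⟩ := hx
    obtain ⟨u, hu, i, hg⟩ := (hHmem (g : Q)).1 g.2
    refine ⟨u * (c ^ i * v * (c ^ i)⁻¹) * u⁻¹,
      P.mul_mem (P.mul_mem hu (vll_conj hc i v hv)) (P.inv_mem hu), ?_⟩
    simp only [Subgroup.coe_mul, Subgroup.coe_inv, hg, ← hvx, map_mul, map_inv]
    group
  have hcH : q c ∈ H := (hHmem _).2 ⟨1, P.one_mem, 1, by simp⟩
  let C : H ⧸ N := QuotientGroup.mk' N ⟨q c, hcH⟩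
  have hC : ∀ (x : H) (u : G) (i : ℕ), u ∈ P → (x : Q) = q (u * c ^ i) →
      QuotientGroup.mk' N x = C ^ i := by
    intro x u i hu hx
    have h1 : C ^ i = QuotientGroup.mk' N (⟨q c, hcH⟩ ^ i) := by
      rw [map_pow]
    rw [h1, eq_comm]
    show (((⟨q c, hcH⟩ ^ i : H)) : H ⧸ N) = ((x : H) : H ⧸ N)
    rw [QuotientGroup.eq, hNmem]
    refine ⟨(c ^ i)⁻¹ * u * c ^ i, ?_, ?_⟩
    · have h := vll_conj hc (i * (orderOf c - 1)) u hu
      rw [← vll_inv] at h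
      simpa using h
    · simp only [Subgroup.coe_mul, Subgroup.coe_inv, Subgroup.coe_pow, hx, map_mul, map_inv,
        map_pow]
      group
  have hgen : ∀ y : H ⧸ N, ∃ i : ℕ, y = C ^ i := by
    intro y
    obtain ⟨x, rfl⟩ := QuotientGroup.mk'_surjective N y
    obtain ⟨u, hu, i, hx⟩ := (hHmem (x : Q)).1 x.2
    exact ⟨i, hC x u i hu hx⟩
  have hCn : C ^ orderOf c = 1 := by
    have h1 : C ^ orderOf c = QuotientGroup.mk' N (⟨q c, hcH⟩ ^ orderOf c) := by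
      rw [map_pow]
    have h2 : (⟨q c, hcH⟩ ^ orderOf c : H) = 1 := by
      apply Subtype.ext
      simp only [Subgroup.coe_pow, Subgroup.coe_one]
      rw [← map_pow, pow_orderOf_eq_one, map_one]
    rw [h1, h2, map_one]
  have hfinH : Finite H := by
    have hf : Finite ((P ⊔ Subgroup.zpowers c).map q) :=
      (((P ⊔ Subgroup.zpowers c : Subgroup G) : Set G).toFinite.image q).to_subtype
    show Finite φ.range
    rw [hφr]
    exact hf
  let _ : CommGroup (H ⧸ N) :=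
    { (inferInstance : Group (H ⧸ N)) with
      mul_comm := by
        intro x y
        obtain ⟨i, rfl⟩ := hgen x
        obtain ⟨j, rfl⟩ := hgen y
        rw [← pow_add, ← pow_add, add_comm] }
  let χ : Γ →* (H ⧸ N) := (QuotientGroup.mk' N).comp φ.rangeRestrict
  obtain ⟨a, ha⟩ := hchar (H ⧸ N) χ (by
    intro δ hδ
    have h1 : φ.rangeRestrict δ = 1 := Subtype.ext hδ
    show QuotientGroup.mk' N (φ.rangeRestrict δ) = 1
    rw [h1, map_one]) (by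
    intro y
    obtain ⟨i, rfl⟩ := hgen y
    rw [← pow_mul, mul_comm, pow_mul, hCn, one_pow])
  obtain ⟨j, hj⟩ := hgen a
  -- `j` is prime to the order of `C`
  have hjc : Nat.Coprime j (orderOf C) := by
    obtain ⟨δ₀, hδ₀⟩ : ∃ δ, φ δ = q c := id hcH
    obtain ⟨m₀, hm₀⟩ := hTe δ₀
    have h1 := ha δ₀ m₀ hm₀
    have h2 : χ δ₀ = C := by
      show QuotientGroup.mk' N (φ.rangeRestrict δ₀) = QuotientGroup.mk' N ⟨q c, hcH⟩
      congr 1
      exact Subtype.ext hδ₀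
    rw [h2, hj, ← pow_mul] at h1
    have h3 : C ^ (j * m₀) = C ^ 1 := by rw [← h1, pow_one]
    have h4 : j * m₀ ≡ 1 [MOD orderOf C] := pow_eq_pow_iff_modEq.1 h3
    have h5 := h4.gcd_eq
    rw [Nat.gcd_one_left] at h5
    exact Nat.Coprime.coprime_mul_right h5
  obtain ⟨j', hj'c, hj'⟩ := vll_lift hn (orderOf_dvd_of_pow_eq_one hCn) hjc
  have ha' : a = C ^ j' := by
    rw [hj]
    exact (pow_eq_pow_iff_modEq.2 hj').symm
  -- the relation
  let R : Γ → G → Prop := fun δ d => q d = φ δ ∧ ∃ u ∈ P, ∃ m : ℕ, d = u * c ^ (j' * m) ∧ T δ m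
  have hRe : ∀ δ, ∃ d, R δ d := by
    intro δ
    obtain ⟨m, hm⟩ := hTe δ
    have h1 := ha δ m hm
    rw [ha', ← pow_mul] at h1
    have hx : ((⟨q c, hcH⟩ ^ (j' * m) : H) : H ⧸ N) = (φ.rangeRestrict δ : H ⧸ N) := by
      have h2 : C ^ (j' * m) = QuotientGroup.mk' N (⟨q c, hcH⟩ ^ (j' * m)) := by
        rw [map_pow]
      exact h2.symm.trans h1.symm
    rw [QuotientGroup.eq, hNmem] at hx
    obtain ⟨u, hu, hux⟩ := hx
    simp only [Subgroup.coe_mul, Subgroup.coe_inv, Subgroup.coe_pow,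
      MonoidHom.coe_rangeRestrict] at hux
    refine ⟨c ^ (j' * m) * u, ?_, c ^ (j' * m) * u * (c ^ (j' * m))⁻¹, vll_conj hc _ u hu, m, ?_,
      hm⟩
    · rw [map_mul, map_pow, hux]
      group
    · group
  have hRu : ∀ δ d d', R δ d → R δ d' → d = d' := by
    rintro δ _ _ ⟨h1, u, hu, m, rfl, hm⟩ ⟨h2, u', hu', m', rfl, hm'⟩
    have h3 : c ^ (j' * m) = c ^ (j' * m') :=
      pow_eq_pow_iff_modEq.2 ((hTu δ m m' hm hm').mul_left j')
    rw [h3] at h1 ⊢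
    have h4 : q (u * u'⁻¹) = 1 := by
      rw [map_mul, map_inv]
      rw [map_mul] at h1 h2
      have h5 : q u = q u' := mul_right_cancel (h1.trans h2.symm)
      rw [h5]
      group
    have h5 := vll_coprime hp hr hrp hP (P.mul_mem hu (P.inv_mem hu')) (hexp _ h4)
    rw [mul_inv_eq_one.1 h5]
  have hRm : ∀ δ δ' d d', R δ d → R δ' d' → R (δ * δ') (d * d') := by
    rintro δ δ' _ _ ⟨h1, u, hu, m, rfl, hm⟩ ⟨h2, u', hu', m', rfl, hm'⟩
    refine ⟨by rw [map_mul φ, ← h1, ← h2, ← map_mul],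
      u * (c ^ (j' * m) * u' * (c ^ (j' * m))⁻¹), P.mul_mem hu (vll_conj hc _ u' hu'), m + m', ?_,
      hTm _ _ _ _ hm hm'⟩
    rw [mul_add, pow_add]
    group
  choose f hf using hRe
  let Ψ : Γ →* G := MonoidHom.mk' f fun δ δ' => hRu _ _ _ (hf _) (hRm _ _ _ _ (hf δ) (hf δ'))
  have hΨ : ∀ δ, R δ (Ψ δ) := hf
  have hPI : P ≤ Ψ.range := by
    intro u hu
    obtain ⟨δ, hδ⟩ : ∃ δ, φ δ = q u := (hHmem (q u)).2 ⟨u, hu, 0, by simp⟩
    obtain ⟨h1, v, hv, m, h2, -⟩ := hΨ δ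
    have : Fact p.Prime := ⟨hp⟩
    obtain ⟨e, he⟩ := IsPGroup.iff_card.1 hP
    have hcop : Nat.Coprime (Nat.card P) (orderOf c) := by
      rw [he]
      exact Nat.Coprime.pow_left e ((Nat.Prime.coprime_iff_not_dvd hp).2 hpc)
    obtain ⟨M, hM1, hM2⟩ := Nat.chineseRemainder hcop 1 0
    have h3 : u ^ M = u := by
      have h4 : orderOf u ∣ Nat.card P := by
        have := orderOf_dvd_natCard (⟨u, hu⟩ : P)
        rwa [Subgroup.orderOf_mk] at this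
      have h5 : u ^ M = u ^ 1 := pow_eq_pow_iff_modEq.2 (hM1.of_dvd h4)
      rw [h5, pow_one]
    have h4 : (Ψ δ) ^ M ∈ P := by
      rw [h2]
      obtain ⟨w, hw, h5⟩ := vll_pow hc hv (j' * m) M
      have h6 : c ^ (j' * m * M) = 1 := by
        obtain ⟨M', hM'⟩ := (Nat.modEq_zero_iff_dvd).1 hM2
        rw [hM', show j' * m * (orderOf c * M') = orderOf c * (j' * m * M') by ring, pow_mul,
          pow_orderOf_eq_one, one_pow]
      rw [h5, h6, mul_one]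
      exact hw
    have h5 : q ((Ψ δ) ^ M * u⁻¹) = 1 := by
      rw [map_mul, map_pow, h1, hδ, ← map_pow, h3, ← map_mul, mul_inv_cancel, map_one]
    have h6 := vll_coprime hp hr hrp hP (P.mul_mem h4 (P.inv_mem hu)) (hexp _ h5)
    have h7 : Ψ δ ∈ Ψ.range := ⟨δ, rfl⟩
    rw [← mul_inv_eq_one.1 h6]
    exact Subgroup.pow_mem _ h7 M
  refine ⟨Ψ, le_antisymm ?_ ?_, fun δ => (hΨ δ).1, ?_⟩
  · rintro _ ⟨δ, rfl⟩
    obtain ⟨-, u, hu, m, h2, -⟩ := hΨ δ
    rw [h2]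
    exact Subgroup.mul_mem _ (Subgroup.mem_sup_left hu)
      (Subgroup.mem_sup_right (Subgroup.pow_mem _ (Subgroup.mem_zpowers c) _))
  · refine sup_le hPI ?_
    obtain ⟨τ, hτ⟩ := hT1
    obtain ⟨-, u, hu, m, h2, h3⟩ := hΨ τ
    have h4 : c ^ (j' * m) = c ^ j' := by
      refine pow_eq_pow_iff_modEq.2 ?_
      have := (hTu τ m 1 h3 hτ).mul_left j'
      rwa [mul_one] at this
    rw [h4] at h2
    have h5 : c ^ j' ∈ Ψ.range := by
      have h6 : c ^ j' = u⁻¹ * Ψ τ := by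
        rw [h2]
        group
      have h7 : Ψ τ ∈ Ψ.range := ⟨τ, rfl⟩
      rw [h6]
      exact Subgroup.mul_mem _ (Subgroup.inv_mem _ (hPI hu)) h7
    rw [Subgroup.zpowers_le]
    obtain ⟨s, hs⟩ := exists_pow_eq_self_of_coprime hj'c
    rw [← hs]
    exact Subgroup.pow_mem _ h5 s
  · intro δ hδ hT0
    exact hRu δ _ _ (hΨ δ) ⟨by rw [map_one, hδ], 1, P.one_mem, 0, by simp, hT0⟩

theorem prf_VLL (hLT : VLT) : VLL := by
  intro k _ _ p r _ _ Λ _ _ _ _ hr hrp G Q _ _ _ q P c _ hexp hP hc hpc φ hφ hφr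
  have hp : p.Prime := Fact.out
  have hn : 0 < orderOf c := orderOf_pos c
  have hnk : (orderOf c : k) ≠ 0 := fun h => hpc ((CharP.cast_eq_zero_iff k p _).1 h)
  have : NeZero (orderOf c : k) := ⟨hnk⟩
  obtain ⟨ζ, hζ⟩ : ∃ ζ : k, IsPrimitiveRoot ζ (orderOf c) :=
    HasEnoughRootsOfUnity.exists_primitiveRoot k (orderOf c)
  obtain ⟨⟨t, ht⟩, hall⟩ := hLT k p Λ (orderOf c) ζ hn hpc hζ
  obtain ⟨⟨τ, hτ⟩, hex, hchar⟩ := hall t ht
  have ht0 : t ≠ 0 := by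
    intro h0
    have h1 := ht.root
    rw [h0, zero_pow hn.ne', eq_comm] at h1
    have h2 : (HahnSeries.single (1 : ℤ) (1 : k) : LaurentSeries k) = 0 :=
      (map_eq_zero_iff _ (algebraMap (LaurentSeries k) Λ).injective).1 h1
    exact one_ne_zero (HahnSeries.single_eq_zero_iff.1 h2)
  have hinj : ∀ x y : k, cΛ Λ x = cΛ Λ y → x = y := by
    intro x y h
    exact HahnSeries.C_injective ((algebraMap (LaurentSeries k) Λ).injective h)
  have hmul : ∀ x y : k, cΛ Λ (x * y) = cΛ Λ x * cΛ Λ y := by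
    intro x y
    unfold cΛ
    rw [map_mul, map_mul]
  have hfix : ∀ (δ : Λ ≃ₐ[LaurentSeries k] Λ) (x : k), δ (cΛ Λ x) = cΛ Λ x := by
    intro δ x
    exact δ.commutes _
  obtain ⟨S, hS⟩ := hφ
  obtain ⟨Ψ, h1, h2, h3⟩ := vll_core hp hr hrp q P c hexp hP hc hpc φ hφr
    (fun δ m => δ t = cΛ Λ (ζ ^ m) * t)
    (by
      intro δ δ' m m' h h'
      show δ (δ' t) = _
      rw [h', map_mul, hfix, h, pow_add, hmul]
      ring)
    hex
    (by
      intro δ m m' h h'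
      have h4 : cΛ Λ (ζ ^ m) = cΛ Λ (ζ ^ m') := mul_right_cancel₀ ht0 (h.symm.trans h')
      have h5 := hinj _ _ h4
      rw [hζ.eq_orderOf]
      exact (IsOfFinOrder.pow_eq_pow_iff_modEq
        (isOfFinOrder_iff_pow_eq_one.2 ⟨_, hn, hζ.pow_eq_one⟩)).1 h5)
    ⟨τ, by rw [hτ, pow_one]⟩
    (by
      intro A _ _ χ hχ hA
      refine hchar A χ ⟨S, fun γ hγ => hχ γ (hS γ hγ)⟩ hA)
  refine ⟨Ψ, ?_, h1, h2⟩
  classical
  refine ⟨insert t S, fun γ hγ => h3 γ (hS γ fun x hx => hγ x (Finset.mem_insert_of_mem hx)) ?_⟩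
  show γ t = _
  rw [hγ t (Finset.mem_insert_self t S), pow_zero]
  unfold cΛ
  rw [map_one, map_one, one_mul]

end MP7b0bad.SV
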