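import Mathlib
import Pool.Agent.Work.MP_7b0bad_ag.SV.VStmts

set_option autoImplicit false

/-!
# Local classes are Kummer classes
-/

namespace MP7b0bad.SV

open Polynomial

lemma VLS_act {r : ℕ} {G A Q : Type} [Group G] [CommGroup A] [Group Q] {i : A →* G}
    {act : G →* MulAut A} {q : G →* Q} (hA : AbK r i act) (hq : ∀ g : G, q g = 1 ↔ g ∈ i.range)
    {h h' : G} (hh : q h = q h') (a : A) : act h a = act h' a := by
  have h1 : q (h⁻¹ * h') = 1 := by rw [map_mul, map_inv, hh, inv_mul_cancel]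
  obtain ⟨n, hn⟩ := (hq _).1 h1
  apply hA.inj
  rw [hA.conj, hA.conj]
  have h2 : h' = h * i n := by rw [hn]; group
  rw [h2]
  have h3 : i n * i a * (i n)⁻¹ = i a := by
    rw [← map_inv, ← map_mul, ← map_mul]
    congr 1
    rw [mul_comm n a, mul_inv_cancel_right]
  calc h * i a * h⁻¹ = h * (i n * i a * (i n)⁻¹) * h⁻¹ := by rw [h3]
    _ = h * i n * i a * (h * i n)⁻¹ := by group

lemma VLS_mod {k : Type} [Field k] {r : ℕ} {ζ : k} (hr : 0 < r)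
    (hζ : IsPrimitiveRoot ζ r) {e e' : ℕ} (h : ζ ^ e = ζ ^ e') : e ≡ e' [MOD r] := by
  have hz : ζ ≠ 0 := hζ.ne_zero hr.ne'
  rcases le_total e e' with hle | hle
  · have h1 : ζ ^ (e' - e) = 1 := by
      have h2 : ζ ^ e * ζ ^ (e' - e) = ζ ^ e * 1 := by
        rw [← pow_add, Nat.add_sub_cancel' hle, mul_one, h]
      exact mul_left_cancel₀ (pow_ne_zero _ hz) h2
    exact (Nat.modEq_iff_dvd' hle).2 (hζ.dvd_of_pow_eq_one _ h1)
  · have h1 : ζ ^ (e - e') = 1 := by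
      have h2 : ζ ^ e' * ζ ^ (e - e') = ζ ^ e' * 1 := by
        rw [← pow_add, Nat.add_sub_cancel' hle, mul_one, h]
      exact mul_left_cancel₀ (pow_ne_zero _ hz) h2
    exact ((Nat.modEq_iff_dvd' hle).2 (hζ.dvd_of_pow_eq_one _ h1)).symm

lemma VLS_pow_mod {M : Type} [Monoid M] {r : ℕ} {a : M} (ha : a ^ r = 1) {e e' : ℕ}
    (h : e ≡ e' [MOD r]) : a ^ e = a ^ e' := by
  rw [← Nat.mod_add_div e r, ← Nat.mod_add_div e' r, pow_add, pow_add, pow_mul, pow_mul, ha,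
    one_pow, one_pow, mul_one, mul_one, h]

/-- The constants of `Λ` as a ring homomorphism. -/
lemma VLS_cΛ_inj {k : Type} [Field k] {Λ : Type} [Field Λ] [Algebra (LaurentSeries k) Λ]
    {c c' : k} (h : cΛ Λ c = cΛ Λ c') : c = c' := by
  unfold cΛ at h
  exact HahnSeries.C_injective ((algebraMap (LaurentSeries k) Λ).injective h)

lemma VLS_cΛ_pow {k : Type} [Field k] {Λ : Type} [Field Λ] [Algebra (LaurentSeries k) Λ]
    (c : k) (n : ℕ) : cΛ Λ (c ^ n) = cΛ Λ c ^ n := by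
  unfold cΛ
  rw [map_pow, map_pow]

lemma VLS_cΛ_mul {k : Type} [Field k] {Λ : Type} [Field Λ] [Algebra (LaurentSeries k) Λ]
    (c c' : k) : cΛ Λ (c * c') = cΛ Λ c * cΛ Λ c' := by
  unfold cΛ
  rw [map_mul, map_mul]

lemma VLS_cΛ_one {k : Type} [Field k] {Λ : Type} [Field Λ] [Algebra (LaurentSeries k) Λ] :
    cΛ Λ (1 : k) = 1 := by
  unfold cΛ
  rw [map_one, map_one]

lemma VLS_cΛ_ne {k : Type} [Field k] {Λ : Type} [Field Λ] [Algebra (LaurentSeries k) Λ]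
    {c : k} (h : c ≠ 0) : cΛ Λ c ≠ 0 := by
  intro h1
  apply h
  apply VLS_cΛ_inj (Λ := Λ)
  rw [h1]
  unfold cΛ
  rw [map_zero, map_zero]

lemma VLS_fix {k : Type} [Field k] {Λ : Type} [Field Λ] [Algebra (LaurentSeries k) Λ]
    (δ : Λ ≃ₐ[LaurentSeries k] Λ) (c : k) : δ (cΛ Λ c) = cΛ Λ c := by
  unfold cΛ
  exact δ.commutes _

/-- The key computation, once the tame data is chosen. -/
lemma VLS_core {k : Type} [Field k] {p r : ℕ} [Fact p.Prime]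
    {Λ : Type} [Field Λ] [Algebra (LaurentSeries k) Λ] {ζ : k} (hr : r.Prime) (hrp : r ≠ p)
    (hζ : IsPrimitiveRoot ζ r)
    {G A Q : Type} [Group G] [Finite G] [CommGroup A] [Finite A] [Group Q] [Fintype Q]
    {i : A →* G} {act : G →* MulAut A} {q : G →* Q} (hA : AbK r i act)
    (hq : ∀ g : G, q g = 1 ↔ g ∈ i.range) {Ψ Ψ₁ : (Λ ≃ₐ[LaurentSeries k] Λ) →* G}
    (hΨ : ∀ δ, q (Ψ δ) = q (Ψ₁ δ)) (g : Q → G) (hg : ∀ c, q (g c) = c)
    {N M f : ℕ} {z : k} {t : Λ} (hN : N = M * f * r) (hN0 : 0 < N) (hz : IsPrimitiveRoot z N)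
    (ht0 : t ≠ 0) (τ : Λ ≃ₐ[LaurentSeries k] Λ) (hτ : τ t = cΛ Λ z * t)
    (μ : (Λ ≃ₐ[LaurentSeries k] Λ) → ℕ) (hμ : ∀ δ, δ t = cΛ Λ (z ^ μ δ) * t)
    (hP1 : IsPGroup p ((MulAction.stabilizer (Λ ≃ₐ[LaurentSeries k] Λ) t).map Ψ₁))
    (hf : ∀ m : ℕ, q (Ψ₁ τ) ^ m ∈
      ((MulAction.stabilizer (Λ ≃ₐ[LaurentSeries k] Λ) t).map Ψ₁).map q ↔ f ∣ m)
    (b : A) (hb : ∀ δ ∈ MulAction.stabilizer (Λ ≃ₐ[LaurentSeries k] Λ) t,
      Ψ δ = (i b)⁻¹ * Ψ₁ δ * i b) :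
    ∃ (m : A) (e w : Q → Λ), (∀ c, e c ≠ 0) ∧ (∀ c, w c ^ r = e c) ∧
    (∀ (δ : Λ ≃ₐ[LaurentSeries k] Λ) c, δ (e c) = e (q (Ψ₁ δ) * c)) ∧
    ∀ (δ : Λ ≃ₐ[LaurentSeries k] Λ) (ε : Q → ℕ),
      (∀ c, δ (w c) = cΛ Λ (ζ ^ ε c) * w (q (Ψ₁ δ) * c)) →
      Ψ δ = i (act (Ψ₁ δ) b * b⁻¹ * ∏ c, act (Ψ₁ δ * g c) m ^ ε c) * Ψ₁ δ := by
  classical
  set K := MulAction.stabilizer (Λ ≃ₐ[LaurentSeries k] Λ) t with hK
  set P := (K.map Ψ₁).map q with hP
  have hr0 : 0 < r := hr.pos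
  have : NeZero r := ⟨hr0.ne'⟩
  have hM0 : 0 < M := by
    rcases Nat.eq_zero_or_pos M with h | h
    · subst h; simp at hN; omega
    · exact h
  have hf0 : 0 < f := by
    rcases Nat.eq_zero_or_pos f with h | h
    · subst h; simp at hN; omega
    · exact h
  have hfN : f ∣ N := ⟨M * r, by rw [hN]; ring⟩
  have hzN : z ^ N = 1 := hz.pow_eq_one
  have hz0 : z ≠ 0 := hz.ne_zero hN0.ne'
  have hmemK : ∀ δ : Λ ≃ₐ[LaurentSeries k] Λ, δ ∈ K ↔ δ t = t := fun δ =>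
    MulAction.mem_stabilizer_iff
  -- the exponent function
  have hμu : ∀ (δ : Λ ≃ₐ[LaurentSeries k] Λ) (a : ℕ), δ t = cΛ Λ (z ^ a) * t →
      μ δ ≡ a [MOD N] := by
    intro δ a h
    rw [hμ δ] at h
    exact VLS_mod hN0 hz (VLS_cΛ_inj (mul_right_cancel₀ ht0 h))
  have hμmul : ∀ δ δ' : Λ ≃ₐ[LaurentSeries k] Λ, μ (δ * δ') ≡ μ δ + μ δ' [MOD N] := by
    intro δ δ'
    apply hμu
    show δ (δ' t) = _
    rw [hμ δ', map_mul, VLS_fix, hμ δ, ← mul_assoc, ← VLS_cΛ_mul, ← pow_add, add_comm]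
  have hμK : ∀ δ, δ ∈ K ↔ N ∣ μ δ := by
    intro δ
    rw [hmemK]
    constructor
    · intro h
      have h1 := hμu δ 0 (by rw [h, pow_zero, VLS_cΛ_one, one_mul])
      exact (Nat.modEq_zero_iff_dvd).1 h1
    · rintro ⟨a, ha⟩
      rw [hμ δ, ha, pow_mul, hzN, one_pow, VLS_cΛ_one, one_mul]
  have hμτ : μ τ ≡ 1 [MOD N] := hμu τ 1 (by rw [pow_one]; exact hτ)
  have hμτn : ∀ n : ℕ, μ (τ ^ n) ≡ n [MOD N] := by
    intro n
    induction n with
    | zero =>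
      rw [pow_zero]
      apply hμu
      rw [pow_zero, VLS_cΛ_one, one_mul]
      rfl
    | succ n ih =>
      rw [pow_succ]
      exact (hμmul _ _).trans (Nat.ModEq.add ih hμτ)
  -- every element is `τ ^ n * κ`
  have hdec : ∀ δ : Λ ≃ₐ[LaurentSeries k] Λ, (τ ^ μ δ)⁻¹ * δ ∈ K := by
    intro δ
    rw [hmemK]
    have h1 : (τ ^ μ δ) t = δ t := by
      rw [hμ (τ ^ μ δ), hμ δ]
      congr 2
      exact VLS_pow_mod hzN (hμτn _)
    show (τ ^ μ δ)⁻¹ (δ t) = t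
    rw [← h1]
    show ((τ ^ μ δ)⁻¹ * τ ^ μ δ) t = t
    rw [inv_mul_cancel]
    rfl
  have hKP : ∀ δ ∈ K, q (Ψ₁ δ) ∈ P := fun δ hδ =>
    Subgroup.mem_map_of_mem _ (Subgroup.mem_map_of_mem _ hδ)
  have hmemP : ∀ c, c ∈ P ↔ ∃ δ ∈ K, q (Ψ₁ δ) = c := by
    intro c
    constructor
    · rintro ⟨_, ⟨δ, hδ, rfl⟩, rfl⟩
      exact ⟨δ, hδ, rfl⟩
    · rintro ⟨δ, hδ, rfl⟩
      exact hKP δ hδ
  -- `P` in terms of `μ`
  have hPμ : ∀ δ, q (Ψ₁ δ) ∈ P ↔ f ∣ μ δ := by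
    intro δ
    rw [← hf]
    have h1 : q (Ψ₁ τ) ^ μ δ * q (Ψ₁ ((τ ^ μ δ)⁻¹ * δ)) = q (Ψ₁ δ) := by
      rw [map_mul Ψ₁, map_mul q, map_inv, map_inv, map_pow, map_pow, mul_inv_cancel_left]
    have h2 := hKP _ (hdec δ)
    rw [← h1]
    exact Subgroup.mul_mem_cancel_right P h2
  -- `D` and the index
  let inD : Q → Prop := fun c => ∃ δ, q (Ψ₁ δ) = c
  have hinD : ∀ (δ : Λ ≃ₐ[LaurentSeries k] Λ) (c : Q), inD (q (Ψ₁ δ) * c) ↔ inD c := by
    intro δ c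
    constructor
    · rintro ⟨δ', h⟩
      refine ⟨δ⁻¹ * δ', ?_⟩
      rw [map_mul, map_mul, h, map_inv, map_inv, inv_mul_cancel_left]
    · rintro ⟨δ', h⟩
      exact ⟨δ * δ', by rw [map_mul, map_mul, h]⟩
  let jj : Q → ℕ := fun c => if h : inD c then μ h.choose % f else 0
  have hjj : ∀ δ, jj (q (Ψ₁ δ)) = μ δ % f := by
    intro δ
    have h : inD (q (Ψ₁ δ)) := ⟨δ, rfl⟩
    have h1 : jj (q (Ψ₁ δ)) = μ h.choose % f := dif_pos h
    rw [h1]
    have h2 := h.choose_spec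
    set δ' := h.choose
    have h3 : q (Ψ₁ (δ'⁻¹ * δ)) ∈ P := by
      rw [map_mul, map_mul, map_inv, map_inv, h2, inv_mul_cancel]
      exact one_mem P
    rw [hPμ] at h3
    have h4 := hμmul δ' (δ'⁻¹ * δ)
    rw [mul_inv_cancel_left] at h4
    have h5 : μ δ ≡ μ δ' + μ (δ'⁻¹ * δ) [MOD f] := h4.of_dvd hfN
    have h6 : μ δ' + μ (δ'⁻¹ * δ) ≡ μ δ' + 0 [MOD f] :=
      Nat.ModEq.add_left _ ((Nat.modEq_zero_iff_dvd).2 h3)
    exact ((h5.trans h6).symm : μ δ' + 0 ≡ μ δ [MOD f])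
  have hjlt : ∀ c, jj c < f := by
    intro c
    by_cases h : inD c
    · have h1 : jj c = μ h.choose % f := dif_pos h
      rw [h1]; exact Nat.mod_lt _ hf0
    · have h1 : jj c = 0 := dif_neg h
      rw [h1]; exact hf0
  have hjmul : ∀ (δ : Λ ≃ₐ[LaurentSeries k] Λ) (c : Q), inD c →
      jj (q (Ψ₁ δ) * c) ≡ μ δ + jj c [MOD f] := by
    rintro δ c ⟨δ', rfl⟩
    rw [← map_mul, ← map_mul, hjj, hjj]
    have h1 : μ (δ * δ') ≡ μ δ + μ δ' [MOD f] := (hμmul δ δ').of_dvd hfN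
    exact (Nat.mod_modEq _ _).trans (h1.trans
      (Nat.ModEq.add_left _ (Nat.mod_modEq _ _).symm))
  -- the functions
  let w : Q → Λ := fun c => if inD c then cΛ Λ (z ^ (M * jj c)) * t ^ M else 1
  have hwD : ∀ c, inD c → w c = cΛ Λ (z ^ (M * jj c)) * t ^ M := fun c h => if_pos h
  have hwN : ∀ c, ¬ inD c → w c = 1 := fun c h => if_neg h
  have hδw : ∀ (δ : Λ ≃ₐ[LaurentSeries k] Λ) (c : Q), inD c →
      δ (w c) = cΛ Λ (z ^ (M * (μ δ + jj c))) * t ^ M := by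
    intro δ c h
    rw [hwD c h, map_mul, VLS_fix, map_pow, hμ δ, mul_pow, ← VLS_cΛ_pow, ← mul_assoc,
      ← VLS_cΛ_mul, ← pow_mul, ← pow_add]
    congr 3
    ring
  have hcast : ∀ a a' : ℕ, a ≡ a' [MOD f] → z ^ (M * r * a) = z ^ (M * r * a') := by
    intro a a' h
    apply VLS_pow_mod hzN
    have h1 : M * r * a ≡ M * r * a' [MOD M * r * f] := Nat.ModEq.mul_left' _ h
    have h2 : N = M * r * f := by rw [hN]; ring
    rw [h2]
    exact h1
  have he : ∀ (δ : Λ ≃ₐ[LaurentSeries k] Λ) (c : Q), δ (w c ^ r) = w (q (Ψ₁ δ) * c) ^ r := by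
    intro δ c
    by_cases h : inD c
    · have h1 := hcast _ _ (hjmul δ c h).symm
      have h2 : (z ^ (M * (μ δ + jj c))) ^ r = (z ^ (M * jj (q (Ψ₁ δ) * c))) ^ r := by
        rw [← pow_mul, ← pow_mul, show M * (μ δ + jj c) * r = M * r * (μ δ + jj c) by ring,
          show M * jj (q (Ψ₁ δ) * c) * r = M * r * jj (q (Ψ₁ δ) * c) by ring]
        exact h1
      rw [map_pow, hδw δ c h, hwD _ ((hinD δ c).2 h), mul_pow, mul_pow, ← VLS_cΛ_pow,
        ← VLS_cΛ_pow, h2]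
    · rw [hwN c h, hwN _ (fun h' => h ((hinD δ c).1 h')), one_pow, map_one]
  have hw0 : ∀ c, w c ≠ 0 := by
    intro c
    by_cases h : inD c
    · rw [hwD c h]
      exact mul_ne_zero (VLS_cΛ_ne (pow_ne_zero _ hz0)) (pow_ne_zero _ ht0)
    · rw [hwN c h]; exact one_ne_zero
  -- the cocycle
  have hc : ∀ δ, ∃ a : A, Ψ δ = i a * Ψ₁ δ := by
    intro δ
    have h1 : q (Ψ δ * (Ψ₁ δ)⁻¹) = 1 := by rw [map_mul, map_inv, hΨ, mul_inv_cancel]
    obtain ⟨a, ha⟩ := (hq _).1 h1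
    exact ⟨a, by rw [ha, inv_mul_cancel_right]⟩
  choose c hc using hc
  have hccoc : ∀ δ δ', c (δ * δ') = c δ * act (Ψ₁ δ) (c δ') := by
    intro δ δ'
    apply hA.inj
    have h1 : i (c (δ * δ')) * Ψ₁ (δ * δ') = i (c δ) * Ψ₁ δ * (i (c δ') * Ψ₁ δ') := by
      rw [← hc, ← hc, ← hc, map_mul]
    have h2 : i (c (δ * δ')) = i (c δ) * Ψ₁ δ * (i (c δ') * Ψ₁ δ') * (Ψ₁ (δ * δ'))⁻¹ := by
      rw [← h1, mul_inv_cancel_right]
    rw [h2, map_mul i, hA.conj, map_mul Ψ₁]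
    group
  let c1 : (Λ ≃ₐ[LaurentSeries k] Λ) → A := fun δ => c δ * (act (Ψ₁ δ) b * b⁻¹)⁻¹
  have hc1 : ∀ δ, c1 δ = c δ * (act (Ψ₁ δ) b * b⁻¹)⁻¹ := fun δ => rfl
  have hc1coc : ∀ δ δ', c1 (δ * δ') = c1 δ * act (Ψ₁ δ) (c1 δ') := by
    intro δ δ'
    rw [hc1, hc1, hc1, hccoc, map_mul Ψ₁, map_mul act]
    simp only [map_mul, map_inv, MulAut.mul_apply, mul_inv_rev, inv_inv]
    have h1 : ∀ x y u v s : A, x * y * (b * u⁻¹) = x * (b * v⁻¹) * (y * (v * u⁻¹)) := by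
      intro x y u v s
      have : x * (b * v⁻¹) * (y * (v * u⁻¹)) = x * y * (b * u⁻¹) * (v⁻¹ * v) := by
        simp only [mul_comm, mul_left_comm, mul_assoc]
      rw [this, inv_mul_cancel, mul_one]
    exact h1 _ _ _ _ 1
  have hc1K : ∀ δ ∈ K, c1 δ = 1 := by
    intro δ hδ
    rw [hc1]
    have h1 : c δ = act (Ψ₁ δ) b * b⁻¹ := by
      apply hA.inj
      have h2 : i (c δ) = Ψ δ * (Ψ₁ δ)⁻¹ := by rw [hc δ, mul_inv_cancel_right]
      rw [h2, hb δ hδ, mul_comm (act (Ψ₁ δ) b), map_mul, map_inv, hA.conj]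
      group
    rw [h1, mul_inv_cancel]
  have hact : ∀ {h h' : G}, q h = q h' → ∀ a : A, act h a = act h' a := fun hh a =>
    VLS_act hA hq hh a
  set a := c1 τ with ha
  have haK : ∀ δ ∈ K, act (Ψ₁ δ) a = a := by
    intro δ hδ
    have h1 : τ⁻¹ * δ * τ ∈ K := by
      rw [hmemK] at hδ ⊢
      show τ⁻¹ (δ (τ t)) = t
      rw [hτ, map_mul, VLS_fix, hδ, ← hτ]
      show (τ⁻¹ * τ) t = t
      rw [inv_mul_cancel]
      rfl
    have h2 : δ * τ = τ * (τ⁻¹ * δ * τ) := by group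
    have h3 := hc1coc δ τ
    rw [h2, hc1coc, hc1K _ h1, map_one, mul_one, hc1K δ hδ, one_mul] at h3
    exact h3.symm
  -- exponents
  obtain ⟨v, hv⟩ : ∃ v : ℕ, z ^ (M * f) = ζ ^ v := by
    have h1 : (z ^ (M * f)) ^ r = 1 := by rw [← pow_mul, ← hN, hzN]
    obtain ⟨v, _, hv⟩ := hζ.eq_pow_of_pow_eq_one h1
    exact ⟨v, hv.symm⟩
  have hvr : Nat.Coprime v r := by
    rw [Nat.coprime_comm, hr.coprime_iff_not_dvd]
    rintro ⟨v', rfl⟩
    have h0 : ζ ^ (r * v') = 1 := by rw [pow_mul, hζ.pow_eq_one, one_pow]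
    rw [h0] at hv
    have h1 := hz.dvd_of_pow_eq_one _ hv
    have h2 := Nat.le_of_dvd (Nat.mul_pos hM0 hf0) h1
    rw [hN] at h2
    have h3 : M * f * 1 < M * f * r :=
      Nat.mul_lt_mul_of_pos_left hr.one_lt (Nat.mul_pos hM0 hf0)
    omega
  have hPp : IsPGroup p P := hP1.map q
  obtain ⟨kp, hkp⟩ := (IsPGroup.iff_card).1 hPp
  have hcop : Nat.Coprime (v * Nat.card P) r := by
    rw [hkp]
    refine Nat.Coprime.mul_left hvr (Nat.Coprime.pow_left _ ?_)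
    exact (Nat.coprime_primes (Fact.out) hr).2 (Ne.symm hrp)
  obtain ⟨u, hu⟩ : ∃ u : ℕ, u * (v * Nat.card P) ≡ 1 [MOD r] := by
    obtain ⟨u, _, hu⟩ := Nat.exists_mul_mod_eq_one_of_coprime hcop hr.one_lt
    refine ⟨u, ?_⟩
    rw [mul_comm]
    show _ % r = 1 % r
    rw [hu, Nat.mod_eq_of_lt hr.one_lt]
  set m := a ^ u with hm
  have hmr : ∀ x : A, x ^ r = 1 := hA.exp
  have hmK : ∀ h : G, q h ∈ P → act h m = m := by
    intro h hh
    obtain ⟨δ, hδ, hδ'⟩ := (hmemP _).1 hh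
    rw [hact hδ'.symm, hm, map_pow, haK δ hδ]
  have hma : (m ^ v) ^ Nat.card P = a := by
    calc (m ^ v) ^ Nat.card P = a ^ (u * (v * Nat.card P)) := by
          rw [hm, ← pow_mul, ← pow_mul, ← mul_assoc]
      _ = a ^ 1 := VLS_pow_mod (hmr a) hu
      _ = a := pow_one a
  -- the claim for all `δ`
  have hex : ∀ δ : Λ ≃ₐ[LaurentSeries k] Λ, ∃ ε : Q → ℕ,
      ∀ c, δ (w c) = cΛ Λ (ζ ^ ε c) * w (q (Ψ₁ δ) * c) := by
    intro δ
    have h1 : ∀ c, ∃ ε : ℕ, δ (w c) = cΛ Λ (ζ ^ ε) * w (q (Ψ₁ δ) * c) := by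
      intro c
      by_cases h : inD c
      · have h2 := hjmul δ c h
        have h3 : ∃ e : ℕ, z ^ (M * (μ δ + jj c)) = ζ ^ e * z ^ (M * jj (q (Ψ₁ δ) * c)) := by
          have h4 : z ^ (M * jj (q (Ψ₁ δ) * c)) ≠ 0 := pow_ne_zero _ hz0
          have h5 : (z ^ (M * (μ δ + jj c)) / z ^ (M * jj (q (Ψ₁ δ) * c))) ^ r = 1 := by
            rw [div_pow, ← pow_mul, ← pow_mul, div_eq_one_iff_eq (pow_ne_zero _ hz0),
              show M * (μ δ + jj c) * r = M * r * (μ δ + jj c) by ring,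
              show M * jj (q (Ψ₁ δ) * c) * r = M * r * jj (q (Ψ₁ δ) * c) by ring]
            exact (hcast _ _ h2).symm
          obtain ⟨e, _, he'⟩ := hζ.eq_pow_of_pow_eq_one h5
          exact ⟨e, by rw [he', div_mul_cancel₀ _ h4]⟩
        obtain ⟨e, he'⟩ := h3
        refine ⟨e, ?_⟩
        rw [hδw δ c h, hwD _ ((hinD δ c).2 h), he', VLS_cΛ_mul, mul_assoc]
      · refine ⟨0, ?_⟩
        rw [hwN c h, hwN _ (fun h' => h ((hinD δ c).1 h')), pow_zero, VLS_cΛ_one, map_one, mul_one]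
    choose ε hε using h1
    exact ⟨ε, hε⟩
  have hmod : ∀ {e e' : ℕ} {x : A}, ζ ^ e = ζ ^ e' → x ^ e = x ^ e' := fun h =>
    VLS_pow_mod (hmr _) (VLS_mod hr0 hζ h)
  let R : (Λ ≃ₐ[LaurentSeries k] Λ) → Prop := fun δ => ∀ ε : Q → ℕ,
    (∀ c, δ (w c) = cΛ Λ (ζ ^ ε c) * w (q (Ψ₁ δ) * c)) →
    c1 δ = ∏ c, act (Ψ₁ δ * g c) m ^ ε c
  have hRmul : ∀ δ δ', R δ → R δ' → R (δ * δ') := by
    intro δ δ' h h' ε hε
    obtain ⟨ε1, hε1⟩ := hex δ
    obtain ⟨ε2, hε2⟩ := hex δ'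
    have h1 : ∀ c, ζ ^ ε c = ζ ^ (ε2 c + ε1 (q (Ψ₁ δ') * c)) := by
      intro c
      have h2 := hε c
      have h3 : (δ * δ') (w c) = δ (δ' (w c)) := rfl
      rw [h3, hε2 c, map_mul, VLS_fix, hε1, ← mul_assoc, ← VLS_cΛ_mul, ← pow_add,
        map_mul Ψ₁, map_mul q, mul_assoc] at h2
      exact (VLS_cΛ_inj (mul_right_cancel₀ (hw0 _) h2)).symm
    rw [hc1coc, h ε1 hε1, h' ε2 hε2]
    have h4 : ∏ c, act (Ψ₁ (δ * δ') * g c) m ^ ε c =
        ∏ c, (act (Ψ₁ δ) (act (Ψ₁ δ' * g c) m ^ ε2 c) *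
          act (Ψ₁ δ * g (q (Ψ₁ δ') * c)) m ^ ε1 (q (Ψ₁ δ') * c)) := by
      apply Finset.prod_congr rfl
      intro c _
      rw [hmod (h1 c), pow_add]
      congr 1
      · have h5 : act (Ψ₁ (δ * δ') * g c) m = act (Ψ₁ δ) (act (Ψ₁ δ' * g c) m) := by
          rw [← MulAut.mul_apply, ← map_mul act, map_mul Ψ₁, mul_assoc]
        rw [h5]
        exact (map_pow (act (Ψ₁ δ)) _ _).symm
      · congr 1
        apply hact
        rw [map_mul q, map_mul q, map_mul Ψ₁, map_mul q, hg, hg, mul_assoc]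
    rw [h4, Finset.prod_mul_distrib, map_prod]
    rw [mul_comm]
    congr 1
    exact (Fintype.prod_equiv (Equiv.mulLeft (q (Ψ₁ δ'))) _
      (fun c => act (Ψ₁ δ * g c) m ^ ε1 c) (fun c => rfl)).symm
  have hRK : ∀ δ ∈ K, R δ := by
    intro δ hδ ε hε
    rw [hc1K δ hδ]
    symm
    apply Finset.prod_eq_one
    intro c _
    have h0 : ζ ^ ε c = ζ ^ 0 := by
      rw [pow_zero]
      have h1 := hε c
      by_cases h : inD c
      · have hμ0 : f ∣ μ δ := hfN.trans ((hμK δ).1 hδ)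
        have h2 : jj (q (Ψ₁ δ) * c) = jj c := by
          have h3 : jj (q (Ψ₁ δ) * c) ≡ jj c [MOD f] := by
            refine (hjmul δ c h).trans ?_
            have := Nat.ModEq.add_right (jj c) ((Nat.modEq_zero_iff_dvd).2 hμ0)
            rwa [zero_add] at this
          have h4 : jj (q (Ψ₁ δ) * c) % f = jj c % f := h3
          rwa [Nat.mod_eq_of_lt (hjlt _), Nat.mod_eq_of_lt (hjlt _)] at h4
        have h3 : δ (w c) = w c := by
          rw [hwD c h, map_mul, VLS_fix, map_pow, (hmemK δ).1 hδ]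
        have h4 : w (q (Ψ₁ δ) * c) = w c := by
          rw [hwD c h, hwD _ ((hinD δ c).2 h), h2]
        rw [h3, h4] at h1
        have h5 : cΛ Λ (1 : k) * w c = cΛ Λ (ζ ^ ε c) * w c := by
          rw [VLS_cΛ_one, one_mul]; exact h1
        exact (VLS_cΛ_inj (mul_right_cancel₀ (hw0 _) h5)).symm
      · rw [hwN c h, hwN _ (fun h' => h ((hinD δ c).1 h')), map_one, mul_one] at h1
        have h5 : cΛ Λ (1 : k) = cΛ Λ (ζ ^ ε c) := by
          rw [VLS_cΛ_one]; exact h1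
        exact (VLS_cΛ_inj h5).symm
    rw [hmod h0, pow_zero]
  have hRτ : R τ := by
    intro ε hε
    have h1 : ∀ c, act (Ψ₁ τ * g c) m ^ ε c = if q (Ψ₁ τ) * c ∈ P then m ^ v else 1 := by
      intro c
      have h2 := hε c
      by_cases h : inD c
      · have hcD := h
        obtain ⟨δ0, hδ0⟩ := h
        have hiff : q (Ψ₁ τ) * c ∈ P ↔ jj c + 1 = f := by
          rw [← hδ0, ← map_mul, ← map_mul, hPμ]
          have h3 : μ (τ * δ0) ≡ 1 + μ δ0 [MOD f] :=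
            ((hμmul τ δ0).of_dvd hfN).trans (Nat.ModEq.add_right _ (hμτ.of_dvd hfN))
          have h4 : μ (τ * δ0) ≡ jj c + 1 [MOD f] := by
            refine h3.trans ?_
            rw [← hδ0, hjj, add_comm]
            exact Nat.ModEq.add_right _ (Nat.mod_modEq _ _).symm
          have h5 := hjlt c
          rw [hδ0] at *
          constructor
          · intro h6
            have h7 : f ∣ jj c + 1 :=
              (Nat.modEq_zero_iff_dvd).1 (h4.symm.trans ((Nat.modEq_zero_iff_dvd).2 h6))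
            have h8 := Nat.le_of_dvd (Nat.succ_pos _) h7
            omega
          · intro h6
            have h7 : f ∣ jj c + 1 := by rw [h6]
            exact (Nat.modEq_zero_iff_dvd).1 (h4.trans ((Nat.modEq_zero_iff_dvd).2 h7))
        have h3 := hδw τ c hcD
        have h4 : z ^ (M * (μ τ + jj c)) = z ^ (M * (jj c + 1)) := by
          apply VLS_pow_mod hzN
          apply Nat.ModEq.mul_left
          rw [add_comm (jj c)]
          exact Nat.ModEq.add_right _ hμτ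
        rw [h3, h4, hwD _ ((hinD τ c).2 hcD), ← mul_assoc, ← VLS_cΛ_mul] at h2
        have h5 := VLS_cΛ_inj (mul_right_cancel₀ (pow_ne_zero _ ht0) h2)
        have h6 := hjmul τ c hcD
        have h7 : jj (q (Ψ₁ τ) * c) ≡ jj c + 1 [MOD f] := by
          refine h6.trans ?_
          rw [add_comm (jj c)]
          exact Nat.ModEq.add_right _ (hμτ.of_dvd hfN)
        by_cases hcase : jj c + 1 = f
        · rw [if_pos (hiff.2 hcase)]
          have h8 : jj (q (Ψ₁ τ) * c) = 0 := by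
            have h9 : f ∣ jj (q (Ψ₁ τ) * c) := by
              apply (Nat.modEq_zero_iff_dvd).1
              refine h7.trans ((Nat.modEq_zero_iff_dvd).2 ?_)
              rw [hcase]
            exact Nat.eq_zero_of_dvd_of_lt h9 (hjlt _)
          rw [h8, hcase, mul_zero, pow_zero, mul_one, hv] at h5
          rw [hmod h5.symm, hmK]
          rw [map_mul, hg]
          exact hiff.2 hcase
        · rw [if_neg (fun h' => hcase (hiff.1 h'))]
          have h8 : jj (q (Ψ₁ τ) * c) = jj c + 1 := by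
            have h9 : jj (q (Ψ₁ τ) * c) % f = (jj c + 1) % f := h7
            have h10 := hjlt c
            rwa [Nat.mod_eq_of_lt (hjlt _), Nat.mod_eq_of_lt (by omega)] at h9
          rw [h8] at h5
          have h9 : ζ ^ ε c = ζ ^ 0 := by
            rw [pow_zero]
            have h10 : ζ ^ ε c * z ^ (M * (jj c + 1)) = 1 * z ^ (M * (jj c + 1)) := by
              rw [one_mul]; exact h5.symm
            exact mul_right_cancel₀ (pow_ne_zero _ hz0) h10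
          rw [hmod h9, pow_zero]
      · have h3 : q (Ψ₁ τ) * c ∉ P := by
          intro h'
          obtain ⟨δ, _, hδ'⟩ := (hmemP _).1 h'
          exact h ((hinD τ c).1 ⟨δ, hδ'⟩)
        rw [if_neg h3]
        rw [hwN c h, hwN _ (fun h' => h ((hinD τ c).1 h')), map_one, mul_one] at h2
        have h5 : cΛ Λ (1 : k) = cΛ Λ (ζ ^ ε c) := by
          rw [VLS_cΛ_one]; exact h2
        have h6 : ζ ^ ε c = ζ ^ 0 := by
          rw [pow_zero]
          exact (VLS_cΛ_inj h5).symm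
        rw [hmod h6, pow_zero]
    rw [Finset.prod_congr rfl (fun c _ => h1 c), Finset.prod_ite, Finset.prod_const_one, mul_one,
      Finset.prod_const]
    have h2 : (Finset.univ.filter (fun c => q (Ψ₁ τ) * c ∈ P)).card = Nat.card P := by
      rw [Nat.card_eq_fintype_card]
      rw [← Finset.card_univ (α := P)]
      symm
      refine Finset.card_bij (fun (x : P) _ => (q (Ψ₁ τ))⁻¹ * (x : Q)) ?_ ?_ ?_
      · intro x _
        rw [Finset.mem_filter]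
        refine ⟨Finset.mem_univ _, ?_⟩
        rw [mul_inv_cancel_left]
        exact x.2
      · intro x _ y _ hxy
        exact Subtype.ext (mul_left_cancel hxy)
      · intro x hx
        rw [Finset.mem_filter] at hx
        refine ⟨⟨q (Ψ₁ τ) * x, hx.2⟩, Finset.mem_univ _, ?_⟩
        show (q (Ψ₁ τ))⁻¹ * (q (Ψ₁ τ) * x) = x
        rw [inv_mul_cancel_left]
    rw [h2, hma]
  have hRall : ∀ δ, R δ := by
    intro δ
    have h1 : ∀ n : ℕ, R (τ ^ n) := by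
      intro n
      induction n with
      | zero =>
        rw [pow_zero]
        exact hRK 1 (one_mem K)
      | succ n ih =>
        rw [pow_succ]
        exact hRmul _ _ ih hRτ
    have h2 : δ = τ ^ μ δ * ((τ ^ μ δ)⁻¹ * δ) := by group
    rw [h2]
    exact hRmul _ _ (h1 _) (hRK _ (hdec δ))
  refine ⟨m, fun c => w c ^ r, w, fun c => pow_ne_zero _ (hw0 c), fun c => rfl, he, ?_⟩
  intro δ ε hε
  have h1 := hRall δ ε hε
  rw [hc δ]
  congr 2
  have h2 : c δ = act (Ψ₁ δ) b * b⁻¹ * c1 δ := by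
    rw [hc1]
    rw [mul_comm (c δ), mul_inv_cancel_left]
  rw [h2, h1]

lemma VLS_cts {F Ω G : Type} [Field F] [Field Ω] [Algebra F Ω] [Group G]
    {Φ : (Ω ≃ₐ[F] Ω) →* G} (h : Cts Φ) : Cts Φ.rangeRestrict := by
  obtain ⟨S, hS⟩ := h
  exact ⟨S, fun γ hγ => Subtype.ext (hS γ hγ)⟩

lemma VLS_pgroup {p : ℕ} {Γ G : Type} [Group Γ] [Group G] (K : Subgroup Γ) (Ψ : Γ →* G)
    (h : IsPGroup p (K.map Ψ.rangeRestrict)) : IsPGroup p (K.map Ψ) := by
  have h1 := h.map Ψ.range.subtype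
  rw [Subgroup.map_map] at h1
  exact h1

lemma VLS_period {Q : Type} [Group Q] (P : Subgroup Q) (x : Q) :
    ∃ f : ℕ, ∀ m : ℕ, x ^ m ∈ P ↔ f ∣ m := by
  let S : AddSubgroup ℤ :=
    { carrier := {m | x ^ m ∈ P}
      zero_mem' := by
        show x ^ (0 : ℤ) ∈ P
        rw [zpow_zero]; exact one_mem P
      add_mem' := by
        intro a b ha hb
        show x ^ (a + b) ∈ P
        rw [zpow_add]
        exact mul_mem ha hb
      neg_mem' := by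
        intro a ha
        show x ^ (-a) ∈ P
        rw [zpow_neg]
        exact inv_mem ha }
  obtain ⟨a, ha⟩ := Int.subgroup_cyclic S
  refine ⟨a.natAbs, fun m => ?_⟩
  have h1 : (m : ℤ) ∈ S ↔ a ∣ (m : ℤ) := by
    rw [ha, AddSubgroup.mem_closure_singleton]
    constructor
    · rintro ⟨n, hn⟩
      exact ⟨n, by rw [← hn, smul_eq_mul, mul_comm]⟩
    · rintro ⟨n, hn⟩
      exact ⟨n, by rw [hn, smul_eq_mul, mul_comm]⟩
  have h2 : x ^ m ∈ P ↔ (m : ℤ) ∈ S := by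
    show x ^ m ∈ P ↔ x ^ (m : ℤ) ∈ P
    rw [zpow_natCast]
  rw [h2, h1]
  exact Int.natAbs_dvd_natAbs.symm.trans (by rw [Int.natAbs_natCast])

lemma VLS_bez {Q : Type} [Group Q] (P : Subgroup Q) {x : Q} {a b : ℕ} (h : Nat.Coprime a b)
    (ha : x ^ a ∈ P) (hb : x ^ b ∈ P) : x ∈ P := by
  obtain ⟨f, hf⟩ := VLS_period P x
  have h1 : f ∣ 1 := by
    rw [← h]
    exact Nat.dvd_gcd ((hf a).1 ha) ((hf b).1 hb)
  have h2 := (hf 1).2 h1
  rwa [pow_one] at h2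

theorem prf_VLS (hVLT : VLT) (hVLW : VLW) (hVPc : VPc) : VLS := by
  intro k _ _ p r _ _ Λ _ _ _ _ ζ hr hrp hζ G A Q _ _ _ _ _ _ i act q hA hq Ψ Ψ₁ hcΨ hcΨ₁ hs hs₁
    hΨ g hg
  obtain ⟨n₁, hn₁, hp₁, h₁⟩ := hVLW k p Λ Ψ.range hs Ψ.rangeRestrict (VLS_cts hcΨ)
  obtain ⟨n₂, hn₂, hp₂, h₂⟩ := hVLW k p Λ Ψ₁.range hs₁ Ψ₁.rangeRestrict (VLS_cts hcΨ₁)
  have hpp : p.Prime := Fact.out
  set n0 := n₁ * n₂ with hn0
  set N := n0 * r with hN
  have hn00 : 0 < n0 := Nat.mul_pos hn₁ hn₂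
  have hN0 : 0 < N := Nat.mul_pos hn00 hr.pos
  have hpn0 : ¬ p ∣ n0 := fun h => (hpp.dvd_mul.1 h).elim hp₁ hp₂
  have hpN : ¬ p ∣ N := by
    intro h
    rcases hpp.dvd_mul.1 h with h | h
    · exact hpn0 h
    · exact hrp ((Nat.prime_dvd_prime_iff_eq hpp hr).1 h).symm
  have hNk : ((N : ℕ) : k) ≠ 0 := by
    intro h
    exact hpN ((CharP.cast_eq_zero_iff k p N).1 h)
  have : NeZero ((N : ℕ) : k) := ⟨hNk⟩
  obtain ⟨z, hz⟩ := HasEnoughRootsOfUnity.exists_primitiveRoot k N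
  obtain ⟨⟨t, ht⟩, hall⟩ := hVLT k p Λ N z hN0 hpN hz
  obtain ⟨⟨τ, hτ⟩, hμ, _⟩ := hall t ht
  choose μ hμ using hμ
  have ht0 : t ≠ 0 := by
    intro h
    have h1 := ht.root
    rw [h, zero_pow hN0.ne'] at h1
    have h2 : HahnSeries.single (1 : ℤ) (1 : k) = 0 :=
      (algebraMap (LaurentSeries k) Λ).injective (by rw [map_zero]; exact h1.symm)
    exact one_ne_zero (HahnSeries.single_eq_zero_iff.1 h2)
  set K := MulAction.stabilizer (Λ ≃ₐ[LaurentSeries k] Λ) t with hK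
  have hK1 : IsPGroup p (K.map Ψ) :=
    VLS_pgroup K Ψ (h₁ N t ⟨n₂ * r, by rw [hN, hn0]; ring⟩ hN0 hpN ht.root)
  have hK2 : IsPGroup p (K.map Ψ₁) :=
    VLS_pgroup K Ψ₁ (h₂ N t ⟨n₁ * r, by rw [hN, hn0]; ring⟩ hN0 hpN ht.root)
  have hK3 : IsPGroup p ((MulAction.stabilizer (Λ ≃ₐ[LaurentSeries k] Λ) (t ^ r)).map Ψ₁) := by
    refine VLS_pgroup _ Ψ₁ (h₂ n0 (t ^ r) ⟨n₁, by rw [hn0]; ring⟩ hn00 hpn0 ?_)
    rw [← pow_mul, mul_comm r n0]
    exact ht.root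
  -- the p-part
  obtain ⟨b, hb⟩ := hVPc p r K G A i act hr hrp hA (Ψ₁.comp K.subtype) (Ψ.comp K.subtype)
    (by
      have h1 : (Ψ₁.comp K.subtype).range = K.map Ψ₁ := by
        rw [MonoidHom.range_comp, Subgroup.range_subtype]
      rw [h1]; exact hK2)
    (by
      have h1 : (Ψ.comp K.subtype).range = K.map Ψ := by
        rw [MonoidHom.range_comp, Subgroup.range_subtype]
      rw [h1]; exact hK1)
    (by
      intro γ
      have h1 : q (Ψ γ * (Ψ₁ γ)⁻¹) = 1 := by rw [map_mul, map_inv, hΨ, mul_inv_cancel]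
      obtain ⟨a, ha⟩ := (hq _).1 h1
      exact ⟨a, by
        show Ψ γ = i a * Ψ₁ γ
        rw [ha, inv_mul_cancel_right]⟩)
  obtain ⟨f, hf⟩ := VLS_period ((K.map Ψ₁).map q) (q (Ψ₁ τ))
  have hτn : ∀ n : ℕ, (τ ^ n) t = cΛ Λ (z ^ n) * t := by
    intro n
    induction n with
    | zero => rw [pow_zero, pow_zero, VLS_cΛ_one, one_mul]; rfl
    | succ n ih =>
      rw [pow_succ]
      show (τ ^ n) (τ t) = _
      rw [hτ, map_mul, VLS_fix, ih, pow_succ, VLS_cΛ_mul]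
      ring
  have hfn : f ∣ n0 := by
    rw [← hf]
    have h1 : τ ^ n0 ∈ MulAction.stabilizer (Λ ≃ₐ[LaurentSeries k] Λ) (t ^ r) := by
      rw [MulAction.mem_stabilizer_iff]
      show (τ ^ n0) (t ^ r) = t ^ r
      rw [map_pow, hτn, mul_pow, ← VLS_cΛ_pow, ← pow_mul, ← hN, hz.pow_eq_one, VLS_cΛ_one,
        one_mul]
    have h2 : Ψ₁ (τ ^ n0) ∈ (MulAction.stabilizer (Λ ≃ₐ[LaurentSeries k] Λ) (t ^ r)).map Ψ₁ :=
      Subgroup.mem_map_of_mem _ h1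
    obtain ⟨kk, hkk⟩ := hK3 ⟨_, h2⟩
    have h3 : Ψ₁ (τ ^ n0) ^ p ^ kk = 1 := by
      have := congrArg Subtype.val hkk
      exact this
    have h4 : τ ^ N ∈ K := by
      rw [hK, MulAction.mem_stabilizer_iff]
      show (τ ^ N) t = t
      rw [hτn, hz.pow_eq_one, VLS_cΛ_one, one_mul]
    refine VLS_bez _ (a := r) (b := p ^ kk) ?_ ?_ ?_
    · exact Nat.Coprime.pow_right _ ((Nat.coprime_primes hr hpp).2 hrp)
    · rw [← pow_mul, ← hN, ← map_pow, ← map_pow]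
      exact Subgroup.mem_map_of_mem _ (Subgroup.mem_map_of_mem _ h4)
    · have h5 : (q (Ψ₁ τ) ^ n0) ^ p ^ kk = 1 := by
        rw [← map_pow q, ← map_pow Ψ₁, ← map_pow q, h3, map_one]
      rw [h5]
      exact one_mem _
  obtain ⟨M, hM⟩ := hfn
  obtain ⟨m, e, w, h1, h2, h3, h4⟩ := VLS_core (p := p) hr hrp hζ hA hq hΨ g hg
    (N := N) (M := M) (f := f) (z := z) (t := t) (by rw [hN, hM]; ring) hN0 hz ht0 τ hτ μ hμ hK2
    hf b (fun δ hδ => hb ⟨δ, hδ⟩)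
  exact ⟨m, b, e, w, h1, h2, h3, h4⟩

end MP7b0bad.SV
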