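import Pool.Agent.Work.MP_7b0bad_ag.SV.VStmts

set_option autoImplicit false

/-!
# VLW: after a tame extension the image of a local homomorphism is a `p`-group
-/

namespace MP7b0bad.SV

open Polynomial

theorem VLW_order_prod {k ι : Type} [Field k] (S : Finset ι) (f : ι → LaurentSeries k) (e : ℤ)
    (h : ∀ i ∈ S, f i ≠ 0 ∧ (f i).order = e) :
    (∏ i ∈ S, f i) ≠ 0 ∧ (∏ i ∈ S, f i).order = S.card * e := by
  classical
  induction S using Finset.induction_on with
  | empty => simp
  | insert i S hi ih =>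
    obtain ⟨h1, h2⟩ := ih fun j hj => h j (Finset.mem_insert_of_mem hj)
    obtain ⟨h3, h4⟩ := h i (Finset.mem_insert_self i S)
    rw [Finset.prod_insert hi, Finset.card_insert_of_notMem hi]
    refine ⟨mul_ne_zero h3 h1, ?_⟩
    rw [HahnSeries.order_mul h3 h1, h2, h4]
    push_cast
    ring

/-- roots of unity of order prime to the characteristic are constants -/
theorem VLW_const {k : Type} [Field k] [IsAlgClosed k] (p : ℕ) [Fact p.Prime] [CharP k p]
    (Λ : Type) [Field Λ] [Algebra (LaurentSeries k) Λ] (n : ℕ) (hn : 0 < n) (hpn : ¬ p ∣ n)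
    (ξ : Λ) (h : ξ ^ n = 1) : ∃ c : k, ξ = cΛ Λ c := by
  have hnk : (n : k) ≠ 0 := by
    intro h0
    exact hpn ((CharP.cast_eq_zero_iff k p n).1 h0)
  have : NeZero (n : k) := ⟨hnk⟩
  have : NeZero n := ⟨hn.ne'⟩
  obtain ⟨ζ, hζ⟩ := HasEnoughRootsOfUnity.exists_primitiveRoot k n
  have hinj : Function.Injective
      ((algebraMap (LaurentSeries k) Λ).comp (HahnSeries.C : k →+* LaurentSeries k)) :=
    RingHom.injective _
  have h1 := hζ.map_of_injective hinj
  obtain ⟨i, _, hi⟩ := h1.eq_pow_of_pow_eq_one h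
  refine ⟨ζ ^ i, ?_⟩
  rw [← hi, ← map_pow]
  rfl

theorem prf_VLW (hF : VFld) (hE : VELS) (hR : YRoot) : VLW := by
  intro k _ _ p _ _ Λ _ _ _ _ D _ _ hD Ψ hΨ
  classical
  have hp : p.Prime := Fact.out
  have hcts : Cts Ψ.rangeRestrict := by
    obtain ⟨S, hS⟩ := hΨ
    exact ⟨S, fun γ hγ => Subtype.ext (hS γ hγ)⟩
  have hsurj : Function.Surjective Ψ.rangeRestrict := Ψ.rangeRestrict_surjective
  obtain ⟨L, i1, i2, i3, β, hgal, hβ, hcomp, _⟩ :=
    hF (LaurentSeries k) Λ Ψ.range Ψ.rangeRestrict hcts hsurj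
  have hsolv : Group.IsSolvable Ψ.range := by
    haveI := hD
    infer_instance
  obtain ⟨φ, hφc, hφo⟩ := hE k p Ψ.range hsolv L hgal inferInstance
  have hcard0 : Nat.card Ψ.range ≠ 0 := Nat.card_pos.ne'
  obtain ⟨a, n, hpn, hcard⟩ := Nat.exists_eq_pow_mul_and_not_dvd hcard0 p hp.ne_one
  have hn : 0 < n := by
    rcases Nat.eq_zero_or_pos n with h | h
    · exact absurd (h ▸ dvd_zero p) hpn
    · exact h
  refine ⟨n, hn, hpn, ?_⟩
  intro N t hnN hN hpN ht
  have hnk : (n : k) ≠ 0 := by
    intro h0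
    exact hpn ((CharP.cast_eq_zero_iff k p n).1 h0)
  set s : LaurentSeries k := HahnSeries.single (1 : ℤ) (1 : k) with hs
  have hs0 : s ≠ 0 := by
    rw [hs]
    exact HahnSeries.single_ne_zero one_ne_zero
  have hso : s.order = 1 := HahnSeries.order_single one_ne_zero
  have hinj : Function.Injective (algebraMap (LaurentSeries k) L) := hgal.inj
  set u : LaurentSeries k := φ (algebraMap (LaurentSeries k) L s) with hu
  have hu0 : u ≠ 0 := by
    rw [hu, map_ne_zero_iff _ φ.injective, map_ne_zero_iff _ hinj]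
    exact hs0
  have huo : u.order = (p : ℤ) ^ a * n := by
    rw [hu, hφo s hs0, hso, hcard]
    push_cast
    ring
  obtain ⟨v, hv⟩ := hR k n hnk u hu0 (by rw [huo]; exact dvd_mul_left _ _)
  set z : L := φ.symm v with hz
  have hzn : z ^ n = algebraMap (LaurentSeries k) L s := by
    apply φ.injective
    rw [map_pow, hz, RingEquiv.apply_symm_apply, hv]
  have hz0 : z ≠ 0 := by
    intro h0
    rw [h0, zero_pow hn.ne'] at hzn
    exact hs0 (hinj (by rw [← hzn, map_zero]))
  -- the order of every conjugate of z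
  have hord : ∀ y : L, y ^ n = algebraMap (LaurentSeries k) L s →
      φ y ≠ 0 ∧ (φ y).order = (p : ℤ) ^ a := by
    intro y hy
    have h1 : (φ y) ^ n = u := by rw [← map_pow, hy]
    have h2 : φ y ≠ 0 := by
      intro h0
      rw [h0, zero_pow hn.ne'] at h1
      exact hu0 h1.symm
    refine ⟨h2, ?_⟩
    have h3 := congrArg HahnSeries.order h1
    rw [HahnSeries.order_pow, huo, nsmul_eq_mul, mul_comm] at h3
    exact mul_right_cancel₀ (by exact_mod_cast hn.ne') h3
  have hconj : ∀ g : Ψ.range, (g • z) ^ n = algebraMap (LaurentSeries k) L s := by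
    intro g
    rw [← smul_pow', hzn, hgal.comm]
  -- the stabiliser of z is a p-group
  have hH : IsPGroup p (MulAction.stabilizer Ψ.range z) := by
    haveI : Finite (MulAction.orbit Ψ.range z) := Set.finite_range _
    letI : Fintype (MulAction.orbit Ψ.range z) := Fintype.ofFinite _
    set S : Finset L := (MulAction.orbit Ψ.range z).toFinset with hS
    have hmem : ∀ y ∈ S, y ^ n = algebraMap (LaurentSeries k) L s := by
      intro y hy
      rw [hS, Set.mem_toFinset] at hy
      obtain ⟨g, rfl⟩ := hy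
      exact hconj g
    have hprod := VLW_order_prod S (fun y => φ y) ((p : ℤ) ^ a) (fun y hy => hord y (hmem y hy))
    have hinv : ∀ g : Ψ.range, g • (∏ y ∈ S, y) = ∏ y ∈ S, y := by
      intro g
      rw [Finset.smul_prod']
      refine Finset.prod_bij (fun y _ => g • y) ?_ ?_ ?_ ?_
      · intro y hy
        rw [hS, Set.mem_toFinset] at hy ⊢
        exact MulAction.mem_orbit_of_mem_orbit g hy
      · intro y _ y' _ h
        exact smul_left_cancel g h
      · intro y hy
        refine ⟨g⁻¹ • y, ?_, smul_inv_smul g y⟩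
        rw [hS, Set.mem_toFinset] at hy ⊢
        exact MulAction.mem_orbit_of_mem_orbit g⁻¹ hy
      · intro y _
        rfl
    obtain ⟨w, hw⟩ := hgal.inv _ hinv
    have hw1 : φ (algebraMap (LaurentSeries k) L w) = ∏ y ∈ S, φ y := by
      rw [hw, map_prod]
    have hw0 : w ≠ 0 := by
      intro h0
      apply hprod.1
      rw [← hw1, h0, map_zero, map_zero]
    have h1 := hφo w hw0
    rw [hw1, hprod.2, hcard] at h1
    have hcS : S.card = Nat.card (MulAction.orbit Ψ.range z) := by
      rw [hS, Set.toFinset_card, Nat.card_eq_fintype_card]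
    have hos : Nat.card (MulAction.orbit Ψ.range z) * Nat.card (MulAction.stabilizer Ψ.range z) =
        Nat.card Ψ.range := by
      rw [← Nat.card_prod]
      exact Nat.card_congr (MulAction.orbitProdStabilizerEquivGroup Ψ.range z)
    have h2 : (S.card : ℤ) = n * w.order := by
      have h3 : ((p : ℤ) ^ a) * (S.card : ℤ) = ((p : ℤ) ^ a) * (n * w.order) := by
        push_cast at h1
        linarith
      exact mul_left_cancel₀ (pow_ne_zero _ (by exact_mod_cast hp.ne_zero)) h3
    have h4 : n ∣ S.card := by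
      have : (n : ℤ) ∣ (S.card : ℤ) := ⟨_, h2⟩
      exact_mod_cast this
    obtain ⟨m, hm⟩ := h4
    have h5 : Nat.card (MulAction.stabilizer Ψ.range z) ∣ p ^ a := by
      refine ⟨m, ?_⟩
      rw [← hcS, hm, hcard] at hos
      have : n * (p ^ a) = n * (Nat.card (MulAction.stabilizer Ψ.range z) * m) := by
        linarith
      exact Nat.eq_of_mul_eq_mul_left hn this
    obtain ⟨j, _, hj⟩ := (Nat.dvd_prime_pow hp).1 h5
    exact IsPGroup.of_card hj
  -- conclusion
  obtain ⟨e, he⟩ := hnN
  rintro ⟨_, δ, hδ, rfl⟩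
  have hδt : δ t = t := hδ
  have ht0 : t ≠ 0 := by
    intro h0
    rw [h0, zero_pow hN.ne'] at ht
    have h0' : algebraMap (LaurentSeries k) Λ s = 0 := ht.symm
    exact hs0 ((map_eq_zero_iff _ (algebraMap (LaurentSeries k) Λ).injective).1 h0')
  have h1 : (β z / t ^ e) ^ n = 1 := by
    rw [div_pow, ← map_pow, hzn, hβ, ← pow_mul, mul_comm e n, ← he, ht]
    exact div_self
      ((map_ne_zero_iff (algebraMap (LaurentSeries k) Λ)
        (algebraMap (LaurentSeries k) Λ).injective).2 hs0)
  obtain ⟨c, hc⟩ := VLW_const (k := k) p Λ n hn hpn _ h1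
  have h2 : β z = cΛ Λ c * t ^ e := by
    rw [← hc, div_mul_cancel₀ _ (pow_ne_zero _ ht0)]
  have h3 : δ (β z) = β z := by
    rw [h2, map_mul, map_pow, hδt, cΛ, AlgEquiv.commutes]
  have h4 : Ψ.rangeRestrict δ • z = z := by
    apply β.injective
    rw [← hcomp, h3]
  obtain ⟨j, hj⟩ := hH ⟨Ψ.rangeRestrict δ, h4⟩
  refine ⟨j, Subtype.ext ?_⟩
  have h5 := congrArg (fun x : MulAction.stabilizer Ψ.range z => ((x : Ψ.range) : D)) hj
  simpa using h5

end MP7b0bad.SV
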