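import Pool.Agent.Work.MP_7b0bad_ag.SV.LiftStmts

set_option autoImplicit false

/-!
# Embedding problems over `k(x)` with abelian kernel of exponent `r` (lifts)
-/

namespace MP7b0bad.SV

open Polynomial

/-- a normal abelian subgroup of exponent `r` lies in the image of a Sylow `r`-subgroup of any
subgroup containing it, and the index is that of the Sylow subgroup -/
theorem VLift_grp {G : Type} [Group G] [Finite G] (r : ℕ) (hr : r.Prime) (M : Subgroup G)
    [M.Normal] (hM : ∀ a ∈ M, a ^ r = 1) (R : Subgroup (G ⧸ M)) :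
    ∃ S : Subgroup G, M ≤ S ∧ IsPGroup r S ∧
      ¬ r ∣ (S.map (QuotientGroup.mk' M)).relIndex R := by
  have : Fact r.Prime := ⟨hr⟩
  set G₁ : Subgroup G := R.comap (QuotientGroup.mk' M) with hG₁
  have hMG : M ≤ G₁ := by
    intro a ha
    have h1 : QuotientGroup.mk' M a = 1 := (QuotientGroup.eq_one_iff a).2 ha
    rw [hG₁, Subgroup.mem_comap, h1]
    exact one_mem _
  obtain ⟨P⟩ : Nonempty (Sylow r G₁) := inferInstance
  have hM2 : M ≤ (P : Subgroup G₁).map G₁.subtype := by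
    have hN : IsPGroup r (M.subgroupOf G₁) := by
      intro a
      refine ⟨1, ?_⟩
      have h1 : ((a : G₁) : G) ^ r = 1 := hM _ (Subgroup.mem_subgroupOf.1 a.2)
      rw [pow_one]
      apply Subtype.ext
      apply Subtype.ext
      simpa using h1
    have h2 := hN.le_sylow_of_normal P
    intro a ha
    exact ⟨⟨a, hMG ha⟩, h2 (Subgroup.mem_subgroupOf.2 ha), rfl⟩
  refine ⟨(P : Subgroup G₁).map G₁.subtype, hM2, P.isPGroup'.map _, ?_⟩
  · have hR : R = G₁.map (QuotientGroup.mk' M) := by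
      rw [hG₁, Subgroup.map_comap_eq_self_of_surjective (QuotientGroup.mk'_surjective M)]
    rw [hR, ← Subgroup.relIndex_comap, Subgroup.comap_map_eq, QuotientGroup.ker_mk',
      sup_eq_left.2 hM2, Subgroup.relIndex, Subgroup.subgroupOf,
      Subgroup.comap_map_eq_self_of_injective (Subgroup.subtype_injective G₁)]
    exact P.not_dvd_index

/-- VLift -/
theorem prf_VLift (hN : VNor) (hR : VRG) (hA : VAvg) : VLift := by
  intro k Ω _ _ _ _ _ _ p r _ _ hr hrp G _ _ M _ hMc hMr φ hφ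
  have hp : p.Prime := Fact.out
  have hrk : (r : k) ≠ 0 := by
    intro h0
    rw [CharP.cast_eq_zero_iff k p r, Nat.prime_dvd_prime_iff_eq hp hr] at h0
    exact hrp h0.symm
  obtain ⟨S, hMS, hS, hidx⟩ := VLift_grp r hr M hMr φ.range
  -- the inclusion of the quotient of S
  set ι : S ⧸ (M.subgroupOf S) →* G ⧸ M :=
    QuotientGroup.map (M.subgroupOf S) M S.subtype le_rfl with hι
  have hιmk : ∀ s : S, ι (s : S ⧸ (M.subgroupOf S)) = ((s : G) : G ⧸ M) := fun s => rfl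
  have hιinj : Function.Injective ι := by
    rw [injective_iff_map_eq_one]
    intro x
    obtain ⟨s, rfl⟩ := QuotientGroup.mk_surjective x
    intro h
    rw [hιmk, QuotientGroup.eq_one_iff] at h
    rw [QuotientGroup.eq_one_iff]
    exact Subgroup.mem_subgroupOf.2 h
  have hιran : ι.range = S.map (QuotientGroup.mk' M) := by
    ext x
    constructor
    · rintro ⟨y, rfl⟩
      obtain ⟨s, rfl⟩ := QuotientGroup.mk_surjective y
      exact ⟨s, s.2, rfl⟩
    · rintro ⟨s, hs, rfl⟩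
      exact ⟨((⟨s, hs⟩ : S) : S ⧸ (M.subgroupOf S)), rfl⟩
  set ΓS : Subgroup (Ω ≃ₐ[RatFunc k] Ω) := ι.range.comap φ with hΓS
  set φS : ΓS →* S ⧸ (M.subgroupOf S) :=
    (MonoidHom.ofInjective hιinj).symm.toMonoidHom.comp (φ.subgroupComap ι.range) with hφS
  have hφS1 : ∀ γ : ΓS, ι (φS γ) = φ γ := by
    intro γ
    have h1 := MonoidHom.apply_ofInjective_symm hιinj (φ.subgroupComap ι.range γ)
    exact h1
  obtain ⟨T, hT⟩ := hφ
  have hTS : ∀ γ : Ω ≃ₐ[RatFunc k] Ω, (∀ x ∈ T, γ x = x) → γ ∈ ΓS := by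
    intro γ hγ
    rw [hΓS, Subgroup.mem_comap, hT γ hγ]
    exact one_mem _
  have hφSc : CtsOn φS := by
    refine ⟨T, fun γ hγ => ?_⟩
    apply hιinj
    rw [hφS1, hT _ hγ, map_one]
  obtain ⟨ΦS, ⟨T', hT'⟩, hΦS⟩ := hR k Ω r hr hrk S (M.subgroupOf S) hS ΓS ⟨T, hTS⟩ φS hφSc
  classical
  obtain ⟨Γ₀, hΓn, hΓf, hΓo⟩ := hN (RatFunc k) Ω (T ∪ T')
  have := hΓn
  have hle : Γ₀ ≤ ΓS := fun γ hγ => hTS γ fun x hx => hΓf γ hγ x (Finset.mem_union_left _ hx)
  have hindex : ¬ r ∣ ΓS.index := by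
    rw [hΓS, Subgroup.index_comap, hιran]
    exact hidx
  obtain ⟨Φ, hΦ1, hΦ2⟩ := hA (Ω ≃ₐ[RatFunc k] Ω) Γ₀ ΓS r hr hle hindex G M hMc hMr φ
    (S.subtype.comp ΦS) (by
      intro s
      have h1 : ι ((ΦS s : S) : S ⧸ (M.subgroupOf S)) = ι (φS s) := by rw [hΦS s]
      rw [hφS1] at h1
      rw [← h1]
      rfl) (by
      intro s hs
      have h1 : ΦS s = 1 := hT' s fun x hx => hΓf _ hs x (Finset.mem_union_right _ hx)
      rw [MonoidHom.comp_apply, h1, map_one])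
  obtain ⟨T'', hT''⟩ := hΓo
  exact ⟨Φ, ⟨T'', fun γ hγ => hΦ2 γ (hT'' γ hγ)⟩, hΦ1⟩

end MP7b0bad.SV
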