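import Pool.Agent.Work.MP_7b0bad_ag.SV.VStmts2

set_option autoImplicit false

/-!
# Block SV, item VLoc: changing a lift so that it has a given restriction over infinity
-/

namespace MP7b0bad.SV

open Polynomial

theorem VLoc_cts {F₁ F₂ Ω₁ Ω₂ : Type} [Field F₁] [Field F₂] [Field Ω₁] [Field Ω₂] [Algebra F₁ Ω₁]
    [Algebra F₂ Ω₂] {h : F₁ →+* F₂} {j : Ω₁ →+* Ω₂}
    {ρ : (Ω₂ ≃ₐ[F₂] Ω₂) →* (Ω₁ ≃ₐ[F₁] Ω₁)} (hc : Comp h j ρ) {G : Type} [Group G]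
    (Φ : (Ω₁ ≃ₐ[F₁] Ω₁) →* G) (hΦ : Cts Φ) : Cts (Φ.comp ρ) := by
  classical
  obtain ⟨S, hS⟩ := hΦ
  refine ⟨S.image j, fun δ hδ => ?_⟩
  rw [MonoidHom.comp_apply]
  refine hS _ fun x hx => ?_
  apply j.injective
  rw [hc.res]
  exact hδ _ (Finset.mem_image_of_mem _ hx)

theorem VLoc_root {k : Type} [Field k] [IsAlgClosed k] (r : ℕ) (hr0 : (r : k) ≠ 0) :
    ∃ ζ : k, IsPrimitiveRoot ζ r := by
  have hr : 0 < r := by
    rcases Nat.eq_zero_or_pos r with h | h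
    · exact absurd (by rw [h]; simp) hr0
    · exact h
  have : NeZero (r : k) := ⟨hr0⟩
  obtain ⟨ζ, hζ⟩ := IsAlgClosed.exists_root (cyclotomic r k)
    (by rw [degree_cyclotomic]; exact_mod_cast (Nat.totient_pos.2 hr).ne')
  exact ⟨ζ, isRoot_cyclotomic_iff.1 hζ⟩

theorem VLoc_alg {G A : Type} [Group G] [CommGroup A] {r : ℕ} {i : A →* G} {act : G →* MulAut A}
    (h : AbK r i act) (g : G) (b b' P : A) :
    i (act g b' * b'⁻¹ * P) * g =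
      (i (b' * b⁻¹))⁻¹ * (i (act g b * b⁻¹ * P) * g) * i (b' * b⁻¹) := by
  have h1 : g * i (b' * b⁻¹) = i (act g (b' * b⁻¹)) * g := by
    rw [h.conj]
    group
  have h2 : (i (b' * b⁻¹))⁻¹ * (i (act g b * b⁻¹ * P) * g) * i (b' * b⁻¹) =
      (i (b' * b⁻¹))⁻¹ * i (act g b * b⁻¹ * P) * (g * i (b' * b⁻¹)) := by
    group
  rw [h2, h1, ← map_inv, ← mul_assoc, ← map_mul, ← map_mul]
  congr 2
  rw [map_mul (act g), map_inv (act g)]
  have : (b' * b⁻¹)⁻¹ * ((act g) b * b⁻¹ * P) * ((act g) b' * ((act g) b)⁻¹) =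
      ((act g) b * ((act g) b)⁻¹) * (b * b⁻¹) * ((act g) b' * b'⁻¹ * P) := by
    rw [mul_inv, inv_inv]
    ac_rfl
  rw [this, mul_inv_cancel, mul_inv_cancel, one_mul, one_mul]

theorem VLoc_eps {k Λ : Type} [Field k] [Field Λ] [Algebra (LaurentSeries k) Λ] {r : ℕ} {ζ : k}
    (hr : r ≠ 0) (hζ : IsPrimitiveRoot ζ r) (a b : Λ) (hb : b ≠ 0) (h : a ^ r = b ^ r) :
    ∃ ε : ℕ, a = cΛ Λ (ζ ^ ε) * b := by
  have hinj : Function.Injective (fun c : k => cΛ Λ c) := by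
    intro x y hxy
    exact HahnSeries.C_injective ((algebraMap (LaurentSeries k) Λ).injective hxy)
  let f : k →+* Λ := (algebraMap (LaurentSeries k) Λ).comp (HahnSeries.C : k →+* LaurentSeries k)
  have hf : Function.Injective f := f.injective
  have hζ' : IsPrimitiveRoot (f ζ) r := hζ.map_of_injective hf
  have : NeZero r := ⟨hr⟩
  have h1 : (a / b) ^ r = 1 := by
    rw [div_pow, h, div_self (pow_ne_zero _ hb)]
  obtain ⟨ε, -, hε⟩ := hζ'.eq_pow_of_pow_eq_one h1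
  refine ⟨ε, ?_⟩
  have h2 : cΛ Λ (ζ ^ ε) = f ζ ^ ε := by
    rw [← map_pow]
    rfl
  rw [h2, hε, div_mul_cancel₀ _ hb]

/-- [VLoc] changing a lift so that it has a given restriction to the place over infinity -/
theorem prf_VLoc (hVLS : VLS) (hVWA : VWA) (hVTw : VTw) : VLoc := by
  classical
  intro k _ p Ω Λ _ _ _ _ hI jI ρI B r hr hrp G A Q _ _ _ _ _ _ i act q hA hq Φ hΦ hsurj hunr Ψ hΨ
    hΨs hΦs hqΨ
  have : IsAlgClosed k := B.ac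
  have : CharP k p := B.ch
  have : Fact p.Prime := ⟨B.pr⟩
  have : IsGalois (RatFunc k) Ω := B.galΩ
  have : IsSepClosed Ω := B.scΩ
  have : IsGalois (LaurentSeries k) Λ := B.galΛ
  have : IsSepClosed Λ := B.scΛ
  let : Fintype Q := Fintype.ofFinite Q
  have hr0 : (r : k) ≠ 0 := by
    intro h0
    rw [CharP.cast_eq_zero_iff k p] at h0
    exact hrp ((Nat.prime_dvd_prime_iff_eq B.pr hr).1 h0).symm
  obtain ⟨ζ, hζ⟩ := VLoc_root (k := k) r hr0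
  choose s hs using hsurj
  have hs' : ∀ c, q (Φ (s c)) = c := hs
  have hcts : Cts (Φ.comp ρI) := VLoc_cts B.comp Φ hΦ
  obtain ⟨m, b, e, w, he0, hwe, hδe, hform⟩ := hVLS k p r Λ ζ hr hrp hζ G A Q i act q hA hq Ψ
    (Φ.comp ρI) hΨ hcts hΨs hΦs hqΨ (fun c => Φ (s c)) hs'
  have hctsq : Cts (q.comp Φ) := by
    obtain ⟨S, hS⟩ := hΦ
    exact ⟨S, fun γ hγ => by rw [MonoidHom.comp_apply, hS γ hγ, map_one]⟩
  obtain ⟨F, hF0, hFinv, -, y, hy0, hδy, hFy⟩ := hVWA k p Ω Λ hI jI ρI B r hr hrp Q (q.comp Φ)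
    hctsq (fun c => ⟨s c, hs c⟩) hunr s hs ∅ (fun _ => hI) (fun _ => jI) (fun _ => ρI)
    (fun a ha => absurd ha (Finset.notMem_empty a)) (fun _ _ => 0) e he0 hδe
  obtain ⟨Φ', hΦ'c, hΦ'e, htw⟩ := hVTw k Ω r ζ hr0 hζ G A Q i act q hA hq Φ hΦ s hs' F m hF0
    hFinv
  refine ⟨Φ', hΦ'c, hΦ'e, ?_⟩
  obtain ⟨b', hb'⟩ := htw Λ hI jI ρI B.comp B.isH.cst e y w hy0 hwe hFy hδy
  refine ⟨b' * b⁻¹, fun δ => ?_⟩
  have hex : ∀ c, ∃ ε : ℕ, δ (w c) = cΛ Λ (ζ ^ ε) * w (q (Φ (ρI δ)) * c) := by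
    intro c
    refine VLoc_eps hr.ne_zero hζ _ _ ?_ ?_
    · intro h0
      have h1 := hwe (q (Φ (ρI δ)) * c)
      rw [h0, zero_pow hr.ne_zero] at h1
      exact he0 _ h1.symm
    · rw [← map_pow, hwe, hwe]
      exact hδe δ c
  choose ε hε using hex
  have h1 := hb' δ ε hε
  have h2 := hform δ ε hε
  rw [h1, h2]
  exact VLoc_alg hA (Φ (ρI δ)) b b' _

end MP7b0bad.SV
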