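import Pool.Agent.Work.MP_7b0bad_ag.SV.VStmts

set_option autoImplicit false

namespace MP7b0bad.SV

open Polynomial

theorem VLv_uniq {k : Type} [Field k] (u : LaurentSeries k) (h h' : RatFunc k →+* LaurentSeries k)
    (H : IsH h u) (H' : IsH h' u) : h = h' := by
  have hp : ∀ f : k[X], h (algebraMap k[X] (RatFunc k) f) = h' (algebraMap k[X] (RatFunc k) f) := by
    intro f
    have e : h.comp (algebraMap k[X] (RatFunc k)) = h'.comp (algebraMap k[X] (RatFunc k)) := by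
      refine Polynomial.ringHom_ext (fun c => ?_) ?_
      · simp only [RingHom.comp_apply]
        rw [RatFunc.algebraMap_C, H.cst, H'.cst]
      · simp only [RingHom.comp_apply]
        rw [RatFunc.algebraMap_X, H.X, H'.X]
    exact RingHom.congr_fun e f
  ext1 x
  induction x using RatFunc.induction_on with
  | f f g hg =>
    rw [map_div₀, map_div₀, hp, hp]

theorem prf_VLv (hPl : VPl) (hLT : VLT) (hCp : VCp) : VLv := by
  intro k _ p Ω Λ _ _ _ _ hI jI ρI hB r ζ t hr hrp hTm G A _ _ _ _ i hi hA Φ hΦ a h j ρ hH hC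
  have := hB.ac
  have := hB.ch
  have : Fact p.Prime := ⟨hB.pr⟩
  have := hB.galΩ
  have := hB.galΛ
  have := hB.scΛ
  have hpr : ¬ p ∣ r := fun hd => hrp (((Nat.prime_dvd_prime_iff_eq hB.pr hr).1 hd).symm)
  obtain ⟨_, h2, h3⟩ : (∃ τ : Λ ≃ₐ[LaurentSeries k] Λ, τ t = cΛ Λ ζ * t) ∧
      (∀ δ : Λ ≃ₐ[LaurentSeries k] Λ, ∃ m : ℕ, δ t = cΛ Λ (ζ ^ m) * t) ∧
      ∀ (A : Type) [CommGroup A] [Finite A] (c : (Λ ≃ₐ[LaurentSeries k] Λ) →* A), Cts c →
        (∀ a : A, a ^ r = 1) → ∃ a : A, ∀ (δ : Λ ≃ₐ[LaurentSeries k] Λ) (m : ℕ),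
          δ t = cΛ Λ (ζ ^ m) * t → c δ = a ^ m :=
    (hLT k p Λ r ζ hr.pos hpr hTm.prim).2 t hTm
  refine ⟨fun hb => ?_, ⟨fun hl => ?_, fun hu => ?_⟩⟩
  · have hcts : Cts (Φ.comp ρ) := hCp.2.1 _ _ _ _ h j ρ hC G Φ hΦ
    let c : (Λ ≃ₐ[LaurentSeries k] Λ) →* A :=
      (MonoidHom.ofInjective hi).symm.toMonoidHom.comp
        ((Φ.comp ρ).codRestrict i.range (fun δ => by
          obtain ⟨b, hb'⟩ := hb δ
          exact ⟨b, hb'.symm⟩))
    have hc : ∀ δ, i (c δ) = Φ (ρ δ) := by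
      intro δ
      exact MonoidHom.apply_ofInjective_symm hi _
    have hcc : Cts c := by
      obtain ⟨S, hS⟩ := hcts
      refine ⟨S, fun γ hγ => ?_⟩
      apply hi
      rw [hc, map_one]
      exact hS γ hγ
    obtain ⟨v, hv⟩ := h3 A c hcc hA
    refine ⟨v, fun δ n hδ => ?_⟩
    rw [← hc, hv δ n hδ]
  · intro h' j' ρ' hH' hC' δ
    have e : h' = h := VLv_uniq _ _ _ hH' hH
    subst e
    obtain ⟨γ₀, _, hγ⟩ := (hPl _ _ _ _ h').2 j j' ρ ρ' hC hC'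
    obtain ⟨m, hm⟩ := h2 δ
    have h4 : Φ (ρ δ) = 1 := by
      rw [hl δ m hm, one_pow, map_one]
    rw [hγ δ, map_mul, map_mul, h4, mul_one, ← map_mul, inv_mul_cancel, map_one]
  · intro δ n _
    rw [hu h j ρ hH hC δ, one_pow, map_one]

end MP7b0bad.SV
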