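import Pool.Agent.Work.MP_7b0bad_ag.SV.VStmts2

set_option autoImplicit false

/-!
# Moving all the ramification (item VMov)
-/

namespace MP7b0bad.SV

open Polynomial

theorem VMov_pA_ne {k : Type} [Field k] (a : k) (c : k) : pA a ≠ HahnSeries.C c := by
  intro h
  have h1 := congrArg (fun u : LaurentSeries k => u.coeff 1) h
  simp [pA, HahnSeries.C_apply, HahnSeries.coeff_single] at h1

/-- equal modulo `A` and conjugate by `A` at infinity -/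
structure VMov_Ch {Γ Δ G A : Type} [Group Γ] [Group Δ] [Group G] [CommGroup A] (i : A →* G)
    (ρI : Δ →* Γ) (Φ Φ' : Γ →* G) : Prop where
  eqv : Eqv i Φ Φ'
  con : ∃ b : A, ∀ δ, Φ' (ρI δ) = (i b)⁻¹ * Φ (ρI δ) * i b

theorem VMov_Ch_refl {Γ Δ G A : Type} [Group Γ] [Group Δ] [Group G] [CommGroup A] (i : A →* G)
    (ρI : Δ →* Γ) (Φ : Γ →* G) : VMov_Ch i ρI Φ Φ :=
  ⟨fun γ => ⟨1, by simp⟩, 1, fun δ => by simp⟩

theorem VMov_Ch_trans {Γ Δ G A : Type} [Group Γ] [Group Δ] [Group G] [CommGroup A] (i : A →* G)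
    (ρI : Δ →* Γ) (Φ Φ' Φ'' : Γ →* G) (h : VMov_Ch i ρI Φ Φ') (h' : VMov_Ch i ρI Φ' Φ'') :
    VMov_Ch i ρI Φ Φ'' := by
  obtain ⟨b, hb⟩ := h.con
  obtain ⟨b', hb'⟩ := h'.con
  refine ⟨fun γ => ?_, b * b', fun δ => ?_⟩
  · obtain ⟨a, ha⟩ := h.eqv γ
    obtain ⟨a', ha'⟩ := h'.eqv γ
    exact ⟨a' * a, by rw [ha', ha, map_mul, mul_assoc]⟩
  · rw [hb', hb, map_mul]
    group

theorem VMov_Ch_q {Γ Δ G A Q : Type} [Group Γ] [Group Δ] [Group G] [CommGroup A] [Group Q]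
    (i : A →* G) (q : G →* Q) (hq : ∀ g : G, q g = 1 ↔ g ∈ i.range)
    (ρI : Δ →* Γ) (Φ Φ' : Γ →* G) (h : VMov_Ch i ρI Φ Φ') : q.comp Φ' = q.comp Φ := by
  ext γ
  obtain ⟨a, ha⟩ := h.eqv γ
  have h1 : q (i a) = 1 := (hq _).2 ⟨a, rfl⟩
  simp [MonoidHom.comp_apply, ha, h1]

theorem prf_VMov (hMv1 : VMv1) (hMv2 : VMv2) (hRam : VRam) (hLv : VLv) (hPl : VPl) (hH : VH) :
    VMov := by
  intro k _ p Ω Λ _ _ _ _ hI jI ρI hB r ζ t hr hrp hT G A Q _ _ _ _ _ _ i act q hA hq hcl Φ hΦ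
    hsur hunr a₀ h₀ j₀ ρ₀ hh₀ hc₀ v
  classical
  have hgΩ := hB.galΩ
  have hgΛ := hB.galΛ
  have hsΛ := hB.scΛ
  -- existence of places
  have hplace : ∀ a : k, ∃ (h : RatFunc k →+* LaurentSeries k) (j : Ω →+* Λ)
      (ρ : (Λ ≃ₐ[LaurentSeries k] Λ) →* (Ω ≃ₐ[RatFunc k] Ω)), IsH h (pA a) ∧ Comp h j ρ := by
    intro a
    obtain ⟨h, hh⟩ := (hH k).1 (pA a) (VMov_pA_ne a)
    obtain ⟨⟨j, ρ, hc⟩, -⟩ := hPl (RatFunc k) (LaurentSeries k) Ω Λ h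
    exact ⟨h, j, ρ, hh, hc⟩
  have hqc : Cts (q.comp Φ) := by
    obtain ⟨S, hS⟩ := hΦ
    exact ⟨S, fun γ hγ => by rw [MonoidHom.comp_apply, hS γ hγ, map_one]⟩
  obtain ⟨Z, hZ⟩ := hMv2 k p Ω Λ hI jI ρI hB r ζ t hr hrp hT G A Q i act q hA hq hcl (q.comp Φ)
    hqc hsur hunr
  -- step 1
  have step1 : ∀ X : Finset k, a₀ ∈ X → ∀ Y : Finset k, Y ⊆ X →
      ∃ Φ' : (Ω ≃ₐ[RatFunc k] Ω) →* G, Cts Φ' ∧ VMov_Ch i ρI Φ Φ' ∧
        (∀ a ∈ Y, a ≠ a₀ → UnrAt (Λ := Λ) Φ' a) ∧ (a₀ ∈ Y → LV ζ t i Φ' ρ₀ v) := by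
    intro X haX Y
    induction Y using Finset.induction_on with
    | empty =>
      intro _
      exact ⟨Φ, hΦ, VMov_Ch_refl i ρI Φ, fun a ha => absurd ha (Finset.notMem_empty a),
        fun ha => absurd ha (Finset.notMem_empty a₀)⟩
    | insert a₁ Y ha₁ ih =>
      intro hYX
      obtain ⟨Φ₁, hΦ₁, hch, hun, hlv⟩ := ih (fun x hx => hYX (Finset.mem_insert_of_mem hx))
      have hq1 : q.comp Φ₁ = q.comp Φ := VMov_Ch_q i q hq ρI Φ Φ₁ hch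
      -- place over a₁
      have hpl1 : ∃ (h : RatFunc k →+* LaurentSeries k) (j : Ω →+* Λ)
          (ρ : (Λ ≃ₐ[LaurentSeries k] Λ) →* (Ω ≃ₐ[RatFunc k] Ω)), IsH h (pA a₁) ∧ Comp h j ρ ∧
          (a₁ = a₀ → ρ = ρ₀) := by
        by_cases he : a₁ = a₀
        · subst he
          exact ⟨h₀, j₀, ρ₀, hh₀, hc₀, fun _ => rfl⟩
        · obtain ⟨h, j, ρ, hh, hc⟩ := hplace a₁
          exact ⟨h, j, ρ, hh, hc, fun h => absurd h he⟩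
      obtain ⟨h₁, j₁, ρ₁, hh₁, hc₁, hρ₁⟩ := hpl1
      have hker : ∀ δ, ∃ b : A, Φ₁ (ρ₁ δ) = i b := by
        intro δ
        have h2 : q (Φ₁ (ρ₁ δ)) = 1 := by
          have h3 := hunr a₁ h₁ j₁ ρ₁ hh₁ hc₁ δ
          rw [← hq1] at h3
          exact h3
        obtain ⟨b, hb⟩ := (hq _).1 h2
        exact ⟨b, hb.symm⟩
      obtain ⟨w, hw⟩ := (hLv k p Ω Λ hI jI ρI hB r ζ t hr hrp hT G A i hA.inj hA.exp Φ₁ hΦ₁ a₁ h₁
        j₁ ρ₁ hh₁ hc₁).1 hker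
      obtain ⟨Φ₂, hΦ₂, he₂, hlv₂, hX₂, hcon₂⟩ := hMv1 k p Ω Λ hI jI ρI hB r ζ t hr hrp hT G A Q i
        act q hA hq Φ₁ hΦ₁ (by rw [hq1]; exact hsur) (by rw [hq1]; exact hunr) X a₁ h₁ j₁ ρ₁ hh₁
        hc₁ w (if a₁ = a₀ then v else 1) hw
      refine ⟨Φ₂, hΦ₂, VMov_Ch_trans i ρI Φ Φ₁ Φ₂ hch ⟨he₂, hcon₂⟩, ?_, ?_⟩
      · intro a ha hne
        by_cases he : a = a₁
        · subst he
          rw [if_neg hne] at hlv₂
          exact (hLv k p Ω Λ hI jI ρI hB r ζ t hr hrp hT G A i hA.inj hA.exp Φ₂ hΦ₂ a h₁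
            j₁ ρ₁ hh₁ hc₁).2.1 hlv₂
        · have haY : a ∈ Y := (Finset.mem_insert.1 ha).resolve_left he
          intro h j ρ hh hc δ
          rw [hX₂ a (hYX ha) he h j ρ hh hc δ]
          exact hun a haY hne h j ρ hh hc δ
      · intro ha
        by_cases he : a₁ = a₀
        · rw [if_pos he] at hlv₂
          rw [← hρ₁ he]
          exact hlv₂
        · have haY : a₀ ∈ Y := (Finset.mem_insert.1 ha).resolve_left (fun h => he h.symm)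
          intro δ n hδ
          rw [hX₂ a₀ haX (fun h => he h.symm) h₀ j₀ ρ₀ hh₀ hc₀ δ]
          exact hlv haY δ n hδ
  obtain ⟨Φ₁, hΦ₁, hch₁, hun₁, hlv₁⟩ := step1 (insert a₀ Z) (Finset.mem_insert_self _ _)
    (insert a₀ Z) (Finset.Subset.refl _)
  obtain ⟨Z', hZ'⟩ := hRam k p Ω Λ hI jI ρI hB G Φ₁ hΦ₁
  -- step 2
  have step2 : ∀ W : Finset k, (∀ a ∈ W, a ∉ Z) →
      ∃ Φ' : (Ω ≃ₐ[RatFunc k] Ω) →* G, Cts Φ' ∧ VMov_Ch i ρI Φ₁ Φ' ∧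
        (∀ a ∈ W, UnrAt (Λ := Λ) Φ' a) ∧
        (∀ a ∉ W, ∀ (h : RatFunc k →+* LaurentSeries k) (j : Ω →+* Λ)
          (ρ : (Λ ≃ₐ[LaurentSeries k] Λ) →* (Ω ≃ₐ[RatFunc k] Ω)), IsH h (pA a) → Comp h j ρ →
          ∀ δ, Φ' (ρ δ) = Φ₁ (ρ δ)) := by
    intro W
    induction W using Finset.induction_on with
    | empty =>
      intro _
      exact ⟨Φ₁, hΦ₁, VMov_Ch_refl i ρI Φ₁, fun a ha => absurd ha (Finset.notMem_empty a),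
        fun a _ h j ρ _ _ δ => rfl⟩
    | insert a₁ W ha₁ ih =>
      intro hW
      obtain ⟨Φ₂, hΦ₂, hch₂, hun₂, heq₂⟩ := ih (fun a ha => hW a (Finset.mem_insert_of_mem ha))
      have hq2 : q.comp Φ₂ = q.comp Φ := VMov_Ch_q i q hq ρI Φ Φ₂
        (VMov_Ch_trans i ρI Φ Φ₁ Φ₂ hch₁ hch₂)
      obtain ⟨Φ₃, hΦ₃, he₃, hu₃, heq₃, hcon₃⟩ := hZ a₁ (hW a₁ (Finset.mem_insert_self _ _)) Φ₂ hΦ₂
        hq2
      refine ⟨Φ₃, hΦ₃, VMov_Ch_trans i ρI Φ₁ Φ₂ Φ₃ hch₂ ⟨he₃, hcon₃⟩, ?_, ?_⟩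
      · intro a ha
        by_cases he : a = a₁
        · subst he
          exact hu₃
        · have haW : a ∈ W := (Finset.mem_insert.1 ha).resolve_left he
          intro h j ρ hh hc δ
          rw [heq₃ a he h j ρ hh hc δ]
          exact hun₂ a haW h j ρ hh hc δ
      · intro a ha h j ρ hh hc δ
        have hne : a ≠ a₁ := fun h => ha (h ▸ Finset.mem_insert_self _ _)
        have hnW : a ∉ W := fun h => ha (Finset.mem_insert_of_mem h)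
        rw [heq₃ a hne h j ρ hh hc δ, heq₂ a hnW h j ρ hh hc δ]
  obtain ⟨Φ', hΦ', hch', hun', heq'⟩ := step2 (Z' \ insert a₀ Z) (by
    intro a ha haZ
    exact (Finset.mem_sdiff.1 ha).2 (Finset.mem_insert_of_mem haZ))
  have hch := VMov_Ch_trans i ρI Φ Φ₁ Φ' hch₁ hch'
  refine ⟨Φ', hΦ', hch.eqv, ?_, ?_, hch.con⟩
  · intro a hne
    by_cases haW : a ∈ Z' \ insert a₀ Z
    · exact hun' a haW
    · intro h j ρ hh hc δ
      rw [heq' a haW h j ρ hh hc δ]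
      by_cases haX : a ∈ insert a₀ Z
      · exact hun₁ a haX hne h j ρ hh hc δ
      · have haZ' : a ∉ Z' := fun h => haW (Finset.mem_sdiff.2 ⟨h, haX⟩)
        exact hZ' a haZ' h j ρ hh hc δ
  · intro δ n hδ
    have haW : a₀ ∉ Z' \ insert a₀ Z := fun h =>
      (Finset.mem_sdiff.1 h).2 (Finset.mem_insert_self _ _)
    rw [heq' a₀ haW h₀ j₀ ρ₀ hh₀ hc₀ δ]
    exact hlv₁ (Finset.mem_insert_self _ _) δ n hδ

end MP7b0bad.SV
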