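import Pool.Agent.Work.MP_7b0bad_ag.SV.VStmts2

set_option autoImplicit false

/-! # Item VMv1 of the block SV: changing the tame value at one point -/

namespace MP7b0bad.SV

open Polynomial

theorem VMv1_pA {k : Type} [Field k] (a c : k) : pA a ≠ HahnSeries.C c := by
  intro h
  have h1 := congrArg (fun u : LaurentSeries k => u.coeff 1) h
  simp [pA, HahnSeries.coeff_add, HahnSeries.C_apply, HahnSeries.coeff_single_of_ne] at h1

theorem VMv1_act {G A : Type} [Group G] [CommGroup A] {r : ℕ} {i : A →* G} {act : G →* MulAut A}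
    (hA : AbK r i act) {g : G} (h : g ∈ i.range) : act g = 1 := by
  obtain ⟨a, rfl⟩ := h
  ext x
  apply hA.inj
  rw [hA.conj, MulAut.one_apply, ← map_mul, ← map_inv, ← map_mul, mul_comm a x,
      mul_inv_cancel_right]

theorem VMv1_unit (hY : YRoot) {k : Type} [Field k] [IsAlgClosed k] {r : ℕ} (hr : (r : k) ≠ 0)
    (w : LaurentSeries k) (hw : w ≠ 0) (h0 : w.order = 0) : ∃ u : LaurentSeries k, u ≠ 0 ∧
      u ^ r = w := by
  obtain ⟨u, hu⟩ := hY k r hr w hw (by rw [h0]; exact dvd_zero _)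
  refine ⟨u, ?_, hu⟩
  rintro rfl
  have hr0 : r ≠ 0 := by
    rintro rfl
    exact hr Nat.cast_zero
  rw [zero_pow hr0] at hu
  exact hw hu.symm

theorem VMv1_c1 {k : Type} [Field k] (Λ : Type) [Field Λ] [Algebra (LaurentSeries k) Λ] (ζ : k) :
    cΛ Λ (ζ ^ 0) = 1 := by
  rw [cΛ, pow_zero, map_one, map_one]

theorem VMv1_lmul {k : Type} [Field k] (Λ : Type) [Field Λ] [Algebra (LaurentSeries k) Λ]
    (a b : LaurentSeries k) : lΛ Λ (a * b) = lΛ Λ a * lΛ Λ b :=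
  map_mul (algebraMap (LaurentSeries k) Λ) a b

theorem VMv1_lpow {k : Type} [Field k] (Λ : Type) [Field Λ] [Algebra (LaurentSeries k) Λ]
    (a : LaurentSeries k) (n : ℕ) : lΛ Λ (a ^ n) = lΛ Λ a ^ n :=
  map_pow (algebraMap (LaurentSeries k) Λ) a n

theorem VMv1_lone {k : Type} [Field k] (Λ : Type) [Field Λ] [Algebra (LaurentSeries k) Λ] :
    lΛ Λ (1 : LaurentSeries k) = 1 :=
  map_one (algebraMap (LaurentSeries k) Λ)

theorem prf_VMv1 (hH : VH) (hY : YRoot) (hPl : VPl) (hTw : VTw) (hWA : VWA) : VMv1 := by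
  intro k _ p Ω Λ _ _ _ _ hI jI ρI hB r ζ t hr hrp ht G A Q _ _ _ _ _ _ i act q hA hq Φ hΦ hsurj
    hunr X a₁ h₁ j₁ ρ₁ hh₁ hc₁ v v' hv
  classical
  have iac := hB.ac
  have ich := hB.ch
  have iga := hB.galΩ
  have isc := hB.scΩ
  have igb := hB.galΛ
  have isb := hB.scΛ
  have ifq := Fintype.ofFinite Q
  have hrk : (r : k) ≠ 0 := by
    intro h
    rw [CharP.cast_eq_zero_iff k p r] at h
    exact hrp ((Nat.prime_dvd_prime_iff_eq hB.pr hr).1 h).symm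
  have hpl : ∀ a : k, ∃ (h : RatFunc k →+* LaurentSeries k) (j : Ω →+* Λ)
      (ρ : (Λ ≃ₐ[LaurentSeries k] Λ) →* (Ω ≃ₐ[RatFunc k] Ω)), IsH h (pA a) ∧ Comp h j ρ ∧
      (a = a₁ → h = h₁ ∧ j = j₁ ∧ ρ = ρ₁) := by
    intro a
    by_cases ha : a = a₁
    · subst ha
      exact ⟨h₁, j₁, ρ₁, hh₁, hc₁, fun _ => ⟨rfl, rfl, rfl⟩⟩
    · obtain ⟨h, hh⟩ := (hH k).1 (pA a) (VMv1_pA a)
      obtain ⟨⟨j, ρ, hc⟩, -⟩ := hPl (RatFunc k) (LaurentSeries k) Ω Λ h
      exact ⟨h, j, ρ, hh, hc, fun h => absurd h ha⟩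
  choose hp jp ρp hp1 hp2 hp3 using hpl
  have hs : ∀ c : Q, ∃ γ : Ω ≃ₐ[RatFunc k] Ω, q (Φ γ) = c ∧ (c = 1 → γ = 1) := by
    intro c
    by_cases hc : c = 1
    · exact ⟨1, by rw [map_one, map_one, hc], fun _ => rfl⟩
    · obtain ⟨γ, hγ⟩ := hsurj c
      exact ⟨γ, hγ, fun h => absurd h hc⟩
  choose s hs1 hs2 using hs
  have hcts : Cts (q.comp Φ) := by
    obtain ⟨S, hS⟩ := hΦ
    refine ⟨S, fun γ hγ => ?_⟩
    rw [MonoidHom.comp_apply, hS γ hγ, map_one]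
  obtain ⟨F, hF0, hFfix, hFX, y, hy0, hyact, hyF⟩ := hWA k p Ω Λ hI jI ρI hB r hr hrp Q
    (q.comp Φ) hcts hsurj hunr s hs1 (insert a₁ X) hp jp ρp (fun a _ => ⟨hp1 a, hp2 a⟩)
    (fun a c => if a = a₁ ∧ c = 1 then 1 else 0) (fun _ => 1) (fun _ => one_ne_zero)
    (fun δ c => map_one δ)
  obtain ⟨Φ', hΦ', hEq, hform⟩ := hTw k Ω r ζ hrk ht.prim G A Q i act q hA hq Φ hΦ s hs1 F
    (v' * v⁻¹) hF0 (fun γ hγ => hFfix γ hγ)
  refine ⟨Φ', hΦ', hEq, ?_, ?_, ?_⟩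
  · -- the point `a₁`
    intro δ₀ n₀ hδ₀
    have hu : ∀ δ, q (Φ (ρ₁ δ)) = 1 := fun δ => hunr a₁ h₁ j₁ ρ₁ hh₁ hc₁ δ
    have hF1 : ∀ c, ∃ u : LaurentSeries k, u ≠ 0 ∧ j₁ (s c F) =
        lΛ Λ (HahnSeries.single (if c = 1 then (1 : ℤ) else 0) (1 : k)) * (lΛ Λ u) ^ r := by
      intro c
      obtain ⟨w, hw0, hw1, hw2⟩ := hFX a₁ (Finset.mem_insert_self _ _) c
      obtain ⟨u, hu0, hu1⟩ := VMv1_unit hY hrk w hw0 hw1
      refine ⟨u, hu0, ?_⟩
      rw [(hp3 a₁ rfl).2.1, VMv1_lmul, ← hu1, VMv1_lpow] at hw2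
      rw [hw2]
      simp only [true_and]
    choose u hu0 huF using hF1
    obtain ⟨b, hb⟩ := hform Λ h₁ j₁ ρ₁ hc₁ hh₁.cst
      (fun c => lΛ Λ (HahnSeries.single (if c = 1 then (1 : ℤ) else 0) (1 : k)))
      (fun c => lΛ Λ (u c)) (fun c => if c = 1 then t else 1)
      (fun c => by
        show lΛ Λ (u c) ≠ 0
        rw [ne_eq, map_eq_zero]
        exact hu0 c)
      (fun c => by
        by_cases hc : c = 1
        · simp only [hc, if_true]
          exact ht.root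
        · simp only [hc, if_false, one_pow]
          show 1 = lΛ Λ (HahnSeries.single (0 : ℤ) (1 : k))
          rw [HahnSeries.single_zero_one, VMv1_lone])
      huF
      (fun δ c => by
        show δ (lΛ Λ (u c)) = lΛ Λ (u (q (Φ (ρ₁ δ)) * c))
        rw [hu δ, one_mul]
        exact δ.commutes (u c))
    have h2 := hb δ₀ (fun c => if c = 1 then n₀ else 0) (fun c => by
      show δ₀ (if c = 1 then t else 1) = cΛ Λ (ζ ^ (if c = 1 then n₀ else 0)) *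
        (if q (Φ (ρ₁ δ₀)) * c = 1 then t else 1)
      rw [hu δ₀, one_mul]
      by_cases hc : c = 1
      · simp only [hc, if_true]
        exact hδ₀
      · simp only [hc, if_false, VMv1_c1, map_one, mul_one])
    have h3 : Φ (ρ₁ δ₀) = i (v ^ n₀) := hv δ₀ n₀ hδ₀
    have h4 : act (Φ (ρ₁ δ₀)) = 1 := VMv1_act hA ⟨_, h3.symm⟩
    have h5 : ∏ c, act (Φ (ρ₁ δ₀) * Φ (s c)) (v' * v⁻¹) ^ (if c = 1 then n₀ else 0) =
        (v' * v⁻¹) ^ n₀ := by
      rw [Finset.prod_eq_single (1 : Q)]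
      · rw [if_pos rfl, hs2 1 rfl, map_one, mul_one, h4, MulAut.one_apply]
      · intro c _ hc
        rw [if_neg hc, pow_zero]
      · intro h
        exact absurd (Finset.mem_univ _) h
    rw [h2, h5, h4, MulAut.one_apply, mul_inv_cancel, one_mul, h3, ← map_mul, ← mul_pow,
      inv_mul_cancel_right]
  · -- the other points of `X`
    intro a haX ha h j ρ hh hc δ₀
    have hu : ∀ δ, q (Φ (ρ δ)) = 1 := fun δ => hunr a h j ρ hh hc δ
    have hhe : h = hp a := (hH k).2.1 (pA a) h (hp a) hh (hp1 a)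
    have hc' : Comp (hp a) j ρ := hhe ▸ hc
    obtain ⟨γ₀, hγ₀, -⟩ := (hPl (RatFunc k) (LaurentSeries k) Ω Λ (hp a)).2 (jp a) j (ρp a) ρ
      (hp2 a) hc'
    have hF1 : ∀ c, ∃ u : LaurentSeries k, u ≠ 0 ∧ j (s c F) = (fun _ : Q => (1 : Λ)) c *
        (lΛ Λ u) ^ r := by
      intro c
      set c' : Q := q (Φ γ₀) * c with hc'd
      have h6 : γ₀ (s c F) = s c' F := by
        have h7 : (q.comp Φ) ((s c')⁻¹ * (γ₀ * s c)) = 1 := by
          rw [MonoidHom.comp_apply, map_mul, map_mul, map_inv, map_inv, hs1, map_mul, map_mul,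
            hs1, ← hc'd, inv_mul_cancel]
        have h8 := hFfix _ h7
        have h9 : s c' (((s c')⁻¹ * (γ₀ * s c)) F) = s c' F := by rw [h8]
        rw [← AlgEquiv.mul_apply, mul_inv_cancel_left] at h9
        exact h9
      obtain ⟨w, hw0, hw1, hw2⟩ := hFX a (Finset.mem_insert_of_mem haX) c'
      obtain ⟨u, hu0, hu1⟩ := VMv1_unit hY hrk w hw0 hw1
      refine ⟨u, hu0, ?_⟩
      have h10 : ¬ (a = a₁ ∧ c' = 1) := fun h => ha h.1
      simp only [h10, if_false] at hw2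
      rw [hγ₀, h6, hw2, HahnSeries.single_zero_one, one_mul, one_mul, ← hu1, VMv1_lpow]
    choose u hu0 huF using hF1
    obtain ⟨b, hb⟩ := hform Λ h j ρ hc hh.cst (fun _ => 1) (fun c => lΛ Λ (u c)) (fun _ => 1)
      (fun c => by
        show lΛ Λ (u c) ≠ 0
        rw [ne_eq, map_eq_zero]
        exact hu0 c)
      (fun c => one_pow r) huF
      (fun δ c => by
        show δ (lΛ Λ (u c)) = lΛ Λ (u (q (Φ (ρ δ)) * c))
        rw [hu δ, one_mul]
        exact δ.commutes (u c))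
    have h2 := hb δ₀ (fun _ => 0) (fun c => by
      show δ₀ 1 = cΛ Λ (ζ ^ 0) * 1
      rw [VMv1_c1, map_one, mul_one])
    have h4 : act (Φ (ρ δ₀)) = 1 := VMv1_act hA ((hq _).1 (hu δ₀))
    simp only [pow_zero, Finset.prod_const_one, mul_one] at h2
    rw [h2, h4, MulAut.one_apply, mul_inv_cancel, map_one, one_mul]
  · -- infinity
    obtain ⟨b, hb⟩ := hform Λ hI jI ρI hB.comp hB.isH.cst (fun _ => 1) y (fun _ => 1) hy0
      (fun c => one_pow r) hyF (fun δ c => hyact δ c)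
    refine ⟨b, fun δ => ?_⟩
    have h2 := hb δ (fun _ => 0) (fun c => by
      show δ 1 = cΛ Λ (ζ ^ 0) * 1
      rw [VMv1_c1, map_one, mul_one])
    simp only [pow_zero, Finset.prod_const_one, mul_one] at h2
    rw [h2, mul_comm (act (Φ (ρI δ)) b) b⁻¹, map_mul, map_inv, hA.conj]
    group

end MP7b0bad.SV
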