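import Pool.Agent.Work.MP_7b0bad_ag.SV.VStmts2
import Pool.Agent.Work.MP_7b0bad_ag.Bd.B14

set_option autoImplicit false

/-!
Proof of the statement VMv2: killing the ramification at a general point.
-/

namespace MP7b0bad.SV

open Polynomial

theorem VMv2_pA {k : Type} [Field k] (a c : k) : pA a ≠ HahnSeries.C c := by
  intro h
  have h1 := congrArg (fun f : LaurentSeries k => f.coeff 1) h
  simp only [pA] at h1
  rw [HahnSeries.coeff_add, HahnSeries.coeff_single_same, HahnSeries.C_apply,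
    HahnSeries.coeff_single_of_ne (by norm_num), HahnSeries.C_apply,
    HahnSeries.coeff_single_of_ne (by norm_num)] at h1
  simp at h1

/-- conjugate places -/
theorem VMv2_conj {F₁ F₂ Ω₁ Ω₂ : Type} [Field F₁] [Field F₂] [Field Ω₁] [Field Ω₂] [Algebra F₁ Ω₁]
    [Algebra F₂ Ω₂] {h : F₁ →+* F₂} {j : Ω₁ →+* Ω₂}
    {ρ : (Ω₂ ≃ₐ[F₂] Ω₂) →* (Ω₁ ≃ₐ[F₁] Ω₁)} (hc : Comp h j ρ) (γ : Ω₁ ≃ₐ[F₁] Ω₁) :
    Comp h (j.comp (γ : Ω₁ →+* Ω₁)) ((MulAut.conj γ⁻¹).toMonoidHom.comp ρ) := by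
  refine ⟨fun a => ?_, fun δ x => ?_⟩
  · show j (γ (algebraMap F₁ Ω₁ a)) = _
    rw [γ.commutes]
    exact hc.alg a
  · show j (γ ((γ⁻¹ * ρ δ * γ⁻¹⁻¹) x)) = δ (j (γ x))
    rw [inv_inv, ← hc.res]
    have h1 : γ ((γ⁻¹ * ρ δ * γ) x) = (γ * (γ⁻¹ * ρ δ * γ)) x := rfl
    rw [h1]
    have h2 : γ * (γ⁻¹ * ρ δ * γ) = ρ δ * γ := by group
    rw [h2]
    rfl

theorem VMv2_act1 {r : ℕ} {G A : Type} [Group G] [CommGroup A] {i : A →* G} {act : G →* MulAut A}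
    (hA : AbK r i act) (a : A) : act (i a) = 1 := by
  ext x
  apply hA.inj
  rw [hA.conj, MulAut.one_apply, ← map_mul, ← map_inv, ← map_mul, mul_comm a x,
    mul_inv_cancel_right]

/-- one step or the composition of several steps -/
def VMv2_P {k Ω Λ : Type} [Field k] [Field Ω] [Algebra (RatFunc k) Ω] [Field Λ]
    [Algebra (LaurentSeries k) Λ] {G A Q : Type} [Group G] [CommGroup A] [Group Q] (ζ : k) (t : Λ)
    (i : A →* G) (q : G →* Q) (φ : (Ω ≃ₐ[RatFunc k] Ω) →* Q) (a₁ : k)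
    (ρ₁ ρI : (Λ ≃ₐ[LaurentSeries k] Λ) →* (Ω ≃ₐ[RatFunc k] Ω)) (u : A) : Prop :=
  ∀ Φ : (Ω ≃ₐ[RatFunc k] Ω) →* G, Cts Φ → q.comp Φ = φ →
  ∃ Φ' : (Ω ≃ₐ[RatFunc k] Ω) →* G, Cts Φ' ∧ Eqv i Φ Φ' ∧
    (∀ v, LV ζ t i Φ ρ₁ v → LV ζ t i Φ' ρ₁ (v * u)) ∧
    (∀ a : k, a ≠ a₁ → ∀ (h : RatFunc k →+* LaurentSeries k) (j : Ω →+* Λ)
      (ρ : (Λ ≃ₐ[LaurentSeries k] Λ) →* (Ω ≃ₐ[RatFunc k] Ω)), IsH h (pA a) → Comp h j ρ →
      ∀ δ, Φ' (ρ δ) = Φ (ρ δ)) ∧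
    ∃ b : A, ∀ δ, Φ' (ρI δ) = (i b)⁻¹ * Φ (ρI δ) * i b

section

variable {k Ω Λ : Type} [Field k] [Field Ω] [Algebra (RatFunc k) Ω] [Field Λ]
    [Algebra (LaurentSeries k) Λ] {G A Q : Type} [Group G] [CommGroup A] [Group Q] {ζ : k} {t : Λ}
    {i : A →* G} {q : G →* Q} {φ : (Ω ≃ₐ[RatFunc k] Ω) →* Q} {a₁ : k}
    {ρ₁ ρI : (Λ ≃ₐ[LaurentSeries k] Λ) →* (Ω ≃ₐ[RatFunc k] Ω)}

theorem VMv2_one : VMv2_P ζ t i q φ a₁ ρ₁ ρI 1 := by
  intro Φ hΦ _
  refine ⟨Φ, hΦ, fun γ => ⟨1, by rw [map_one, one_mul]⟩, fun v hv => by rwa [mul_one],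
    fun _ _ _ _ _ _ _ _ => rfl, 1, fun δ => by simp⟩

theorem VMv2_mul (hq : ∀ a : A, q (i a) = 1) {u u' : A} (hu : VMv2_P ζ t i q φ a₁ ρ₁ ρI u)
    (hu' : VMv2_P ζ t i q φ a₁ ρ₁ ρI u') : VMv2_P ζ t i q φ a₁ ρ₁ ρI (u * u') := by
  intro Φ hΦ hqΦ
  obtain ⟨Φ', h1, h2, h3, h4, b, h5⟩ := hu Φ hΦ hqΦ
  have hq' : q.comp Φ' = φ := by
    rw [← hqΦ]
    ext γ
    obtain ⟨a, ha⟩ := h2 γ
    show q (Φ' γ) = q (Φ γ)
    rw [ha, map_mul, hq, one_mul]
  obtain ⟨Φ'', g1, g2, g3, g4, b', g5⟩ := hu' Φ' h1 hq'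
  refine ⟨Φ'', g1, ?_, ?_, ?_, b * b', ?_⟩
  · intro γ
    obtain ⟨a, ha⟩ := h2 γ
    obtain ⟨a', ha'⟩ := g2 γ
    exact ⟨a' * a, by rw [ha', ha, map_mul, mul_assoc]⟩
  · intro v hv
    rw [← mul_assoc]
    exact g3 _ (h3 v hv)
  · intro a ha h j ρ hh hc δ
    rw [g4 a ha h j ρ hh hc, h4 a ha h j ρ hh hc]
  · intro δ
    rw [g5, h5, map_mul]
    group

theorem VMv2_pow (hq : ∀ a : A, q (i a) = 1) {u : A} (hu : VMv2_P ζ t i q φ a₁ ρ₁ ρI u) (n : ℕ) :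
    VMv2_P ζ t i q φ a₁ ρ₁ ρI (u ^ n) := by
  induction n with
  | zero => rw [pow_zero]; exact VMv2_one
  | succ n ih => rw [pow_succ]; exact VMv2_mul hq ih hu

end

theorem VMv2_mod {r : ℕ} {A : Type} [CommGroup A] (x : A) (hx : x ^ r = 1) {m n : ℤ}
    (h : (r : ℤ) ∣ m - n) : x ^ m = x ^ n := by
  obtain ⟨d, hd⟩ := h
  have h1 : m = (r : ℤ) * d + n := by linarith
  rw [h1, zpow_add, zpow_mul, zpow_natCast, hx, one_zpow, one_mul]

theorem VMv2_nat {r : ℕ} (hr : 0 < r) (m : ℤ) : (r : ℤ) ∣ m - (((m % r).toNat : ℕ) : ℤ) := by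
  have h1 : 0 ≤ m % r := Int.emod_nonneg _ (by exact_mod_cast hr.ne')
  rw [Int.toNat_of_nonneg h1]
  exact Int.dvd_self_sub_emod

theorem VMv2_zmod {r : ℕ} {k : Type} [Field k] {ζ : k} (hζ0 : ζ ≠ 0) (hζ : ζ ^ r = 1) {m : ℤ}
    {n : ℕ} (h : (r : ℤ) ∣ m - n) : ζ ^ m = ζ ^ n := by
  obtain ⟨d, hd⟩ := h
  have h1 : m = (r : ℤ) * d + n := by linarith
  rw [h1, zpow_add₀ hζ0, zpow_mul, zpow_natCast, hζ, one_zpow, one_mul, zpow_natCast]


theorem VMv2_lmul {k Λ : Type} [Field k] [Field Λ] [Algebra (LaurentSeries k) Λ]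
    (a b : LaurentSeries k) : lΛ Λ (a * b) = lΛ Λ a * lΛ Λ b := map_mul _ _ _

theorem VMv2_lpow {k Λ : Type} [Field k] [Field Λ] [Algebra (LaurentSeries k) Λ]
    (a : LaurentSeries k) (n : ℕ) : lΛ Λ (a ^ n) = lΛ Λ a ^ n := map_pow _ _ _

theorem VMv2_lzpow {k Λ : Type} [Field k] [Field Λ] [Algebra (LaurentSeries k) Λ]
    (a : LaurentSeries k) (n : ℤ) : lΛ Λ (a ^ n) = lΛ Λ a ^ n := map_zpow₀ _ _ _

theorem VMv2_lzero {k Λ : Type} [Field k] [Field Λ] [Algebra (LaurentSeries k) Λ] :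
    lΛ Λ (0 : LaurentSeries k) = 0 := map_zero _

/-- the product of the tame values -/
theorem VMv2_prod {r : ℕ} {A Q : Type} [CommGroup A] [Group Q] [Fintype Q] [DecidableEq Q]
    (x : Q → A) (hx : ∀ c, x c ^ r = 1) (c₀ : Q) (n : Q → ℤ)
    (hn : ∀ c, (r : ℤ) ∣ n c - (if c = 1 then 1 else 0) + (if c = c₀ then 1 else 0)) (n₀ : ℕ)
    (ε : Q → ℕ) (hε : ∀ c, (r : ℤ) ∣ n₀ * n c - ε c) :
    ∏ c, x c ^ ε c = (x 1 * (x c₀)⁻¹) ^ n₀ := by
  have h1 : ∀ c, x c ^ ε c = (if c = 1 then x c ^ n₀ else 1) *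
      (if c = c₀ then (x c)⁻¹ ^ n₀ else 1) := by
    intro c
    have h2 : x c ^ ε c = x c ^ ((n₀ : ℤ) * ((if c = 1 then 1 else 0) -
        (if c = c₀ then 1 else 0))) := by
      rw [← zpow_natCast]
      apply VMv2_mod (x c) (hx c)
      have h3 := hε c
      have h4 := (hn c).mul_left (n₀ : ℤ)
      have h5 : (ε c : ℤ) - (n₀ : ℤ) * ((if c = 1 then 1 else 0) - (if c = c₀ then 1 else 0)) =
          (n₀ : ℤ) * (n c - (if c = 1 then 1 else 0) + (if c = c₀ then 1 else 0)) -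
          ((n₀ : ℤ) * n c - ε c) := by ring
      rw [h5]
      exact dvd_sub h4 h3
    rw [h2]
    by_cases ha : c = 1
    · by_cases hb : c = c₀
      · rw [if_pos ha, if_pos hb, if_pos ha, if_pos hb, sub_self, mul_zero, zpow_zero, inv_pow,
          mul_inv_cancel]
      · rw [if_pos ha, if_neg hb, if_pos ha, if_neg hb, sub_zero, mul_one, mul_one, zpow_natCast]
    · by_cases hb : c = c₀
      · rw [if_neg ha, if_pos hb, if_neg ha, if_pos hb, zero_sub, one_mul, mul_neg, mul_one,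
          zpow_neg, zpow_natCast, inv_pow]
      · rw [if_neg ha, if_neg hb, if_neg ha, if_neg hb, sub_self, mul_zero, zpow_zero, mul_one]
  rw [Finset.prod_congr rfl (fun c _ => h1 c), Finset.prod_mul_distrib, Finset.prod_ite_eq',
    Finset.prod_ite_eq', if_pos (Finset.mem_univ _), if_pos (Finset.mem_univ _), mul_pow]

theorem prf_VMv2 (hAP : VAP) (hTw : VTw) (hPl : VPl) (hH : VH) (hLv : VLv) : VMv2 := by
  intro k _ p Ω Λ _ _ _ _ hI jI ρI hB r ζ t hr hrp ht G A Q _ _ _ _ _ _ i act q hA hq hcl φ hφ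
    hφs hφu
  classical
  have hac := hB.ac
  have hch := hB.ch
  have hpp : Fact p.Prime := ⟨hB.pr⟩
  have hgΩ := hB.galΩ
  have hsΩ := hB.scΩ
  have hgΛ := hB.galΛ
  have hsΛ := hB.scΛ
  letI : Fintype Q := Fintype.ofFinite Q
  have hrk : (r : k) ≠ 0 := by
    intro h
    have h1 := (CharP.cast_eq_zero_iff k p r).1 h
    exact hrp ((Nat.prime_dvd_prime_iff_eq hB.pr hr).1 h1).symm
  have hζ0 : ζ ≠ 0 := ht.prim.ne_zero hr.ne_zero
  have hqi : ∀ a : A, q (i a) = 1 := fun a => (hq (i a)).2 ⟨a, rfl⟩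
  have hact1 : ∀ g : G, q g = 1 → act g = 1 := by
    intro g hg
    obtain ⟨a, rfl⟩ := (hq g).1 hg
    exact VMv2_act1 hA a
  have hactq : ∀ g g' : G, q g = q g' → act g = act g' := by
    intro g g' hg
    have h1 : act (g⁻¹ * g') = 1 := by
      apply hact1
      rw [map_mul, map_inv, hg, inv_mul_cancel]
    rw [map_mul, map_inv] at h1
    exact inv_mul_eq_one.1 h1
  have hφs' := hφs
  choose s hs using hφs'
  obtain ⟨Z, hZ⟩ := hAP k p Ω Λ hI jI ρI hB r hr hrp Q φ hφ hφs hφu s hs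
  refine ⟨Z, fun a₁ ha₁ Φ hΦ hqΦ => ?_⟩
  obtain ⟨h₁, hh₁⟩ := (hH k).1 (pA a₁) (VMv2_pA a₁)
  obtain ⟨j₁, ρ₁, hc₁⟩ := (hPl (RatFunc k) (LaurentSeries k) Ω Λ h₁).1
  have hgen : ∀ (g : G) (a : A), VMv2_P ζ t i q φ a₁ ρ₁ ρI (act g a * a⁻¹) := by
    intro g a
    by_cases hg : q g = 1
    · rw [hact1 g hg, MulAut.one_apply, mul_inv_cancel]
      exact VMv2_one
    obtain ⟨F, hF0, hFfix, hFa, hFo, y, hy0, hyδ, hyF⟩ := hZ a₁ ha₁ h₁ j₁ ρ₁ hh₁ hc₁ (q g) hg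
    choose v n hv0 hvo hvF hvn using hFa
    have hroot : ∀ c, ∃ z : LaurentSeries k, z ^ r = v c := fun c =>
      prf_YRoot k r hrk (v c) (hv0 c) (by rw [hvo c]; exact dvd_zero _)
    choose z hz using hroot
    intro Φ hΦ hqΦ
    have hqΦ' : ∀ γ, q (Φ γ) = φ γ := fun γ => DFunLike.congr_fun hqΦ γ
    obtain ⟨Φ', hΦ', hE, hloc⟩ := hTw k Ω r ζ hrk ht.prim G A Q i act q hA hq Φ hΦ s
      (fun c => by rw [hqΦ', hs]) F a⁻¹ hF0 (fun γ hγ => hFfix γ (by rw [← hqΦ']; exact hγ))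
    refine ⟨Φ', hΦ', hE, ?_, ?_, ?_⟩
    · -- the place at `a₁`
      intro v₀ hv₀ δ n₀ hδ
      have hq1 : ∀ δ, q (Φ (ρ₁ δ)) = 1 := by
        intro δ
        rw [hqΦ']
        exact hφu a₁ h₁ j₁ ρ₁ hh₁ hc₁ δ
      have ht0 : t ≠ 0 := by
        rintro rfl
        have h1 := ht.root
        rw [zero_pow hr.ne_zero] at h1
        have h2 : (HahnSeries.single (1 : ℤ) (1 : k)) = (0 : LaurentSeries k) :=
          (algebraMap (LaurentSeries k) Λ).injective (by rw [map_zero]; exact h1.symm)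
        exact one_ne_zero (HahnSeries.single_eq_zero_iff.1 h2)
      obtain ⟨b, hb⟩ := hloc Λ h₁ j₁ ρ₁ hc₁ hh₁.cst
        (fun c => lΛ Λ (HahnSeries.single (n c) (1 : k))) (fun c => lΛ Λ (z c))
        (fun c => t ^ (n c)) (by
          intro c h0
          have h1 : z c = 0 := (algebraMap (LaurentSeries k) Λ).injective (by rw [map_zero]; exact h0)
          have h2 := hz c
          rw [h1, zero_pow hr.ne_zero] at h2
          exact hv0 c h2.symm) (by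
          intro c
          show (t ^ (n c)) ^ r = _
          rw [← zpow_natCast, ← zpow_mul, mul_comm, zpow_mul, zpow_natCast, ht.root,
            ← VMv2_lzpow, ← RatFunc.single_zpow]) (by
          intro c
          rw [hvF c, ← hz c, VMv2_lmul, VMv2_lpow]) (by
          intro δ c
          rw [hq1, one_mul]
          exact δ.commutes _)
      have hδw : ∀ c, δ (t ^ (n c)) =
          cΛ Λ (ζ ^ ((n₀ * n c) % r).toNat) * t ^ (n c) := by
        intro c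
        have h1 : cΛ Λ (ζ ^ n₀) ^ (n c) = cΛ Λ (ζ ^ ((n₀ * n c) % r).toNat) := by
          unfold cΛ
          rw [← map_zpow₀, ← map_zpow₀, ← zpow_natCast ζ n₀, ← zpow_mul,
            VMv2_zmod hζ0 ht.prim.pow_eq_one (VMv2_nat hr.pos _)]
        rw [map_zpow₀, hδ, mul_zpow, h1]
      have h1 := hb δ (fun c => ((n₀ * n c) % r).toNat) (fun c => by
        show δ (t ^ (n c)) = cΛ Λ (ζ ^ ((n₀ * n c) % r).toNat) * t ^ (n (q (Φ (ρ₁ δ)) * c))
        rw [hq1, one_mul]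
        exact hδw c)
      have h2 : act (Φ (ρ₁ δ)) = 1 := hact1 _ (hq1 δ)
      have h3 : ∏ c, act (Φ (ρ₁ δ) * Φ (s c)) a⁻¹ ^ ((n₀ * n c) % r).toNat =
          (act g a * a⁻¹) ^ n₀ := by
        have h4 := VMv2_prod (r := r) (fun c => act (Φ (ρ₁ δ) * Φ (s c)) a⁻¹)
          (fun c => by rw [← map_pow, hA.exp, map_one]) (q g) n hvn n₀
          (fun c => ((n₀ * n c) % r).toNat) (fun c => VMv2_nat hr.pos _)
        rw [h4]
        have h5 : act (Φ (ρ₁ δ) * Φ (s 1)) a⁻¹ = a⁻¹ := by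
          rw [hact1 _ (by rw [map_mul, hq1, hqΦ', hs, one_mul]), MulAut.one_apply]
        have h6 : act (Φ (ρ₁ δ) * Φ (s (q g))) a⁻¹ = (act g a)⁻¹ := by
          rw [hactq (Φ (ρ₁ δ) * Φ (s (q g))) g (by rw [map_mul, hq1, hqΦ', hs, one_mul]),
            map_inv]
        simp only [h5, h6]
        rw [inv_inv, mul_comm]
      rw [h1, h3, h2, MulAut.one_apply, mul_inv_cancel, one_mul, hv₀ δ n₀ hδ, ← map_mul,
        ← mul_pow, mul_comm v₀]
    · -- the other places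
      intro a' ha' h' j' ρ' hh' hc' δ
      have hq1 : ∀ δ, q (Φ (ρ' δ)) = 1 := by
        intro δ
        rw [hqΦ']
        exact hφu a' h' j' ρ' hh' hc' δ
      have hex : ∀ c, ∃ v : LaurentSeries k, j' (s c F) = lΛ Λ (v ^ r) := by
        intro c
        exact hFo a' ha' h' _ _ hh' (VMv2_conj hc' (s c))
      choose v' hv' using hex
      obtain ⟨b, hb⟩ := hloc Λ h' j' ρ' hc' hh'.cst (fun _ => 1) (fun c => lΛ Λ (v' c))
        (fun _ => 1) (by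
          intro c h0
          have h1 : v' c = 0 :=
            (algebraMap (LaurentSeries k) Λ).injective (by rw [map_zero]; exact h0)
          have h2 := hv' c
          rw [h1, zero_pow hr.ne_zero, VMv2_lzero] at h2
          have h3 : s c F = 0 := j'.injective (by rw [map_zero]; exact h2)
          exact hF0 ((s c).injective (by rw [map_zero]; exact h3)))
        (fun c => one_pow r) (fun c => by rw [hv' c, one_mul, VMv2_lpow]) (by
          intro δ c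
          rw [hq1, one_mul]
          exact δ.commutes _)
      have h1 := hb δ (fun _ => 0) (fun c => by simp [cΛ])
      have h2 : act (Φ (ρ' δ)) = 1 := hact1 _ (hq1 δ)
      rw [h1, h2, MulAut.one_apply, mul_inv_cancel, one_mul,
        Finset.prod_eq_one (fun c _ => pow_zero _), map_one, one_mul]
    · -- the place over infinity
      obtain ⟨b, hb⟩ := hloc Λ hI jI ρI hB.comp hB.isH.cst (fun _ => 1) y (fun _ => 1) hy0
        (fun c => one_pow r) (fun c => by rw [hyF c, one_mul]) (by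
          intro δ c
          rw [hqΦ']
          exact hyδ δ c)
      refine ⟨b, fun δ => ?_⟩
      have h1 := hb δ (fun _ => 0) (fun c => by simp [cΛ])
      rw [h1, Finset.prod_eq_one (fun c _ => pow_zero _), mul_one,
        mul_comm (act (Φ (ρI δ)) b) b⁻¹, map_mul, map_inv, hA.conj]
      group
  have hP : ∀ u : A, VMv2_P ζ t i q φ a₁ ρ₁ ρI u := by
    intro u
    have hu : u ∈ Subgroup.closure {x : A | ∃ (g : G) (a : A), x = act g a * a⁻¹} := by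
      rw [hcl]
      trivial
    induction hu using Subgroup.closure_induction with
    | mem x hx =>
      obtain ⟨g, a, rfl⟩ := hx
      exact hgen g a
    | one => exact VMv2_one
    | mul x y _ _ hx hy => exact VMv2_mul hqi hx hy
    | inv x _ hx =>
      have h1 : x⁻¹ = x ^ (r - 1) := by
        rw [inv_eq_iff_mul_eq_one, ← pow_succ', Nat.sub_add_cancel hr.pos]
        exact hA.exp x
      rw [h1]
      exact VMv2_pow hqi hx _
  have h0 : ∀ δ, ∃ b : A, Φ (ρ₁ δ) = i b := by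
    intro δ
    have h1 : q (Φ (ρ₁ δ)) = 1 := by
      have h2 : q (Φ (ρ₁ δ)) = φ (ρ₁ δ) := DFunLike.congr_fun hqΦ (ρ₁ δ)
      rw [h2]
      exact hφu a₁ h₁ j₁ ρ₁ hh₁ hc₁ δ
    obtain ⟨b, hb⟩ := (hq _).1 h1
    exact ⟨b, hb.symm⟩
  obtain ⟨v, hv⟩ := (hLv k p Ω Λ hI jI ρI hB r ζ t hr hrp ht G A i hA.inj hA.exp Φ hΦ a₁ h₁ j₁ ρ₁
    hh₁ hc₁).1 h0
  obtain ⟨Φ', g1, g2, g3, g4, g5⟩ := hP v⁻¹ Φ hΦ hqΦ
  refine ⟨Φ', g1, g2, ?_, g4, g5⟩
  have h1 := g3 v hv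
  rw [mul_inv_cancel] at h1
  exact (hLv k p Ω Λ hI jI ρI hB r ζ t hr hrp ht G A i hA.inj hA.exp Φ' g1 a₁ h₁ j₁ ρ₁
    hh₁ hc₁).2.1 h1

end MP7b0bad.SV
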