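import Pool.Agent.Work.MP_7b0bad_ag.SV.LiftStmts

set_option autoImplicit false

/-! VNor: open normal subgroups are a basis. -/

namespace MP7b0bad.SV

open Polynomial

/-- the finite set of conjugates of the elements of `S` -/
noncomputable def VNor_T (F : Type) {Ω : Type} [Field F] [Field Ω] [Algebra F Ω] (S : Finset Ω) :
    Finset Ω := by
  classical
  exact S.biUnion fun x => ((minpoly F x).aroots Ω).toFinset

theorem VNor_mem (F : Type) {Ω : Type} [Field F] [Field Ω] [Algebra F Ω] [IsGalois F Ω]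
    (S : Finset Ω) (y : Ω) :
    y ∈ VNor_T F S ↔ ∃ x ∈ S, aeval y (minpoly F x) = 0 := by
  classical
  unfold VNor_T
  simp only [Finset.mem_biUnion, Multiset.mem_toFinset]
  constructor
  · rintro ⟨x, hx, h⟩
    exact ⟨x, hx, (mem_aroots.1 h).2⟩
  · rintro ⟨x, hx, h⟩
    exact ⟨x, hx, mem_aroots.2
      ⟨minpoly.ne_zero (Algebra.IsIntegral.isIntegral (R := F) x), h⟩⟩

/-- the pointwise stabiliser of the conjugates -/
def VNor_G (F : Type) {Ω : Type} [Field F] [Field Ω] [Algebra F Ω] (S : Finset Ω) :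
    Subgroup (Ω ≃ₐ[F] Ω) where
  carrier := {γ | ∀ x ∈ VNor_T F S, γ x = x}
  one_mem' := fun _ _ => rfl
  mul_mem' := by
    intro a b ha hb x hx
    rw [AlgEquiv.mul_apply, hb x hx, ha x hx]
  inv_mem' := by
    intro a ha x hx
    have h1 : a⁻¹ (a x) = x := by rw [← AlgEquiv.mul_apply, inv_mul_cancel]; rfl
    rw [ha x hx] at h1
    exact h1

theorem prf_VNor : VNor := by
  intro F Ω _ _ _ _ S
  refine ⟨VNor_G F S, ?_, ?_, ?_⟩
  · refine ⟨fun γ hγ g x hx => ?_⟩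
    obtain ⟨y, hy, h⟩ := (VNor_mem F S x).1 hx
    have h2 : g⁻¹ x ∈ VNor_T F S := by
      refine (VNor_mem F S _).2 ⟨y, hy, ?_⟩
      have h3 : aeval (g⁻¹ x) (minpoly F y) = g⁻¹ (aeval x (minpoly F y)) :=
        aeval_algHom_apply (g⁻¹ : Ω ≃ₐ[F] Ω) x (minpoly F y)
      rw [h3, h, map_zero]
    have h4 : γ (g⁻¹ x) = g⁻¹ x := hγ _ h2
    rw [AlgEquiv.mul_apply, AlgEquiv.mul_apply, h4, ← AlgEquiv.mul_apply, mul_inv_cancel]
    rfl
  · intro γ hγ x hx
    exact hγ x ((VNor_mem F S x).2 ⟨x, hx, minpoly.aeval F x⟩)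
  · exact ⟨VNor_T F S, fun γ h x hx => h x hx⟩

end MP7b0bad.SV
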