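import Pool.Agent.Work.MP_7b0bad_ag.SV.VStmts

set_option autoImplicit false

/-!
# VPc: homomorphisms onto `p`-groups that are equal modulo `A` are conjugate under `A`
-/

namespace MP7b0bad.SV

theorem prf_VPc : VPc := by
  intro p r _ Γ G A _ _ _ _ _ i act hr hrp hA Ψ Ψ' hΨ hΨ' hE
  classical
  -- the image of the pair
  let X : Subgroup (G × G) := (Ψ.prod Ψ').range
  have hmem : ∀ x : G × G, x ∈ X ↔ ∃ δ, (Ψ δ, Ψ' δ) = x := by
    intro x
    rfl
  haveI : Finite X := inferInstance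
  letI : Fintype X := Fintype.ofFinite X
  have hX : IsPGroup p X := by
    rintro ⟨x, hx⟩
    obtain ⟨δ, rfl⟩ := (hmem x).1 hx
    obtain ⟨k, hk⟩ := hΨ ⟨Ψ δ, δ, rfl⟩
    obtain ⟨k', hk'⟩ := hΨ' ⟨Ψ' δ, δ, rfl⟩
    have hk1 : Ψ δ ^ p ^ k = 1 := by
      have := congrArg Subtype.val hk
      simpa using this
    have hk2 : Ψ' δ ^ p ^ k' = 1 := by
      have := congrArg Subtype.val hk'
      simpa using this
    refine ⟨k + k', ?_⟩
    apply Subtype.ext
    show (Ψ δ, Ψ' δ) ^ p ^ (k + k') = 1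
    rw [Prod.pow_mk, pow_add, pow_mul, hk1, one_pow, mul_comm (p ^ k), pow_mul, hk2, one_pow]
    rfl
  obtain ⟨n, hn⟩ := (IsPGroup.iff_card).1 hX
  have hcop : Nat.Coprime (Nat.card X) r := by
    rw [hn]
    apply Nat.Coprime.pow_left
    exact (Nat.coprime_primes (Fact.out : p.Prime) hr).2 (Ne.symm hrp)
  -- the cocycle on X
  have hC : ∀ x : X, ∃ a : A, x.1.2 = i a * x.1.1 := by
    rintro ⟨x, hx⟩
    obtain ⟨δ, rfl⟩ := (hmem x).1 hx
    exact hE δ
  choose C hC using hC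
  have hcoc : ∀ x y : X, C (x * y) = C x * act x.1.1 (C y) := by
    intro x y
    apply hA.inj
    have h1 := hC (x * y)
    have h2 := hC x
    have h3 := hC y
    have h4 : (x * y).1.2 = x.1.2 * y.1.2 := rfl
    have h5 : (x * y).1.1 = x.1.1 * y.1.1 := rfl
    rw [h4, h5, h2, h3] at h1
    rw [map_mul, hA.conj]
    have h6 : i (C (x * y)) * (x.1.1 * y.1.1) =
        (i (C x) * (x.1.1 * i (C y) * x.1.1⁻¹)) * (x.1.1 * y.1.1) := by
      rw [← h1]
      group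
    exact mul_right_cancel h6
  -- the product
  let b' : A := ∏ x : X, C x
  have hb' : ∀ x : X, b' = C x ^ Nat.card X * act x.1.1 b' := by
    intro x
    have h1 : b' = ∏ y : X, C (x * y) := by
      show ∏ y : X, C y = _
      exact (Fintype.prod_equiv (Equiv.mulLeft x) (fun y => C (x * y)) C (fun y => rfl)).symm
    have h2 : ∏ y : X, C (x * y) = ∏ y : X, (C x * act x.1.1 (C y)) :=
      Finset.prod_congr rfl fun y _ => hcoc x y
    rw [Finset.prod_mul_distrib, Finset.prod_const, Finset.card_univ,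
      ← Nat.card_eq_fintype_card, ← map_prod] at h2
    rw [h1]
    exact h2.trans (by rw [← h1])
  -- the inverse of |X| modulo r
  obtain ⟨m, hm⟩ : ∃ m : ℕ, Nat.card X * m ≡ 1 [MOD r] := by
    obtain ⟨m, hm⟩ := Nat.exists_mul_mod_eq_one_of_coprime hcop hr.one_lt
    exact ⟨m, by
      rw [Nat.ModEq, hm.2, Nat.mod_eq_of_lt hr.one_lt]⟩
  have hpow : ∀ a : A, a ^ (Nat.card X * m) = a := by
    intro a
    have h1 : a ^ (Nat.card X * m) = a ^ 1 :=
      pow_eq_pow_iff_modEq.2 (hm.of_dvd (orderOf_dvd_of_pow_eq_one (hA.exp a)))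
    rw [h1, pow_one]
  refine ⟨(b' ^ m)⁻¹, fun δ => ?_⟩
  let x : X := ⟨(Ψ δ, Ψ' δ), (hmem _).2 ⟨δ, rfl⟩⟩
  have h1 : Ψ' δ = i (C x) * Ψ δ := hC x
  have h2 : b' ^ m = C x * act (Ψ δ) (b' ^ m) := by
    have h3 := congrArg (· ^ m) (hb' x)
    simp only [mul_pow, ← pow_mul] at h3
    rw [hpow] at h3
    rw [map_pow]
    exact h3
  have h4 : i (b' ^ m) = i (C x) * (Ψ δ * i (b' ^ m) * (Ψ δ)⁻¹) := by
    rw [← hA.conj, ← map_mul, ← h2]
  have h5 : i (C x) = i (b' ^ m) * (Ψ δ * i (b' ^ m) * (Ψ δ)⁻¹)⁻¹ :=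
    eq_mul_inv_of_mul_eq h4.symm
  rw [h1, h5, map_inv]
  group

end MP7b0bad.SV
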