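import Pool.Agent.Work.MP_7b0bad_ag.Bd.B06

set_option autoImplicit false

/-!
# Block SV, local part (helper53): ELS, T0 and PK

* ELS: a connected Galois algebra over `k((ξ))` is a field of Laurent series `k((ω))`;
* T0: `Rel k G G₀ ↔ Occurs k G G₀` for an arbitrary subgroup `G₀`;
* PK: embedding problems with `p`-kernel for an arbitrary subgroup `G₀`.

No solvability and no condition on `G₀` is needed.
-/

namespace MP7b0bad

open Polynomial Pointwise

/-! ## The norm of a connected Galois algebra over `k((ξ))` -/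

/-- a multiplicative nonarchimedean norm on a field -/
structure Nrm (F : Type) [Field F] (v : F → ℝ) : Prop where
  zero : v 0 = 0
  pos : ∀ x, x ≠ 0 → 0 < v x
  mul : ∀ x y, v (x * y) = v x * v y
  add : ∀ x y, v (x + y) ≤ max (v x) (v y)

/-- completeness, in terms of geometric sequences -/
def Cmpl {F : Type} [Field F] (v : F → ℝ) : Prop := ∀ (c : ℝ) (u : ℕ → F), 0 < c → c < 1 →
  (∀ n, v (u (n + 1) - u n) ≤ c ^ n) → ∃ x, ∀ n, v (x - u n) ≤ c ^ n

/-- SVn. The spectral norm. (Mathlib: `spectralMulAlgNorm`, `spectralNorm_extends`,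
`isNonarchimedean_spectralNorm`, `spectralNorm_eq_of_equiv`, `spectralNorm.completeSpace`, with the
normed field structure on `LaurentSeries k` given by `LaurentSeries.valued`, a `RankOne` instance,
`Valued.toNormedField`, complete by `instLaurentSeriesComplete`.) `IsGalois`/finiteness of `E` over
`LaurentSeries k`: `gal_finite`. -/
def SVn : Prop := ∀ (k : Type) [Field k] (Γ : Type) [Group Γ] [Finite Γ] (E : Type) [Field E]
  [Algebra (LaurentSeries k) E] [MulSemiringAction Γ E], GalAlg (LaurentSeries k) Γ E →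
  ∃ (v : E → ℝ) (c : ℝ), 0 < c ∧ c < 1 ∧ Nrm E v ∧ Cmpl v ∧ (∀ (g : Γ) (x : E), v (g • x) = v x) ∧
    ∀ a : LaurentSeries k, a ≠ 0 → v (algebraMap (LaurentSeries k) E a) = c ^ a.order

/-- a complete discretely valued field `F` with residue field `k ⊆ F` and uniformizer `ω` -/
structure CDV (k : Type) [Field k] (F : Type) [Field F] (C : k →+* F) (v : F → ℝ) (ω : F) :
    Prop where
  nrm : Nrm F v
  compl : Cmpl v
  const : ∀ c, c ≠ 0 → v (C c) = 1
  res : ∀ x, v x ≤ 1 → ∃ c, v (x - C c) < 1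
  om0 : ω ≠ 0
  om1 : v ω < 1
  disc : ∀ x, v x < 1 → v x ≤ v ω

/-- SVd. PROOF. Take `v`, `c` from `SVn`. Constants: `C a ≠ 0` has order `0`. Discreteness: for
`x ≠ 0` the norm `n = ∏_g g • x` lies in `k((ξ))` (`GalAlg.inv`), so `v x ^ N = v n = c ^ (ord n)`
with `N = Nat.card Γ`; so for `x ≠ 0`, `v x < 1`, the integer `a(x) = ord n` is positive; choose
`ω` with `a(ω)` minimal (`v (ξ) = c < 1`, so there is some `x`). Residue field: `x` with `v x ≤ 1`
is a root of the monic polynomial `∏_g (T - g • x)` over `k((ξ))`, its coefficients have `v ≤ 1`,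
that is they are power series (order `≥ 0`); let `f` be the polynomial over `k` of the constant
coefficients, `f = ∏ (T - c_i)` (`k` algebraically closed), `f(x)` and `∏_g (x - g • x) = 0` differ
by terms of norm `< 1` (coefficients of order `≥ 1`), so `∏ v(x - c_i) < 1` and some factor is
`< 1`. -/
def SVd : Prop := ∀ (k : Type) [Field k] [IsAlgClosed k] (Γ : Type) [Group Γ] [Finite Γ] (E : Type)
  [Field E] [Algebra (LaurentSeries k) E] [MulSemiringAction Γ E], GalAlg (LaurentSeries k) Γ E →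
  ∃ (v : E → ℝ) (ω : E) (c : ℝ),
    CDV k E ((algebraMap (LaurentSeries k) E).comp (HahnSeries.C : k →+* LaurentSeries k)) v ω ∧
    0 < c ∧ c < 1 ∧ (∀ (g : Γ) (x : E), v (g • x) = v x) ∧
    ∀ a : LaurentSeries k, a ≠ 0 → v (algebraMap (LaurentSeries k) E a) = c ^ a.order

/-- SVc. A complete discretely valued field is a field of Laurent series. PROOF. For `f ∈ k[[T]]`
the partial sums `(trunc n f)(ω)` satisfy `v (u (n+1) - u n) ≤ (v ω)^n`, so there is `x = ψ(f)`
with `v (x - (trunc n f)(ω)) ≤ (v ω)^n` for all `n`, unique (`(v ω)^n → 0`). `ψ` is a ring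
homomorphism by uniqueness (`trunc n (f g) - trunc n f * trunc n g` is divisible by `X^n`),
injective (`v (ψ f) = (v ω)^(ord f)`), and its image is `{v ≤ 1}` (successive approximation by
`res` and division by `ω`: if `v y < 1` then `v (y/ω) ≤ 1` by `disc`). Extend to fraction fields:
every `x ≠ 0` of `F` is `ω^(-m) y`, `v y ≤ 1`. -/
def SVc : Prop := ∀ (k : Type) [Field k] (F : Type) [Field F] (C : k →+* F) (v : F → ℝ) (ω : F),
  CDV k F C v ω → ∃ φ : F ≃+* LaurentSeries k, (∀ c, φ (C c) = HahnSeries.C c) ∧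
    φ ω = HahnSeries.single (1 : ℤ) (1 : k) ∧ ∀ x, x ≠ 0 → v x = v ω ^ (φ x).order

/-- ELS. PROOF. `E` is a field (finite over a field, `gal_finite`). By `SVd` and `SVc` there is
`φ : E ≃+* k((ω))`; `σ = φ ∘ algebraMap` satisfies `(σ a).order = e a.order`, `e = (σ ξ).order`
(compare norms). By `prf_YDim` the dimension of `E` over `k((ξ))` is `≤ e`, and `1, ω, …, ω^(e-1)`
are independent (orders modulo `e`), so `e = dim E = Nat.card Γ` (`IsGaloisGroup`, Artin). -/
def ELS : Prop := ∀ (k : Type) [Field k] [IsAlgClosed k] (Γ : Type) [Group Γ] [Finite Γ] (E : Type)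
  [CommRing E] [Algebra (LaurentSeries k) E] [MulSemiringAction Γ E], IsDomain E →
  GalAlg (LaurentSeries k) Γ E →
  ∃ φ : E ≃+* LaurentSeries k,
    (∀ c : k, φ (algebraMap (LaurentSeries k) E (HahnSeries.C c)) = HahnSeries.C c) ∧
    ∀ a : LaurentSeries k, a ≠ 0 → φ (algebraMap (LaurentSeries k) E a) ≠ 0 ∧
      (φ (algebraMap (LaurentSeries k) E a)).order = Nat.card Γ * a.order

/-! ## T0: `Rel` and `Occurs` -/

/-- T0fr. `L` is the field of fractions of `B`. PROOF. The set of the `z` with `a z = ι b` for some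
`a ≠ 0` and `b` is a `k(x)`-subalgebra of `L`, a field because `L` is finite over `k(x)`; an
automorphism `φ g` that is the identity on it is trivial on `ι B`, so on `B` (`ι` injective), so
`g = 1` by `unr`; conclude by Galois theory. -/
def T0fr : Prop := ∀ (k : Type) [Field k] (G : Type) [Group G] [Finite G] (B : Type) [CommRing B]
  [IsDomain B] [Algebra k[X] B] [MulSemiringAction G B] (L : Type) [Field L]
  [Algebra (RatFunc k) L] [FiniteDimensional (RatFunc k) L] [IsGalois (RatFunc k) L] (ι : B →+* L)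
  (φ : G ≃* (L ≃ₐ[RatFunc k] L)), GalAlg k[X] G B → Function.Injective ι →
  (∀ a : k[X], ι (algebraMap k[X] B a) =
    algebraMap (RatFunc k) L (algebraMap k[X] (RatFunc k) a)) →
  (∀ (g : G) (b : B), φ g (ι b) = ι (g • b)) →
  ∀ z : L, ∃ (a : k[X]) (b : B), a ≠ 0 ∧
    algebraMap (RatFunc k) L (algebraMap k[X] (RatFunc k) a) * z = ι b

/-- T0core. The place given by the local field `E`. PROOF. `j` is injective, extend it to
`J : L → E` (`E` is a field, `T0fr`). Let `v`, `c` be as in `SVn` for `E`, `A = {x : v (J x) ≤ 1}`.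
`AtInfty`: constants have norm `1`, `J x = ξ⁻¹` has norm `c⁻¹ > 1`. `φ g`, `g ∈ G₀`, stabilises `A`
because `J (φ g x) = g • J x`. Conversely let `s • A = A`. If `x ∈ L` is fixed by `φ(G₀)` then
`J x ∈ k((ξ))`, so for every `n` there is `r ∈ k(x)` with `v (J (x - r)) ≤ c ^ n` (truncate the
Laurent series), `(x - r) X^n ∈ A`, so `(s x - r) X^n ∈ A` and `v (J (s x - x)) ≤ c ^ n` for all
`n`: `s x = x`. By Galois theory `s ∈ φ(G₀)`. The inertia group is the decomposition group as
in the proof of `QOcc_place` (Bd/B10, `prf_F6`, `F8_dec`). -/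
def T0core : Prop := ∀ (k : Type) [Field k] [IsAlgClosed k] (G : Type) [Group G] [Finite G]
  (G₀ : Subgroup G) (B : Type) [CommRing B] [IsDomain B] [Algebra k[X] B] [MulSemiringAction G B]
  (E : Type) [Field E] [Algebra (LaurentSeries k) E] [MulSemiringAction G₀ E] (j : B →+* E)
  (L : Type) [Field L] [Algebra (RatFunc k) L] [FiniteDimensional (RatFunc k) L]
  [IsGalois (RatFunc k) L] (ι : B →+* L) (φ : G ≃* (L ≃ₐ[RatFunc k] L)),
  GalAlg k[X] G B → GalAlg (LaurentSeries k) G₀ E →
  (∀ f : k[X], j (algebraMap k[X] B f) = algebraMap (LaurentSeries k) E (atInf k f)) →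
  (∀ (g : G₀) (b : B), j ((g : G) • b) = g • j b) → Function.Injective ι →
  (∀ a : k[X], ι (algebraMap k[X] B a) =
    algebraMap (RatFunc k) L (algebraMap k[X] (RatFunc k) a)) →
  (∀ (g : G) (b : B), φ g (ι b) = ι (g • b)) →
  ∃ A : ValuationSubring L, AtInfty (k := k) A ∧ (∀ s : L ≃ₐ[RatFunc k] L, s • A = A ↔
      s ∈ G₀.map φ.toMonoidHom) ∧
    (ValuationSubring.inertiaSubgroup (RatFunc k) A).map
      (ValuationSubring.decompositionSubgroup (RatFunc k) A).subtype = G₀.map φ.toMonoidHom

/-- T0et. The integral closure of `k[x]` is étale when the cover is unramified. PROOF.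
`B = integralClosure k[x] L`, with the action of `G` through `φ`. `inv`: an invariant element of `B`
lies in `k(x)` and is integral over `k[x]`. `unr`: if `σ ≠ 1` and all `b - σ b` lie in a maximal
ideal `n` of `B`, let `A = B_n` (a valuation ring, `B` is a Dedekind domain:
`integralClosure.isDedekindDomain`); `σ` stabilises `n`, so `A`, and is trivial on the residue field
(`b/s ↦ σb/σs`), so it is in the inertia group, which is trivial. -/
def T0et : Prop := ∀ (k : Type) [Field k] (G : Type) [Group G] [Finite G] (L : Type) [Field L]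
  [Algebra (RatFunc k) L] [FiniteDimensional (RatFunc k) L] [IsGalois (RatFunc k) L]
  (φ : G ≃* (L ≃ₐ[RatFunc k] L)),
  (∀ A : ValuationSubring L,
    (∀ c : k, algebraMap (RatFunc k) L (algebraMap k (RatFunc k) c) ∈ A) →
    algebraMap (RatFunc k) L RatFunc.X ∈ A →
    ValuationSubring.inertiaSubgroup (RatFunc k) A = ⊥) →
  ∃ (B : Type) (_ : CommRing B) (_ : Algebra k[X] B) (_ : MulSemiringAction G B) (ι : B →+* L),
    IsDomain B ∧ GalAlg k[X] G B ∧ Function.Injective ι ∧
    (∀ a : k[X], ι (algebraMap k[X] B a) =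
      algebraMap (RatFunc k) L (algebraMap k[X] (RatFunc k) a)) ∧
    ∀ (g : G) (b : B), φ g (ι b) = ι (g • b)

/-- T0tr. The Galois group is transitive on the places over infinity. PROOF. Let `B'` be the
integral closure of `k[1/x]` in `L` (for the algebra structure `T ↦ 1/x` of `k[T]` on `k(x)`).
`B' ⊆ A`, `n = m_A ∩ B'` is a prime over `(T)`, the same for `n'`; by
`Algebra.IsInvariant.exists_smul_of_under_eq` we may assume `n = n'`; `B'_n` is a valuation ring
(Dedekind), and `A = B'_n`: if `x = b/s`, `s ∉ n`, then `x ∈ A`; otherwise `x⁻¹ = b/s` with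
`b ∈ n`, `s ∉ n`, and `x ∉ A`. -/
def T0tr : Prop := ∀ (k : Type) [Field k] (L : Type) [Field L] [Algebra (RatFunc k) L]
  [FiniteDimensional (RatFunc k) L] [IsGalois (RatFunc k) L] (A A' : ValuationSubring L),
  AtInfty (k := k) A → AtInfty (k := k) A' → ∃ σ : L ≃ₐ[RatFunc k] L, σ • A = A'

/-- T0. `Rel` and `Occurs` are equivalent. PROOF. (→) `QF1`, `T0core`, `prf_F2`. (←) `T0et`; base
change to `k((ξ))` (`QBC`) and a component (`YComp`) give `E`, `G₁` with `Rel k G G₁`; `T0core`
gives a place with inertia group `G₁`; `T0tr` and `QIso` (inner automorphism). -/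
def T0 : Prop := ∀ (k : Type) [Field k] [IsAlgClosed k] (G : Type) [Group G] [Finite G]
  (G₀ : Subgroup G), Rel k G G₀ ↔ Occurs k G G₀

/-! ## PK: embedding problems with `p`-kernel -/

/-- SVtw. Twisting. PROOF. Suppose not. Let `V` be the `k((ξ))`-space of the vectors `w` with
`stA (ρ g) (g •) w = w`. `V ≠ 0`: with `gal_trace_one` or independence of the automorphisms, some
`∑_g stA (ρ g) (g •) (a e_1)` is not `0` (`r > 0`; otherwise the coordinates give
`∑_g ρ(g)_{i1} (g • a) = 0` for all `a` and all `i`, and `GalAlg` separates the elements of `G`: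
`gal_dual`; take the coefficient of `g = 1`, `ρ 1 = 1`). Let `|w| = max_j v (w_j)` with `v` as in
`SVd` (`Γ = G`); `|w| = (v ω)^(-a)`, `a ∈ ℤ`. Choose `x ∈ V` with `|x| > 1` and `a(x) > 0`
minimal (multiply by `ξ^(-n)`). Then no `h ∈ V` satisfies `h^p - h = e x`, `e ∈ k^*`: otherwise
`|h| > 1`, `|h|^p = |h^p - h| = |x|`, so `p a(h) = a(x)`, `0 < a(h) < a(x)`.
By assumption for every `c ∈ k` there is `n_c` with `n_c^p - n_c = m + c x`. Put
`h_c = n_c - n_0`; `s_c(g) = stA (ρ g) (g •) h_c - h_c` satisfies `s^p = s` (all coordinates), so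
`s_c` takes finitely many values; `k` is infinite, so `s_c = s_{c'}` for some `c ≠ c'`, then
`h = n_c - n_{c'} ∈ V` and `h^p - h = (c - c') x`. (Compare `QLL_twist`, Bd/B07.) -/
def SVtw : Prop := ∀ (k : Type) [Field k] [IsAlgClosed k] (p r : ℕ) [Fact p.Prime] [CharP k p]
  (G : Type) [Group G] [Finite G] (ρ : G → Matrix (Fin r) (Fin r) (ZMod p)) (E : Type) [Field E]
  [Algebra (LaurentSeries k) E] [MulSemiringAction G E], 0 < r → (∀ g h, ρ (g * h) = ρ g * ρ h) →
  ρ 1 = 1 → GalAlg (LaurentSeries k) G E → ∀ m : Fin r → E,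
  ∃ w : Fin r → E, (∀ g : G, stA (ρ g) (fun x => g • x) w = w) ∧
    ∀ n : Fin r → E, ¬ ∀ j, n j ^ p - n j = m j + w j

/-- QLLG. Connected local embedding problems with `p`-kernel. PROOF. Induction on `Nat.card G` as in
`prf_QLL` (Bd/B07). Let `M ≤ ker q` be a minimal normal subgroup of `G` (`ker q ≠ ⊥`); `M` is a
`p`-group, its centre and `{x : x^p = 1}` are normal in `G`, so `M` is elementary abelian. By
induction there is `E1` for `G ⧸ M`. `QR2_pres` (Bd/B12), `QELN`, `SVtw`, `QASN` (with `m + w`)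
give `E`, with group `G`; `E1 → E`. `E` is a domain: let `𝔪` be a maximal ideal of `E` (finite over
the field `E1`, `YComp` or directly), `G'` its stabiliser. `M G' = G`, because `M` is transitive on
the primes of `E` (invariants `E1`, a field). `M ∩ G'` is normalised by `G'` and by `M` (abelian), so
it is `⊥` or `M`. If it is `M` then `G' = G` and `𝔪 = 0` (`YComp`: `G₀ = ⊤`). If it is `⊥`, the
field `E/𝔪` is `G'`-Galois over `k((ξ))` and `E1 → E/𝔪` is bijective (`gal_hom_bijective`,
`G' ≃ G ⧸ M`), so the images of the `y j` come from `n j ∈ E1` with `n^p - n = m + w`,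
a contradiction. -/
def QLLG : Prop := ∀ (k : Type) [Field k] [IsAlgClosed k] (p : ℕ) [Fact p.Prime] [CharP k p]
  (G Gb : Type) [Group G] [Finite G] [Group Gb] (q : G →* Gb) (Eb : Type) [CommRing Eb]
  [Algebra (LaurentSeries k) Eb] [MulSemiringAction Gb Eb], IsPGroup p q.ker →
  Function.Surjective q → IsDomain Eb → GalAlg (LaurentSeries k) Gb Eb →
  ∃ (E : Type) (_ : CommRing E) (_ : Algebra (LaurentSeries k) E) (_ : MulSemiringAction G E)
    (i : Eb →+* E), IsDomain E ∧ GalAlg (LaurentSeries k) G E ∧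
    (∀ a, i (algebraMap (LaurentSeries k) Eb a) = algebraMap (LaurentSeries k) E a) ∧
    ∀ (g : G) (e : Eb), g • i e = i (q g • e)

/-- QR2G (PK). Embedding problems with elementary abelian `p`-kernel, arbitrary `G₀`. PROOF. The
proof of `prf_QR2` (Bd/B12) with `QLL` replaced by `QLLG`: the kernel of `G₀ → G₀ N / N` is
`G₀ ∩ N`, a `p`-group. -/
def QR2G : Prop := ∀ (k : Type) [Field k] [IsAlgClosed k] (p : ℕ) [Fact p.Prime] [CharP k p]
  (G : Type) [Group G] [Finite G] (N G₀ : Subgroup G) [N.Normal],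
  (∀ a ∈ N, a ^ p = 1) → (∀ a ∈ N, ∀ b ∈ N, a * b = b * a) →
  Rel k (G ⧸ N) (G₀.map (QuotientGroup.mk' N)) →
  ∃ G' : Subgroup G, G₀ ≤ G' ∧ N ⊔ G' = ⊤ ∧ Rel k G' (G₀.subgroupOf G')

end MP7b0bad
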