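import Pool.Agent.Work.MP_7b0bad_ag.SV.VStmts2
import Pool.Agent.Work.MP_7b0bad_ag.SV.LStmts

set_option autoImplicit false

/-!
# Item VRAx: the axioms `RAx` for `Rel`
-/

namespace MP7b0bad.SV

open Polynomial

/-- the corestriction of an unramified homomorphism to its range is a cover -/
theorem VRAx_cores {k : Type} [Field k] {Ω Λ : Type} [Field Ω] [Algebra (RatFunc k) Ω]
    [Field Λ] [Algebra (LaurentSeries k) Λ]
    (ρI : (Λ ≃ₐ[LaurentSeries k] Λ) →* (Ω ≃ₐ[RatFunc k] Ω)) {G : Type} [Group G]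
    (Φ : (Ω ≃ₐ[RatFunc k] Ω) →* G) (hc : Cts Φ) (hu : ∀ a : k, UnrAt (Λ := Λ) Φ a)
    (G₀ : Subgroup G) (hr : (Φ.comp ρI).range = G₀) :
    G₀ ≤ Φ.range ∧ Cov Λ Φ.rangeRestrict ρI (G₀.subgroupOf Φ.range) := by
  have hle : G₀ ≤ Φ.range := by
    rw [← hr]
    rintro _ ⟨δ, rfl⟩
    exact ⟨ρI δ, rfl⟩
  refine ⟨hle, ?_, ?_, ?_, ?_⟩
  · obtain ⟨S, hS⟩ := hc
    refine ⟨S, fun γ hγ => ?_⟩
    apply Subtype.ext
    exact hS γ hγ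
  · exact Φ.rangeRestrict_surjective
  · intro a h j ρ hh hj δ
    apply Subtype.ext
    exact hu a h j ρ hh hj δ
  · ext ⟨x, hx⟩
    rw [Subgroup.mem_subgroupOf, ← hr]
    constructor
    · rintro ⟨δ, hδ⟩
      exact ⟨δ, congrArg Subtype.val hδ⟩
    · rintro ⟨δ, hδ⟩
      exact ⟨δ, Subtype.ext hδ⟩

/-- `M` and the range of a lift generate the group -/
theorem VRAx_sup {Γ G : Type} [Group Γ] [Group G] (M : Subgroup G) [M.Normal] (Φ : Γ →* G)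
    (φ : Γ →* G ⧸ M) (hφ : Function.Surjective φ) (h : ∀ γ, (Φ γ : G ⧸ M) = φ γ) :
    M ⊔ Φ.range = ⊤ := by
  rw [eq_top_iff]
  intro g _
  obtain ⟨γ, hγ⟩ := hφ (g : G ⧸ M)
  have h1 : ((Φ γ : G) : G ⧸ M) = (g : G ⧸ M) := (h γ).trans hγ
  have h2 : (Φ γ)⁻¹ * g ∈ M := QuotientGroup.eq.mp h1
  have h3 : g = Φ γ * ((Φ γ)⁻¹ * g) := by group
  rw [h3]
  exact Subgroup.mul_mem _ (Subgroup.mem_sup_right ⟨γ, rfl⟩) (Subgroup.mem_sup_left h2)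

theorem prf_VRAx (hBase : VBase) (hRC : VRC) (hCR : VCR) (hFab : VFabG) (hCen : VCenG)
    (hSpr : VSpr) (hSpp : VSpp) (hJG : VJG) (hBC : VBC) (hQuo : VQuo) (hPK : QR2G) : VRAx := by
  intro k _ _ p _ _
  obtain ⟨Ω, Λ, _, _, _, _, hI, jI, ρI, hb⟩ := hBase k p
  refine ⟨?_, ?_, ?_, ?_, ?_, ?_, ?_⟩
  · intro G G' _ _ _ q G₀ hq hR
    exact hQuo.1 k p G G' q G₀ hq hR
  · intro G _ hs G₀
    exact hQuo.2 k p G hs G₀
  · intro G _ _ P c m hD hm hR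
    exact hBC k p G P c m hD hm hR
  · intro G _ _ r Z P _ c hr hrp hD hex hZ hR
    obtain ⟨φ, hφ⟩ := hRC k p Ω Λ hI jI ρI hb (G ⧸ Z) _ hR
    obtain ⟨Φ, hc, hl, hu, z, hz, hrange⟩ :=
      hCen k p Ω Λ hI jI ρI hb G r Z P c hr hrp hD hex hZ φ hφ
    obtain ⟨hle, hcov⟩ := VRAx_cores ρI Φ hc hu _ hrange
    refine ⟨z, hz, Φ.range, VRAx_sup Z Φ φ hφ.surj hl, ?_, ?_, ?_⟩
    · exact le_trans (le_sup_left : P ≤ P ⊔ Subgroup.zpowers (c * z)) hle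
    · exact hle ((le_sup_right : Subgroup.zpowers (c * z) ≤ P ⊔ Subgroup.zpowers (c * z))
        (Subgroup.mem_zpowers _))
    · exact hCR k p Ω Λ hI jI ρI hb Φ.range _ Φ.rangeRestrict hcov
  · intro G _ _ r M P _ c hr hrp hD hex hab hM hR
    obtain ⟨φ, hφ⟩ := hRC k p Ω Λ hI jI ρI hb (G ⧸ M) _ hR
    obtain ⟨Φ, hc, hl, hu, hrange⟩ :=
      hFab k p Ω Λ hI jI ρI hb G r M P c hr hrp hD hex hab hM φ hφ
    obtain ⟨hle, hcov⟩ := VRAx_cores ρI Φ hc hu _ hrange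
    refine ⟨Φ.range, hle, VRAx_sup M Φ φ hφ.surj hl, ?_⟩
    exact hCR k p Ω Λ hI jI ρI hb Φ.range _ Φ.rangeRestrict hcov
  · intro G _ _ N P _ c hD hex hab hR
    exact hPK k p G N (GT.Pc P c) hex hab hR
  · intro G _ _ l V H P _ c hl hD hex hab hirr hnc hVH hVH' hle hR
    obtain ⟨Φ, hΦ⟩ := hRC k p Ω Λ hI jI ρI hb H _ hR
    have hout : SplOut ρI Φ := by
      by_cases hlp : l = p
      · subst hlp
        exact hSpp k l Ω Λ hI jI ρI hb G V H P c hD hex hab hirr hnc hVH hVH' hle Φ hΦ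
      · exact hSpr k p Ω Λ hI jI ρI hb G l V H P c hl hlp hD hex hab hirr hnc hVH hVH' hle Φ hΦ
    exact hJG k p Ω Λ hI jI ρI hb G H (GT.Pc P c) hle Φ hΦ hout

end MP7b0bad.SV
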