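import Pool.Agent.Work.MP_7b0bad_ag.SV.LiftStmts

set_option autoImplicit false

/-!
# Embedding problems of `r`-groups over open subgroups
-/

namespace MP7b0bad.SV

/-- a nontrivial normal subgroup of an `r`-group contains a central element of order `r` -/
theorem VRG_cen {r : ℕ} (hr : r.Prime) {S : Type} [Group S] [Finite S] (M : Subgroup S)
    [M.Normal] (hS : IsPGroup r S) (hM : M ≠ ⊥) :
    ∃ z ∈ M, z ∈ Subgroup.center S ∧ orderOf z = r := by
  have : Fact r.Prime := ⟨hr⟩
  have hC : IsPGroup r (ConjAct S) := hS.of_equiv ConjAct.toConjAct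
  have hMp : IsPGroup r M := hS.to_subgroup M
  have hdvd : r ∣ Nat.card M := by
    rcases hMp.card_eq_or_dvd with h | h
    · exact absurd (Subgroup.card_eq_one.1 h) hM
    · exact h
  have h1 : (1 : M) ∈ MulAction.fixedPoints (ConjAct S) M := fun g => smul_one g
  obtain ⟨b, hb, hb1⟩ := hC.exists_fixed_point_of_prime_dvd_card_of_fixed_point M hdvd h1
  have hbc : (b : S) ∈ Subgroup.center S := by
    rw [Subgroup.mem_center_iff]
    intro g
    have h2 := congrArg (Subtype.val) (hb (ConjAct.toConjAct g))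
    rw [ConjAct.Subgroup.val_conj_smul, ConjAct.toConjAct_smul] at h2
    rw [mul_inv_eq_iff_eq_mul] at h2
    exact h2
  let C : Subgroup S := M ⊓ Subgroup.center S
  have hCp : IsPGroup r C := hS.to_subgroup C
  have hCdvd : r ∣ Nat.card C := by
    rcases hCp.card_eq_or_dvd with h | h
    · exfalso
      have h3 : C = ⊥ := Subgroup.card_eq_one.1 h
      have h4 : (b : S) ∈ C := ⟨b.2, hbc⟩
      rw [h3, Subgroup.mem_bot] at h4
      exact hb1 (Subtype.ext h4.symm)
    · exact h
  obtain ⟨z, hz⟩ := exists_prime_orderOf_dvd_card' (G := C) r hCdvd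
  refine ⟨z, z.2.1, z.2.2, ?_⟩
  rw [Subgroup.orderOf_coe, hz]

theorem VRG_aux (hK : VKumL) (k Ω : Type) [Field k] [IsAlgClosed k] [Field Ω]
    [Algebra (RatFunc k) Ω] [IsGalois (RatFunc k) Ω] [IsSepClosed Ω] (r : ℕ) (hr : r.Prime)
    (hrk : (r : k) ≠ 0) (Γ' : Subgroup (Ω ≃ₐ[RatFunc k] Ω)) (hΓ' : Opn Γ') :
    ∀ (n : ℕ) (S : Type) [Group S] [Finite S] (M : Subgroup S) [M.Normal], IsPGroup r S →
    Nat.card M = n → ∀ φ : Γ' →* S ⧸ M, CtsOn φ →
    ∃ Φ : Γ' →* S, CtsOn Φ ∧ ∀ γ, (Φ γ : S ⧸ M) = φ γ := by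
  intro n
  induction n using Nat.strong_induction_on with
  | _ n ih =>
  intro S _ _ M _ hS hn φ hφ
  by_cases hM : M = ⊥
  · subst hM
    refine ⟨(QuotientGroup.quotientBot (G := S)).toMonoidHom.comp φ, ?_, ?_⟩
    · obtain ⟨T, hT⟩ := hφ
      refine ⟨T, fun γ hγ => ?_⟩
      rw [MonoidHom.comp_apply, hT γ hγ, map_one]
    · intro γ
      obtain ⟨s, hs⟩ := QuotientGroup.mk_surjective (φ γ)
      rw [MonoidHom.comp_apply, ← hs]
      rfl
  · obtain ⟨z, hzM, hzc, hzr⟩ := VRG_cen hr M hS hM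
    let N : Subgroup S := Subgroup.zpowers z
    have hNM : N ≤ M := Subgroup.zpowers_le.2 hzM
    have hNc : N ≤ Subgroup.center S := Subgroup.zpowers_le.2 hzc
    have hNn : N.Normal := by
      constructor
      intro x hx g
      have h2 : g * x = x * g := Subgroup.mem_center_iff.1 (hNc hx) g
      rw [h2, mul_assoc, mul_inv_cancel, mul_one]
      exact hx
    have hNcard : Nat.card N = r := by rw [Nat.card_zpowers, hzr]
    have hs1 : Function.Surjective (QuotientGroup.mk' N) := QuotientGroup.mk'_surjective _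
    have hM'n : (M.map (QuotientGroup.mk' N)).Normal := Subgroup.Normal.map inferInstance _ hs1
    have hlt : Nat.card (M.map (QuotientGroup.mk' N)) < n := by
      have h1 : Nat.card (M.map (QuotientGroup.mk' N)) ≤ Nat.card M :=
        Nat.card_le_card_of_surjective _ (MonoidHom.subgroupMap_surjective _ M)
      rw [← hn]
      refine lt_of_le_of_ne h1 ?_
      intro heq
      have h2 := (Nat.bijective_iff_surjective_and_card
        (((QuotientGroup.mk' N)).subgroupMap M)).2
        ⟨MonoidHom.subgroupMap_surjective _ M, heq.symm⟩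
      have h3 : (⟨z, hzM⟩ : M) = 1 := by
        apply h2.1
        rw [map_one]
        ext
        change QuotientGroup.mk' N z = 1
        rw [← MonoidHom.mem_ker, QuotientGroup.ker_mk']
        exact Subgroup.mem_zpowers z
      have h4 : z = 1 := congrArg Subtype.val h3
      rw [h4, orderOf_one] at hzr
      exact hr.one_lt.ne hzr
    have hker : ∀ m ∈ M, ((QuotientGroup.mk' (M.map (QuotientGroup.mk' N))).comp
        (QuotientGroup.mk' N)) m = 1 := by
      intro m hm
      rw [MonoidHom.comp_apply, ← MonoidHom.mem_ker, QuotientGroup.ker_mk']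
      exact Subgroup.mem_map_of_mem _ hm
    let e : S ⧸ M →* (S ⧸ N) ⧸ (M.map (QuotientGroup.mk' N)) := QuotientGroup.lift M _ hker
    have heinj : Function.Injective e := by
      rw [injective_iff_map_eq_one]
      intro x hx
      obtain ⟨s, rfl⟩ := QuotientGroup.mk_surjective x
      have h1 : (QuotientGroup.mk' (M.map (QuotientGroup.mk' N))) (QuotientGroup.mk' N s) = 1 := hx
      rw [← MonoidHom.mem_ker, QuotientGroup.ker_mk'] at h1
      obtain ⟨m, hm, hms⟩ := h1
      have h2 : m⁻¹ * s ∈ N := QuotientGroup.eq.1 hms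
      rw [QuotientGroup.eq_one_iff]
      have h3 := M.mul_mem hm (hNM h2)
      rwa [mul_inv_cancel_left] at h3
    obtain ⟨Φ', hΦ'c, hΦ'⟩ := ih _ hlt (S ⧸ N) (M.map (QuotientGroup.mk' N))
      (hS.to_quotient N) rfl (e.comp φ) (by
        obtain ⟨T, hT⟩ := hφ
        refine ⟨T, fun γ hγ => ?_⟩
        rw [MonoidHom.comp_apply, hT γ hγ, map_one])
    obtain ⟨Φ, hΦc, hΦ⟩ := hK k Ω r hr hrk S N hS
      (fun m hm s => (Subgroup.mem_center_iff.1 (hNc hm) s).symm) hNcard Γ' hΓ' Φ' hΦ'c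
    refine ⟨Φ, hΦc, fun γ => ?_⟩
    apply heinj
    have h1 : e (Φ γ : S ⧸ M) = ((Φ γ : S ⧸ N) : (S ⧸ N) ⧸ (M.map (QuotientGroup.mk' N))) := rfl
    rw [h1, hΦ, hΦ']
    rfl

theorem prf_VRG (hK : VKumL) : VRG := by
  intro k Ω _ _ _ _ _ _ r hr hrk S _ _ M _ hS Γ' hΓ' φ hφ
  exact VRG_aux hK k Ω r hr hrk Γ' hΓ' _ S M hS rfl φ hφ

end MP7b0bad.SV
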