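import Mathlib
import Pool.Agent.Work.MP_7b0bad_ag.SV.VStmts

/-!
Proof of the statement VRam: only finitely many points of the affine line ramify.
-/

set_option autoImplicit false

namespace MP7b0bad.SV

open Polynomial

theorem VRam_hensel (k : Type) [Field k] (f : (PowerSeries k)[X]) (hf : f.Monic) (a0 : k)
    (h0 : PowerSeries.constantCoeff (f.eval (PowerSeries.C a0)) = 0)
    (h1 : PowerSeries.constantCoeff (f.derivative.eval (PowerSeries.C a0)) ≠ 0) :
    ∃ a : PowerSeries k, f.eval a = 0 ∧ PowerSeries.constantCoeff a = a0 := by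
  have hc := B5a_complete k
  have hh : HenselianRing (PowerSeries k) (Ideal.span {(PowerSeries.X : PowerSeries k)}) :=
    inferInstance
  obtain ⟨a, ha, ha'⟩ := hh.is_henselian f hf (PowerSeries.C a0)
    (by rw [Ideal.mem_span_singleton, PowerSeries.X_dvd_iff]; exact h0)
    (by exact (PowerSeries.isUnit_iff_constantCoeff.2 (isUnit_iff_ne_zero.2 h1)).map _)
  refine ⟨a, ha, ?_⟩
  rw [Ideal.mem_span_singleton, PowerSeries.X_dvd_iff, map_sub, sub_eq_zero] at ha'
  rw [ha']
  simp

theorem VRam_const (k : Type) [Field k] (f : (PowerSeries k)[X]) (a0 : k) :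
    PowerSeries.constantCoeff (f.eval (PowerSeries.C a0)) =
      (f.map (PowerSeries.constantCoeff (R := k))).eval a0 := by
  rw [Polynomial.eval_map, ← Polynomial.eval₂_hom]
  simp

/-- monic polynomials over `k[[s]]` with separable reduction have all their roots in `k[[s]]` -/
theorem VRam_split (k : Type) [Field k] [IsAlgClosed k] (f u v : (PowerSeries k)[X]) (hf : f.Monic)
    (huv : u * f + v * derivative f = 1) (M : Type) [Field M] (φ : PowerSeries k →+* M)
    (hφ : Function.Injective φ) (y : M) (hy : f.eval₂ φ y = 0) :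
    ∃ r : PowerSeries k, y = φ r := by
  classical
  set f0 : k[X] := f.map (PowerSeries.constantCoeff (R := k)) with hf0
  have hmon : f0.Monic := hf.map _
  have hsep : f0.Separable := by
    refine ⟨u.map (PowerSeries.constantCoeff (R := k)), v.map (PowerSeries.constantCoeff (R := k)),
      ?_⟩
    rw [hf0, Polynomial.derivative_map, ← Polynomial.map_mul, ← Polynomial.map_mul,
      ← Polynomial.map_add, huv, Polynomial.map_one]
  have hlift : ∀ a0 : k, a0 ∈ f0.roots → ∃ r : PowerSeries k, f.eval r = 0 ∧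
      PowerSeries.constantCoeff r = a0 := by
    intro a0 ha0
    have hr : f0.eval a0 = 0 := (Polynomial.mem_roots hmon.ne_zero).1 ha0
    refine VRam_hensel k f hf a0 (by rw [VRam_const]; exact hr) ?_
    rw [VRam_const, ← Polynomial.derivative_map]
    have h5 := hsep.eval₂_derivative_ne_zero (RingHom.id k) (x := a0)
      (by rw [Polynomial.eval₂_id]; exact hr)
    rw [Polynomial.eval₂_id] at h5
    exact h5
  choose! r hr1 hr2 using hlift
  set T : Finset M := f0.roots.toFinset.image (fun a0 => φ (r a0)) with hT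
  have hTcard : T.card = f.natDegree := by
    rw [hT, Finset.card_image_of_injOn]
    · rw [Multiset.toFinset_card_of_nodup (Polynomial.nodup_roots hsep)]
      rw [← hf.natDegree_map (PowerSeries.constantCoeff (R := k))]
      exact (IsAlgClosed.splits f0).natDegree_eq_card_roots.symm
    · intro a ha b hb hab
      have ha' : a ∈ f0.roots := by simpa using ha
      have hb' : b ∈ f0.roots := by simpa using hb
      have h1 : r a = r b := hφ hab
      rw [← hr2 a ha', ← hr2 b hb', h1]
  by_contra hcon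
  push Not at hcon
  have hyT : y ∉ T := by
    intro h
    rw [hT, Finset.mem_image] at h
    obtain ⟨a, _, ha⟩ := h
    exact hcon (r a) ha.symm
  have hfm : (f.map φ).Monic := hf.map _
  have hsub : insert y T ⊆ (f.map φ).roots.toFinset := by
    intro z hz
    rw [Multiset.mem_toFinset, Polynomial.mem_roots hfm.ne_zero, Polynomial.IsRoot,
      Polynomial.eval_map]
    rcases Finset.mem_insert.1 hz with rfl | hz
    · exact hy
    · rw [hT, Finset.mem_image] at hz
      obtain ⟨a, ha, rfl⟩ := hz
      have ha' : a ∈ f0.roots := by simpa using ha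
      rw [Polynomial.eval₂_hom, hr1 a ha', map_zero]
  have h1 := (Finset.card_le_card hsub).trans (Multiset.toFinset_card_le _)
  have h2 := Polynomial.card_roots' (f.map φ)
  rw [Finset.card_insert_of_notMem hyT, hTcard] at h1
  rw [hf.natDegree_map] at h2
  omega

/-- `k[x] → k[[s]]`, `x ↦ a + s` -/
noncomputable def VRam_ev {k : Type} [Field k] (a : k) : k[X] →+* PowerSeries k :=
  eval₂RingHom (PowerSeries.C (R := k)) (PowerSeries.C a + PowerSeries.X)

theorem VRam_ev_h {k : Type} [Field k] (a : k) (h : RatFunc k →+* LaurentSeries k)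
    (hh : IsH h (pA a)) (d : k[X]) :
    h (algebraMap k[X] (RatFunc k) d) = HahnSeries.ofPowerSeries ℤ k (VRam_ev a d) := by
  have : h.comp (algebraMap k[X] (RatFunc k)) =
      (HahnSeries.ofPowerSeries ℤ k).comp (VRam_ev a) := by
    refine Polynomial.ringHom_ext (fun c => ?_) ?_
    · rw [RingHom.comp_apply, RatFunc.algebraMap_C, hh.cst, RingHom.comp_apply, VRam_ev,
        coe_eval₂RingHom, eval₂_C, HahnSeries.ofPowerSeries_C]
    · rw [RingHom.comp_apply, RatFunc.algebraMap_X, hh.X, RingHom.comp_apply, VRam_ev,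
        coe_eval₂RingHom, eval₂_X, map_add, HahnSeries.ofPowerSeries_C,
        HahnSeries.ofPowerSeries_X]
      rfl
  exact congrArg (fun q => q d) this |> fun e => e

theorem VRam_ev_const {k : Type} [Field k] (a : k) (d : k[X]) :
    PowerSeries.constantCoeff (VRam_ev a d) = d.eval a := by
  have : (PowerSeries.constantCoeff (R := k)).comp (VRam_ev a) = evalRingHom a := by
    refine Polynomial.ringHom_ext (fun c => ?_) ?_
    · simp [VRam_ev]
    · simp [VRam_ev]
  exact congrArg (fun q => q d) this |> fun e => e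

theorem VRam_mem {k : Type} [Field k] (a : k) (h : RatFunc k →+* LaurentSeries k)
    (hh : IsH h (pA a)) (D : k[X]) (hD : D.eval a ≠ 0) (c : RatFunc k)
    (hc : ∃ d : k[X], algebraMap k[X] (RatFunc k) d = algebraMap k[X] (RatFunc k) D * c) :
    h c ∈ (HahnSeries.ofPowerSeries ℤ k).range := by
  obtain ⟨d, hd⟩ := hc
  have h1 := congrArg h hd
  rw [map_mul, VRam_ev_h a h hh, VRam_ev_h a h hh] at h1
  have h2 : IsUnit (VRam_ev a D) := PowerSeries.isUnit_iff_constantCoeff.2 (by
    rw [VRam_ev_const]
    exact isUnit_iff_ne_zero.2 hD)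
  obtain ⟨w, hw⟩ := h2.exists_right_inv
  refine ⟨w * VRam_ev a d, ?_⟩
  rw [map_mul, h1, ← mul_assoc, ← map_mul, mul_comm w, hw, map_one, one_mul]

theorem VRam_den {k : Type} [Field k] (s : Finset (RatFunc k)) : ∃ D : k[X], D ≠ 0 ∧
    ∀ c ∈ s, ∃ d : k[X], algebraMap k[X] (RatFunc k) d = algebraMap k[X] (RatFunc k) D * c := by
  obtain ⟨b, hb⟩ := IsLocalization.exist_integer_multiples_of_finset (nonZeroDivisors k[X]) s
  refine ⟨b, nonZeroDivisors.coe_ne_zero b, fun c hc => ?_⟩
  obtain ⟨d, hd⟩ := hb c hc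
  exact ⟨d, by rw [hd, Algebra.smul_def]⟩

theorem VRam_lift {k : Type} [Field k] (a : k) (h : RatFunc k →+* LaurentSeries k)
    (hh : IsH h (pA a)) (D : k[X]) (hD : D.eval a ≠ 0) (F : (RatFunc k)[X])
    (hF : ∀ c ∈ F.coeffs, ∃ d : k[X],
      algebraMap k[X] (RatFunc k) d = algebraMap k[X] (RatFunc k) D * c) :
    ∃ f : (PowerSeries k)[X], f.map (HahnSeries.ofPowerSeries ℤ k) = F.map h := by
  have h1 : F.map h ∈ Polynomial.lifts (HahnSeries.ofPowerSeries ℤ k) := by
    rw [Polynomial.lifts_iff_coeff_lifts]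
    intro n
    rw [Polynomial.coeff_map]
    by_cases hn : F.coeff n = 0
    · rw [hn, map_zero]
      exact ⟨0, map_zero _⟩
    · exact VRam_mem a h hh D hD _ (hF _ (Polynomial.coeff_mem_coeffs hn))
  obtain ⟨f, hf⟩ := (Polynomial.mem_lifts _).1 h1
  exact ⟨f, hf⟩

/-- finitely many ramified points -/
theorem prf_VRam : VRam := by
  intro k _ p Ω Λ _ _ _ _ hI jI ρI hB G _ _ Φ hΦ
  classical
  have hac := hB.ac
  have hgal := hB.galΩ
  obtain ⟨S, hS⟩ := hΦ
  have hden : ∀ y : Ω, ∃ (D : k[X]) (u v : (RatFunc k)[X]), D ≠ 0 ∧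
      u * minpoly (RatFunc k) y + v * derivative (minpoly (RatFunc k) y) = 1 ∧
      ∀ c ∈ (minpoly (RatFunc k) y).coeffs ∪ u.coeffs ∪ v.coeffs, ∃ d : k[X],
        algebraMap k[X] (RatFunc k) d = algebraMap k[X] (RatFunc k) D * c := by
    intro y
    obtain ⟨u, v, huv⟩ := Algebra.IsSeparable.isSeparable (RatFunc k) y
    obtain ⟨D, hD, hD'⟩ := VRam_den ((minpoly (RatFunc k) y).coeffs ∪ u.coeffs ∪ v.coeffs)
    exact ⟨D, u, v, hD, huv, hD'⟩
  choose D u v hD huv hden using hden
  refine ⟨S.biUnion fun y => (D y).roots.toFinset, fun a ha h j ρ hh hj δ => ?_⟩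
  refine hS _ fun y hy => ?_
  have hDa : (D y).eval a ≠ 0 := by
    intro h0
    apply ha
    rw [Finset.mem_biUnion]
    exact ⟨y, hy, by rw [Multiset.mem_toFinset]; exact (Polynomial.mem_roots (hD y)).2 h0⟩
  have hinj : Function.Injective (HahnSeries.ofPowerSeries ℤ k) :=
    HahnSeries.ofPowerSeries_injective
  obtain ⟨f, hf⟩ := VRam_lift a h hh (D y) hDa (minpoly (RatFunc k) y)
    (fun c hc => hden y c (by simp only [Finset.mem_union]; exact Or.inl (Or.inl hc)))
  obtain ⟨u', hu'⟩ := VRam_lift a h hh (D y) hDa (u y)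
    (fun c hc => hden y c (by simp only [Finset.mem_union]; exact Or.inl (Or.inr hc)))
  obtain ⟨v', hv'⟩ := VRam_lift a h hh (D y) hDa (v y)
    (fun c hc => hden y c (by simp only [Finset.mem_union]; exact Or.inr hc))
  have hmon : f.Monic := by
    refine Polynomial.monic_of_injective hinj ?_
    rw [hf]
    exact (minpoly.monic (Algebra.IsIntegral.isIntegral (R := RatFunc k) y)).map _
  have huv' : u' * f + v' * derivative f = 1 := by
    apply Polynomial.map_injective _ hinj
    rw [Polynomial.map_add, Polynomial.map_mul, Polynomial.map_mul, ← Polynomial.derivative_map,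
      hf, hu', hv', Polynomial.derivative_map, ← Polynomial.map_mul, ← Polynomial.map_mul,
      ← Polynomial.map_add, huv y, Polynomial.map_one, Polynomial.map_one]
  obtain ⟨r, hr⟩ := VRam_split k f u' v' hmon huv' Λ
    ((algebraMap (LaurentSeries k) Λ).comp (HahnSeries.ofPowerSeries ℤ k))
    ((algebraMap (LaurentSeries k) Λ).injective.comp hinj) (j y) (by
      rw [← Polynomial.eval₂_map, hf, Polynomial.eval₂_map]
      have h1 : (algebraMap (LaurentSeries k) Λ).comp h = j.comp (algebraMap (RatFunc k) Ω) := by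
        ext c
        exact (hj.alg c).symm
      rw [h1, ← Polynomial.hom_eval₂, ← Polynomial.aeval_def, minpoly.aeval, map_zero])
  apply j.injective
  rw [hj.res, hr]
  exact δ.commutes _

end MP7b0bad.SV
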