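import Pool.Agent.Work.MP_7b0bad_ag.SV.VStmts2

set_option autoImplicit false

/-!
# VSpr: split kernels of order prime to `p`
-/

namespace MP7b0bad.SV

open Polynomial

/-- the commutators generate an irreducible noncentral kernel -/
theorem VSpr_clos {G : Type} [Group G] (V : Subgroup G) [V.Normal]
    (hmin : ∀ K : Subgroup G, K.Normal → K ≤ V → K = ⊥ ∨ K = V)
    (hnc : ¬ V ≤ Subgroup.center G) :
    Subgroup.closure {x : V | ∃ (g : G) (a : V), x = MulAut.conjNormal g a * a⁻¹} = ⊤ := by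
  have hconj : ∀ (g : G) (w : V),
      w ∈ Subgroup.closure {x : V | ∃ (g : G) (a : V), x = MulAut.conjNormal g a * a⁻¹} →
      MulAut.conjNormal g w ∈
        Subgroup.closure {x : V | ∃ (g : G) (a : V), x = MulAut.conjNormal g a * a⁻¹} := by
    intro g w hw
    have h1 : Subgroup.closure {x : V | ∃ (g : G) (a : V), x = MulAut.conjNormal g a * a⁻¹} ≤
        (Subgroup.closure {x : V | ∃ (g : G) (a : V), x = MulAut.conjNormal g a * a⁻¹}).comap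
          (MulAut.conjNormal g : V ≃* V).toMonoidHom := by
      rw [Subgroup.closure_le]
      rintro _ ⟨g', a, rfl⟩
      refine Subgroup.subset_closure ⟨g * g' * g⁻¹, MulAut.conjNormal g a, ?_⟩
      apply Subtype.ext
      simp [mul_assoc]
    exact h1 hw
  have hn : ((Subgroup.closure
      {x : V | ∃ (g : G) (a : V), x = MulAut.conjNormal g a * a⁻¹}).map V.subtype).Normal := by
    constructor
    rintro _ ⟨w, hw, rfl⟩ g
    exact ⟨MulAut.conjNormal g w, hconj g w hw, by simp⟩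
  have hle : (Subgroup.closure
      {x : V | ∃ (g : G) (a : V), x = MulAut.conjNormal g a * a⁻¹}).map V.subtype ≤ V := by
    rintro _ ⟨w, _, rfl⟩
    exact w.2
  rcases hmin _ hn hle with h | h
  · exfalso
    apply hnc
    intro a ha
    rw [Subgroup.mem_center_iff]
    intro g
    have h1 : (MulAut.conjNormal g (⟨a, ha⟩ : V) * (⟨a, ha⟩ : V)⁻¹) ∈
        Subgroup.closure {x : V | ∃ (g : G) (a : V), x = MulAut.conjNormal g a * a⁻¹} :=
      Subgroup.subset_closure ⟨g, ⟨a, ha⟩, rfl⟩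
    have h2 : ((MulAut.conjNormal g (⟨a, ha⟩ : V) * (⟨a, ha⟩ : V)⁻¹ : V) : G) ∈ (Subgroup.closure
      {x : V | ∃ (g : G) (a : V), x = MulAut.conjNormal g a * a⁻¹}).map V.subtype :=
      ⟨_, h1, rfl⟩
    rw [h, Subgroup.mem_bot] at h2
    have h3 : g * a * g⁻¹ * a⁻¹ = 1 := by simpa using h2
    have h4 : g * a * g⁻¹ = a := by rwa [mul_inv_eq_one] at h3
    rwa [mul_inv_eq_iff_eq_mul] at h4
  · rw [eq_top_iff]
    intro w _
    have h1 : (w : G) ∈ (Subgroup.closure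
      {x : V | ∃ (g : G) (a : V), x = MulAut.conjNormal g a * a⁻¹}).map V.subtype := by
      rw [h]; exact w.2
    obtain ⟨w', hw', he⟩ := h1
    have h2 : w' = w := Subtype.ext he
    rwa [← h2]

theorem prf_VSpr (hMov : VMov) (hBc0 : VBc0) (hBcI : VBcI) (hSur : VSur) (hGrp : VGrp)
    (hNrm : VNrm) (hLT : VLT) (hH : VH) (hPl : VPl) (hCp : VCp) (hSub : VSub) : VSpr := by
  intro k _ p Ω Λ _ _ _ _ hI jI ρI hB G _ _ r V H P _ c hr hrp _ hVr hVab hmin hnc _ hVH' _ Φ hΦ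
  have := hB.ac
  have := hB.ch
  have : Fact p.Prime := ⟨hB.pr⟩
  have := hB.galΩ
  have := hB.scΩ
  have := hB.galΛ
  have := hB.scΛ
  have hpr : ¬ p ∣ r := fun h => hrp (((Nat.prime_dvd_prime_iff_eq hB.pr hr).1 h).symm)
  -- the kernel as an abelian group
  letI cgV : CommGroup V :=
    { (inferInstance : Group V) with
      mul_comm := fun a b => Subtype.ext (hVab a.1 a.2 b.1 b.2) }
  have hexp : ∀ a : V, a ^ r = 1 := fun a => Subtype.ext (hVr a.1 a.2)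
  have hAbK : AbK r V.subtype (MulAut.conjNormal : G →* MulAut V) :=
    { inj := V.subtype_injective
      conj := fun g a => MulAut.conjNormal_apply g a
      exp := hexp }
  have hq : ∀ g : G, QuotientGroup.mk' V g = 1 ↔ g ∈ V.subtype.range := by
    intro g
    rw [Subgroup.range_subtype]
    exact QuotientGroup.eq_one_iff g
  -- the homomorphism to `G`
  have hqv : ∀ a : V, QuotientGroup.mk' V (V.subtype a) = 1 := fun a => (hq _).2 ⟨a, rfl⟩
  have hΦc : Cts (H.subtype.comp Φ) := hCp.2.2 _ _ _ _ Φ H.subtype hΦ.cts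
  have hΦs : Function.Surjective ((QuotientGroup.mk' V).comp (H.subtype.comp Φ)) := by
    intro x
    obtain ⟨g, rfl⟩ := QuotientGroup.mk'_surjective V x
    have hg : g ∈ V ⊔ H := by rw [hVH']; trivial
    obtain ⟨a, ha, b, hb, rfl⟩ := Subgroup.mem_sup_of_normal_left.1 hg
    obtain ⟨γ, hγ⟩ := hΦ.surj ⟨b, hb⟩
    refine ⟨γ, ?_⟩
    rw [map_mul, show QuotientGroup.mk' V a = 1 from (hq a).2 ⟨⟨a, ha⟩, rfl⟩, one_mul]
    rw [MonoidHom.comp_apply, MonoidHom.comp_apply, hγ]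
    rfl
  have hΦu : ∀ a : k, UnrAt (Λ := Λ) ((QuotientGroup.mk' V).comp (H.subtype.comp Φ)) a := by
    intro a h j ρ h1 h2 δ
    rw [MonoidHom.comp_apply, MonoidHom.comp_apply, hΦ.unr a h j ρ h1 h2 δ, map_one, map_one]
  -- the place over zero
  have hp0 : ∀ c : k, pA (0 : k) ≠ HahnSeries.C c := by
    intro c h0
    have h1 := congrArg (fun x : LaurentSeries k => x.coeff 1) h0
    simp [pA, HahnSeries.C_apply, HahnSeries.coeff_single_of_ne] at h1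
  obtain ⟨h₀, hh₀⟩ := (hH k).1 (pA (0 : k)) hp0
  obtain ⟨j₀, ρ₀, hc₀⟩ := (hPl _ _ Ω Λ h₀).1
  -- roots of unity
  have hrk : (r : k) ≠ 0 := fun h0 => hpr ((CharP.cast_eq_zero_iff k p r).1 h0)
  have : NeZero (r : k) := ⟨hrk⟩
  have : NeZero r := ⟨hr.ne_zero⟩
  obtain ⟨ζ, hζ⟩ := HasEnoughRootsOfUnity.exists_primitiveRoot k r
  obtain ⟨⟨t, ht⟩, hLT'⟩ := hLT k p Λ r ζ hr.pos hpr hζ
  obtain ⟨⟨τ, hτ⟩, _, _⟩ := hLT' t ht
  -- a nontrivial element of the kernel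
  have hv : ∃ v : V, v ≠ 1 := by
    by_contra hcon
    push Not at hcon
    apply hnc
    intro a ha
    have h1 := congrArg Subtype.val (hcon ⟨a, ha⟩)
    have h2 : a = 1 := h1
    rw [h2]
    exact one_mem _
  obtain ⟨v, hv⟩ := hv
  obtain ⟨Φ₂, hc₂, he₂, hu₂, hv₂, b, hb⟩ := hMov k p Ω Λ hI jI ρI hB r ζ t hr hrp ht G V (G ⧸ V)
    V.subtype MulAut.conjNormal (QuotientGroup.mk' V) hAbK hq (VSpr_clos V hmin hnc)
    (H.subtype.comp Φ) hΦc hΦs hΦu 0 h₀ j₀ ρ₀ hh₀ hc₀ v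
  -- the base change
  obtain ⟨h, hh⟩ := (hH k).2.2.1 (X ^ r) (by rw [natDegree_X_pow]; exact hr.pos)
  obtain ⟨e, ρe, hce⟩ := (hPl _ _ Ω Ω h).1
  have hunr := hBc0 k p Ω Λ hI jI ρI hB r r ζ t hr hrp ht hr.pos dvd_rfl hpr G V V.subtype hexp
    Φ₂ hu₂ h₀ j₀ ρ₀ hh₀ hc₀ v hv₂ h e ρe hh hce
  -- surjectivity
  have hsur := hSur k p Ω Λ hI jI ρI hB r h e ρe hr.pos hpr hh hce H Φ hΦ.cts hΦ.surj hΦ.unr
  have hnrm := ((hNrm k p Ω Λ hI jI ρI hB (X ^ r) h e ρe hh hce).1 r hr.pos hpr rfl).1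
  have hJN : (Φ₂.comp ρe).range = ⊤ := by
    refine hGrp G V Φ₂.range (Φ₂.comp ρe).range hVab hmin hnc ?_ ?_ ?_ ?_
    · rintro _ ⟨γ, rfl⟩
      exact ⟨ρe γ, rfl⟩
    · rintro _ ⟨γ, rfl⟩ _ ⟨γ', rfl⟩
      obtain ⟨γ₁, h1⟩ := hnrm.conj_mem (ρe γ') ⟨γ', rfl⟩ γ
      refine ⟨γ₁, ?_⟩
      rw [MonoidHom.comp_apply, h1, map_mul, map_mul, map_inv, MonoidHom.comp_apply]
    · rw [eq_top_iff]
      intro g _
      have hg : g ∈ V ⊔ H := by rw [hVH']; trivial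
      obtain ⟨a, ha, b, hb, rfl⟩ := Subgroup.mem_sup_of_normal_left.1 hg
      refine mul_mem (Subgroup.mem_sup_right ha) ?_
      obtain ⟨γ, hγ⟩ := hsur ⟨b, hb⟩
      obtain ⟨a', ha'⟩ := he₂ (ρe γ)
      have h1 : Φ₂ (ρe γ) = V.subtype a' * b := by
        rw [ha', MonoidHom.comp_apply]
        rw [MonoidHom.comp_apply] at hγ
        rw [hγ]
        rfl
      have h2 : b = V.subtype a'⁻¹ * (Φ₂.comp ρe) γ := by
        rw [MonoidHom.comp_apply, h1, map_inv, inv_mul_cancel_left]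
      rw [h2]
      exact mul_mem (Subgroup.mem_sup_right (a'⁻¹).2) (Subgroup.mem_sup_left ⟨γ, rfl⟩)
    · intro h0
      have h1 : Φ₂ (ρ₀ τ) = V.subtype (v ^ 1) := hv₂ τ 1 (by rw [pow_one]; exact hτ)
      have h2 : (v : G) ∈ Φ₂.range ⊓ V := ⟨⟨ρ₀ τ, by rw [h1, pow_one]; rfl⟩, v.2⟩
      rw [h0, Subgroup.mem_bot] at h2
      exact hv (Subtype.ext h2)
  -- infinity
  have hsing : (HahnSeries.single (r : ℤ) (1 : k)) ≠ 0 := HahnSeries.single_ne_zero one_ne_zero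
  obtain ⟨σ, hσc, hσs, _⟩ := hSub k (HahnSeries.single (r : ℤ) (1 : k)) hsing (by
    rw [HahnSeries.order_single one_ne_zero]
    exact_mod_cast hr.pos)
  obtain ⟨jσ, ρσ, hcσ⟩ := (hPl _ _ Λ Λ σ).1
  have hσI : σ (pI k) = (X ^ r : k[X]).eval₂ HahnSeries.C (pI k) := by
    have h1 : pI k * HahnSeries.single (1 : ℤ) (1 : k) = 1 := by
      rw [pI, HahnSeries.single_mul_single]
      simp
    have h2 : σ (pI k) * HahnSeries.single (r : ℤ) (1 : k) = 1 := by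
      rw [← hσs, ← map_mul, h1, map_one]
    have h3 : (pI k) ^ r * HahnSeries.single (r : ℤ) (1 : k) = 1 := by
      rw [pI, HahnSeries.single_pow, HahnSeries.single_mul_single]
      simp
    rw [eval₂_pow, eval₂_X]
    exact mul_right_cancel₀ hsing (h2.trans h3.symm)
  obtain ⟨γ₀, hγ₀⟩ := hBcI k p Ω Λ hI jI ρI hB (X ^ r) h e ρe hh hce σ jσ ρσ hσc hσI hcσ
  obtain ⟨a', ha'⟩ := he₂ γ₀
  -- the conjugating element
  obtain ⟨g, hg⟩ : ∃ g : G, ∀ δ, g * Φ₂ (ρe (ρI δ)) * g⁻¹ = (Φ (ρe (ρI δ)) : G) := by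
    refine ⟨((Φ γ₀ : G))⁻¹ * (V.subtype b * V.subtype a') * (Φ γ₀ : G), fun δ => ?_⟩
    have h1 : Φ₂ (ρI (ρσ δ)) = (V.subtype b)⁻¹ * (Φ (ρI (ρσ δ)) : G) * V.subtype b := hb _
    have h2 : Φ₂ γ₀ = V.subtype a' * (Φ γ₀ : G) := ha'
    rw [hγ₀, map_mul, map_mul, map_inv, h1, h2, map_mul, map_mul, map_inv]
    push_cast
    group
  refine ⟨X ^ r, h, e, ρe, (MulAut.conj g).toMonoidHom.comp (Φ₂.comp ρe), ?_, hh, hce, ?_, ?_, ?_,
    ?_⟩
  · rw [natDegree_X_pow]; exact hr.pos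
  · exact hCp.2.2 _ _ _ _ _ _ (hCp.2.1 _ _ _ _ h e ρe hce G Φ₂ hc₂)
  · rw [MonoidHom.coe_comp]
    exact (MulAut.conj g).surjective.comp (MonoidHom.range_eq_top.1 hJN)
  · intro a h' j' ρ' h1 h2 δ
    rw [MonoidHom.comp_apply, hunr a h' j' ρ' h1 h2 δ, map_one]
  · intro δ
    exact hg δ

end MP7b0bad.SV
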