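import Mathlib
import Pool.Agent.Work.MP_7b0bad_ag.SV.VStmts

set_option autoImplicit false

/-!
# Block SV, item VStI: tame base change of a local homomorphism with image `P⟨c⟩`
-/

namespace MP7b0bad.SV

open Pointwise

/-- `c` normalises `P` -/
theorem VStI_norm {G : Type} [Group G] [Finite G] (P : Subgroup G) (c : G)
    (hn : ∀ u ∈ P, c * u * c⁻¹ ∈ P) : c ∈ Subgroup.normalizer (P : Set G) := by
  have hinj : Function.Injective (fun u : P => (⟨c * u * c⁻¹, hn u u.2⟩ : P)) := by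
    intro u v huv
    have : c * (u : G) * c⁻¹ = c * (v : G) * c⁻¹ := congrArg Subtype.val huv
    exact Subtype.ext (by simpa using this)
  have hsurj := Finite.surjective_of_injective hinj
  intro u
  refine ⟨fun hu => hn u hu, fun hu => ?_⟩
  obtain ⟨v, hv⟩ := hsurj ⟨c * u * c⁻¹, hu⟩
  have : c * (v : G) * c⁻¹ = c * u * c⁻¹ := congrArg Subtype.val hv
  have h2 : (v : G) = u := by simpa using this
  exact h2 ▸ v.2

/-- the elements of `P⟨c⟩` -/
theorem VStI_mem {G : Type} [Group G] [Finite G] (P : Subgroup G) (c : G)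
    (hn : ∀ u ∈ P, c * u * c⁻¹ ∈ P) (x : G) (hx : x ∈ P ⊔ Subgroup.zpowers c) :
    ∃ (l : ℤ) (u : G), u ∈ P ∧ x = c ^ l * u := by
  have h2 : x ∈ ((Subgroup.zpowers c : Subgroup G) : Set G) * (P : Set G) := by
    rw [← Subgroup.coe_mul_of_left_le_normalizer_right _ _
      (Subgroup.zpowers_le.2 (VStI_norm P c hn)), sup_comm]
    exact hx
  obtain ⟨y, hy, u, hu, hxy⟩ := Set.mem_mul.1 h2
  obtain ⟨l, hl⟩ := Subgroup.mem_zpowers_iff.1 hy
  exact ⟨l, u, hu, by rw [hl, hxy]⟩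

/-- a homomorphism of `P⟨c⟩` to a finite abelian group of exponent `m` with kernel in `P⟨c^m⟩` -/
theorem VStI_hom {G : Type} [Group G] [Finite G] (P : Subgroup G) (c : G)
    (hn : ∀ u ∈ P, c * u * c⁻¹ ∈ P) (m : ℕ) :
    ∃ (A : Type) (_ : CommGroup A) (_ : Finite A)
      (f : (P ⊔ Subgroup.zpowers c : Subgroup G) →* A), (∀ a : A, a ^ m = 1) ∧
      ∀ x, f x = 1 → (x : G) ∈ P ⊔ Subgroup.zpowers (c ^ m) := by
  classical
  have hle : P ⊔ Subgroup.zpowers c ≤ Subgroup.normalizer (P : Set G) :=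
    sup_le Subgroup.le_normalizer (Subgroup.zpowers_le.2 (VStI_norm P c hn))
  have hnor : (P.subgroupOf (P ⊔ Subgroup.zpowers c)).Normal :=
    Subgroup.normal_subgroupOf_of_le_normalizer hle
  have hcD : c ∈ P ⊔ Subgroup.zpowers c :=
    (le_sup_right : Subgroup.zpowers c ≤ _) (Subgroup.mem_zpowers c)
  -- the quotient by `P`
  let B := (P ⊔ Subgroup.zpowers c : Subgroup G) ⧸ P.subgroupOf (P ⊔ Subgroup.zpowers c)
  let c' : B := QuotientGroup.mk (⟨c, hcD⟩ : (P ⊔ Subgroup.zpowers c : Subgroup G))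
  have hgen : ∀ b : B, ∃ l : ℤ, b = c' ^ l := by
    intro b
    obtain ⟨x, rfl⟩ := QuotientGroup.mk_surjective b
    obtain ⟨l, u, hu, hx⟩ := VStI_mem P c hn x.1 x.2
    refine ⟨l, ?_⟩
    have h1 : c' ^ l = QuotientGroup.mk
        ((⟨c, hcD⟩ : (P ⊔ Subgroup.zpowers c : Subgroup G)) ^ l) := by
      simp only [c']
      rfl
    rw [h1, eq_comm, QuotientGroup.eq, Subgroup.mem_subgroupOf]
    have h2 : (((⟨c, hcD⟩ : (P ⊔ Subgroup.zpowers c : Subgroup G)) ^ l)⁻¹ * x :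
        (P ⊔ Subgroup.zpowers c : Subgroup G)).1 = (c ^ l)⁻¹ * x.1 := by
      simp
    rw [h2, hx]
    simpa using hu
  have : IsCyclic B := ⟨c', fun b => by
    obtain ⟨l, hl⟩ := hgen b
    exact Subgroup.mem_zpowers_iff.2 ⟨l, hl.symm⟩⟩
  let _ : CommGroup B := IsCyclic.commGroup
  let A := B ⧸ Subgroup.zpowers (c' ^ m)
  refine ⟨A, inferInstance, inferInstance,
    (QuotientGroup.mk' (Subgroup.zpowers (c' ^ m))).comp (QuotientGroup.mk' _), ?_, ?_⟩
  · intro a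
    obtain ⟨b, rfl⟩ := QuotientGroup.mk_surjective a
    obtain ⟨l, rfl⟩ := hgen b
    have : (QuotientGroup.mk (c' ^ l) : A) ^ m = QuotientGroup.mk ((c' ^ l) ^ m) := rfl
    rw [this, QuotientGroup.eq_one_iff]
    refine Subgroup.mem_zpowers_iff.2 ⟨l, ?_⟩
    rw [← zpow_natCast, ← zpow_natCast, ← zpow_mul, ← zpow_mul, mul_comm]
  · intro x hx
    have h1 : (QuotientGroup.mk x : B) ∈ Subgroup.zpowers (c' ^ m) := by
      rw [← QuotientGroup.eq_one_iff]
      exact hx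
    obtain ⟨l, hl⟩ := Subgroup.mem_zpowers_iff.1 h1
    have h2 : (c' ^ m) ^ l = QuotientGroup.mk
        (((⟨c, hcD⟩ : (P ⊔ Subgroup.zpowers c : Subgroup G)) ^ m) ^ l) := rfl
    rw [h2, QuotientGroup.eq, Subgroup.mem_subgroupOf] at hl
    have h3 : ((((⟨c, hcD⟩ : (P ⊔ Subgroup.zpowers c : Subgroup G)) ^ m) ^ l)⁻¹ * x :
        (P ⊔ Subgroup.zpowers c : Subgroup G)).1 = ((c ^ m) ^ l)⁻¹ * x.1 := by
      simp
    rw [h3] at hl
    have h4 : x.1 = (c ^ m) ^ l * (((c ^ m) ^ l)⁻¹ * x.1) := by group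
    rw [h4]
    exact mul_mem ((le_sup_right : Subgroup.zpowers (c ^ m) ≤ _)
      (Subgroup.mem_zpowers_iff.2 ⟨l, rfl⟩)) ((le_sup_left : P ≤ _) hl)

/-- tame base change of `P⟨c⟩` -/
theorem prf_VStI (hLT : VLT) : VStI := by
  intro k _ _ p _ _ Λ _ _ _ _ m hm hpm t ht G _ _ P c hP hn hpc Ψ hΨ hR
  classical
  have : NeZero (m : k) := ⟨fun h => hpm ((CharP.cast_eq_zero_iff k p m).1 h)⟩
  obtain ⟨ζ, hζ⟩ := HasEnoughRootsOfUnity.exists_primitiveRoot k m
  obtain ⟨-, hall⟩ := hLT k p Λ m ζ hm hpm hζ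
  obtain ⟨-, hex, hchar⟩ := hall t ⟨hζ, ht⟩
  -- `m`-th powers fix `t`
  have hpow : ∀ δ : Λ ≃ₐ[LaurentSeries k] Λ,
      δ ^ m ∈ MulAction.stabilizer (Λ ≃ₐ[LaurentSeries k] Λ) t := by
    intro δ
    obtain ⟨i, hi⟩ := hex δ
    have hj : ∀ j : ℕ, (δ ^ j) t = cΛ Λ ((ζ ^ i) ^ j) * t := by
      intro j
      induction j with
      | zero => simp [cΛ]
      | succ j ih =>
        rw [pow_succ, AlgEquiv.mul_apply, hi, map_mul, ih]
        have h1 : (δ ^ j) (cΛ Λ (ζ ^ i)) = cΛ Λ (ζ ^ i) := (δ ^ j).commutes _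
        rw [h1, pow_succ, ← mul_assoc]
        congr 1
        simp only [cΛ]
        rw [← map_mul, ← map_mul, mul_comm]
    rw [MulAction.mem_stabilizer_iff, AlgEquiv.smul_def, hj, ← pow_mul, mul_comm i m, pow_mul,
      hζ.pow_eq_one, one_pow]
    simp [cΛ]
  have hmem : ∀ x ∈ P ⊔ Subgroup.zpowers c,
      x ^ m ∈ (MulAction.stabilizer (Λ ≃ₐ[LaurentSeries k] Λ) t).map Ψ := by
    intro x hx
    rw [← hR] at hx
    obtain ⟨δ, rfl⟩ := hx
    exact ⟨δ ^ m, hpow δ, map_pow Ψ δ m⟩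
  apply le_antisymm
  · obtain ⟨A, _, _, f, hA, hf⟩ := VStI_hom P c hn m
    have hmemR : ∀ δ, Ψ δ ∈ P ⊔ Subgroup.zpowers c := fun δ => by
      rw [← hR]; exact ⟨δ, rfl⟩
    let Ψ' : (Λ ≃ₐ[LaurentSeries k] Λ) →* (P ⊔ Subgroup.zpowers c : Subgroup G) :=
      Ψ.codRestrict _ hmemR
    have hΨ' : Cts (f.comp Ψ') := by
      obtain ⟨S, hS⟩ := hΨ
      refine ⟨S, fun γ hγ => ?_⟩
      have h1 : Ψ' γ = 1 := Subtype.ext (hS γ hγ)
      rw [MonoidHom.comp_apply, h1, map_one]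
    obtain ⟨a, ha⟩ := hchar A (f.comp Ψ') hΨ' hA
    rintro x ⟨δ, hδ, rfl⟩
    have hδt : δ t = t := hδ
    have h2 := ha δ 0 (by rw [hδt]; simp [cΛ])
    rw [pow_zero] at h2
    exact hf (Ψ' δ) h2
  · refine sup_le ?_ ?_
    · intro u hu
      have h1 := hmem u ((le_sup_left : P ≤ _) hu)
      -- `u` is a power of `u ^ m`
      obtain ⟨e, he⟩ := hP ⟨u, hu⟩
      have he' : u ^ p ^ e = 1 := by
        have := congrArg Subtype.val he
        simpa using this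
      have hcop : Nat.Coprime m (p ^ e) := by
        apply Nat.Coprime.pow_right
        exact ((Nat.Prime.coprime_iff_not_dvd (Fact.out : p.Prime)).2 hpm).symm
      have hcop' : IsCoprime (m : ℤ) ((p ^ e : ℕ) : ℤ) := Nat.isCoprime_iff_coprime.2 hcop
      obtain ⟨a, b, hab⟩ := hcop'
      have h2 : u = (u ^ m) ^ a := by
        have h3 : u ^ ((p ^ e : ℕ) : ℤ) = 1 := by rw [zpow_natCast]; exact he'
        calc u = u ^ (a * (m : ℤ) + b * ((p ^ e : ℕ) : ℤ)) := by rw [hab, zpow_one]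
          _ = (u ^ m) ^ a := by
            rw [zpow_add, mul_comm b, zpow_mul u _ b, h3, one_zpow, mul_one, mul_comm a, zpow_mul,
              zpow_natCast]
      rw [h2]
      exact Subgroup.zpow_mem _ h1 a
    · rw [Subgroup.zpowers_le]
      exact hmem c ((le_sup_right : Subgroup.zpowers c ≤ _) (Subgroup.mem_zpowers c))

end MP7b0bad.SV
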