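import Pool.Agent.Work.MP_7b0bad_ag.SV.VStmts

set_option autoImplicit false

/-! # Item VTw of the block SV: the twist by a Kummer class -/

namespace MP7b0bad.SV

open Polynomial

theorem VTw_exists {E : Type} [Field E] {r : ℕ} {z : E} (hz : IsPrimitiveRoot z r) (hr : r ≠ 0)
    {a b : E} (hb : b ≠ 0) (h : a ^ r = b ^ r) : ∃ n : ℕ, a = z ^ n * b := by
  have : NeZero r := ⟨hr⟩
  have h1 : (a / b) ^ r = 1 := by rw [div_pow, h, div_self (pow_ne_zero _ hb)]
  obtain ⟨n, _, hn⟩ := hz.eq_pow_of_pow_eq_one h1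
  exact ⟨n, by rw [hn, div_mul_cancel₀ _ hb]⟩

theorem VTw_pow {E : Type} [Field E] {r : ℕ} {z : E} (hz : IsPrimitiveRoot z r) (hr : r ≠ 0)
    {n m : ℕ} (h : z ^ n = z ^ m) {A : Type} [Group A] (a : A) (ha : a ^ r = 1) :
    a ^ n = a ^ m := by
  have hz0 : z ≠ 0 := hz.ne_zero hr
  have key : ∀ n m : ℕ, n ≤ m → z ^ n = z ^ m → a ^ n = a ^ m := by
    intro n m hnm h
    obtain ⟨d, rfl⟩ := Nat.exists_eq_add_of_le hnm
    rw [pow_add] at h
    have h1 : z ^ d = 1 := by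
      have := mul_left_cancel₀ (pow_ne_zero n hz0) ((mul_one (z ^ n)).trans h)
      exact this.symm
    obtain ⟨e, rfl⟩ := hz.dvd_of_pow_eq_one d h1
    rw [pow_add, pow_mul, ha, one_pow, mul_one]
  rcases le_total n m with h1 | h1
  · exact key n m h1 h
  · exact (key m n h1 h.symm).symm

theorem VTw_act {G A : Type} [Group G] [CommGroup A] {r : ℕ} {i : A →* G} {act : G →* MulAut A}
    (hA : AbK r i act) {g g' : G} (h : ∃ a : A, g⁻¹ * g' = i a) : act g = act g' := by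
  obtain ⟨a, ha⟩ := h
  have h1 : g' = g * i a := by rw [← ha, mul_inv_cancel_left]
  have h2 : act (i a) = 1 := by
    ext x
    apply hA.inj
    rw [hA.conj, MulAut.one_apply, ← map_mul, ← map_inv, ← map_mul, mul_comm a x,
      mul_inv_cancel_right]
  rw [h1, map_mul, h2, mul_one]

theorem prf_VTw : VTw := by
  intro k Ω _ _ _ _ _ r ζ hr hζ G A Q _ _ _ _ _ _ i act q hA hq Φ hΦ s hs F m hF hfix
  have hr0 : r ≠ 0 := by
    rintro rfl
    exact hr (by simp)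
  set z : Ω := algebraMap (RatFunc k) Ω (RatFunc.C ζ) with hzdef
  have hinjC : Function.Injective
      ((algebraMap (RatFunc k) Ω).comp (RatFunc.C : k →+* RatFunc k)) := RingHom.injective _
  have hz : IsPrimitiveRoot z r := hζ.map_of_injective hinjC
  have hrΩ : (r : Ω) ≠ 0 := by
    have : (r : Ω) = ((algebraMap (RatFunc k) Ω).comp (RatFunc.C : k →+* RatFunc k)) (r : k) := by
      rw [map_natCast]
    rw [this]
    exact (map_ne_zero_iff _ hinjC).2 hr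
  have : NeZero (r : Ω) := ⟨hrΩ⟩
  obtain ⟨w, hw⟩ := IsSepClosed.exists_pow_nat_eq F r
  have hw0 : w ≠ 0 := by
    rintro rfl
    rw [zero_pow hr0] at hw
    exact hF hw.symm
  have hzγ : ∀ (γ : Ω ≃ₐ[RatFunc k] Ω) (n : ℕ), γ (z ^ n) = z ^ n := by
    intro γ n
    rw [map_pow, hzdef, γ.commutes]
  have hE : ∀ (γ : Ω ≃ₐ[RatFunc k] Ω) (c : Q), ∃ n : ℕ,
      γ (s c w) = z ^ n * s (q (Φ γ) * c) w := by
    intro γ c
    apply VTw_exists hz hr0
    · exact (map_ne_zero_iff _ (s (q (Φ γ) * c)).injective).2 hw0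
    · rw [← map_pow, ← map_pow, ← map_pow, hw]
      have h1 := hfix ((s (q (Φ γ) * c))⁻¹ * (γ * s c)) (by
        rw [map_mul, map_mul, map_inv, map_inv, map_mul, map_mul, hs, hs, inv_mul_cancel])
      have h2 : (s (q (Φ γ) * c)) (((s (q (Φ γ) * c))⁻¹ * (γ * s c)) F) =
          (s (q (Φ γ) * c)) F := by rw [h1]
      rw [← h2]
      have h3 : ∀ (α β : Ω ≃ₐ[RatFunc k] Ω), α ((α⁻¹ * β) F) = β F := by
        intro α β
        rw [← AlgEquiv.mul_apply, mul_inv_cancel_left]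
      rw [h3]
      rfl
  choose E hEE using hE
  have hco : ∀ (γ δ : Ω ≃ₐ[RatFunc k] Ω) (c : Q),
      z ^ E (γ * δ) c = z ^ (E δ c + E γ (q (Φ δ) * c)) := by
    intro γ δ c
    have h1 : (γ * δ) (s c w) = γ (δ (s c w)) := rfl
    rw [hEE δ c, map_mul, hzγ, hEE γ, ← mul_assoc, ← pow_add, hEE (γ * δ) c, map_mul, map_mul,
      mul_assoc] at h1
    exact mul_right_cancel₀
      ((map_ne_zero_iff _ (s (q (Φ γ) * (q (Φ δ) * c))).injective).2 hw0) h1
  have hexp : ∀ (a : A), a ^ r = 1 := hA.exp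
  have hac : ∀ (δ : Ω ≃ₐ[RatFunc k] Ω) (c : Q), act (Φ δ * Φ (s c)) =
      act (Φ (s (q (Φ δ) * c))) := by
    intro δ c
    apply VTw_act hA
    have h1 : q ((Φ δ * Φ (s c))⁻¹ * Φ (s (q (Φ δ) * c))) = 1 := by
      rw [map_mul, map_inv, map_mul, hs, hs, inv_mul_cancel]
    obtain ⟨a, ha⟩ := (hq _).1 h1
    exact ⟨a, ha.symm⟩
  let κ : (Ω ≃ₐ[RatFunc k] Ω) → A := fun γ => ∏ c, act (Φ γ * Φ (s c)) m ^ E γ c
  have hκ : ∀ γ δ, κ (γ * δ) = κ γ * act (Φ γ) (κ δ) := by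
    intro γ δ
    have h1 : κ γ = ∏ c, act (Φ (γ * δ) * Φ (s c)) m ^ E γ (q (Φ δ) * c) := by
      refine (Equiv.prod_comp (Equiv.mulLeft (q (Φ δ)))
        (fun c => act (Φ γ * Φ (s c)) m ^ E γ c)).symm.trans ?_
      refine Finset.prod_congr rfl fun c _ => ?_
      rw [Equiv.coe_mulLeft, map_mul act, ← hac δ c, ← map_mul act, map_mul Φ, mul_assoc]
    have h2 : act (Φ γ) (κ δ) = ∏ c, act (Φ (γ * δ) * Φ (s c)) m ^ E δ c := by
      rw [map_prod]
      refine Finset.prod_congr rfl fun c _ => ?_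
      rw [map_pow, ← MulAut.mul_apply, ← map_mul act, map_mul Φ, mul_assoc]
    rw [h1, h2, ← Finset.prod_mul_distrib]
    refine Finset.prod_congr rfl fun c _ => ?_
    rw [← pow_add, add_comm]
    exact VTw_pow hz hr0 (hco γ δ c) _ (hexp _)
  have hm : ∀ γ δ, i (κ (γ * δ)) * Φ (γ * δ) = i (κ γ) * Φ γ * (i (κ δ) * Φ δ) := by
    intro γ δ
    rw [hκ, map_mul i, hA.conj, map_mul Φ]
    group
  let Φ' : (Ω ≃ₐ[RatFunc k] Ω) →* G := MonoidHom.mk' (fun γ => i (κ γ) * Φ γ) hm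
  have hΦ' : ∀ γ, Φ' γ = i (κ γ) * Φ γ := fun γ => rfl
  refine ⟨Φ', ?_, fun γ => ⟨κ γ, rfl⟩, ?_⟩
  · obtain ⟨S, hS⟩ := hΦ
    classical
    refine ⟨S ∪ Finset.univ.image (fun c => s c w), fun γ hγ => ?_⟩
    have h1 : Φ γ = 1 := hS γ fun x hx => hγ x (Finset.mem_union_left _ hx)
    have h2 : κ γ = 1 := by
      refine Finset.prod_eq_one fun c _ => ?_
      have h3 := hγ (s c w) (Finset.mem_union_right _
        (Finset.mem_image_of_mem _ (Finset.mem_univ c)))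
      rw [hEE, h1, map_one, one_mul] at h3
      have h4 : z ^ E γ c = z ^ 0 := by
        rw [pow_zero]
        exact mul_right_cancel₀ ((map_ne_zero_iff _ (s c).injective).2 hw0)
          (h3.trans (one_mul _).symm)
      rw [VTw_pow hz hr0 h4 _ (hexp _), pow_zero]
    rw [hΦ', h1, h2, map_one, one_mul]
  · intro Λ _ _ h j ρ hc hC e y W hy hW hjF hδy
    set Z : Λ := cΛ Λ ζ with hZdef
    have hjz : j z = Z := by rw [hzdef, hc.alg, hC]; rfl
    have hZ : IsPrimitiveRoot Z r := by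
      rw [← hjz]
      exact hz.map_of_injective j.injective
    have hsw : ∀ c, s c w ≠ 0 := fun c => (map_ne_zero_iff _ (s c).injective).2 hw0
    have hWy : ∀ c, W c * y c ≠ 0 := by
      intro c h0
      have h1 : j (s c F) = (W c * y c) ^ r := by rw [hjF, mul_pow, hW]
      rw [h0, zero_pow hr0, map_eq_zero_iff _ j.injective, ← hw, map_pow] at h1
      exact hsw c (pow_eq_zero_iff hr0 |>.1 h1)
    have hα : ∀ c, ∃ n : ℕ, j (s c w) = Z ^ n * (W c * y c) := by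
      intro c
      apply VTw_exists hZ hr0 (hWy c)
      rw [← map_pow, ← map_pow, hw, hjF, mul_pow, hW]
    choose α hα using hα
    refine ⟨∏ c, act (Φ (s c)) m ^ α c, fun δ ε hε => ?_⟩
    have hcong : ∀ c, Z ^ (E (ρ δ) c + α (q (Φ (ρ δ)) * c)) = Z ^ (α c + ε c) := by
      intro c
      have h1 : j (ρ δ (s c w)) = δ (j (s c w)) := hc.res δ _
      have hδZ : ∀ n : ℕ, δ (Z ^ n) = Z ^ n := by
        intro n
        rw [map_pow, hZdef, cΛ, δ.commutes]
      have hεc : cΛ Λ (ζ ^ ε c) = Z ^ ε c := by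
        rw [hZdef, cΛ, cΛ, map_pow, map_pow]
      rw [hEE, map_mul, map_pow, hjz, hα, hα, map_mul, map_mul, hδZ, hε, hδy, hεc] at h1
      have h2 : Z ^ (E (ρ δ) c + α (q (Φ (ρ δ)) * c)) *
          (W (q (Φ (ρ δ)) * c) * y (q (Φ (ρ δ)) * c)) =
          Z ^ (α c + ε c) * (W (q (Φ (ρ δ)) * c) * y (q (Φ (ρ δ)) * c)) := by
        rw [pow_add, pow_add, mul_assoc, h1]
        ring
      exact mul_right_cancel₀ (hWy _) h2
    have hb : ∏ c, act (Φ (s c)) m ^ α c =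
        ∏ c, act (Φ (ρ δ) * Φ (s c)) m ^ α (q (Φ (ρ δ)) * c) := by
      rw [← Equiv.prod_comp (Equiv.mulLeft (q (Φ (ρ δ))))
        (fun c => act (Φ (s c)) m ^ α c)]
      refine Finset.prod_congr rfl fun c _ => ?_
      rw [Equiv.coe_mulLeft, ← hac]
    have hab : act (Φ (ρ δ)) (∏ c, act (Φ (s c)) m ^ α c) =
        ∏ c, act (Φ (ρ δ) * Φ (s c)) m ^ α c := by
      rw [map_prod]
      refine Finset.prod_congr rfl fun c _ => ?_
      rw [map_pow, ← MulAut.mul_apply, ← map_mul act]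
    have hfin : κ (ρ δ) * (∏ c, act (Φ (s c)) m ^ α c) =
        act (Φ (ρ δ)) (∏ c, act (Φ (s c)) m ^ α c) *
          ∏ c, act (Φ (ρ δ) * Φ (s c)) m ^ ε c := by
      rw [hab]
      nth_rewrite 1 [hb]
      rw [← Finset.prod_mul_distrib, ← Finset.prod_mul_distrib]
      refine Finset.prod_congr rfl fun c _ => ?_
      rw [← pow_add, ← pow_add]
      exact VTw_pow hZ hr0 (hcong c) _ (hexp _)
    have hκe : κ (ρ δ) = act (Φ (ρ δ)) (∏ c, act (Φ (s c)) m ^ α c) *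
        (∏ c, act (Φ (s c)) m ^ α c)⁻¹ * ∏ c, act (Φ (ρ δ) * Φ (s c)) m ^ ε c := by
      rw [mul_right_comm, ← hfin, mul_inv_cancel_right]
    rw [hΦ', hκe]

end MP7b0bad.SV
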