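import Pool.Agent.Work.MP_7b0bad_ag.SV.VStmts

set_option autoImplicit false

/-!
# MP_7b0bad_ag, item VTwC: characters ramified at one point (helper91)
-/

namespace MP7b0bad.SV

open Polynomial

/-- the order of `c + s`, `c ≠ 0` -/
theorem VTwC_order {k : Type} [Field k] (c : k) (hc : c ≠ 0) :
    (HahnSeries.C c + HahnSeries.single (1 : ℤ) (1 : k) : LaurentSeries k) ≠ 0 ∧
    (HahnSeries.C c + HahnSeries.single (1 : ℤ) (1 : k) : LaurentSeries k).order = 0 := by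
  set u : LaurentSeries k := HahnSeries.C c + HahnSeries.single (1 : ℤ) (1 : k) with hu
  have h0 : u.coeff 0 = c := by
    rw [hu, HahnSeries.coeff_add, HahnSeries.coeff_single_of_ne (by norm_num), add_zero]
    simp
  have hneg : ∀ n : ℤ, n < 0 → u.coeff n = 0 := by
    intro n hn
    rw [hu, HahnSeries.coeff_add, HahnSeries.coeff_single_of_ne (by omega), add_zero,
      HahnSeries.C_apply, HahnSeries.coeff_single_of_ne (by omega)]
  have hu0 : u ≠ 0 := by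
    intro h
    rw [h] at h0
    exact hc h0.symm
  refine ⟨hu0, le_antisymm ?_ ?_⟩
  · exact HahnSeries.order_le_of_coeff_ne_zero (by rw [h0]; exact hc)
  · by_contra hlt
    exact hu0 (HahnSeries.coeff_order_eq_zero.1 (hneg _ (not_le.1 hlt)))

theorem prf_VTwC (hY : YRoot) : VTwC := by
  intro k _ p Ω Λ _ _ _ _ hI jI ρI hB r ζ t hr hrp hTm A _ _ hA a₁ m
  have := hB.ac
  have := hB.ch
  have : Fact p.Prime := ⟨hB.pr⟩
  have := hB.galΩ
  have := hB.scΩ
  have hrk : (r : k) ≠ 0 := by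
    rw [Ne, CharP.cast_eq_zero_iff k p]
    exact fun hd => hrp (((Nat.prime_dvd_prime_iff_eq hB.pr hr).1 hd).symm)
  -- constants
  let cΩ : k →+* Ω := (algebraMap (RatFunc k) Ω).comp RatFunc.C
  let cL : k →+* Λ := (algebraMap (LaurentSeries k) Λ).comp HahnSeries.C
  have hcL : ∀ c : k, cL c = cΛ Λ c := fun c => rfl
  have hcΩ : ∀ c : k, cΩ c = algebraMap (RatFunc k) Ω (RatFunc.C c) := fun c => rfl
  have hprΩ : IsPrimitiveRoot (cΩ ζ) r := hTm.prim.map_of_injective cΩ.injective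
  have hprL : IsPrimitiveRoot (cL ζ) r := hTm.prim.map_of_injective cL.injective
  have hnz : NeZero ((r : ℕ) : Ω) := ⟨by
    have h1 : ((r : ℕ) : Ω) = cΩ (r : k) := by rw [map_natCast]
    rw [h1]
    exact (map_ne_zero cΩ).2 hrk⟩
  have : NeZero r := ⟨hr.ne_zero⟩
  set X1 : RatFunc k := RatFunc.X - RatFunc.C a₁ with hX1
  have hX1ne : X1 ≠ 0 := by
    intro h
    have h2 : algebraMap k[X] (RatFunc k) (X - C a₁) = 0 := by
      rw [map_sub, RatFunc.algebraMap_X, RatFunc.algebraMap_C]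
      exact h
    have h3 : (X - C a₁ : k[X]) = 0 :=
      (IsFractionRing.injective k[X] (RatFunc k)) (by rw [h2, map_zero])
    exact X_sub_C_ne_zero a₁ h3
  obtain ⟨w, hw⟩ := IsSepClosed.exists_pow_nat_eq (algebraMap (RatFunc k) Ω X1) r
  have hw0 : w ≠ 0 := by
    intro h
    rw [h, zero_pow hr.ne_zero] at hw
    exact hX1ne ((map_eq_zero (algebraMap (RatFunc k) Ω)).1 hw.symm)
  -- roots of unity
  have hrootΩ : ∀ x y : Ω, y ≠ 0 → x ^ r = y ^ r → ∃ n : ℕ, x = cΩ (ζ ^ n) * y := by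
    intro x y hy hxy
    have h1 : (x / y) ^ r = 1 := by
      rw [div_pow, hxy, div_self (pow_ne_zero _ hy)]
    obtain ⟨n, _, hn⟩ := hprΩ.eq_pow_of_pow_eq_one h1
    refine ⟨n, ?_⟩
    rw [map_pow, hn, div_mul_cancel₀ _ hy]
  have hrootL : ∀ x y : Λ, y ≠ 0 → x ^ r = y ^ r → ∃ n : ℕ, x = cL (ζ ^ n) * y := by
    intro x y hy hxy
    have h1 : (x / y) ^ r = 1 := by
      rw [div_pow, hxy, div_self (pow_ne_zero _ hy)]
    obtain ⟨n, _, hn⟩ := hprL.eq_pow_of_pow_eq_one h1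
    refine ⟨n, ?_⟩
    rw [map_pow, hn, div_mul_cancel₀ _ hy]
  have hmz0 : ∀ a b : ℕ, a ≤ b → ζ ^ a = ζ ^ b → m ^ a = m ^ b := by
    intro a b hab h
    obtain ⟨d, rfl⟩ := Nat.exists_eq_add_of_le hab
    have hζ0 : ζ ^ a ≠ 0 := pow_ne_zero _ (hTm.prim.ne_zero hr.ne_zero)
    have h1 : ζ ^ d = 1 := by
      rw [pow_add] at h
      exact mul_left_cancel₀ hζ0 (by rw [← h, mul_one])
    obtain ⟨e, rfl⟩ := hTm.prim.dvd_of_pow_eq_one d h1
    rw [pow_add, pow_mul, hA, one_pow, mul_one]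
  have hmz : ∀ a b : ℕ, ζ ^ a = ζ ^ b → m ^ a = m ^ b := by
    intro a b h
    rcases le_total a b with hab | hab
    · exact hmz0 a b hab h
    · exact (hmz0 b a hab h.symm).symm
  have hε : ∀ γ : Ω ≃ₐ[RatFunc k] Ω, ∃ n : ℕ, γ w = cΩ (ζ ^ n) * w := by
    intro γ
    refine hrootΩ _ _ hw0 ?_
    rw [← map_pow, hw, AlgEquiv.commutes]
  choose ε hεs using hε
  have hcγ : ∀ (γ : Ω ≃ₐ[RatFunc k] Ω) (c : k), γ (cΩ c) = cΩ c := by
    intro γ c
    rw [hcΩ, AlgEquiv.commutes]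
  have hkey : ∀ (γ : Ω ≃ₐ[RatFunc k] Ω) (n : ℕ), γ w = cΩ (ζ ^ n) * w → ζ ^ ε γ = ζ ^ n := by
    intro γ n h
    rw [hεs γ] at h
    exact cΩ.injective (mul_right_cancel₀ hw0 h)
  let κ : (Ω ≃ₐ[RatFunc k] Ω) →* A :=
    { toFun := fun γ => m ^ ε γ
      map_one' := by
        have h1 : ζ ^ ε 1 = ζ ^ 0 := hkey 1 0 (by simp)
        simpa using hmz _ _ h1
      map_mul' := by
        intro γ γ'
        have h1 : ζ ^ ε (γ * γ') = ζ ^ (ε γ + ε γ') := by
          refine hkey _ _ ?_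
          rw [AlgEquiv.mul_apply, hεs γ', map_mul, hcγ, hεs γ, ← mul_assoc, ← map_mul, pow_add,
            mul_comm (ζ ^ ε γ')]
        show m ^ ε (γ * γ') = m ^ ε γ * m ^ ε γ'
        rw [hmz _ _ h1, pow_add] }
  have hκ : ∀ γ, κ γ = m ^ ε γ := fun γ => rfl
  refine ⟨κ, ⟨{w}, fun γ hγ => ?_⟩, ?_, ?_⟩
  · have h1 : ζ ^ ε γ = ζ ^ 0 := hkey γ 0 (by
      rw [hγ w (Finset.mem_singleton_self w)]
      simp)
    rw [hκ, hmz _ _ h1, pow_zero]
  · intro a ha h j ρ hH hC δ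
    have hjX : j (algebraMap (RatFunc k) Ω X1) =
        lΛ Λ (HahnSeries.C (a - a₁) + HahnSeries.single (1 : ℤ) (1 : k)) := by
      have e : h X1 = HahnSeries.C (a - a₁) + HahnSeries.single (1 : ℤ) (1 : k) := by
        rw [hX1, map_sub, hH.X, hH.cst, pA, map_sub]
        ring
      rw [hC.alg, e]
    obtain ⟨hu0, hu1⟩ := VTwC_order (a - a₁) (sub_ne_zero.2 ha)
    obtain ⟨v, hv⟩ := hY k r hrk _ hu0 (by rw [hu1]; exact dvd_zero _)
    have hv0 : v ≠ 0 := by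
      intro h0
      rw [h0, zero_pow hr.ne_zero] at hv
      exact hu0 hv.symm
    obtain ⟨n, hn⟩ := hrootL (j w) (lΛ Λ v)
      ((map_ne_zero (algebraMap (LaurentSeries k) Λ)).2 hv0) (by
        rw [← map_pow, hw, hjX, ← hv]
        exact map_pow (algebraMap (LaurentSeries k) Λ) v r)
    have hfix : δ (j w) = j w := by
      rw [hn, map_mul, hcL]
      unfold cΛ
      rw [AlgEquiv.commutes, AlgEquiv.commutes]
    have h2 : (ρ δ) w = w := by
      apply j.injective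
      rw [hC.res, hfix]
    have h3 : ζ ^ ε (ρ δ) = ζ ^ 0 := hkey _ 0 (by rw [h2]; simp)
    rw [hκ, hmz _ _ h3, pow_zero]
  · intro h j ρ hH hC δ n hδ
    have hjX : j (algebraMap (RatFunc k) Ω X1) = lΛ Λ (HahnSeries.single (1 : ℤ) (1 : k)) := by
      have e : h X1 = HahnSeries.single (1 : ℤ) (1 : k) := by
        rw [hX1, map_sub, hH.X, hH.cst, pA]
        ring
      rw [hC.alg, e]
    have ht0 : t ≠ 0 := by
      intro h0
      have h1 := hTm.root
      rw [h0, zero_pow hr.ne_zero] at h1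
      have h2 : (HahnSeries.single (1 : ℤ) (1 : k) : LaurentSeries k) = 0 :=
        (map_eq_zero (algebraMap (LaurentSeries k) Λ)).1 h1.symm
      exact one_ne_zero (HahnSeries.single_eq_zero_iff.1 h2)
    obtain ⟨n', hn'⟩ := hrootL (j w) t ht0 (by
      rw [← map_pow, hw, hjX, hTm.root])
    have hjw0 : j w ≠ 0 := (map_ne_zero j).2 hw0
    have h1 : δ (j w) = cL (ζ ^ n) * j w := by
      rw [hn', map_mul, hδ, hcL, hcL]
      have h2 : δ (cΛ Λ (ζ ^ n')) = cΛ Λ (ζ ^ n') := by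
        unfold cΛ
        rw [AlgEquiv.commutes]
      rw [h2]
      ring
    have hjc : ∀ c : k, j (cΩ c) = cL c := by
      intro c
      rw [hcΩ, hC.alg, hH.cst]
      rfl
    have h3 : δ (j w) = cL (ζ ^ ε (ρ δ)) * j w := by
      rw [← hC.res, hεs, map_mul, hjc]
    have h4 : ζ ^ ε (ρ δ) = ζ ^ n := by
      rw [h3] at h1
      exact cL.injective (mul_right_cancel₀ hjw0 h1)
    rw [hκ, hmz _ _ h4]

end MP7b0bad.SV
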