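import Pool.Agent.Work.MP_7b0bad_ag.SV.VStmts2

set_option autoImplicit false

/-!
# Weak approximation in the field of a cover (VWA)

The dual family of the Galois algebra gives explicit coordinates of the targets; the coordinates
are approximated by rational functions. At infinity the spectral norm of the separable closure of
the field of Laurent series gives canonical roots of the elements close to one.
-/

namespace MP7b0bad.SV

open Polynomial WithZero

/-- the spectral norm -/
theorem VWA_norm (k : Type) [Field k] (Λ : Type) [Field Λ] [Algebra (LaurentSeries k) Λ]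
    [Algebra.IsAlgebraic (LaurentSeries k) Λ] :
    ∃ ν : Λ → ℝ, (∀ x, 0 ≤ ν x) ∧ ν 0 = 0 ∧ (∀ x, ν x = 0 → x = 0) ∧
      (∀ x y, ν (x * y) = ν x * ν y) ∧
      (∀ x y, ν (x + y) ≤ max (ν x) (ν y)) ∧
      (∀ (δ : Λ ≃ₐ[LaurentSeries k] Λ) (x : Λ), ν (δ x) = ν x) ∧
      (∀ c : k, c ≠ 0 → ν (cΛ Λ c) = 1) ∧
      ∀ ε : ℝ, 0 < ε → ∃ N : ℤ, ∀ u : LaurentSeries k, (∀ n < N, u.coeff n = 0) →
        ν (lΛ Λ u) < ε := by
  classical
  have h1 : (Valued.v : Valuation (LaurentSeries k) ℤᵐ⁰).IsRankOneDiscrete := by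
    have hnt : (Valued.v : Valuation (LaurentSeries k) ℤᵐ⁰).IsNontrivial := by
      refine ⟨⟨HahnSeries.single (1 : ℤ) (1 : k), ?_, ?_⟩⟩
      · rw [LaurentSeries.valuation_single_zpow]; simp
      · rw [LaurentSeries.valuation_single_zpow]; simp
    exact Valuation.IsRankOneDiscrete.mk' _
  let h2 : (Valued.v : Valuation (LaurentSeries k) ℤᵐ⁰).RankOne :=
    Valuation.IsRankOneDiscrete.rankOne _ (e := 2) one_lt_two
  let h3 : NontriviallyNormedField (LaurentSeries k) := Valued.toNontriviallyNormedField _ ℤᵐ⁰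
  have h4 : IsUltrametricDist (LaurentSeries k) := inferInstance
  have h5 : CompleteSpace (LaurentSeries k) := inferInstance
  have hle : ∀ x y : LaurentSeries k, ‖x‖ ≤ ‖y‖ ↔ Valued.v x ≤ Valued.v y := fun x y =>
    Valued.toNormedField.norm_le_iff
  have hle1 : ∀ x : LaurentSeries k, ‖x‖ ≤ 1 ↔ Valued.v x ≤ 1 := fun x =>
    Valued.toNormedField.norm_le_one_iff
  have hlt : ∀ x : LaurentSeries k, ‖x‖ < 1 ↔ Valued.v x < 1 := fun x =>
    Valued.toNormedField.norm_lt_one_iff
  have hC : ∀ c : k, ‖(HahnSeries.C c : LaurentSeries k)‖ ≤ 1 := by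
    intro c
    rw [hle1]
    have := (LaurentSeries.valuation_le_iff_coeff_lt_eq_zero k (D := 0)
      (f := HahnSeries.C c)).2 (fun n hn => by
        rw [HahnSeries.C_apply, HahnSeries.coeff_single_of_ne hn.ne])
    simpa using this
  refine ⟨spectralNorm (LaurentSeries k) Λ, fun x => spectralNorm_nonneg x,
    spectralNorm_zero, fun x hx => eq_zero_of_map_spectralNorm_eq_zero hx (Algebra.IsAlgebraic.isAlgebraic x), fun x y =>
    (spectralMulAlgNorm (LaurentSeries k) Λ).map_mul' x y, isNonarchimedean_spectralNorm,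
    fun δ x => (spectralNorm_eq_of_equiv δ x).symm, fun c hc => ?_, fun ε hε => ?_⟩
  · rw [cΛ, spectralNorm_extends]
    refine le_antisymm (hC c) ?_
    have h6 : ‖(HahnSeries.C c : LaurentSeries k)‖ * ‖(HahnSeries.C c⁻¹ : LaurentSeries k)‖ = 1 := by
      rw [← norm_mul, ← map_mul, mul_inv_cancel₀ hc, map_one, norm_one]
    have h7 := hC c⁻¹
    have h8 : 0 ≤ ‖(HahnSeries.C c : LaurentSeries k)‖ := norm_nonneg _
    nlinarith
  · have hs : ‖(HahnSeries.single (1 : ℤ) (1 : k) : LaurentSeries k)‖ < 1 := by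
      rw [hlt, LaurentSeries.valuation_single_zpow]
      exact WithZero.exp_lt_exp.2 (by decide)
    obtain ⟨N, hN⟩ := exists_pow_lt_of_lt_one hε hs
    refine ⟨N, fun u hu => ?_⟩
    rw [lΛ, spectralNorm_extends]
    refine lt_of_le_of_lt ?_ hN
    rw [← norm_pow, hle, map_pow, LaurentSeries.valuation_single_zpow]
    have := (LaurentSeries.valuation_le_iff_coeff_lt_eq_zero k (D := N) (f := u)).2 hu
    refine this.trans (le_of_eq ?_)
    rw [← WithZero.exp_nsmul]
    simp

/-- the unique root close to one -/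
theorem VWA_root (k : Type) [Field k] [IsAlgClosed k] (p : ℕ) [Fact p.Prime] [CharP k p] (Λ : Type)
    [Field Λ] [Algebra (LaurentSeries k) Λ] [IsSepClosed Λ] (r : ℕ) (hr : r.Prime) (hrp : r ≠ p)
    (ν : Λ → ℝ) (hm : ∀ x y, ν (x * y) = ν x * ν y) (ha : ∀ x y, ν (x + y) ≤ max (ν x) (ν y))
    (hc : ∀ c : k, c ≠ 0 → ν (cΛ Λ c) = 1) :
    (∀ z : Λ, ν (z - 1) < 1 → ∃ y : Λ, y ^ r = z ∧ ν (y - 1) < 1) ∧
    ∀ y y' : Λ, ν (y - 1) < 1 → ν (y' - 1) < 1 → y ^ r = y' ^ r → y = y' := by
  classical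
  have hrk : (r : k) ≠ 0 := by
    intro h
    rw [CharP.cast_eq_zero_iff k p] at h
    exact hrp ((Nat.prime_dvd_prime_iff_eq (Fact.out : p.Prime) hr).1 h).symm
  have hcm : ∀ a b : k, cΛ Λ (a * b) = cΛ Λ a * cΛ Λ b := fun a b => by
    simp only [cΛ, map_mul]
  have hinj : Function.Injective (fun c : k => cΛ Λ c) := by
    intro a b hab
    exact HahnSeries.C_injective ((algebraMap (LaurentSeries k) Λ).injective hab)
  have h1 : ν 1 = 1 := by
    have := hc 1 one_ne_zero
    simpa [cΛ] using this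
  have hneg1 : ν (-1) = 1 := by
    have := hc (-1) (neg_ne_zero.2 one_ne_zero)
    simpa [cΛ] using this
  have hneg : ∀ x, ν (-x) = ν x := fun x => by
    rw [neg_eq_neg_one_mul, hm, hneg1, one_mul]
  have hsub : ∀ x y, ν (x - y) ≤ max (ν x) (ν y) := fun x y => by
    rw [sub_eq_add_neg, ← hneg y]; exact ha _ _
  let C' : k →+* Λ := (algebraMap (LaurentSeries k) Λ).comp HahnSeries.C
  have hC' : ∀ c, C' c = cΛ Λ c := fun c => rfl
  have hrn : NeZero (r : k) := ⟨hrk⟩
  have hrΛ : NeZero (r : Λ) := ⟨by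
    rw [← map_natCast C' r]
    exact (map_ne_zero C').2 hrk⟩
  have hr0 : NeZero r := ⟨hr.ne_zero⟩
  obtain ⟨ζ, hζ⟩ := HasEnoughRootsOfUnity.exists_primitiveRoot k r
  have hζ' : IsPrimitiveRoot (C' ζ) r := hζ.map_of_injective C'.injective
  have hνμ : ∀ μ : Λ, μ ^ r = 1 → ν (μ - 1) < 1 → μ = 1 := by
    intro μ hμ hμ1
    obtain ⟨i, hi, rfl⟩ := hζ'.eq_pow_of_pow_eq_one hμ
    by_contra hne
    have h2 : ζ ^ i - 1 ≠ 0 := by
      intro h
      refine hne ?_
      rw [← map_pow, sub_eq_zero.1 h, map_one]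
    have h3 := hc _ h2
    have h4 : cΛ Λ (ζ ^ i - 1) = C' ζ ^ i - 1 := by
      rw [← hC', map_sub, map_pow, map_one]
    rw [h4] at h3
    exact absurd hμ1 (by rw [h3]; exact lt_irrefl _)
  have hunit : ∀ y, ν (y - 1) < 1 → ν y = 1 := by
    intro y hy
    refine le_antisymm ?_ ?_
    · have := ha (y - 1) 1
      rw [sub_add_cancel, h1] at this
      exact this.trans (max_le hy.le le_rfl)
    · have := hsub y (y - 1)
      rw [sub_sub_cancel, h1] at this
      rcases le_max_iff.1 this with h | h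
      · exact h
      · exact absurd hy (not_lt.2 h)
  refine ⟨fun z hz1 => ?_, fun y y' hy hy' hyy => ?_⟩
  · obtain ⟨y, hy⟩ := IsSepClosed.exists_pow_nat_eq z r
    have h2 := hζ'.pow_sub_pow_eq_prod_sub_mul (1 : Λ) y hr.pos
    rw [one_pow, hy] at h2
    have h3 : ν (1 - z) < 1 := by
      rw [← hneg, neg_sub]; exact hz1
    let νh : Λ →* ℝ := { toFun := ν, map_one' := h1, map_mul' := hm }
    have hνh : ∀ x, ν x = νh x := fun x => rfl
    rw [h2, hνh, map_prod] at h3
    obtain ⟨μ, hμ, hμ1⟩ : ∃ μ ∈ nthRootsFinset r (1 : Λ), νh (1 - μ * y) < 1 := by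
      by_contra hcon
      push Not at hcon
      have h4 := Finset.one_le_prod (s := nthRootsFinset r (1 : Λ)) (f := fun μ => νh (1 - μ * y))
        hcon
      exact absurd h3 (not_lt.2 h4)
    refine ⟨μ * y, ?_, ?_⟩
    · rw [mul_pow, (mem_nthRootsFinset hr.pos 1).1 hμ, one_mul, hy]
    · rw [← hneg, neg_sub]; exact hμ1
  · have hy0 : y' ≠ 0 := by
      intro h
      have h2 := hunit y' hy'
      have h3 := hm 0 (y' - 1)
      rw [h] at h2
      rw [zero_mul, h2, one_mul] at h3
      exact absurd hy' (by rw [← h3]; exact lt_irrefl _)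
    have h2 : ν (y / y' - 1) < 1 := by
      have h3 : ν ((y / y' - 1) * y') < 1 := by
        rw [sub_mul, one_mul, div_mul_cancel₀ y hy0]
        have := hsub (y - 1) (y' - 1)
        rw [sub_sub_sub_cancel_right] at this
        exact this.trans_lt (max_lt hy hy')
      rw [hm, hunit y' hy', mul_one] at h3
      exact h3
    have h3 := hνμ (y / y') (by rw [div_pow, hyy, div_self (pow_ne_zero _ hy0)]) h2
    rwa [div_eq_one_iff_eq hy0] at h3

/-- products with series of large order -/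
theorem VWA_ser (k : Type) [Field k] (w : LaurentSeries k) : ∃ N : ℤ, ∀ u : LaurentSeries k,
    (∀ n < N, u.coeff n = 0) → ∀ n ≤ 0, (u * w).coeff n = 0 := by
  refine ⟨1 - w.order, fun u hu n hn => ?_⟩
  have h1 := (LaurentSeries.valuation_le_iff_coeff_lt_eq_zero k (D := 1 - w.order) (f := u)).2 hu
  have h2 := (LaurentSeries.valuation_le_iff_coeff_lt_eq_zero k (D := w.order) (f := w)).2
    (fun n hn => HahnSeries.coeff_eq_zero_of_lt_order hn)
  have h3 := (LaurentSeries.valuation_le_iff_coeff_lt_eq_zero k (D := 1) (f := u * w)).1 (by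
    rw [map_mul]
    refine (mul_le_mul' h1 h2).trans (le_of_eq ?_)
    rw [← WithZero.exp_add]
    congr 1
    ring)
  exact h3 n (by omega)

/-- series with constant term one -/
theorem VWA_one (k : Type) [Field k] (t : LaurentSeries k) (ht : ∀ n ≤ 0, t.coeff n = 0) :
    1 + t ≠ 0 ∧ (1 + t).order = 0 := by
  have h0 : (1 + t).coeff 0 = 1 := by
    rw [HahnSeries.coeff_add, ht 0 le_rfl, HahnSeries.coeff_one]; simp
  have h1 : 1 + t ≠ 0 := by
    intro h
    rw [h] at h0
    simp at h0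
  refine ⟨h1, le_antisymm ?_ ?_⟩
  · exact HahnSeries.order_le_of_coeff_ne_zero (by rw [h0]; exact one_ne_zero)
  · by_contra hcon
    push Not at hcon
    have h2 : (1 + t).coeff (1 + t).order ≠ 0 := by
      rw [Ne, HahnSeries.coeff_order_eq_zero]; exact h1
    rw [HahnSeries.coeff_add, ht _ hcon.le, HahnSeries.coeff_one] at h2
    simp [hcon.ne] at h2

theorem prf_VWA (hF : VFld) (hR : VWR) : VWA := by
  intro k _ p Ω Λ _ _ _ _ hI jI ρI hB r hr hrp Q _ _ φ hφ hφs hun s hs X hp jp ρp hX n e he heq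
  classical
  have := hB.ac
  have := hB.ch
  have : Fact p.Prime := ⟨hB.pr⟩
  have := hB.galΩ
  have := hB.galΛ
  have := hB.scΛ
  have := Fintype.ofFinite Q
  have : Infinite k := IsAlgClosed.instInfinite
  obtain ⟨L, _, _, _, β, hG, hβ, hβγ, -⟩ := hF (RatFunc k) Ω Q φ hφ hφs
  obtain ⟨m, x, y, hxy, hxy1⟩ := gal_dual' hG
  have hdual : ∀ c d : Q, ∑ i, (c • x i) * (d • y i) = if c = d then 1 else 0 := by
    intro c d
    have h1 : ∑ i, (c • x i) * (d • y i) = c • ∑ i, x i * ((c⁻¹ * d) • y i) := by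
      rw [Finset.smul_sum]
      refine Finset.sum_congr rfl fun i _ => ?_
      rw [smul_mul', smul_smul, mul_inv_cancel_left]
    rw [h1]
    split_ifs with h
    · subst h
      simp [hxy1]
    · rw [hxy _ (fun h2 => h (inv_mul_eq_one.1 h2)), smul_zero]
  -- fixed elements
  have hfix : ∀ z : Λ, (∀ δ : Λ ≃ₐ[LaurentSeries k] Λ, δ z = z) →
      ∃ w : LaurentSeries k, lΛ Λ w = z := by
    intro z hz
    have := (InfiniteGalois.mem_bot_iff_fixed (k := LaurentSeries k) z).2 hz
    exact IntermediateField.mem_bot.1 this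
  have hinj : Function.Injective (fun w : LaurentSeries k => lΛ Λ w) :=
    (algebraMap (LaurentSeries k) Λ).injective
  -- values at the finite points
  have hW : ∀ (a : k) (b : L), ∃ w : LaurentSeries k, a ∈ X → lΛ Λ w = jp a (β b) := by
    intro a b
    by_cases ha : a ∈ X
    · obtain ⟨w, hw⟩ := hfix (jp a (β b)) (fun δ => by
        rw [← (hX a ha).2.res, hβγ, hun a (hp a) (jp a) (ρp a) (hX a ha).1 (hX a ha).2 δ, one_smul])
      exact ⟨w, fun _ => hw⟩
    · exact ⟨0, fun h => absurd h ha⟩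
  choose W hW using hW
  have hWI : ∀ i : Fin m, ∃ w : LaurentSeries k, lΛ Λ w = ∑ d : Q, jI (β (d • y i)) * e d := by
    intro i
    refine hfix _ fun δ => ?_
    rw [map_sum]
    refine Fintype.sum_bijective (fun d => φ (ρI δ) * d) (Group.mulLeft_bijective _) _ _ fun d => ?_
    rw [map_mul, ← hB.comp.res, hβγ, smul_smul, heq]
  choose UI hUI using hWI
  have hexp : ∀ (g : L →+* Λ) (t : Q → Λ) (c : Q),
      ∑ i, (∑ d, g (d • y i) * t d) * g (c • x i) = t c := by
    intro g t c
    have h1 : ∀ i, (∑ d, g (d • y i) * t d) * g (c • x i) =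
        ∑ d, t d * g ((c • x i) * (d • y i)) := by
      intro i
      rw [Finset.sum_mul]
      refine Finset.sum_congr rfl fun d _ => ?_
      rw [map_mul]
      ring
    rw [Finset.sum_congr rfl fun i _ => h1 i, Finset.sum_comm]
    have h2 : ∀ d, ∑ i, t d * g ((c • x i) * (d • y i)) = if c = d then t d else 0 := by
      intro d
      rw [← Finset.mul_sum, ← map_sum, hdual]
      split_ifs <;> simp
    rw [Finset.sum_congr rfl fun d _ => h2 d]
    simp
  let U : k → Fin m → LaurentSeries k := fun a i =>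
    ∑ d : Q, W a (d • y i) * HahnSeries.single (n a d) (1 : k)
  have hU : ∀ a ∈ X, ∀ c, ∑ i, U a i * W a (c • x i) = HahnSeries.single (n a c) (1 : k) := by
    intro a ha c
    apply hinj
    have h1 := hexp ((jp a).comp β) (fun d => lΛ Λ (HahnSeries.single (n a d) (1 : k))) c
    simp only [lΛ, map_sum, map_mul, U]
    refine Eq.trans ?_ h1
    refine Finset.sum_congr rfl fun i _ => ?_
    have h2 : ∀ b, (algebraMap (LaurentSeries k) Λ) (W a b) = jp a (β b) := fun b => hW a b ha
    simp only [h2, RingHom.comp_apply, lΛ]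
  have hUI' : ∀ c, ∑ i, lΛ Λ (UI i) * jI (β (c • x i)) = e c := by
    intro c
    rw [← hexp (jI.comp β) e c]
    refine Finset.sum_congr rfl fun i _ => ?_
    rw [hUI]
    rfl
  -- the norm
  obtain ⟨ν, ν0, νz, νe, νm, νa, νδ, νc, νN⟩ := VWA_norm k Λ
  obtain ⟨hroot, huniq⟩ := VWA_root k p Λ r hr hrp ν νm νa νc
  -- precision
  have hE1 : ∀ a ∈ X, ∀ (c : Q) (i : Fin m), ∀ᶠ N : ℤ in Filter.atTop, ∀ u : LaurentSeries k,
      (∀ n < N, u.coeff n = 0) → ∀ l ≤ 0,
      (u * (W a (c • x i) * HahnSeries.single (-n a c) (1 : k))).coeff l = 0 := by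
    intro a _ c i
    obtain ⟨N, hN⟩ := VWA_ser k (W a (c • x i) * HahnSeries.single (-n a c) (1 : k))
    filter_upwards [Filter.eventually_ge_atTop N] with N' hN' u hu
    exact hN u fun l hl => hu l (hl.trans_le hN')
  have hE2 : ∀ (c : Q) (i : Fin m), ∀ᶠ N : ℤ in Filter.atTop, ∀ u : LaurentSeries k,
      (∀ n < N, u.coeff n = 0) → ν (lΛ Λ u * jI (β (c • x i)) * (e c)⁻¹) < 1 := by
    intro c i
    have h1 : 0 < ν (jI (β (c • x i)) * (e c)⁻¹) + 1 := by
      have := ν0 (jI (β (c • x i)) * (e c)⁻¹)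
      linarith
    obtain ⟨N, hN⟩ := νN _ (inv_pos.2 h1)
    filter_upwards [Filter.eventually_ge_atTop N] with N' hN' u hu
    have h2 := hN u fun l hl => hu l (hl.trans_le hN')
    rw [mul_assoc, νm]
    have h3 := ν0 (lΛ Λ u)
    have h4 := ν0 (jI (β (c • x i)) * (e c)⁻¹)
    have h5 : ν (lΛ Λ u) * (ν (jI (β (c • x i)) * (e c)⁻¹) + 1) < 1 := by
      have := mul_lt_mul_of_pos_right h2 h1
      rwa [inv_mul_cancel₀ h1.ne'] at this
    nlinarith
  obtain ⟨N, hN1, hN2⟩ := (((Filter.eventually_all_finset X).2 fun a ha =>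
    Filter.eventually_all.2 fun c => Filter.eventually_all.2 fun i => hE1 a ha c i).and
    (Filter.eventually_all.2 fun c => Filter.eventually_all.2 fun i => hE2 c i)).exists
  -- the approximation
  choose R hR1 hR2 using fun i : Fin m =>
    hR k X (fun a => U a i) (UI i) hp hI (fun a ha => (hX a ha).1) hB.isH N
  have hcf : ∀ (h : RatFunc k →+* LaurentSeries k) (j : Ω →+* Λ)
      (ρ : (Λ ≃ₐ[LaurentSeries k] Λ) →* (Ω ≃ₐ[RatFunc k] Ω)), Comp h j ρ → ∀ c,
      j (s c (β (∑ i, algebraMap (RatFunc k) L (R i) * x i))) =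
        ∑ i, lΛ Λ (h (R i)) * j (β (c • x i)) := by
    intro h j ρ hc c
    rw [hβγ, hs, Finset.smul_sum, map_sum, map_sum]
    refine Finset.sum_congr rfl fun i _ => ?_
    rw [smul_mul', hG.comm, map_mul, map_mul, hβ, hc.alg]
  have hν1 : ν 1 = 1 := by simpa [cΛ] using νc 1 one_ne_zero
  have hνs : ∀ g : Fin m → Λ, (∀ i, ν (g i) < 1) → ν (∑ i, g i) < 1 := by
    intro g hg
    refine Finset.sum_induction g (fun z => ν z < 1) (fun a b ha hb => ?_) ?_ fun i _ => hg i
    · exact (νa a b).trans_lt (max_lt ha hb)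
    · rw [νz]; exact one_pos
  have hz : ∀ c, ∃ y : Λ, y ^ r =
      jI (s c (β (∑ i, algebraMap (RatFunc k) L (R i) * x i))) * (e c)⁻¹ ∧ ν (y - 1) < 1 := by
    intro c
    refine hroot _ ?_
    rw [hcf hI jI ρI hB.comp]
    have h1 : (∑ i, lΛ Λ (hI (R i)) * jI (β (c • x i))) * (e c)⁻¹ - 1 =
        ∑ i, lΛ Λ (hI (R i) - UI i) * jI (β (c • x i)) * (e c)⁻¹ := by
      have h2 : (1 : Λ) = (∑ i, lΛ Λ (UI i) * jI (β (c • x i))) * (e c)⁻¹ := by
        rw [hUI', mul_inv_cancel₀ (he c)]
      rw [h2, ← sub_mul, ← Finset.sum_sub_distrib, Finset.sum_mul]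
      refine Finset.sum_congr rfl fun i _ => ?_
      rw [← sub_mul]
      simp only [lΛ, map_sub]
    rw [h1]
    exact hνs _ fun i => hN2 c i _ (hR2 i)
  choose y' hy1 hy2 using hz
  have hy0 : ∀ c, y' c ≠ 0 := by
    intro c h
    have h1 := hy2 c
    rw [h, zero_sub] at h1
    have h2 : ν (-1) = 1 := by
      have := νc (-1) (neg_ne_zero.2 one_ne_zero)
      simpa [cΛ] using this
    rw [h2] at h1
    exact lt_irrefl _ h1
  have hje : ∀ c, jI (s c (β (∑ i, algebraMap (RatFunc k) L (R i) * x i))) = e c * y' c ^ r := by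
    intro c
    rw [hy1 c, mul_comm, inv_mul_cancel_right₀ (he c)]
  refine ⟨β (∑ i, algebraMap (RatFunc k) L (R i) * x i), ?_, ?_, ?_, y', hy0, ?_, hje⟩
  · intro h
    have := hje 1
    rw [h, map_zero, map_zero] at this
    exact (mul_ne_zero (he 1) (pow_ne_zero r (hy0 1))) this.symm
  · intro γ hγ
    rw [hβγ, hγ, one_smul]
  · intro a ha c
    have h3 : HahnSeries.single (n a c) (1 : k) * HahnSeries.single (-n a c) (1 : k) =
        (1 : LaurentSeries k) := by
      rw [HahnSeries.single_mul_single, add_neg_cancel, mul_one]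
      rfl
    have h1 : ∑ i, hp a (R i) * W a (c • x i) = HahnSeries.single (n a c) (1 : k) *
        (1 + ∑ i, (hp a (R i) - U a i) *
          (W a (c • x i) * HahnSeries.single (-n a c) (1 : k))) := by
      rw [mul_add, mul_one, Finset.mul_sum]
      have h4 : ∀ i, HahnSeries.single (n a c) (1 : k) * ((hp a (R i) - U a i) *
          (W a (c • x i) * HahnSeries.single (-n a c) (1 : k))) =
          hp a (R i) * W a (c • x i) - U a i * W a (c • x i) := by
        intro i
        linear_combination ((hp a (R i) - U a i) * W a (c • x i)) * h3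
      rw [Finset.sum_congr rfl fun i _ => h4 i, Finset.sum_sub_distrib, hU a ha c]
      ring
    have h2 := VWA_one k (∑ i, (hp a (R i) - U a i) *
      (W a (c • x i) * HahnSeries.single (-n a c) (1 : k))) (fun l hl => by
        rw [HahnSeries.coeff_sum]
        exact Finset.sum_eq_zero fun i _ => hN1 a ha c i _ (hR1 i a ha) l hl)
    refine ⟨_, h2.1, h2.2, ?_⟩
    rw [hcf (hp a) (jp a) (ρp a) (hX a ha).2, ← h1]
    simp only [lΛ, map_sum, map_mul]
    refine Finset.sum_congr rfl fun i _ => ?_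
    rw [← hW a _ ha]
  · intro δ c
    apply huniq
    · have h1 := νδ δ (y' c - 1)
      rw [map_sub, map_one] at h1
      rw [h1]
      exact hy2 c
    · exact hy2 _
    · rw [← map_pow, hy1, hy1, map_mul, map_inv₀, heq, ← hB.comp.res]
      congr 2
      rw [hβγ, hβγ, hβγ, hs, hs, smul_smul]

end MP7b0bad.SV
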