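import Pool.Agent.Work.MP_7b0bad_ag.SV.VStmts2

set_option autoImplicit false

namespace MP7b0bad.SV

open Polynomial

/-- the valuation -/
noncomputable abbrev VWR_v (k : Type) [Field k] : AddValuation (LaurentSeries k) (WithTop ℤ) :=
  HahnSeries.addVal ℤ k

theorem VWR_le {k : Type} [Field k] (z : LaurentSeries k) (n : ℤ) :
    (n : WithTop ℤ) ≤ VWR_v k z ↔ ∀ m < n, z.coeff m = 0 := by
  rw [HahnSeries.addVal_apply, HahnSeries.le_orderTop_iff_forall]
  simp only [WithTop.coe_lt_coe]

theorem VWR_sep {k : Type} [Field k] {ι : Type} (h : ι → RatFunc k →+* LaurentSeries k) (i : ι)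
    (g : RatFunc k) (hi : VWR_v k (h i g) < 0) (hj : ∀ j, j ≠ i → 0 < VWR_v k (h j g)) (M : ℕ) :
    ∃ z : RatFunc k, ((M : ℤ) : WithTop ℤ) ≤ VWR_v k (h i z - 1) ∧
      ∀ j, j ≠ i → ((M : ℤ) : WithTop ℤ) ≤ VWR_v k (h j z) := by
  set n : ℕ := M + 1 with hn
  have h1 : ∃ a : ℤ, VWR_v k (h i g) = (a : WithTop ℤ) ∧ a ≤ -1 := by
    cases hv : VWR_v k (h i g) with
    | top => rw [hv] at hi; exact absurd hi (by simp)
    | coe a =>
      refine ⟨a, rfl, ?_⟩
      rw [hv] at hi
      have : a < 0 := by exact_mod_cast hi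
      omega
  obtain ⟨a, ha, ha1⟩ := h1
  have h2 : VWR_v k (h i g ^ n) = ((n * a : ℤ) : WithTop ℤ) := by
    rw [AddValuation.map_pow, ha, ← WithTop.coe_nsmul]
    simp
  have hna : (n : ℤ) * a ≤ -(M : ℤ) - 1 := by
    have : (0 : ℤ) ≤ n := by positivity
    nlinarith
  have h3 : VWR_v k (1 + h i g ^ n) = ((n * a : ℤ) : WithTop ℤ) := by
    rw [AddValuation.map_add_eq_of_lt_right, h2]
    rw [h2, AddValuation.map_one]
    exact_mod_cast (by omega : (n : ℤ) * a < 0)
  have h4 : (1 : RatFunc k) + g ^ n ≠ 0 := by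
    intro h0
    have h5 : h i (1 + g ^ n) = 0 := by rw [h0, map_zero]
    rw [map_add, map_one, map_pow] at h5
    rw [h5, AddValuation.map_zero] at h3
    exact absurd h3 WithTop.top_ne_coe
  refine ⟨g ^ n / (1 + g ^ n), ?_, ?_⟩
  · have h5 : h i (g ^ n / (1 + g ^ n)) - 1 = -(1 + h i g ^ n)⁻¹ := by
      have h6 : 1 + h i g ^ n ≠ 0 := by
        have h7 := (map_ne_zero (h i)).2 h4
        rwa [map_add, map_one, map_pow] at h7
      rw [map_div₀, map_add, map_one, map_pow]
      field_simp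
      ring
    rw [h5, AddValuation.map_neg, AddValuation.map_inv, h3]
    have h6 : -(((n * a : ℤ) : WithTop ℤ)) = ((-(n * a) : ℤ) : WithTop ℤ) := rfl
    rw [h6]
    exact_mod_cast (by omega : (M : ℤ) ≤ -(n * a))
  · intro j hji
    have h5 : (((n : ℤ)) : WithTop ℤ) ≤ VWR_v k (h j g ^ n) := by
      rw [AddValuation.map_pow]
      cases hv : VWR_v k (h j g) with
      | top => 
        have : n • (⊤ : WithTop ℤ) = ⊤ := by
          rw [hn, succ_nsmul]; simp
        rw [this]; exact le_top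
      | coe b =>
        have hb := hj j hji
        rw [hv] at hb
        have hb1 : 0 < b := by exact_mod_cast hb
        rw [← WithTop.coe_nsmul]
        have : (n : ℤ) ≤ n • b := by
          rw [nsmul_eq_mul]
          have : (0 : ℤ) ≤ n := by positivity
          nlinarith
        exact_mod_cast this
    have h6 : VWR_v k (1 + h j g ^ n) = 0 := by
      rw [AddValuation.map_add_eq_of_lt_left, AddValuation.map_one]
      rw [AddValuation.map_one]
      refine lt_of_lt_of_le ?_ h5
      exact_mod_cast (by omega : (0 : ℤ) < n)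
    rw [map_div₀, map_add, map_one, map_pow, div_eq_mul_inv, AddValuation.map_mul,
      AddValuation.map_inv, h6, neg_zero, add_zero]
    refine le_trans ?_ h5
    exact_mod_cast (by omega : (M : ℤ) ≤ n)

/-- local approximation -/
theorem VWR_loc {k : Type} [Field k] (h : RatFunc k →+* LaurentSeries k)
    (hc : ∀ c : k, h (RatFunc.C c) = HahnSeries.C c) (π : RatFunc k)
    (hπ : h π = HahnSeries.single (1 : ℤ) (1 : k)) (u : LaurentSeries k) (N : ℤ) :
    ∃ T : RatFunc k, (N : WithTop ℤ) ≤ VWR_v k (h T - u) := by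
  classical
  have hz : ∀ n : ℤ, h (π ^ n) = HahnSeries.single n (1 : k) := by
    have hnat : ∀ n : ℕ, h (π ^ n) = HahnSeries.single (n : ℤ) (1 : k) := by
      intro n
      rw [map_pow, hπ, HahnSeries.single_pow, one_pow]
      simp
    intro n
    rcases n.eq_nat_or_neg with ⟨m, rfl | rfl⟩
    · rw [zpow_natCast, hnat]
    · rw [zpow_neg, zpow_natCast, map_inv₀, hnat, HahnSeries.inv_single, inv_one]
  obtain ⟨m₀, hm₀⟩ : ∃ m₀ : ℤ, ∀ m < m₀, u.coeff m = 0 :=
    ⟨u.order, fun m hm => HahnSeries.coeff_eq_zero_of_lt_order hm⟩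
  refine ⟨∑ n ∈ Finset.Ico m₀ N, RatFunc.C (u.coeff n) * π ^ n, ?_⟩
  rw [VWR_le]
  intro m hm
  rw [map_sum, HahnSeries.coeff_sub, HahnSeries.coeff_sum]
  have h1 : ∀ n ∈ Finset.Ico m₀ N, (h (RatFunc.C (u.coeff n) * π ^ n)).coeff m =
      if m = n then u.coeff n else 0 := by
    intro n _
    rw [map_mul, hc, hz, HahnSeries.C_apply, HahnSeries.single_mul_single, zero_add, mul_one,
      HahnSeries.coeff_single]
    split_ifs <;> rfl
  rw [Finset.sum_congr rfl h1, Finset.sum_ite_eq]
  split_ifs with hmem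
  · rw [sub_self]
  · rw [Finset.mem_Ico, not_and_or] at hmem
    rw [hm₀ m (by omega), sub_zero]

theorem VWR_lb {k : Type} [Field k] (z : LaurentSeries k) : ∃ b : ℤ, (b : WithTop ℤ) ≤ VWR_v k z := by
  refine ⟨z.order, ?_⟩
  rw [VWR_le]
  exact fun m hm => HahnSeries.coeff_eq_zero_of_lt_order hm

/-- weak approximation for a finite family of places -/
theorem VWR_main {k : Type} [Field k] {ι : Type} [Fintype ι]
    (h : ι → RatFunc k →+* LaurentSeries k)
    (hc : ∀ i (c : k), h i (RatFunc.C c) = HahnSeries.C c) (π : ι → RatFunc k)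
    (hπ : ∀ i, h i (π i) = HahnSeries.single (1 : ℤ) (1 : k)) (g : ι → RatFunc k)
    (hi : ∀ i, VWR_v k (h i (g i)) < 0) (hj : ∀ i j, j ≠ i → 0 < VWR_v k (h j (g i)))
    (u : ι → LaurentSeries k) (N : ℤ) :
    ∃ R : RatFunc k, ∀ i, (N : WithTop ℤ) ≤ VWR_v k (h i R - u i) := by
  classical
  choose T hT using fun i => VWR_loc (h i) (hc i) (π i) (hπ i) (u i) N
  choose b hb using fun i j => VWR_lb (h j (T i))
  set M : ℕ := (|N| + ∑ i, ∑ j, |b i j|).toNat with hM
  have hMb : ∀ i j, N ≤ (M : ℤ) + b i j := by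
    intro i j
    have h1 : |b i j| ≤ ∑ i, ∑ j, |b i j| := by
      refine le_trans ?_ (Finset.single_le_sum (f := fun i => ∑ j, |b i j|)
        (fun i _ => Finset.sum_nonneg fun j _ => abs_nonneg _) (Finset.mem_univ i))
      exact Finset.single_le_sum (f := fun j => |b i j|) (fun j _ => abs_nonneg _)
        (Finset.mem_univ j)
    have h2 : |N| + ∑ i, ∑ j, |b i j| ≤ (M : ℤ) := Int.self_le_toNat _
    have h3 := neg_abs_le (b i j)
    have h4 := le_abs_self N
    omega
  choose z hz1 hz2 using fun i => VWR_sep h i (g i) (hi i) (hj i) M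
  have hmul : ∀ (i j : ι) (w : LaurentSeries k), ((M : ℤ) : WithTop ℤ) ≤ VWR_v k w →
      (N : WithTop ℤ) ≤ VWR_v k (w * h j (T i)) := by
    intro i j w hw
    rw [AddValuation.map_mul]
    refine le_trans ?_ (add_le_add hw (hb i j))
    exact_mod_cast hMb i j
  refine ⟨∑ i, z i * T i, fun j => ?_⟩
  have h1 : h j (∑ i, z i * T i) - u j = (∑ i ∈ Finset.univ.erase j, h j (z i) * h j (T i)) +
      ((h j (z j) - 1) * h j (T j) + (h j (T j) - u j)) := by
    rw [map_sum, ← Finset.add_sum_erase _ _ (Finset.mem_univ j)]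
    simp only [map_mul]
    ring
  rw [h1]
  refine AddValuation.map_le_add _ (AddValuation.map_le_sum _ fun i hi' => ?_)
    (AddValuation.map_le_add _ ?_ (hT j))
  · exact hmul i j _ (hz2 i j (Finset.ne_of_mem_erase hi').symm)
  · exact hmul j j _ (hz1 j)

theorem VWR_prod {k : Type} [Field k] {β : Type} (S : Finset β) (f : β → LaurentSeries k)
    (n : β → ℤ) (hf : ∀ b ∈ S, VWR_v k (f b) = (n b : WithTop ℤ)) :
    VWR_v k (∏ b ∈ S, f b) = ((∑ b ∈ S, n b : ℤ) : WithTop ℤ) := by
  classical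
  induction S using Finset.induction_on with
  | empty => simp
  | insert b S hb ih =>
    rw [Finset.prod_insert hb, Finset.sum_insert hb, AddValuation.map_mul,
      hf b (Finset.mem_insert_self _ _), ih fun c hc => hf c (Finset.mem_insert_of_mem hc)]
    rfl

theorem VWR_single {k : Type} [Field k] (n : ℤ) :
    VWR_v k (HahnSeries.single n (1 : k)) = (n : WithTop ℤ) := by
  rw [HahnSeries.addVal_apply, HahnSeries.orderTop_single one_ne_zero]

theorem VWR_C {k : Type} [Field k] (c : k) (hc : c ≠ 0) :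
    VWR_v k (HahnSeries.C c) = ((0 : ℤ) : WithTop ℤ) := by
  rw [HahnSeries.addVal_apply, HahnSeries.C_apply, HahnSeries.orderTop_single hc]

theorem VWR_C_ge {k : Type} [Field k] (c : k) :
    ((0 : ℤ) : WithTop ℤ) ≤ VWR_v k (HahnSeries.C c) := by
  by_cases hc : c = 0
  · rw [hc, map_zero, AddValuation.map_zero]; exact le_top
  · rw [VWR_C c hc]

/-- valuation of `x - b` at `a` -/
theorem VWR_ab {k : Type} [Field k] [DecidableEq k] (h : RatFunc k →+* LaurentSeries k) (a : k)
    (hh : IsH h (pA a)) (b : k) :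
    VWR_v k (h (RatFunc.X - RatFunc.C b)) = ((if b = a then 1 else 0 : ℤ) : WithTop ℤ) := by
  have h1 : h (RatFunc.X - RatFunc.C b) = HahnSeries.C (a - b) +
      HahnSeries.single (1 : ℤ) (1 : k) := by
    rw [map_sub, hh.X, hh.cst, pA, map_sub]
    ring
  rw [h1]
  split_ifs with hba
  · rw [hba, sub_self, map_zero, zero_add, VWR_single]
  · have h2 : a - b ≠ 0 := sub_ne_zero.2 (Ne.symm hba)
    rw [AddValuation.map_add_eq_of_lt_left, VWR_C _ h2]
    rw [VWR_C _ h2, VWR_single]
    exact_mod_cast (by norm_num : (0 : ℤ) < 1)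

/-- valuation of `x - b` at infinity -/
theorem VWR_Ib {k : Type} [Field k] (h : RatFunc k →+* LaurentSeries k)
    (hh : IsH h (pI k)) (b : k) :
    VWR_v k (h (RatFunc.X - RatFunc.C b)) = ((-1 : ℤ) : WithTop ℤ) := by
  have h1 : h (RatFunc.X - RatFunc.C b) = HahnSeries.single (-1 : ℤ) (1 : k) +
      HahnSeries.C (-b) := by
    rw [map_sub, hh.X, hh.cst, pI, map_neg]
    ring
  rw [h1, AddValuation.map_add_eq_of_lt_left, VWR_single]
  rw [VWR_single]
  refine lt_of_lt_of_le ?_ (VWR_C_ge _)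
  exact_mod_cast (by norm_num : (-1 : ℤ) < 0)

theorem prf_VWR : VWR := by
  intro k _ _ X u uI hp hI hX hInf N
  classical
  set Y : k → RatFunc k := fun b => RatFunc.X - RatFunc.C b with hY
  let h : Option {a // a ∈ X} → RatFunc k →+* LaurentSeries k := fun o =>
    match o with
    | none => hI
    | some a => hp a
  let π : Option {a // a ∈ X} → RatFunc k := fun o =>
    match o with
    | none => RatFunc.X⁻¹
    | some a => Y a
  let g : Option {a // a ∈ X} → RatFunc k := fun o =>
    match o with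
    | none => Y 0 * ∏ b ∈ X, Y b
    | some a => (∏ b ∈ X.erase a, Y b) / Y a ^ X.card
  let uu : Option {a // a ∈ X} → LaurentSeries k := fun o =>
    match o with
    | none => uI
    | some a => u a
  have hval : ∀ a ∈ X, ∀ b, VWR_v k (hp a (Y b)) = ((if b = a then 1 else 0 : ℤ) : WithTop ℤ) :=
    fun a ha b => VWR_ab (hp a) a (hX a ha) b
  have hvalI : ∀ b, VWR_v k (hI (Y b)) = ((-1 : ℤ) : WithTop ℤ) := fun b => VWR_Ib hI hInf b
  -- valuations of g
  have g0I : VWR_v k (hI (g none)) = ((-1 - X.card : ℤ) : WithTop ℤ) := by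
    change VWR_v k (hI (Y 0 * ∏ b ∈ X, Y b)) = _
    rw [map_mul, map_prod, AddValuation.map_mul, hvalI,
      VWR_prod X (fun b => hI (Y b)) (fun _ => -1) (fun b _ => hvalI b)]
    rw [← WithTop.coe_add]
    congr 1
    simp
    ring
  have g0a : ∀ a ∈ X, 0 < VWR_v k (hp a (g none)) := by
    intro a ha
    change 0 < VWR_v k (hp a (Y 0 * ∏ b ∈ X, Y b))
    rw [map_mul, map_prod, AddValuation.map_mul, hval a ha,
      VWR_prod X (fun b => hp a (Y b)) (fun b => if b = a then 1 else 0)
        (fun b _ => hval a ha b), Finset.sum_ite_eq', if_pos ha, ← WithTop.coe_add]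
    have : (0 : ℤ) < (if (0 : k) = a then 1 else 0) + 1 := by split_ifs <;> norm_num
    exact_mod_cast this
  have gaa : ∀ (a : {a // a ∈ X}), ∀ a' ∈ X, VWR_v k (hp a' (g (some a))) =
      (((if a' = a then 0 else 1) - (X.card : ℤ) * (if a' = a then 1 else 0) : ℤ) :
        WithTop ℤ) := by
    intro a a' ha'
    change VWR_v k (hp a' ((∏ b ∈ X.erase a, Y b) / Y a ^ X.card)) = _
    rw [map_div₀, map_prod, map_pow, AddValuation.map_div, AddValuation.map_pow, hval a' ha',
      VWR_prod (X.erase a) (fun b => hp a' (Y b)) (fun b => if b = a' then 1 else 0)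
        (fun b _ => hval a' ha' b), Finset.sum_ite_eq', ← WithTop.coe_nsmul]
    have h1 : (if a' ∈ X.erase (a : k) then (1 : ℤ) else 0) = if a' = a then 0 else 1 := by
      by_cases h : a' = a
      · rw [if_pos h, if_neg]
        rw [h]
        exact Finset.notMem_erase _ _
      · rw [if_neg h, if_pos]
        exact Finset.mem_erase.2 ⟨h, ha'⟩
    rw [h1]
    have h2 : ((a : k) = a') = (a' = (a : k)) := propext eq_comm
    simp only [h2, nsmul_eq_mul]
    rfl
  have gaI : ∀ (a : {a // a ∈ X}), VWR_v k (hI (g (some a))) = ((1 : ℤ) : WithTop ℤ) := by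
    intro a
    change VWR_v k (hI ((∏ b ∈ X.erase a, Y b) / Y a ^ X.card)) = _
    rw [map_div₀, map_prod, map_pow, AddValuation.map_div, AddValuation.map_pow, hvalI,
      VWR_prod (X.erase a) (fun b => hI (Y b)) (fun b => -1)
        (fun b _ => hvalI b), ← WithTop.coe_nsmul, Finset.sum_const, Finset.card_erase_of_mem a.2]
    have hpos : 0 < X.card := Finset.card_pos.2 ⟨a, a.2⟩
    have h1 : ((X.card - 1) • (-1 : ℤ)) - X.card • (-1 : ℤ) = 1 := by
      rw [nsmul_eq_mul, nsmul_eq_mul]
      push_cast [Nat.cast_sub hpos]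
      ring
    exact congrArg (fun t : ℤ => (t : WithTop ℤ)) h1
  obtain ⟨R, hR⟩ := VWR_main h (by
      rintro (_ | a) c
      · exact hInf.cst c
      · exact (hX a a.2).cst c) π (by
      rintro (_ | a)
      · change hI (RatFunc.X⁻¹) = _
        rw [map_inv₀, hInf.X, pI, HahnSeries.inv_single, inv_one]
        norm_num
      · change hp a (RatFunc.X - RatFunc.C (a : k)) = _
        rw [map_sub, (hX a a.2).X, (hX a a.2).cst, pA]
        ring) g (by
      rintro (_ | a)
      · change VWR_v k (hI (g none)) < 0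
        rw [g0I]
        exact_mod_cast (by omega : (-1 - X.card : ℤ) < 0)
      · change VWR_v k (hp a (g (some a))) < 0
        rw [gaa a a a.2, if_pos rfl, if_pos rfl]
        have hpos : 0 < X.card := Finset.card_pos.2 ⟨a, a.2⟩
        exact_mod_cast (by omega : (0 - (X.card : ℤ) * 1) < 0)) (by
      rintro (_ | a) (_ | a') hne
      · exact absurd rfl hne
      · exact g0a a' a'.2
      · change 0 < VWR_v k (hI (g (some a)))
        rw [gaI]
        exact_mod_cast (by norm_num : (0 : ℤ) < 1)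
      · change 0 < VWR_v k (hp a' (g (some a)))
        have h1 : (a' : k) ≠ a := fun h => hne (by rw [Subtype.ext h])
        rw [gaa a a' a'.2, if_neg h1, if_neg h1]
        exact_mod_cast (by norm_num : (0 : ℤ) < 1 - (X.card : ℤ) * 0)) uu N
  refine ⟨R, fun a ha => ?_, ?_⟩
  · have h1 := hR (some ⟨a, ha⟩)
    rw [VWR_le] at h1
    exact h1
  · have h1 := hR none
    rw [VWR_le] at h1
    exact h1

end MP7b0bad.SV
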