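import Pool.Agent.Work.MP_7b0bad_ag.SV.VAP
import Pool.Agent.Work.MP_7b0bad_ag.SV.VAct
import Pool.Agent.Work.MP_7b0bad_ag.SV.VAsc
import Pool.Agent.Work.MP_7b0bad_ag.SV.VAvg
import Pool.Agent.Work.MP_7b0bad_ag.SV.VBC
import Pool.Agent.Work.MP_7b0bad_ag.SV.VBase
import Pool.Agent.Work.MP_7b0bad_ag.SV.VBc0
import Pool.Agent.Work.MP_7b0bad_ag.SV.VBcI
import Pool.Agent.Work.MP_7b0bad_ag.SV.VBcU
import Pool.Agent.Work.MP_7b0bad_ag.SV.VCR
import Pool.Agent.Work.MP_7b0bad_ag.SV.VCenG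
import Pool.Agent.Work.MP_7b0bad_ag.SV.VCp
import Pool.Agent.Work.MP_7b0bad_ag.SV.VCyc
import Pool.Agent.Work.MP_7b0bad_ag.SV.VFabG
import Pool.Agent.Work.MP_7b0bad_ag.SV.VFld
import Pool.Agent.Work.MP_7b0bad_ag.SV.VGen
import Pool.Agent.Work.MP_7b0bad_ag.SV.VGrp
import Pool.Agent.Work.MP_7b0bad_ag.SV.VH
import Pool.Agent.Work.MP_7b0bad_ag.SV.VHom
import Pool.Agent.Work.MP_7b0bad_ag.SV.VJG
import Pool.Agent.Work.MP_7b0bad_ag.SV.VKum
import Pool.Agent.Work.MP_7b0bad_ag.SV.VKumL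
import Pool.Agent.Work.MP_7b0bad_ag.SV.VLL
import Pool.Agent.Work.MP_7b0bad_ag.SV.VLS
import Pool.Agent.Work.MP_7b0bad_ag.SV.VLT
import Pool.Agent.Work.MP_7b0bad_ag.SV.VLW
import Pool.Agent.Work.MP_7b0bad_ag.SV.VLift
import Pool.Agent.Work.MP_7b0bad_ag.SV.VLoc
import Pool.Agent.Work.MP_7b0bad_ag.SV.VLv
import Pool.Agent.Work.MP_7b0bad_ag.SV.VMov
import Pool.Agent.Work.MP_7b0bad_ag.SV.VMv1
import Pool.Agent.Work.MP_7b0bad_ag.SV.VMv2
import Pool.Agent.Work.MP_7b0bad_ag.SV.VNaq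
import Pool.Agent.Work.MP_7b0bad_ag.SV.VNor
import Pool.Agent.Work.MP_7b0bad_ag.SV.VNrm
import Pool.Agent.Work.MP_7b0bad_ag.SV.VPc
import Pool.Agent.Work.MP_7b0bad_ag.SV.VPl
import Pool.Agent.Work.MP_7b0bad_ag.SV.VQuo
import Pool.Agent.Work.MP_7b0bad_ag.SV.VRAx
import Pool.Agent.Work.MP_7b0bad_ag.SV.VRC
import Pool.Agent.Work.MP_7b0bad_ag.SV.VRG
import Pool.Agent.Work.MP_7b0bad_ag.SV.VRam
import Pool.Agent.Work.MP_7b0bad_ag.SV.VRg
import Pool.Agent.Work.MP_7b0bad_ag.SV.VSpp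
import Pool.Agent.Work.MP_7b0bad_ag.SV.VSpr
import Pool.Agent.Work.MP_7b0bad_ag.SV.VSt
import Pool.Agent.Work.MP_7b0bad_ag.SV.VStI
import Pool.Agent.Work.MP_7b0bad_ag.SV.VSub
import Pool.Agent.Work.MP_7b0bad_ag.SV.VSur
import Pool.Agent.Work.MP_7b0bad_ag.SV.VTw
import Pool.Agent.Work.MP_7b0bad_ag.SV.VTwC
import Pool.Agent.Work.MP_7b0bad_ag.SV.VUp
import Pool.Agent.Work.MP_7b0bad_ag.SV.VWA
import Pool.Agent.Work.MP_7b0bad_ag.SV.VWR
import Pool.Agent.Work.MP_7b0bad_ag.SV.JAll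
import Pool.Agent.Work.MP_7b0bad_ag.AP.All
import Pool.Agent.Work.MP_7b0bad_ag.Bd.B17
import Pool.Agent.Work.MP_7b0bad_ag.SV.IELS
import Pool.Agent.Work.MP_7b0bad_ag.SV.ISVn
import Pool.Agent.Work.MP_7b0bad_ag.SV.ISVc
import Pool.Agent.Work.MP_7b0bad_ag.SV.ISVd
import Pool.Agent.Work.MP_7b0bad_ag.SV.ISVtw
import Pool.Agent.Work.MP_7b0bad_ag.SV.IQLLG
import Pool.Agent.Work.MP_7b0bad_ag.SV.IQR2G

set_option autoImplicit false

namespace MP7b0bad.SV

theorem all_ELS : ELS := prf_ELS (prf_SVd prf_SVn) prf_SVc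

theorem all_VELS : VELS := by
  intro k _ _ p _ _ Γ _ _ _ E _ _ _ hE hd
  obtain ⟨φ, h1, h2⟩ := all_ELS k Γ E hd hE
  exact ⟨φ, h1, fun a ha => (h2 a ha).2⟩

theorem all_APOrd : APOrd := prf_APOrd

theorem all_QLLG : QLLG := prf_QLLG (prf_SVtw (prf_SVd prf_SVn)) all_QELN all_QASN all_YComp

theorem all_QR2G : QR2G := prf_QR2G all_QLLG all_QELN all_QASN all_QDenV all_QComp all_QSub

theorem all_VPl : VPl := prf_VPl
theorem all_VFld : VFld := prf_VFld
theorem all_VH : VH := prf_VH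
theorem all_VRg : VRg := prf_VRg all_VPl all_VFld all_VH all_YEt
theorem all_VAP : VAP := prf_VAP all_APC all_APOrd all_VRg all_VFld all_ELS all_YRoot
theorem all_VAct : VAct := prf_VAct
theorem all_VAsc : VAsc := prf_VAsc all_VFld all_VRg
theorem all_VAvg : VAvg := prf_VAvg
theorem all_VBase : VBase := prf_VBase all_VPl all_VH
theorem all_VHom : VHom := prf_VHom
theorem all_VRC : VRC := prf_VRC all_VHom
theorem all_VCp : VCp := prf_VCp
theorem all_VCR : VCR := prf_VCR all_VPl all_VCp all_VFld all_VRg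
theorem all_VNrm : VNrm := prf_VNrm
theorem all_VKum : VKum := prf_VKum
theorem all_VNaq : VNaq := prf_VNaq all_VPl all_VH all_VKum
theorem all_VSur : VSur := prf_VSur all_VNrm all_VNaq
theorem all_VSub : VSub := prf_VSub
theorem all_VUp : VUp := prf_VUp all_VPl all_VCp all_VH all_VSub
theorem all_VBcU : VBcU := prf_VBcU all_VUp all_VH all_VCp
theorem all_VBcI : VBcI := prf_VBcI all_VPl all_VCp all_VH
theorem all_VSt : VSt := prf_VSt all_YRoot all_YDim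
theorem all_VLT : VLT := prf_VLT all_VKum all_YRoot
theorem all_VStI : VStI := prf_VStI all_VLT
theorem all_VBC : VBC := prf_VBC all_VBase all_VRC all_VCR all_VSur all_VBcU all_VBcI all_VSt all_VStI all_VPl all_VH all_VCp all_VSub
theorem all_VBc0 : VBc0 := prf_VBc0 all_VPl all_VH all_VCp all_VBcU all_VSub
theorem all_VNor : VNor := prf_VNor
theorem all_VKumL : VKumL := prf_VKumL all_VAct all_YCross all_YH90
theorem all_VRG : VRG := prf_VRG all_VKumL
theorem all_VLift : VLift := prf_VLift all_VNor all_VRG all_VAvg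
theorem all_VRam : VRam := prf_VRam
theorem all_VTwC : VTwC := prf_VTwC all_YRoot
theorem all_VLv : VLv := prf_VLv all_VPl all_VLT all_VCp
theorem all_VCyc : VCyc := prf_VCyc all_VLT
theorem all_VCenG : VCenG := prf_VCenG all_VLift all_VRam all_VTwC all_VLv all_VCyc all_VLT all_VH all_VPl all_VCp
theorem all_VLL : VLL := prf_VLL all_VLT
theorem all_VLW : VLW := prf_VLW all_VFld all_VELS all_YRoot
theorem all_VPc : VPc := prf_VPc
theorem all_VLS : VLS := prf_VLS all_VLT all_VLW all_VPc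
theorem all_VWR : VWR := prf_VWR
theorem all_VWA : VWA := prf_VWA all_VFld all_VWR
theorem all_VTw : VTw := prf_VTw
theorem all_VLoc : VLoc := prf_VLoc all_VLS all_VWA all_VTw
theorem all_VMv1 : VMv1 := prf_VMv1 all_VH all_YRoot all_VPl all_VTw all_VWA
theorem all_VMv2 : VMv2 := prf_VMv2 all_VAP all_VTw all_VPl all_VH all_VLv
theorem all_VMov : VMov := prf_VMov all_VMv1 all_VMv2 all_VRam all_VLv all_VPl all_VH
theorem all_VFabG : VFabG := prf_VFabG all_VLift all_VLL all_VLoc all_VMov all_VLv all_VLT all_VH all_VPl all_VCp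
theorem all_VGen : VGen := prf_VGen
theorem all_VGrp : VGrp := prf_VGrp
theorem all_VJG : VJG := prf_VJG all_JJ all_VRg all_VFld all_VCp
theorem all_VQuo : VQuo := prf_VQuo all_VBase all_VRC all_VCR all_VCp
theorem all_VSpr : VSpr := prf_VSpr all_VMov all_VBc0 all_VBcI all_VSur all_VGrp all_VNrm all_VLT all_VH all_VPl all_VCp all_VSub
theorem all_VSpp : VSpp := prf_VSpp all_VAsc all_VGen all_VLW all_VSt all_VBcI all_VBcU all_VSur all_VGrp all_VNrm all_VLT all_VH all_VPl all_VCp all_VSub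
theorem all_VRAx : VRAx := prf_VRAx all_VBase all_VRC all_VCR all_VFabG all_VCenG all_VSpr all_VSpp all_VJG all_VBC all_VQuo all_QR2G

end MP7b0bad.SV
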