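import Pool.Agent.Work.MP_7b0bad_ag.SV.GRStmts

set_option autoImplicit false

/-!
# The axioms `TAx` follow from `RAx`
-/

namespace MP7b0bad
namespace GT

/-- forget the condition on the normal closure -/
theorem GAx_dat0 {p : ℕ} {G : Type} [Group G] {P : Subgroup G} {c : G} (h : Dat p P c) :
    Dat0 p P c :=
  ⟨h.pgr, h.nrm, h.cop⟩

/-- elements of a subgroup of order `r` satisfy `a ^ r = 1` -/
theorem GAx_pow {G : Type} [Group G] {r : ℕ} {Z : Subgroup G} (h : Nat.card Z = r) :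
    ∀ a ∈ Z, a ^ r = 1 := by
  intro a ha
  have h1 : (⟨a, ha⟩ : Z) ^ Nat.card Z = 1 := pow_card_eq_one'
  rw [h] at h1
  exact congrArg Subtype.val h1

/-- the axioms `TAx` -/
theorem prf_GAx (hCenR : GCenR) (hPksR : GPksR) (hF3b : GF3b) : GAx := by
  intro p _ R hR
  exact
    { quo := hR.quo
      triv := hR.triv
      bc := fun G _ _ P c m hD hm hG => hR.bc G P c m (GAx_dat0 hD) hm hG
      pks := fun G _ _ N P _ c hD h1 h2 h3 h4 => hPksR p R hR G N P c hD h1 h2 h3 h4
      f3s := fun G _ _ r N P _ c hr hrp hD h1 h2 h3 h4 =>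
        hF3b p R hR G r N P c hr hrp hD h1 h2 h3 h4
      cen := fun G _ _ r Z P _ c hr hrp hD hZ hc hq =>
        hCenR p R hR G r Z P c hr hrp hD (GAx_pow hZ) hc hq }

end GT
end MP7b0bad
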