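import Pool.Agent.Work.MP_7b0bad_ag.SV.GTStmts

set_option autoImplicit false

namespace MP7b0bad
namespace GT

/-- central subgroups of prime order `r` prime to the order of `c` -/
theorem prf_GBC : GBC := by
  intro p _ R hT G _ _ r Z P _ c hr hrp hD hZ hZc hrc hR
  obtain ⟨z, hz, hRz⟩ := hT.cen G r Z P c hr hrp hD hZ hZc hR
  have hp : p.Prime := Fact.out
  have hzc : z ∈ Subgroup.center G := hZc hz
  have hcomm : ∀ g : G, g * z = z * g := fun g => Subgroup.mem_center_iff.1 hzc g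
  have hzr : z ^ r = 1 := by
    have h1 : (⟨z, hz⟩ : Z) ^ Nat.card Z = 1 := pow_card_eq_one'
    rw [hZ] at h1
    have h2 := congrArg Subtype.val h1
    simpa using h2
  have hcz : Commute c z := hcomm c
  have hDz : Dat p P (c * z) := by
    refine ⟨hD.pgr, ?_, ?_, hD.ncl⟩
    · intro u hu
      have h1 : c * z * u * (c * z)⁻¹ = c * u * c⁻¹ := by
        have h2 : z * u = u * z := (hcomm u).symm
        calc c * z * u * (c * z)⁻¹ = c * (z * u) * z⁻¹ * c⁻¹ := by group
          _ = c * (u * z) * z⁻¹ * c⁻¹ := by rw [h2]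
          _ = c * u * c⁻¹ := by group
      rw [h1]
      exact hD.nrm u hu
    · intro hdiv
      have h1 : orderOf (c * z) ∣ orderOf c * orderOf z := hcz.orderOf_mul_dvd_mul_orderOf
      have h2 : p ∣ orderOf c * orderOf z := hdiv.trans h1
      rcases (Nat.Prime.dvd_mul hp).1 h2 with h | h
      · exact hD.cop h
      · have h3 : p ∣ r := h.trans (orderOf_dvd_of_pow_eq_one hzr)
        exact hrp ((Nat.prime_dvd_prime_iff_eq hp hr).1 h3).symm
  have hcop : Nat.Coprime (orderOf c * p) r := by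
    apply Nat.Coprime.mul_left
    · exact ((Nat.Prime.coprime_iff_not_dvd hr).2 hrc).symm
    · exact (Nat.coprime_primes hp hr).2 (fun h => hrp h.symm)
  obtain ⟨M, hM1, hM2⟩ := Nat.chineseRemainder hcop 1 0
  have hMc : M ≡ 1 [MOD orderOf c] := hM1.of_mul_right p
  have hMp : M ≡ 1 [MOD p] := hM1.of_mul_left (orderOf c)
  have hrM : r ∣ M := (Nat.modEq_zero_iff_dvd).1 hM2
  have hpM : ¬ p ∣ M := by
    intro h
    have h0 : M ≡ 0 [MOD p] := (Nat.modEq_zero_iff_dvd).2 h
    have h1 : (1 : ℕ) ≡ 0 [MOD p] := hMp.symm.trans h0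
    have h2 : p ∣ 1 := (Nat.modEq_zero_iff_dvd).1 h1
    exact hp.one_lt.ne' (Nat.dvd_one.1 h2)
  have hfin := hT.bc G P (c * z) M hDz hpM hRz
  have hpow : (c * z) ^ M = c := by
    rw [hcz.mul_pow]
    have h1 : z ^ M = 1 := by
      obtain ⟨k, hk⟩ := hrM
      rw [hk, pow_mul, hzr, one_pow]
    have h2 : c ^ M = c := by
      have h3 : c ^ M = c ^ 1 := pow_eq_pow_iff_modEq.2 hMc
      simpa using h3
    rw [h1, h2, mul_one]
  rwa [hpow] at hfin

end GT
end MP7b0bad
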