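import Pool.Agent.Work.MP_7b0bad_ag.SV.GTStmts

set_option autoImplicit false

/-!
# Central elementary abelian subgroups
-/

namespace MP7b0bad
namespace GT

/-- multiplication of the tame element by a central element of order dividing `r` -/
theorem GCen_dat {p : ℕ} [Fact p.Prime] {G : Type} [Group G] {r : ℕ} {P : Subgroup G}
    {c z : G} (hr : r.Prime) (hrp : r ≠ p) (hD : Dat p P c) (hz : z ∈ Subgroup.center G)
    (hzr : z ^ r = 1) : Dat p P (c * z) where
  pgr := hD.pgr
  nrm := by
    intro u hu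
    have h1 : c * z * u * (c * z)⁻¹ = c * u * c⁻¹ := by
      have h2 : u * z = z * u := Subgroup.mem_center_iff.1 hz u
      have h3 : z * u * z⁻¹ = u := by rw [← h2]; group
      calc c * z * u * (c * z)⁻¹ = c * (z * u * z⁻¹) * c⁻¹ := by group
        _ = c * u * c⁻¹ := by rw [h3]
    rw [h1]
    exact hD.nrm u hu
  cop := by
    intro h
    have hc : Commute c z := Subgroup.mem_center_iff.1 hz c
    have h1 : orderOf (c * z) ∣ orderOf c * orderOf z := hc.orderOf_mul_dvd_mul_orderOf
    have hp : p.Prime := Fact.out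
    rcases (hp.dvd_mul).1 (h.trans h1) with h2 | h2
    · exact hD.cop h2
    · have h3 : p ∣ r := h2.trans (orderOf_dvd_of_pow_eq_one hzr)
      exact hrp ((Nat.prime_dvd_prime_iff_eq hp hr).1 h3).symm
  ncl := hD.ncl

theorem GCen_aux (hQuo : GQuo) (p : ℕ) [Fact p.Prime]
    (R : ∀ (G : Type) [Group G], Subgroup G → Prop) (hT : TAx p R) (r : ℕ) (hr : r.Prime)
    (hrp : r ≠ p) : ∀ (n : ℕ) (G : Type) [Group G] [Finite G] (Z P : Subgroup G) [Z.Normal]
    (c : G), Dat p P c → (∀ a ∈ Z, a ^ r = 1) → Z ≤ Subgroup.center G → Nat.card Z = n →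
    R (G ⧸ Z) ((Pc P c).map (QuotientGroup.mk' Z)) → ∃ z ∈ Z, R G (Pc P (c * z)) := by
  intro n
  induction n using Nat.strong_induction_on with
  | _ n ih =>
  intro G _ _ Z P _ c hD hZr hZc hn hR
  by_cases hbot : Z = ⊥
  · subst hbot
    refine ⟨1, Subgroup.one_mem _, ?_⟩
    rw [mul_one]
    have h1 := hT.quo (G ⧸ (⊥ : Subgroup G)) G (QuotientGroup.quotientBot).toMonoidHom _
      (QuotientGroup.quotientBot).surjective hR
    rw [Subgroup.map_map] at h1
    have h2 : (QuotientGroup.quotientBot (G := G)).toMonoidHom.comp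
        (QuotientGroup.mk' (⊥ : Subgroup G)) = MonoidHom.id G := by
      ext g; rfl
    rw [h2, Subgroup.map_id] at h1
    exact h1
  · obtain ⟨a, haZ, ha1⟩ : ∃ a ∈ Z, a ≠ 1 := by
      by_contra hcon
      push Not at hcon
      exact hbot ((Subgroup.eq_bot_iff_forall _).2 hcon)
    have hao : orderOf a = r := orderOf_eq_prime (hZr a haZ) ha1 (hp := ⟨hr⟩)
    have hZ1Z : Subgroup.zpowers a ≤ Z := (Subgroup.zpowers_le).2 haZ
    have hZ1c : Subgroup.zpowers a ≤ Subgroup.center G := hZ1Z.trans hZc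
    haveI hN1 : (Subgroup.zpowers a).Normal := by
      constructor
      intro x hx g
      have h2 : g * x = x * g := Subgroup.mem_center_iff.1 (hZ1c hx) g
      rw [h2, mul_assoc, mul_inv_cancel, mul_one]
      exact hx
    have hcard : Nat.card (Subgroup.zpowers a) = r := by rw [Nat.card_zpowers, hao]
    have hs1 : Function.Surjective (QuotientGroup.mk' (Subgroup.zpowers a)) :=
      QuotientGroup.mk'_surjective _
    haveI hN2 : (Z.map (QuotientGroup.mk' (Subgroup.zpowers a))).Normal :=
      Subgroup.Normal.map inferInstance _ hs1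
    obtain ⟨hD', hPc'⟩ := hQuo p G _ (QuotientGroup.mk' (Subgroup.zpowers a)) P c hs1 hD
    -- the third isomorphism theorem
    have hR' : R ((G ⧸ Subgroup.zpowers a) ⧸ Z.map (QuotientGroup.mk' (Subgroup.zpowers a)))
        ((Pc (P.map (QuotientGroup.mk' (Subgroup.zpowers a)))
          (QuotientGroup.mk' (Subgroup.zpowers a) c)).map
          (QuotientGroup.mk' (Z.map (QuotientGroup.mk' (Subgroup.zpowers a))))) := by
      have hker : ∀ z ∈ Z, ((QuotientGroup.mk' (Z.map (QuotientGroup.mk' (Subgroup.zpowers a)))).comp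
          (QuotientGroup.mk' (Subgroup.zpowers a))) z = 1 := by
        intro z hz
        rw [MonoidHom.comp_apply, ← MonoidHom.mem_ker, QuotientGroup.ker_mk']
        exact Subgroup.mem_map_of_mem _ hz
      have h1 := hT.quo (G ⧸ Z) _ (QuotientGroup.lift Z _ hker) _ (by
        intro y
        obtain ⟨y1, rfl⟩ := QuotientGroup.mk'_surjective _ y
        obtain ⟨y2, rfl⟩ := hs1 y1
        exact ⟨(y2 : G ⧸ Z), rfl⟩) hR
      rw [Subgroup.map_map] at h1
      have h2 : (QuotientGroup.lift Z _ hker).comp (QuotientGroup.mk' Z) =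
          ((QuotientGroup.mk' (Z.map (QuotientGroup.mk' (Subgroup.zpowers a)))).comp
          (QuotientGroup.mk' (Subgroup.zpowers a))) := by
        ext g; rfl
      rw [h2, ← Subgroup.map_map, hPc'] at h1
      exact h1
    have hlt : Nat.card (Z.map (QuotientGroup.mk' (Subgroup.zpowers a))) < n := by
      have h1 : Nat.card (Z.map (QuotientGroup.mk' (Subgroup.zpowers a))) ≤ Nat.card Z :=
        Nat.card_le_card_of_surjective _ (MonoidHom.subgroupMap_surjective _ Z)
      rw [← hn]
      refine lt_of_le_of_ne h1 ?_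
      intro heq
      have h2 := (Nat.bijective_iff_surjective_and_card
        (((QuotientGroup.mk' (Subgroup.zpowers a))).subgroupMap Z)).2
        ⟨MonoidHom.subgroupMap_surjective _ Z, heq.symm⟩
      have h3 : (⟨a, haZ⟩ : Z) = 1 := by
        apply h2.1
        rw [map_one]
        ext
        change QuotientGroup.mk' (Subgroup.zpowers a) a = 1
        rw [← MonoidHom.mem_ker, QuotientGroup.ker_mk']
        exact Subgroup.mem_zpowers a
      exact ha1 (congrArg Subtype.val h3)
    obtain ⟨w, hw, hRw⟩ := ih _ hlt (G ⧸ Subgroup.zpowers a)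
      (Z.map (QuotientGroup.mk' (Subgroup.zpowers a)))
      (P.map (QuotientGroup.mk' (Subgroup.zpowers a)))
      (QuotientGroup.mk' (Subgroup.zpowers a) c) hD'
      (by
        rintro _ ⟨z, hz, rfl⟩
        rw [← map_pow, hZr z hz, map_one])
      (by
        rintro _ ⟨z, hz, rfl⟩
        rw [Subgroup.mem_center_iff]
        intro g
        obtain ⟨g, rfl⟩ := hs1 g
        rw [← map_mul, ← map_mul, Subgroup.mem_center_iff.1 (hZc hz) g])
      rfl hR'
    obtain ⟨z1, hz1, rfl⟩ := hw
    have hD1 : Dat p P (c * z1) := GCen_dat hr hrp hD (hZc hz1) (hZr z1 hz1)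
    rw [← map_mul, ← (hQuo p G _ (QuotientGroup.mk' (Subgroup.zpowers a)) P (c * z1) hs1 hD1).2]
      at hRw
    obtain ⟨z2, hz2, hR2⟩ := hT.cen G r (Subgroup.zpowers a) P (c * z1) hr hrp hD1 hcard hZ1c hRw
    exact ⟨z1 * z2, Z.mul_mem hz1 (hZ1Z hz2), by rw [← mul_assoc]; exact hR2⟩

theorem prf_GCen (hQuo : GQuo) : GCen := by
  intro p _ R hT G _ _ r Z P _ c hr hrp hD hZr hZc hR
  exact GCen_aux hQuo p R hT r hr hrp _ G Z P c hD hZr hZc rfl hR

end GT
end MP7b0bad
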