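import Pool.Agent.Work.MP_7b0bad_ag.SV.GRStmts

set_option autoImplicit false

/-!
# Central kernels, with the condition on the normal closure
-/

namespace MP7b0bad
namespace GT

/-- a subgroup which together with a central subgroup generates the group is normal -/
theorem GCenR_normal {G : Type} [Group G] (Z G' : Subgroup G) [Z.Normal]
    (hZ : Z ≤ Subgroup.center G) (h : Z ⊔ G' = ⊤) : G'.Normal := by
  refine ⟨fun x hx g => ?_⟩
  have hg : g ∈ Z ⊔ G' := by rw [h]; exact Subgroup.mem_top g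
  obtain ⟨z, hz, y, hy, rfl⟩ := Subgroup.mem_sup_of_normal_left.1 hg
  have h1 : z * y * x * (z * y)⁻¹ = y * x * y⁻¹ := by
    have h2 := Subgroup.mem_center_iff.1 (hZ hz) (y * x * y⁻¹)
    calc z * y * x * (z * y)⁻¹ = z * (y * x * y⁻¹) * z⁻¹ := by group
      _ = y * x * y⁻¹ := by rw [← h2]; group
  rw [h1]
  exact G'.mul_mem (G'.mul_mem hy hx) (G'.inv_mem hy)

theorem prf_GCenR : GCenR := by
  intro p _ R hR G _ _ r Z P _ c hr hrp hD hZr hZ hq
  obtain ⟨z, hz, G', h1, h2, -, h4⟩ := hR.cen G r Z P c hr hrp ⟨hD.pgr, hD.nrm, hD.cop⟩ hZr hZ hq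
  refine ⟨z, hz, ?_⟩
  have hn : G'.Normal := GCenR_normal Z G' hZ h1
  have ht : G' = ⊤ := by
    rw [eq_top_iff, ← hD.ncl]
    exact Subgroup.normalClosure_le_normal h2
  subst ht
  have h5 := hR.quo (⊤ : Subgroup G) G (Subgroup.subtype ⊤) _
    (fun g => ⟨⟨g, Subgroup.mem_top g⟩, rfl⟩) h4
  rwa [Subgroup.map_subgroupOf_eq_of_le le_top] at h5

end GT
end MP7b0bad
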