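import Pool.Agent.Work.MP_7b0bad_ag.SV.GTStmts

set_option autoImplicit false

/-!
# Coprime action
-/

namespace MP7b0bad
namespace GT

/-- powers of `u` act by powers of `z` -/
lemma GCop_pow {G : Type} [Group G] (u a z : G) (hz : z ∈ Subgroup.center G)
    (h : u * a * u⁻¹ = a * z) (i : ℕ) : u ^ i * a * (u ^ i)⁻¹ = a * z ^ i := by
  have hc : ∀ g : G, g * z = z * g := fun g => Subgroup.mem_center_iff.1 hz g
  induction i with
  | zero => simp
  | succ k ih =>
    have h1 : u ^ (k + 1) * a * (u ^ (k + 1))⁻¹ = u * (u ^ k * a * (u ^ k)⁻¹) * u⁻¹ := by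
      rw [pow_succ' u k]
      group
    have h2 : ∀ g : G, g * z ^ k = z ^ k * g := fun g => (Commute.pow_right (hc g) k).eq
    rw [h1, ih]
    have h3 : u * (a * z ^ k) * u⁻¹ = (u * a * u⁻¹) * z ^ k := by
      calc u * (a * z ^ k) * u⁻¹ = u * a * (z ^ k * u⁻¹) := by simp only [mul_assoc]
        _ = u * a * (u⁻¹ * z ^ k) := by rw [h2 u⁻¹]
        _ = (u * a * u⁻¹) * z ^ k := by simp only [mul_assoc]
    rw [h3, h, pow_succ' z k, mul_assoc]

theorem prf_GCop : GCop := by
  intro p r _ _ G _ _ P N c hrp hD hN hNr hcen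
  have hle : (P : Set G) ⊆ Subgroup.centralizer (N : Set G) := by
    intro u hu
    rw [SetLike.mem_coe, Subgroup.mem_centralizer_iff]
    intro a ha
    have hz := hcen u hu a ha
    set z := a⁻¹ * (u * a * u⁻¹) with hzdef
    have hzN : z ∈ N := N.mul_mem (N.inv_mem ha) (hN.conj_mem a ha u)
    have hu1 : u * a * u⁻¹ = a * z := by
      rw [hzdef, ← mul_assoc a a⁻¹, mul_inv_cancel, one_mul]
    obtain ⟨n, hn⟩ := isPGroup_iff_pow_pow_eq_one.1 hD.pgr ⟨u, hu⟩
    have hn' : u ^ p ^ n = 1 := by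
      have := congrArg Subtype.val hn
      simpa using this
    obtain ⟨m, hm⟩ := isPGroup_iff_pow_pow_eq_one.1 hNr ⟨z, hzN⟩
    have hm' : z ^ r ^ m = 1 := by
      have := congrArg Subtype.val hm
      simpa using this
    have hp1 : z ^ p ^ n = 1 := by
      have h1 := GCop_pow u a z hz hu1 (p ^ n)
      rw [hn'] at h1
      simpa using h1
    have hco : Nat.Coprime (p ^ n) (r ^ m) := Nat.Coprime.pow _ _
      ((Nat.coprime_primes (Fact.out : p.Prime) (Fact.out : r.Prime)).2 (Ne.symm hrp))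
    have hz1 : z = 1 := by
      have h1 : orderOf z ∣ 1 := by
        rw [← hco]
        exact Nat.dvd_gcd (orderOf_dvd_of_pow_eq_one hp1) (orderOf_dvd_of_pow_eq_one hm')
      exact orderOf_eq_one_iff.1 (Nat.dvd_one.1 h1)
    rw [hz1, mul_one] at hu1
    exact (mul_inv_eq_iff_eq_mul.1 hu1).symm
  have htop : (⊤ : Subgroup G) ≤ Subgroup.centralizer (N : Set G) := by
    rw [← hD.ncl]
    exact Subgroup.normalClosure_le_normal hle
  intro a ha
  rw [Subgroup.mem_center_iff]
  intro g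
  exact ((Subgroup.mem_centralizer_iff.1 (htop (Subgroup.mem_top g))) a ha).symm

end GT
end MP7b0bad
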