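import Pool.Agent.Work.MP_7b0bad_ag.SV.GTStmts

set_option autoImplicit false

/-!
# Item GDat: the data on the fibre product
-/

open scoped commutatorElement

namespace MP7b0bad
namespace GT

section

variable {G : Type} [Group G] (N : Subgroup G) [N.Normal] (I : Type)

open Classical in
/-- functions supported at one coordinate -/
noncomputable def GDat4_dl (j : I) : N →* Fib N I where
  toFun a := ⟨fun i => if i = j then (a : G) else 1, fun i k => by
    refine N.mul_mem (N.inv_mem ?_) ?_
    · change (if i = j then (a : G) else 1) ∈ N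
      split_ifs
      · exact a.2
      · exact N.one_mem
    · change (if k = j then (a : G) else 1) ∈ N
      split_ifs
      · exact a.2
      · exact N.one_mem⟩
  map_one' := by
    ext i
    simp
  map_mul' a b := by
    ext i
    change (if i = j then ((a * b : N) : G) else 1) =
      (if i = j then (a : G) else 1) * (if i = j then (b : G) else 1)
    split_ifs <;> simp

end

theorem GDat4_ncl {G : Type} [Group G] (P N : Subgroup G) [N.Normal] (I : Type) [Finite I]
    [Nonempty I] (hncl : Subgroup.normalClosure (P : Set G) = ⊤)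
    (hN : N ≤ ⁅N, (⊤ : Subgroup G)⁆) :
    Subgroup.normalClosure ((P.map (dg N I) : Subgroup (Fib N I)) : Set (Fib N I)) = ⊤ := by
  classical
  set M := Subgroup.normalClosure ((P.map (dg N I) : Subgroup (Fib N I)) : Set (Fib N I)) with hM
  have hMn : M.Normal := Subgroup.normalClosure_normal
  -- constant functions
  have h1 : ∀ g : G, dg N I g ∈ M := by
    have h2 : (M.comap (dg N I)).Normal := inferInstance
    have h3 : Subgroup.normalClosure (P : Set G) ≤ M.comap (dg N I) := by
      apply Subgroup.normalClosure_le_normal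
      intro u hu
      exact Subgroup.subset_normalClosure ⟨u, hu, rfl⟩
    intro g
    have h4 : g ∈ Subgroup.normalClosure (P : Set G) := by
      rw [hncl]
      exact Subgroup.mem_top g
    exact h3 h4
  -- functions supported at one coordinate
  have h5 : ∀ (j : I) (a : N), GDat4_dl N I j a ∈ M := by
    intro j
    have h6 : ∀ x ∈ ⁅N, (⊤ : Subgroup G)⁆, ∀ hx : x ∈ N, GDat4_dl N I j ⟨x, hx⟩ ∈ M := by
      have h7 : ⁅N, (⊤ : Subgroup G)⁆ ≤ (M.comap (GDat4_dl N I j)).map N.subtype := by
        rw [Subgroup.commutator_le]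
        intro a ha g _
        have h8 : ⁅a, g⁆ ∈ N := by
          rw [commutatorElement_def, mul_assoc, mul_assoc]
          refine N.mul_mem ha ?_
          have h9 : g * a⁻¹ * g⁻¹ ∈ N :=
            Subgroup.Normal.conj_mem inferInstance _ (N.inv_mem ha) g
          rwa [mul_assoc] at h9
        refine ⟨⟨⁅a, g⁆, h8⟩, ?_, rfl⟩
        change GDat4_dl N I j ⟨⁅a, g⁆, h8⟩ ∈ M
        have h10 : GDat4_dl N I j ⟨⁅a, g⁆, h8⟩ =
            GDat4_dl N I j ⟨a, ha⟩ * dg N I g * (GDat4_dl N I j ⟨a, ha⟩)⁻¹ * (dg N I g)⁻¹ := by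
          ext i
          change (if i = j then ⁅a, g⁆ else 1) =
            (if i = j then a else 1) * g * (if i = j then a else 1)⁻¹ * g⁻¹
          split_ifs
          · rw [commutatorElement_def]
          · simp
        rw [h10]
        exact M.mul_mem (hMn.conj_mem _ (h1 g) _) (M.inv_mem (h1 g))
      intro x hx hx'
      obtain ⟨y, hy, hyx⟩ := h7 hx
      have h11 : y = ⟨x, hx'⟩ := Subtype.ext hyx
      rw [← h11]
      exact hy
    intro a
    exact h6 a (hN a.2) a.2
  -- all functions with values in `N`
  have : Fintype I := Fintype.ofFinite I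
  have h12 : ∀ (s : Finset I) (f : Fib N I), (∀ i, f.1 i ∈ N) → (∀ i, i ∉ s → f.1 i = 1) →
      f ∈ M := by
    intro s
    induction s using Finset.induction_on with
    | empty =>
      intro f _ hf
      have h13 : f = 1 := by
        ext i
        exact hf i (by simp)
      rw [h13]
      exact M.one_mem
    | insert j s hj ih =>
      intro f hfN hf
      have h14 : (GDat4_dl N I j ⟨f.1 j, hfN j⟩)⁻¹ * f ∈ M := by
        apply ih
        · intro i
          change (if i = j then f.1 j else 1)⁻¹ * f.1 i ∈ N
          refine N.mul_mem (N.inv_mem ?_) (hfN i)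
          split_ifs
          · exact hfN j
          · exact N.one_mem
        · intro i hi
          change (if i = j then f.1 j else 1)⁻¹ * f.1 i = 1
          split_ifs with hij
          · rw [hij]
            simp
          · rw [hf i (by simp [hij, hi])]
            simp
      have h15 : f = GDat4_dl N I j ⟨f.1 j, hfN j⟩ * ((GDat4_dl N I j ⟨f.1 j, hfN j⟩)⁻¹ * f) := by
        group
      rw [h15]
      exact M.mul_mem (h5 j _) h14
  rw [eq_top_iff]
  intro f _
  obtain ⟨i₀⟩ := (inferInstance : Nonempty I)
  have h16 : (dg N I (f.1 i₀))⁻¹ * f ∈ M := by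
    apply h12 Finset.univ
    · intro i
      exact f.2 i₀ i
    · intro i hi
      exact absurd (Finset.mem_univ i) hi
  have h17 : f = dg N I (f.1 i₀) * ((dg N I (f.1 i₀))⁻¹ * f) := by group
  rw [h17]
  exact M.mul_mem (h1 _) h16

theorem prf_GDat4 (_hCop : GCop) (hStr : GStr) : GDat := by
  intro p r _ _ G _ _ P N Z _ c h hrp hD hN hZ
  obtain ⟨s1, s2, _, s4⟩ := hStr p r G P N c hrp hD hN
  have hcen : ∀ z ∈ Z, ∀ g : G, g * z = z * g := by
    intro z hz g
    rw [hZ] at hz
    exact Subgroup.mem_center_iff.1 (s2 hz) g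
  have hexp : ∀ z ∈ Z, z ^ r = 1 := by
    intro z hz
    rw [hZ] at hz
    exact s4 z hz
  refine ⟨hD.pgr.map _, ?_, ?_, ?_⟩
  · rintro _ ⟨u, hu, rfl⟩
    refine ⟨c * u * c⁻¹, hD.nrm u hu, ?_⟩
    ext i
    change c * u * c⁻¹ = (c * (i : G)) * u * (c * (i : G))⁻¹
    rw [mul_inv_rev, mul_assoc c (i : G) u, ← hcen _ i.2 u]
    group
  · intro hp
    have h1 : (ch N Z h c) ^ (orderOf c * r) = 1 := by
      ext i
      change (c * (i : G)) ^ (orderOf c * r) = 1
      have h2 : Commute c (i : G) := hcen _ i.2 c
      rw [h2.mul_pow, pow_mul, pow_orderOf_eq_one, one_pow, mul_comm, pow_mul,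
        hexp _ i.2, one_pow, mul_one]
    have h3 : p ∣ orderOf c * r := hp.trans (orderOf_dvd_of_pow_eq_one h1)
    rcases (Nat.Prime.dvd_mul (Fact.out : p.Prime)).1 h3 with h4 | h4
    · exact hD.cop h4
    · exact hrp ((Nat.prime_dvd_prime_iff_eq (Fact.out : p.Prime) (Fact.out : r.Prime)).1 h4).symm
  · exact GDat4_ncl P N Z hD.ncl s1

end GT
end MP7b0bad
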