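import Pool.Agent.Work.MP_7b0bad_ag.SV.GRStmts

set_option autoImplicit false

/-!
# Normality of `EA` and the homomorphism `(m, g) ↦ m j (m j')⁻¹ g`
-/

namespace MP7b0bad
namespace GT

lemma GEA_memEE {G : Type} [Group G] (M G' : Subgroup G) [M.Normal] (J : Type)
    (f : EE M G' J) (i j : Option J) : (f.1 i)⁻¹ * f.1 j ∈ M := f.2.1 i j

lemma GEA_normal {G : Type} [Group G] (M M0 G' : Subgroup G) [M.Normal] (J : Type)
    (hM0 : M0.Normal) (A : Set J) : (EA M M0 G' J A).Normal := by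
  refine ⟨fun f hf g => ⟨?_, fun j hj => ?_⟩⟩
  · show g.1 none * f.1 none * (g.1 none)⁻¹ = 1
    rw [hf.1, mul_one, mul_inv_cancel]
  · show g.1 (some j) * f.1 (some j) * (g.1 (some j))⁻¹ ∈ M0
    exact hM0.conj_mem _ (hf.2 j hj) _

lemma GEA_mul {G : Type} [Group G] (M G' : Subgroup G) [M.Normal] (J : Type)
    (hab : ∀ a ∈ M, ∀ b ∈ M, a * b = b * a) (j j' : J) (f g : EE M G' J) :
    (f * g).1 (some j) * ((f * g).1 (some j'))⁻¹ * (f * g).1 none =
      (f.1 (some j) * (f.1 (some j'))⁻¹ * f.1 none) *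
        (g.1 (some j) * (g.1 (some j'))⁻¹ * g.1 none) := by
  have h1 : (f.1 (some j'))⁻¹ * f.1 none ∈ M := GEA_memEE M G' J f _ _
  have h2 : g.1 (some j) * (g.1 (some j'))⁻¹ ∈ M := by
    have h3 : g.1 (some j') * ((g.1 (some j'))⁻¹ * g.1 (some j)) * (g.1 (some j'))⁻¹ ∈ M :=
      Subgroup.Normal.conj_mem inferInstance _ (GEA_memEE M G' J g _ _) _
    have h4 : g.1 (some j') * ((g.1 (some j'))⁻¹ * g.1 (some j)) * (g.1 (some j'))⁻¹ =
        g.1 (some j) * (g.1 (some j'))⁻¹ := by group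
    rwa [h4] at h3
  have h5 := hab _ h1 _ h2
  show f.1 (some j) * g.1 (some j) * (f.1 (some j') * g.1 (some j'))⁻¹ *
    (f.1 none * g.1 none) = _
  calc f.1 (some j) * g.1 (some j) * (f.1 (some j') * g.1 (some j'))⁻¹ * (f.1 none * g.1 none)
      = f.1 (some j) * ((g.1 (some j) * (g.1 (some j'))⁻¹) * ((f.1 (some j'))⁻¹ * f.1 none)) *
          g.1 none := by group
    _ = f.1 (some j) * (((f.1 (some j'))⁻¹ * f.1 none) * (g.1 (some j) * (g.1 (some j'))⁻¹)) *
          g.1 none := by rw [h5]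
    _ = _ := by group

theorem prf_GEA : GEA := by
  intro G _ M M0 G' _ J
  refine ⟨fun hM0 A => GEA_normal M M0 G' J hM0 A, ?_⟩
  intro hab hsup j j' hjj'
  refine ⟨{ toFun := fun f => f.1 (some j) * (f.1 (some j'))⁻¹ * f.1 none
            map_one' := ?_
            map_mul' := fun f g => GEA_mul M G' J hab j j' f g }, fun f => rfl, ?_⟩
  · show (1 : G) * (1 : G)⁻¹ * 1 = 1
    group
  · intro a
    have ha : a ∈ M ⊔ G' := by rw [hsup]; exact Subgroup.mem_top a
    rw [← SetLike.mem_coe, Subgroup.normal_mul] at ha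
    obtain ⟨m, hm, g, hg, rfl⟩ := ha
    classical
    have hg' : g ∈ G' := hg
    have hm' : m ∈ M := hm
    let e : Option J → G := fun i => if i = some j then m else 1
    have he : ∀ i, e i ∈ M := by
      intro i
      by_cases hi : i = some j
      · simp only [e, hi, if_true]; exact hm'
      · simp only [e, hi, if_false]; exact M.one_mem
    have hmem : (fun i => e i * g) ∈ EE M G' J := by
      refine ⟨fun i k => ?_, ?_⟩
      · have h1 : g⁻¹ * ((e i)⁻¹ * e k) * (g⁻¹)⁻¹ ∈ M :=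
          Subgroup.Normal.conj_mem inferInstance _ (M.mul_mem (M.inv_mem (he i)) (he k)) _
        have h2 : g⁻¹ * ((e i)⁻¹ * e k) * (g⁻¹)⁻¹ = (e i * g)⁻¹ * (e k * g) := by group
        rwa [h2] at h1
      · show e none * g ∈ G'
        have : e none = 1 := by simp [e]
        rw [this, one_mul]
        exact hg'
    refine ⟨⟨fun i => e i * g, hmem⟩, ?_⟩
    show e (some j) * g * (e (some j') * g)⁻¹ * (e none * g) = m * g
    have h1 : e (some j) = m := by simp [e]
    have h2 : e (some j') = 1 := by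
      have : ¬ (j' = j) := fun h => hjj' h.symm
      simp [e, this]
    have h3 : e none = 1 := by simp [e]
    rw [h1, h2, h3]
    group

end GT
end MP7b0bad
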