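import Pool.Agent.Work.MP_7b0bad_ag.SV.GTStmts

set_option autoImplicit false

/-! Item GEx: minimal noncentral normal subgroups of solvable normal subgroups. -/

namespace MP7b0bad
namespace GT

theorem GEx_exists_min {G : Type} [Group G] [Finite G] (N : Subgroup G) (hN : N.Normal)
    (hc : ¬ N ≤ Subgroup.center G) : ∃ N1 : Subgroup G, N1.Normal ∧ N1 ≤ N ∧
      ¬ N1 ≤ Subgroup.center G ∧
      ∀ K : Subgroup G, K.Normal → K ≤ N1 → K ≠ N1 → K ≤ Subgroup.center G := by
  obtain ⟨N1, hN1⟩ := Set.Finite.exists_minimal (s := {K : Subgroup G | K.Normal ∧ K ≤ N ∧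
    ¬ K ≤ Subgroup.center G}) (Set.toFinite _) ⟨N, hN, le_rfl, hc⟩
  refine ⟨N1, hN1.1.1, hN1.1.2.1, hN1.1.2.2, fun K hK hKN hne => ?_⟩
  by_contra hKc
  exact hne (le_antisymm hKN (hN1.2 ⟨hK, hKN.trans hN1.1.2.1, hKc⟩ hKN))

/-- a finite group in which all Sylow subgroups are contained in `Z` is equal to `Z` -/
theorem GEx_eq_top {H : Type} [Group H] [Finite H] (Z : Subgroup H)
    (h : ∀ (q : ℕ) (_ : Fact q.Prime) (P : Sylow q H), (P : Subgroup H) ≤ Z) : Z = ⊤ := by
  rw [← Subgroup.index_eq_one]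
  by_contra h1
  obtain ⟨q, hq, hqd⟩ := Nat.exists_prime_and_dvd h1
  have : Fact q.Prime := ⟨hq⟩
  obtain ⟨P⟩ : Nonempty (Sylow q H) := inferInstance
  exact P.not_dvd_index (hqd.trans (Subgroup.index_dvd_of_le (h q ⟨hq⟩ P)))

theorem prf_GEx : GEx := by
  intro G _ _ N hN hs hc
  obtain ⟨N1, hn, hle, hnc, hmin⟩ := GEx_exists_min N hN hc
  have := hn
  -- `N1` is solvable
  have : Group.IsSolvable N1 := by
    have := hs
    exact Group.isSolvable_of_isSolvable_injective (Subgroup.inclusion_injective hle)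
  have hbot : N1 ≠ ⊥ := fun h => hnc (h ▸ bot_le)
  have : Nontrivial N1 := (Subgroup.nontrivial_iff_ne_bot N1).2 hbot
  have hD : ⁅N1, N1⁆ ≠ N1 := by
    intro h
    have h1 := Group.IsSolvable.commutator_lt_top_of_nontrivial N1
    have h2 := Subgroup.map_subtype_commutator N1
    rw [h] at h2
    have h3 : (⊤ : Subgroup N1).map N1.subtype = N1 := by
      rw [← MonoidHom.range_eq_map, Subgroup.range_subtype]
    exact h1.ne (Subgroup.map_injective N1.subtype_injective (h2.trans h3.symm))
  have hDc : ⁅N1, N1⁆ ≤ Subgroup.center G :=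
    hmin _ inferInstance (Subgroup.commutator_le_right N1 N1) hD
  -- `N1` is nilpotent
  have : Group.IsNilpotent N1 := by
    refine Subgroup.isNilpotent_of_ker_le_center (Abelianization.of (G := N1)) ?_
    rw [Abelianization.ker_of]
    intro x hx
    rw [Subgroup.mem_center_iff]
    intro y
    have h1 : (x : G) ∈ ⁅N1, N1⁆ := by
      rw [← Subgroup.map_subtype_commutator]
      exact ⟨x, hx, rfl⟩
    exact Subtype.ext (Subgroup.mem_center_iff.1 (hDc h1) y)
  have hchar : ∀ (q : ℕ) (_ : Fact q.Prime) (P : Sylow q N1),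
      ((P : Subgroup N1).map N1.subtype).Normal := by
    intro q hq P
    have : (P : Subgroup N1).Normal :=
      (Group.isNilpotent_of_finite_tfae.out 0 3 rfl rfl).mp ‹_› q hq P
    have := P.characteristic_of_normal this
    infer_instance
  -- some Sylow subgroup is everything
  have hex : ∃ (q : ℕ) (_ : Fact q.Prime) (P : Sylow q N1), (P : Subgroup N1) = ⊤ := by
    by_contra hno
    push Not at hno
    apply hnc
    have h1 : (Subgroup.center G).subgroupOf N1 = ⊤ := by
      apply GEx_eq_top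
      intro q hq P
      have h2 : (P : Subgroup N1).map N1.subtype ≤ Subgroup.center G := by
        refine hmin _ (hchar q hq P) (Subgroup.map_subtype_le _) ?_
        intro h
        have h3 : (⊤ : Subgroup N1).map N1.subtype = N1 := by
          rw [← MonoidHom.range_eq_map, Subgroup.range_subtype]
        exact hno q hq P (Subgroup.map_injective N1.subtype_injective (h.trans h3.symm))
      exact Subgroup.map_le_iff_le_comap.1 h2
    exact Subgroup.subgroupOf_eq_top.1 h1
  obtain ⟨q, hq, P, hP⟩ := hex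
  refine ⟨q, N1, hq.out, ⟨hn, ?_, hnc, hmin⟩, hle⟩
  intro x
  obtain ⟨k, hk⟩ := P.isPGroup' ⟨x, by rw [hP]; trivial⟩
  exact ⟨k, by simpa using congrArg Subtype.val hk⟩

end GT
end MP7b0bad
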