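import Pool.Agent.Work.MP_7b0bad_ag.SV.GRStmts

set_option autoImplicit false

/-!
# Item GChn: covers with group `(M / M₀)^J ⋊ G'`
-/

namespace MP7b0bad
namespace GT

theorem GChn_subgroupOf {G : Type} [Group G] (G' P : Subgroup G) (c : G) (c' : G')
    (hc : (c' : G) = c) (h : Pc P c ≤ G') :
    (Pc P c).subgroupOf G' = P.subgroupOf G' ⊔ Subgroup.zpowers c' := by
  have h1 : P ≤ G' := le_sup_left.trans h
  have h2 : Subgroup.zpowers c ≤ G' := le_sup_right.trans h
  unfold Pc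
  rw [Subgroup.subgroupOf_sup h1 h2]
  congr 1
  apply Subgroup.map_injective G'.subtype_injective
  rw [Subgroup.subgroupOf_map_subtype, inf_eq_left.2 h2, MonoidHom.map_zpowers]
  simp [hc]

section

variable {G : Type} [Group G] (M M0 G' : Subgroup G) [M.Normal] (J : Type)

/-- the function with value `x` at `a` and `1` elsewhere -/
theorem GChn_pt (a : J) (x : G) (hx : x ∈ M) :
    ∃ f : EE M G' J, f.1 none = 1 ∧ f.1 (some a) = x ∧ ∀ j, j ≠ a → f.1 (some j) = 1 := by
  classical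
  let F : Option J → G := fun o => if o = some a then x else 1
  have hF : ∀ o, F o ∈ M := by
    intro o
    show (if o = some a then x else 1) ∈ M
    split_ifs
    · exact hx
    · exact M.one_mem
  have h0 : F none = 1 := by simp [F]
  refine ⟨⟨F, fun i j => M.mul_mem (M.inv_mem (hF i)) (hF j), ?_⟩, h0, ?_, ?_⟩
  · show F none ∈ G'
    rw [h0]; exact G'.one_mem
  · show F (some a) = x
    simp [F]
  · intro j hj
    show F (some j) = 1
    simp [F, hj]

/-- surjectivity of evaluation -/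
theorem GChn_ev (h : M ⊔ G' = ⊤) (a : J) (x : G) : ∃ f : EE M G' J, f.1 (some a) = x := by
  have hx : x ∈ M ⊔ G' := by rw [h]; trivial
  rw [← SetLike.mem_coe, Subgroup.normal_mul] at hx
  obtain ⟨m, hm, g, hg, rfl⟩ := hx
  let F : Option J → G := fun o => o.elim g (fun _ => m * g)
  refine ⟨⟨F, ?_, hg⟩, rfl⟩
  have h1 : ∀ i, ∃ u ∈ M, F i = u * g := by
    intro i
    cases i with
    | none => exact ⟨1, M.one_mem, by simp [F]⟩
    | some j => exact ⟨m, hm, rfl⟩
  intro i j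
  obtain ⟨u, hu, e1⟩ := h1 i
  obtain ⟨v, hv, e2⟩ := h1 j
  rw [e1, e2]
  have h3 := Subgroup.Normal.conj_mem (inferInstance : M.Normal) _ (M.mul_mem (M.inv_mem hu) hv) g⁻¹
  have h4 : g⁻¹ * (u⁻¹ * v) * g⁻¹⁻¹ = (u * g)⁻¹ * (v * g) := by group
  rwa [h4] at h3

theorem GChn_mem (f : EE M G' J) (h0 : f.1 none = 1) (a : J) : f.1 (some a) ∈ M := by
  have h1 := f.2.1 none (some a)
  rw [h0] at h1
  simpa using h1

/-- the complement -/
def GChn_H [hM0 : M0.Normal] (a : J) : Subgroup (EE M G' J) where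
  carrier := {f | (f.1 none)⁻¹ * f.1 (some a) ∈ M0}
  one_mem' := by
    show ((1 : G))⁻¹ * 1 ∈ M0
    simp
  mul_mem' := by
    intro f g hf hg
    show (f.1 none * g.1 none)⁻¹ * (f.1 (some a) * g.1 (some a)) ∈ M0
    have h3 := hM0.conj_mem _ hf (g.1 none)⁻¹
    have h4 := M0.mul_mem h3 hg
    have h5 : (g.1 none)⁻¹ * ((f.1 none)⁻¹ * f.1 (some a)) * (g.1 none)⁻¹⁻¹ *
      ((g.1 none)⁻¹ * g.1 (some a)) = (f.1 none * g.1 none)⁻¹ * (f.1 (some a) * g.1 (some a)) := by
      group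
    rwa [h5] at h4
  inv_mem' := by
    intro f hf
    show ((f.1 none)⁻¹)⁻¹ * (f.1 (some a))⁻¹ ∈ M0
    have h3 := hM0.conj_mem _ (M0.inv_mem hf) (f.1 none)
    have h5 : f.1 none * ((f.1 none)⁻¹ * f.1 (some a))⁻¹ * (f.1 none)⁻¹ =
      ((f.1 none)⁻¹)⁻¹ * (f.1 (some a))⁻¹ := by group
    rwa [h5] at h3

end

theorem GChn_dat {G : Type} [Group G] {p : ℕ} (M G' P : Subgroup G) [M.Normal] (c : G) (J : Type)
    (c' : G') (hD : Dat0 p P c) (hc : (c' : G) = c) (hG' : Pc P c ≤ G') :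
    Dat0 p ((P.subgroupOf G').map (dE M G' J)) (dE M G' J c') := by
  refine ⟨?_, ?_, ?_⟩
  · refine IsPGroup.map ?_ _
    exact hD.pgr.comap_of_injective G'.subtype G'.subtype_injective
  · rintro _ ⟨u, hu, rfl⟩
    refine ⟨c' * u * c'⁻¹, ?_, by simp⟩
    show ((c' * u * c'⁻¹ : G') : G) ∈ P
    have := hD.nrm u.1 hu
    simpa [hc] using this
  · intro h
    apply hD.cop
    have h1 : orderOf (dE M G' J c') ∣ orderOf c' := orderOf_map_dvd _ _
    have h2 : orderOf c = orderOf c' := by rw [← hc, Subgroup.orderOf_coe]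
    rw [h2]
    exact h.trans h1

open scoped commutatorElement in
theorem GChn_step (hSplS : GSplS) (hEA : GEA) (p : ℕ) [Fact p.Prime]
    (R : ∀ (G : Type) [Group G], Subgroup G → Prop) (hR : RAx p R) (G : Type) [Group G] [Finite G]
    (r : ℕ) (M M0 G' P : Subgroup G) [M.Normal] (c : G) (J : Type) [Finite J] (c' : G')
    (hr : r.Prime) (hD : Dat0 p P c) (hc : (c' : G) = c) (hG' : Pc P c ≤ G') (hM0 : M0.Normal)
    (hle : M0 ≤ M) (hpow : ∀ a ∈ M, a ^ r ∈ M0) (hcom : ⁅M, M⁆ ≤ M0)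
    (hchf : ∀ K : Subgroup G, K.Normal → M0 ≤ K → K ≤ M → K = M0 ∨ K = M)
    (hnc : ¬ ⁅M, (⊤ : Subgroup G)⁆ ≤ M0) (htop : M ⊔ G' = ⊤) (A : Set J) (a : J) (ha : a ∉ A)
    [hN1 : (EA M M0 G' J A).Normal] [hN2 : (EA M M0 G' J (insert a A)).Normal]
    (hA : R (EE M G' J ⧸ EA M M0 G' J A)
      ((Pc ((P.subgroupOf G').map (dE M G' J)) (dE M G' J c')).map
        (QuotientGroup.mk' (EA M M0 G' J A)))) :
    R (EE M G' J ⧸ EA M M0 G' J (insert a A))
      ((Pc ((P.subgroupOf G').map (dE M G' J)) (dE M G' J c')).map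
        (QuotientGroup.mk' (EA M M0 G' J (insert a A)))) := by
  have hD' := GChn_dat M G' P c J c' hD hc hG'
  have hAB : EA M M0 G' J (insert a A) ≤ EA M M0 G' J A :=
    fun f hf => ⟨hf.1, fun j hj => hf.2 j (Set.mem_insert_of_mem a hj)⟩
  have hins : ∀ f : EE M G' J, f ∈ EA M M0 G' J A → f.1 (some a) ∈ M0 →
      f ∈ EA M M0 G' J (insert a A) := by
    intro f hf h
    refine ⟨hf.1, fun j hj => ?_⟩
    rcases hj with rfl | hj
    · exact h
    · exact hf.2 j hj
  have hpt : ∀ x ∈ M, ∃ f : EE M G' J, f ∈ EA M M0 G' J A ∧ f.1 (some a) = x := by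
    intro x hx
    obtain ⟨f, h1, h2, h3⟩ := GChn_pt M G' J a x hx
    refine ⟨f, ⟨h1, fun j hj => ?_⟩, h2⟩
    rw [h3 j (fun h => ha (h ▸ hj))]
    exact M0.one_mem
  refine hSplS p R hR (EE M G' J) r (EA M M0 G' J (insert a A)) (EA M M0 G' J A)
    (GChn_H M M0 G' J a) _ _ hr hD' hAB ?_ ?_ ?_ ?_ ?_ ?_ ?_ ?_ hA
  · intro f hf
    show (f.1 none)⁻¹ * f.1 (some a) ∈ M0
    rw [hf.1, inv_one, one_mul]
    exact hf.2 a (Set.mem_insert a A)
  · intro f hf
    refine hins _ (Subgroup.pow_mem _ hf r) ?_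
    show f.1 (some a) ^ r ∈ M0
    exact hpow _ (GChn_mem M G' J f hf.1 a)
  · rw [Subgroup.commutator_le]
    intro f hf g hg
    refine hins _ ?_ ?_
    · rw [commutatorElement_def]
      exact Subgroup.mul_mem _ (Subgroup.mul_mem _ (Subgroup.mul_mem _ hf hg)
        (Subgroup.inv_mem _ hf)) (Subgroup.inv_mem _ hg)
    · show f.1 (some a) * g.1 (some a) * (f.1 (some a))⁻¹ * (g.1 (some a))⁻¹ ∈ M0
      rw [← commutatorElement_def]
      exact hcom (Subgroup.commutator_mem_commutator (GChn_mem M G' J f hf.1 a)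
        (GChn_mem M G' J g hg.1 a))
  · intro K hK hK1 hK2
    let evA : EE M G' J →* G :=
      { toFun := fun f => f.1 (some a)
        map_one' := rfl
        map_mul' := fun _ _ => rfl }
    have hs : Function.Surjective evA := fun x => GChn_ev M G' J htop a x
    have hX : (K.map evA).Normal := hK.map evA hs
    have hX1 : M0 ≤ K.map evA := by
      intro x hx
      obtain ⟨f, hf, e⟩ := hpt x (hle hx)
      exact ⟨f, hK1 (hins f hf (by rw [e]; exact hx)), e⟩
    have hX2 : K.map evA ≤ M := by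
      rintro _ ⟨f, hf, rfl⟩
      exact GChn_mem M G' J f (hK2 hf).1 a
    rcases hchf _ hX hX1 hX2 with h | h
    · left
      refine le_antisymm (fun f hf => hins f (hK2 hf) ?_) hK1
      rw [← h]
      exact ⟨f, hf, rfl⟩
    · right
      refine le_antisymm hK2 fun f hf => ?_
      have h1 : f.1 (some a) ∈ K.map evA := by
        rw [h]; exact GChn_mem M G' J f hf.1 a
      obtain ⟨k, hk, e⟩ := h1
      have h2 : k⁻¹ * f ∈ EA M M0 G' J (insert a A) := by
        refine hins _ (Subgroup.mul_mem _ (Subgroup.inv_mem _ (hK2 hk)) hf) ?_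
        show (k.1 (some a))⁻¹ * f.1 (some a) ∈ M0
        have e' : k.1 (some a) = f.1 (some a) := e
        rw [e', inv_mul_cancel]
        exact M0.one_mem
      have h3 := K.mul_mem hk (hK1 h2)
      rwa [mul_inv_cancel_left] at h3
  · intro h
    apply hnc
    rw [Subgroup.commutator_le]
    intro m hm g _
    obtain ⟨f, hf, e⟩ := hpt m hm
    obtain ⟨y, hy⟩ := GChn_ev M G' J htop a g
    have h1 := h (Subgroup.commutator_mem_commutator hf (Subgroup.mem_top y))
    have h2 := h1.2 a (Set.mem_insert a A)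
    have h3 : (⁅f, y⁆ : EE M G' J).1 (some a) = ⁅m, g⁆ := by
      show f.1 (some a) * y.1 (some a) * (f.1 (some a))⁻¹ * (y.1 (some a))⁻¹ = _
      rw [e, hy, commutatorElement_def]
    rwa [h3] at h2
  · rintro f ⟨h1, h2⟩
    refine hins f h1 ?_
    have h3 : (f.1 none)⁻¹ * f.1 (some a) ∈ M0 := h2
    rw [h1.1] at h3
    simpa using h3
  · rw [eq_top_iff]
    intro f _
    have h1 : f.1 (some a) * (f.1 none)⁻¹ ∈ M := by
      have h2 := f.2.1 none (some a)
      have h3 := Subgroup.Normal.conj_mem (inferInstance : M.Normal) _ h2 (f.1 none)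
      have h4 : f.1 none * ((f.1 none)⁻¹ * f.1 (some a)) * (f.1 none)⁻¹ =
        f.1 (some a) * (f.1 none)⁻¹ := by group
      rwa [h4] at h3
    obtain ⟨b, hb, e⟩ := hpt _ h1
    have h5 : b⁻¹ * f ∈ GChn_H M M0 G' J a := by
      show ((b.1 none)⁻¹ * f.1 none)⁻¹ * ((b.1 (some a))⁻¹ * f.1 (some a)) ∈ M0
      rw [hb.1, e]
      have h6 : ((1 : G)⁻¹ * f.1 none)⁻¹ * ((f.1 (some a) * (f.1 none)⁻¹)⁻¹ * f.1 (some a)) = 1 := by
        group
      rw [h6]
      exact M0.one_mem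
    have h7 := Subgroup.mul_mem_sup hb h5
    rwa [mul_inv_cancel_left] at h7
  · have h1 : ∀ g : G', dE M G' J g ∈ GChn_H M M0 G' J a := by
      intro g
      show ((g : G))⁻¹ * g ∈ M0
      rw [inv_mul_cancel]
      exact M0.one_mem
    refine sup_le ?_ ?_
    · rintro _ ⟨u, -, rfl⟩
      exact h1 u
    · rw [Subgroup.zpowers_le]
      exact h1 c'

theorem prf_GChn (hSplS : GSplS) (hEA : GEA) : GChn := by
  intro p _ R hR G _ _ r M M0 G' P _ c J _ hNu c' hr hD hc hG' hM0 hle hpow hcom hchf hnc htop hRG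
  have hN : ∀ A : Set J, (EA M M0 G' J A).Normal := (hEA G M M0 G' J).1 hM0
  have key : ∀ A : Set J, A.Finite → ∀ _ : (EA M M0 G' J A).Normal,
      R (EE M G' J ⧸ EA M M0 G' J A)
        ((Pc ((P.subgroupOf G').map (dE M G' J)) (dE M G' J c')).map
          (QuotientGroup.mk' (EA M M0 G' J A))) := by
    intro A hA
    refine Set.Finite.induction_on A hA ?_ ?_
    · intro hN0
      have hs : Function.Surjective ((QuotientGroup.mk' (EA M M0 G' J ∅)).comp (dE M G' J)) := by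
        intro x
        obtain ⟨f, rfl⟩ := QuotientGroup.mk'_surjective _ x
        refine ⟨⟨f.1 none, f.2.2⟩, ?_⟩
        show QuotientGroup.mk' _ (dE M G' J ⟨f.1 none, f.2.2⟩) = QuotientGroup.mk' _ f
        rw [QuotientGroup.mk'_eq_mk']
        refine ⟨(dE M G' J ⟨f.1 none, f.2.2⟩)⁻¹ * f, ⟨?_, fun j hj => absurd hj (by simp)⟩, by
          rw [mul_inv_cancel_left]⟩
        show (f.1 none)⁻¹ * f.1 none = 1
        exact inv_mul_cancel _
      have h1 := hR.quo G' _ _ ((Pc P c).subgroupOf G') hs hRG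
      rw [GChn_subgroupOf G' P c c' hc hG', ← Subgroup.map_map, Subgroup.map_sup,
        MonoidHom.map_zpowers] at h1
      exact h1
    · intro a A ha _ ih hN2
      exact GChn_step hSplS hEA p R hR G r M M0 G' P c J c' hr hD hc hG' hM0 hle hpow hcom hchf hnc
        htop A a ha (hN1 := hN A) (hN2 := hN2) (ih (hN A))
  exact key Set.univ Set.finite_univ hNu

end GT
end MP7b0bad
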