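import Pool.Agent.Work.MP_7b0bad_ag.SV.GRStmts
import Pool.Agent.Work.MP_7b0bad_ag.SV.GCenR
import Pool.Agent.Work.MP_7b0bad_ag.SV.GChn

set_option autoImplicit false

/-!
# Elementary abelian `M = [M, G]` with `M₀ ≤ M` central and `M / M₀` irreducible

The cover for `(M / M₀)^J ⋊ G'` lifts to one for a subgroup of `M^J ⋊ G'`, where `c` is replaced by
`c z` with `z ∈ M₀^J`; two coordinates of `z` agree as soon as `|J| > |M₀|`, and the homomorphism
`(m, g) ↦ m j (m j')⁻¹ g` maps `c z` to `c`.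
-/

namespace MP7b0bad
namespace GT

/-- the case of a central `M` -/
theorem GF3a_bot {G : Type} [Group G] [Finite G] {p : ℕ}
    (R : ∀ (G : Type) [Group G], Subgroup G → Prop) (hR : RAx p R) (M G₀ : Subgroup G) [M.Normal]
    (hM : M ≤ Subgroup.center G) (h : M ≤ ⁅M, (⊤ : Subgroup G)⁆)
    (hq : R (G ⧸ M) (G₀.map (QuotientGroup.mk' M))) : R G G₀ := by
  have h0 : ∀ m ∈ M, m = 1 := by
    have h1 : ⁅M, (⊤ : Subgroup G)⁆ ≤ ⊥ := by
      rw [Subgroup.commutator_le]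
      intro m hm g _
      rw [Subgroup.mem_bot, commutatorElement_eq_one_iff_mul_comm]
      exact (Subgroup.mem_center_iff.1 (hM hm) g).symm
    intro m hm
    exact Subgroup.mem_bot.1 (h1 (h hm))
  have hk : M ≤ (MonoidHom.id G).ker := by
    intro m hm
    rw [MonoidHom.mem_ker, h0 m hm]
    rfl
  have hs : Function.Surjective (QuotientGroup.lift M (MonoidHom.id G) hk) :=
    fun g => ⟨QuotientGroup.mk' M g, rfl⟩
  have h2 := hR.quo (G ⧸ M) G (QuotientGroup.lift M (MonoidHom.id G) hk) _ hs hq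
  rw [Subgroup.map_map] at h2
  have h3 : (QuotientGroup.lift M (MonoidHom.id G) hk).comp (QuotientGroup.mk' M) =
      MonoidHom.id G := by
    ext g
    rfl
  rwa [h3, Subgroup.map_id] at h2

section

variable {G : Type} [Group G] (M M0 G' : Subgroup G) [M.Normal] (J : Type)

/-- the values of the elements of the kernel -/
theorem GF3a_val (f : EE M G' J) (hf : f ∈ EA M M0 G' J Set.univ) (i : Option J) :
    f.1 i ∈ M0 := by
  cases i with
  | none => rw [hf.1]; exact M0.one_mem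
  | some j => exact hf.2 j (Set.mem_univ j)

/-- the kernel is central -/
theorem GF3a_cen (hM0 : M0 ≤ Subgroup.center G) :
    EA M M0 G' J Set.univ ≤ Subgroup.center (EE M G' J) := by
  intro f hf
  rw [Subgroup.mem_center_iff]
  intro g
  apply Subtype.ext
  funext i
  exact Subgroup.mem_center_iff.1 (hM0 (GF3a_val M M0 G' J f hf i)) (g.1 i)

/-- the exponent of the kernel -/
theorem GF3a_exp (r : ℕ) (hr : ∀ a ∈ M0, a ^ r = 1) (f : EE M G' J)
    (hf : f ∈ EA M M0 G' J Set.univ) : f ^ r = 1 := by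
  apply Subtype.ext
  funext i
  exact hr _ (GF3a_val M M0 G' J f hf i)

end

/-- pigeonhole -/
theorem GF3a_pig {A : Type} [Finite A] (w : Fin (Nat.card A + 1) → A) :
    ∃ j j', j ≠ j' ∧ w j = w j' := by
  by_contra hcon
  push Not at hcon
  have hinj : Function.Injective w := by
    intro a b hab
    by_contra hne
    exact hcon a b hne hab
  have h1 := Nat.card_le_card_of_injective w hinj
  rw [Nat.card_fin] at h1
  omega

/-- the case of a noncentral `M` -/
theorem GF3a_main (hEA : GEA) {p : ℕ}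
    (R : ∀ (G : Type) [Group G], Subgroup G → Prop) (hR : RAx p R) {G : Type} [Group G] [Finite G]
    (r : ℕ) (M M0 P G' : Subgroup G) [M.Normal] (c : G) (c' : G') (hc : (c' : G) = c)
    (hr : r.Prime) (hrp : r ≠ p)
    (hD : Dat p P c) (hle : M0 ≤ M) (hcen : M0 ≤ Subgroup.center G)
    (hMr : ∀ a ∈ M, a ^ r = 1) (hab : ∀ a ∈ M, ∀ b ∈ M, a * b = b * a) (hPc : Pc P c ≤ G')
    (hMG : M ⊔ G' = ⊤) [M0.Normal]
    [(EA M M0 G' (Fin (Nat.card M0 + 1)) Set.univ).Normal]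
    (hC : R (EE M G' (Fin (Nat.card M0 + 1)) ⧸ EA M M0 G' (Fin (Nat.card M0 + 1)) Set.univ)
    ((Pc ((P.subgroupOf G').map (dE M G' (Fin (Nat.card M0 + 1))))
      (dE M G' (Fin (Nat.card M0 + 1)) c')).map
      (QuotientGroup.mk' (EA M M0 G' (Fin (Nat.card M0 + 1)) Set.univ)))) :
    R G (Pc P c) := by
  have hD0 : Dat0 p P c := ⟨hD.pgr, hD.nrm, hD.cop⟩
  obtain ⟨z, hz, E', hE1, hE2, hE3, hE4⟩ := hR.cen (EE M G' (Fin (Nat.card M0 + 1))) r
    (EA M M0 G' (Fin (Nat.card M0 + 1)) Set.univ) _ _ hr hrp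
    (GChn_dat M G' P c (Fin (Nat.card M0 + 1)) c' hD0 hc hPc)
    (fun f hf => GF3a_exp M M0 G' _ r (fun a ha => hMr a (hle ha)) f hf)
    (GF3a_cen M M0 G' _ hcen) hC
  obtain ⟨j, j', hjj, hw⟩ := GF3a_pig
    (fun j => (⟨z.1 (some j), hz.2 j (Set.mem_univ j)⟩ : M0))
  have hzz : z.1 (some j) = z.1 (some j') := congrArg Subtype.val hw
  obtain ⟨φ, hφ, hφs⟩ := (hEA G M M0 G' (Fin (Nat.card M0 + 1))).2 hab hMG j j' hjj
  have hφd : ∀ g : G', φ (dE M G' (Fin (Nat.card M0 + 1)) g) = g := by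
    intro g
    rw [hφ]
    show (g : G) * (g : G)⁻¹ * g = g
    group
  have hφz : φ z = 1 := by
    rw [hφ, hzz, hz.1]
    group
  have hK : M0 ⊔ E'.map φ = ⊤ := by
    rw [eq_top_iff, ← Subgroup.map_top_of_surjective φ hφs, ← hE1, Subgroup.map_sup]
    refine sup_le_sup_right ?_ _
    rintro _ ⟨f, hf, rfl⟩
    rw [hφ]
    exact M0.mul_mem (M0.mul_mem (GF3a_val M M0 G' _ f hf _)
      (M0.inv_mem (GF3a_val M M0 G' _ f hf _))) (GF3a_val M M0 G' _ f hf _)
  have hKn : (E'.map φ).Normal := GCenR_normal M0 _ hcen hK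
  have hPG : P ≤ G' := le_sup_left.trans hPc
  have hPK : P ≤ E'.map φ := by
    intro u hu
    refine ⟨dE M G' (Fin (Nat.card M0 + 1)) ⟨u, hPG hu⟩, hE2 ⟨⟨u, hPG hu⟩, hu, rfl⟩, ?_⟩
    rw [hφd]
  have hKt : E'.map φ = ⊤ := by
    rw [eq_top_iff, ← hD.ncl]
    exact Subgroup.normalClosure_le_normal hPK
  have hs : Function.Surjective (φ.comp E'.subtype) := by
    intro g
    have hg : g ∈ E'.map φ := by rw [hKt]; exact Subgroup.mem_top g
    obtain ⟨e, he, rfl⟩ := hg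
    exact ⟨⟨e, he⟩, rfl⟩
  have h1 := hR.quo E' G (φ.comp E'.subtype) _ hs hE4
  have hle' : Pc ((P.subgroupOf G').map (dE M G' (Fin (Nat.card M0 + 1))))
      (dE M G' (Fin (Nat.card M0 + 1)) c' * z) ≤ E' := by
    refine sup_le hE2 ?_
    rw [Subgroup.zpowers_le]
    exact hE3
  rw [← Subgroup.map_map, Subgroup.map_subgroupOf_eq_of_le hle'] at h1
  have h2 : (Pc ((P.subgroupOf G').map (dE M G' (Fin (Nat.card M0 + 1))))
      (dE M G' (Fin (Nat.card M0 + 1)) c' * z)).map φ = Pc P c := by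
    unfold Pc
    rw [Subgroup.map_sup, MonoidHom.map_zpowers, Subgroup.map_map, map_mul, hφd, hφz, mul_one, hc]
    congr 1
    have h3 : φ.comp (dE M G' (Fin (Nat.card M0 + 1))) = G'.subtype := by
      ext g
      exact hφd g
    rw [h3, Subgroup.map_subgroupOf_eq_of_le hPG]
  rwa [h2] at h1

theorem prf_GF3a (hEA : GEA) (hChn : GChn) : GF3a := by
  intro p _ R hR G _ _ r M M0 P _ c hr hrp hD hM0 hle hcen hMr hab hcomM hchf hRM
  by_cases hMM : M ≤ M0
  · exact GF3a_bot R hR M _ (hMM.trans hcen) hcomM hRM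
  · have hD0 : Dat0 p P c := ⟨hD.pgr, hD.nrm, hD.cop⟩
    obtain ⟨G', hPc, hMG, hRG⟩ := hR.fab G r M P c hr hrp hD0 hMr hab hcomM hRM
    have hcm : c ∈ G' := hPc (Subgroup.mem_sup_right (Subgroup.mem_zpowers c))
    haveI hN : (EA M M0 G' (Fin (Nat.card M0 + 1)) Set.univ).Normal :=
      (hEA G M M0 G' (Fin (Nat.card M0 + 1))).1 hM0 Set.univ
    have hcom : ⁅M, M⁆ ≤ M0 := by
      rw [Subgroup.commutator_le]
      intro a ha b hb
      have h1 := commutatorElement_eq_one_iff_mul_comm.2 (hab a ha b hb)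
      rw [h1]
      exact M0.one_mem
    have hC := hChn p R hR G r M M0 G' P c (Fin (Nat.card M0 + 1)) ⟨c, hcm⟩ hr hD0 rfl hPc hM0 hle
      (fun a ha => by rw [hMr a ha]; exact M0.one_mem) hcom hchf
      (fun h => hMM (hcomM.trans h)) hMG hRG
    exact GF3a_main hEA R hR r M M0 P G' c ⟨c, hcm⟩ rfl hr hrp hD hle hcen hMr hab hPc hMG hC

end GT
end MP7b0bad
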