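import Pool.Agent.Work.MP_7b0bad_ag.SV.GRStmts

set_option autoImplicit false

/-!
# GF3b: elementary abelian `M = [M, G]`
-/

namespace MP7b0bad
namespace GT

open scoped commutatorElement

/-- a normal subgroup maximal among the proper ones inside `N` -/
lemma GF3b_max {G : Type} [Group G] [Finite G] (N : Subgroup G) (hN : N ≠ ⊥) :
    ∃ M1 : Subgroup G, M1.Normal ∧ M1 ≤ N ∧ M1 ≠ N ∧
      ∀ K : Subgroup G, K.Normal → M1 ≤ K → K ≤ N → K = M1 ∨ K = N := by
  obtain ⟨M1, hM1⟩ := (Set.toFinite {K : Subgroup G | K.Normal ∧ K ≤ N ∧ K ≠ N}).exists_maximal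
    ⟨⊥, inferInstance, bot_le, fun h => hN h.symm⟩
  refine ⟨M1, hM1.1.1, hM1.1.2.1, hM1.1.2.2, fun K hK h1 h2 => ?_⟩
  by_cases h3 : K = N
  · exact Or.inr h3
  · exact Or.inl (le_antisymm (hM1.2 ⟨hK, h2, h3⟩ h1) h1)

/-- if `[A, G] ≤ K` then the image of `A` in `G / K` is central -/
lemma GF3b_cen {G : Type} [Group G] (A K : Subgroup G) [K.Normal]
    (h : ⁅A, (⊤ : Subgroup G)⁆ ≤ K) : A.map (QuotientGroup.mk' K) ≤ Subgroup.center (G ⧸ K) := by
  rintro _ ⟨a, ha, rfl⟩
  rw [Subgroup.mem_center_iff]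
  intro g
  obtain ⟨g, rfl⟩ := QuotientGroup.mk'_surjective K g
  have h1 : QuotientGroup.mk' K ⁅a, g⁆ = 1 := (QuotientGroup.eq_one_iff _).2
    (h (Subgroup.commutator_mem_commutator ha (Subgroup.mem_top g)))
  rw [map_commutatorElement, commutatorElement_eq_one_iff_mul_comm] at h1
  exact h1.symm

/-- `[M1, G] ≤ [M1, G, G]` for elementary abelian `r`-groups -/
lemma GF3b_key (hCop : GCop) (hQuo : GQuo) (p r : ℕ) [Fact p.Prime] [Fact r.Prime] {G : Type}
    [Group G] [Finite G] (P M1 : Subgroup G) (c : G) (hrp : r ≠ p) (hD : Dat p P c)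
    (hM1 : M1.Normal) (hr1 : ∀ a ∈ M1, a ^ r = 1) :
    ⁅M1, (⊤ : Subgroup G)⁆ ≤ ⁅⁅M1, (⊤ : Subgroup G)⁆, (⊤ : Subgroup G)⁆ := by
  set M2 : Subgroup G := ⁅M1, (⊤ : Subgroup G)⁆ with hM2
  have hM2n : M2.Normal := Subgroup.commutator_normal M1 ⊤
  set K : Subgroup G := ⁅M2, (⊤ : Subgroup G)⁆ with hK
  have hKn : K.Normal := Subgroup.commutator_normal M2 ⊤
  set q : G →* G ⧸ K := QuotientGroup.mk' K with hq
  have hqs : Function.Surjective q := QuotientGroup.mk'_surjective K
  obtain ⟨hD', -⟩ := hQuo p G (G ⧸ K) q P c hqs hD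
  have hcen2 : M2.map q ≤ Subgroup.center (G ⧸ K) := GF3b_cen M2 K le_rfl
  have hcen1 : M1.map q ≤ Subgroup.center (G ⧸ K) := by
    refine hCop p r (G ⧸ K) (P.map q) (M1.map q) (q c) hrp hD'
      (Subgroup.Normal.map hM1 q hqs) ?_ ?_
    · rw [isPGroup_iff_pow_pow_eq_one]
      rintro ⟨_, a, ha, rfl⟩
      refine ⟨1, ?_⟩
      apply Subtype.ext
      show (q a) ^ r ^ 1 = 1
      rw [pow_one, ← map_pow, hr1 a ha, map_one]
    · rintro _ ⟨u, hu, rfl⟩ _ ⟨a, ha, rfl⟩
      have h1 : a⁻¹ * (u * a * u⁻¹) = ⁅a⁻¹, u⁆ := by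
        rw [commutatorElement_def, inv_inv]
        group
      have h2 : (q a)⁻¹ * (q u * q a * (q u)⁻¹) = q (a⁻¹ * (u * a * u⁻¹)) := by
        simp only [map_mul, map_inv]
      rw [h2, h1]
      exact hcen2 (Subgroup.mem_map_of_mem q
        (Subgroup.commutator_mem_commutator (M1.inv_mem ha) (Subgroup.mem_top u)))
  rw [hM2, Subgroup.commutator_le]
  intro a ha g _
  rw [← QuotientGroup.eq_one_iff (N := K)]
  show q ⁅a, g⁆ = 1
  rw [map_commutatorElement, commutatorElement_eq_one_iff_mul_comm]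
  exact (Subgroup.mem_center_iff.1 (hcen1 (Subgroup.mem_map_of_mem q ha)) (q g)).symm

theorem GF3b_aux (hQuo : GQuo) (hCop : GCop) (hF3a : GF3a) (p : ℕ) [Fact p.Prime]
    (R : ∀ (G : Type) [Group G], Subgroup G → Prop) (hR : RAx p R) (r : ℕ) (hr : r.Prime)
    (hrp : r ≠ p) : ∀ n : ℕ, ∀ (G : Type) [Group G] [Finite G] (N P : Subgroup G) [N.Normal] (c : G),
    Nat.card N = n → Dat p P c → (∀ a ∈ N, a ^ r = 1) → (∀ a ∈ N, ∀ b ∈ N, a * b = b * a) →
    N ≤ ⁅N, (⊤ : Subgroup G)⁆ →
    R (G ⧸ N) ((Pc P c).map (QuotientGroup.mk' N)) → R G (Pc P c) := by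
  haveI : Fact r.Prime := ⟨hr⟩
  intro n
  induction n using Nat.strong_induction_on with
  | _ n IH =>
    intro G _ _ N P hNn c hcard hD hpow hcomm hNN hRN
    by_cases hN : N = ⊥
    · let φ : G ⧸ N →* G := QuotientGroup.lift N (MonoidHom.id G) (by
        intro a ha
        rw [hN] at ha
        exact ha)
      have hφ : φ.comp (QuotientGroup.mk' N) = MonoidHom.id G := by
        ext g
        rfl
      have hφs : Function.Surjective φ := fun g => ⟨QuotientGroup.mk' N g, rfl⟩
      have h1 := hR.quo (G ⧸ N) G φ _ hφs hRN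
      rw [Subgroup.map_map, hφ, Subgroup.map_id] at h1
      exact h1
    · obtain ⟨M1, hM1n, hM1N, hM1ne, hmax⟩ := GF3b_max N hN
      have hkey := GF3b_key hCop hQuo p r P M1 c hrp hD hM1n (fun a ha => hpow a (hM1N ha))
      set M2 : Subgroup G := ⁅M1, (⊤ : Subgroup G)⁆ with hM2
      have hM2n : M2.Normal := Subgroup.commutator_normal M1 ⊤
      have hM21 : M2 ≤ M1 := Subgroup.commutator_le_left M1 ⊤
      have hM2N : M2 ≤ N := hM21.trans hM1N
      set q : G →* G ⧸ M2 := QuotientGroup.mk' M2 with hq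
      have hqs : Function.Surjective q := QuotientGroup.mk'_surjective M2
      obtain ⟨hD', hPc⟩ := hQuo p G (G ⧸ M2) q P c hqs hD
      have hMn : (N.map q).Normal := Subgroup.Normal.map hNn q hqs
      have hker : q.ker ≤ N := by
        rw [hq, QuotientGroup.ker_mk']
        exact hM2N
      have hker1 : q.ker ≤ M1 := by
        rw [hq, QuotientGroup.ker_mk']
        exact hM21
      have hstep : R (G ⧸ M2) ((Pc P c).map q) := by
        rw [hPc]
        refine hF3a p R hR (G ⧸ M2) r (N.map q) (M1.map q) (P.map q) (q c) hr hrp hD'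
          (Subgroup.Normal.map hM1n q hqs) (Subgroup.map_mono hM1N)
          (GF3b_cen M1 M2 le_rfl) ?_ ?_ ?_ ?_ ?_
        · rintro _ ⟨a, ha, rfl⟩
          rw [← map_pow, hpow a ha, map_one]
        · rintro _ ⟨a, ha, rfl⟩ _ ⟨b, hb, rfl⟩
          rw [← map_mul, ← map_mul, hcomm a ha b hb]
        · have h1 : N.map q ≤ (⁅N, (⊤ : Subgroup G)⁆).map q := Subgroup.map_mono hNN
          rw [Subgroup.map_commutator, Subgroup.map_top_of_surjective q hqs] at h1
          exact h1
        · intro K hK h1 h2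
          have h3 : M1 ≤ K.comap q := Subgroup.map_le_iff_le_comap.1 h1
          have h4 : K.comap q ≤ N := by
            have h5 := Subgroup.comap_mono (f := q) h2
            rwa [Subgroup.comap_map_eq_self hker] at h5
          have h6 : (K.comap q).map q = K := Subgroup.map_comap_eq_self_of_surjective hqs K
          rcases hmax (K.comap q) (Subgroup.Normal.comap hK q) h3 h4 with h7 | h7
          · left
            rw [← h6, h7]
          · right
            rw [← h6, h7]
        · have hBk : N ≤ ((QuotientGroup.mk' (N.map q)).comp q).ker := by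
            intro b hb
            rw [MonoidHom.mem_ker, MonoidHom.comp_apply]
            exact (QuotientGroup.eq_one_iff (q b)).2 (Subgroup.mem_map_of_mem q hb)
          let φ : G ⧸ N →* (G ⧸ M2) ⧸ (N.map q) := QuotientGroup.lift N
            ((QuotientGroup.mk' (N.map q)).comp q) (fun b hb => hBk hb)
          have hφ : φ.comp (QuotientGroup.mk' N) = (QuotientGroup.mk' (N.map q)).comp q := by
            ext g
            rfl
          have hφs : Function.Surjective φ := by
            intro z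
            obtain ⟨y, rfl⟩ := QuotientGroup.mk'_surjective (N.map q) z
            obtain ⟨g, rfl⟩ := hqs y
            exact ⟨QuotientGroup.mk' N g, rfl⟩
          have h1 := hR.quo (G ⧸ N) ((G ⧸ M2) ⧸ (N.map q)) φ _ hφs hRN
          rw [Subgroup.map_map, hφ, ← Subgroup.map_map, hPc] at h1
          exact h1
      have hlt : Nat.card M2 < n := by
        rw [← hcard]
        have h1 : M2 < N := lt_of_le_of_ne hM2N (fun h => hM1ne (le_antisymm hM1N (h ▸ hM21)))
        exact Set.ncard_lt_ncard (by exact_mod_cast h1) (Set.toFinite _)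
      exact IH (Nat.card M2) hlt G M2 P c rfl hD (fun a ha => hpow a (hM2N ha))
        (fun a ha b hb => hcomm a (hM2N ha) b (hM2N hb)) hkey hstep

theorem prf_GF3b (hQuo : GQuo) (hCop : GCop) (hF3a : GF3a) : GF3b := by
  intro p _ R hR G _ _ r N P _ c hr hrp hD hpow hcomm hNN hRN
  exact GF3b_aux hQuo hCop hF3a p R hR r hr hrp (Nat.card N) G N P c rfl hD hpow hcomm hNN hRN

end GT
end MP7b0bad
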