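import Pool.Agent.Work.MP_7b0bad_ag.SV.GTStmts

set_option autoImplicit false

/-!
# Normality of the subgroups `FK` of the fibre product
-/

open scoped commutatorElement

namespace MP7b0bad
namespace GT

theorem prf_GFN : GFN := by
  intro G _ N A Z _ _ _ I hAN
  refine ⟨?_⟩
  intro f hf g
  refine ⟨fun i => ?_, fun i j => ?_⟩
  · have h1 : g.1 i * f.1 i * (g.1 i)⁻¹ ∈ A :=
      Subgroup.Normal.conj_mem inferInstance _ (hf.1 i) _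
    exact h1
  · have hn : (g.1 i)⁻¹ * g.1 j ∈ N := g.2 i j
    have hc : ⁅(f.1 j)⁻¹, (g.1 i)⁻¹ * g.1 j⁆ ∈ Z :=
      hAN (Subgroup.commutator_mem_commutator (A.inv_mem (hf.1 j)) hn)
    have h2 : (f.1 i)⁻¹ * f.1 j * ⁅(f.1 j)⁻¹, (g.1 i)⁻¹ * g.1 j⁆ ∈ Z :=
      Z.mul_mem (hf.2 i j) hc
    have h3 : g.1 i * ((f.1 i)⁻¹ * f.1 j * ⁅(f.1 j)⁻¹, (g.1 i)⁻¹ * g.1 j⁆) * (g.1 i)⁻¹ ∈ Z :=
      Subgroup.Normal.conj_mem inferInstance _ h2 _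
    have h4 : g.1 i * ((f.1 i)⁻¹ * f.1 j * ⁅(f.1 j)⁻¹, (g.1 i)⁻¹ * g.1 j⁆) * (g.1 i)⁻¹ =
        (g.1 i * f.1 i * (g.1 i)⁻¹)⁻¹ * (g.1 j * f.1 j * (g.1 j)⁻¹) := by
      rw [commutatorElement_def]
      group
    rw [h4] at h3
    exact h3

end GT
end MP7b0bad
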