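import Pool.Agent.Work.MP_7b0bad_ag.SV.GTStmts

set_option autoImplicit false

/-!
# The hypotheses of the problem give the data
-/

namespace MP7b0bad
namespace GT

theorem GHyp_mem {G : Type} [Group G] [Finite G] (p : ℕ) (G₀ G₁ : Subgroup G)
    (hn : (G₁.subgroupOf G₀).Normal)
    (hco : Nat.Coprime (G₁.subgroupOf G₀).index p) (a : ℕ) (h : G) (hh : h ∈ G₀)
    (hp : h ^ (p ^ a) = 1) : h ∈ G₁ := by
  have h1 : ((QuotientGroup.mk' (G₁.subgroupOf G₀)) ⟨h, hh⟩) ^ (p ^ a) = 1 := by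
    rw [← map_pow]
    have h2 : (⟨h, hh⟩ : G₀) ^ (p ^ a) = 1 := Subtype.ext hp
    rw [h2, map_one]
  have h3 : ((QuotientGroup.mk' (G₁.subgroupOf G₀)) ⟨h, hh⟩) ^ (G₁.subgroupOf G₀).index = 1 := by
    rw [Subgroup.index_eq_card]
    exact pow_card_eq_one'
  have h4 : orderOf ((QuotientGroup.mk' (G₁.subgroupOf G₀)) ⟨h, hh⟩) ∣
      Nat.gcd ((G₁.subgroupOf G₀).index) (p ^ a) :=
    Nat.dvd_gcd (orderOf_dvd_of_pow_eq_one h3) (orderOf_dvd_of_pow_eq_one h1)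
  have h5 : Nat.gcd ((G₁.subgroupOf G₀).index) (p ^ a) = 1 := Nat.Coprime.pow_right a hco
  rw [h5, Nat.dvd_one, orderOf_eq_one_iff] at h4
  have h6 : (⟨h, hh⟩ : G₀) ∈ G₁.subgroupOf G₀ := (QuotientGroup.eq_one_iff _).1 h4
  exact Subgroup.mem_subgroupOf.1 h6

theorem prf_GHyp : GHyp := by
  intro p _ G _ _ G₀ G₁ hle hn hp hco hgen hncl
  obtain ⟨g, hg⟩ := hgen
  have hpp : p.Prime := Fact.out
  have hgG : g ∈ G₀ := by
    rw [← hg]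
    exact (le_sup_right : Subgroup.zpowers g ≤ G₁ ⊔ Subgroup.zpowers g) (Subgroup.mem_zpowers g)
  have hn0 : orderOf g ≠ 0 := (orderOf_pos g).ne'
  obtain ⟨a, m, hm, hnm⟩ := Nat.exists_eq_pow_mul_and_not_dvd hn0 p hpp.ne_one
  have hcop : Nat.Coprime (p ^ a) m :=
    Nat.Coprime.pow_left a ((Nat.Prime.coprime_iff_not_dvd hpp).2 hm)
  obtain ⟨u, v, huv⟩ := Nat.isCoprime_iff_coprime.2 hcop
  have hord : ∀ k : ℤ, g ^ (k * ((p ^ a : ℕ) : ℤ) * (m : ℤ)) = 1 := by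
    intro k
    rw [← orderOf_dvd_iff_zpow_eq_one, hnm, Nat.cast_mul, mul_assoc]
    exact Dvd.intro_left _ rfl
  have hc : (g ^ (u * ((p ^ a : ℕ) : ℤ))) ^ m = 1 := by
    rw [← zpow_natCast, ← zpow_mul]
    exact hord u
  have hcG : g ^ (u * ((p ^ a : ℕ) : ℤ)) ∈ G₀ := G₀.zpow_mem hgG _
  have hh : g⁻¹ * g ^ (u * ((p ^ a : ℕ) : ℤ)) ∈ G₁ := by
    refine GHyp_mem p G₀ G₁ hn hco a _ (G₀.mul_mem (G₀.inv_mem hgG) hcG) ?_
    have h1 : g⁻¹ * g ^ (u * ((p ^ a : ℕ) : ℤ)) = g ^ (-(v * (m : ℤ))) := by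
      rw [← zpow_neg_one, ← zpow_add]
      congr 1
      linarith
    rw [h1, ← zpow_natCast, ← zpow_mul]
    have h2 : -(v * (m : ℤ)) * ((p ^ a : ℕ) : ℤ) = (-v) * ((p ^ a : ℕ) : ℤ) * (m : ℤ) := by ring
    rw [h2]
    exact hord _
  refine ⟨g ^ (u * ((p ^ a : ℕ) : ℤ)), ⟨hp, ?_, ?_, hncl⟩, ?_⟩
  · intro w hw
    have h1 := hn.conj_mem ⟨w, hle hw⟩ (Subgroup.mem_subgroupOf.2 hw) ⟨_, hcG⟩
    exact Subgroup.mem_subgroupOf.1 h1
  · intro hd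
    exact hm (hd.trans (orderOf_dvd_of_pow_eq_one hc))
  · apply le_antisymm
    · rw [← hg]
      refine sup_le le_sup_left ?_
      rw [Subgroup.zpowers_le]
      have h2 := Subgroup.mul_mem (Pc G₁ (g ^ (u * ((p ^ a : ℕ) : ℤ))))
        ((le_sup_right : Subgroup.zpowers (g ^ (u * ((p ^ a : ℕ) : ℤ))) ≤
          Pc G₁ (g ^ (u * ((p ^ a : ℕ) : ℤ)))) (Subgroup.mem_zpowers _))
        (Subgroup.inv_mem _ ((le_sup_left : G₁ ≤ Pc G₁ (g ^ (u * ((p ^ a : ℕ) : ℤ)))) hh))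
      rwa [mul_inv_rev, inv_inv, mul_inv_cancel_left] at h2
    · refine sup_le hle ?_
      rw [Subgroup.zpowers_le]
      exact hcG

end GT
end MP7b0bad
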