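import Mathlib

set_option autoImplicit false

/-!
# Group theory for the inertia conjecture with tame part (solvable normal subgroups)

`R G G₀` is an abstract relation between finite groups and subgroups with the properties `TAx`. It is
shown that `R (G ⧸ N) (G₀ N / N)` implies `R G G₀` for solvable normal subgroups `N` such that the
order of `N / [N, G]` is prime to the order of the tame part (and for `N = G` solvable).

The main step: `N` minimal among the noncentral normal subgroups, an `r`-group. The fibre product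
`Fib N I` of `|I|` copies of `G` over `G ⧸ N`, `I = [N, N]`, has the normal subgroups
`FK N N ≥ FK N [N,N] ≥ FK [N,N] ⊥` with elementary abelian quotients; the last one is central, the
lift to `Fib N I` is determined up to `z ∈ [N, N]`, and there is a coordinate with the right value.
-/

namespace MP7b0bad
namespace GT

/-- `P` is a `p`-group with normal closure `G`, `c` normalises `P` and has order prime to `p` -/
structure Dat (p : ℕ) {G : Type} [Group G] (P : Subgroup G) (c : G) : Prop where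
  pgr : IsPGroup p P
  nrm : ∀ u ∈ P, c * u * c⁻¹ ∈ P
  cop : ¬ p ∣ orderOf c
  ncl : Subgroup.normalClosure (P : Set G) = ⊤

/-- `P ⟨c⟩` -/
def Pc {G : Type} [Group G] (P : Subgroup G) (c : G) : Subgroup G := P ⊔ Subgroup.zpowers c

/-- the properties used -/
structure TAx (p : ℕ) (R : ∀ (G : Type) [Group G], Subgroup G → Prop) : Prop where
  /-- quotients -/
  quo : ∀ (G G' : Type) [Group G] [Finite G] [Group G'] (q : G →* G') (G₀ : Subgroup G),
    Function.Surjective q → R G G₀ → R G' (G₀.map q)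
  /-- the trivial group -/
  triv : ∀ (G : Type) [Group G], Subsingleton G → ∀ G₀ : Subgroup G, R G G₀
  /-- base change `x = u ^ M` -/
  bc : ∀ (G : Type) [Group G] [Finite G] (P : Subgroup G) (c : G) (M : ℕ), Dat p P c → ¬ p ∣ M →
    R G (Pc P c) → R G (Pc P (c ^ M))
  /-- minimal normal `p`-subgroups -/
  pks : ∀ (G : Type) [Group G] [Finite G] (N P : Subgroup G) [N.Normal] (c : G), Dat p P c →
    (∀ a ∈ N, a ^ p = 1) → (∀ a ∈ N, ∀ b ∈ N, a * b = b * a) →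
    (∀ K : Subgroup G, K.Normal → K ≤ N → K = ⊥ ∨ K = N) →
    R (G ⧸ N) ((Pc P c).map (QuotientGroup.mk' N)) → R G (Pc P c)
  /-- elementary abelian `r`-subgroups `N` with `[N, G] = N` -/
  f3s : ∀ (G : Type) [Group G] [Finite G] (r : ℕ) (N P : Subgroup G) [N.Normal] (c : G),
    r.Prime → r ≠ p → Dat p P c → (∀ a ∈ N, a ^ r = 1) → (∀ a ∈ N, ∀ b ∈ N, a * b = b * a) →
    N ≤ ⁅N, (⊤ : Subgroup G)⁆ →
    R (G ⧸ N) ((Pc P c).map (QuotientGroup.mk' N)) → R G (Pc P c)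
  /-- central subgroups of prime order `r` -/
  cen : ∀ (G : Type) [Group G] [Finite G] (r : ℕ) (Z P : Subgroup G) [Z.Normal] (c : G),
    r.Prime → r ≠ p → Dat p P c → Nat.card Z = r → Z ≤ Subgroup.center G →
    R (G ⧸ Z) ((Pc P c).map (QuotientGroup.mk' Z)) → ∃ z ∈ Z, R G (Pc P (c * z))

/-! ## Formal consequences -/

/-- quotients of the data -/
def GQuo : Prop := ∀ (p : ℕ) [Fact p.Prime] (G G' : Type) [Group G] [Finite G] [Group G']
  (q : G →* G') (P : Subgroup G) (c : G), Function.Surjective q → Dat p P c →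
  Dat p (P.map q) (q c) ∧ (Pc P c).map q = Pc (P.map q) (q c)

/-- sections: normal subgroups `A ≤ B` with `B / A` elementary abelian and `[B, G] A = B` -/
def GSec : Prop := ∀ (p : ℕ) [Fact p.Prime] (R : ∀ (G : Type) [Group G], Subgroup G → Prop),
  TAx p R → ∀ (G : Type) [Group G] [Finite G] (r : ℕ) (A B P : Subgroup G) [A.Normal] [B.Normal]
  (c : G), r.Prime → r ≠ p → Dat p P c → A ≤ B → (∀ b ∈ B, b ^ r ∈ A) → ⁅B, B⁆ ≤ A →
  B ≤ ⁅B, (⊤ : Subgroup G)⁆ ⊔ A → R (G ⧸ B) ((Pc P c).map (QuotientGroup.mk' B)) →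
  R (G ⧸ A) ((Pc P c).map (QuotientGroup.mk' A))

/-- central elementary abelian `r`-subgroups -/
def GCen : Prop := ∀ (p : ℕ) [Fact p.Prime] (R : ∀ (G : Type) [Group G], Subgroup G → Prop),
  TAx p R → ∀ (G : Type) [Group G] [Finite G] (r : ℕ) (Z P : Subgroup G) [Z.Normal] (c : G),
  r.Prime → r ≠ p → Dat p P c → (∀ a ∈ Z, a ^ r = 1) → Z ≤ Subgroup.center G →
  R (G ⧸ Z) ((Pc P c).map (QuotientGroup.mk' Z)) → ∃ z ∈ Z, R G (Pc P (c * z))

/-- central subgroups of prime order `r` prime to the order of `c` -/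
def GBC : Prop := ∀ (p : ℕ) [Fact p.Prime] (R : ∀ (G : Type) [Group G], Subgroup G → Prop),
  TAx p R → ∀ (G : Type) [Group G] [Finite G] (r : ℕ) (Z P : Subgroup G) [Z.Normal] (c : G),
  r.Prime → r ≠ p → Dat p P c → Nat.card Z = r → Z ≤ Subgroup.center G → ¬ r ∣ orderOf c →
  R (G ⧸ Z) ((Pc P c).map (QuotientGroup.mk' Z)) → R G (Pc P c)

/-! ## Minimal noncentral normal subgroups -/

/-- `N` is a noncentral normal `r`-subgroup, the smaller normal subgroups are central -/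
structure MinNC (r : ℕ) {G : Type} [Group G] (N : Subgroup G) : Prop where
  nrm : N.Normal
  pgr : IsPGroup r N
  nc : ¬ N ≤ Subgroup.center G
  min : ∀ K : Subgroup G, K.Normal → K ≤ N → K ≠ N → K ≤ Subgroup.center G

/-- coprime action -/
def GCop : Prop := ∀ (p r : ℕ) [Fact p.Prime] [Fact r.Prime] (G : Type) [Group G] [Finite G]
  (P N : Subgroup G) (c : G), r ≠ p → Dat p P c → N.Normal → IsPGroup r N →
  (∀ u ∈ P, ∀ a ∈ N, a⁻¹ * (u * a * u⁻¹) ∈ Subgroup.center G) → N ≤ Subgroup.center G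

/-- structure of `N` -/
def GStr : Prop := ∀ (p r : ℕ) [Fact p.Prime] [Fact r.Prime] (G : Type) [Group G] [Finite G]
  (P N : Subgroup G) (c : G), r ≠ p → Dat p P c → MinNC r N →
  N ≤ ⁅N, (⊤ : Subgroup G)⁆ ∧ ⁅N, N⁆ ≤ Subgroup.center G ∧ (∀ a ∈ N, a ^ r ∈ ⁅N, N⁆) ∧
  ∀ z ∈ ⁅N, N⁆, z ^ r = 1

/-- existence: a noncentral solvable normal subgroup contains a minimal one, an `r`-group -/
def GEx : Prop := ∀ (G : Type) [Group G] [Finite G] (N : Subgroup G), N.Normal →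
  Group.IsSolvable N → ¬ N ≤ Subgroup.center G →
  ∃ (r : ℕ) (N1 : Subgroup G), r.Prime ∧ MinNC r N1 ∧ N1 ≤ N

/-- minimal normal subgroups inside normal `p`-subgroups are elementary abelian -/
def GPmin : Prop := ∀ (p : ℕ) [Fact p.Prime] (G : Type) [Group G] [Finite G] (N : Subgroup G),
  N.Normal → IsPGroup p N → N ≠ ⊥ →
  ∃ K : Subgroup G, K.Normal ∧ K ≤ N ∧ K ≠ ⊥ ∧ (∀ a ∈ K, a ^ p = 1) ∧
    (∀ a ∈ K, ∀ b ∈ K, a * b = b * a) ∧ ∀ L : Subgroup G, L.Normal → L ≤ K → L = ⊥ ∨ L = K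

/-! ## Fibre products -/

section

variable {G : Type} [Group G] (N : Subgroup G) [N.Normal] (I : Type)

/-- functions `I → G` that are constant modulo `N` -/
def Fib : Subgroup (I → G) where
  carrier := {f | ∀ i j, (f i)⁻¹ * f j ∈ N}
  one_mem' := fun i j => by simp
  mul_mem' := by
    intro f g hf hg i j
    have h1 : (g i)⁻¹ * ((f i)⁻¹ * f j) * ((g i)⁻¹)⁻¹ ∈ N :=
      Subgroup.Normal.conj_mem inferInstance _ (hf i j) _
    have h2 := N.mul_mem h1 (hg i j)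
    have h3 : (g i)⁻¹ * ((f i)⁻¹ * f j) * ((g i)⁻¹)⁻¹ * ((g i)⁻¹ * g j) =
        ((f * g) i)⁻¹ * (f * g) j := by
      simp only [Pi.mul_apply]
      group
    rwa [h3] at h2
  inv_mem' := by
    intro f hf i j
    have h1 : f i * ((f j)⁻¹ * f i) * (f i)⁻¹ ∈ N :=
      Subgroup.Normal.conj_mem inferInstance _ (hf j i) _
    have h2 : f i * ((f j)⁻¹ * f i) * (f i)⁻¹ = (f⁻¹ i)⁻¹ * f⁻¹ j := by
      simp only [Pi.inv_apply]
      group
    rwa [h2] at h1

/-- constant functions -/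
def dg : G →* Fib N I where
  toFun g := ⟨fun _ => g, fun i j => by simp⟩
  map_one' := rfl
  map_mul' _ _ := rfl

/-- evaluation -/
def ev (i : I) : Fib N I →* G where
  toFun f := f.1 i
  map_one' := rfl
  map_mul' _ _ := rfl

/-- functions with values in `A`, constant modulo `Z` -/
def FK (A Z : Subgroup G) [Z.Normal] : Subgroup (Fib N I) where
  carrier := {f | (∀ i, f.1 i ∈ A) ∧ ∀ i j, (f.1 i)⁻¹ * f.1 j ∈ Z}
  one_mem' := ⟨fun i => A.one_mem, fun i j => by simp⟩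
  mul_mem' := by
    intro f g hf hg
    exact ⟨fun i => A.mul_mem (hf.1 i) (hg.1 i), fun i j => (Fib Z I).mul_mem hf.2 hg.2 i j⟩
  inv_mem' := by
    intro f hf
    exact ⟨fun i => A.inv_mem (hf.1 i), fun i j => (Fib Z I).inv_mem hf.2 i j⟩

end

/-- normality of `FK` -/
def GFN : Prop := ∀ (G : Type) [Group G] (N A Z : Subgroup G) [N.Normal] [A.Normal] [Z.Normal]
  (I : Type), ⁅A, N⁆ ≤ Z → (FK N I A Z).Normal

/-- the tame element `i ↦ c i` of the fibre product (`I = Z`) -/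
def ch {G : Type} [Group G] (N Z : Subgroup G) [N.Normal] (h : Z ≤ N) (c : G) : Fib N Z :=
  ⟨fun i => c * i, fun i j => by
    have h1 : (c * (i : G))⁻¹ * (c * (j : G)) = (i : G)⁻¹ * j := by group
    rw [h1]
    exact N.mul_mem (N.inv_mem (h i.2)) (h j.2)⟩

/-- the data on the fibre product -/
def GDat : Prop := ∀ (p r : ℕ) [Fact p.Prime] [Fact r.Prime] (G : Type) [Group G] [Finite G]
  (P N Z : Subgroup G) [N.Normal] (c : G) (h : Z ≤ N), r ≠ p → Dat p P c →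
  MinNC r N → Z = ⁅N, N⁆ → Dat p (P.map (dg N Z)) (ch N Z h c)

/-- commutators of coordinate functions: `FK N N ≤ [FK N N, ⊤]` and `FK N [N,N] ≤ [FK N [N,N], ⊤]` -/
def GCom : Prop := ∀ (G : Type) [Group G] [Finite G] (N : Subgroup G) [N.Normal] (I : Type)
  [Finite I], N ≤ ⁅N, (⊤ : Subgroup G)⁆ → ⁅N, N⁆ ≤ Subgroup.center G →
  FK N I N N ≤ ⁅FK N I N N, (⊤ : Subgroup (Fib N I))⁆ ∧
  FK N I N ⁅N, N⁆ ≤ ⁅FK N I N ⁅N, N⁆, (⊤ : Subgroup (Fib N I))⁆

/-- powers and commutators -/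
def GPow : Prop := ∀ (r : ℕ) [Fact r.Prime] (G : Type) [Group G] [Finite G] (N : Subgroup G)
  [N.Normal] (I : Type) [Finite I], ⁅N, N⁆ ≤ Subgroup.center G → (∀ a ∈ N, a ^ r ∈ ⁅N, N⁆) →
  (∀ z ∈ ⁅N, N⁆, z ^ r = 1) →
  (∀ f ∈ FK N I N N, f ^ r ∈ FK N I N ⁅N, N⁆) ∧ ⁅FK N I N N, FK N I N N⁆ ≤ FK N I N ⁅N, N⁆ ∧
  (∀ f ∈ FK N I N ⁅N, N⁆, f ^ r ∈ FK N I ⁅N, N⁆ ⊥) ∧
  ⁅FK N I N ⁅N, N⁆, FK N I N ⁅N, N⁆⁆ ≤ FK N I ⁅N, N⁆ ⊥ ∧
  (∀ f ∈ FK N I ⁅N, N⁆ ⊥, f ^ r = 1) ∧ FK N I ⁅N, N⁆ ⊥ ≤ Subgroup.center (Fib N I)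

/-- the main step -/
def GKey : Prop := ∀ (p r : ℕ) [Fact p.Prime] [Fact r.Prime]
  (R : ∀ (G : Type) [Group G], Subgroup G → Prop), TAx p R → ∀ (G : Type) [Group G] [Finite G]
  (P N : Subgroup G) [N.Normal] (c : G), r ≠ p → Dat p P c → MinNC r N →
  R (G ⧸ N) ((Pc P c).map (QuotientGroup.mk' N)) → R G (Pc P c)

/-! ## The theorems -/

/-- the condition on `N` -/
def CopC (p : ℕ) {G : Type} [Group G] (N : Subgroup G) (c : G) : Prop :=
  ∀ r : ℕ, r.Prime → r ≠ p → r ∣ ⁅N, (⊤ : Subgroup G)⁆.relIndex N → ¬ r ∣ orderOf c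

/-- the data modulo a normal subgroup `K ≤ N` -/
def GStep : Prop := ∀ (p : ℕ) [Fact p.Prime] (R : ∀ (G : Type) [Group G], Subgroup G → Prop),
  TAx p R → ∀ (G : Type) [Group G] [Finite G] (P N K : Subgroup G) [N.Normal] [K.Normal] (c : G),
  Dat p P c → Group.IsSolvable N → CopC p N c → K ≤ N →
  R (G ⧸ N) ((Pc P c).map (QuotientGroup.mk' N)) →
  ∃ _ : (N.map (QuotientGroup.mk' K)).Normal,
  Dat p (P.map (QuotientGroup.mk' K)) (QuotientGroup.mk' K c) ∧
  Group.IsSolvable (N.map (QuotientGroup.mk' K)) ∧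
  CopC p (N.map (QuotientGroup.mk' K)) (QuotientGroup.mk' K c) ∧
  (K ≠ ⊥ → Nat.card (N.map (QuotientGroup.mk' K)) < Nat.card N) ∧
  R ((G ⧸ K) ⧸ (N.map (QuotientGroup.mk' K)))
    ((Pc (P.map (QuotientGroup.mk' K)) (QuotientGroup.mk' K c)).map
      (QuotientGroup.mk' (N.map (QuotientGroup.mk' K)))) ∧
  (Pc P c).map (QuotientGroup.mk' K) = Pc (P.map (QuotientGroup.mk' K)) (QuotientGroup.mk' K c)

/-- solvable normal subgroups -/
def GMain : Prop := ∀ (p : ℕ) [Fact p.Prime] (R : ∀ (G : Type) [Group G], Subgroup G → Prop),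
  TAx p R → ∀ (G : Type) [Group G] [Finite G] (P N : Subgroup G) [N.Normal] (c : G), Dat p P c →
  Group.IsSolvable N → CopC p N c → R (G ⧸ N) ((Pc P c).map (QuotientGroup.mk' N)) → R G (Pc P c)

/-- solvable groups -/
def GSolv : Prop := ∀ (p : ℕ) [Fact p.Prime] (R : ∀ (G : Type) [Group G], Subgroup G → Prop),
  TAx p R → ∀ (G : Type) [Group G] [Finite G] (P : Subgroup G) (c : G), Dat p P c →
  Group.IsSolvable G → R G (Pc P c)

/-- the hypotheses of the problem give the data -/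
def GHyp : Prop := ∀ (p : ℕ) [Fact p.Prime] (G : Type) [Group G] [Finite G] (G₀ G₁ : Subgroup G),
  G₁ ≤ G₀ → (G₁.subgroupOf G₀).Normal → IsPGroup p G₁ →
  Nat.Coprime (G₁.subgroupOf G₀).index p → (∃ g : G, G₁ ⊔ Subgroup.zpowers g = G₀) →
  Subgroup.normalClosure (G₁ : Set G) = ⊤ → ∃ c : G, Dat p G₁ c ∧ G₀ = Pc G₁ c

end GT
end MP7b0bad
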