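import Mathlib
import Pool.Agent.Work.MP_7b0bad_ag.SV.GTStmts

set_option autoImplicit false

/-!
# The main step: minimal noncentral normal subgroups

The data are lifted to the fibre product of copies of `G` over `G ⧸ N` indexed by `[N, N]`; the lift
is determined up to an element `z` of `[N, N]`, and the coordinate `z⁻¹` has the right value.
-/

namespace MP7b0bad
namespace GT

theorem GKey_pcmap {G G' : Type} [Group G] [Group G'] (q : G →* G') (P : Subgroup G) (c : G) :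
    (Pc P c).map q = Pc (P.map q) (q c) := by
  unfold Pc
  rw [Subgroup.map_sup, MonoidHom.map_zpowers]

theorem GKey_mem_FK {G : Type} [Group G] (N : Subgroup G) [N.Normal] (I : Type)
    (A Z : Subgroup G) [Z.Normal] (f : Fib N I) :
    f ∈ FK N I A Z ↔ (∀ i, f.1 i ∈ A) ∧ ∀ i j, (f.1 i)⁻¹ * f.1 j ∈ Z := Iff.rfl

theorem GKey_le {G : Type} [Group G] (N : Subgroup G) [N.Normal] (I : Type)
    (A A' Z Z' : Subgroup G) [Z.Normal] [Z'.Normal] (h : A ≤ A') (h' : Z ≤ Z') :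
    FK N I A Z ≤ FK N I A' Z' := by
  intro f hf
  exact ⟨fun i => h (hf.1 i), fun i j => h' (hf.2 i j)⟩

/-- the first step: the data on `G ⧸ N` give those on `F ⧸ FK N N` -/
theorem GKey_first {G : Type} [Group G] [Finite G] (p : ℕ)
    (R : ∀ (G : Type) [Group G], Subgroup G → Prop) (hR : TAx p R)
    (P N Z : Subgroup G) [N.Normal] (c : G) (h : Z ≤ N) [(FK N Z N N).Normal]
    (hG : R (G ⧸ N) ((Pc P c).map (QuotientGroup.mk' N))) :
    R (Fib N Z ⧸ FK N Z N N)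
      ((Pc (P.map (dg N Z)) (ch N Z h c)).map (QuotientGroup.mk' (FK N Z N N))) := by
  have hle : N ≤ (FK N Z N N).comap (dg N Z) := by
    intro a ha
    refine ⟨fun _ => ha, fun i j => ?_⟩
    exact N.mul_mem (N.inv_mem ha) ha
  have h1 : R (Fib N Z ⧸ FK N Z N N) (((Pc P c).map (QuotientGroup.mk' N)).map
      (QuotientGroup.map N (FK N Z N N) (dg N Z) hle)) := by
    refine hR.quo _ _ _ _ ?_ hG
    intro x
    obtain ⟨f, rfl⟩ := QuotientGroup.mk'_surjective (FK N Z N N) x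
    refine ⟨QuotientGroup.mk' N (f.1 1), ?_⟩
    change QuotientGroup.mk' (FK N Z N N) (dg N Z (f.1 1)) = QuotientGroup.mk' (FK N Z N N) f
    refine (QuotientGroup.eq (s := FK N Z N N)).2 ?_
    refine ⟨fun i => f.2 1 i, fun i j => ?_⟩
    change ((f.1 1)⁻¹ * f.1 i)⁻¹ * ((f.1 1)⁻¹ * f.1 j) ∈ N
    have h2 : ((f.1 1)⁻¹ * f.1 i)⁻¹ * ((f.1 1)⁻¹ * f.1 j) = (f.1 i)⁻¹ * f.1 j := by group
    rw [h2]
    exact f.2 i j
  have h2 : ((Pc P c).map (QuotientGroup.mk' N)).map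
      (QuotientGroup.map N (FK N Z N N) (dg N Z) hle) =
      (Pc (P.map (dg N Z)) (ch N Z h c)).map (QuotientGroup.mk' (FK N Z N N)) := by
    have e1 : (QuotientGroup.map N (FK N Z N N) (dg N Z) hle).comp (QuotientGroup.mk' N) =
        (QuotientGroup.mk' (FK N Z N N)).comp (dg N Z) := by
      ext g
      rfl
    rw [Subgroup.map_map, e1, ← Subgroup.map_map, GKey_pcmap (dg N Z), GKey_pcmap, GKey_pcmap]
    congr 1
    refine (QuotientGroup.eq (s := FK N Z N N)).2 ?_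
    refine ⟨fun i => ?_, fun i j => ?_⟩
    · change c⁻¹ * (c * (i : G)) ∈ N
      have h3 : c⁻¹ * (c * (i : G)) = i := by group
      rw [h3]
      exact h i.2
    · change (c⁻¹ * (c * (i : G)))⁻¹ * (c⁻¹ * (c * (j : G))) ∈ N
      have h3 : (c⁻¹ * (c * (i : G)))⁻¹ * (c⁻¹ * (c * (j : G))) = (i : G)⁻¹ * j := by group
      rw [h3]
      exact N.mul_mem (N.inv_mem (h i.2)) (h j.2)
  rw [h2] at h1
  exact h1

/-- the last step: evaluation at the right coordinate -/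
theorem GKey_last {G : Type} [Group G] [Finite G] (p : ℕ)
    (R : ∀ (G : Type) [Group G], Subgroup G → Prop) (hR : TAx p R)
    (P N Z : Subgroup G) [N.Normal] (c : G) (h : Z ≤ N) (z : Fib N Z) (hz : z ∈ FK N Z Z ⊥)
    (hG : R (Fib N Z) (Pc (P.map (dg N Z)) (ch N Z h c * z))) : R G (Pc P c) := by
  let i0 : Z := ⟨(z.1 1)⁻¹, Z.inv_mem (hz.1 1)⟩
  have hzc : z.1 i0 = z.1 1 := by
    have h1 := hz.2 i0 1
    rw [Subgroup.mem_bot] at h1
    exact (inv_mul_eq_one.1 h1)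
  have h1 := hR.quo _ _ (ev N Z i0) _ (fun g => ⟨dg N Z g, rfl⟩) hG
  have h2 : (Pc (P.map (dg N Z)) (ch N Z h c * z)).map (ev N Z i0) = Pc P c := by
    rw [GKey_pcmap, Subgroup.map_map]
    have e1 : (ev N Z i0).comp (dg N Z) = MonoidHom.id G := by
      ext g
      rfl
    rw [e1, Subgroup.map_id]
    congr 1
    change c * (z.1 1)⁻¹ * z.1 i0 = c
    rw [hzc]
    group
  rw [h2] at h1
  exact h1

theorem prf_GKey (hQuo : GQuo) (hSec : GSec) (hCen : GCen) (hStr : GStr) (hFN : GFN)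
    (hDat : GDat) (hCom : GCom) (hPow : GPow) : GKey := by
  intro p r _ _ R hR G _ _ P N _ c hrp hD hM hG
  obtain ⟨s1, s2, s3, s4⟩ := hStr p r G P N c hrp hD hM
  have hrP : r.Prime := Fact.out
  have hZN : ⁅N, N⁆ ≤ N := Subgroup.commutator_le_right N N
  have n0 : (FK N (⁅N, N⁆ : Subgroup G) N N).Normal := hFN G N N N (⁅N, N⁆ : Subgroup G) hZN
  have n1 : (FK N (⁅N, N⁆ : Subgroup G) N ⁅N, N⁆).Normal := hFN G N N ⁅N, N⁆ (⁅N, N⁆ : Subgroup G) le_rfl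
  have n2 : (FK N (⁅N, N⁆ : Subgroup G) ⁅N, N⁆ ⊥).Normal := by
    refine hFN G N ⁅N, N⁆ ⊥ (⁅N, N⁆ : Subgroup G) ?_
    rw [Subgroup.commutator_le]
    intro a ha b _
    rw [Subgroup.mem_bot, commutatorElement_eq_one_iff_mul_comm]
    exact ((Subgroup.mem_center_iff.1 (s2 ha)) b).symm
  have hD' : Dat p (P.map (dg N (⁅N, N⁆ : Subgroup G))) (ch N ⁅N, N⁆ hZN c) :=
    hDat p r G P N ⁅N, N⁆ c hZN hrp hD hM rfl
  obtain ⟨c1, c2⟩ := hCom G N (⁅N, N⁆ : Subgroup G) s1 s2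
  obtain ⟨w1, w2, w3, w4, w5, w6⟩ := hPow r G N (⁅N, N⁆ : Subgroup G) s2 s3 s4
  have r0 := GKey_first p R hR P N ⁅N, N⁆ c hZN hG
  have r1 := hSec p R hR (Fib N (⁅N, N⁆ : Subgroup G)) r (FK N (⁅N, N⁆ : Subgroup G) N ⁅N, N⁆) (FK N (⁅N, N⁆ : Subgroup G) N N)
    (P.map (dg N (⁅N, N⁆ : Subgroup G))) (ch N ⁅N, N⁆ hZN c) hrP hrp hD'
    (GKey_le N (⁅N, N⁆ : Subgroup G) N N ⁅N, N⁆ N le_rfl hZN) w1 w2 (c1.trans le_sup_left) r0
  have r2 := hSec p R hR (Fib N (⁅N, N⁆ : Subgroup G)) r (FK N (⁅N, N⁆ : Subgroup G) ⁅N, N⁆ ⊥) (FK N (⁅N, N⁆ : Subgroup G) N ⁅N, N⁆)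
    (P.map (dg N (⁅N, N⁆ : Subgroup G))) (ch N ⁅N, N⁆ hZN c) hrP hrp hD'
    (GKey_le N (⁅N, N⁆ : Subgroup G) ⁅N, N⁆ N ⊥ ⁅N, N⁆ hZN bot_le) w3 w4 (c2.trans le_sup_left) r1
  obtain ⟨z, hz, r3⟩ := hCen p R hR (Fib N (⁅N, N⁆ : Subgroup G)) r (FK N (⁅N, N⁆ : Subgroup G) ⁅N, N⁆ ⊥)
    (P.map (dg N (⁅N, N⁆ : Subgroup G))) (ch N ⁅N, N⁆ hZN c) hrP hrp hD' w5 w6 r2
  exact GKey_last p R hR P N ⁅N, N⁆ c hZN z hz r3

end GT
end MP7b0bad
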