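import Pool.Agent.Work.MP_7b0bad_ag.SV.GTStmts

set_option autoImplicit false

/-!
Item GMain: the induction over the order of the solvable normal subgroup `N`.
-/

namespace MP7b0bad
namespace GT

/-- the case of the trivial normal subgroup -/
theorem GMain_bot (p : ℕ) (R : ∀ (G : Type) [Group G], Subgroup G → Prop) (hT : TAx p R)
    (G : Type) [Group G] [Finite G] (N H : Subgroup G) [N.Normal] (hN : N = ⊥)
    (hR : R (G ⧸ N) (H.map (QuotientGroup.mk' N))) : R G H := by
  subst hN
  have h1 := hT.quo (G ⧸ (⊥ : Subgroup G)) G (QuotientGroup.quotientBot (G := G)).toMonoidHom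
    (H.map (QuotientGroup.mk' ⊥)) (QuotientGroup.quotientBot (G := G)).surjective hR
  have h2 : ((QuotientGroup.quotientBot (G := G)).toMonoidHom).comp (QuotientGroup.mk' ⊥) =
      MonoidHom.id G := by
    ext x
    rfl
  rw [Subgroup.map_map, h2, Subgroup.map_id] at h1
  exact h1

theorem prf_GMain (_hQuo : GQuo) (hStep : GStep) (hBC : GBC) (hEx : GEx) (hPmin : GPmin)
    (hKey : GKey) : GMain := by
  intro p _ R hT
  have main : ∀ (n : ℕ) (G : Type) [Group G] [Finite G] (P N : Subgroup G) [N.Normal] (c : G),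
      Nat.card N = n → Dat p P c → Group.IsSolvable N → CopC p N c →
      R (G ⧸ N) ((Pc P c).map (QuotientGroup.mk' N)) → R G (Pc P c) := by
    intro n
    induction n using Nat.strong_induction_on with
    | _ n ih =>
    intro G _ _ P N _ c hn hD hS hC hR
    -- reduction to the quotient by `K`
    have red : ∀ (K : Subgroup G) [K.Normal], K ≤ N → K ≠ ⊥ →
        R (G ⧸ K) ((Pc P c).map (QuotientGroup.mk' K)) := by
      intro K _ hKN hK
      obtain ⟨hnorm, hD', hS', hC', hlt, hR', hPc⟩ := hStep p R hT G P N K c hD hS hC hKN hR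
      rw [hPc]
      have := hnorm
      exact ih _ (by rw [← hn]; exact hlt hK) (G ⧸ K) _ _ _ rfl hD' hS' hC' hR'
    by_cases hbot : N = ⊥
    · exact GMain_bot p R hT G N _ hbot hR
    by_cases hA : ∃ K0 : Subgroup G, K0.Normal ∧ K0 ≤ N ∧ K0 ≠ ⊥ ∧ IsPGroup p K0
    · obtain ⟨K0, hK0, hK0N, hK0b, hK0p⟩ := hA
      obtain ⟨K, hK, hKK0, hKb, hexp, hcomm, hmin⟩ := hPmin p G K0 hK0 hK0p hK0b
      have := hK
      exact hT.pks G K P c hD hexp hcomm hmin (red K (hKK0.trans hK0N) hKb)
    by_cases hcen : N ≤ Subgroup.center G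
    · -- central case
      have hcard1 : Nat.card N ≠ 1 := by
        intro h
        exact hbot (Subgroup.card_eq_one.1 h)
      obtain ⟨r, hr, hrN⟩ := Nat.exists_prime_and_dvd hcard1
      have : Fact r.Prime := ⟨hr⟩
      obtain ⟨a, ha⟩ := exists_prime_orderOf_dvd_card' (G := N) r hrN
      have haG : orderOf (a : G) = r := by rw [Subgroup.orderOf_coe, ha]
      have hKN : Subgroup.zpowers (a : G) ≤ N := by
        rw [Subgroup.zpowers_le]
        exact a.2
      have hKnorm : (Subgroup.zpowers (a : G)).Normal := by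
        refine ⟨fun k hk g => ?_⟩
        have h1 := Subgroup.mem_center_iff.1 (hcen (hKN hk)) g
        rw [h1, mul_inv_cancel_right]
        exact hk
      have hKcard : Nat.card (Subgroup.zpowers (a : G)) = r := by
        rw [Nat.card_zpowers, haG]
      have hKb : Subgroup.zpowers (a : G) ≠ ⊥ := by
        intro h
        rw [h, Subgroup.card_bot] at hKcard
        exact hr.one_lt.ne hKcard
      have hrp : r ≠ p := by
        rintro rfl
        exact hA ⟨_, hKnorm, hKN, hKb, IsPGroup.of_card (n := 1) (by rw [hKcard, pow_one])⟩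
      have hcomm : ⁅N, (⊤ : Subgroup G)⁆ = ⊥ := by
        rw [Subgroup.commutator_eq_bot_iff_le_centralizer]
        intro x hx
        rw [Subgroup.mem_centralizer_iff]
        intro y _
        exact Subgroup.mem_center_iff.1 (hcen hx) y
      have hnot : ¬ r ∣ orderOf c := by
        refine hC r hr hrp ?_
        rw [hcomm, Subgroup.relIndex_bot_left]
        exact hrN
      exact hBC p R hT G r (Subgroup.zpowers (a : G)) P c hr hrp hD hKcard (hKN.trans hcen) hnot
        (red _ hKN hKb)
    · -- noncentral case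
      obtain ⟨r, N1, hr, hmin, hN1⟩ := hEx G N inferInstance hS hcen
      have : Fact r.Prime := ⟨hr⟩
      have := hmin.nrm
      have hN1b : N1 ≠ ⊥ := by
        rintro rfl
        exact hmin.nc bot_le
      have hrp : r ≠ p := by
        rintro rfl
        exact hA ⟨N1, hmin.nrm, hN1, hN1b, hmin.pgr⟩
      exact hKey p r R hT G P N1 c hrp hD hmin (red N1 hN1 hN1b)
  intro G _ _ P N _ c hD hS hC hR
  exact main _ G P N c rfl hD hS hC hR

end GT
end MP7b0bad
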