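import Pool.Agent.Work.MP_7b0bad_ag.SV.GRStmts

set_option autoImplicit false

namespace MP7b0bad
namespace GT

/-- minimal normal `p`-subgroups -/
theorem prf_GPksR : GPksR := by
  intro p _ R hT G _ _ N P _ c hD hNp hNab hNmin hR
  have hp : p.Prime := Fact.out
  have hD0 : Dat0 p P c := ⟨hD.pgr, hD.nrm, hD.cop⟩
  obtain ⟨G', hPc, hN, hRG'⟩ := hT.pke G N P c hD0 hNp hNab hR
  have hdec : ∀ x : G, ∃ n ∈ N, ∃ g ∈ G', n * g = x := by
    intro x
    have hx : x ∈ N ⊔ G' := by rw [hN]; exact Subgroup.mem_top x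
    exact Subgroup.mem_sup_of_normal_left.1 hx
  have hfull : G' = ⊤ → R G (Pc P c) := by
    intro hG
    have hsur : Function.Surjective G'.subtype := by
      intro x
      exact ⟨⟨x, by rw [hG]; exact Subgroup.mem_top x⟩, rfl⟩
    have h1 := hT.quo G' G G'.subtype _ hsur hRG'
    rwa [Subgroup.subgroupOf_map_subtype, inf_eq_left.2 hPc] at h1
  have hnorm : (N ⊓ G').Normal := by
    refine ⟨fun k hk x => ?_⟩
    obtain ⟨n, hn, g, hg, rfl⟩ := hdec x
    have h1 : g * k * g⁻¹ ∈ N := Subgroup.Normal.conj_mem inferInstance k hk.1 g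
    have h2 : g * k * g⁻¹ ∈ G' := G'.mul_mem (G'.mul_mem hg hk.2) (G'.inv_mem hg)
    have h3 : n * g * k * (n * g)⁻¹ = g * k * g⁻¹ := by
      have h4 : n * (g * k * g⁻¹) = (g * k * g⁻¹) * n := hNab n hn _ h1
      calc n * g * k * (n * g)⁻¹ = n * (g * k * g⁻¹) * n⁻¹ := by group
        _ = g * k * g⁻¹ * n * n⁻¹ := by rw [h4]
        _ = g * k * g⁻¹ := by group
    rw [h3]
    exact ⟨h1, h2⟩
  rcases hNmin _ hnorm inf_le_left with h | h
  · by_cases hc : N ≤ Subgroup.center G
    · apply hfull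
      have hGn : G'.Normal := by
        refine ⟨fun k hk x => ?_⟩
        obtain ⟨n, hn, g, hg, rfl⟩ := hdec x
        have h2 : g * k * g⁻¹ ∈ G' := G'.mul_mem (G'.mul_mem hg hk) (G'.inv_mem hg)
        have h3 : n * g * k * (n * g)⁻¹ = g * k * g⁻¹ := by
          have h4 : (g * k * g⁻¹) * n = n * (g * k * g⁻¹) :=
            Subgroup.mem_center_iff.1 (hc hn) _
          calc n * g * k * (n * g)⁻¹ = n * (g * k * g⁻¹) * n⁻¹ := by group
            _ = g * k * g⁻¹ * n * n⁻¹ := by rw [← h4]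
            _ = g * k * g⁻¹ := by group
        rw [h3]
        exact h2
      have hPG : (P : Set G) ⊆ G' := fun x hx => hPc (Subgroup.mem_sup_left hx)
      have h5 : Subgroup.normalClosure (P : Set G) ≤ G' := Subgroup.normalClosure_le_normal hPG
      rw [hD.ncl] at h5
      exact top_le_iff.1 h5
    · exact hT.spl G p N G' P c hp hD0 hNp hNab hNmin hc h hN hPc hRG'
  · apply hfull
    have h1 : N ≤ G' := by
      rw [← h]
      exact inf_le_right
    rw [← hN]
    exact (sup_eq_right.2 h1).symm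

end GT
end MP7b0bad
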