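import Pool.Agent.Work.MP_7b0bad_ag.SV.GTStmts

set_option autoImplicit false

open scoped commutatorElement

namespace MP7b0bad
namespace GT

theorem prf_GPmin : GPmin := by
  intro p hp G _ _ N hN hNp hNb
  haveI := hN
  obtain ⟨K, hKm⟩ := exists_minimal_of_wellFoundedLT
    (fun K : Subgroup G => K.Normal ∧ K ≤ N ∧ K ≠ ⊥) ⟨N, hN, le_refl _, hNb⟩
  obtain ⟨hKn, hKN, hKb⟩ := hKm.prop
  haveI := hKn
  have hmin : ∀ L : Subgroup G, L.Normal → L ≤ K → L = ⊥ ∨ L = K := by
    intro L hL hLK
    by_cases hLb : L = ⊥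
    · exact Or.inl hLb
    · right
      exact le_antisymm hLK (hKm.le_of_le ⟨hL, hLK.trans hKN, hLb⟩ hLK)
  have hKp : IsPGroup p K := hNp.to_le hKN
  haveI : Nontrivial K := (Subgroup.nontrivial_iff_ne_bot K).mpr hKb
  haveI : Group.IsNilpotent K := hKp.isNilpotent
  haveI : Group.IsSolvable K := inferInstance
  have hcomm : ⁅K, K⁆ = ⊥ := by
    rcases hmin ⁅K, K⁆ inferInstance (Subgroup.commutator_le_left K K) with h | h
    · exact h
    · exfalso
      have h1 : commutator K < ⊤ := Group.IsSolvable.commutator_lt_top_of_nontrivial K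
      apply h1.ne
      rw [eq_top_iff]
      intro x _
      have h2 : (x : G) ∈ ⁅K, K⁆ := by rw [h]; exact x.2
      rw [← Subgroup.map_subtype_commutator] at h2
      obtain ⟨y, hy, hyx⟩ := h2
      have : y = x := Subtype.ext hyx
      rwa [this] at hy
  have hab : ∀ a ∈ K, ∀ b ∈ K, a * b = b * a := by
    intro a ha b hb
    have h1 : ⁅a, b⁆ ∈ ⁅K, K⁆ := Subgroup.commutator_mem_commutator ha hb
    rw [hcomm, Subgroup.mem_bot] at h1
    exact commutatorElement_eq_one_iff_mul_comm.mp h1
  have hpow : ∀ a ∈ K, a ^ p = 1 := by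
    let L : Subgroup G :=
      { carrier := {a | a ∈ K ∧ a ^ p = 1}
        one_mem' := ⟨K.one_mem, one_pow p⟩
        mul_mem' := by
          rintro a b ⟨ha, ha'⟩ ⟨hb, hb'⟩
          refine ⟨K.mul_mem ha hb, ?_⟩
          have : Commute a b := hab a ha b hb
          rw [this.mul_pow, ha', hb', one_mul]
        inv_mem' := by
          rintro a ⟨ha, ha'⟩
          refine ⟨K.inv_mem ha, ?_⟩
          rw [inv_pow, ha', inv_one] }
    have hLn : L.Normal := by
      constructor
      rintro a ⟨ha, ha'⟩ g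
      refine ⟨hKn.conj_mem a ha g, ?_⟩
      rw [conj_pow, ha', mul_one, mul_inv_cancel]
    have hLK : L ≤ K := fun a ha => ha.1
    have hLb : L ≠ ⊥ := by
      have hdvd : p ∣ Nat.card K := by
        obtain ⟨n, hn⟩ := IsPGroup.iff_card.mp hKp
        have hn0 : n ≠ 0 := by
          rintro rfl
          rw [pow_zero] at hn
          have := (Nat.card_eq_one_iff_unique.mp hn).1
          exact not_subsingleton K this
        rw [hn]
        exact dvd_pow_self p hn0
      obtain ⟨x, hx⟩ := exists_prime_orderOf_dvd_card' p hdvd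
      intro hb
      have h1 : (x : G) ∈ L := by
        refine ⟨x.2, ?_⟩
        have := pow_orderOf_eq_one x
        rw [hx] at this
        exact_mod_cast congrArg Subtype.val this
      rw [hb, Subgroup.mem_bot] at h1
      have h2 : x = 1 := Subtype.ext h1
      rw [h2, orderOf_one] at hx
      exact hp.out.one_lt.ne hx
    intro a ha
    have : L = K := (hmin L hLn hLK).resolve_left hLb
    rw [← this] at ha
    exact ha.2
  exact ⟨K, hKn, hKN, hKb, hpow, hab, hmin⟩

end GT
end MP7b0bad
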