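import Pool.Agent.Work.MP_7b0bad_ag.SV.GTStmts

set_option autoImplicit false

/-!
# Powers and commutators in the fibre product
-/

namespace MP7b0bad
namespace GT

open scoped commutatorElement

theorem GPow_pow {G : Type} [Group G] (r : ℕ) (a b : G)
    (h : a⁻¹ * b ∈ Subgroup.center G) (h2 : (a⁻¹ * b) ^ r = 1) : b ^ r = a ^ r := by
  have hc : Commute a (a⁻¹ * b) := (Subgroup.mem_center_iff.mp h a)
  have hb : b = a * (a⁻¹ * b) := by group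
  calc b ^ r = (a * (a⁻¹ * b)) ^ r := by rw [← hb]
    _ = a ^ r * (a⁻¹ * b) ^ r := hc.mul_pow r
    _ = a ^ r := by rw [h2, mul_one]

theorem GPow_com {G : Type} [Group G] (a s b t : G) (hs : s ∈ Subgroup.center G)
    (ht : t ∈ Subgroup.center G) : ⁅a * s, b * t⁆ = ⁅a, b⁆ := by
  have h1 : ∀ x, x * s = s * x := Subgroup.mem_center_iff.mp hs
  have h2 : ∀ x, x * t = t * x := Subgroup.mem_center_iff.mp ht
  rw [commutatorElement_def, commutatorElement_def]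
  rw [h1 a, h2 b]
  have e1 : s * a * (t * b) * (s * a)⁻¹ * (t * b)⁻¹ =
      s * (a * t) * b * a⁻¹ * s⁻¹ * b⁻¹ * t⁻¹ := by group
  rw [e1, h2 a]
  have e2 : s * (t * a) * b * a⁻¹ * s⁻¹ * b⁻¹ * t⁻¹ =
      s * t * (a * b * a⁻¹) * s⁻¹ * b⁻¹ * t⁻¹ := by group
  rw [e2]
  have e3 : s * t * (a * b * a⁻¹) = (a * b * a⁻¹) * t * s := by
    rw [← h1 t, mul_assoc t s, ← h1 (a * b * a⁻¹), ← mul_assoc, ← h2 (a * b * a⁻¹)]
  rw [e3]
  have e4 : a * b * a⁻¹ * t * s * s⁻¹ * b⁻¹ * t⁻¹ = a * b * a⁻¹ * (t * b⁻¹) * t⁻¹ := by group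
  rw [e4, ← h2 b⁻¹]
  group

theorem GPow_com2 {G : Type} [Group G] (a a' b b' : G) (hs : a⁻¹ * a' ∈ Subgroup.center G)
    (ht : b⁻¹ * b' ∈ Subgroup.center G) : ⁅a', b'⁆ = ⁅a, b⁆ := by
  have h := GPow_com a (a⁻¹ * a') b (b⁻¹ * b') hs ht
  have h1 : a * (a⁻¹ * a') = a' := by group
  have h2 : b * (b⁻¹ * b') = b' := by group
  rwa [h1, h2] at h

theorem prf_GPow : GPow := by
  intro r _ G _ _ N _ I _ hcen hpow hr
  have hmem : ∀ f g : Fib N I, (∀ i, f.1 i ∈ N) → (∀ i, g.1 i ∈ N) → ∀ i,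
      (⁅f, g⁆ : Fib N I).1 i ∈ ⁅N, N⁆ := fun f g hf hg i =>
    Subgroup.commutator_mem_commutator (hf i) (hg i)
  refine ⟨?_, ?_, ?_, ?_, ?_, ?_⟩
  · intro f hf
    have h1 : ∀ i, (f ^ r).1 i ∈ ⁅N, N⁆ := fun i => hpow _ (hf.1 i)
    exact ⟨fun i => Subgroup.commutator_le_left N N (h1 i),
      fun i j => mul_mem (inv_mem (h1 i)) (h1 j)⟩
  · rw [Subgroup.commutator_le]
    intro f hf g hg
    have h1 := hmem f g hf.1 hg.1
    exact ⟨fun i => Subgroup.commutator_le_left N N (h1 i),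
      fun i j => mul_mem (inv_mem (h1 i)) (h1 j)⟩
  · intro f hf
    refine ⟨fun i => hpow _ (hf.1 i), fun i j => ?_⟩
    have h1 : (f.1 j) ^ r = (f.1 i) ^ r :=
      GPow_pow r (f.1 i) (f.1 j) (hcen (hf.2 i j)) (hr _ (hf.2 i j))
    rw [Subgroup.mem_bot]
    change ((f.1 i) ^ r)⁻¹ * (f.1 j) ^ r = 1
    rw [h1, inv_mul_cancel]
  · rw [Subgroup.commutator_le]
    intro f hf g hg
    refine ⟨hmem f g hf.1 hg.1, fun i j => ?_⟩
    have h1 : ⁅f.1 j, g.1 j⁆ = ⁅f.1 i, g.1 i⁆ :=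
      GPow_com2 _ _ _ _ (hcen (hf.2 i j)) (hcen (hg.2 i j))
    rw [Subgroup.mem_bot]
    change (⁅f.1 i, g.1 i⁆)⁻¹ * ⁅f.1 j, g.1 j⁆ = 1
    rw [h1, inv_mul_cancel]
  · intro f hf
    apply Subtype.ext
    funext i
    exact hr _ (hf.1 i)
  · intro f hf
    rw [Subgroup.mem_center_iff]
    intro g
    apply Subtype.ext
    funext i
    exact Subgroup.mem_center_iff.mp (hcen (hf.1 i)) (g.1 i)

end GT
end MP7b0bad
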