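import Pool.Agent.Work.MP_7b0bad_ag.SV.GTStmts

set_option autoImplicit false

/-!
# GSec: sections
-/

namespace MP7b0bad
namespace GT

open scoped commutatorElement in
theorem prf_GSec (hQuo : GQuo) : GSec := by
  intro p _ R hR G _ _ r A B P _ _ c hr hrp hD hAB hpow hcomm hB hRB
  set q : G →* G ⧸ A := QuotientGroup.mk' A with hq
  have hqs : Function.Surjective q := QuotientGroup.mk'_surjective A
  obtain ⟨hD', hPc⟩ := hQuo p G (G ⧸ A) q P c hqs hD
  have hqA : ∀ a ∈ A, q a = 1 := fun a ha => (QuotientGroup.eq_one_iff a).2 ha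
  let N : Subgroup (G ⧸ A) := B.map q
  have hN : N.Normal := Subgroup.Normal.map inferInstance q hqs
  rw [hPc]
  refine hR.f3s (G ⧸ A) r N (P.map q) (q c) hr hrp hD' ?_ ?_ ?_ ?_
  · rintro _ ⟨b, hb, rfl⟩
    rw [← map_pow]
    exact hqA _ (hpow b hb)
  · rintro _ ⟨b, hb, rfl⟩ _ ⟨b', hb', rfl⟩
    have h1 : q ⁅b, b'⁆ = 1 := hqA _ (hcomm (Subgroup.commutator_mem_commutator hb hb'))
    rw [map_commutatorElement, commutatorElement_eq_one_iff_mul_comm] at h1
    exact h1
  · have h1 : N ≤ (⁅B, (⊤ : Subgroup G)⁆ ⊔ A).map q := Subgroup.map_mono hB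
    have h2 : A.map q = ⊥ := by
      rw [Subgroup.map_eq_bot_iff, QuotientGroup.ker_mk']
    rw [Subgroup.map_sup, h2, sup_bot_eq, Subgroup.map_commutator,
      Subgroup.map_top_of_surjective q hqs] at h1
    exact h1
  · have hBk : B ≤ ((QuotientGroup.mk' N).comp q).ker := by
      intro b hb
      rw [MonoidHom.mem_ker, MonoidHom.comp_apply]
      exact (QuotientGroup.eq_one_iff (q b)).2 (Subgroup.mem_map_of_mem q hb)
    let φ : G ⧸ B →* (G ⧸ A) ⧸ N := QuotientGroup.lift B ((QuotientGroup.mk' N).comp q)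
      (fun b hb => hBk hb)
    have hφ : φ.comp (QuotientGroup.mk' B) = (QuotientGroup.mk' N).comp q := by
      ext g
      rfl
    have hφs : Function.Surjective φ := by
      intro z
      obtain ⟨y, rfl⟩ := QuotientGroup.mk'_surjective N z
      obtain ⟨g, rfl⟩ := hqs y
      exact ⟨QuotientGroup.mk' B g, rfl⟩
    have h1 := hR.quo (G ⧸ B) ((G ⧸ A) ⧸ N) φ _ hφs hRB
    rw [Subgroup.map_map, hφ, ← Subgroup.map_map, hPc] at h1
    exact h1

end GT
end MP7b0bad
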