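import Pool.Agent.Work.MP_7b0bad_ag.SV.GTStmts

set_option autoImplicit false

/-! # Solvable groups: `GSolv` from `GMain` with `N = ⊤` -/

namespace MP7b0bad
namespace GT

/-- a subgroup containing the commutator subgroup is normal -/
theorem GSolv_normal {G : Type} [Group G] (H : Subgroup G)
    (hH : ⁅(⊤ : Subgroup G), (⊤ : Subgroup G)⁆ ≤ H) : H.Normal := by
  refine ⟨fun n hn g => ?_⟩
  have h1 : g * n * g⁻¹ * n⁻¹ ∈ H :=
    hH (Subgroup.commutator_mem_commutator (Subgroup.mem_top g) (Subgroup.mem_top n))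
  have h2 : g * n * g⁻¹ = g * n * g⁻¹ * n⁻¹ * n := by
    group
  rw [h2]
  exact H.mul_mem h1 hn

/-- `P [G, G] = G` -/
theorem GSolv_sup {G : Type} [Group G] (P : Subgroup G)
    (hP : Subgroup.normalClosure (P : Set G) = ⊤) :
    P ⊔ ⁅(⊤ : Subgroup G), (⊤ : Subgroup G)⁆ = ⊤ := by
  have hn := GSolv_normal (P ⊔ ⁅(⊤ : Subgroup G), (⊤ : Subgroup G)⁆) le_sup_right
  have h1 : Subgroup.normalClosure (P : Set G) ≤
      P ⊔ ⁅(⊤ : Subgroup G), (⊤ : Subgroup G)⁆ :=
    Subgroup.normalClosure_le_normal (fun x hx => Subgroup.mem_sup_left hx)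
  rw [hP] at h1
  exact eq_top_iff.mpr h1

/-- a prime different from `p` does not divide the order of the abelianisation -/
theorem GSolv_cop (p : ℕ) [hp : Fact p.Prime] {G : Type} [Group G] [Finite G] (P : Subgroup G)
    (c : G) (hD : Dat p P c) : CopC p (⊤ : Subgroup G) c := by
  intro r hr hrp hdvd
  exfalso
  have hs := GSolv_sup P hD.ncl
  have h0 : ⁅(⊤ : Subgroup G), (⊤ : Subgroup G)⁆.relIndex
      (P ⊔ ⁅(⊤ : Subgroup G), (⊤ : Subgroup G)⁆) =
      ⁅(⊤ : Subgroup G), (⊤ : Subgroup G)⁆.relIndex P :=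
    Subgroup.relIndex_sup_right _ _
  rw [hs] at h0
  rw [h0] at hdvd
  have h2 : r ∣ Nat.card P := hdvd.trans (Subgroup.relIndex_dvd_card _ _)
  obtain ⟨n, hn⟩ := IsPGroup.iff_card.mp hD.pgr
  rw [hn] at h2
  have h3 : r ∣ p := hr.dvd_of_dvd_pow h2
  exact hrp ((Nat.prime_dvd_prime_iff_eq hr hp.out).mp h3)

theorem prf_GSolv (hMain : GMain) : GSolv := by
  intro p _ R hR G _ _ P c hD hs
  have hsub : Subsingleton (G ⧸ (⊤ : Subgroup G)) :=
    QuotientGroup.subsingleton_quotient_top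
  have hst : Group.IsSolvable (⊤ : Subgroup G) := inferInstance
  exact hMain p R hR G P ⊤ c hD hst (GSolv_cop p P c hD)
    (hR.triv (G ⧸ (⊤ : Subgroup G)) hsub _)

end GT
end MP7b0bad
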