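import Pool.Agent.Work.MP_7b0bad_ag.SV.GRStmts

set_option autoImplicit false

/-!
Proof of the statement GSplS: split irreducible noncentral kernels for sections.
-/

open scoped commutatorElement

namespace MP7b0bad
namespace GT

/-- the data without the closure condition pass to quotients -/
theorem GSplS_dat {p : ℕ} {G G' : Type} [Group G] [Group G'] (q : G →* G') {P : Subgroup G}
    {c : G} (h : Dat0 p P c) : Dat0 p (P.map q) (q c) := by
  refine ⟨h.pgr.map q, ?_, ?_⟩
  · rintro u hu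
    obtain ⟨v, hv, rfl⟩ := Subgroup.mem_map.1 hu
    exact Subgroup.mem_map.2 ⟨c * v * c⁻¹, h.nrm v hv, by simp⟩
  · intro hd
    exact h.cop (hd.trans (orderOf_map_dvd q c))

/-- the image of `Pc` -/
theorem GSplS_Pc {G G' : Type} [Group G] [Group G'] (q : G →* G') (P : Subgroup G) (c : G) :
    (Pc P c).map q = Pc (P.map q) (q c) := by
  unfold Pc
  rw [Subgroup.map_sup, MonoidHom.map_zpowers]

theorem prf_GSplS : GSplS := by
  intro p _ R ax G _ _ l A B H P _ _ c hl hd hAB hAH hpow hcom hirr hnc hBH hBHt hPc hR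
  have hq : Function.Surjective (QuotientGroup.mk' A) := QuotientGroup.mk'_surjective A
  rw [GSplS_Pc]
  have hVn : (B.map (QuotientGroup.mk' A)).Normal := Subgroup.Normal.map inferInstance _ hq
  have hPH : Pc (P.map (QuotientGroup.mk' A)) (QuotientGroup.mk' A c) ≤
      H.map (QuotientGroup.mk' A) := by
    rw [← GSplS_Pc]
    exact Subgroup.map_mono hPc
  -- the homomorphism `H / A → G / B`
  have hABc : A ≤ B.comap (MonoidHom.id G) := by
    intro x hx
    exact hAB hx
  set F : G ⧸ A →* G ⧸ B := QuotientGroup.map A B (MonoidHom.id G) hABc with hF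
  have hFm : ∀ g : G, F (QuotientGroup.mk' A g) = QuotientGroup.mk' B g := by
    intro g
    rfl
  set f : H.map (QuotientGroup.mk' A) →* G ⧸ B :=
    F.comp (H.map (QuotientGroup.mk' A)).subtype with hf
  have hfm : ∀ (g : G) (hg : QuotientGroup.mk' A g ∈ H.map (QuotientGroup.mk' A)),
      f ⟨QuotientGroup.mk' A g, hg⟩ = QuotientGroup.mk' B g := by
    intro g hg
    rfl
  have hfi : Function.Injective f := by
    rw [injective_iff_map_eq_one]
    rintro ⟨x, hx⟩ h1
    obtain ⟨h, hh, rfl⟩ := Subgroup.mem_map.1 hx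
    rw [hfm] at h1
    have h2 : h ∈ B := (QuotientGroup.eq_one_iff h).1 h1
    have h3 : h ∈ A := hBH ⟨h2, hh⟩
    have h4 : QuotientGroup.mk' A h = 1 := (QuotientGroup.eq_one_iff h).2 h3
    exact Subtype.ext h4
  have hfs : Function.Surjective f := by
    intro y
    obtain ⟨g, rfl⟩ := QuotientGroup.mk'_surjective B y
    have hg : g ∈ B ⊔ H := by rw [hBHt]; trivial
    obtain ⟨b, hb, h, hh, rfl⟩ := Subgroup.mem_sup_of_normal_left.1 hg
    refine ⟨⟨QuotientGroup.mk' A h, Subgroup.mem_map_of_mem _ hh⟩, ?_⟩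
    rw [hfm, map_mul]
    have h4 : QuotientGroup.mk' B b = 1 := (QuotientGroup.eq_one_iff b).2 hb
    rw [h4, one_mul]
  set e : H.map (QuotientGroup.mk' A) ≃* G ⧸ B := MulEquiv.ofBijective f ⟨hfi, hfs⟩ with he
  have hRH : R (H.map (QuotientGroup.mk' A))
      ((Pc (P.map (QuotientGroup.mk' A)) (QuotientGroup.mk' A c)).subgroupOf
        (H.map (QuotientGroup.mk' A))) := by
    have h1 := ax.quo (G ⧸ B) (H.map (QuotientGroup.mk' A)) e.symm.toMonoidHom
      ((Pc P c).map (QuotientGroup.mk' B)) e.symm.surjective hR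
    have h2 : ((Pc P c).map (QuotientGroup.mk' B)).map e.symm.toMonoidHom =
        (Pc (P.map (QuotientGroup.mk' A)) (QuotientGroup.mk' A c)).subgroupOf
          (H.map (QuotientGroup.mk' A)) := by
      rw [← GSplS_Pc]
      ext ⟨x, hx⟩
      rw [Subgroup.mem_subgroupOf]
      constructor
      · rintro ⟨y, ⟨z, hz, rfl⟩, hy⟩
        have h3 : e ⟨x, hx⟩ = QuotientGroup.mk' B z := by
          rw [← hy]
          exact e.apply_symm_apply _
        have h4 : (⟨x, hx⟩ : H.map (QuotientGroup.mk' A)) =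
            ⟨QuotientGroup.mk' A z, Subgroup.mem_map_of_mem _ (hPc hz)⟩ := by
          apply hfi
          rw [hfm]
          exact h3
        have h5 : x = QuotientGroup.mk' A z := congrArg Subtype.val h4
        exact ⟨z, hz, h5.symm⟩
      · rintro ⟨z, hz, hzx⟩
        refine ⟨QuotientGroup.mk' B z, ⟨z, hz, rfl⟩, ?_⟩
        show e.symm (QuotientGroup.mk' B z) = _
        rw [MulEquiv.symm_apply_eq]
        show _ = f ⟨x, hx⟩
        have h5 : (⟨x, hx⟩ : H.map (QuotientGroup.mk' A)) =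
            ⟨QuotientGroup.mk' A z, Subgroup.mem_map_of_mem _ (hPc hz)⟩ := Subtype.ext hzx.symm
        rw [h5, hfm]
    rwa [h2] at h1
  refine ax.spl (G ⧸ A) l (B.map (QuotientGroup.mk' A)) (H.map (QuotientGroup.mk' A))
    (P.map (QuotientGroup.mk' A)) (QuotientGroup.mk' A c) hl (GSplS_dat _ hd) ?_ ?_ ?_ ?_ ?_ ?_
    hPH hRH
  · rintro a ⟨b, hb, rfl⟩
    rw [← map_pow]
    exact (QuotientGroup.eq_one_iff (b ^ l)).2 (hpow b hb)
  · rintro a ⟨x, hx, rfl⟩ b ⟨y, hy, rfl⟩
    rw [← map_mul, ← map_mul]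
    apply QuotientGroup.eq.2
    have h1 : (x * y)⁻¹ * (y * x) = ⁅y⁻¹, x⁻¹⁆ := by
      rw [commutatorElement_def]
      group
    rw [h1]
    exact hcom (Subgroup.commutator_mem_commutator (B.inv_mem hy) (B.inv_mem hx))
  · intro K hK hKV
    have h1 : A ≤ K.comap (QuotientGroup.mk' A) := by
      intro x hx
      rw [Subgroup.mem_comap]
      have h4 : QuotientGroup.mk' A x = 1 := (QuotientGroup.eq_one_iff x).2 hx
      rw [h4]
      exact K.one_mem
    have h2 : K.comap (QuotientGroup.mk' A) ≤ B := by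
      intro x hx
      have h3 := hKV (Subgroup.mem_comap.1 hx)
      obtain ⟨b, hb, hbx⟩ := Subgroup.mem_map.1 h3
      have h4 : b⁻¹ * x ∈ A := QuotientGroup.eq.1 hbx
      have h5 := B.mul_mem hb (hAB h4)
      rwa [mul_inv_cancel_left] at h5
    have h3 : (K.comap (QuotientGroup.mk' A)).map (QuotientGroup.mk' A) = K :=
      Subgroup.map_comap_eq_self_of_surjective hq K
    rcases hirr (K.comap (QuotientGroup.mk' A)) (hK.comap _) h1 h2 with h4 | h4
    · left
      rw [← h3, h4, eq_bot_iff]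
      rintro _ ⟨x, hx, rfl⟩
      exact Subgroup.mem_bot.2 ((QuotientGroup.eq_one_iff x).2 hx)
    · right
      rw [← h3, h4]
  · intro hV
    apply hnc
    rw [Subgroup.commutator_le]
    intro b hb g _
    have h1 : QuotientGroup.mk' A b ∈ Subgroup.center (G ⧸ A) :=
      hV (Subgroup.mem_map_of_mem _ hb)
    have h2 := Subgroup.mem_center_iff.1 h1 (QuotientGroup.mk' A g)
    have h3 : QuotientGroup.mk' A ⁅b, g⁆ = 1 := by
      rw [map_commutatorElement, commutatorElement_eq_one_iff_mul_comm]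
      exact h2.symm
    exact (QuotientGroup.eq_one_iff _).1 h3
  · rw [eq_bot_iff]
    rintro x ⟨⟨b, hb, hbx⟩, ⟨h, hh, rfl⟩⟩
    have h4 : b⁻¹ * h ∈ A := QuotientGroup.eq.1 hbx
    have h5 := B.mul_mem hb (hAB h4)
    rw [mul_inv_cancel_left] at h5
    exact Subgroup.mem_bot.2 ((QuotientGroup.eq_one_iff h).2 (hBH ⟨h5, hh⟩))
  · rw [← Subgroup.map_sup, hBHt, Subgroup.map_top_of_surjective _ hq]

end GT
end MP7b0bad
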