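import Pool.Agent.Work.MP_7b0bad_ag.SV.GTStmts

set_option autoImplicit false

/-! # Item GStep of the block GT -/

namespace MP7b0bad
namespace GT

theorem GStep_map {G : Type} [Group G] (N K : Subgroup G) [N.Normal] [K.Normal] :
    (N.map (QuotientGroup.mk' K)).Normal :=
  Subgroup.Normal.map inferInstance _ (QuotientGroup.mk'_surjective K)

theorem prf_GStep (hQuo : GQuo) : GStep := by
  intro p _ R hR G _ _ P N K _ _ c hD hsol hcop hKN hRN
  have hs := QuotientGroup.mk'_surjective K
  obtain ⟨hD', hPc⟩ := hQuo p G (G ⧸ K) (QuotientGroup.mk' K) P c hs hD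
  refine ⟨GStep_map N K, hD', ?_, ?_, ?_, ?_, hPc⟩
  · have : Group.IsSolvable N := hsol
    exact Group.isSolvable_of_surjective (MonoidHom.subgroupMap_surjective (QuotientGroup.mk' K) N)
  · intro r hr hrp hdvd hro
    have h1 : ⁅N.map (QuotientGroup.mk' K), (⊤ : Subgroup (G ⧸ K))⁆ =
        (⁅N, (⊤ : Subgroup G)⁆).map (QuotientGroup.mk' K) := by
      rw [Subgroup.map_commutator, Subgroup.map_top_of_surjective _ hs]
    have hker : N ⊔ (QuotientGroup.mk' K).ker = N := by
      rw [QuotientGroup.ker_mk']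
      exact sup_eq_left.2 hKN
    rw [h1, Subgroup.relIndex_map_map, hker] at hdvd
    have h2 : (⁅N, (⊤ : Subgroup G)⁆ ⊔ (QuotientGroup.mk' K).ker).relIndex N ∣
        ⁅N, (⊤ : Subgroup G)⁆.relIndex N := Subgroup.relIndex_dvd_of_le_left _ le_sup_left
    exact hcop r hr hrp (hdvd.trans h2) (hro.trans (orderOf_map_dvd _ c))
  · intro hK
    obtain ⟨k, hk1⟩ := (Subgroup.ne_bot_iff_exists_ne_one).1 hK
    have hk : (k : G) ∈ K := k.2
    have hsurj := MonoidHom.subgroupMap_surjective (QuotientGroup.mk' K) N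
    have : Fintype N := Fintype.ofFinite _
    have : Fintype (N.map (QuotientGroup.mk' K)) := Fintype.ofFinite _
    rw [Nat.card_eq_fintype_card, Nat.card_eq_fintype_card]
    refine Fintype.card_lt_of_surjective_not_injective _ hsurj ?_
    intro hinj
    have h3 : (QuotientGroup.mk' K).subgroupMap N ⟨(k : G), hKN hk⟩ = 1 := by
      apply Subtype.ext
      exact (QuotientGroup.eq_one_iff _).2 hk
    have h4 := hinj (h3.trans (map_one _).symm)
    exact hk1 (Subtype.ext (congrArg (fun z : N => (z : G)) h4))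
  · have hn := GStep_map N K
    let f : G →* (G ⧸ K) ⧸ (N.map (QuotientGroup.mk' K)) :=
      (QuotientGroup.mk' (N.map (QuotientGroup.mk' K))).comp (QuotientGroup.mk' K)
    have hf : ∀ x ∈ N, f x = 1 := fun x hx =>
      (QuotientGroup.eq_one_iff _).2 (Subgroup.mem_map_of_mem _ hx)
    let g : G ⧸ N →* (G ⧸ K) ⧸ (N.map (QuotientGroup.mk' K)) := QuotientGroup.lift N f hf
    have hg : g.comp (QuotientGroup.mk' N) = f := by
      ext x
      rfl
    have hgs : Function.Surjective g := by
      intro y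
      obtain ⟨x, rfl⟩ := QuotientGroup.mk'_surjective _ y
      obtain ⟨z, rfl⟩ := hs x
      exact ⟨QuotientGroup.mk' N z, rfl⟩
    have h5 := hR.quo (G ⧸ N) _ g _ hgs hRN
    rw [Subgroup.map_map, hg] at h5
    rw [← hPc, Subgroup.map_map]
    exact h5

end GT
end MP7b0bad
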