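import Pool.Agent.Work.MP_7b0bad_ag.SV.GTStmts

set_option autoImplicit false

/-!
# Item GStr: structure of minimal noncentral normal subgroups
-/

open scoped commutatorElement

namespace MP7b0bad
namespace GT

/-- elements of `N` commute modulo the commutator subgroup -/
theorem GStr_comm {G : Type} [Group G] (N : Subgroup G) [N.Normal] {x y : G} (hx : x ∈ N)
    (hy : y ∈ N) : Commute (QuotientGroup.mk' ⁅N, N⁆ x) (QuotientGroup.mk' ⁅N, N⁆ y) := by
  have h1 : ⁅x, y⁆ ∈ ⁅N, N⁆ := Subgroup.commutator_mem_commutator hx hy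
  have h2 : QuotientGroup.mk' ⁅N, N⁆ ⁅x, y⁆ = 1 := by
    rw [QuotientGroup.mk'_apply, QuotientGroup.eq_one_iff]
    exact h1
  rw [map_commutatorElement] at h2
  exact commutatorElement_eq_one_iff_commute.1 h2

/-- the elements of `N` whose `r`-th power lies in the commutator subgroup -/
def GStr_L (r : ℕ) {G : Type} [Group G] (N : Subgroup G) [N.Normal] : Subgroup G where
  carrier := {x | x ∈ N ∧ x ^ r ∈ ⁅N, N⁆}
  one_mem' := ⟨N.one_mem, by rw [one_pow]; exact Subgroup.one_mem _⟩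
  mul_mem' := by
    rintro x y ⟨hx, hx'⟩ ⟨hy, hy'⟩
    refine ⟨N.mul_mem hx hy, ?_⟩
    rw [← QuotientGroup.eq_one_iff, ← QuotientGroup.mk'_apply] at hx' hy' ⊢
    rw [map_pow, map_mul, (GStr_comm N hx hy).mul_pow, ← map_pow, ← map_pow, hx', hy', one_mul]
  inv_mem' := by
    rintro x ⟨hx, hx'⟩
    refine ⟨N.inv_mem hx, ?_⟩
    rw [inv_pow]
    exact Subgroup.inv_mem _ hx'

/-- the `r`-th powers modulo the commutator subgroup -/
def GStr_K (r : ℕ) {G : Type} [Group G] (N : Subgroup G) [N.Normal] : Subgroup G where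
  carrier := {x | ∃ a ∈ N, QuotientGroup.mk' ⁅N, N⁆ x = QuotientGroup.mk' ⁅N, N⁆ (a ^ r)}
  one_mem' := ⟨1, N.one_mem, by rw [one_pow]⟩
  mul_mem' := by
    rintro x y ⟨a, ha, hx⟩ ⟨b, hb, hy⟩
    refine ⟨a * b, N.mul_mem ha hb, ?_⟩
    rw [map_mul, hx, hy, map_pow, map_pow, map_pow, map_mul, (GStr_comm N ha hb).mul_pow]
  inv_mem' := by
    rintro x ⟨a, ha, hx⟩
    refine ⟨a⁻¹, N.inv_mem ha, ?_⟩
    rw [map_inv, hx, inv_pow, map_inv]

theorem GStr_K_normal (r : ℕ) {G : Type} [Group G] (N : Subgroup G) [hN : N.Normal] :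
    (GStr_K r N).Normal := by
  constructor
  rintro x ⟨a, ha, hx⟩ g
  refine ⟨g * a * g⁻¹, hN.conj_mem a ha g, ?_⟩
  rw [conj_pow]
  simp only [map_mul, map_inv]
  rw [hx]

theorem GStr_K_le (r : ℕ) {G : Type} [Group G] (N : Subgroup G) [hN : N.Normal] :
    GStr_K r N ≤ N := by
  rintro x ⟨a, ha, hx⟩
  have h1 : x⁻¹ * a ^ r ∈ ⁅N, N⁆ := by
    rw [QuotientGroup.mk'_apply, QuotientGroup.mk'_apply] at hx
    exact QuotientGroup.eq.1 hx
  have h2 : x⁻¹ * a ^ r ∈ N := Subgroup.commutator_le_left N N h1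
  have h3 : x⁻¹ ∈ N := by
    have h4 := N.mul_mem h2 (N.inv_mem (N.pow_mem ha r))
    rwa [mul_assoc, mul_inv_cancel, mul_one] at h4
  have h5 := N.inv_mem h3
  rwa [inv_inv] at h5

theorem GStr_K_pow (r : ℕ) {G : Type} [Group G] (N : Subgroup G) [hN : N.Normal]
    (h : GStr_K r N = N) (k : ℕ) (x : G) (hx : x ∈ N) :
    ∃ a ∈ N, QuotientGroup.mk' ⁅N, N⁆ x = QuotientGroup.mk' ⁅N, N⁆ (a ^ (r ^ k)) := by
  induction k with
  | zero => exact ⟨x, hx, by rw [pow_zero, pow_one]⟩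
  | succ k ih =>
    obtain ⟨a, ha, hxa⟩ := ih
    have h1 : a ∈ GStr_K r N := by rw [h]; exact ha
    obtain ⟨b, hb, hab⟩ := h1
    refine ⟨b, hb, ?_⟩
    rw [hxa, map_pow, hab, ← map_pow, ← pow_mul, pow_succ, mul_comm]

/-- powers of a central commutator -/
theorem GStr_cpow {G : Type} [Group G] (a b : G) (h : ⁅a, b⁆ ∈ Subgroup.center G) (n : ℕ) :
    a ^ n * b * (a ^ n)⁻¹ = ⁅a, b⁆ ^ n * b := by
  induction n with
  | zero => simp
  | succ n ih =>
    have hc : ∀ g : G, g * ⁅a, b⁆ = ⁅a, b⁆ * g := fun g => Subgroup.mem_center_iff.1 h g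
    have hcn : ∀ g : G, g * ⁅a, b⁆ ^ n = ⁅a, b⁆ ^ n * g := fun g =>
      Subgroup.mem_center_iff.1 (Subgroup.pow_mem _ h n) g
    have h1 : a ^ (n + 1) * b * (a ^ (n + 1))⁻¹ = a * (a ^ n * b * (a ^ n)⁻¹) * a⁻¹ := by
      rw [pow_succ']
      group
    rw [h1, ih]
    have h2 : a * (⁅a, b⁆ ^ n * b) * a⁻¹ = ⁅a, b⁆ ^ n * (a * b * a⁻¹) := by
      rw [← mul_assoc a, hcn a]
      group
    have h3 : a * b * a⁻¹ = ⁅a, b⁆ * b := by
      rw [commutatorElement_def]
      group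
    rw [h2, h3, pow_succ, mul_assoc]

/-- central elements with trivial `r`-th power -/
def GStr_Z (r : ℕ) (G : Type) [Group G] : Subgroup G where
  carrier := {z | z ∈ Subgroup.center G ∧ z ^ r = 1}
  one_mem' := ⟨Subgroup.one_mem _, one_pow _⟩
  mul_mem' := by
    rintro x y ⟨hx, hx'⟩ ⟨hy, hy'⟩
    refine ⟨Subgroup.mul_mem _ hx hy, ?_⟩
    have h : Commute x y := (Subgroup.mem_center_iff.1 hy x)
    rw [h.mul_pow, hx', hy', one_mul]
  inv_mem' := by
    rintro x ⟨hx, hx'⟩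
    exact ⟨Subgroup.inv_mem _ hx, by rw [inv_pow, hx', inv_one]⟩

theorem prf_GStr (hCop : GCop) : GStr := by
  intro p r _ _ G _ _ P N c hrp hD hM
  have hN : N.Normal := hM.nrm
  have hr : IsPGroup r N := hM.pgr
  -- (i)
  have hi : N ≤ ⁅N, (⊤ : Subgroup G)⁆ := by
    by_contra hcon
    have hne : ⁅N, (⊤ : Subgroup G)⁆ ≠ N := fun h => hcon (le_of_eq h.symm)
    have hc := hM.min ⁅N, (⊤ : Subgroup G)⁆ inferInstance (Subgroup.commutator_le_left N ⊤) hne
    refine hM.nc (hCop p r G P N c hrp hD hN hM.pgr ?_)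
    intro u _ a ha
    apply hc
    have h1 : ⁅a⁻¹, u⁆ ∈ ⁅N, (⊤ : Subgroup G)⁆ :=
      Subgroup.commutator_mem_commutator (N.inv_mem ha) (Subgroup.mem_top u)
    have h2 : ⁅a⁻¹, u⁆ = a⁻¹ * (u * a * u⁻¹) := by
      rw [commutatorElement_def]
      group
    rwa [h2] at h1
  -- N is nontrivial
  have hnt : Nontrivial N := by
    rw [Subgroup.nontrivial_iff_ne_bot]
    intro h
    exact hM.nc (by rw [h]; exact bot_le)
  -- (ii)
  have hne : ⁅N, N⁆ ≠ N := by
    intro h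
    have : Group.IsNilpotent N := hr.isNilpotent
    have h1 : commutator N < ⊤ := Group.IsSolvable.commutator_lt_top_of_nontrivial N
    apply ne_of_lt h1
    have h2 : (commutator N).map N.subtype = (⊤ : Subgroup N).map N.subtype := by
      rw [Subgroup.map_subtype_commutator, h]
      ext x
      simp
    exact Subgroup.map_injective N.subtype_injective h2
  have hDc : ⁅N, N⁆ ≤ Subgroup.center G :=
    hM.min ⁅N, N⁆ inferInstance (Subgroup.commutator_le_left N N) hne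
  -- (iii)
  have hKne : GStr_K r N ≠ N := by
    intro h
    obtain ⟨k, hk⟩ := (IsPGroup.iff_card (p := r) (G := N)).1 hr
    apply hne
    apply le_antisymm (Subgroup.commutator_le_left N N)
    intro x hx
    obtain ⟨a, ha, hxa⟩ := GStr_K_pow r N h k x hx
    have h1 : a ^ (r ^ k) = 1 := by
      have h2 : (⟨a, ha⟩ : N) ^ (r ^ k) = 1 := by
        rw [← hk]
        exact pow_card_eq_one'
      have h3 := congrArg (Subtype.val) h2
      simpa using h3
    rw [h1, map_one, QuotientGroup.mk'_apply, QuotientGroup.eq_one_iff] at hxa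
    exact hxa
  have hKc : GStr_K r N ≤ Subgroup.center G :=
    hM.min (GStr_K r N) (GStr_K_normal r N) (GStr_K_le r N) hKne
  have hpc : ∀ a ∈ N, a ^ r ∈ Subgroup.center G := fun a ha => hKc ⟨a, ha, rfl⟩
  have hL : ⁅N, (⊤ : Subgroup G)⁆ ≤ GStr_L r N := by
    rw [Subgroup.commutator_le]
    intro a ha g _
    have hw : ⁅a, g⁆ ∈ N :=
      Subgroup.commutator_le_left N ⊤ (Subgroup.commutator_mem_commutator ha (Subgroup.mem_top g))
    refine ⟨hw, ?_⟩
    -- `g a⁻¹ g⁻¹ = a⁻¹ ⁅a, g⁆`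
    have h1 : g * a⁻¹ * g⁻¹ = a⁻¹ * ⁅a, g⁆ := by
      rw [commutatorElement_def]
      group
    have h2 : (g * a⁻¹ * g⁻¹) ^ r = (a⁻¹) ^ r := by
      rw [conj_pow, (Subgroup.mem_center_iff.1 (hpc a⁻¹ (N.inv_mem ha)) g)]
      group
    rw [h1] at h2
    have h3 := congrArg (QuotientGroup.mk' ⁅N, N⁆) h2
    rw [map_pow, map_mul, (GStr_comm N (N.inv_mem ha) hw).mul_pow, ← map_pow, ← map_pow,
      mul_eq_left] at h3
    rw [QuotientGroup.mk'_apply, QuotientGroup.eq_one_iff] at h3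
    exact h3
  have hiii : ∀ a ∈ N, a ^ r ∈ ⁅N, N⁆ := fun a ha => (hL (hi ha)).2
  -- (iv)
  have hiv : ⁅N, N⁆ ≤ GStr_Z r G := by
    rw [Subgroup.commutator_le]
    intro a ha b hb
    have hab : ⁅a, b⁆ ∈ Subgroup.center G := hDc (Subgroup.commutator_mem_commutator ha hb)
    refine ⟨hab, ?_⟩
    have h1 := GStr_cpow a b hab r
    have h2 : a ^ r * b * (a ^ r)⁻¹ = b := by
      rw [← (Subgroup.mem_center_iff.1 (hpc a ha) b)]
      group
    rw [h2] at h1
    have h3 : ⁅a, b⁆ ^ r * b = 1 * b := by rw [one_mul]; exact h1.symm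
    exact mul_right_cancel h3
  exact ⟨hi, hDc, hiii, fun z hz => (hiv hz).2⟩

end GT
end MP7b0bad
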