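import Pool.Agent.Work.MP_7b0bad_ag.SV.GQuo
import Pool.Agent.Work.MP_7b0bad_ag.SV.GSec
import Pool.Agent.Work.MP_7b0bad_ag.SV.GCen
import Pool.Agent.Work.MP_7b0bad_ag.SV.GBC
import Pool.Agent.Work.MP_7b0bad_ag.SV.GCop
import Pool.Agent.Work.MP_7b0bad_ag.SV.GStr
import Pool.Agent.Work.MP_7b0bad_ag.SV.GEx
import Pool.Agent.Work.MP_7b0bad_ag.SV.GPmin
import Pool.Agent.Work.MP_7b0bad_ag.SV.GFN
import Pool.Agent.Work.MP_7b0bad_ag.SV.GDat4
import Pool.Agent.Work.MP_7b0bad_ag.SV.GCom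
import Pool.Agent.Work.MP_7b0bad_ag.SV.GPow
import Pool.Agent.Work.MP_7b0bad_ag.SV.GKey
import Pool.Agent.Work.MP_7b0bad_ag.SV.GStep
import Pool.Agent.Work.MP_7b0bad_ag.SV.GMain
import Pool.Agent.Work.MP_7b0bad_ag.SV.GSolv
import Pool.Agent.Work.MP_7b0bad_ag.SV.GHyp
import Pool.Agent.Work.MP_7b0bad_ag.SV.GSplS
import Pool.Agent.Work.MP_7b0bad_ag.SV.GCenR
import Pool.Agent.Work.MP_7b0bad_ag.SV.GPksR
import Pool.Agent.Work.MP_7b0bad_ag.SV.GEA
import Pool.Agent.Work.MP_7b0bad_ag.SV.GChn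
import Pool.Agent.Work.MP_7b0bad_ag.SV.GF3a
import Pool.Agent.Work.MP_7b0bad_ag.SV.GF3b
import Pool.Agent.Work.MP_7b0bad_ag.SV.GAx

set_option autoImplicit false

/-!
# Group theory for the inertia conjecture: assembly
-/

namespace MP7b0bad
namespace GT

theorem all_GSec : GSec := prf_GSec prf_GQuo
theorem all_GCen : GCen := prf_GCen prf_GQuo
theorem all_GStr : GStr := prf_GStr prf_GCop
theorem all_GDat : GDat := prf_GDat4 prf_GCop all_GStr
theorem all_GKey : GKey :=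
  prf_GKey prf_GQuo all_GSec all_GCen all_GStr prf_GFN all_GDat prf_GCom prf_GPow
theorem all_GStep : GStep := prf_GStep prf_GQuo
theorem all_GMain : GMain := prf_GMain prf_GQuo all_GStep prf_GBC prf_GEx prf_GPmin all_GKey
theorem all_GSolv : GSolv := prf_GSolv all_GMain
theorem all_GChn : GChn := prf_GChn prf_GSplS prf_GEA
theorem all_GF3a : GF3a := prf_GF3a prf_GEA all_GChn
theorem all_GF3b : GF3b := prf_GF3b prf_GQuo prf_GCop all_GF3a
theorem all_GAx : GAx := prf_GAx prf_GCenR prf_GPksR all_GF3b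
theorem all_GHyp : GHyp := prf_GHyp

/-- the order of the tame element divides the index of `G₁` in `G₀` -/
theorem order_dvd {p : ℕ} [Fact p.Prime] {G : Type} [Group G] [Finite G] {P : Subgroup G} {c : G}
    (h : Dat p P c) : orderOf c ∣ (P.subgroupOf (Pc P c)).index := by
  have hc : c ∈ Pc P c := (le_sup_right : Subgroup.zpowers c ≤ P ⊔ Subgroup.zpowers c)
    (Subgroup.mem_zpowers c)
  have h1 : orderOf c ∣ Nat.card (Pc P c) := Subgroup.orderOf_dvd_natCard _ hc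
  rw [← Subgroup.card_mul_index (P.subgroupOf (Pc P c))] at h1
  refine Nat.Coprime.dvd_of_dvd_mul_left ?_ h1
  have h2 : Nat.card (P.subgroupOf (Pc P c)) = Nat.card P :=
    Nat.card_congr (Subgroup.subgroupOfEquivOfLe (show P ≤ Pc P c from le_sup_left)).toEquiv
  obtain ⟨n, hn⟩ := IsPGroup.iff_card.1 h.pgr
  rw [h2, hn]
  exact (Nat.Coprime.pow_left n
    ((Nat.Prime.coprime_iff_not_dvd (Fact.out : p.Prime)).2 h.cop)).symm

/-- the general theorem in terms of `G₀` and `G₁` -/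
theorem all_gen (p : ℕ) [Fact p.Prime] (R : ∀ (G : Type) [Group G], Subgroup G → Prop)
    (hR : RAx p R) (G : Type) [Group G] [Finite G] (N G₀ G₁ : Subgroup G) [N.Normal]
    (h1 : G₁ ≤ G₀) (h2 : (G₁.subgroupOf G₀).Normal) (h3 : IsPGroup p G₁)
    (h4 : Nat.Coprime (G₁.subgroupOf G₀).index p) (h5 : ∃ g : G, G₁ ⊔ Subgroup.zpowers g = G₀)
    (h6 : Subgroup.normalClosure (G₁ : Set G) = ⊤) (hN : Group.IsSolvable N)
    (hcop : ∀ r : ℕ, r.Prime → r ≠ p → r ∣ ⁅N, (⊤ : Subgroup G)⁆.relIndex N →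
      ¬ r ∣ (G₁.subgroupOf G₀).index)
    (hq : R (G ⧸ N) (G₀.map (QuotientGroup.mk' N))) : R G G₀ := by
  obtain ⟨c, hc, rfl⟩ := prf_GHyp p G G₀ G₁ h1 h2 h3 h4 h5 h6
  exact all_GMain p R (all_GAx p R hR) G G₁ N c hc hN
    (fun r hr hrp hd hrc => hcop r hr hrp hd (hrc.trans (order_dvd hc))) hq

/-- solvable groups in terms of `G₀` and `G₁` -/
theorem all_solv (p : ℕ) [Fact p.Prime] (R : ∀ (G : Type) [Group G], Subgroup G → Prop)
    (hR : RAx p R) (G : Type) [Group G] [Finite G] (G₀ G₁ : Subgroup G)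
    (h1 : G₁ ≤ G₀) (h2 : (G₁.subgroupOf G₀).Normal) (h3 : IsPGroup p G₁)
    (h4 : Nat.Coprime (G₁.subgroupOf G₀).index p) (h5 : ∃ g : G, G₁ ⊔ Subgroup.zpowers g = G₀)
    (h6 : Subgroup.normalClosure (G₁ : Set G) = ⊤) (hG : Group.IsSolvable G) : R G G₀ := by
  obtain ⟨c, hc, rfl⟩ := prf_GHyp p G G₀ G₁ h1 h2 h3 h4 h5 h6
  exact all_GSolv p R (all_GAx p R hR) G G₁ c hc hG

end GT
end MP7b0bad
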