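import Pool.Agent.Work.MP_7b0bad_ag.SV.VStmts2
import Pool.Agent.Work.MP_7b0bad_ag.SV.GTStmts
import Pool.Agent.Work.MP_7b0bad_ag.SV.LStmts

set_option autoImplicit false

/-!
# Block SV: assembly

The consequences of `GT.TAx`, `GT.GMain`, `GT.GSolv`, `GT.GHyp`, `T0` in terms of `Occurs` and of the
hypotheses of the problem.
-/

namespace MP7b0bad.SVF

/-- the hypotheses of the problem on `G₁ ≤ G₀ ≤ G`, together with `normalClosure G₁ = ⊤` -/
def Hyp (p : ℕ) {G : Type} [Group G] (G₁ G₀ : Subgroup G) : Prop :=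
  G₁ ≤ G₀ ∧ (G₁.subgroupOf G₀).Normal ∧ IsPGroup p G₁ ∧ Nat.Coprime (G₁.subgroupOf G₀).index p ∧
    (∃ g : G, G₁ ⊔ Subgroup.zpowers g = G₀) ∧ Subgroup.normalClosure (G₁ : Set G) = ⊤

/-- the image of the data under a surjective homomorphism -/
theorem hyp_map {p : ℕ} {G G' : Type} [Group G] [Group G'] (q : G →* G')
    (hq : Function.Surjective q) {G₁ G₀ : Subgroup G} (h : Hyp p G₁ G₀) :
    Hyp p (G₁.map q) (G₀.map q) := by
  obtain ⟨h1, h2, h3, h4, ⟨g, h5⟩, h6⟩ := h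
  have hm : (G₁.subgroupOf G₀).map (q.subgroupMap G₀) = (G₁.map q).subgroupOf (G₀.map q) := by
    ext ⟨y, hy⟩
    simp only [Subgroup.mem_map, Subgroup.mem_subgroupOf]
    constructor
    · rintro ⟨x, hx, hxy⟩
      exact ⟨x, hx, by simpa using congrArg Subtype.val hxy⟩
    · rintro ⟨x, hx, hxy⟩
      exact ⟨⟨x, h1 hx⟩, hx, Subtype.ext (by simpa using hxy)⟩
  refine ⟨Subgroup.map_mono h1, ?_, ?_, ?_, ⟨q g, ?_⟩, ?_⟩
  · rw [← hm]
    exact h2.map _ (MonoidHom.subgroupMap_surjective q G₀)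
  · exact h3.map q
  · rw [← hm]
    exact Nat.Coprime.coprime_dvd_left
      (Subgroup.index_map_dvd _ (MonoidHom.subgroupMap_surjective q G₀)) h4
  · rw [← h5, Subgroup.map_sup, MonoidHom.map_zpowers]
  · rw [Subgroup.coe_map, ← Subgroup.map_normalClosure _ q hq, h6]
    exact Subgroup.map_top_of_surjective q hq

/-- the order of `c` divides the index of `P` in `P⟨c⟩` -/
theorem order_dvd {p : ℕ} [Fact p.Prime] {G : Type} [Group G] [Finite G] {P : Subgroup G} {c : G}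
    (h : GT.Dat p P c) : orderOf c ∣ (P.subgroupOf (GT.Pc P c)).index := by
  obtain ⟨n, hn⟩ := IsPGroup.iff_card.mp h.pgr
  have hc : c ∈ GT.Pc P c :=
    (le_sup_right : Subgroup.zpowers c ≤ P ⊔ Subgroup.zpowers c) (Subgroup.mem_zpowers c)
  have h1 : orderOf c ∣ Nat.card (GT.Pc P c) := by
    have := orderOf_dvd_natCard (⟨c, hc⟩ : GT.Pc P c)
    rwa [Subgroup.orderOf_mk] at this
  have h2 : Nat.card (P.subgroupOf (GT.Pc P c)) * (P.subgroupOf (GT.Pc P c)).index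
      = Nat.card (GT.Pc P c) := Subgroup.card_mul_index _
  have h3 : Nat.card (P.subgroupOf (GT.Pc P c)) = p ^ n := by
    rw [← hn]
    exact Nat.card_congr (Subgroup.subgroupOfEquivOfLe le_sup_left).toEquiv
  rw [← h2, h3] at h1
  refine Nat.Coprime.dvd_of_dvd_mul_left ?_ h1
  exact Nat.Coprime.pow_right n
    (Nat.Coprime.symm ((Nat.Prime.coprime_iff_not_dvd Fact.out).mpr h.cop))

section

variable (k : Type) [Field k] [IsAlgClosed k] (p : ℕ) [Fact p.Prime]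

/-- quotients -/
theorem occ_quo (hT0 : T0) (hAx : GT.TAx p (fun G _ G₀ => Rel k G G₀)) (G G' : Type) [Group G]
    [Finite G] [Group G'] (q : G →* G') (G₀ : Subgroup G) (hq : Function.Surjective q)
    (h : Occurs k G G₀) : Occurs k G' (G₀.map q) := by
  have : Finite G' := Finite.of_surjective q hq
  exact (hT0 k G' _).mp (hAx.quo G G' q G₀ hq ((hT0 k G G₀).mpr h))

/-- solvable normal subgroups -/
theorem occ_main (hT0 : T0) (hAx : GT.TAx p (fun G _ G₀ => Rel k G G₀)) (hM : GT.GMain)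
    (hH : GT.GHyp) (G : Type) [Group G] [Finite G] (G₀ G₁ N : Subgroup G) [N.Normal]
    (h : Hyp p G₁ G₀) (hs : Group.IsSolvable N)
    (hc : ∀ r : ℕ, r.Prime → r ≠ p → r ∣ ⁅N, (⊤ : Subgroup G)⁆.relIndex N →
      ¬ r ∣ (G₁.subgroupOf G₀).index)
    (ho : Occurs k (G ⧸ N) (G₀.map (QuotientGroup.mk' N))) : Occurs k G G₀ := by
  obtain ⟨h1, h2, h3, h4, h5, h6⟩ := h
  obtain ⟨c, hD, rfl⟩ := hH p G G₀ G₁ h1 h2 h3 h4 h5 h6
  refine (hT0 k G _).mp (hM p _ hAx G G₁ N c hD hs ?_ ((hT0 k (G ⧸ N) _).mpr ho))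
  intro r hr hrp hd hd'
  exact hc r hr hrp hd (hd'.trans (order_dvd hD))

/-- solvable groups -/
theorem occ_solv (hT0 : T0) (hAx : GT.TAx p (fun G _ G₀ => Rel k G G₀)) (hM : GT.GSolv)
    (hH : GT.GHyp) (G : Type) [Group G] [Finite G] (G₀ G₁ : Subgroup G)
    (h : Hyp p G₁ G₀) (hs : Group.IsSolvable G) : Occurs k G G₀ := by
  obtain ⟨h1, h2, h3, h4, h5, h6⟩ := h
  obtain ⟨c, hD, rfl⟩ := hH p G G₀ G₁ h1 h2 h3 h4 h5 h6
  exact (hT0 k G _).mp (hM p _ hAx G G₁ c hD hs)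

end

end MP7b0bad.SVF
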