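import Pool.Agent.Work.MP_7b0bad_ag.SV.JStmts
import Pool.Agent.Work.MP_7b0bad_ag.Bd.B12

set_option autoImplicit false

/-!
# Approximation of elements of the local algebra by global elements
-/

namespace MP7b0bad

open Polynomial

theorem prf_JApp (hJSm : JSm) (_hQBC : QBC) (hQFree : QFree) : JApp := by
  intro κ _ Γ _ _ C D _ _ _ _ _ _ q hC hD hq hq' z
  classical
  have hfin : Module.Finite κ[X] C := gal_finite hC
  have hfree : Module.Free κ[X] C := hQFree κ Γ C hC
  let c : Module.Basis (Fin (Module.finrank κ[X] C)) κ[X] C := Module.finBasis κ[X] C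
  obtain ⟨m, hm⟩ := hJSm κ Γ D hD _ (fun l => q (c l))
  obtain ⟨d, hd⟩ := all_QTrunc κ Γ C D q hC hD hq hq' _ c z m
  obtain ⟨β, h, hh, hβ⟩ := hd d le_rfl
  refine ⟨d, β, ?_⟩
  have h1 := hm (fun l => HahnSeries.single (d : ℤ) (1 : κ) * h l) (by
    intro l t ht
    have h2 := HahnSeries.coeff_single_mul_add (r := (1 : κ)) (x := h l)
      (a := t - d) (b := (d : ℤ))
    rw [one_mul, sub_add_cancel] at h2
    rw [h2]
    exact hh l _ (by omega))
  have h3 : algebraMap (LaurentSeries κ) D (HahnSeries.single (d : ℤ) (1 : κ)) * q β - z =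
      ∑ l, algebraMap (LaurentSeries κ) D (HahnSeries.single (d : ℤ) (1 : κ) * h l) * q (c l) := by
    have h4 : algebraMap (LaurentSeries κ) D (HahnSeries.single (d : ℤ) (1 : κ)) *
        algebraMap (LaurentSeries κ) D (HahnSeries.single (-(d : ℤ)) (1 : κ)) = 1 := by
      rw [← map_mul, HahnSeries.single_mul_single, add_neg_cancel, mul_one]
      exact map_one _
    have h5 : ∑ l, algebraMap (LaurentSeries κ) D (HahnSeries.single (d : ℤ) (1 : κ) * h l) *
        q (c l) = algebraMap (LaurentSeries κ) D (HahnSeries.single (d : ℤ) (1 : κ)) *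
        ∑ l, algebraMap (LaurentSeries κ) D (h l) * q (c l) := by
      rw [Finset.mul_sum]
      refine Finset.sum_congr rfl fun l _ => ?_
      rw [map_mul]
      ring
    rw [h5, ← hβ, mul_sub, ← mul_assoc, h4, one_mul]
  rw [h3]
  exact h1

end MP7b0bad
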