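import Pool.Agent.Work.MP_7b0bad_ag.SV.JStmts
import Pool.Agent.Work.MP_7b0bad_ag.Bd.B09

set_option autoImplicit false

/-!
# Item JCR: from certificates over `k` to covers
-/

namespace MP7b0bad

open Polynomial

theorem JCR_int {κ : Type} [Field κ] {D : Type} [CommRing D] [Algebra (LaurentSeries κ) D]
    (a : LaurentSeries κ) (ha : ∀ m : ℤ, m < 0 → a.coeff m = 0) :
    IntL (κ := κ) (algebraMap (LaurentSeries κ) D a) := by
  refine ⟨1, fun _ => -a, one_pos, fun _ m hm => ?_, ?_⟩
  · rw [HahnSeries.coeff_neg, ha m hm, neg_zero]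
  · simp

theorem JCR_tn_map {κ : Type} [Field κ] {D D' : Type} [CommRing D] [Algebra (LaurentSeries κ) D]
    [CommRing D'] [Algebra (LaurentSeries κ) D'] (ψ : LaurentSeries κ →+* LaurentSeries κ) (M : ℕ)
    (hM : 0 < M) (hψ : ∀ a : LaurentSeries κ, a ≠ 0 → (ψ a).order = (M : ℤ) * a.order)
    (s : D →+* D') (hs : ∀ a, s (algebraMap (LaurentSeries κ) D a) =
      algebraMap (LaurentSeries κ) D' (ψ a)) (z : D) (hz : TN (κ := κ) z) :
    TN (κ := κ) (s z) := by
  obtain ⟨n, c, hn, hc, h⟩ := hz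
  refine ⟨n, fun i => ψ (c i), hn, fun i m hm => ?_, ?_⟩
  · change (ψ (c i)).coeff m = 0
    by_cases h0 : c i = 0
    · rw [h0, map_zero]
      rfl
    · apply HahnSeries.coeff_eq_zero_of_lt_order
      rw [hψ _ h0]
      have h1 : 0 < (c i).order := by
        by_contra hcon
        exact (mt HahnSeries.coeff_order_eq_zero.1 h0) (hc i _ (not_lt.1 hcon))
      have h2 : (0 : ℤ) < M := by exact_mod_cast hM
      have h3 := mul_pos h2 h1
      omega
  · have h1 := congrArg s h
    rw [map_zero, map_add, map_pow, map_sum] at h1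
    rw [← h1]
    congr 1
    refine Finset.sum_congr rfl fun i _ => ?_
    rw [map_mul, map_pow, hs]

/-- an equivariant homomorphism from a Galois algebra to a Galois algebra for a subgroup is
surjective -/
theorem JCR_surj {R : Type} [CommRing R] {H G₀ : Type} [Group H] [Finite H] [Group G₀] (b : G₀ →* H)
    (hb : Function.Injective b) {D EH : Type} [CommRing D] [Algebra R D] [MulSemiringAction H D]
    [CommRing EH] [Algebra R EH] [MulSemiringAction G₀ EH] (hD : GalAlg R H D)
    (hE : GalAlg R G₀ EH) (π : D →+* EH)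
    (hπ : ∀ a, π (algebraMap R D a) = algebraMap R EH a)
    (hπa : ∀ (τ : G₀) (z : D), π (b τ • z) = τ • π z) : Function.Surjective π := by
  classical
  have := Fintype.ofFinite H
  intro y
  obtain ⟨n, x, w, h1, h2⟩ := gal_dual' hD
  let v : H → EH := fun h => if hh : ∃ τ, b τ = h then (Classical.choose hh)⁻¹ • y else 0
  have hv1 : ∀ τ : G₀, v (b τ) = τ⁻¹ • y := by
    intro τ
    have hh : ∃ τ', b τ' = b τ := ⟨τ, rfl⟩
    have h3 : Classical.choose hh = τ := hb (Classical.choose_spec hh)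
    change (if hh : ∃ τ', b τ' = b τ then (Classical.choose hh)⁻¹ • y else 0) = _
    rw [dif_pos hh, h3]
  have hv : ∀ (γ : H) (τ : G₀), τ • v (γ * b τ) = v γ := by
    intro γ τ
    by_cases hγ : ∃ σ, b σ = γ
    · obtain ⟨σ, rfl⟩ := hγ
      rw [← map_mul, hv1, hv1, smul_smul]
      congr 1
      group
    · have hγ' : ¬ ∃ σ, b σ = γ * b τ := by
        rintro ⟨σ, hσ⟩
        exact hγ ⟨σ * τ⁻¹, by rw [map_mul, map_inv, hσ]; group⟩
      change τ • (if hh : ∃ τ', b τ' = γ * b τ then (Classical.choose hh)⁻¹ • y else 0) =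
        (if hh : ∃ τ', b τ' = γ then (Classical.choose hh)⁻¹ • y else 0)
      rw [dif_neg hγ', dif_neg hγ, smul_zero]
  obtain ⟨h3, h4⟩ := gal_coord b π hπa h1 h2 v hv
  have h5 : ∀ m : Fin n, ∃ a : R, algebraMap R EH a = ∑ δ, π (δ⁻¹ • w m) * v δ :=
    fun m => hE.inv _ (h3 (w m))
  choose a ha using h5
  refine ⟨∑ m, algebraMap R D (a m) * x m, ?_⟩
  have h6 := h4 1
  have h7 : v 1 = y := by
    have h8 := hv1 1
    rw [map_one, inv_one, one_smul] at h8
    exact h8
  rw [h7] at h6
  rw [map_sum, h6]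
  refine Finset.sum_congr rfl fun m _ => ?_
  rw [map_mul, hπ, ha, inv_one, one_smul]

/-- `b = β / x^d` in terms of `TN` -/
theorem JCR_b (hQSTN : QSTN) {k : Type} [Field k] {G H G₀ : Type} [Group G] [Finite G]
    [Group H] [Finite H] [Group G₀] (δ : G₀ →* G × H) {C D : Type}
    [CommRing C] [Algebra k[X] C] [MulSemiringAction (G × H) C] [CommRing D]
    [Algebra (LaurentSeries k) D] [MulSemiringAction (G × H) D] (q : C →+* D)
    (hD : GalAlg (LaurentSeries k) (G × H) D)
    (hq : ∀ f, q (algebraMap k[X] C f) = algebraMap (LaurentSeries k) D (atInf k f))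
    (hq' : ∀ (γ : G × H) (c : C), q (γ • c) = γ • q c) {d : ℕ} {β : C}
    (h1 : Small k (2 * d) (β ^ 2 - algebraMap k[X] C (X ^ d) * β))
    (h2 : ∀ γ : G × H, γ ∉ δ.range → Small k (2 * d) (β * (γ • β)))
    (h3 : ∀ τ : G₀, Small k d (δ τ • β - β))
    (h4 : ∃ s : Finset (G × H), Small k d (∑ γ ∈ s, γ • β - algebraMap k[X] C (X ^ d)))
    (b : D) (hb : b = algebraMap (LaurentSeries k) D (HahnSeries.single (d : ℤ) (1 : k)) * q β) :
    TN (κ := k) (b * b - b) ∧ (∀ γ : G × H, γ ∉ δ.range → TN (κ := k) (b * (γ • b))) ∧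
      (∀ τ : G₀, TN (κ := k) (δ τ • b - b)) ∧
      ∃ s : Finset (G × H), TN (κ := k) (∑ γ ∈ s, γ • b - 1) := by
  classical
  set S : D := algebraMap (LaurentSeries k) D (HahnSeries.single (d : ℤ) (1 : k)) with hS
  have hSX : S * q (algebraMap k[X] C (X ^ d)) = 1 := by
    rw [hq, QCR_atInf, hS, ← map_mul, HahnSeries.single_mul_single, add_neg_cancel, mul_one]
    exact map_one _
  have hS2 : algebraMap (LaurentSeries k) D (HahnSeries.single ((2 * d : ℕ) : ℤ) (1 : k)) =
      S * S := by
    have h0 : ((2 * d : ℕ) : ℤ) = (d : ℤ) + d := by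
      push_cast
      ring
    rw [hS, ← map_mul, HahnSeries.single_mul_single, mul_one, h0]
  have hγS : ∀ γ : G × H, γ • S = S := fun γ => hD.comm γ _
  have hγb : ∀ γ : G × H, γ • b = S * q (γ • β) := by
    intro γ
    rw [hb, smul_mul', hγS, hq']
  refine ⟨?_, fun γ hγ => ?_, fun τ => ?_, ?_⟩
  · have h := hQSTN k C D q hq (2 * d) _ h1
    rw [hS2, map_sub, map_mul, map_pow] at h
    have e : S * S * (q β ^ 2 - q (algebraMap k[X] C (X ^ d)) * q β) = b * b - b := by
      calc S * S * (q β ^ 2 - q (algebraMap k[X] C (X ^ d)) * q β) =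
            (S * q β) * (S * q β) - (S * q (algebraMap k[X] C (X ^ d))) * (S * q β) := by ring
        _ = b * b - b := by rw [hSX, one_mul, hb]
    rwa [e] at h
  · have h := hQSTN k C D q hq (2 * d) _ (h2 γ hγ)
    rw [hS2, map_mul] at h
    have e : S * S * (q β * q (γ • β)) = b * (γ • b) := by
      rw [hγb, hb]
      ring
    rwa [e] at h
  · have h := hQSTN k C D q hq d _ (h3 τ)
    rw [map_sub] at h
    have e : S * (q (δ τ • β) - q β) = δ τ • b - b := by
      rw [hγb, hb]
      ring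
    rwa [e] at h
  · obtain ⟨s, hs⟩ := h4
    refine ⟨s, ?_⟩
    have h := hQSTN k C D q hq d _ hs
    rw [map_sub, map_sum, mul_sub, hSX, Finset.mul_sum] at h
    have e1 : ∑ γ ∈ s, S * q (γ • β) = ∑ γ ∈ s, γ • b :=
      Finset.sum_congr rfl fun γ _ => (hγb γ).symm
    rwa [e1] at h

theorem prf_JCR (hQBC : QBC) (hQSub : QSub) (hQSTN : QSTN) (hIdem : JIdem) (hQTN : QTN)
    (hQQuo : QQuo) (hQDomB : QDomB) : JCR := by
  intro k _ G H G₀ _ _ _ _ _ _ δ hδ BH EH _ _ _ _ _ _ ιH dH βH D _ _ _ q π e hBH hEH hL g hg ψ hψ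
    C _ _ _ hcert
  classical
  have hC := hcert.gal
  -- the cover
  obtain ⟨B, _, _, _, iB, hB, hiB, hiBa, hiBe, hiBr⟩ :=
    hQSub k[X] (G × H) G (MonoidHom.fst G H) C (fun g => ⟨(g, 1), rfl⟩) hC
  obtain ⟨θ, F, hθ, hFm, hFd, hF0, hFi⟩ := hcert.irr
  obtain ⟨θB, hθB⟩ := hiBr θ (fun γ hγ => by
    have h1 : γ.1 = 1 := hγ
    have h2 : γ = ((1 : G), γ.2) := Prod.ext h1 rfl
    rw [h2]
    exact hθ γ.2)
  have hBdom : IsDomain B := by
    refine (hQDomB k G B hB).2 θB F hFm hFd ?_ hFi
    apply hiB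
    rw [map_zero, ← hF0, aeval_def, aeval_def, hom_eval₂, hθB]
    congr 1
    exact RingHom.ext hiBa
  -- the local algebra at infinity
  obtain ⟨DC, _, _, _, qC, hD, hq, hqe, _, _⟩ :=
    hQBC k[X] (LaurentSeries k) (atInf k) (G × H) C hC
  obtain ⟨jH, hj1, hj2, d, β, h1, h2, h3, h4, h5⟩ := hcert.infty
  obtain ⟨tI, tadd, tmul, tint, tsmul, _, tidI, tunit, tid0⟩ := hQTN k (G × H) DC hD
  set b : DC := algebraMap (LaurentSeries k) DC (HahnSeries.single (d : ℤ) (1 : k)) * qC β with hb
  obtain ⟨b1, b2, b3, b4⟩ := JCR_b hQSTN δ qC hD hq hqe h1 h2 h3 h4 b hb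
  obtain ⟨eC, he1, he2, he3, he4, he5⟩ := hIdem k (G × H) G₀ δ DC hD b b1 b2 b3 b4
  have hδi : Function.Injective δ := fun x y hxy => hδ (congrArg Prod.snd hxy)
  obtain ⟨E, _, _, _, πC, hE, hπa, hπe, hπq⟩ :=
    hQQuo (LaurentSeries k) (G × H) G₀ δ DC eC hδi hD he1 he3 he4 he5
  -- the map of the local algebras
  obtain ⟨sD, hs1, hs2⟩ := hL.univ DC (qC.comp jH)
    ((algebraMap (LaurentSeries k) DC).comp ψ) (fun a => by
      rw [RingHom.comp_apply, RingHom.comp_apply, hj1, hq, hψ.p])
  have hs1' : ∀ x, sD (q x) = qC (jH x) := hs1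
  have hs2' : ∀ a, sD (algebraMap (LaurentSeries k) D a) =
      algebraMap (LaurentSeries k) DC (ψ a) := hs2
  have hsact : ∀ (γ : G × H) (z : D), sD (γ.2 • z) = γ • sD z := by
    intro γ z
    obtain ⟨n, r, x, rfl⟩ := hL.gen z
    rw [Finset.smul_sum, map_sum, map_sum, Finset.smul_sum]
    refine Finset.sum_congr rfl fun m _ => ?_
    rw [smul_mul', hL.gal.comm, ← hL.q_act, map_mul, map_mul, hs1', hs1', hs2', smul_mul',
      hD.comm, ← hqe, hj2]
  -- the idempotent
  have t0 : TN (κ := k) (0 : DC) := QCR_TN_zero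
  have hsee : sD e * sD e = sD e := by rw [← map_mul, hL.idem]
  have h1e : (1 - sD e) * (1 - sD e) = 1 - sD e := by
    calc (1 - sD e) * (1 - sD e) = 1 - sD e - sD e + sD e * sD e := by ring
      _ = 1 - sD e := by rw [hsee]; ring
  have hI1 : IntL (κ := k) (1 - sD e) := tidI _ (by rw [h1e, sub_self]; exact t0)
  have hIb : IntL (κ := k) b := tidI b b1
  have hψX : ψ (HahnSeries.single (dH : ℤ) (1 : k)) * (atInf k g) ^ dH = 1 := by
    have e1 : (atInf k g) ^ dH = ψ (atInf k (X ^ dH)) := by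
      rw [hψ.p, Polynomial.map_pow, Polynomial.map_X, Polynomial.X_pow_comp, map_pow]
    rw [e1, ← map_mul, QCR_atInf, HahnSeries.single_mul_single, add_neg_cancel, mul_one]
    exact map_one _
  have hkey1 : TN (κ := k) (b * (1 - sD (algebraMap (LaurentSeries k) D
      (HahnSeries.single (dH : ℤ) (1 : k)) * q βH))) := by
    have h := hQSTN k C DC qC hq (d + g.natDegree * dH) _ h5
    set M : ℤ := ((g.natDegree * dH : ℕ) : ℤ) with hM
    set u : LaurentSeries k := ψ (HahnSeries.single (dH : ℤ) (1 : k)) *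
      HahnSeries.single (-M) (1 : k) with hu
    have hne : (HahnSeries.single (dH : ℤ) (1 : k) : LaurentSeries k) ≠ 0 :=
      HahnSeries.single_ne_zero one_ne_zero
    have hψne : ψ (HahnSeries.single (dH : ℤ) (1 : k)) ≠ 0 :=
      (map_ne_zero ψ).2 hne
    have hne2 : (HahnSeries.single (-M) (1 : k) : LaurentSeries k) ≠ 0 :=
      HahnSeries.single_ne_zero one_ne_zero
    have hord : u.order = 0 := by
      rw [hu, HahnSeries.order_mul hψne hne2, hψ.ord _ hne,
        HahnSeries.order_single one_ne_zero, HahnSeries.order_single one_ne_zero, hM]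
      push_cast
      ring
    have hui : IntL (κ := k) (algebraMap (LaurentSeries k) DC u) := by
      refine JCR_int u fun m hm => ?_
      apply HahnSeries.coeff_eq_zero_of_lt_order
      rw [hord]
      exact hm
    have h6 := tmul _ _ h hui
    have e0 : (((d + g.natDegree * dH : ℕ) : ℕ) : ℤ) = (d : ℤ) + M := by
      rw [hM]
      push_cast
      ring
    have e1 : (HahnSeries.single (((d + g.natDegree * dH : ℕ) : ℕ) : ℤ) (1 : k) :
        LaurentSeries k) * u = HahnSeries.single (d : ℤ) (1 : k) *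
        ψ (HahnSeries.single (dH : ℤ) (1 : k)) := by
      have e2 : (HahnSeries.single ((d : ℤ) + M) (1 : k) : LaurentSeries k) *
          HahnSeries.single (-M) (1 : k) = HahnSeries.single (d : ℤ) (1 : k) := by
        rw [HahnSeries.single_mul_single, mul_one, add_neg_cancel_right]
      rw [e0, hu]
      calc (HahnSeries.single ((d : ℤ) + M) (1 : k) : LaurentSeries k) *
            (ψ (HahnSeries.single (dH : ℤ) (1 : k)) * HahnSeries.single (-M) (1 : k)) =
            (HahnSeries.single ((d : ℤ) + M) (1 : k) * HahnSeries.single (-M) (1 : k)) *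
              ψ (HahnSeries.single (dH : ℤ) (1 : k)) := by ring
        _ = _ := by rw [e2]
    have e3 : algebraMap (LaurentSeries k) DC
        (HahnSeries.single (((d + g.natDegree * dH : ℕ) : ℕ) : ℤ) (1 : k)) *
        qC (β * (algebraMap k[X] C (g ^ dH) - jH βH)) * algebraMap (LaurentSeries k) DC u =
        b * (1 - sD (algebraMap (LaurentSeries k) D
          (HahnSeries.single (dH : ℤ) (1 : k)) * q βH)) := by
      have e4 : algebraMap (LaurentSeries k) DC
          (HahnSeries.single (((d + g.natDegree * dH : ℕ) : ℕ) : ℤ) (1 : k)) *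
          algebraMap (LaurentSeries k) DC u = algebraMap (LaurentSeries k) DC
            (HahnSeries.single (d : ℤ) (1 : k)) * algebraMap (LaurentSeries k) DC
            (ψ (HahnSeries.single (dH : ℤ) (1 : k))) := by
        rw [← map_mul, e1, map_mul]
      have e5 : algebraMap (LaurentSeries k) DC (ψ (HahnSeries.single (dH : ℤ) (1 : k))) *
          algebraMap (LaurentSeries k) DC ((atInf k g) ^ dH) = 1 := by
        rw [← map_mul, hψX, map_one]
      rw [map_mul, map_sub, hq, map_pow (atInf k), map_mul sD, hs2', hs1', hb]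
      calc algebraMap (LaurentSeries k) DC
            (HahnSeries.single (((d + g.natDegree * dH : ℕ) : ℕ) : ℤ) (1 : k)) *
            (qC β * (algebraMap (LaurentSeries k) DC (atInf k g ^ dH) - qC (jH βH))) *
            algebraMap (LaurentSeries k) DC u =
            (algebraMap (LaurentSeries k) DC
            (HahnSeries.single (((d + g.natDegree * dH : ℕ) : ℕ) : ℤ) (1 : k)) *
            algebraMap (LaurentSeries k) DC u) *
            (qC β * (algebraMap (LaurentSeries k) DC (atInf k g ^ dH) - qC (jH βH))) := by ring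
        _ = algebraMap (LaurentSeries k) DC (HahnSeries.single (d : ℤ) (1 : k)) * qC β *
            (algebraMap (LaurentSeries k) DC (ψ (HahnSeries.single (dH : ℤ) (1 : k))) *
              algebraMap (LaurentSeries k) DC (atInf k g ^ dH) -
              algebraMap (LaurentSeries k) DC (ψ (HahnSeries.single (dH : ℤ) (1 : k))) *
              qC (jH βH)) := by
            rw [e4]
            ring
        _ = _ := by rw [e5]
    rwa [e3] at h6
  have hkey2 : TN (κ := k) (b * sD (algebraMap (LaurentSeries k) D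
      (HahnSeries.single (dH : ℤ) (1 : k)) * q βH - e)) := by
    have h6 := JCR_tn_map ψ g.natDegree hg hψ.ord sD hs2' _ hL.app
    have h7 := tmul _ _ h6 hIb
    rwa [mul_comm] at h7
  have hkey3 : TN (κ := k) (b * (1 - sD e)) := by
    have h6 := tadd _ _ hkey1 hkey2
    have e1 : b * (1 - sD (algebraMap (LaurentSeries k) D
        (HahnSeries.single (dH : ℤ) (1 : k)) * q βH)) + b * sD (algebraMap (LaurentSeries k) D
        (HahnSeries.single (dH : ℤ) (1 : k)) * q βH - e) = b * (1 - sD e) := by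
      rw [map_sub sD]
      ring
    rwa [e1] at h6
  have hkey4 : eC * (1 - sD e) = 0 := by
    refine tid0 _ ?_ ?_
    · calc eC * (1 - sD e) * (eC * (1 - sD e)) = (eC * eC) * ((1 - sD e) * (1 - sD e)) := by ring
        _ = eC * (1 - sD e) := by rw [he1, h1e]
    · have h6 := tadd _ _ (tmul _ _ he2 hI1) hkey3
      have e1 : (eC - b) * (1 - sD e) + b * (1 - sD e) = eC * (1 - sD e) := by ring
      rwa [e1] at h6
  have hone : πC (sD e) = 1 := by
    have h6 := congrArg πC hkey4
    rw [map_mul, map_sub, map_one, map_zero, hπe, one_mul] at h6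
    exact (sub_eq_zero.1 h6).symm
  -- the map of the local extensions
  have hsurj : Function.Surjective π := JCR_surj ((MonoidHom.snd G H).comp δ) hδ hL.gal hEH π
    hL.π_alg hL.π_act
  have hker : RingHom.ker π ≤ RingHom.ker (πC.comp sD) := by
    intro z hz
    rw [RingHom.mem_ker] at hz ⊢
    have h6 := congrArg (fun w => πC (sD w)) (hL.ker z hz)
    simp only [map_mul, hone, one_mul, map_zero] at h6
    exact h6
  let s : EH →+* E := RingHom.liftOfSurjective π hsurj ⟨πC.comp sD, hker⟩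
  have hs : ∀ z, s (π z) = πC (sD z) := fun z =>
    RingHom.liftOfRightInverse_comp_apply π _ (Function.rightInverse_surjInv hsurj)
      ⟨πC.comp sD, hker⟩ z
  refine ⟨B, inferInstance, inferInstance, inferInstance, E, inferInstance, inferInstance,
    inferInstance, πC.comp (qC.comp iB), s, hB, hBdom, hE, fun f => ?_, fun τ x => ?_,
    fun a => ?_, fun τ x => ?_⟩
  · rw [RingHom.comp_apply, RingHom.comp_apply, hiBa, hq, hπa]
  · rw [RingHom.comp_apply, RingHom.comp_apply, RingHom.comp_apply, RingHom.comp_apply,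
      ← hπq, ← hqe]
    congr 2
    exact hiBe (δ τ) x
  · rw [← hL.π_alg, hs, hs2', hπa]
  · obtain ⟨z, rfl⟩ := hsurj x
    rw [← hL.π_act, hs, hs, ← hπq, ← hsact]
    rfl

end MP7b0bad
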