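import Pool.Agent.Work.MP_7b0bad_ag.SV.JStmts

set_option autoImplicit false

/-! Item JCertK: the certificate over `K`. -/

namespace MP7b0bad

open Polynomial

theorem JCertK_aeval {R : Type} [CommRing R] {B C : Type} [CommRing B] [Algebra R B] [CommRing C]
    [Algebra R C] (i : B →+* C) (hi : ∀ a : R, i (algebraMap R B a) = algebraMap R C a) (θ : B)
    (F : R[X]) (h : aeval θ F = 0) : aeval (i θ) F = 0 := by
  have h1 : i.comp (algebraMap R B) = algebraMap R C := RingHom.ext hi
  rw [Polynomial.aeval_def, ← h1, ← Polynomial.hom_eval₂, ← Polynomial.aeval_def, h, map_zero]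

theorem JCertK_TN_zero {κ : Type} [Field κ] {D : Type} [CommRing D]
    [Algebra (LaurentSeries κ) D] : TN (κ := κ) (0 : D) :=
  ⟨1, fun _ => 0, one_pos, fun _ _ _ => rfl, by simp⟩

theorem JCertK_intL {κ : Type} [Field κ] {D : Type} [CommRing D]
    [Algebra (LaurentSeries κ) D] (a : LaurentSeries κ) (ha : ∀ m : ℤ, m < 0 → a.coeff m = 0) :
    IntL (κ := κ) (algebraMap (LaurentSeries κ) D a) := by
  refine ⟨1, fun _ => -a, one_pos, fun _ m hm => ?_, by simp⟩
  rw [HahnSeries.coeff_neg, ha m hm, neg_zero]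

theorem JCertK_atInf (k : Type) [Field k] (d : ℕ) :
    atInf k (X ^ d) = HahnSeries.single (-(d : ℤ)) (1 : k) := by
  rw [map_pow]
  have h : atInf k X = HahnSeries.single (-1 : ℤ) (1 : k) := by
    rw [atInf, coe_eval₂RingHom, eval₂_X]
  rw [h, HahnSeries.single_pow, one_pow]
  congr 1
  simp

/-- the integral unit `ξ^(M d) g^d` -/
theorem JCertK_coef {K : Type} [Field K] (g : K[X]) (d : ℕ) (m : ℤ) (hm : m < 0) :
    (HahnSeries.single ((g.natDegree * d : ℕ) : ℤ) (1 : K) * atInf K (g ^ d)).coeff m = 0 := by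
  have h1 := HahnSeries.coeff_single_mul_add (r := (1 : K)) (x := atInf K (g ^ d))
    (a := m - ((g.natDegree * d : ℕ) : ℤ)) (b := ((g.natDegree * d : ℕ) : ℤ))
  rw [sub_add_cancel] at h1
  rw [h1, one_mul, C2b_atInf_coeff]
  split_ifs with h2
  · apply coeff_eq_zero_of_natDegree_lt
    have h3 : (g ^ d).natDegree ≤ d * g.natDegree := natDegree_pow_le
    have h4 : d * g.natDegree = g.natDegree * d := Nat.mul_comm _ _
    omega
  · rfl

/-- a substitution maps topologically nilpotent elements to such elements -/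
theorem JCertK_sbs {k K : Type} [Field k] [Field K] {i : k →+* K} {g : K[X]}
    (hg : 0 < g.natDegree) {ψ : LaurentSeries k →+* LaurentSeries K} (hψ : Sbs i g ψ)
    {D D' : Type} [CommRing D] [Algebra (LaurentSeries k) D] [CommRing D']
    [Algebra (LaurentSeries K) D'] (s : D →+* D')
    (hs : ∀ a, s (algebraMap (LaurentSeries k) D a) = algebraMap (LaurentSeries K) D' (ψ a))
    (z : D) (hz : TN (κ := k) z) : TN (κ := K) (s z) := by
  obtain ⟨n, c, hn, hc, h⟩ := hz
  refine ⟨n, fun l => ψ (c l), hn, fun l m hm => ?_, ?_⟩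
  · show (ψ (c l)).coeff m = 0
    by_cases h0 : c l = 0
    · rw [h0, map_zero]
      rfl
    · apply HahnSeries.coeff_eq_zero_of_lt_order
      rw [hψ.ord _ h0]
      have h1 : 0 < (c l).order := by
        by_contra h2
        exact h0 (HahnSeries.coeff_order_eq_zero.1 (hc l _ (not_lt.1 h2)))
      have h3 : 0 < (g.natDegree : ℤ) := by exact_mod_cast hg
      exact lt_of_le_of_lt hm (mul_pos h3 h1)
  · have h1 := congrArg s h
    rw [map_add, map_pow, map_sum, map_zero] at h1
    rw [← h1]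
    congr 1
    refine Finset.sum_congr rfl fun l _ => ?_
    rw [map_mul, map_pow, hs]

theorem prf_JCertK (hQBC : QBC) (hQTen : QTen) (hQTenG : QTenG) (hIdK : JIdK) (hApp : JApp)
    (hTNS : JTNS) (hQTN : QTN) (hGeo : JGeo) : JCertK := by
  intro k K _ _ i G H G₀ _ _ _ _ _ _ δ hδs BH EH _ _ _ _ _ _ ιH dH βH D _ _ _ q π e hBH hL g hg ψ
    hψ B E _ _ _ _ _ _ ι s hB hBd hE hGD hι hιG hs hsG
  classical
  -- the pull back of `BH`
  set φA : k[X] →+* K[X] := (compRingHom g).comp (mapRingHom i) with hφA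
  have hφ : ∀ a : k[X], φA a = (a.map i).comp g := fun a => rfl
  obtain ⟨A, _, _, _, qA, hA, hqA, hqAG, huA, hgenA⟩ := hQBC k[X] K[X] φA H BH hBH
  obtain ⟨jA, hjAq, hjAa⟩ := huA E (s.comp (π.comp q))
    ((algebraMap (LaurentSeries K) E).comp (atInf K)) (fun a => by
      rw [RingHom.comp_apply, RingHom.comp_apply, RingHom.comp_apply, hL.q_alg, hL.π_alg, hs,
        hψ.p, hφ])
  have hjAq' : ∀ x, jA (qA x) = s (π (q x)) := fun x => hjAq x
  have hjAa' : ∀ f, jA (algebraMap K[X] A f) = algebraMap (LaurentSeries K) E (atInf K f) :=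
    fun f => hjAa f
  have hjAG : ∀ (τ : G₀) (a : A), jA ((δ τ).2 • a) = τ • jA a := by
    intro τ a
    obtain ⟨n, r, b, ha⟩ := hgenA a
    rw [ha, Finset.smul_sum, map_sum, map_sum, Finset.smul_sum]
    refine Finset.sum_congr rfl fun m _ => ?_
    have h1 : π ((δ τ).2 • q (b m)) = τ • π (q (b m)) := hL.π_act τ (q (b m))
    rw [smul_mul', hA.comm, ← hqAG, map_mul, map_mul, hjAa', hjAq', hjAq', hL.q_act, h1, hsG,
      smul_mul', hE.comm]
  -- the tensor product
  obtain ⟨C, _, _, _, iB, iA, hC, hiB, hiA, hiBG, hiAG, -, -, huC⟩ := hQTen K[X] G H B A hB hA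
  have hgen := hQTenG K[X] G H B A C iB iA hB hA hC hiB hiA hiBG hiAG
  set jH : BH →+* C := iA.comp qA with hjH
  have hjHx : ∀ x, jH x = iA (qA x) := fun x => rfl
  have hjHa : ∀ f : k[X], jH (algebraMap k[X] BH f) = algebraMap K[X] C ((f.map i).comp g) := by
    intro f
    rw [hjHx, hqA, hiA, hφ]
  have hjHG : ∀ (γ : G × H) (x : BH), γ • jH x = jH (γ.2 • x) := by
    intro γ x
    rw [hjHx, hjHx, hqAG]
    exact hiAG γ.1 γ.2 (qA x)
  obtain ⟨f0, hf0i, hf0j⟩ := huC E ι jA (fun a => by rw [hι, hjAa'])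
  have hf0e : ∀ (τ : G₀) (c : C), f0 (δ τ • c) = τ • f0 c := by
    intro τ c
    obtain ⟨n, b, a, hc⟩ := hgen c
    rw [hc, Finset.smul_sum, map_sum, map_sum, Finset.smul_sum]
    refine Finset.sum_congr rfl fun m _ => ?_
    have h1 : δ τ • iB (b m) = iB ((δ τ).1 • b m) := hiBG (δ τ).1 (δ τ).2 (b m)
    have h2 : δ τ • iA (a m) = iA ((δ τ).2 • a m) := hiAG (δ τ).1 (δ τ).2 (a m)
    rw [smul_mul', h1, h2, map_mul, map_mul, hf0i, hf0j, hf0i, hf0j, smul_mul', hιG, hjAG]
  -- the local algebra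
  obtain ⟨DC, _, _, _, qC, hDC, hqC, hqCG, huD, hgenD⟩ :=
    hQBC K[X] (LaurentSeries K) (atInf K) (G × H) C hC
  obtain ⟨Φ, hΦq, hΦa⟩ := huD E f0 (algebraMap (LaurentSeries K) E) (fun a => by
    rw [← hiB, hf0i, hι])
  have hΦe : ∀ (τ : G₀) (z : DC), Φ (δ τ • z) = τ • Φ z := by
    intro τ z
    obtain ⟨n, r, b, hz⟩ := hgenD z
    rw [hz, Finset.smul_sum, map_sum, map_sum, Finset.smul_sum]
    refine Finset.sum_congr rfl fun m _ => ?_
    rw [smul_mul', hDC.comm, ← hqCG, map_mul, map_mul, hΦa, hΦq, hΦq, smul_mul', hf0e, hE.comm]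
  have hδi : Function.Injective δ := by
    intro a b h
    apply hδs
    show (δ a).2 = (δ b).2
    rw [h]
  obtain ⟨eC, he1, he2, he3, ⟨σ, he4⟩, he5, he6⟩ :=
    hIdK (LaurentSeries K) (G × H) G₀ δ DC E Φ hδi hDC hE hΦa hΦe
  -- the map `D → DC`
  obtain ⟨sD, hsDq, hsDa⟩ := hL.univ DC (qC.comp jH)
    ((algebraMap (LaurentSeries K) DC).comp ψ) (fun a => by
      show qC (jH (algebraMap k[X] BH a)) = algebraMap (LaurentSeries K) DC (ψ (atInf k a))
      rw [hjHa, hqC, hψ.p])
  have hsDa' : ∀ a, sD (algebraMap (LaurentSeries k) D a) =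
      algebraMap (LaurentSeries K) DC (ψ a) := fun a => hsDa a
  have hsDq' : ∀ x, sD (q x) = qC (jH x) := fun x => hsDq x
  have hΦs : ∀ z : D, Φ (sD z) = s (π z) := by
    intro z
    obtain ⟨n, r, x, hz⟩ := hL.gen z
    rw [hz, map_sum, map_sum, map_sum, map_sum]
    refine Finset.sum_congr rfl fun m _ => ?_
    rw [map_mul, map_mul, map_mul, map_mul, hsDa', hsDq', hΦa, hΦq, hjHx, hf0j, hjAq', hL.π_alg,
      hs]
  have hker : eC * (1 - sD e) = 0 := by
    apply he6
    rw [map_sub, map_one, hΦs, hL.one, map_one, sub_self]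
  -- topologically nilpotent elements
  obtain ⟨tI, tadd, tmul, tint, tsmul, -, tidI, -, -⟩ := hQTN K (G × H) DC hDC
  have t0 : TN (κ := K) (0 : DC) := JCertK_TN_zero
  have iid : ∀ z : DC, z * z = z → IntL (κ := K) z := by
    intro z hz
    refine tidI z ?_
    rw [hz, sub_self]
    exact t0
  have i1 : IntL (κ := K) (1 : DC) := iid 1 (mul_one 1)
  have im1 : IntL (κ := K) (-1 : DC) := (tI 1 1 i1 i1).2.2
  have iadd : ∀ z z' : DC, IntL (κ := K) z → IntL (κ := K) z' → IntL (κ := K) (z + z') :=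
    fun z z' h h' => (tI z z' h h').1
  have imul : ∀ z z' : DC, IntL (κ := K) z → IntL (κ := K) z' → IntL (κ := K) (z * z') :=
    fun z z' h h' => (tI z z' h h').2.1
  have tneg : ∀ z : DC, TN (κ := K) z → TN (κ := K) (-z) := by
    intro z hz
    have := tmul z (-1) hz im1
    rwa [mul_neg, mul_one] at this
  have tsub : ∀ z z' : DC, TN (κ := K) z → TN (κ := K) z' → TN (κ := K) (z - z') := by
    intro z z' hz hz'
    rw [sub_eq_add_neg]
    exact tadd _ _ hz (tneg _ hz')
  have isub : ∀ z z' : DC, IntL (κ := K) z → IntL (κ := K) z' → IntL (κ := K) (z - z') := by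
    intro z z' hz hz'
    rw [sub_eq_add_neg]
    exact iadd _ _ hz (tI z' z' hz' hz').2.2
  have hie : IntL (κ := K) eC := iid eC he1
  have hγe : ∀ γ : G × H, IntL (κ := K) (γ • eC) := fun γ => iid _ (by
    rw [← smul_mul', he1])
  -- approximation
  obtain ⟨d, β, happ⟩ := hApp K (G × H) C DC qC hC hDC hqC hqCG eC
  set S : DC := algebraMap (LaurentSeries K) DC (HahnSeries.single (d : ℤ) (1 : K)) with hS
  set ε : DC := S * qC β - eC with hε
  have hb : S * qC β = eC + ε := by rw [hε]; ring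
  have hSX : S * qC (algebraMap K[X] C (X ^ d)) = 1 := by
    rw [hqC, JCertK_atInf, hS, ← map_mul, HahnSeries.single_mul_single, add_neg_cancel, mul_one]
    exact map_one _
  have hS2 : algebraMap (LaurentSeries K) DC (HahnSeries.single ((2 * d : ℕ) : ℤ) (1 : K)) =
      S * S := by
    have h0 : ((2 * d : ℕ) : ℤ) = (d : ℤ) + d := by
      push_cast
      ring
    rw [hS, ← map_mul, HahnSeries.single_mul_single, mul_one, h0]
  have hγS : ∀ γ : G × H, γ • S = S := fun γ => hDC.comm γ _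
  have hγb : ∀ γ : G × H, S * qC (γ • β) = γ • eC + γ • ε := by
    intro γ
    rw [hqCG, ← smul_add, ← hb, smul_mul', hγS]
  have hTNS' := hTNS K (G × H) C DC qC hC hDC hqC hqCG
  -- the element `βH`
  set M : ℕ := g.natDegree with hM
  have hψ1 : ψ (HahnSeries.single (dH : ℤ) (1 : k)) * atInf K (g ^ dH) = 1 := by
    have h1 : ψ (atInf k (X ^ dH)) = atInf K (g ^ dH) := by
      rw [hψ.p]
      congr 1
      simp
    rw [← h1, ← map_mul, JCertK_atInf, HahnSeries.single_mul_single, add_neg_cancel, mul_one]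
    exact map_one _
  set U : DC := algebraMap (LaurentSeries K) DC (ψ (HahnSeries.single (dH : ℤ) (1 : k))) with hU
  set W : DC := qC (jH βH) with hW
  set Gd : DC := algebraMap (LaurentSeries K) DC (atInf K (g ^ dH)) with hGd
  have hUG : U * Gd = 1 := by
    rw [hU, hGd, ← map_mul, hψ1, map_one]
  have ht : TN (κ := K) (U * W - sD e) := by
    have h1 := JCertK_sbs hg hψ sD hsDa' _ hL.app
    rwa [map_sub, map_mul, hsDa', hsDq'] at h1
  set t : DC := U * W - sD e with ht'
  set T : DC := algebraMap (LaurentSeries K) DC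
    (HahnSeries.single ((M * dH : ℕ) : ℤ) (1 : K)) with hT
  have hTG : IntL (κ := K) (T * Gd) := by
    rw [hT, hGd, ← map_mul]
    exact JCertK_intL _ fun m hm => JCertK_coef g dH m hm
  have hse : IntL (κ := K) (1 - sD e) := by
    refine isub _ _ i1 (iid _ ?_)
    rw [← map_mul, hL.idem]
  obtain ⟨θ, F, hF1, hF2, hF3, hF4⟩ := hGeo K G G₀ ((MonoidHom.fst G H).comp δ) B E ι hB hBd hE
    hGD hι hιG
  refine ⟨C, inferInstance, inferInstance, inferInstance, ⟨hC, ?_, ?_⟩⟩
  · refine ⟨iB θ, F, fun τ => ?_, hF1, hF2, JCertK_aeval iB hiB θ F hF3, hF4⟩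
    rw [hiBG, one_smul]
  · refine ⟨jH, hjHa, hjHG, d, β, ?_, ?_, ?_, ?_, ?_⟩
    · apply hTNS'
      have h1 : S * S * qC (β ^ 2 - algebraMap K[X] C (X ^ d) * β) =
          ε * (eC + eC + ε - 1) := by
        rw [map_sub, map_pow, map_mul]
        calc S * S * (qC β ^ 2 - qC (algebraMap K[X] C (X ^ d)) * qC β) =
              (S * qC β) * (S * qC β) - (S * qC (algebraMap K[X] C (X ^ d))) * (S * qC β) := by
                ring
          _ = (eC * eC - eC) + ε * (eC + eC + ε - 1) := by rw [hSX, hb]; ring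
          _ = ε * (eC + eC + ε - 1) := by rw [he1, sub_self, zero_add]
      rw [hS2, h1]
      exact tmul _ _ happ (isub _ _ (iadd _ _ (iadd _ _ hie hie) (tint _ happ)) i1)
    · intro γ hγ
      apply hTNS'
      have h1 : S * S * qC (β * (γ • β)) =
          (γ • ε) * eC + (ε * (γ • eC) + ε * (γ • ε)) := by
        rw [map_mul]
        calc S * S * (qC β * qC (γ • β)) = (S * qC β) * (S * qC (γ • β)) := by ring
          _ = eC * (γ • eC) + ((γ • ε) * eC + (ε * (γ • eC) + ε * (γ • ε))) := by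
              rw [hγb, hb]; ring
          _ = _ := by rw [he3 γ hγ, zero_add]
      rw [hS2, h1]
      have hγε : TN (κ := K) (γ • ε) := tsmul _ γ happ
      exact tadd _ _ (tmul _ _ hγε hie) (tadd _ _ (tmul _ _ happ (hγe γ))
        (tmul _ _ happ (tint _ hγε)))
    · intro τ
      apply hTNS'
      have h1 : S * qC (δ τ • β - β) = δ τ • ε - ε := by
        rw [map_sub, mul_sub, hγb, hb, he2]
        ring
      rw [← hS, h1]
      exact tsub _ _ (tsmul _ _ happ) happ
    · refine ⟨σ, ?_⟩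
      apply hTNS'
      have h1 : S * qC (∑ γ ∈ σ, γ • β - algebraMap K[X] C (X ^ d)) = ∑ γ ∈ σ, γ • ε := by
        rw [map_sub, map_sum, mul_sub, hSX, Finset.mul_sum,
          Finset.sum_congr rfl (fun γ _ => hγb γ), Finset.sum_add_distrib, he4]
        ring
      rw [← hS, h1]
      exact Finset.sum_induction (fun γ => γ • ε) (fun z => TN (κ := K) z)
        (fun a a' ha ha' => tadd a a' ha ha') t0 fun γ _ => tsmul _ γ happ
    · apply hTNS'
      have h0 : algebraMap (LaurentSeries K) DC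
          (HahnSeries.single ((d + M * dH : ℕ) : ℤ) (1 : K)) = S * T := by
        rw [hS, hT, ← map_mul, HahnSeries.single_mul_single, mul_one, ← Nat.cast_add]
      have h1 : S * T * qC (β * (algebraMap K[X] C (g ^ dH) - jH βH)) =
          (ε * (1 - sD e)) * (T * Gd) - (t * (eC + ε)) * (T * Gd) := by
        have h2 : qC (algebraMap K[X] C (g ^ dH)) = Gd := hqC _
        rw [map_mul, map_sub, h2, ← hW]
        have h3 : Gd - W = Gd * (1 - U * W) := by
          calc Gd - W = Gd - (U * Gd) * W := by rw [hUG, one_mul]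
            _ = Gd * (1 - U * W) := by ring
        have h4 : 1 - U * W = (1 - sD e) - t := by rw [ht']; ring
        calc S * T * (qC β * (Gd - W)) = (S * qC β) * T * (Gd * ((1 - sD e) - t)) := by
              rw [h3, h4]; ring
          _ = (eC * (1 - sD e)) * (T * Gd) + ((ε * (1 - sD e)) * (T * Gd) -
                (t * (eC + ε)) * (T * Gd)) := by rw [hb]; ring
          _ = _ := by rw [hker, zero_mul, zero_add]
      rw [h0, h1]
      exact tsub _ _ (tmul _ _ (tmul _ _ happ hse) hTG)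
        (tmul _ _ (tmul _ _ ht (iadd _ _ hie (tint _ happ))) hTG)

end MP7b0bad
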