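import Pool.Agent.Work.MP_7b0bad_ag.SV.JStmts

set_option autoImplicit false

/-!
# Degrees of subfields of `Ω((ξ))` that are finite over `k((η))`
-/

namespace MP7b0bad

open Polynomial

namespace JDegP

/-! ## Series without negative terms -/

/-- all coefficients below `n` vanish -/
def NN {Ω : Type} [Field Ω] (n : ℤ) (y : LaurentSeries Ω) : Prop := ∀ m < n, y.coeff m = 0

section

variable {Ω : Type} [Field Ω]

theorem NN.add {n : ℤ} {y z : LaurentSeries Ω} (hy : NN n y) (hz : NN n z) : NN n (y + z) := by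
  intro m hm
  rw [HahnSeries.coeff_add, hy m hm, hz m hm, add_zero]

theorem NN.sub {n : ℤ} {y z : LaurentSeries Ω} (hy : NN n y) (hz : NN n z) : NN n (y - z) := by
  intro m hm
  rw [HahnSeries.coeff_sub, hy m hm, hz m hm, sub_zero]

theorem NN.zero (n : ℤ) : NN n (0 : LaurentSeries Ω) := fun _ _ => rfl

theorem NN.sum {n : ℤ} {α : Type} (s : Finset α) (f : α → LaurentSeries Ω)
    (h : ∀ x ∈ s, NN n (f x)) : NN n (∑ x ∈ s, f x) := by
  classical
  induction s using Finset.induction_on with
  | empty => exact NN.zero n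
  | insert a s ha ih =>
    rw [Finset.sum_insert ha]
    exact (h a (Finset.mem_insert_self _ _)).add
      (ih fun x hx => h x (Finset.mem_insert_of_mem hx))

theorem NN.le_order {n : ℤ} {y : LaurentSeries Ω} (hy : NN n y) (h0 : y ≠ 0) : n ≤ y.order := by
  by_contra h
  exact h0 (HahnSeries.coeff_order_eq_zero.1 (hy _ (not_le.1 h)))

theorem NN.of_order {n : ℤ} {y : LaurentSeries Ω} (h : n ≤ y.order) : NN n y := fun m hm =>
  HahnSeries.coeff_eq_zero_of_lt_order (lt_of_lt_of_le hm h)

theorem NN.mul {n m : ℤ} {y z : LaurentSeries Ω} (hy : NN n y) (hz : NN m z) :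
    NN (n + m) (y * z) := by
  by_cases h1 : y = 0
  · rw [h1, zero_mul]; exact NN.zero _
  by_cases h2 : z = 0
  · rw [h2, mul_zero]; exact NN.zero _
  apply NN.of_order
  rw [HahnSeries.order_mul h1 h2]
  exact add_le_add (hy.le_order h1) (hz.le_order h2)

theorem NN.mono {n m : ℤ} {y : LaurentSeries Ω} (hy : NN n y) (h : m ≤ n) : NN m y := fun l hl =>
  hy l (hl.trans_le h)

theorem NN.succ {n : ℤ} {y : LaurentSeries Ω} (hy : NN n y) (h : y.coeff n = 0) :
    NN (n + 1) y := by
  intro m hm
  rcases (Int.lt_add_one_iff.1 hm).lt_or_eq with h1 | h1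
  · exact hy m h1
  · rw [h1, h]

theorem NN.C (a : Ω) : NN 0 (HahnSeries.C a : LaurentSeries Ω) := NN.of_order (by
  rw [HahnSeries.order_C])

theorem NN.coeff_mul {y z : LaurentSeries Ω} (hy : NN 0 y) (hz : NN 0 z) :
    (y * z).coeff 0 = y.coeff 0 * z.coeff 0 := by
  have h1 : NN 1 (y - HahnSeries.C (y.coeff 0)) := by
    apply (hy.sub (NN.C _)).succ
    rw [HahnSeries.coeff_sub]
    simp
  have h2 : y * z = (y - HahnSeries.C (y.coeff 0)) * z + HahnSeries.C (y.coeff 0) * z := by ring
  rw [h2, HahnSeries.coeff_add, (h1.mul hz) 0 (by norm_num), zero_add]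
  rw [HahnSeries.C_mul_eq_smul, HahnSeries.coeff_smul, smul_eq_mul]

theorem NN.pow {y : LaurentSeries Ω} (hy : NN 0 y) (n : ℕ) :
    NN 0 (y ^ n) ∧ (y ^ n).coeff 0 = (y.coeff 0) ^ n := by
  induction n with
  | zero =>
    rw [pow_zero, pow_zero]
    refine ⟨?_, ?_⟩
    · have := NN.C (1 : Ω)
      rwa [map_one] at this
    · rw [HahnSeries.coeff_one, if_pos rfl]
  | succ n ih =>
    rw [pow_succ, pow_succ]
    refine ⟨?_, ?_⟩
    · have := ih.1.mul hy
      rwa [add_zero] at this
    · rw [ih.1.coeff_mul hy, ih.2]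

end

/-! ## The situation -/

section

variable {k Ω : Type} [Field k] [Field Ω] {i : k →+* Ω} {M : ℕ}
  {ψ : LaurentSeries k →+* LaurentSeries Ω}

theorem psi_nn (hM : 0 < M) (hC : ∀ a : k, ψ (HahnSeries.C a) = HahnSeries.C (i a))
    (hord : ∀ a : LaurentSeries k, a ≠ 0 → (ψ a).order = (M : ℤ) * a.order)
    {b : LaurentSeries k} (hb : NN 0 b) : NN 0 (ψ b) ∧ (ψ b).coeff 0 = i (b.coeff 0) := by
  have h1 : NN 1 (b - HahnSeries.C (b.coeff 0)) := by
    apply (hb.sub (NN.C _)).succ
    rw [HahnSeries.coeff_sub]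
    simp
  have h2 : NN 1 (ψ (b - HahnSeries.C (b.coeff 0))) := by
    by_cases h3 : b - HahnSeries.C (b.coeff 0) = 0
    · rw [h3, map_zero]; exact NN.zero _
    · apply NN.of_order
      rw [hord _ h3]
      have h4 := h1.le_order h3
      have h5 : (1 : ℤ) ≤ M := by exact_mod_cast hM
      nlinarith
  have h3 : ψ b = ψ (b - HahnSeries.C (b.coeff 0)) + HahnSeries.C (i (b.coeff 0)) := by
    rw [map_sub, hC]; ring
  rw [h3]
  refine ⟨(h2.mono (by norm_num)).add (NN.C _), ?_⟩
  rw [HahnSeries.coeff_add, h2 0 (by norm_num), zero_add]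
  simp

variable {L : Type} [Field L] [Algebra (LaurentSeries k) L] {j : L →+* LaurentSeries Ω}

/-- residues of elements of `L` without negative terms are in `k` -/
theorem residue [IsAlgClosed k] [FiniteDimensional (LaurentSeries k) L] (hM : 0 < M)
    (hC : ∀ a : k, ψ (HahnSeries.C a) = HahnSeries.C (i a))
    (hord : ∀ a : LaurentSeries k, a ≠ 0 → (ψ a).order = (M : ℤ) * a.order)
    (hj : ∀ a, j (algebraMap (LaurentSeries k) L a) = ψ a) {x : L} (hx : NN 0 (j x)) :
    ∃ u : k, i u = (j x).coeff 0 := by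
  set P := minpoly (LaurentSeries k) x with hP
  have hint : IsIntegral (LaurentSeries k) x := Algebra.IsIntegral.isIntegral x
  have hP0 : P ≠ 0 := minpoly.ne_zero hint
  obtain ⟨n₀, hn₀, hmin⟩ := Finset.exists_min_image P.support (fun n => (P.coeff n).order)
    (Polynomial.support_nonempty.2 hP0)
  set m := (P.coeff n₀).order with hm
  set b : ℕ → LaurentSeries k := fun n => HahnSeries.single (-m) (1 : k) * P.coeff n with hb
  have hbc : ∀ n t, (b n).coeff t = (P.coeff n).coeff (t + m) := by
    intro n t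
    rw [hb]
    simp only
    rw [HahnSeries.coeff_single_mul, one_mul, sub_neg_eq_add]
  have hbn : ∀ n, NN 0 (b n) := by
    intro n t ht
    rw [hbc]
    by_cases h1 : n ∈ P.support
    · exact HahnSeries.coeff_eq_zero_of_lt_order (by
        have := hmin n h1
        linarith)
    · rw [Polynomial.notMem_support_iff.1 h1]
      rfl
  have hb0 : (b n₀).coeff 0 ≠ 0 := by
    rw [hbc, zero_add, hm]
    exact fun h => (Polynomial.mem_support_iff.1 hn₀) (HahnSeries.coeff_order_eq_zero.1 h)
  have hsum : ∑ n ∈ P.support, ψ (b n) * (j x) ^ n = 0 := by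
    have h2 : ∑ n ∈ P.support, algebraMap (LaurentSeries k) L (P.coeff n) * x ^ n = 0 := by
      have h3 := minpoly.aeval (LaurentSeries k) x
      rw [← hP, Polynomial.aeval_def, Polynomial.eval₂_eq_sum, Polynomial.sum_def] at h3
      exact h3
    have h3 : ∑ n ∈ P.support, ψ (b n) * (j x) ^ n =
        ψ (HahnSeries.single (-m) (1 : k)) *
          j (∑ n ∈ P.support, algebraMap (LaurentSeries k) L (P.coeff n) * x ^ n) := by
      rw [map_sum, Finset.mul_sum]
      refine Finset.sum_congr rfl fun n _ => ?_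
      rw [hb, map_mul, map_mul, map_pow, hj]
      ring
    rw [h3, h2, map_zero, mul_zero]
  have hsum0 : ∑ n ∈ P.support, i ((b n).coeff 0) * ((j x).coeff 0) ^ n = 0 := by
    have h1 := congrArg (fun y : LaurentSeries Ω => y.coeff 0) hsum
    simp only [HahnSeries.coeff_sum, HahnSeries.coeff_zero] at h1
    rw [← h1]
    refine Finset.sum_congr rfl fun n _ => ?_
    have h2 := psi_nn hM hC hord (hbn n)
    rw [h2.1.coeff_mul (hx.pow n).1, h2.2, (hx.pow n).2]
  set p : k[X] := ∑ n ∈ P.support, Polynomial.monomial n ((b n).coeff 0) with hp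
  have hp0 : p ≠ 0 := by
    intro h
    have h1 : p.coeff n₀ = (b n₀).coeff 0 := by
      rw [hp, Polynomial.finsetSum_coeff]
      rw [Finset.sum_eq_single n₀]
      · rw [Polynomial.coeff_monomial, if_pos rfl]
      · intro n _ hn
        rw [Polynomial.coeff_monomial, if_neg hn]
      · intro h
        exact absurd hn₀ h
    rw [h, Polynomial.coeff_zero] at h1
    exact hb0 h1.symm
  have hroot : (p.map i).IsRoot ((j x).coeff 0) := by
    rw [Polynomial.IsRoot.def, Polynomial.eval_map, hp, Polynomial.eval₂_finsetSum]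
    rw [← hsum0]
    refine Finset.sum_congr rfl fun n _ => ?_
    rw [Polynomial.eval₂_monomial]
  obtain ⟨u, hu⟩ := (IsAlgClosed.splits p).mem_range_of_isRoot hp0 hroot
  exact ⟨u, hu⟩

end

/-- The theorem, in the situation of a generator of the value group. -/
theorem main {k Ω : Type} [Field k] [IsAlgClosed k] [Field Ω] {i : k →+* Ω} {M : ℕ}
    {ψ : LaurentSeries k →+* LaurentSeries Ω} (hM : 0 < M)
    (hC : ∀ a : k, ψ (HahnSeries.C a) = HahnSeries.C (i a))
    (hord : ∀ a : LaurentSeries k, a ≠ 0 → (ψ a).order = (M : ℤ) * a.order)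
    {L : Type} [Field L] [Algebra (LaurentSeries k) L] [FiniteDimensional (LaurentSeries k) L]
    {j : L →+* LaurentSeries Ω} (hj : ∀ a, j (algebraMap (LaurentSeries k) L a) = ψ a)
    {p : L} {c e : ℕ} (hc : 0 < c) (hce : M = c * e) (hp : p ≠ 0) (hpv : (j p).order = c)
    (hdvd : ∀ x : L, x ≠ 0 → (c : ℤ) ∣ (j x).order) :
    Module.finrank (LaurentSeries k) L = e := by
  have hinj : Function.Injective j := j.injective
  have hj0 : ∀ x : L, x ≠ 0 → j x ≠ 0 := fun x hx h => hx (hinj (h.trans (map_zero j).symm))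
  have hmul : ∀ x y : L, x ≠ 0 → y ≠ 0 → (j (x * y)).order = (j x).order + (j y).order := by
    intro x y hx hy
    rw [map_mul, HahnSeries.order_mul (hj0 x hx) (hj0 y hy)]
  have hpow : ∀ n : ℕ, (j (p ^ n)).order = (c : ℤ) * n := by
    intro n
    induction n with
    | zero => simp
    | succ n ih =>
      rw [pow_succ, hmul _ _ (pow_ne_zero _ hp) hp, ih, hpv]
      push_cast
      ring
  have hinvv : ∀ x : L, x ≠ 0 → (j x⁻¹).order = - (j x).order := by
    intro x hx
    have h1 := hmul x x⁻¹ hx (inv_ne_zero hx)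
    rw [mul_inv_cancel₀ hx, map_one, HahnSeries.order_one] at h1
    linarith
  -- residues
  have hres : ∀ x : L, NN 0 (j x) → ∃ u : k, NN (c : ℤ) (j (x -
      algebraMap (LaurentSeries k) L (HahnSeries.C u))) := by
    intro x hx
    obtain ⟨u, hu⟩ := residue (i := i) hM hC hord hj hx
    refine ⟨u, ?_⟩
    have h1 : j (x - algebraMap (LaurentSeries k) L (HahnSeries.C u)) =
        j x - HahnSeries.C ((j x).coeff 0) := by
      rw [map_sub, hj, hC, hu]
    have h2 : NN 1 (j (x - algebraMap (LaurentSeries k) L (HahnSeries.C u))) := by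
      rw [h1]
      apply (hx.sub (NN.C _)).succ
      rw [HahnSeries.coeff_sub]
      simp
    by_cases h3 : x - algebraMap (LaurentSeries k) L (HahnSeries.C u) = 0
    · rw [h3, map_zero]; exact NN.zero _
    · apply NN.of_order
      have h4 := h2.le_order (hj0 _ h3)
      obtain ⟨t, ht⟩ := hdvd _ h3
      rw [ht] at h4 ⊢
      have h5 : (0 : ℤ) < c := by exact_mod_cast hc
      have h6 : 0 < t := by
        by_contra h7
        have := mul_nonpos_of_nonneg_of_nonpos h5.le (not_lt.1 h7)
        linarith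
      nlinarith
  -- one block
  have hblock : ∀ s : ℕ, ∀ x : L, NN 0 (j x) → ∃ u : ℕ → k, NN ((c : ℤ) * s) (j (x -
      ∑ r ∈ Finset.range s, algebraMap (LaurentSeries k) L (HahnSeries.C (u r)) * p ^ r)) := by
    intro s x hx
    induction s with
    | zero =>
      refine ⟨fun _ => 0, ?_⟩
      simpa using hx
    | succ s ih =>
      obtain ⟨u, hu⟩ := ih
      set y := x - ∑ r ∈ Finset.range s,
        algebraMap (LaurentSeries k) L (HahnSeries.C (u r)) * p ^ r with hy
      have h1 : NN 0 (j (y * (p ^ s)⁻¹)) := by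
        rw [map_mul]
        have h2 : NN (-((c : ℤ) * s)) (j (p ^ s)⁻¹) := by
          apply NN.of_order
          rw [hinvv _ (pow_ne_zero _ hp), hpow]
        have h3 := hu.mul h2
        rwa [add_neg_cancel] at h3
      obtain ⟨u₀, hu₀⟩ := hres _ h1
      refine ⟨Function.update u s u₀, ?_⟩
      have h4 : x - ∑ r ∈ Finset.range (s + 1), algebraMap (LaurentSeries k) L
          (HahnSeries.C (Function.update u s u₀ r)) * p ^ r =
          (y * (p ^ s)⁻¹ - algebraMap (LaurentSeries k) L (HahnSeries.C u₀)) * p ^ s := by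
        rw [Finset.sum_range_succ, Function.update_self]
        have h5 : ∑ r ∈ Finset.range s, algebraMap (LaurentSeries k) L
            (HahnSeries.C (Function.update u s u₀ r)) * p ^ r =
            ∑ r ∈ Finset.range s, algebraMap (LaurentSeries k) L (HahnSeries.C (u r)) * p ^ r := by
          refine Finset.sum_congr rfl fun r hr => ?_
          rw [Function.update_of_ne (Finset.mem_range.1 hr).ne]
        rw [h5, sub_mul, mul_assoc, inv_mul_cancel₀ (pow_ne_zero _ hp), mul_one, hy]
        ring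
      rw [h4, map_mul]
      have h6 : NN ((c : ℤ) * s) (j (p ^ s)) := NN.of_order (hpow s).ge
      have h7 := hu₀.mul h6
      refine h7.mono ?_
      push_cast
      linarith
  -- the uniformizer
  set η : L := algebraMap (LaurentSeries k) L (HahnSeries.single (1 : ℤ) (1 : k)) with hη
  have hs0 : (HahnSeries.single (1 : ℤ) (1 : k) : LaurentSeries k) ≠ 0 :=
    HahnSeries.single_ne_zero one_ne_zero
  have hη0 : η ≠ 0 := by
    rw [hη]
    exact (_root_.map_ne_zero _).2 hs0
  have hηv : (j η).order = (M : ℤ) := by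
    rw [hη, hj, hord _ hs0, HahnSeries.order_single one_ne_zero, mul_one]
  have hstep : ∀ x : L, ∃ (u : ℕ → k) (y : L), NN 0 (j x) → NN 0 (j y) ∧
      x = ∑ r ∈ Finset.range e, algebraMap (LaurentSeries k) L (HahnSeries.C (u r)) * p ^ r +
        η * y := by
    intro x
    by_cases hx : NN 0 (j x)
    · obtain ⟨u, hu⟩ := hblock e x hx
      refine ⟨u, (x - ∑ r ∈ Finset.range e,
        algebraMap (LaurentSeries k) L (HahnSeries.C (u r)) * p ^ r) * η⁻¹, fun _ => ⟨?_, ?_⟩⟩
      · rw [map_mul]
        have h1 : NN (-((c : ℤ) * e)) (j η⁻¹) := by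
          apply NN.of_order
          rw [hinvv _ hη0, hηv, hce]
          push_cast
          exact le_rfl
        have h2 := hu.mul h1
        rwa [add_neg_cancel] at h2
      · rw [mul_comm η, mul_assoc, inv_mul_cancel₀ hη0, mul_one]
        ring
    · exact ⟨fun _ => 0, 0, fun h => absurd h hx⟩
  choose u f huf using hstep
  set A : ℕ → L → PowerSeries k := fun r x => PowerSeries.mk fun n => u (f^[n] x) r with hA
  have hA1 : ∀ r x, A r x = PowerSeries.C (u x r) + PowerSeries.X * A r (f x) := by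
    intro r x
    ext n
    cases n with
    | zero => simp [hA]
    | succ n =>
      rw [map_add, PowerSeries.coeff_succ_X_mul, PowerSeries.coeff_C, if_neg (Nat.succ_ne_zero n),
        zero_add]
      simp only [hA, PowerSeries.coeff_mk, Function.iterate_succ_apply]
  set D : L → L := fun x => x - ∑ r ∈ Finset.range e,
    algebraMap (LaurentSeries k) L (HahnSeries.ofPowerSeries ℤ k (A r x)) * p ^ r with hD
  have hD1 : ∀ x, NN 0 (j x) → D x = η * D (f x) := by
    intro x hx
    have h1 := (huf x hx).2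
    have h2 : ∑ r ∈ Finset.range e,
        algebraMap (LaurentSeries k) L (HahnSeries.ofPowerSeries ℤ k (A r x)) * p ^ r =
        ∑ r ∈ Finset.range e, algebraMap (LaurentSeries k) L (HahnSeries.C (u x r)) * p ^ r +
        η * ∑ r ∈ Finset.range e,
          algebraMap (LaurentSeries k) L (HahnSeries.ofPowerSeries ℤ k (A r (f x))) * p ^ r := by
      rw [Finset.mul_sum, ← Finset.sum_add_distrib]
      refine Finset.sum_congr rfl fun r _ => ?_
      rw [hA1, map_add, map_mul, HahnSeries.ofPowerSeries_C, HahnSeries.ofPowerSeries_X, map_add,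
        map_mul, hη]
      ring
    simp only [hD]
    rw [h2]
    calc x - (∑ r ∈ Finset.range e, algebraMap (LaurentSeries k) L (HahnSeries.C (u x r)) * p ^ r +
        η * ∑ r ∈ Finset.range e,
          algebraMap (LaurentSeries k) L (HahnSeries.ofPowerSeries ℤ k (A r (f x))) * p ^ r)
        = (∑ r ∈ Finset.range e, algebraMap (LaurentSeries k) L (HahnSeries.C (u x r)) * p ^ r +
          η * f x) - (∑ r ∈ Finset.range e,
            algebraMap (LaurentSeries k) L (HahnSeries.C (u x r)) * p ^ r +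
        η * ∑ r ∈ Finset.range e,
          algebraMap (LaurentSeries k) L (HahnSeries.ofPowerSeries ℤ k (A r (f x))) * p ^ r) := by
          rw [← h1]
      _ = _ := by ring
  have hpos : ∀ a : PowerSeries k, NN 0 (HahnSeries.ofPowerSeries ℤ k a) := by
    intro a m hm
    rw [HahnSeries.ofPowerSeries_apply, HahnSeries.embDomain_of_notMem_range]
    rintro ⟨n, hn⟩
    have h1 : ((n : ℕ) : ℤ) = m := hn
    have h2 : (0 : ℤ) ≤ (n : ℕ) := Int.natCast_nonneg n
    linarith
  have hppos : ∀ r : ℕ, NN 0 (j (p ^ r)) := by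
    intro r
    apply NN.of_order
    rw [hpow]
    positivity
  have hD0 : ∀ x, NN 0 (j x) → NN 0 (j (D x)) := by
    intro x hx
    simp only [hD]
    rw [map_sub, map_sum]
    refine hx.sub (NN.sum _ _ fun r _ => ?_)
    rw [map_mul, hj]
    have h1 := (psi_nn (i := i) hM hC hord (hpos (A r x))).1.mul (hppos r)
    rwa [add_zero] at h1
  have hDn : ∀ n : ℕ, ∀ x, NN 0 (j x) → NN ((M : ℤ) * n) (j (D x)) := by
    intro n
    induction n with
    | zero =>
      intro x hx
      simpa using hD0 x hx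
    | succ n ih =>
      intro x hx
      rw [hD1 x hx, map_mul]
      have h1 : NN (M : ℤ) (j η) := NN.of_order hηv.ge
      have h2 := h1.mul (ih (f x) (huf x hx).1)
      refine h2.mono ?_
      push_cast
      linarith
  have hDz : ∀ x, NN 0 (j x) → D x = 0 := by
    intro x hx
    by_contra h
    have h1 := (hDn ((j (D x)).order.natAbs + 1) x hx).le_order (hj0 _ h)
    have h2 : (1 : ℤ) ≤ M := by exact_mod_cast hM
    have h3 : (j (D x)).order ≤ |(j (D x)).order| := le_abs_self _
    have h4 : (0 : ℤ) ≤ |(j (D x)).order| := abs_nonneg _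
    push_cast at h1
    nlinarith [mul_nonneg (sub_nonneg.2 h2) (add_nonneg h4 zero_le_one)]
  -- spanning
  have hspan0 : ∀ x, NN 0 (j x) → x ∈ Submodule.span (LaurentSeries k)
      (Set.range fun r : Fin e => p ^ (r : ℕ)) := by
    intro x hx
    have h1 : x = ∑ r ∈ Finset.range e,
        algebraMap (LaurentSeries k) L (HahnSeries.ofPowerSeries ℤ k (A r x)) * p ^ r := by
      have := hDz x hx
      simp only [hD] at this
      exact sub_eq_zero.1 this
    rw [h1]
    refine Submodule.sum_mem _ fun r hr => ?_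
    rw [← Algebra.smul_def]
    exact Submodule.smul_mem _ _ (Submodule.subset_span ⟨⟨r, Finset.mem_range.1 hr⟩, rfl⟩)
  have hspan : ∀ x, x ∈ Submodule.span (LaurentSeries k)
      (Set.range fun r : Fin e => p ^ (r : ℕ)) := by
    intro x
    by_cases hx : x = 0
    · rw [hx]; exact Submodule.zero_mem _
    · set N := (j x).order.natAbs with hN
      have h1 : ∀ n : ℕ, (j (η ^ n)).order = (M : ℤ) * n := by
        intro n
        induction n with
        | zero => simp
        | succ n ih =>
          rw [pow_succ, hmul _ _ (pow_ne_zero _ hη0) hη0, ih, hηv]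
          push_cast
          ring
      have h2 : NN 0 (j (η ^ N * x)) := by
        apply NN.of_order
        rw [hmul _ _ (pow_ne_zero _ hη0) hx, h1]
        have h3 : (1 : ℤ) ≤ M := by exact_mod_cast hM
        have h4 : -(j x).order ≤ (N : ℤ) := by
          rw [hN, ← Int.natAbs_neg]
          exact Int.le_natAbs
        have h5 : (0 : ℤ) ≤ (N : ℤ) := Int.natCast_nonneg _
        nlinarith
      have h3 := hspan0 _ h2
      have h4 : x = ((HahnSeries.single (1 : ℤ) (1 : k) : LaurentSeries k) ^ N)⁻¹ •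
          (η ^ N * x) := by
        rw [Algebra.smul_def, map_inv₀, map_pow, ← hη, ← mul_assoc,
          inv_mul_cancel₀ (pow_ne_zero _ hη0), one_mul]
      rw [h4]
      exact Submodule.smul_mem _ _ h3
  -- independence
  have hli : LinearIndependent (LaurentSeries k) (fun r : Fin e => p ^ (r : ℕ)) := by
    classical
    rw [Fintype.linearIndependent_iff]
    intro g hg
    by_contra hcon
    push Not at hcon
    obtain ⟨r₁, hr₁⟩ := hcon
    obtain ⟨r₀, hr₀, hmin⟩ := Finset.exists_min_image
      (Finset.univ.filter fun r : Fin e => g r ≠ 0)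
      (fun r => (j (g r • p ^ (r : ℕ))).order) ⟨r₁, by simp [hr₁]⟩
    have hr₀' : g r₀ ≠ 0 := (Finset.mem_filter.1 hr₀).2
    have hw : ∀ r : Fin e, g r ≠ 0 → (j (g r • p ^ (r : ℕ))).order =
        (M : ℤ) * (g r).order + (c : ℤ) * (r : ℕ) := by
      intro r hr
      rw [Algebra.smul_def, hmul _ _ ((_root_.map_ne_zero _).2 hr) (pow_ne_zero _ hp), hj, hord _ hr,
        hpow]
    have h1 := congrArg (fun y : L => (j y).coeff (j (g r₀ • p ^ (r₀ : ℕ))).order) hg
    simp only [map_sum, map_zero, HahnSeries.coeff_sum, HahnSeries.coeff_zero] at h1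
    rw [Finset.sum_eq_single r₀] at h1
    · refine hj0 _ ?_ (HahnSeries.coeff_order_eq_zero.1 h1)
      rw [Algebra.smul_def]
      exact mul_ne_zero ((_root_.map_ne_zero _).2 hr₀') (pow_ne_zero _ hp)
    · intro r _ hr
      by_cases h2 : g r = 0
      · rw [h2, zero_smul, map_zero]
        rfl
      · apply HahnSeries.coeff_eq_zero_of_lt_order
        refine lt_of_le_of_ne (hmin r (by simp [h2])) ?_
        rw [hw r h2, hw r₀ hr₀']
        intro h3
        apply hr
        have h4 : (0 : ℤ) < c := by exact_mod_cast hc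
        have h5 : (c : ℤ) * (e * (g r₀).order + (r₀ : ℕ)) =
            (c : ℤ) * (e * (g r).order + (r : ℕ)) := by
          rw [hce] at h3
          push_cast at h3
          linarith
        have h6 := mul_left_cancel₀ h4.ne' h5
        have h7 : ((r₀ : ℕ) : ℤ) < e := by exact_mod_cast r₀.2
        have h8 : ((r : ℕ) : ℤ) < e := by exact_mod_cast r.2
        have h9 : (0 : ℤ) ≤ ((r₀ : ℕ) : ℤ) := Int.natCast_nonneg _
        have h10 : (0 : ℤ) ≤ ((r : ℕ) : ℤ) := Int.natCast_nonneg _
        have h11 : ((r₀ : ℕ) : ℤ) = ((r : ℕ) : ℤ) := by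
          have h12 : ((r₀ : ℕ) : ℤ) = ((r₀ : ℕ) : ℤ) % e := (Int.emod_eq_of_lt h9 h7).symm
          have h13 : ((r : ℕ) : ℤ) = ((r : ℕ) : ℤ) % e := (Int.emod_eq_of_lt h10 h8).symm
          rw [h12, h13]
          have h14 := congrArg (fun t : ℤ => t % e) h6
          simpa [Int.add_emod, Int.mul_emod] using h14
        exact Fin.ext (by exact_mod_cast h11.symm)
    · intro h
      exact absurd (Finset.mem_univ _) h
  have hbas := Module.finrank_eq_card_basis (Module.Basis.mk hli (fun x _ => hspan x))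
  rw [hbas, Fintype.card_fin]

end JDegP

theorem prf_JDeg : JDeg := by
  intro k Ω _ _ _ i M ψ hM hC hord L _ _ _ j hj
  classical
  have hinj : Function.Injective j := j.injective
  have hj0 : ∀ x : L, x ≠ 0 → j x ≠ 0 := fun x hx h => hx (hinj (h.trans (map_zero j).symm))
  have hmul : ∀ x y : L, x ≠ 0 → y ≠ 0 → (j (x * y)).order = (j x).order + (j y).order := by
    intro x y hx hy
    rw [map_mul, HahnSeries.order_mul (hj0 x hx) (hj0 y hy)]
  have hinvv : ∀ x : L, x ≠ 0 → (j x⁻¹).order = - (j x).order := by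
    intro x hx
    have h1 := hmul x x⁻¹ hx (inv_ne_zero hx)
    rw [mul_inv_cancel₀ hx, map_one, HahnSeries.order_one] at h1
    linarith
  have hnpow : ∀ (x : L), x ≠ 0 → ∀ n : ℕ, (j (x ^ n)).order = (n : ℤ) * (j x).order := by
    intro x hx n
    induction n with
    | zero => simp
    | succ n ih =>
      rw [pow_succ, hmul _ _ (pow_ne_zero _ hx) hx, ih]
      push_cast
      ring
  have hzpow : ∀ (x : L), x ≠ 0 → ∀ n : ℤ, (j (x ^ n)).order = n * (j x).order := by
    intro x hx n
    cases n with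
    | ofNat n =>
      rw [Int.ofNat_eq_natCast, zpow_natCast]
      exact hnpow x hx n
    | negSucc n =>
      rw [zpow_negSucc, hinvv _ (pow_ne_zero _ hx), hnpow x hx, Int.negSucc_eq]
      push_cast
      ring
  have hs0 : (HahnSeries.single (1 : ℤ) (1 : k) : LaurentSeries k) ≠ 0 :=
    HahnSeries.single_ne_zero one_ne_zero
  have hη0 : algebraMap (LaurentSeries k) L (HahnSeries.single (1 : ℤ) (1 : k)) ≠ 0 :=
    (_root_.map_ne_zero _).2 hs0
  have hηv : (j (algebraMap (LaurentSeries k) L (HahnSeries.single (1 : ℤ) (1 : k)))).order =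
      (M : ℤ) := by
    rw [hj, hord _ hs0, HahnSeries.order_single one_ne_zero, mul_one]
  have hex : ∃ n : ℕ, 0 < n ∧ ∃ x : L, x ≠ 0 ∧ (j x).order = (n : ℤ) := ⟨M, hM, _, hη0, hηv⟩
  obtain ⟨hc, p, hp, hpv⟩ := Nat.find_spec hex
  set c := Nat.find hex with hcdef
  have hdvd : ∀ x : L, x ≠ 0 → (c : ℤ) ∣ (j x).order := by
    intro x hx
    have hc' : (0 : ℤ) < c := by exact_mod_cast hc
    set q := (j x).order / (c : ℤ) with hq
    have h1 : (j (x * (p ^ q)⁻¹)).order = (j x).order % (c : ℤ) := by
      rw [hmul _ _ hx (inv_ne_zero (zpow_ne_zero _ hp)), hinvv _ (zpow_ne_zero _ hp),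
        hzpow p hp, hpv]
      have := Int.emod_add_mul_ediv (j x).order (c : ℤ)
      rw [hq]
      linarith
    have h2 := Int.emod_nonneg (j x).order hc'.ne'
    have h3 := Int.emod_lt_of_pos (j x).order hc'
    rw [← h1] at h2 h3
    by_contra hnd
    have h4 : (j (x * (p ^ q)⁻¹)).order ≠ 0 := by
      rw [h1]
      exact fun h => hnd (Int.dvd_of_emod_eq_zero h)
    have h5 : 0 < (j (x * (p ^ q)⁻¹)).order := lt_of_le_of_ne h2 h4.symm
    obtain ⟨n, hn⟩ := Int.eq_ofNat_of_zero_le h2
    have h6 : n < c := by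
      rw [hn] at h3
      exact_mod_cast h3
    exact Nat.find_min hex h6 ⟨by rw [hn] at h5; exact_mod_cast h5, _,
      mul_ne_zero hx (inv_ne_zero (zpow_ne_zero _ hp)), hn⟩
  have h1 : (c : ℤ) ∣ (M : ℤ) := by
    have := hdvd _ hη0
    rwa [hηv] at this
  obtain ⟨e, he⟩ := Int.natCast_dvd_natCast.1 h1
  rw [JDegP.main hM hC hord hj hc he hp hpv hdvd]
  exact ⟨c, by rw [he, mul_comm]⟩

end MP7b0bad
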