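import Pool.Agent.Work.MP_7b0bad_ag.SV.JStmts
import Pool.Agent.Work.MP_7b0bad_ag.Bd.B01
import Pool.Agent.Work.MP_7b0bad_ag.Bd.B03
import Pool.Agent.Work.MP_7b0bad_ag.Bd.B04

set_option autoImplicit false

/-!
Item JDes: specialisation of certificates.
-/

namespace MP7b0bad

open Polynomial

/-- factorisation of homomorphisms through an injective one -/
theorem JDes_factor {A B C : Type} [CommRing A] [CommRing B] [CommRing C] (j : A →+* C)
    (incl : B →+* C) (hinj : Function.Injective incl) (h : ∀ x, ∃ z, incl z = j x) :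
    ∃ j' : A →+* B, ∀ x, incl (j' x) = j x := by
  choose f hf using h
  refine ⟨{ toFun := f, map_one' := ?_, map_mul' := ?_, map_zero' := ?_, map_add' := ?_ }, hf⟩
  · apply hinj
    rw [hf, map_one, map_one]
  · intro x y
    apply hinj
    rw [hf, map_mul, map_mul, hf, hf]
  · apply hinj
    rw [hf, map_zero, map_zero]
  · intro x y
    apply hinj
    rw [hf, map_add, map_add, hf, hf]

/-- a subring that contains generators and the coefficients contains everything -/
theorem JDes_gen {R B C : Type} [CommRing R] [CommRing B] [Algebra R B] [CommRing C]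
    (j : B →+* C) (T : Subring C) (S : Finset B) (hS : Submodule.span R (S : Set B) = ⊤)
    (h1 : ∀ b ∈ S, j b ∈ T) (h2 : ∀ r : R, j (algebraMap R B r) ∈ T) (x : B) : j x ∈ T := by
  have hx : x ∈ Submodule.span R (S : Set B) := by
    rw [hS]
    trivial
  induction hx using Submodule.span_induction with
  | mem x hx => exact h1 x hx
  | zero => rw [map_zero]; exact T.zero_mem
  | add x y _ _ hx hy => rw [map_add]; exact T.add_mem hx hy
  | smul r x _ hx =>
    rw [Algebra.smul_def, map_mul]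
    exact T.mul_mem (h2 r) hx

theorem JDes_main (hE9 : E9) (hQSpr : QSpr) (hQBC : QBC) : JDes := by
  classical
  intro k _ _ K _ _ G H G₀ _ _ _ _ _ _ δ BH _ _ _ hBH dH βH g hg C _ _ _ hC
  obtain ⟨hgal, ⟨θ, F, hθP, hFm, hFd, hFθ, hFirr⟩,
    ⟨jH, hj1, hj2, d, β, hS1, hS2, hS4, ⟨s, hS3⟩, hS5⟩⟩ := hC
  have := Fintype.ofFinite G
  have := Fintype.ofFinite H
  have := Fintype.ofFinite G₀
  obtain ⟨S, hSg⟩ := (gal_finite hBH).fg_top
  obtain ⟨Z1, hZ1⟩ := TII_small k hS1
  choose! Z2 hZ2 using fun (γ : G × H) (hγ : γ ∉ δ.range) => TII_small k (hS2 γ hγ)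
  obtain ⟨Z3, hZ3⟩ := TII_small k hS3
  choose Z4 hZ4 using fun τ => TII_small k (hS4 τ)
  obtain ⟨Z5, hZ5⟩ := TII_small k hS5
  set ZC : Finset C := {θ, β} ∪ S.image jH with hZC
  set ZK : Finset K := F.coeffs.biUnion (fun c => c.coeffs) ∪ Z1 ∪ Z3 ∪
    Finset.univ.biUnion Z2 ∪ Finset.univ.biUnion Z4 ∪ (Z5 ∪ g.coeffs) with hZK
  obtain ⟨R', hR'fg, hR'Z, C', _, _, _, incl, hinj, halg, hact, hgal', hCZ⟩ :=
    hQSpr k K (G × H) C hgal ZC ZK
  obtain ⟨θ', hθ'⟩ := hCZ θ (by simp [hZC])
  obtain ⟨β', hβ'⟩ := hCZ β (by simp [hZC])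
  have hy : ∀ b ∈ S, ∃ z', incl z' = jH b := fun b hb => hCZ _ (by
    rw [hZC]
    exact Finset.mem_union_right _ (Finset.mem_image_of_mem _ hb))
  have hKg : ∀ z ∈ g.coeffs, z ∈ R' := fun z hz => hR'Z z (by
    rw [hZK]
    exact Finset.mem_union_right _ (Finset.mem_union_right _ hz))
  have hK5 : ∀ z ∈ Z5, z ∈ R' := fun z hz => hR'Z z (by
    rw [hZK]
    exact Finset.mem_union_right _ (Finset.mem_union_left _ hz))
  have hK4 : ∀ τ, ∀ z ∈ Z4 τ, z ∈ R' := fun τ z hz => hR'Z z (by
    rw [hZK]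
    exact Finset.mem_union_left _ (Finset.mem_union_right _
      (Finset.mem_biUnion.2 ⟨τ, Finset.mem_univ _, hz⟩)))
  have hK2 : ∀ γ, ∀ z ∈ Z2 γ, z ∈ R' := fun γ z hz => hR'Z z (by
    rw [hZK]
    exact Finset.mem_union_left _ (Finset.mem_union_left _ (Finset.mem_union_right _
      (Finset.mem_biUnion.2 ⟨γ, Finset.mem_univ _, hz⟩))))
  have hK3 : ∀ z ∈ Z3, z ∈ R' := fun z hz => hR'Z z (by
    rw [hZK]
    exact Finset.mem_union_left _ (Finset.mem_union_left _ (Finset.mem_union_left _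
      (Finset.mem_union_right _ hz))))
  have hK1 : ∀ z ∈ Z1, z ∈ R' := fun z hz => hR'Z z (by
    rw [hZK]
    exact Finset.mem_union_left _ (Finset.mem_union_left _ (Finset.mem_union_left _
      (Finset.mem_union_left _ (Finset.mem_union_right _ hz)))))
  have hKF : ∀ c ∈ F.coeffs, ∀ z ∈ c.coeffs, z ∈ R' := fun c hc z hz => hR'Z z (by
    rw [hZK]
    exact Finset.mem_union_left _ (Finset.mem_union_left _ (Finset.mem_union_left _
      (Finset.mem_union_left _ (Finset.mem_union_left _ (Finset.mem_biUnion.2 ⟨c, hc, hz⟩))))))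
  have hRK : Function.Injective (algebraMap R' K) := FaithfulSMul.algebraMap_injective R' K
  -- lift of g
  obtain ⟨g1, hg1⟩ : ∃ g1 : (R')[X], g1.map (algebraMap R' K) = g :=
    TII_lift (R' := R') g fun z hz => ⟨⟨z, hKg z hz⟩, rfl⟩
  have hg1d : g1.natDegree = g.natDegree := by
    rw [← hg1, natDegree_map_eq_of_injective hRK]
  have hg1l : g1.leadingCoeff ≠ 0 := by
    rw [Ne, leadingCoeff_eq_zero]
    intro h0
    rw [h0, natDegree_zero] at hg1d
    omega
  -- the homomorphism jH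
  have hkR : ∀ f : k[X], incl (algebraMap (R')[X] C' ((f.map (algebraMap k R')).comp g1)) =
      jH (algebraMap k[X] BH f) := by
    intro f
    rw [hj1, halg, Polynomial.map_comp, hg1, Polynomial.map_map, ← IsScalarTower.algebraMap_eq]
  obtain ⟨j', hj'⟩ : ∃ j' : BH →+* C', ∀ x, incl (j' x) = jH x := by
    refine JDes_factor jH incl hinj fun x => ?_
    have h1 := JDes_gen (R := k[X]) jH incl.range S hSg
      (fun b hb => RingHom.mem_range.2 (hy b hb))
      (fun f => RingHom.mem_range.2 ⟨_, hkR f⟩) x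
    exact RingHom.mem_range.1 h1
  -- lift of F
  have hFl : F ∈ Polynomial.lifts (mapRingHom (algebraMap R' K)) := by
    rw [lifts_iff_coeff_lifts]
    intro n
    by_cases hn : F.coeff n = 0
    · exact ⟨0, by rw [map_zero, hn]⟩
    · obtain ⟨c', hc'⟩ := TII_lift (R' := R') (F.coeff n) fun z hz =>
        ⟨⟨z, hKF _ (coeff_mem_coeffs hn) z hz⟩, rfl⟩
      exact ⟨c', hc'⟩
  obtain ⟨F', hF', hF'd, hF'm⟩ := lifts_and_natDegree_eq_and_monic hFl hFm
  have hcard : 0 < Nat.card G := Nat.card_pos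
  have hF'd0 : 0 < F'.natDegree := by rw [hF'd, hFd]; exact hcard
  have hθ0 : aeval θ' F' = 0 := by
    apply hinj
    rw [map_zero, aeval_def, hom_eval₂, hθ', ← hFθ, ← hF', aeval_def, eval₂_map]
    congr 1
    ext a
    · simp [halg]
    · simp [halg]
  have halgX : ∀ n : ℕ, incl (algebraMap (R')[X] C' (X ^ n)) = algebraMap K[X] C (X ^ n) := by
    intro n
    rw [halg]
    simp
  have hS1' : Small R' (2 * d) (β' ^ 2 - algebraMap (R')[X] C' (X ^ d) * β') := by
    refine hZ1 R' hK1 C' incl hinj halg _ ?_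
    rw [map_sub, map_mul, map_pow, hβ', halgX]
  have hS2' : ∀ γ : G × H, γ ∉ δ.range → Small R' (2 * d) (β' * (γ • β')) := by
    intro γ hγ
    refine hZ2 γ hγ R' (hK2 γ) C' incl hinj halg _ ?_
    rw [map_mul, hact, hβ']
  have hS3' : Small R' d (∑ γ ∈ s, γ • β' - algebraMap (R')[X] C' (X ^ d)) := by
    refine hZ3 R' hK3 C' incl hinj halg _ ?_
    rw [map_sub, map_sum, halgX]
    simp only [hact, hβ']
  have hS4' : ∀ τ : G₀, Small R' d (δ τ • β' - β') := by
    intro τ
    refine hZ4 τ R' (hK4 τ) C' incl hinj halg _ ?_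
    rw [map_sub, hact, hβ']
  have hS5' : Small R' (d + g.natDegree * dH)
      (β' * (algebraMap (R')[X] C' (g1 ^ dH) - j' βH)) := by
    refine hZ5 R' hK5 C' incl hinj halg _ ?_
    rw [map_mul, map_sub, hβ', hj', halg, Polynomial.map_pow, hg1]
  -- specialisation
  have hft : Algebra.FiniteType k R' := (Subalgebra.fg_iff_finiteType R').1 hR'fg
  obtain ⟨φ, hφ1, hφ2⟩ := hE9 k R' hft (AlgebraicClosure K)
    (by
      rw [IsScalarTower.algebraMap_eq R' K (AlgebraicClosure K)]
      exact (algebraMap K (AlgebraicClosure K)).injective.comp hRK)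
    F' hF'm hF'd0
    (by
      have h1 := hFirr (AlgebraicClosure K)
      rw [← hF', map_map] at h1
      have h2 : (mapRingHom (algebraMap K (AlgebraicClosure K))).comp
          (mapRingHom (algebraMap R' K)) = mapRingHom (algebraMap R' (AlgebraicClosure K)) := by
        rw [IsScalarTower.algebraMap_eq R' K (AlgebraicClosure K), mapRingHom_comp]
      rw [h2] at h1
      exact h1)
    g1.leadingCoeff hg1l
  obtain ⟨C'', _, _, _, q, hq0, hq1, hq2, -, -⟩ := hQBC (R')[X] k[X] (mapRingHom (φ : R' →+* k))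
    (G × H) C' hgal'
  have hq1' : ∀ a : (R')[X], q (algebraMap (R')[X] C' a) = algebraMap k[X] C''
      (a.map (φ : R' →+* k)) := hq1
  have hqX : ∀ n : ℕ, q (algebraMap (R')[X] C' (X ^ n)) = algebraMap k[X] C'' (X ^ n) := by
    intro n
    rw [hq1']
    simp
  have hg'd : (g1.map (φ : R' →+* k)).natDegree = g.natDegree := by
    rw [← hg1d]
    exact natDegree_map_of_leadingCoeff_ne_zero _ hφ1
  refine ⟨g1.map (φ : R' →+* k), hg'd, C'', inferInstance, inferInstance, inferInstance,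
    ⟨hq0, ?_, q.comp j', ?_, ?_, d, q β', ?_, ?_, ?_, ⟨s, ?_⟩, ?_⟩⟩
  · refine ⟨q θ', F'.map (mapRingHom (φ : R' →+* k)), ?_, hF'm.map _, ?_, ?_, hφ2⟩
    · intro τ
      have h1 : ((1 : G), τ) • θ' = θ' := by
        apply hinj
        rw [hact, hθ', hθP]
      rw [← hq2, h1]
    · rw [hF'm.natDegree_map, hF'd, hFd]
    · have h1 := congrArg q hθ0
      rw [map_zero, aeval_def, hom_eval₂] at h1
      rw [aeval_def, eval₂_map, ← h1]
      congr 1
      ext a
      · simp [hq1']
      · simp [hq1']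
  · intro f
    have h1 : j' (algebraMap k[X] BH f) =
        algebraMap (R')[X] C' ((f.map (algebraMap k R')).comp g1) := by
      apply hinj
      rw [hj', hkR]
    have h2 : (φ : R' →+* k).comp (algebraMap k R') = RingHom.id k := by
      ext a
      simp
    rw [RingHom.comp_apply, h1, hq1', Polynomial.map_comp, Polynomial.map_map, h2]
  · intro γ x
    have h1 : γ • j' x = j' (γ.2 • x) := by
      apply hinj
      rw [hact, hj', hj', hj2]
    rw [RingHom.comp_apply, RingHom.comp_apply, ← hq2, h1]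
  · have h1 := TII_small' (φ : R' →+* k) q hq1' hS1'
    rw [map_sub, map_mul, map_pow, hqX] at h1
    exact h1
  · intro γ hγ
    have h1 := TII_small' (φ : R' →+* k) q hq1' (hS2' γ hγ)
    rw [map_mul, hq2] at h1
    exact h1
  · intro τ
    have h1 := TII_small' (φ : R' →+* k) q hq1' (hS4' τ)
    rw [map_sub, hq2] at h1
    exact h1
  · have h1 := TII_small' (φ : R' →+* k) q hq1' hS3'
    rw [map_sub, map_sum, hqX] at h1
    simp only [hq2] at h1
    exact h1
  · have h1 := TII_small' (φ : R' →+* k) q hq1' hS5'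
    rw [map_mul, map_sub, hq1', Polynomial.map_pow] at h1
    rw [hg'd]
    exact h1

theorem prf_JDes (hQSpr : QSpr) (hQBC : QBC) : JDes := JDes_main prf_E9 hQSpr hQBC

end MP7b0bad
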