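import Pool.Agent.Work.MP_7b0bad_ag.SV.JStmts
import Pool.Agent.Work.MP_7b0bad_ag.Bd.B12

set_option autoImplicit false

/-!
# JDom: the pull back of a connected local extension by a substitution of coprime degree
-/

namespace MP7b0bad

open Polynomial

/-- a connected Galois algebra over a field is a field of degree the order of the group -/
theorem JDom_field (hYComp : YComp) (F : Type) [Field F] (G : Type) [Group G] [Finite G]
    (C : Type) [CommRing C] [IsDomain C] [Algebra F C] [MulSemiringAction G C]
    (h : GalAlg F G C) : ∃ (E : Type) (_ : Field E) (_ : Algebra F E) (π : C →+* E),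
      Function.Bijective π ∧ (∀ a, π (algebraMap F C a) = algebraMap F E a) ∧
      Module.finrank F E = Nat.card G ∧ FiniteDimensional F E := by
  obtain ⟨G₀, E, _, _, _, π, h1, h2, h3, h4, h5, h6, h7, h8, -⟩ := hYComp F G C h ⊥ Ideal.isPrime_bot
  refine ⟨E, inferInstance, inferInstance, π, ⟨?_, h3⟩, h5, ?_, h8⟩
  · rw [injective_iff_map_eq_zero]
    intro x hx
    exact (Submodule.mem_bot C).1 ((h4 x).1 hx)
  · have h9 : G₀ = ⊤ := by
      rw [eq_top_iff]
      intro g _
      rw [h1]
      intro x
      rw [Submodule.mem_bot, Submodule.mem_bot]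
      constructor
      · intro hx
        rw [hx, smul_zero]
      · intro hx
        rw [← inv_smul_smul g x, hx, smul_zero]
    rw [h7, h9]
    exact Nat.card_congr Subgroup.topEquiv.toEquiv

theorem prf_JDom (hDeg : JDeg) (hYComp : YComp) : JDom := by
  intro k Ω _ _ _ i M ψ hM hc hord G₀ _ _ EH E _ _ _ _ _ _ s hH hHd hE hcop hs1 hs2
  have hEnt : Nontrivial E := by
    refine ⟨⟨0, 1, fun h => ?_⟩⟩
    have h1 : algebraMap (LaurentSeries Ω) E 0 = algebraMap (LaurentSeries Ω) E 1 := by
      rw [map_zero, map_one, h]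
    exact zero_ne_one (hE.inj h1)
  obtain ⟨𝔪, h𝔪⟩ := Ideal.exists_maximal E
  obtain ⟨D0, E2, _, _, _, π, -, hg, -, hker, halg, hact, -, -, htop, -⟩ :=
    hYComp (LaurentSeries Ω) G₀ E hE 𝔪 h𝔪.isPrime
  obtain ⟨E', _, _, π', hbij, halg', hfr, hfd⟩ := JDom_field hYComp (LaurentSeries k) G₀ EH hH
  -- the fixed field
  let L : IntermediateField (LaurentSeries k) E' :=
    { carrier := {y | ∀ x, π' x = y → ∀ g ∈ D0, g • x = x}
      mul_mem' := by
        intro y y' hy hy' x hx g hg
        obtain ⟨z, rfl⟩ := hbij.2 y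
        obtain ⟨z', rfl⟩ := hbij.2 y'
        rw [← map_mul] at hx
        rw [hbij.1 hx, smul_mul', hy z rfl g hg, hy' z' rfl g hg]
      one_mem' := by
        intro x hx g hg
        rw [← map_one π'] at hx
        rw [hbij.1 hx, smul_one]
      add_mem' := by
        intro y y' hy hy' x hx g hg
        obtain ⟨z, rfl⟩ := hbij.2 y
        obtain ⟨z', rfl⟩ := hbij.2 y'
        rw [← map_add] at hx
        rw [hbij.1 hx, smul_add, hy z rfl g hg, hy' z' rfl g hg]
      zero_mem' := by
        intro x hx g hg
        rw [← map_zero π'] at hx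
        rw [hbij.1 hx, smul_zero]
      algebraMap_mem' := by
        intro a x hx g hg
        rw [← halg'] at hx
        rw [hbij.1 hx, hH.comm]
      inv_mem' := by
        intro y hy x hx g hg
        obtain ⟨z, rfl⟩ := hbij.2 y
        by_cases hz : z = 0
        · rw [hz, map_zero, inv_zero, ← map_zero π'] at hx
          rw [hbij.1 hx, smul_zero]
        · have hz' : π' z ≠ 0 := fun h => hz (hbij.1 (by rw [h, map_zero]))
          have h1 : z * x = 1 := by
            apply hbij.1
            rw [map_mul, hx, map_one, mul_inv_cancel₀ hz']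
          have h2 : z * (g • x) = 1 := by
            have := congrArg (fun t => g • t) h1
            simp only [smul_mul', smul_one] at this
            rwa [hy z rfl g hg] at this
          exact mul_left_cancel₀ hz (h2.trans h1.symm) }
  have hLmem : ∀ x : EH, π' x ∈ L ↔ ∀ g ∈ D0, g • x = x := by
    intro x
    constructor
    · intro h
      exact h x rfl
    · intro h x' hx' g hg
      rw [hbij.1 hx']
      exact h g hg
  -- the embedding of the fixed field
  have hex : ∀ y : L, ∃ (x : EH) (a : LaurentSeries Ω), π' x = y ∧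
      algebraMap (LaurentSeries Ω) E2 a = π (s x) := by
    rintro ⟨y, hy⟩
    obtain ⟨x, rfl⟩ := hbij.2 y
    have hx := (hLmem x).1 hy
    obtain ⟨a, ha⟩ := hg.inv (π (s x)) (fun d => by
      rw [← hact d (s x), ← hs2, hx d d.2])
    exact ⟨x, a, rfl, ha⟩
  choose X A hX hA using hex
  have huniq : ∀ (y : L) (x : EH) (a : LaurentSeries Ω), π' x = y →
      algebraMap (LaurentSeries Ω) E2 a = π (s x) → A y = a := by
    intro y x a h1 h2
    apply hg.inj
    rw [hA, h2, hbij.1 ((hX y).trans h1.symm)]
  let j : L →+* LaurentSeries Ω :=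
    { toFun := A
      map_one' := huniq 1 1 1 (by rw [map_one]; rfl) (by rw [map_one, map_one, map_one])
      map_mul' := fun y y' => huniq _ (X y * X y') _
        (by rw [map_mul, hX, hX]; rfl) (by rw [map_mul, map_mul, map_mul, hA, hA])
      map_zero' := huniq 0 0 0 (by rw [map_zero]; rfl) (by rw [map_zero, map_zero, map_zero])
      map_add' := fun y y' => huniq _ (X y + X y') _
        (by rw [map_add, hX, hX]; rfl) (by rw [map_add, map_add, map_add, hA, hA]) }
  have hj : ∀ a, j (algebraMap (LaurentSeries k) L a) = ψ a := by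
    intro a
    refine huniq _ (algebraMap (LaurentSeries k) EH a) _ ?_ ?_
    · rw [halg']; rfl
    · rw [hs1, halg]
  have hdiv1 := hDeg k Ω i M ψ hM hc hord L j hj
  have hdiv2 : Module.finrank (LaurentSeries k) L ∣ Nat.card G₀ := by
    rw [← hfr]
    exact Dvd.intro _ (Module.finrank_mul_finrank (LaurentSeries k) L E')
  have h1 : Module.finrank (LaurentSeries k) L = 1 :=
    Nat.eq_one_of_dvd_coprimes hcop hdiv1 hdiv2
  have hbot : L = ⊥ := IntermediateField.finrank_eq_one_iff.1 h1
  -- the group of the component is everything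
  have hGD : GalAlg (LaurentSeries k) D0 EH := by
    refine ⟨fun g a => hH.comm g a, hH.inj, fun b hb => ?_, fun σ hσ => ?_⟩
    · have h2 : π' b ∈ L := (hLmem b).2 fun g hg => hb ⟨g, hg⟩
      rw [hbot, IntermediateField.mem_bot] at h2
      obtain ⟨a, ha⟩ := h2
      refine ⟨a, hbij.1 ?_⟩
      rw [halg', ha]
    · exact hH.unr σ (fun h => hσ (Subtype.ext h))
  obtain ⟨E'', _, _, π'', hbij', halg'', hfr', -⟩ :=
    JDom_field hYComp (LaurentSeries k) D0 EH hGD
  have hcard : Nat.card D0 = Nat.card G₀ := by
    rw [← hfr, ← hfr']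
    let e1 : EH ≃+* E' := RingEquiv.ofBijective π' hbij
    let e2 : EH ≃+* E'' := RingEquiv.ofBijective π'' hbij'
    have l1 : E'' ≃ₗ[LaurentSeries k] E' :=
      (AlgEquiv.ofRingEquiv (f := e2.symm.trans e1) (fun a => by
        show e1 (e2.symm (algebraMap (LaurentSeries k) E'' a)) = _
        have h3 : e2.symm (algebraMap (LaurentSeries k) E'' a) =
            algebraMap (LaurentSeries k) EH a := by
          rw [RingEquiv.symm_apply_eq]
          exact (halg'' a).symm
        rw [h3]
        exact halg' a)).toLinearEquiv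
    exact l1.finrank_eq
  exact (htop (Subgroup.eq_top_of_card_eq _ hcard)).2

end MP7b0bad
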