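import Pool.Agent.Work.MP_7b0bad_ag.SV.JStmts

set_option autoImplicit false

/-!
# Item JGD: the pull back of a local extension is geometrically a domain
-/

namespace MP7b0bad

open Polynomial

theorem JGD_order (K Ω : Type) [Field K] [Field Ω] [Algebra K Ω] (a : LaurentSeries K)
    (ha : a ≠ 0) : (E7_phi K Ω a).order = a.order := by
  have hinj : Function.Injective (algebraMap K Ω) := (algebraMap K Ω).injective
  have h0 : E7_phi K Ω a ≠ 0 := by
    intro h
    apply ha
    ext n
    have h1 := congrArg (fun b : LaurentSeries Ω => b.coeff n) h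
    simp only [E7_phi_coeff, HahnSeries.coeff_zero] at h1
    rw [HahnSeries.coeff_zero]
    exact hinj (by rw [h1, map_zero])
  apply le_antisymm
  · apply HahnSeries.order_le_of_coeff_ne_zero
    rw [E7_phi_coeff]
    intro h
    exact ha (HahnSeries.coeff_order_eq_zero.1 (hinj (by rw [h, map_zero])))
  · apply HahnSeries.order_le_of_coeff_ne_zero
    intro h
    apply h0
    rw [← HahnSeries.coeff_order_eq_zero, E7_phi_coeff, h, map_zero]

theorem prf_JGD (hDom : JDom) (hQBC : QBC) : JGD := by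
  intro k K _ _ _ i M ψ hM hC hord G₀ _ _ EH E _ _ _ _ _ _ s hEH hdom hE hcop hs1 hs2 Ω _ _
  obtain ⟨E', c1, c2, c3, q, hG, hq1, hq2, -, -⟩ :=
    hQBC (LaurentSeries K) (LaurentSeries Ω) (E7_phi K Ω) G₀ E hE
  refine ⟨E', c1, c2, c3, q, hG, ?_, hq1, hq2⟩
  refine hDom k Ω ((algebraMap K Ω).comp i) M ((E7_phi K Ω).comp ψ) hM ?_ ?_ G₀ EH E' (q.comp s)
    hEH hdom hG hcop ?_ ?_
  · intro a
    rw [RingHom.comp_apply, hC]
    ext n
    rw [E7_phi_coeff, HahnSeries.C_apply, HahnSeries.C_apply, HahnSeries.coeff_single,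
      HahnSeries.coeff_single]
    split_ifs
    · rfl
    · exact map_zero _
  · intro a ha
    have h0 : ψ a ≠ 0 := (map_ne_zero ψ).2 ha
    rw [RingHom.comp_apply, JGD_order K Ω _ h0, hord a ha]
  · intro a
    rw [RingHom.comp_apply, hs1, hq1, RingHom.comp_apply]
  · intro g x
    rw [RingHom.comp_apply, hs2, hq2, RingHom.comp_apply]

end MP7b0bad
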