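import Pool.Agent.Work.MP_7b0bad_ag.SV.JStmts

set_option autoImplicit false

/-!
# JGeo: a primitive element with geometrically irreducible equation
-/

namespace MP7b0bad

open Polynomial

/-- linear independence after base change -/
theorem JGeo_indep (hQGL : QGL) (R R' : Type) [CommRing R] [CommRing R'] (φ : R →+* R')
    (P : Type) [Group P] [Finite P] (E E' : Type) [CommRing E] [Algebra R E]
    [MulSemiringAction P E] [CommRing E'] [Algebra R' E'] [MulSemiringAction P E'] (q : E →+* E')
    (hE : GalAlg R P E) (hE' : GalAlg R' P E')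
    (hq1 : ∀ a, q (algebraMap R E a) = algebraMap R' E' (φ a))
    (hq2 : ∀ (g : P) (e : E), q (g • e) = g • q e) (n : ℕ) (β : Module.Basis (Fin n) R E)
    (c : Fin n → R') (hc : ∑ l, algebraMap R' E' (c l) * q (β l) = 0) : c = 0 := by
  have h1 := (hQGL R R' φ P P (MonoidHom.id P) E E' q hE hE'.comm hE'.inj hE'.inv hq1
    (fun h b => hq2 h b) n β (fun _ => 0) (fun _ _ => smul_zero _)).unique
    (y₁ := c) (y₂ := 0) (fun γ => ?_) (fun γ => by simp)
  · exact h1
  · have h2 := congrArg (fun x => γ⁻¹ • x) hc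
    simp only [smul_zero, Finset.smul_sum, smul_mul', hE'.comm, ← hq2] at h2
    exact h2.symm
theorem prf_JGeo (hQGL : QGL) : JGeo := by
  intro K _ G G₀ _ _ _ _ a₀ B E _ _ _ _ _ _ ι hB hBd hE hGD hι1 hι2
  classical
  have : Fintype G := Fintype.ofFinite G
  -- the action is faithful
  have hf : ∀ g : G, g ≠ 1 → ∃ b : B, g • b ≠ b := by
    intro g hg
    by_contra hcon
    push Not at hcon
    have h1 := hB.unr g hg
    have h2 : Ideal.span {x : B | ∃ b : B, x = b - g • b} ≤ ⊥ := by
      rw [Ideal.span_le]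
      rintro x ⟨b, rfl⟩
      simp [hcon b]
    rw [h1] at h2
    have h3 : (1 : B) ∈ (⊥ : Ideal B) := h2 Submodule.mem_top
    rw [Ideal.mem_bot] at h3
    exact one_ne_zero h3
  obtain ⟨θ, hθ⟩ := E7_theta K G B hB.inj hB.comm hf (Finset.univ.filter (fun g : G => g ≠ 1))
    (fun g hg => (Finset.mem_filter.1 hg).2)
  have hθ' : Function.Injective (fun g : G => g • θ) := by
    intro g h hgh
    by_contra hne
    have h1 : h⁻¹ * g ≠ 1 := fun h1 => hne (by rw [inv_mul_eq_one] at h1; exact h1.symm)
    refine hθ (h⁻¹ * g) (Finset.mem_filter.2 ⟨Finset.mem_univ _, h1⟩) ?_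
    have h2 : g • θ = h • θ := hgh
    rw [mul_smul, h2, inv_smul_smul]
  -- the characteristic polynomial
  have hlift : MulSemiringAction.charpoly G θ ∈ lifts (algebraMap K[X] B) := by
    rw [lifts_iff_coeff_lifts]
    intro n
    obtain ⟨a, ha⟩ := hB.inv ((MulSemiringAction.charpoly G θ).coeff n)
      (fun g => MulSemiringAction.smul_coeff_charpoly θ n g)
    exact ⟨a, ha⟩
  obtain ⟨F, hF1, hF2, hF3⟩ := lifts_and_natDegree_eq_and_monic hlift
    (MulSemiringAction.monic_charpoly G θ)
  have hFdeg : F.natDegree = Nat.card G := by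
    rw [hF2, MulSemiringAction.charpoly_eq, natDegree_prod_of_monic _ _ fun i _ => monic_X_sub_C _]
    simp
  have hFθ : aeval θ F = 0 := by
    rw [aeval_def, eval₂_eq_eval_map, hF1]
    exact MulSemiringAction.eval_charpoly G θ
  -- no polynomial of smaller degree
  have h3 : ∀ c : K[X][X], c ≠ 0 → c.natDegree < Nat.card G → aeval θ c ≠ 0 := by
    intro c hc0 hcd h0
    have h1 : ∀ g : G, (c.map (algebraMap K[X] B)).eval (g • θ) = 0 := by
      intro g
      rw [eval_map, eval₂_eq_sum_range]
      have h2 : g • (aeval θ c) = 0 := by rw [h0, smul_zero]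
      rw [aeval_def, eval₂_eq_sum_range, Finset.smul_sum] at h2
      rw [← h2]
      refine Finset.sum_congr rfl fun i _ => ?_
      rw [smul_mul', hB.comm, smul_pow']
    have h2 := eq_zero_of_natDegree_lt_card_of_eval_eq_zero (c.map (algebraMap K[X] B)) hθ' h1
      (by rw [natDegree_map_eq_of_injective hB.inj, ← Nat.card_eq_fintype_card]; exact hcd)
    exact hc0 (Polynomial.map_injective _ hB.inj (by rw [h2, Polynomial.map_zero]))
  -- injectivity of the embedding
  have hιi : ∀ b, ι b = 0 → b = 0 := by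
    intro b hb
    obtain ⟨a, ha⟩ := hB.inv (∏ g : G, g • b) (fun g => by
      rw [Finset.smul_prod_perm])
    have h1 : ι (algebraMap K[X] B a) = 0 := by
      rw [ha, map_prod]
      refine Finset.prod_eq_zero (Finset.mem_univ (1 : G)) ?_
      rw [one_smul, hb]
    rw [hι1] at h1
    have h2 : atInf K a = 0 := hE.inj (by rw [h1, map_zero])
    have h4 : a = 0 := E7_atInf_inj K (by rw [h2, map_zero])
    rw [h4, map_zero] at ha
    obtain ⟨g, -, hg⟩ := Finset.prod_eq_zero_iff.1 ha.symm
    exact (smul_eq_zero_iff_eq g).1 hg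
  refine ⟨θ, F, hF3, hFdeg, hFθ, ?_⟩
  intro Ω _ _
  obtain ⟨E', _, _, _, Φ, hE', hdom, hΦ1, hΦ2⟩ :=
    hGD Ω
  have hm : (F.map (mapRingHom (algebraMap K Ω))).Monic := hF3.map _
  have hd : (F.map (mapRingHom (algebraMap K Ω))).natDegree = Nat.card G := by
    rw [hF3.natDegree_map, hFdeg]
  have hcard : 0 < Nat.card G := Nat.card_pos
  have := gal_finite hE
  let β := Module.finBasis (LaurentSeries K) E
  -- the key claim
  have key : ∀ h : Polynomial (Polynomial Ω), h.Monic →
      h.eval₂ ((algebraMap (LaurentSeries Ω) E').comp (atInf Ω)) (Φ (ι θ)) = 0 →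
      Nat.card G ≤ h.natDegree := by
    intro h hhm hh0
    by_contra hlt
    push Not at hlt
    obtain ⟨ℓ, hℓ⟩ : ∃ ℓ : Ω →ₗ[K] K, ℓ 1 = 1 := by
      obtain ⟨g, hg⟩ := LinearMap.exists_leftInverse_of_injective (Algebra.linearMap K Ω)
        (LinearMap.ker_eq_bot.2 (algebraMap K Ω).injective)
      refine ⟨g, ?_⟩
      have := LinearMap.congr_fun hg 1
      simpa using this
    choose hX hhX using E7_poly K Ω ℓ
    set h' : K[X][X] := ∑ i ∈ Finset.range (h.natDegree + 1), monomial i (hX (h.coeff i)) with hh'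
    have hcoef : h'.coeff h.natDegree = hX 1 := by
      rw [hh', finsetSum_coeff]
      simp only [coeff_monomial]
      rw [Finset.sum_ite_eq', if_pos (Finset.self_mem_range_succ _)]
      rw [hhm.coeff_natDegree]
    have hne : h' ≠ 0 := by
      intro h0
      rw [h0, coeff_zero] at hcoef
      have h1 := hhX 1 0
      rw [← hcoef, coeff_zero, coeff_one_zero, hℓ] at h1
      exact zero_ne_one h1
    have hd' : h'.natDegree < Nat.card G := by
      refine lt_of_le_of_lt ?_ hlt
      refine natDegree_sum_le_of_forall_le _ _ fun i hi => ?_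
      refine le_trans (natDegree_monomial_le _) ?_
      rw [Finset.mem_range] at hi
      omega
    refine h3 h' hne hd' (hιi _ ?_)
    -- coordinates
    set T : ℕ → Fin (Module.finrank (LaurentSeries K) E) → LaurentSeries K :=
      fun i l => β.repr (ι θ ^ i) l with hTdef
    have hT1 : ∀ i, ι θ ^ i = ∑ l, algebraMap (LaurentSeries K) E (T i l) * β l := by
      intro i
      conv_lhs => rw [← β.sum_repr (ι θ ^ i)]
      exact Finset.sum_congr rfl fun l _ => by rw [Algebra.smul_def]
    have hT2 : ∀ i, Φ (ι θ) ^ i = ∑ l, algebraMap (LaurentSeries Ω) E' (E7_phi K Ω (T i l)) *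
        Φ (β l) := by
      intro i
      rw [← map_pow, hT1 i, map_sum]
      refine Finset.sum_congr rfl fun l _ => ?_
      rw [map_mul, hΦ1]
    have e2 : ∀ l, ∑ i ∈ Finset.range (h.natDegree + 1),
        atInf Ω (h.coeff i) * E7_phi K Ω (T i l) = 0 := by
      have hu := JGeo_indep hQGL (LaurentSeries K) (LaurentSeries Ω) (E7_phi K Ω) G₀ E E' Φ hE hE'
        hΦ1 hΦ2 _ β (fun l => ∑ i ∈ Finset.range (h.natDegree + 1),
          atInf Ω (h.coeff i) * E7_phi K Ω (T i l)) ?_
      · intro l
        exact congrFun hu l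
      · rw [eval₂_eq_sum_range] at hh0
        rw [← hh0]
        simp only [map_sum, map_mul, Finset.sum_mul]
        rw [Finset.sum_comm]
        refine Finset.sum_congr rfl fun i _ => ?_
        rw [hT2, Finset.mul_sum]
        refine Finset.sum_congr rfl fun l _ => ?_
        rw [RingHom.comp_apply, mul_assoc]
    have e3 : ∀ l, ∑ i ∈ Finset.range (h.natDegree + 1),
        atInf K (hX (h.coeff i)) * T i l = 0 := by
      intro l
      have h1 := congrArg (fun x : LaurentSeries Ω => x.map ℓ) (e2 l)
      rw [E7_map_sum] at h1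
      simp only [E7_ell_mul] at h1
      have h2 : ((0 : LaurentSeries Ω).map ℓ : LaurentSeries K) = 0 := by
        ext n
        simp
      rw [h2] at h1
      rw [← h1]
      refine Finset.sum_congr rfl fun i _ => ?_
      rw [E7_ell_atInf K Ω ℓ (h.coeff i) (hX (h.coeff i)) (hhX _)]
    rw [hh', map_sum, map_sum]
    have h5 : ∀ i ∈ Finset.range (h.natDegree + 1), ι (aeval θ (monomial i (hX (h.coeff i)))) =
        ∑ l, algebraMap (LaurentSeries K) E (atInf K (hX (h.coeff i)) * T i l) * β l := by
      intro i _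
      rw [aeval_monomial, map_mul, hι1, map_pow, hT1 i, Finset.mul_sum]
      refine Finset.sum_congr rfl fun l _ => ?_
      rw [map_mul, mul_assoc]
    rw [Finset.sum_congr rfl h5, Finset.sum_comm]
    refine Finset.sum_eq_zero fun l _ => ?_
    rw [← Finset.sum_mul, ← map_sum, e3 l, map_zero, zero_mul]
  rw [hm.irreducible_iff_natDegree]
  refine ⟨?_, ?_⟩
  · intro h1
    rw [h1, natDegree_one] at hd
    omega
  · intro f₁ g₁ hf₁ hg₁ hfg
    have h0 : (F.map (mapRingHom (algebraMap K Ω))).eval₂
        ((algebraMap (LaurentSeries Ω) E').comp (atInf Ω)) (Φ (ι θ)) = 0 := by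
      rw [eval₂_map]
      have h1 : ((algebraMap (LaurentSeries Ω) E').comp (atInf Ω)).comp
          (mapRingHom (algebraMap K Ω)) = Φ.comp (ι.comp (algebraMap K[X] B)) := by
        refine RingHom.ext fun a => ?_
        simp only [RingHom.comp_apply, coe_mapRingHom]
        rw [hι1, hΦ1, E7_phi_atInf K Ω a]
      rw [h1, ← hom_eval₂, ← hom_eval₂]
      rw [aeval_def] at hFθ
      rw [hFθ, map_zero, map_zero]
    rw [← hfg, eval₂_mul] at h0
    have hdeg : f₁.natDegree + g₁.natDegree = Nat.card G := by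
      rw [← hf₁.natDegree_mul hg₁, hfg, hd]
    rcases mul_eq_zero.1 h0 with h | h
    · right
      have := key f₁ hf₁ h
      omega
    · left
      have := key g₁ hg₁ h
      omega

end MP7b0bad
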