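import Pool.Agent.Work.MP_7b0bad_ag.Bd.B06

set_option autoImplicit false

/-!
# Join with arbitrary outer group: from `K` to `k`, perturbation of embeddings

`BH` is an `H`-cover of the `y`-line over `k` with local extension `EH` at infinity (group `G₀`),
`g ∈ K[x]` is a polynomial of degree prime to the order of `G₀`, `B` is a connected `G`-Galois
algebra over `K[x]` whose local extension at infinity is the pull back of `EH` by `y = g(x)`.
-/

namespace MP7b0bad

open Polynomial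

/-- the substitution `1/η ↦ g(1/ξ)`, `k((η)) → Ω((ξ))` -/
structure Sbs {k Ω : Type} [Field k] [Field Ω] (i : k →+* Ω) (g : Polynomial Ω)
    (ψ : LaurentSeries k →+* LaurentSeries Ω) : Prop where
  c : ∀ a : k, ψ (HahnSeries.C a) = HahnSeries.C (i a)
  p : ∀ f : k[X], ψ (atInf k f) = atInf Ω ((f.map i).comp g)
  ord : ∀ a : LaurentSeries k, a ≠ 0 → (ψ a).order = (g.natDegree : ℤ) * a.order

/-- `E` stays a domain after extension of the field of constants -/
def GeoDom (K : Type) [Field K] (P : Type) [Group P] (E : Type) [CommRing E]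
    [Algebra (LaurentSeries K) E] [MulSemiringAction P E] : Prop :=
  ∀ (Ω : Type) [Field Ω] [Algebra K Ω], ∃ (E' : Type) (_ : CommRing E')
    (_ : Algebra (LaurentSeries Ω) E') (_ : MulSemiringAction P E') (q : E →+* E'),
    GalAlg (LaurentSeries Ω) P E' ∧ IsDomain E' ∧
    (∀ a, q (algebraMap (LaurentSeries K) E a) = algebraMap (LaurentSeries Ω) E' (E7_phi K Ω a)) ∧
    ∀ (g : P) (e : E), q (g • e) = g • q e

/-- The local algebra `D = BH ⊗ k((η))` with the idempotent `e` of the component `EH` and an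
approximation `βH / y^dH` of `e`; `b : G₀ → H` is the inclusion of the decomposition group. -/
structure HLoc (k : Type) [Field k] {H G₀ : Type} [Group H] [Group G₀] (b : G₀ →* H)
    {BH EH : Type} [CommRing BH] [Algebra k[X] BH] [MulSemiringAction H BH] [CommRing EH]
    [Algebra (LaurentSeries k) EH] [MulSemiringAction G₀ EH] (ιH : BH →+* EH) (dH : ℕ) (βH : BH)
    (D : Type) [CommRing D] [Algebra (LaurentSeries k) D] [MulSemiringAction H D]
    (q : BH →+* D) (π : D →+* EH) (e : D) : Prop where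
  gal : GalAlg (LaurentSeries k) H D
  q_alg : ∀ f : k[X], q (algebraMap k[X] BH f) = algebraMap (LaurentSeries k) D (atInf k f)
  q_act : ∀ (h : H) (x : BH), q (h • x) = h • q x
  univ : ∀ (T : Type) [CommRing T] (f : BH →+* T) (h : LaurentSeries k →+* T),
    (∀ a : k[X], f (algebraMap k[X] BH a) = h (atInf k a)) →
    ∃ F : D →+* T, (∀ x, F (q x) = f x) ∧ ∀ a, F (algebraMap (LaurentSeries k) D a) = h a
  gen : ∀ z : D, ∃ (n : ℕ) (r : Fin n → LaurentSeries k) (x : Fin n → BH),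
    z = ∑ m, algebraMap (LaurentSeries k) D (r m) * q (x m)
  π_alg : ∀ a, π (algebraMap (LaurentSeries k) D a) = algebraMap (LaurentSeries k) EH a
  π_q : ∀ x, π (q x) = ιH x
  π_act : ∀ (τ : G₀) (z : D), π (b τ • z) = τ • π z
  idem : e * e = e
  inv : ∀ τ : G₀, b τ • e = e
  one : π e = 1
  ker : ∀ z : D, π z = 0 → e * z = 0
  app : TN (κ := k) (algebraMap (LaurentSeries k) D (HahnSeries.single (dH : ℤ) (1 : k)) * q βH - e)

/-- Certificate for `G₀` being an inertia group of a `G`-cover, in terms of the `G × H`-Galois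
algebra `C = B ⊗ g^* BH`; `i : k → κ` is the map of the constants. -/
structure CertH (κ : Type) [Field κ] (G H : Type) [Group G] [Group H] {G₀ : Type} [Group G₀]
    (δ : G₀ →* G × H) {k : Type} [Field k] (i : k →+* κ) (BH : Type) [CommRing BH]
    [Algebra k[X] BH] [MulSemiringAction H BH] (dH : ℕ) (βH : BH) (g : κ[X])
    (Irr : κ[X][X] → Prop) (C : Type) [CommRing C] [Algebra κ[X] C]
    [MulSemiringAction (G × H) C] : Prop where
  gal : GalAlg κ[X] (G × H) C
  irr : ∃ (θ : C) (F : κ[X][X]), (∀ τ : H, ((1 : G), τ) • θ = θ) ∧ F.Monic ∧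
    F.natDegree = Nat.card G ∧ aeval θ F = 0 ∧ Irr F
  infty : ∃ jH : BH →+* C,
    (∀ f : k[X], jH (algebraMap k[X] BH f) = algebraMap κ[X] C ((f.map i).comp g)) ∧
    (∀ (γ : G × H) (x : BH), γ • jH x = jH (γ.2 • x)) ∧ ∃ (d : ℕ) (β : C),
    Small κ (2 * d) (β ^ 2 - algebraMap κ[X] C (X ^ d) * β) ∧
    (∀ γ : G × H, γ ∉ δ.range → Small κ (2 * d) (β * (γ • β))) ∧
    (∀ τ : G₀, Small κ d (δ τ • β - β)) ∧
    (∃ s : Finset (G × H), Small κ d (∑ γ ∈ s, γ • β - algebraMap κ[X] C (X ^ d))) ∧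
    Small κ (d + g.natDegree * dH) (β * (algebraMap κ[X] C (g ^ dH) - jH βH))

/-! ## Statements -/

/-- existence of the substitution -/
def JSub : Prop := ∀ (k Ω : Type) [Field k] [Field Ω] (i : k →+* Ω) (g : Polynomial Ω),
  0 < g.natDegree → ∃ ψ : LaurentSeries k →+* LaurentSeries Ω, Sbs i g ψ

/-- degrees of subfields of `Ω((ξ))` that are finite over `k((η))` -/
def JDeg : Prop := ∀ (k Ω : Type) [Field k] [IsAlgClosed k] [Field Ω] (i : k →+* Ω) (M : ℕ)
  (ψ : LaurentSeries k →+* LaurentSeries Ω), 0 < M →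
  (∀ a : k, ψ (HahnSeries.C a) = HahnSeries.C (i a)) →
  (∀ a : LaurentSeries k, a ≠ 0 → (ψ a).order = (M : ℤ) * a.order) →
  ∀ (L : Type) [Field L] [Algebra (LaurentSeries k) L] [FiniteDimensional (LaurentSeries k) L]
    (j : L →+* LaurentSeries Ω), (∀ a, j (algebraMap (LaurentSeries k) L a) = ψ a) →
  Module.finrank (LaurentSeries k) L ∣ M

/-- the pull back of `EH` by a substitution of degree prime to the order of the group is a domain -/
def JDom : Prop := ∀ (k Ω : Type) [Field k] [IsAlgClosed k] [Field Ω] (i : k →+* Ω) (M : ℕ)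
  (ψ : LaurentSeries k →+* LaurentSeries Ω), 0 < M →
  (∀ a : k, ψ (HahnSeries.C a) = HahnSeries.C (i a)) →
  (∀ a : LaurentSeries k, a ≠ 0 → (ψ a).order = (M : ℤ) * a.order) →
  ∀ (G₀ : Type) [Group G₀] [Finite G₀] (EH E : Type) [CommRing EH] [Algebra (LaurentSeries k) EH]
    [MulSemiringAction G₀ EH] [CommRing E] [Algebra (LaurentSeries Ω) E] [MulSemiringAction G₀ E]
    (s : EH →+* E), GalAlg (LaurentSeries k) G₀ EH → IsDomain EH →
  GalAlg (LaurentSeries Ω) G₀ E → Nat.Coprime M (Nat.card G₀) →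
  (∀ a, s (algebraMap (LaurentSeries k) EH a) = algebraMap (LaurentSeries Ω) E (ψ a)) →
  (∀ (g : G₀) (x : EH), s (g • x) = g • s x) → IsDomain E

/-- the same with all extensions of the constants -/
def JGD : Prop := ∀ (k K : Type) [Field k] [IsAlgClosed k] [Field K] (i : k →+* K) (M : ℕ)
  (ψ : LaurentSeries k →+* LaurentSeries K), 0 < M →
  (∀ a : k, ψ (HahnSeries.C a) = HahnSeries.C (i a)) →
  (∀ a : LaurentSeries k, a ≠ 0 → (ψ a).order = (M : ℤ) * a.order) →
  ∀ (G₀ : Type) [Group G₀] [Finite G₀] (EH E : Type) [CommRing EH] [Algebra (LaurentSeries k) EH]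
    [MulSemiringAction G₀ EH] [CommRing E] [Algebra (LaurentSeries K) E] [MulSemiringAction G₀ E]
    (s : EH →+* E), GalAlg (LaurentSeries k) G₀ EH → IsDomain EH →
  GalAlg (LaurentSeries K) G₀ E → Nat.Coprime M (Nat.card G₀) →
  (∀ a, s (algebraMap (LaurentSeries k) EH a) = algebraMap (LaurentSeries K) E (ψ a)) →
  (∀ (g : G₀) (x : EH), s (g • x) = g • s x) → GeoDom K G₀ E

/-- a primitive element with geometrically irreducible equation -/
def JGeo : Prop := ∀ (K : Type) [Field K] (G G₀ : Type) [Group G] [Finite G] [Group G₀] [Finite G₀]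
  (a : G₀ →* G) (B E : Type) [CommRing B] [Algebra K[X] B] [MulSemiringAction G B] [CommRing E]
  [Algebra (LaurentSeries K) E] [MulSemiringAction G₀ E] (ι : B →+* E),
  GalAlg K[X] G B → IsDomain B → GalAlg (LaurentSeries K) G₀ E → GeoDom K G₀ E →
  (∀ f, ι (algebraMap K[X] B f) = algebraMap (LaurentSeries K) E (atInf K f)) →
  (∀ (g : G₀) (b : B), ι (a g • b) = g • ι b) →
  ∃ (θ : B) (F : K[X][X]), F.Monic ∧ F.natDegree = Nat.card G ∧ aeval θ F = 0 ∧ AbsIrr K F

/-- topologically nilpotent elements give `Small` -/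
def JTNS : Prop := ∀ (κ : Type) [Field κ] (Γ : Type) [Group Γ] [Finite Γ] (C D : Type) [CommRing C]
  [Algebra κ[X] C] [MulSemiringAction Γ C] [CommRing D] [Algebra (LaurentSeries κ) D]
  [MulSemiringAction Γ D] (q : C →+* D), GalAlg κ[X] Γ C → GalAlg (LaurentSeries κ) Γ D →
  (∀ f, q (algebraMap κ[X] C f) = algebraMap (LaurentSeries κ) D (atInf κ f)) →
  (∀ (γ : Γ) (c : C), q (γ • c) = γ • q c) → ∀ (d : ℕ) (j : C),
  TN (κ := κ) (algebraMap (LaurentSeries κ) D (HahnSeries.single (d : ℤ) (1 : κ)) * q j) →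
  Small κ d j

/-- combinations with small coefficients are topologically nilpotent -/
def JSm : Prop := ∀ (κ : Type) [Field κ] (Γ : Type) [Group Γ] [Finite Γ] (D : Type) [CommRing D]
  [Algebra (LaurentSeries κ) D] [MulSemiringAction Γ D], GalAlg (LaurentSeries κ) Γ D →
  ∀ (n : ℕ) (z : Fin n → D), ∃ m : ℤ, ∀ c : Fin n → LaurentSeries κ,
  (∀ l (t : ℤ), t < m → (c l).coeff t = 0) →
  TN (κ := κ) (∑ l, algebraMap (LaurentSeries κ) D (c l) * z l)

/-- approximation of elements of `D` by elements of `C` -/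
def JApp : Prop := ∀ (κ : Type) [Field κ] (Γ : Type) [Group Γ] [Finite Γ] (C D : Type) [CommRing C]
  [Algebra κ[X] C] [MulSemiringAction Γ C] [CommRing D] [Algebra (LaurentSeries κ) D]
  [MulSemiringAction Γ D] (q : C →+* D), GalAlg κ[X] Γ C → GalAlg (LaurentSeries κ) Γ D →
  (∀ f, q (algebraMap κ[X] C f) = algebraMap (LaurentSeries κ) D (atInf κ f)) →
  (∀ (γ : Γ) (c : C), q (γ • c) = γ • q c) → ∀ z : D, ∃ (d : ℕ) (β : C),
  TN (κ := κ) (algebraMap (LaurentSeries κ) D (HahnSeries.single (d : ℤ) (1 : κ)) * q β - z)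

/-- the idempotent of an equivariant homomorphism to a Galois algebra for a subgroup, with its
kernel -/
def JIdK : Prop := ∀ (R : Type) [CommRing R] (Γ Δ : Type) [Group Γ] [Finite Γ] [Group Δ] [Finite Δ]
  (δ : Δ →* Γ) (C E : Type) [CommRing C] [Algebra R C] [MulSemiringAction Γ C] [CommRing E]
  [Algebra R E] [MulSemiringAction Δ E] (Φ : C →+* E), Function.Injective δ →
  GalAlg R Γ C → GalAlg R Δ E → (∀ a : R, Φ (algebraMap R C a) = algebraMap R E a) →
  (∀ (d : Δ) (c : C), Φ (δ d • c) = d • Φ c) →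
  ∃ e : C, e * e = e ∧ (∀ d : Δ, δ d • e = e) ∧ (∀ γ : Γ, γ ∉ δ.range → e * (γ • e) = 0) ∧
    (∃ s : Finset Γ, ∑ γ ∈ s, γ • e = 1) ∧ Φ e = 1 ∧ ∀ z : C, Φ z = 0 → e * z = 0

/-- existence of the local data of `BH` -/
def JLoc : Prop := ∀ (k : Type) [Field k] (H G₀ : Type) [Group H] [Finite H] [Group G₀] [Finite G₀]
  (b : G₀ →* H), Function.Injective b → ∀ (BH EH : Type) [CommRing BH] [Algebra k[X] BH]
  [MulSemiringAction H BH] [CommRing EH] [Algebra (LaurentSeries k) EH] [MulSemiringAction G₀ EH]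
  (ιH : BH →+* EH), GalAlg k[X] H BH → GalAlg (LaurentSeries k) G₀ EH →
  (∀ f, ιH (algebraMap k[X] BH f) = algebraMap (LaurentSeries k) EH (atInf k f)) →
  (∀ (τ : G₀) (x : BH), ιH (b τ • x) = τ • ιH x) →
  ∃ (dH : ℕ) (βH : BH) (D : Type) (_ : CommRing D) (_ : Algebra (LaurentSeries k) D)
    (_ : MulSemiringAction H D) (q : BH →+* D) (π : D →+* EH) (e : D),
    HLoc k b ιH dH βH D q π e

/-- the certificate over `K` -/
def JCertK : Prop := ∀ (k K : Type) [Field k] [Field K] (i : k →+* K)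
  (G H G₀ : Type) [Group G] [Finite G] [Group H] [Finite H] [Group G₀] [Finite G₀]
  (δ : G₀ →* G × H), Function.Injective ((MonoidHom.snd G H).comp δ) →
  ∀ (BH EH : Type) [CommRing BH] [Algebra k[X] BH] [MulSemiringAction H BH] [CommRing EH] [Algebra (LaurentSeries k) EH] [MulSemiringAction G₀ EH]
  (ιH : BH →+* EH) (dH : ℕ) (βH : BH) (D : Type) [CommRing D] [Algebra (LaurentSeries k) D]
  [MulSemiringAction H D] (q : BH →+* D) (π : D →+* EH) (e : D), GalAlg k[X] H BH →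
  HLoc k ((MonoidHom.snd G H).comp δ) ιH dH βH D q π e →
  ∀ (g : K[X]), 0 < g.natDegree → ∀ ψ : LaurentSeries k →+* LaurentSeries K, Sbs i g ψ →
  ∀ (B E : Type) [CommRing B] [Algebra K[X] B] [MulSemiringAction G B] [CommRing E]
    [Algebra (LaurentSeries K) E] [MulSemiringAction G₀ E] (ι : B →+* E) (s : EH →+* E),
  GalAlg K[X] G B → IsDomain B → GalAlg (LaurentSeries K) G₀ E → GeoDom K G₀ E →
  (∀ f, ι (algebraMap K[X] B f) = algebraMap (LaurentSeries K) E (atInf K f)) →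
  (∀ (τ : G₀) (x : B), ι ((δ τ).1 • x) = τ • ι x) →
  (∀ a, s (algebraMap (LaurentSeries k) EH a) = algebraMap (LaurentSeries K) E (ψ a)) →
  (∀ (τ : G₀) (x : EH), s (τ • x) = τ • s x) →
  ∃ (C : Type) (_ : CommRing C) (_ : Algebra K[X] C) (_ : MulSemiringAction (G × H) C),
    CertH K G H δ i BH dH βH g (AbsIrr K) C

/-- specialisation of certificates -/
def JDes : Prop := ∀ (k : Type) [Field k] [IsAlgClosed k] (K : Type) [Field K] [Algebra k K]
  (G H G₀ : Type) [Group G] [Finite G] [Group H] [Finite H] [Group G₀] [Finite G₀]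
  (δ : G₀ →* G × H) (BH : Type) [CommRing BH] [Algebra k[X] BH] [MulSemiringAction H BH],
  GalAlg k[X] H BH → ∀ (dH : ℕ) (βH : BH) (g : K[X]), 0 < g.natDegree →
  ∀ (C : Type) [CommRing C] [Algebra K[X] C] [MulSemiringAction (G × H) C],
  CertH K G H δ (algebraMap k K) BH dH βH g (AbsIrr K) C →
  ∃ g' : k[X], g'.natDegree = g.natDegree ∧ ∃ (C' : Type) (_ : CommRing C') (_ : Algebra k[X] C')
    (_ : MulSemiringAction (G × H) C'),
    CertH k G H δ (RingHom.id k) BH dH βH g' (fun F => Irreducible F) C'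

/-- lifting of idempotents -/
def JIdL : Prop := ∀ (κ : Type) [Field κ] (Γ : Type) [Group Γ] [Finite Γ] (D : Type) [CommRing D]
  [Algebra (LaurentSeries κ) D] [MulSemiringAction Γ D], GalAlg (LaurentSeries κ) Γ D →
  ∀ b : D, TN (κ := κ) (b * b - b) → ∃ e : D, e * e = e ∧ TN (κ := κ) (e - b)

/-- idempotents for subgroups from approximate ones -/
def JIdem : Prop := ∀ (κ : Type) [Field κ] (Γ Δ : Type) [Group Γ] [Finite Γ] [Group Δ]
  (δ : Δ →* Γ) (D : Type) [CommRing D] [Algebra (LaurentSeries κ) D] [MulSemiringAction Γ D],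
  GalAlg (LaurentSeries κ) Γ D → ∀ b : D, TN (κ := κ) (b * b - b) →
  (∀ γ : Γ, γ ∉ δ.range → TN (κ := κ) (b * (γ • b))) → (∀ d : Δ, TN (κ := κ) (δ d • b - b)) →
  (∃ s : Finset Γ, TN (κ := κ) (∑ γ ∈ s, γ • b - 1)) →
  ∃ e : D, e * e = e ∧ TN (κ := κ) (e - b) ∧ (∀ d : Δ, δ d • e = e) ∧
    (∀ γ : Γ, γ ∉ δ.range → e * (γ • e) = 0) ∧ ∃ s : Finset Γ, IsUnit (∑ γ ∈ s, γ • e)

/-- from certificates over `k` to covers -/
def JCR : Prop := ∀ (k : Type) [Field k] (G H G₀ : Type) [Group G] [Finite G] [Group H] [Finite H]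
  [Group G₀] [Finite G₀] (δ : G₀ →* G × H), Function.Injective ((MonoidHom.snd G H).comp δ) →
  ∀ (BH EH : Type) [CommRing BH] [Algebra k[X] BH] [MulSemiringAction H BH] [CommRing EH] [Algebra (LaurentSeries k) EH] [MulSemiringAction G₀ EH]
  (ιH : BH →+* EH) (dH : ℕ) (βH : BH) (D : Type) [CommRing D] [Algebra (LaurentSeries k) D]
  [MulSemiringAction H D] (q : BH →+* D) (π : D →+* EH) (e : D), GalAlg k[X] H BH →
  GalAlg (LaurentSeries k) G₀ EH →
  HLoc k ((MonoidHom.snd G H).comp δ) ιH dH βH D q π e →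
  ∀ (g : k[X]), 0 < g.natDegree → ∀ ψ : LaurentSeries k →+* LaurentSeries k,
  Sbs (RingHom.id k) g ψ →
  ∀ (C : Type) [CommRing C] [Algebra k[X] C] [MulSemiringAction (G × H) C],
  CertH k G H δ (RingHom.id k) BH dH βH g (fun F => Irreducible F) C →
  ∃ (B : Type) (_ : CommRing B) (_ : Algebra k[X] B) (_ : MulSemiringAction G B)
    (E : Type) (_ : CommRing E) (_ : Algebra (LaurentSeries k) E) (_ : MulSemiringAction G₀ E)
    (ι : B →+* E) (s : EH →+* E),
    GalAlg k[X] G B ∧ IsDomain B ∧ GalAlg (LaurentSeries k) G₀ E ∧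
    (∀ f, ι (algebraMap k[X] B f) = algebraMap (LaurentSeries k) E (atInf k f)) ∧
    (∀ (τ : G₀) (x : B), ι ((δ τ).1 • x) = τ • ι x) ∧
    (∀ a, s (algebraMap (LaurentSeries k) EH a) = algebraMap (LaurentSeries k) E (ψ a)) ∧
    ∀ (τ : G₀) (x : EH), s (τ • x) = τ • s x

/-- descent of covers from `K` to `k` -/
def JSpec : Prop := ∀ (k : Type) [Field k] [IsAlgClosed k] (K : Type) [Field K] [Algebra k K]
  (G : Type) [Group G] [Finite G] (H G₀ : Subgroup G) (h0 : G₀ ≤ H)
  (BH EH : Type) [CommRing BH] [Algebra k[X] BH] [MulSemiringAction H BH] [CommRing EH]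
  [Algebra (LaurentSeries k) EH] [MulSemiringAction G₀ EH] (ιH : BH →+* EH),
  GalAlg k[X] H BH → GalAlg (LaurentSeries k) G₀ EH → IsDomain EH →
  (∀ f, ιH (algebraMap k[X] BH f) = algebraMap (LaurentSeries k) EH (atInf k f)) →
  (∀ (τ : G₀) (x : BH), ιH (Subgroup.inclusion h0 τ • x) = τ • ιH x) →
  ∀ (g : K[X]), 0 < g.natDegree → Nat.Coprime g.natDegree (Nat.card G₀) →
  ∀ ψ : LaurentSeries k →+* LaurentSeries K, Sbs (algebraMap k K) g ψ →
  ∀ (B E : Type) [CommRing B] [Algebra K[X] B] [MulSemiringAction G B] [CommRing E]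
    [Algebra (LaurentSeries K) E] [MulSemiringAction G₀ E] (ι : B →+* E) (s : EH →+* E),
  GalAlg K[X] G B → IsDomain B → GalAlg (LaurentSeries K) G₀ E →
  (∀ f, ι (algebraMap K[X] B f) = algebraMap (LaurentSeries K) E (atInf K f)) →
  (∀ (τ : G₀) (x : B), ι ((τ : G) • x) = τ • ι x) →
  (∀ a, s (algebraMap (LaurentSeries k) EH a) = algebraMap (LaurentSeries K) E (ψ a)) →
  (∀ (τ : G₀) (x : EH), s (τ • x) = τ • s x) → Rel k G G₀

/-! ## Perturbation -/

/-- perturbation of homomorphisms from a Galois algebra over `k[y]` to one over `κ((T))` -/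
def JPert : Prop := ∀ (k κ : Type) [Field k] [Field κ] (i : k →+* κ) (H P' : Type) [Group H]
  [Finite H] [Group P'] [Finite P'] (π : P' →* H) (BH Q : Type) [CommRing BH] [Algebra k[X] BH]
  [MulSemiringAction H BH] [CommRing Q] [Algebra (LaurentSeries κ) Q] [MulSemiringAction P' Q]
  (y₀ : LaurentSeries κ) (φ₀ : BH →+* Q), GalAlg k[X] H BH → GalAlg (LaurentSeries κ) P' Q →
  (∀ f : k[X], φ₀ (algebraMap k[X] BH f) =
    algebraMap (LaurentSeries κ) Q (f.eval₂ ((HahnSeries.C : κ →+* LaurentSeries κ).comp i) y₀)) →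
  (∀ (g : P') (x : BH), φ₀ (π g • x) = g • φ₀ x) →
  ∃ m : ℤ, ∀ ε : LaurentSeries κ, (∀ t : ℤ, t < m → ε.coeff t = 0) →
    ∃ φ₁ : BH →+* Q, (∀ f : k[X], φ₁ (algebraMap k[X] BH f) = algebraMap (LaurentSeries κ) Q
      (f.eval₂ ((HahnSeries.C : κ →+* LaurentSeries κ).comp i) (y₀ + ε))) ∧
    ∀ (g : P') (x : BH), φ₁ (π g • x) = g • φ₁ x

/-- THE JOIN: `BH` an `H`-cover with inertia group `G₀`, `f` a polynomial, `Ψ` a `G`-cover with local
extension `E'` (group `P'`) at infinity, which is also the local extension of `f^* BH`; then `G₀` is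
an inertia group of a `G`-cover. -/
def JJ : Prop := ∀ (k : Type) [Field k] [IsAlgClosed k] (G : Type) [Group G] [Finite G]
  (H G₀ P' : Subgroup G) (h0 : G₀ ≤ H) (hP : P' ≤ H)
  (BH EH : Type) [CommRing BH] [Algebra k[X] BH] [MulSemiringAction H BH] [CommRing EH]
  [Algebra (LaurentSeries k) EH] [MulSemiringAction G₀ EH] (ιH : BH →+* EH),
  GalAlg k[X] H BH → GalAlg (LaurentSeries k) G₀ EH → IsDomain EH →
  (∀ f, ιH (algebraMap k[X] BH f) = algebraMap (LaurentSeries k) EH (atInf k f)) →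
  (∀ (τ : G₀) (x : BH), ιH (Subgroup.inclusion h0 τ • x) = τ • ιH x) →
  ∀ (Ψ E' : Type) [CommRing Ψ] [Algebra k[X] Ψ] [MulSemiringAction G Ψ] [CommRing E']
    [Algebra (LaurentSeries k) E'] [MulSemiringAction P' E'] (ι : Ψ →+* E') (φ : BH →+* E')
    (f : k[X]), GalAlg k[X] G Ψ → IsDomain Ψ → GalAlg (LaurentSeries k) P' E' →
  (∀ a, ι (algebraMap k[X] Ψ a) = algebraMap (LaurentSeries k) E' (atInf k a)) →
  (∀ (τ : P') (x : Ψ), ι ((τ : G) • x) = τ • ι x) →
  (∀ a : k[X], φ (algebraMap k[X] BH a) = algebraMap (LaurentSeries k) E' (atInf k (a.comp f))) →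
  (∀ (τ : P') (x : BH), φ (Subgroup.inclusion hP τ • x) = τ • φ x) → Rel k G G₀

end MP7b0bad
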