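import Mathlib
import Pool.Agent.Work.MP_7b0bad_ag.SV.JStmts

/-!
Proof of the statement JIdK: the idempotent of an equivariant homomorphism, with its kernel.
-/

set_option autoImplicit false

namespace MP7b0bad

open Polynomial

/-- the idempotent of an equivariant homomorphism to a Galois algebra for a subgroup, with its
kernel -/
theorem prf_JIdK (hQIdem : QIdem) : JIdK := by
  intro R _ Γ Δ _ _ _ _ δ C E _ _ _ _ _ _ Φ hδ hC hE hΦ hact
  obtain ⟨e, he, hinv, hort, hsum, hone⟩ := hQIdem R Γ Δ δ C E Φ hδ hC hE hΦ hact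
  refine ⟨e, he, hinv, hort, hsum, hone, ?_⟩
  intro z hz
  classical
  have := Fintype.ofFinite Γ
  obtain ⟨n, x, y, h1, h2⟩ := gal_dual' hC
  rw [gal_formula h1 h2 (e * z)]
  refine Finset.sum_eq_zero fun m _ => ?_
  obtain ⟨a, ha⟩ := gal_trace hC (y m * (e * z))
  have h3 : algebraMap R E a = 0 := by
    rw [← hΦ, ha, map_sum]
    refine Finset.sum_eq_zero fun g _ => ?_
    by_cases hg : g ∈ δ.range
    · obtain ⟨d, rfl⟩ := hg
      rw [hact, map_mul, map_mul, hz, mul_zero, mul_zero, smul_zero]
    · have h4 : Φ (g • e) = 0 := by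
        have h5 := congrArg Φ (hort g hg)
        rwa [map_mul, hone, one_mul, map_zero] at h5
      rw [smul_mul', smul_mul', map_mul, map_mul, h4, zero_mul, mul_zero]
  have h4 : a = 0 := hE.inj (by rw [h3, map_zero])
  rw [← ha, h4, map_zero, zero_mul]

end MP7b0bad
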