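import Pool.Agent.Work.MP_7b0bad_ag.SV.JStmts
import Pool.Agent.Work.MP_7b0bad_ag.Bd.B12

set_option autoImplicit false

/-!
# Lifting of idempotents

`b` is integral over `κ[[ξ]]`, the subring `A` generated by `b` is a finite module over `κ[[ξ]]`,
hence complete; `b * b - b` is nilpotent modulo `ξ A`.
-/

namespace MP7b0bad

open Polynomial

/-- finite modules over precomplete rings are precomplete (principal ideals) -/
theorem JIdL_prec {R M : Type} [CommRing R] [AddCommGroup M] [Module R M] [Module.Finite R M]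
    (x : R) [hR : IsPrecomplete (Ideal.span {x}) R] : IsPrecomplete (Ideal.span {x}) M := by
  obtain ⟨k, φ, hφ⟩ := Module.Finite.exists_fin' R M
  refine ⟨fun f hf => ?_⟩
  have hd : ∀ n, ∃ c : Fin k → R, f (n + 1) - f n = x ^ n • φ c := by
    intro n
    have h1 := hf (Nat.le_succ n)
    rw [SModEq.sub_mem, Ideal.span_singleton_pow, Submodule.ideal_span_singleton_smul] at h1
    rw [Submodule.mem_smul_pointwise_iff_exists] at h1
    obtain ⟨d, -, hd⟩ := h1
    obtain ⟨c, hc⟩ := hφ (-d)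
    refine ⟨c, ?_⟩
    rw [hc, smul_neg, hd]
    simp
  choose c hc using hd
  have hlim : ∀ i : Fin k, ∃ L : R, ∀ n,
      (∑ j ∈ Finset.range n, x ^ j * c j i) ≡ L [SMOD Ideal.span {x} ^ n • (⊤ : Submodule R R)] := by
    intro i
    refine hR.prec' (fun n => ∑ j ∈ Finset.range n, x ^ j * c j i) ?_
    intro m n hmn
    rw [SModEq.sub_mem, Ideal.span_singleton_pow, Submodule.ideal_span_singleton_smul,
      Submodule.mem_smul_pointwise_iff_exists]
    rw [← Finset.sum_range_add_sum_Ico _ hmn]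
    refine ⟨-∑ j ∈ Finset.Ico m n, x ^ (j - m) * c j i, trivial, ?_⟩
    rw [smul_neg, Finset.smul_sum]
    have : ∀ j ∈ Finset.Ico m n, x ^ m • (x ^ (j - m) * c j i) = x ^ j * c j i := by
      intro j hj
      rw [Finset.mem_Ico] at hj
      rw [smul_eq_mul, ← mul_assoc, ← pow_add, Nat.add_sub_cancel' hj.1]
    rw [Finset.sum_congr rfl this]
    ring
  choose L hL using hlim
  refine ⟨f 0 + φ L, fun n => ?_⟩
  have hfn : ∀ n, f n = f 0 + φ (fun i => ∑ j ∈ Finset.range n, x ^ j * c j i) := by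
    intro n
    induction n with
    | zero =>
      have : (fun i : Fin k => ∑ j ∈ Finset.range 0, x ^ j * c j i) = 0 := by
        funext i; simp
      rw [this, map_zero, add_zero]
    | succ n ih =>
      have h1 : (fun i : Fin k => ∑ j ∈ Finset.range (n + 1), x ^ j * c j i) =
          (fun i : Fin k => ∑ j ∈ Finset.range n, x ^ j * c j i) + x ^ n • c n := by
        funext i
        simp [Finset.sum_range_succ]
      rw [h1, map_add, map_smul, ← hc n, ← add_assoc, ← ih]
      abel
  rw [SModEq.sub_mem, hfn n]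
  have h2 : f 0 + φ (fun i => ∑ j ∈ Finset.range n, x ^ j * c j i) - (f 0 + φ L) =
      φ ((fun i => ∑ j ∈ Finset.range n, x ^ j * c j i) - L) := by
    rw [map_sub]; abel
  rw [h2, Ideal.span_singleton_pow, Submodule.ideal_span_singleton_smul,
    Submodule.mem_smul_pointwise_iff_exists]
  have h3 : ∀ i : Fin k, ∃ u : R, x ^ n * u = (∑ j ∈ Finset.range n, x ^ j * c j i) - L i := by
    intro i
    have h4 := hL i n
    rw [SModEq.sub_mem, Ideal.span_singleton_pow, Submodule.ideal_span_singleton_smul,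
      Submodule.mem_smul_pointwise_iff_exists] at h4
    obtain ⟨u, -, hu⟩ := h4
    exact ⟨u, hu⟩
  choose u hu using h3
  refine ⟨φ u, trivial, ?_⟩
  rw [← map_smul]
  congr 1
  funext i
  simp only [Pi.smul_apply, smul_eq_mul, Pi.sub_apply]
  exact hu i

/-- lifting of idempotents modulo an ideal with respect to which the ring is complete -/
theorem JIdL_lift {A : Type} [CommRing A] (I : Ideal A) [IsAdicComplete I A] (b : A) (n : ℕ)
    (hn : (b * b - b) ^ n ∈ I) : ∃ a c : A, a * a = a ∧ a - b - c * (b * b - b) ∈ I := by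
  set tb : A ⧸ I := Ideal.Quotient.mk I (b * b - b) with htb
  set J : Ideal (A ⧸ I) := Ideal.span {tb} with hJ
  have hnil : ∀ x ∈ RingHom.ker (Ideal.Quotient.mk J), IsNilpotent x := by
    intro x hx
    rw [Ideal.mk_ker, hJ, Ideal.mem_span_singleton'] at hx
    obtain ⟨c, hc⟩ := hx
    refine ⟨n, ?_⟩
    rw [← hc, mul_pow, htb, ← map_pow, Ideal.Quotient.eq_zero_iff_mem.2 hn, mul_zero]
  have hidem : IsIdempotentElem (Ideal.Quotient.mk J (Ideal.Quotient.mk I b)) := by
    rw [IsIdempotentElem, ← map_mul, ← map_mul, ← sub_eq_zero, ← map_sub, ← map_sub,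
      Ideal.Quotient.eq_zero_iff_mem, hJ]
    exact Ideal.mem_span_singleton_self _
  obtain ⟨e', he1, he2⟩ := exists_isIdempotentElem_eq_of_ker_isNilpotent (Ideal.Quotient.mk J) hnil
    _ ⟨_, rfl⟩ hidem
  obtain ⟨e1, rfl⟩ := Ideal.Quotient.mk_surjective e'
  have he3 : e1 * e1 - e1 ∈ I := by
    rw [← Ideal.Quotient.eq_zero_iff_mem, map_sub, map_mul, sub_eq_zero]
    exact he1
  have hmon : (X ^ 2 - X : A[X]).Monic := by
    monicity!
  have hev : (X ^ 2 - X : A[X]).eval e1 ∈ I := by
    have : (X ^ 2 - X : A[X]).eval e1 = e1 * e1 - e1 := by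
      simp [pow_two]
    rw [this]; exact he3
  have hder : IsUnit (Ideal.Quotient.mk I ((derivative (X ^ 2 - X : A[X])).eval e1)) := by
    have h9 : (derivative (X ^ 2 - X : A[X])).eval e1 = 2 * e1 - 1 := by
      simp
      ring
    rw [h9]
    have h10 : (2 * e1 - 1) * (2 * e1 - 1) - 1 = 4 * (e1 * e1 - e1) := by ring
    have h11 : Ideal.Quotient.mk I (2 * e1 - 1) * Ideal.Quotient.mk I (2 * e1 - 1) = 1 := by
      rw [← map_mul, ← map_one (Ideal.Quotient.mk I), ← sub_eq_zero, ← map_sub,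
        Ideal.Quotient.eq_zero_iff_mem, h10]
      exact I.mul_mem_left _ he3
    exact IsUnit.of_mul_eq_one _ h11
  have hh : HenselianRing A I := IsAdicComplete.henselianRing A I
  obtain ⟨a, ha1, ha2⟩ := hh.is_henselian (X ^ 2 - X : A[X]) hmon e1 hev hder
  have ha3 : a * a = a := by
    have h11 : a ^ 2 - a = 0 := by simpa [IsRoot] using ha1
    rw [← pow_two]
    exact sub_eq_zero.1 h11
  have he4 : ∃ c : A, e1 - b - c * (b * b - b) ∈ I := by
    have h12 : Ideal.Quotient.mk I e1 - Ideal.Quotient.mk I b ∈ J := by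
      rw [← Ideal.Quotient.eq_zero_iff_mem, map_sub, he2, sub_self]
    rw [hJ, Ideal.mem_span_singleton'] at h12
    obtain ⟨c', hc'⟩ := h12
    obtain ⟨c, rfl⟩ := Ideal.Quotient.mk_surjective c'
    refine ⟨c, ?_⟩
    rw [← Ideal.Quotient.eq_zero_iff_mem, map_sub, map_sub, ← hc', map_mul, sub_self]
  obtain ⟨c, hc⟩ := he4
  refine ⟨a, c, ha3, ?_⟩
  have h13 : a - b - c * (b * b - b) = (a - e1) + (e1 - b - c * (b * b - b)) := by ring
  rw [h13]
  exact I.add_mem ha2 hc

theorem prf_JIdL (hQTN : QTN) : JIdL := by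
  intro κ _ Γ _ _ D _ _ _ hD b hb
  obtain ⟨t1, t2, t3, t4, t5, t6, t7, t8, t9⟩ := hQTN κ Γ D hD
  have hbi : (QTN_f κ D).IsIntegralElem b := (QTN_intL b).1 (t7 b hb)
  let _ : Algebra (PowerSeries κ) D := (QTN_f κ D).toAlgebra
  have hbi' : IsIntegral (PowerSeries κ) b := hbi
  have : Module.Finite (PowerSeries κ) (Algebra.adjoin (PowerSeries κ) {b}) :=
    Algebra.finite_adjoin_simple_of_isIntegral hbi'
  have h1 : IsPrecomplete (Ideal.span {(PowerSeries.X : PowerSeries κ)})
      (Algebra.adjoin (PowerSeries κ) {b}) := JIdL_prec _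
  have h2 : IsHausdorff (Ideal.span {(PowerSeries.X : PowerSeries κ)})
      (Algebra.adjoin (PowerSeries κ) {b}) := by
    refine IsHausdorff.of_isLocalRing _ _ ?_
    rw [Ne, Ideal.span_singleton_eq_top]
    exact PowerSeries.X_irreducible.not_isUnit
  have h3 : IsAdicComplete (Ideal.span {(PowerSeries.X : PowerSeries κ)})
      (Algebra.adjoin (PowerSeries κ) {b}) := { h1, h2 with }
  set A := Algebra.adjoin (PowerSeries κ) {b} with hA
  set I : Ideal A := (Ideal.span {(PowerSeries.X : PowerSeries κ)}).map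
    (algebraMap (PowerSeries κ) A) with hI
  have h4 : IsAdicComplete I A := (IsAdicComplete.map_algebraMap_iff _ _).mpr h3
  have hint : ∀ a : A, IntL (κ := κ) (a : D) := by
    intro a
    rw [QTN_intL]
    have h5 : IsIntegral (PowerSeries κ) a := Algebra.IsIntegral.isIntegral a
    exact h5.map A.val
  have hmemI : ∀ a : A, a ∈ I ↔ ∃ c : A, algebraMap (PowerSeries κ) A PowerSeries.X * c = a := by
    intro a
    rw [hI, Ideal.map_span, Set.image_singleton, Ideal.mem_span_singleton']
    constructor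
    · rintro ⟨c, hc⟩
      exact ⟨c, by rw [← hc, mul_comm]⟩
    · rintro ⟨c, hc⟩
      exact ⟨c, by rw [← hc, mul_comm]⟩
  have hX : ((algebraMap (PowerSeries κ) A PowerSeries.X : A) : D) =
      algebraMap (LaurentSeries κ) D (HahnSeries.single (1 : ℤ) (1 : κ)) := by
    show QTN_f κ D PowerSeries.X = _
    rw [QTN_f, RingHom.comp_apply, HahnSeries.ofPowerSeries_X]
  have hITN : ∀ a : A, a ∈ I → TN (κ := κ) (a : D) := by
    intro a ha
    obtain ⟨c, hc⟩ := (hmemI a).1 ha
    refine QIdS_J_TN _ ⟨(c : D), (QTN_intL _).1 (hint c), ?_⟩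
    rw [← hX, ← hc]
    rfl
  let b' : A := ⟨b, Algebra.self_mem_adjoin_singleton _ _⟩
  have htn : ∃ n : ℕ, (b' * b' - b') ^ n ∈ I := by
    have hb1 := hb
    rw [QTN_Q1, QTN_QR] at hb1
    obtain ⟨p, hp1, hp2, hp3, hp4⟩ := hb1
    refine ⟨p.natDegree, ?_⟩
    have hp5 : aeval (b' * b' - b') p = 0 := by
      have h6 : A.val (aeval (b' * b' - b') p) = 0 := by
        rw [← aeval_algHom_apply]
        exact hp4
      exact Subtype.ext h6
    rw [aeval_eq_sum_range, Finset.sum_range_succ] at hp5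
    have h7 : p.coeff p.natDegree = 1 := hp1
    rw [h7, one_smul] at hp5
    have h8 : (b' * b' - b') ^ p.natDegree =
        -∑ i ∈ Finset.range p.natDegree, p.coeff i • (b' * b' - b') ^ i := by
      rw [eq_neg_iff_add_eq_zero, add_comm]
      exact hp5
    rw [h8]
    refine I.neg_mem (I.sum_mem fun i hi => ?_)
    obtain ⟨u, hu⟩ := hp3 i (Finset.mem_range.1 hi)
    rw [hmemI, hu, pow_one, Algebra.smul_def, map_mul]
    exact ⟨algebraMap _ _ u * (b' * b' - b') ^ i, by ring⟩
  obtain ⟨n, hn⟩ := htn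
  obtain ⟨a, c, ha, hc⟩ := JIdL_lift I b' n hn
  refine ⟨(a : D), congrArg (Subtype.val : A → D) ha, ?_⟩
  have h13 : (a : D) - b = ((a - b' - c * (b' * b' - b') : A) : D) + (b * b - b) * (c : D) := by
    push_cast
    show (a : D) - b = (a : D) - b - (c : D) * (b * b - b) + (b * b - b) * (c : D)
    ring
  rw [h13]
  exact t2 _ _ (hITN _ hc) (t3 _ _ hb (hint c))

end MP7b0bad
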