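import Pool.Agent.Work.MP_7b0bad_ag.SV.JStmts

set_option autoImplicit false

namespace MP7b0bad

open Polynomial

theorem JIdem_TN_zero {κ : Type} [Field κ] {D : Type} [CommRing D] [Algebra (LaurentSeries κ) D] :
    TN (κ := κ) (0 : D) :=
  ⟨1, fun _ => 0, one_pos, fun _ _ _ => rfl, by simp⟩

theorem prf_JIdem (hIdL : JIdL) (hQTN : QTN) : JIdem := by
  classical
  intro κ _ Γ Δ _ _ _ δ D _ _ _ hD b b1 b2 b3 h4
  obtain ⟨tI, tadd, tmul, tint, tsmul, _, tidI, tunit, tid0⟩ := hQTN κ Γ D hD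
  have t0 : TN (κ := κ) (0 : D) := JIdem_TN_zero
  have i1 : IntL (κ := κ) (1 : D) := tidI 1 (by rw [mul_one, sub_self]; exact t0)
  have im1 : IntL (κ := κ) (-1 : D) := (tI 1 1 i1 i1).2.2
  have tneg : ∀ z : D, TN (κ := κ) z → TN (κ := κ) (-z) := by
    intro z hz
    have := tmul z (-1) hz im1
    rwa [mul_neg, mul_one] at this
  have tsub : ∀ z z' : D, TN (κ := κ) z → TN (κ := κ) z' → TN (κ := κ) (z - z') := by
    intro z z' hz hz'
    rw [sub_eq_add_neg]
    exact tadd _ _ hz (tneg _ hz')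
  have iid : ∀ z : D, z * z = z → IntL (κ := κ) z := by
    intro z hz
    refine tidI z ?_
    rw [hz, sub_self]
    exact t0
  have hib : IntL (κ := κ) b := tidI b b1
  obtain ⟨e, he, heb⟩ := hIdL κ Γ D hD b b1
  have hie : IntL (κ := κ) e := iid e he
  refine ⟨e, he, heb, fun τ => ?_, fun γ hγ => ?_, ?_⟩
  · have hf : (δ τ) • e * ((δ τ) • e) = (δ τ) • e := by rw [← smul_mul', he]
    set f : D := (δ τ) • e with hf0
    have hx : TN (κ := κ) (f - e) := by
      have h := tadd _ _ (tsub _ _ (tsmul _ (δ τ) heb) heb) (b3 τ)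
      have e1 : (δ τ) • (e - b) - (e - b) + ((δ τ) • b - b) = f - e := by
        rw [smul_sub]
        ring
      rwa [e1] at h
    have hx3 : (f - e) * ((f - e) * (f - e)) = f - e := by
      have e1 : (f - e) * ((f - e) * (f - e)) =
          f * f * f - 3 * (f * f) * e + 3 * f * (e * e) - e * (e * e) := by ring
      rw [e1, hf, hf, he, he]
      ring
    have hx2 : ((f - e) * (f - e)) * ((f - e) * (f - e)) = (f - e) * (f - e) := by
      calc ((f - e) * (f - e)) * ((f - e) * (f - e)) =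
            (f - e) * ((f - e) * ((f - e) * (f - e))) := by ring
        _ = (f - e) * (f - e) := by rw [hx3]
    have h0 : (f - e) * (f - e) = 0 := tid0 _ hx2 (tmul _ _ hx (tint _ hx))
    rw [h0, mul_zero] at hx3
    exact sub_eq_zero.mp hx3.symm
  · have hf : (γ • e) * (γ • e) = γ • e := by rw [← smul_mul', he]
    refine tid0 _ ?_ ?_
    · calc e * (γ • e) * (e * (γ • e)) = (e * e) * ((γ • e) * (γ • e)) := by ring
        _ = e * (γ • e) := by rw [he, hf]
    · have h := tadd _ _ (tadd _ _ (tmul _ _ heb (iid _ hf)) (tmul _ _ (tsmul _ γ heb) hib)) (b2 γ hγ)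
      have e1 : (e - b) * (γ • e) + (γ • (e - b)) * b + b * (γ • b) = e * (γ • e) := by
        rw [smul_sub]
        ring
      rwa [e1] at h
  · obtain ⟨s, b4⟩ := h4
    refine ⟨s, ?_⟩
    have b5 : TN (κ := κ) (∑ γ ∈ s, γ • (e - b)) := by
      refine Finset.sum_induction (fun γ => γ • (e - b)) (fun z => TN (κ := κ) z)
        (fun a a' ha ha' => tadd a a' ha ha') t0 fun γ _ => tsmul _ γ heb
    have b6 := tunit _ (tneg _ (tadd _ _ b5 b4))
    have e1 : 1 - -(∑ γ ∈ s, γ • (e - b) + (∑ γ ∈ s, γ • b - 1)) = ∑ γ ∈ s, γ • e := by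
      have e2 : ∑ γ ∈ s, γ • (e - b) = ∑ γ ∈ s, γ • e - ∑ γ ∈ s, γ • b := by
        rw [← Finset.sum_sub_distrib]
        exact Finset.sum_congr rfl fun γ _ => smul_sub _ _ _
      rw [e2]
      ring
    rwa [e1] at b6

end MP7b0bad
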