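import Pool.Agent.Work.MP_7b0bad_ag.SV.JStmts

set_option autoImplicit false

/-!
# Perturbation of homomorphisms from a Galois algebra

Two homomorphisms `BH → D` over `y₀` and over `y₀ + ε` to an algebra over `κ((T))`; the approximate
idempotent `∑ i₀(x_m) i₁(y_m)` of the diagonal.
-/

namespace MP7b0bad

open Polynomial TensorProduct

/-- order at least `m` -/
def JPert_O {κ : Type} [Field κ] (m : ℤ) (a : LaurentSeries κ) : Prop :=
  ∀ t : ℤ, t < m → a.coeff t = 0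

section

variable {κ : Type} [Field κ]

theorem JPert_O_mono {m m' : ℤ} (h : m' ≤ m) {a : LaurentSeries κ} (ha : JPert_O m a) :
    JPert_O m' a := fun t ht => ha t (lt_of_lt_of_le ht h)

theorem JPert_O_zero (m : ℤ) : JPert_O m (0 : LaurentSeries κ) := fun t _ => by simp

theorem JPert_O_add {m : ℤ} {a b : LaurentSeries κ} (ha : JPert_O m a) (hb : JPert_O m b) :
    JPert_O m (a + b) := by
  intro t ht
  have h1 := ha t ht
  have h2 := hb t ht
  simp [h1, h2]

theorem JPert_O_mul {m m' : ℤ} {a b : LaurentSeries κ} (ha : JPert_O m a) (hb : JPert_O m' b) :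
    JPert_O (m + m') (a * b) := fun t ht => mul_coeff_neg a b m m' ha hb t ht

theorem JPert_O_C (a : κ) : JPert_O 0 (HahnSeries.C a : LaurentSeries κ) := by
  intro t ht
  rw [HahnSeries.C_apply, HahnSeries.coeff_single, if_neg (by omega)]

theorem JPert_O_single (n : ℤ) : JPert_O n (HahnSeries.single n (1 : κ) : LaurentSeries κ) := by
  intro t ht
  rw [HahnSeries.coeff_single, if_neg (by omega)]

theorem JPert_O_ex (a : LaurentSeries κ) : ∃ N : ℕ, JPert_O (-(N : ℤ)) a := by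
  refine ⟨a.order.natAbs, fun t ht => HahnSeries.coeff_eq_zero_of_lt_order ?_⟩
  omega

end

/-- neighbourhoods of zero -/
def JPert_F (κ : Type) [Field κ] : Filter (LaurentSeries κ) where
  sets := {s | ∃ M : ℤ, ∀ ε, JPert_O M ε → ε ∈ s}
  univ_sets := ⟨0, fun _ _ => trivial⟩
  sets_of_superset := by
    rintro s t ⟨M, h⟩ hst
    exact ⟨M, fun ε hε => hst (h ε hε)⟩
  inter_sets := by
    rintro s t ⟨M, h⟩ ⟨M', h'⟩
    exact ⟨max M M', fun ε hε => ⟨h ε (JPert_O_mono (le_max_left _ _) hε),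
      h' ε (JPert_O_mono (le_max_right _ _) hε)⟩⟩

theorem JPert_F_iff {κ : Type} [Field κ] (P : LaurentSeries κ → Prop) :
    (∀ᶠ ε in JPert_F κ, P ε) ↔ ∃ M : ℤ, ∀ ε, JPert_O M ε → P ε := Iff.rfl

section

variable {κ : Type} [Field κ]

theorem JPert_F_small (C : ℤ) : ∀ᶠ ε in JPert_F κ, JPert_O C ε := ⟨C, fun _ h => h⟩

/-- continuity of powers -/
theorem JPert_pow (y : LaurentSeries κ) (n : ℕ) :
    ∀ C : ℤ, ∀ᶠ ε in JPert_F κ, JPert_O C ((y + ε) ^ n - y ^ n) := by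
  induction n with
  | zero =>
    intro C
    refine Filter.Eventually.of_forall fun ε => ?_
    rw [pow_zero, pow_zero, sub_self]
    exact JPert_O_zero C
  | succ n ih =>
    intro C
    obtain ⟨N, hN⟩ := JPert_O_ex y
    obtain ⟨N', hN'⟩ := JPert_O_ex (y ^ n)
    filter_upwards [ih (C + N), ih 0, JPert_F_small C, JPert_F_small (C + N')] with ε h1 h2 h3 h4
    have h5 : (y + ε) ^ (n + 1) - y ^ (n + 1) =
        ((y + ε) ^ n - y ^ n) * y + (((y + ε) ^ n - y ^ n) * ε + y ^ n * ε) := by ring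
    rw [h5]
    refine JPert_O_add (JPert_O_mono ?_ (JPert_O_mul h1 hN))
      (JPert_O_add (JPert_O_mono ?_ (JPert_O_mul h2 h3)) (JPert_O_mono ?_ (JPert_O_mul hN' h4)))
    all_goals omega

variable {k : Type} [Field k] (i : k →+* κ)

/-- evaluation of polynomials -/
noncomputable def JPert_ev (i : k →+* κ) (y : LaurentSeries κ) (p : k[X]) : LaurentSeries κ :=
  p.eval₂ ((HahnSeries.C : κ →+* LaurentSeries κ).comp i) y

/-- continuity of polynomials -/
theorem JPert_cont (y : LaurentSeries κ) (p : k[X]) :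
    ∀ C : ℤ, ∀ᶠ ε in JPert_F κ, JPert_O C (JPert_ev i (y + ε) p - JPert_ev i y p) := by
  induction p using Polynomial.induction_on' with
  | add p q hp hq =>
    intro C
    filter_upwards [hp C, hq C] with ε h1 h2
    have h3 : JPert_ev i (y + ε) (p + q) - JPert_ev i y (p + q) =
        (JPert_ev i (y + ε) p - JPert_ev i y p) + (JPert_ev i (y + ε) q - JPert_ev i y q) := by
      simp only [JPert_ev, eval₂_add]
      ring
    rw [h3]
    exact JPert_O_add h1 h2
  | monomial n a =>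
    intro C
    filter_upwards [JPert_pow y n C] with ε h1
    have h3 : JPert_ev i (y + ε) (monomial n a) - JPert_ev i y (monomial n a) =
        HahnSeries.C (i a) * ((y + ε) ^ n - y ^ n) := by
      simp only [JPert_ev, eval₂_monomial, RingHom.comp_apply]
      ring
    rw [h3]
    exact JPert_O_mono (by omega) (JPert_O_mul (JPert_O_C (i a)) h1)

/-- uniform bound -/
theorem JPert_bd (y : LaurentSeries κ) (p : k[X]) :
    ∃ N : ℕ, ∀ᶠ ε in JPert_F κ, JPert_O (-(N : ℤ)) (JPert_ev i (y + ε) p) := by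
  obtain ⟨N, hN⟩ := JPert_O_ex (JPert_ev i y p)
  refine ⟨N, ?_⟩
  filter_upwards [JPert_cont i y p (-(N : ℤ))] with ε h1
  have h2 := JPert_O_add h1 hN
  rwa [sub_add_cancel] at h2

/-- uniform integrality -/
theorem JPert_int (y : LaurentSeries κ) {B : Type} [CommRing B] [Algebra k[X] B] (a : B)
    (ha : IsIntegral k[X] a) : ∃ N : ℕ, ∀ᶠ ε in JPert_F κ, ∀ (D : Type) [CommRing D]
      [Algebra (LaurentSeries κ) D] (f : B →+* D),
      (∀ p : k[X], f (algebraMap k[X] B p) = algebraMap (LaurentSeries κ) D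
        (JPert_ev i (y + ε) p)) →
      TN (κ := κ) (algebraMap (LaurentSeries κ) D (HahnSeries.single (N : ℤ) (1 : κ)) * f a) := by
  classical
  obtain ⟨P, hP, hPa⟩ : ∃ P : k[X][X], P.Monic ∧ 0 < P.natDegree ∧
      P.eval₂ (algebraMap k[X] B) a = 0 := by
    obtain ⟨p, h1, h2⟩ := ha
    refine ⟨p * X, h1.mul monic_X, ?_, ?_⟩
    · rw [natDegree_mul_X h1.ne_zero]
      omega
    · rw [eval₂_mul, h2, zero_mul]
  obtain ⟨hn, hPa⟩ := hPa
  choose N hN using fun j : ℕ => JPert_bd i y (P.coeff j)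
  refine ⟨∑ j ∈ Finset.range P.natDegree, N j + 1, ?_⟩
  have hall : ∀ᶠ ε in JPert_F κ, ∀ j ∈ Finset.range P.natDegree,
      JPert_O (-(N j : ℤ)) (JPert_ev i (y + ε) (P.coeff j)) := by
    rw [Filter.eventually_all_finset]
    exact fun j _ => hN j
  filter_upwards [hall] with ε hε D _ _ f hf
  set n := P.natDegree with hnd
  set M : ℕ := ∑ j ∈ Finset.range n, N j + 1 with hM
  set t : LaurentSeries κ := HahnSeries.single (M : ℤ) (1 : κ) with ht
  have htpow : ∀ m : ℕ, t ^ m = HahnSeries.single ((m * M : ℕ) : ℤ) (1 : κ) := by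
    intro m
    rw [ht, HahnSeries.single_pow, one_pow]
    congr 1
  refine ⟨n, fun j => t ^ ((j : ℕ) + 1) * JPert_ev i (y + ε) (P.coeff (n - 1 - (j : ℕ))), hn,
    ?_, ?_⟩
  · intro j m hm
    have hj : n - 1 - (j : ℕ) ∈ Finset.range n := Finset.mem_range.2 (by omega)
    have h1 := hε _ hj
    have h2 : JPert_O ((((j : ℕ) + 1) * M : ℕ) : ℤ) (t ^ ((j : ℕ) + 1)) := by
      rw [htpow]
      exact JPert_O_single _
    have h3 := JPert_O_mul h2 h1
    refine h3 m ?_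
    have h4 : N (n - 1 - (j : ℕ)) ≤ ∑ j ∈ Finset.range n, N j :=
      Finset.single_le_sum (fun _ _ => Nat.zero_le _) hj
    have h5 : M ≤ ((j : ℕ) + 1) * M := Nat.le_mul_of_pos_left _ (by omega)
    have h6 : ((N (n - 1 - (j : ℕ)) : ℕ) : ℤ) + 1 ≤ ((((j : ℕ) + 1) * M : ℕ) : ℤ) := by
      exact_mod_cast (by omega : N (n - 1 - (j : ℕ)) + 1 ≤ ((j : ℕ) + 1) * M)
    omega
  · have h1 := congrArg (fun x => (algebraMap (LaurentSeries κ) D t) ^ n * f x) hPa
    rw [eval₂_eq_sum_range, Finset.sum_range_succ] at h1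
    have h5 : P.coeff P.natDegree = 1 := hP
    rw [h5, map_one, one_mul, add_comm, ← Finset.sum_range_reflect, Finset.sum_range] at h1
    simp only [map_add, map_pow, map_sum, map_mul, hf, map_zero, mul_zero] at h1
    rw [← h1, mul_add, mul_pow, Finset.mul_sum]
    congr 1
    refine Finset.sum_congr rfl fun j _ => ?_
    rw [map_mul, map_pow, mul_pow]
    have h2 : n = ((j : ℕ) + 1) + (n - 1 - (j : ℕ)) := by
      have := j.2
      omega
    have h3 : (algebraMap (LaurentSeries κ) D t) ^ n =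
        (algebraMap (LaurentSeries κ) D t) ^ ((j : ℕ) + 1) *
        (algebraMap (LaurentSeries κ) D t) ^ (n - 1 - (j : ℕ)) := by
      rw [← pow_add, ← h2]
    rw [h3]
    ring

end

/-- the ring homomorphism `a ⊗ b ↦ f(a) g(b)` -/
noncomputable def JPert_pm {A B S : Type} [CommRing A] [CommRing B] [CommRing S] (f : A →+* S)
    (g : B →+* S) : A ⊗[ℤ] B →+* S :=
  (Algebra.TensorProduct.productMap f.toIntAlgHom g.toIntAlgHom).toRingHom

theorem JPert_pm_tmul {A B S : Type} [CommRing A] [CommRing B] [CommRing S] (f : A →+* S)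
    (g : B →+* S) (a : A) (b : B) : JPert_pm f g (a ⊗ₜ[ℤ] b) = f a * g b :=
  Algebra.TensorProduct.productMap_apply_tmul _ _ _ _

theorem JPert_TN_zero {κ : Type} [Field κ] {D : Type} [CommRing D] [Algebra (LaurentSeries κ) D] :
    TN (κ := κ) (0 : D) :=
  ⟨1, fun _ => 0, one_pos, fun _ _ _ => rfl, by simp⟩

theorem JPert_IntL_alg {κ : Type} [Field κ] {D : Type} [CommRing D] [Algebra (LaurentSeries κ) D]
    (c : LaurentSeries κ) (hc : JPert_O 0 c) : IntL (κ := κ) (algebraMap (LaurentSeries κ) D c) := by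
  refine ⟨1, fun _ => -c, one_pos, fun _ m hm => ?_, ?_⟩
  · have := hc m hm
    simp [this]
  · simp

/-- the image of `z` is topologically nilpotent -/
def JPert_K {k κ : Type} [Field k] [Field κ] (i : k →+* κ) (y₀ : LaurentSeries κ)
    {B : Type} [CommRing B] [Algebra k[X] B] (z : B ⊗[ℤ] B) (ε : LaurentSeries κ) : Prop :=
  ∀ (Γ D : Type) [Group Γ] [Finite Γ] [CommRing D]
    [Algebra (LaurentSeries κ) D] [MulSemiringAction Γ D] (i₀ i₁ : B →+* D),
    GalAlg (LaurentSeries κ) Γ D →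
    (∀ p : k[X], i₀ (algebraMap k[X] B p) = algebraMap (LaurentSeries κ) D
      (JPert_ev i y₀ p)) →
    (∀ p : k[X], i₁ (algebraMap k[X] B p) = algebraMap (LaurentSeries κ) D
      (JPert_ev i (y₀ + ε) p)) →
    TN (κ := κ) (JPert_pm i₀ i₁ z)

/-- elements of `B ⊗ B` that vanish on the diagonal over `k[X]` become topologically nilpotent -/
theorem JPert_key (hQTN : QTN) {k κ : Type} [Field k] [Field κ] (i : k →+* κ)
    (y₀ : LaurentSeries κ) {H : Type} [Group H] [Finite H] {B : Type} [CommRing B] [Algebra k[X] B]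
    [MulSemiringAction H B] (hB : GalAlg k[X] H B) (z : B ⊗[ℤ] B)
    (hz : ∀ σ : H, JPert_pm (RingHom.id B) (MulSemiringAction.toRingHom H B σ) z = 0) :
    ∀ᶠ ε in JPert_F κ, JPert_K i y₀ z ε := by
  classical
  have := Fintype.ofFinite H
  have hfin := gal_finite hB
  obtain ⟨n, x, y, hxy, hxy1⟩ := gal_dual' hB
  obtain ⟨S, hS⟩ := TensorProduct.exists_finset z
  choose p hp using fun (s : B × B) (j : Fin n) => gal_trace hB (y j * s.2)
  choose N hN using fun b : B => JPert_int (κ := κ) i y₀ b (Algebra.IsIntegral.isIntegral b)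
  have h0 : ∀ᶠ ε in JPert_F κ, ∀ s ∈ S, ∀ j : Fin n,
      JPert_O ((N s.1 : ℤ) + N (x j)) (JPert_ev i (y₀ + ε) (p s j) - JPert_ev i y₀ (p s j)) := by
    rw [Filter.eventually_all_finset]
    intro s _
    rw [Filter.eventually_all]
    exact fun j => JPert_cont i y₀ (p s j) _
  have h1 : ∀ᶠ ε in JPert_F κ, ∀ j : Fin n, ∀ (D : Type) [CommRing D]
      [Algebra (LaurentSeries κ) D] (f : B →+* D),
      (∀ p : k[X], f (algebraMap k[X] B p) = algebraMap (LaurentSeries κ) D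
        (JPert_ev i (y₀ + ε) p)) →
      TN (κ := κ) (algebraMap (LaurentSeries κ) D (HahnSeries.single (N (x j) : ℤ) (1 : κ)) *
        f (x j)) := by
    rw [Filter.eventually_all]
    exact fun j => hN (x j)
  filter_upwards [h0, h1] with ε hε0 hε1 Γ D _ _ _ _ _ i₀ i₁ hD hi0 hi1
  obtain ⟨hI, hTadd, hTmul, hTI, -⟩ := hQTN κ Γ D hD
  -- the formula
  have e1 : ∀ c : B × B, i₁ c.2 =
      ∑ j, algebraMap (LaurentSeries κ) D (JPert_ev i (y₀ + ε) (p c j)) * i₁ (x j) := by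
    intro c
    conv_lhs => rw [gal_formula hxy hxy1 c.2]
    rw [map_sum]
    refine Finset.sum_congr rfl fun j _ => ?_
    rw [map_mul, ← hp, hi1]
  have e2 : ∑ s ∈ S, ∑ j, algebraMap (LaurentSeries κ) D (JPert_ev i y₀ (p s j)) *
      (i₀ s.1 * i₁ (x j)) = 0 := by
    rw [Finset.sum_comm]
    refine Finset.sum_eq_zero fun j _ => ?_
    have e3 : ∑ s ∈ S, s.1 * algebraMap k[X] B (p s j) = 0 := by
      have e4 : ∀ s : B × B, s.1 * algebraMap k[X] B (p s j) =
          ∑ g : H, (g • y j) * (s.1 * (g • s.2)) := by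
        intro s
        rw [hp, Finset.mul_sum]
        refine Finset.sum_congr rfl fun g _ => ?_
        rw [smul_mul']
        ring
      simp only [e4]
      rw [Finset.sum_comm]
      refine Finset.sum_eq_zero fun g _ => ?_
      rw [← Finset.mul_sum]
      have e5 := hz g
      rw [hS, map_sum] at e5
      simp only [JPert_pm_tmul] at e5
      have e6 : ∑ s ∈ S, s.1 * (g • s.2) = 0 := e5
      rw [e6, mul_zero]
    have e7 : ∑ s ∈ S, algebraMap (LaurentSeries κ) D (JPert_ev i y₀ (p s j)) *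
        (i₀ s.1 * i₁ (x j)) = i₀ (∑ s ∈ S, s.1 * algebraMap k[X] B (p s j)) * i₁ (x j) := by
      rw [map_sum, Finset.sum_mul]
      refine Finset.sum_congr rfl fun s _ => ?_
      rw [map_mul, hi0]
      ring
    rw [e7, e3, map_zero, zero_mul]
  have e8 : JPert_pm i₀ i₁ z = ∑ s ∈ S, ∑ j, algebraMap (LaurentSeries κ) D
      (JPert_ev i (y₀ + ε) (p s j) - JPert_ev i y₀ (p s j)) * (i₀ s.1 * i₁ (x j)) := by
    simp only [map_sub, sub_mul, Finset.sum_sub_distrib]
    rw [e2, sub_zero, hS, map_sum]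
    refine Finset.sum_congr rfl fun s _ => ?_
    rw [JPert_pm_tmul, e1 s, Finset.mul_sum]
    refine Finset.sum_congr rfl fun j _ => ?_
    ring
  rw [e8]
  refine Finset.sum_induction _ (TN (κ := κ)) (fun a b => hTadd a b) JPert_TN_zero fun s hs => ?_
  refine Finset.sum_induction _ (TN (κ := κ)) (fun a b => hTadd a b) JPert_TN_zero fun j _ => ?_
  have t1 := hε1 j D i₁ hi1
  have t0 : TN (κ := κ) (algebraMap (LaurentSeries κ) D (HahnSeries.single (N s.1 : ℤ) (1 : κ)) *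
      i₀ s.1) := by
    obtain ⟨M, hM⟩ := hN s.1
    exact hM 0 (JPert_O_zero M) D i₀ (by simpa using hi0)
  have t2 := hε0 s hs j
  set δ := JPert_ev i (y₀ + ε) (p s j) - JPert_ev i y₀ (p s j) with hδ
  set u : LaurentSeries κ := HahnSeries.single (-((N s.1 : ℤ) + N (x j))) (1 : κ) with hu
  have t3 : IntL (κ := κ) (algebraMap (LaurentSeries κ) D (δ * u)) :=
    JPert_IntL_alg _ (JPert_O_mono (by omega) (JPert_O_mul t2 (JPert_O_single _)))
  have t4 : u * (HahnSeries.single (N s.1 : ℤ) (1 : κ) * HahnSeries.single (N (x j) : ℤ) (1 : κ)) =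
      1 := by
    rw [hu, HahnSeries.single_mul_single, HahnSeries.single_mul_single, neg_add_cancel, one_mul,
      one_mul]
    rfl
  have t5 := hTmul _ _ (hTmul _ _ t0 (hTI _ t1)) t3
  have t6 : algebraMap (LaurentSeries κ) D δ * (i₀ s.1 * i₁ (x j)) =
      algebraMap (LaurentSeries κ) D (HahnSeries.single (N s.1 : ℤ) (1 : κ)) * i₀ s.1 *
      (algebraMap (LaurentSeries κ) D (HahnSeries.single (N (x j) : ℤ) (1 : κ)) * i₁ (x j)) *
      algebraMap (LaurentSeries κ) D (δ * u) := by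
    have t7 := congrArg (algebraMap (LaurentSeries κ) D) t4
    rw [map_mul, map_mul, map_one (algebraMap (LaurentSeries κ) D)] at t7
    rw [map_mul (algebraMap (LaurentSeries κ) D)]
    linear_combination (-(algebraMap (LaurentSeries κ) D δ * (i₀ s.1 * i₁ (x j)))) * t7
  rw [t6]
  exact t5

theorem prf_JPert (hIdem : JIdem) (hQTN : QTN) (hQBC : QBC) (hQTen : QTen) (hQQuo : QQuo) :
    JPert := by
  intro k κ _ _ i H P' _ _ _ _ π BH Q _ _ _ _ _ _ y₀ φ₀ hB hQ hφ hφg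
  classical
  have := Fintype.ofFinite H
  obtain ⟨n, x, y, hxy, hxy1⟩ := gal_dual' hB
  have hd : ∀ ρ : H, ∑ m, x m * (ρ • y m) = if ρ = 1 then 1 else 0 := by
    intro ρ
    split_ifs with h
    · subst h; simpa using hxy1
    · exact hxy ρ h
  let Bb : H → H → BH ⊗[ℤ] BH := fun σ τ => ∑ m, (σ • x m) ⊗ₜ[ℤ] (τ • y m)
  have hμ : ∀ ρ σ τ : H, JPert_pm (RingHom.id BH) (MulSemiringAction.toRingHom H BH ρ) (Bb σ τ) =
      if ρ * τ = σ then 1 else 0 := by
    intro ρ σ τ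
    have h1 : JPert_pm (RingHom.id BH) (MulSemiringAction.toRingHom H BH ρ) (Bb σ τ) =
        σ • ∑ m, x m * ((σ⁻¹ * (ρ * τ)) • y m) := by
      show JPert_pm _ _ (∑ m, (σ • x m) ⊗ₜ[ℤ] (τ • y m)) = _
      rw [map_sum, Finset.smul_sum]
      refine Finset.sum_congr rfl fun m _ => ?_
      rw [JPert_pm_tmul, smul_mul', smul_smul, mul_inv_cancel_left, mul_smul]
      rfl
    rw [h1, hd]
    by_cases h : ρ * τ = σ
    · rw [if_pos h, if_pos (by rw [h, inv_mul_cancel]), smul_one]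
    · rw [if_neg h, if_neg (fun h' => h (inv_mul_eq_one.1 h').symm), smul_zero]
  have k1 := JPert_key hQTN i y₀ hB (Bb 1 1 * Bb 1 1 - Bb 1 1) (by
    intro ρ
    rw [map_sub, map_mul, hμ]
    split_ifs <;> simp)
  have k2 : ∀ γ : H × H, γ.1 ≠ γ.2 → ∀ᶠ ε in JPert_F κ,
      JPert_K i y₀ (Bb 1 1 * Bb γ.1 γ.2) ε := fun γ hγ =>
    JPert_key hQTN i y₀ hB (Bb 1 1 * Bb γ.1 γ.2) (by
      intro ρ
      rw [map_mul, hμ, hμ]
      by_cases h : ρ = 1
      · subst h
        rw [one_mul, one_mul, if_pos rfl, if_neg (Ne.symm hγ), mul_zero]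
      · rw [mul_one, if_neg h, zero_mul])
  have k2' : ∀ᶠ ε in JPert_F κ, ∀ γ : H × H, γ.1 ≠ γ.2 →
      JPert_K i y₀ (Bb 1 1 * Bb γ.1 γ.2) ε := by
    rw [Filter.eventually_all]
    intro γ
    rw [Filter.eventually_imp_distrib_left]
    exact k2 γ
  have k3 := fun τ : H => JPert_key hQTN i y₀ hB (Bb τ τ - Bb 1 1) (by
    intro ρ
    rw [map_sub, hμ, hμ]
    by_cases h : ρ = 1
    · subst h; simp
    · rw [if_neg (by simpa using h), if_neg (by simpa using h), sub_zero])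
  rw [← Filter.eventually_all] at k3
  have k4 := JPert_key hQTN i y₀ hB (∑ σ : H, Bb 1 σ - 1) (by
    intro ρ
    rw [map_sub, map_sum, map_one]
    simp only [hμ]
    rw [Finset.sum_eq_single ρ⁻¹]
    · simp
    · intro σ _ hσ
      rw [if_neg]
      intro h
      exact hσ (eq_inv_of_mul_eq_one_right h)
    · simp)
  have kall := (k1.and k2').and (k3.and k4)
  rw [JPert_F_iff] at kall
  obtain ⟨M, hM⟩ := kall
  refine ⟨M, fun ε hε => ?_⟩
  obtain ⟨⟨c1, c2⟩, c3, c4⟩ := hM ε hε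
  clear hM k1 k2 k2' k3 k4
  obtain ⟨Q₀, _, _, _, q₀, hQ0, hq0, hq0g, hq0u, hq0s⟩ := hQBC k[X] (LaurentSeries κ)
    (eval₂RingHom ((HahnSeries.C : κ →+* LaurentSeries κ).comp i) y₀) H BH hB
  obtain ⟨Q₁, _, _, _, q₁, hQ1, hq1, hq1g, -, -⟩ := hQBC k[X] (LaurentSeries κ)
    (eval₂RingHom ((HahnSeries.C : κ →+* LaurentSeries κ).comp i) (y₀ + ε)) H BH hB
  obtain ⟨D, _, _, _, j₀, j₁, hD, hj0, hj1, hj0g, hj1g, -, -, -⟩ := hQTen (LaurentSeries κ) H H
    Q₀ Q₁ hQ0 hQ1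
  have a0 : ∀ p : k[X], (j₀.comp q₀) (algebraMap k[X] BH p) =
      algebraMap (LaurentSeries κ) D (JPert_ev i y₀ p) := by
    intro p
    rw [RingHom.comp_apply, hq0, hj0]
    rfl
  have a1 : ∀ p : k[X], (j₁.comp q₁) (algebraMap k[X] BH p) =
      algebraMap (LaurentSeries κ) D (JPert_ev i (y₀ + ε) p) := by
    intro p
    rw [RingHom.comp_apply, hq1, hj1]
    rfl
  set Φ := JPert_pm (j₀.comp q₀) (j₁.comp q₁) with hΦ
  have hact : ∀ σ τ : H, (σ, τ) • Φ (Bb 1 1) = Φ (Bb σ τ) := by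
    intro σ τ
    show (σ, τ) • Φ (∑ m, ((1 : H) • x m) ⊗ₜ[ℤ] ((1 : H) • y m)) =
      Φ (∑ m, (σ • x m) ⊗ₜ[ℤ] (τ • y m))
    rw [map_sum, map_sum, Finset.smul_sum]
    refine Finset.sum_congr rfl fun m _ => ?_
    rw [hΦ, JPert_pm_tmul, JPert_pm_tmul, one_smul, one_smul, smul_mul', RingHom.comp_apply,
      RingHom.comp_apply, RingHom.comp_apply, RingHom.comp_apply, hj0g, hj1g, hq0g, hq1g]
  have b1 := c1 (H × H) D (j₀.comp q₀) (j₁.comp q₁) hD a0 a1
  have b2 := fun γ hγ => c2 γ hγ (H × H) D (j₀.comp q₀) (j₁.comp q₁) hD a0 a1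
  have b3 := fun τ => c3 τ (H × H) D (j₀.comp q₀) (j₁.comp q₁) hD a0 a1
  have b4 := c4 (H × H) D (j₀.comp q₀) (j₁.comp q₁) hD a0 a1
  rw [← hΦ] at b1 b4
  let δ : H →* H × H := (MonoidHom.id H).prod (MonoidHom.id H)
  have hδ : ∀ h : H, δ h = (h, h) := fun _ => rfl
  have hδr : ∀ γ : H × H, γ ∉ δ.range → γ.1 ≠ γ.2 := by
    intro γ hγ h
    exact hγ ⟨γ.1, Prod.ext rfl h⟩
  obtain ⟨e, he1, -, he2, he3, he4⟩ := hIdem κ (H × H) H δ D hD (Φ (Bb 1 1))
    (by rw [← map_mul, ← map_sub]; exact b1)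
    (by
      intro γ hγ
      have h1 := b2 γ (hδr γ hγ)
      have h2 : γ • Φ (Bb 1 1) = Φ (Bb γ.1 γ.2) := hact γ.1 γ.2
      rw [h2, ← map_mul]
      exact h1)
    (by
      intro h
      rw [hδ, hact, ← map_sub]
      exact b3 h)
    ⟨Finset.univ.map ⟨fun σ : H => ((1 : H), σ), fun a b hab => (Prod.ext_iff.1 hab).2⟩, by
      rw [Finset.sum_map]
      simp only [Function.Embedding.coeFn_mk, hact]
      rw [← map_sum]
      have h1 := b4
      rw [map_sub, map_one] at h1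
      exact h1⟩
  have hδi : Function.Injective δ := fun a b hab => (Prod.ext_iff.1 hab).1
  obtain ⟨E, _, _, _, ϖ, hE, hϖ, -, hϖg⟩ := hQQuo (LaurentSeries κ) (H × H) H δ D e hδi hD he1
    he2 he3 he4
  have bij0 : Function.Bijective (ϖ.comp j₀) := gal_hom_bijective hQ0 hE (ϖ.comp j₀)
    (fun a => by rw [RingHom.comp_apply, hj0, hϖ])
    (fun g b => by
      rw [RingHom.comp_apply, RingHom.comp_apply, ← hϖg, hδ, hj0g])
  obtain ⟨F₀, hF0, hF0a⟩ := hq0u Q φ₀ (algebraMap (LaurentSeries κ) Q) hφ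
  have hF0g : ∀ (g : P') (z : Q₀), F₀ (π g • z) = g • F₀ z := by
    intro g z
    obtain ⟨m, r, b, rfl⟩ := hq0s z
    rw [Finset.smul_sum, map_sum, map_sum, Finset.smul_sum]
    refine Finset.sum_congr rfl fun l _ => ?_
    rw [smul_mul', hQ0.comm, map_mul, map_mul, smul_mul', hF0a, hQ.comm, ← hq0g, hF0, hF0, hφg]
  let Ξ : Q₀ ≃+* E := RingEquiv.ofBijective (ϖ.comp j₀) bij0
  have hΞ : ∀ z, Ξ z = ϖ (j₀ z) := fun _ => rfl
  have hΞg : ∀ (g : H) (w : E), Ξ.symm (g • w) = g • Ξ.symm w := by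
    intro g w
    apply Ξ.injective
    rw [RingEquiv.apply_symm_apply, hΞ]
    have h1 : ϖ (j₀ (g • Ξ.symm w)) = g • ϖ (j₀ (Ξ.symm w)) := by
      rw [← hϖg, hδ, hj0g]
    rw [h1, ← hΞ, RingEquiv.apply_symm_apply]
  have hΞa : ∀ a, Ξ.symm (algebraMap (LaurentSeries κ) E a) = algebraMap (LaurentSeries κ) Q₀ a := by
    intro a
    apply Ξ.injective
    rw [RingEquiv.apply_symm_apply, hΞ, hj0, hϖ]
  refine ⟨F₀.comp ((Ξ.symm : E →+* Q₀).comp (ϖ.comp (j₁.comp q₁))), ?_, ?_⟩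
  · intro f
    show F₀ (Ξ.symm (ϖ (j₁ (q₁ (algebraMap k[X] BH f))))) = _
    rw [hq1, hj1, hϖ, hΞa, hF0a]
    rfl
  · intro g b
    show F₀ (Ξ.symm (ϖ (j₁ (q₁ (π g • b))))) = g • F₀ (Ξ.symm (ϖ (j₁ (q₁ b))))
    have h1 : ϖ (j₁ (π g • q₁ b)) = π g • ϖ (j₁ (q₁ b)) := by
      rw [← hϖg, hδ, hj1g]
    rw [hq1g, h1, hΞg, hF0g]

end MP7b0bad
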