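import Pool.Agent.Work.MP_7b0bad_ag.SV.JStmts

set_option autoImplicit false

/-!
# Combinations with small coefficients are topologically nilpotent
-/

namespace MP7b0bad

open Polynomial

/-- coefficients of the product with a power of the parameter -/
theorem JSm_coeff {κ : Type} [Field κ] (x : LaurentSeries κ) (k m : ℤ) :
    (x * HahnSeries.single k (1 : κ)).coeff m = x.coeff (m - k) := by
  have h := HahnSeries.coeff_mul_single_add (x := x) (r := (1 : κ)) (a := m - k) (b := k)
  rw [sub_add_cancel, mul_one] at h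
  exact h

theorem JSm_zero {κ : Type} [Field κ] {D : Type} [CommRing D] [Algebra (LaurentSeries κ) D] :
    TN (κ := κ) (0 : D) := by
  refine ⟨1, fun _ => 0, one_pos, fun _ _ _ => rfl, ?_⟩
  simp

theorem JSm_intL {κ : Type} [Field κ] {D : Type} [CommRing D] [Algebra (LaurentSeries κ) D]
    (a : LaurentSeries κ) (ha : ∀ m : ℤ, m < 0 → a.coeff m = 0) :
    IntL (κ := κ) (algebraMap (LaurentSeries κ) D a) := by
  refine ⟨1, fun _ => -a, one_pos, fun _ m hm => ?_, ?_⟩
  · rw [HahnSeries.coeff_neg, ha m hm, neg_zero]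
  · simp

/-- multiples by large powers of the parameter are topologically nilpotent -/
theorem JSm_root {κ : Type} [Field κ] {D : Type} [CommRing D] [Algebra (LaurentSeries κ) D]
    (z : D) (hz : IsIntegral (LaurentSeries κ) z) : ∃ N : ℤ,
    TN (κ := κ) (algebraMap (LaurentSeries κ) D (HahnSeries.single N (1 : κ)) * z) := by
  obtain ⟨P, hP1, hP2⟩ := hz
  set P1 : (LaurentSeries κ)[X] := P * X with hP1def
  have hP1m : P1.Monic := hP1.mul monic_X
  have hP1d : P1.natDegree = P.natDegree + 1 := natDegree_mul_X hP1.ne_zero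
  have hP1z : P1.eval₂ (algebraMap (LaurentSeries κ) D) z = 0 := by
    rw [hP1def, eval₂_mul, hP2, zero_mul]
  set N : ℤ := 1 + ∑ i ∈ Finset.range P1.natDegree, |(P1.coeff i).order| with hN
  have hN1 : ∀ i < P1.natDegree, -N < (P1.coeff i).order := by
    intro i hi
    have h1 : |(P1.coeff i).order| ≤ ∑ i ∈ Finset.range P1.natDegree, |(P1.coeff i).order| :=
      Finset.single_le_sum (f := fun i => |(P1.coeff i).order|) (fun _ _ => abs_nonneg _)
        (Finset.mem_range.2 hi)
    have h2 := neg_abs_le (P1.coeff i).order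
    linarith
  have hN0 : 1 ≤ N := by
    have h1 : 0 ≤ ∑ i ∈ Finset.range P1.natDegree, |(P1.coeff i).order| :=
      Finset.sum_nonneg fun _ _ => abs_nonneg _
    linarith
  refine ⟨N, ?_⟩
  set t : LaurentSeries κ := HahnSeries.single N (1 : κ) with ht
  have hS : (scaleRoots P1 t).Monic := (monic_scaleRoots_iff _).2 hP1m
  have hSd : (scaleRoots P1 t).natDegree = P1.natDegree := natDegree_scaleRoots _ _
  have hSz : (scaleRoots P1 t).eval₂ (algebraMap (LaurentSeries κ) D)
      (algebraMap (LaurentSeries κ) D t * z) = 0 := scaleRoots_eval₂_eq_zero _ hP1z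
  refine ⟨P1.natDegree, fun i => (scaleRoots P1 t).coeff (P1.natDegree - 1 - (i : ℕ)), by omega,
    fun i m hm => ?_, ?_⟩
  · have hi := i.2
    change ((scaleRoots P1 t).coeff (P1.natDegree - 1 - (i : ℕ))).coeff m = 0
    rw [coeff_scaleRoots]
    set j : ℕ := P1.natDegree - 1 - (i : ℕ) with hj
    have hjlt : j < P1.natDegree := by omega
    obtain ⟨k, hk⟩ : ∃ k : ℕ, P1.natDegree - j = k + 1 := ⟨P1.natDegree - j - 1, by omega⟩
    rw [hk, ht, HahnSeries.single_pow, one_pow, JSm_coeff]
    apply HahnSeries.coeff_eq_zero_of_lt_order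
    refine lt_of_le_of_lt ?_ (hN1 j hjlt)
    rw [nsmul_eq_mul]
    push_cast
    have h1 : 0 ≤ (k : ℤ) * N := by positivity
    linarith
  · rw [eval₂_eq_sum_range, Finset.sum_range_succ] at hSz
    have h5 : (scaleRoots P1 t).coeff (scaleRoots P1 t).natDegree = 1 := hS
    rw [h5, map_one, one_mul, add_comm, hSd] at hSz
    rw [← hSz]
    congr 1
    rw [← Finset.sum_range_reflect, Finset.sum_range]

theorem prf_JSm (hQTN : QTN) : JSm := by
  intro κ _ Γ _ _ D _ _ _ hG n z
  obtain ⟨-, hadd, hmul, -⟩ := hQTN κ Γ D hG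
  have hfin := gal_finite hG
  have h1 : ∀ l, ∃ N : ℤ,
      TN (κ := κ) (algebraMap (LaurentSeries κ) D (HahnSeries.single N (1 : κ)) * z l) :=
    fun l => JSm_root (z l) (IsIntegral.of_finite (LaurentSeries κ) (z l))
  choose N hN using h1
  refine ⟨∑ l, |N l|, fun c hc => ?_⟩
  have h2 : ∀ l, TN (κ := κ) (algebraMap (LaurentSeries κ) D (c l) * z l) := by
    intro l
    have hNl : N l ≤ ∑ l, |N l| :=
      (le_abs_self _).trans (Finset.single_le_sum (f := fun l => |N l|)
        (fun _ _ => abs_nonneg _) (Finset.mem_univ l))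
    have h3 : IntL (κ := κ) (algebraMap (LaurentSeries κ) D
        (c l * HahnSeries.single (-N l) (1 : κ))) := by
      apply JSm_intL
      intro m hm
      rw [JSm_coeff]
      exact hc l _ (by linarith)
    have h4 := hmul _ _ (hN l) h3
    have h5 : algebraMap (LaurentSeries κ) D (HahnSeries.single (N l) (1 : κ)) * z l *
        algebraMap (LaurentSeries κ) D (c l * HahnSeries.single (-N l) (1 : κ)) =
        algebraMap (LaurentSeries κ) D (c l) * z l := by
      have h6 : HahnSeries.single (N l) (1 : κ) * (c l * HahnSeries.single (-N l) (1 : κ)) =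
          c l := by
        rw [mul_left_comm, HahnSeries.single_mul_single, add_neg_cancel, mul_one]
        exact mul_one _
      calc _ = algebraMap (LaurentSeries κ) D (HahnSeries.single (N l) (1 : κ) *
            (c l * HahnSeries.single (-N l) (1 : κ))) * z l := by
              rw [mul_right_comm, ← map_mul]
        _ = _ := by rw [h6]
    rwa [h5] at h4
  have h3 : ∀ s : Finset (Fin n),
      TN (κ := κ) (∑ l ∈ s, algebraMap (LaurentSeries κ) D (c l) * z l) := by
    intro s
    induction s using Finset.cons_induction with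
    | empty => rw [Finset.sum_empty]; exact JSm_zero
    | cons a s ha ih => rw [Finset.sum_cons]; exact hadd _ _ (h2 a) ih
  exact h3 Finset.univ

end MP7b0bad
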