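import Pool.Agent.Work.MP_7b0bad_ag.SV.JStmts

set_option autoImplicit false

/-!
# Descent of covers from `K` to `k`
-/

namespace MP7b0bad

open Polynomial

theorem prf_JSpec (hSub : JSub) (hDom : JDom) (hGD : JGD) (hLoc : JLoc) (hCertK : JCertK)
    (hDes : JDes) (hCR : JCR) : JSpec := by
  intro k _ _ K _ _ G _ _ H G₀ h0 BH EH _ _ _ _ _ _ ιH hBH hEH hEHd hιa hιb g hg hcop ψ hψ B E _ _ _
    _ _ _ ι s hB hBd hE hιB hιG hsa hsb
  let δ : G₀ →* G × H := MonoidHom.prod G₀.subtype (Subgroup.inclusion h0)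
  have hδ : (MonoidHom.snd G H).comp δ = Subgroup.inclusion h0 := by
    ext x; rfl
  have hinj : Function.Injective ((MonoidHom.snd G H).comp δ) := by
    rw [hδ]; exact Subgroup.inclusion_injective h0
  obtain ⟨dH, βH, D, _, _, _, q, π, e, hH⟩ := hLoc k H G₀ ((MonoidHom.snd G H).comp δ) hinj BH EH ιH
    hBH hEH hιa (fun τ x => hιb τ x)
  have hgeo : GeoDom K G₀ E := hGD k K (algebraMap k K) g.natDegree ψ hg hψ.c hψ.ord G₀ EH E s hEH
    hEHd hE hcop hsa hsb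
  obtain ⟨C, _, _, _, hC⟩ := hCertK k K (algebraMap k K) G H G₀ δ hinj BH EH ιH dH βH D q π e hBH hH
    g hg ψ hψ B E ι s hB hBd hE hgeo hιB (fun τ x => hιG τ x) hsa hsb
  obtain ⟨g', hg', C', _, _, _, hC'⟩ := hDes k K G H G₀ δ BH hBH dH βH g hg C hC
  have hgp : 0 < g'.natDegree := by rw [hg']; exact hg
  obtain ⟨ψ', hψ'⟩ := hSub k k (RingHom.id k) g' hgp
  obtain ⟨B', _, _, _, E', _, _, _, ι', s', hB', hBd', hE', hι1, hι2, hs1, hs2⟩ :=
    hCR k G H G₀ δ hinj BH EH ιH dH βH D q π e hBH hEH hH g' hgp ψ' hψ' C' hC'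
  have hdom : IsDomain E' := hDom k k (RingHom.id k) g'.natDegree ψ' hgp hψ'.c hψ'.ord G₀ EH E' s'
    hEH hEHd hE' (by rw [hg']; exact hcop) hs1 hs2
  exact ⟨B', _, _, _, E', _, _, _, ι', hB', hBd', hE', hdom, hι1, fun τ x => hι2 τ x⟩

end MP7b0bad
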