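import Pool.Agent.Work.MP_7b0bad_ag.SV.JStmts

set_option autoImplicit false

/-!
# Item JSub: the substitution `1/η ↦ g(1/ξ)`
-/

namespace MP7b0bad

open Polynomial

theorem JSub_atInf_C (K : Type) [Field K] (a : K) : atInf K (C a) = HahnSeries.C a := by
  simp [atInf]

theorem JSub_atInf_X (K : Type) [Field K] :
    atInf K X = HahnSeries.single (-1 : ℤ) (1 : K) := by
  simp [atInf]

theorem JSub_atInf_monomial (K : Type) [Field K] (n : ℕ) (a : K) :
    atInf K (monomial n a) = HahnSeries.single (-(n : ℤ)) a := by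
  rw [atInf, coe_eval₂RingHom, eval₂_monomial, HahnSeries.single_pow, HahnSeries.C_apply,
    HahnSeries.single_mul_single]
  simp

theorem JSub_atInf_coeff (K : Type) [Field K] (f : K[X]) (m : ℤ) :
    (atInf K f).coeff m = if m ≤ 0 then f.coeff (-m).toNat else 0 := by
  induction f using Polynomial.induction_on' with
  | add f g hf hg =>
    rw [map_add, HahnSeries.coeff_add, hf, hg, Polynomial.coeff_add]
    split_ifs <;> simp
  | monomial n a =>
    rw [JSub_atInf_monomial, HahnSeries.coeff_single, Polynomial.coeff_monomial]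
    by_cases h : m = -(n : ℤ)
    · subst h
      simp
    · rw [if_neg h]
      split_ifs with h2 h3
      · exfalso
        omega
      · rfl
      · rfl

/-- the order of the expansion at infinity of a nonconstant polynomial -/
theorem JSub_atInf_order (K : Type) [Field K] (g : K[X]) (hg : 0 < g.natDegree) :
    atInf K g ≠ 0 ∧ (atInf K g).order = -(g.natDegree : ℤ) := by
  have hg0 : g ≠ 0 := by
    rintro rfl
    simp at hg
  have h1 : (atInf K g).coeff (-(g.natDegree : ℤ)) ≠ 0 := by
    rw [JSub_atInf_coeff, if_pos (by omega)]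
    simpa using hg0
  have h0 : atInf K g ≠ 0 := by
    intro h
    rw [h] at h1
    exact h1 rfl
  refine ⟨h0, le_antisymm (HahnSeries.order_le_of_coeff_ne_zero h1) ?_⟩
  by_contra hlt
  push Not at hlt
  have h2 : (atInf K g).coeff (atInf K g).order ≠ 0 := by
    rw [Ne, HahnSeries.coeff_order_eq_zero]
    exact h0
  rw [JSub_atInf_coeff, if_pos (by omega)] at h2
  apply h2
  apply Polynomial.coeff_eq_zero_of_natDegree_lt
  omega

/-- a unit of the ring of the power series has order zero -/
theorem JSub_order_unit (K : Type) [Field K] (u : PowerSeries K) (hu : IsUnit u) :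
    (HahnSeries.ofPowerSeries ℤ K u) ≠ 0 ∧ (HahnSeries.ofPowerSeries ℤ K u).order = 0 := by
  have h1 : PowerSeries.constantCoeff u ≠ 0 := by
    have := hu.map (PowerSeries.constantCoeff (R := K))
    exact this.ne_zero
  have h2 : (HahnSeries.ofPowerSeries ℤ K u).coeff ((0 : ℕ) : ℤ) ≠ 0 := by
    rw [HahnSeries.ofPowerSeries_apply_coeff]
    simpa using h1
  have h0 : HahnSeries.ofPowerSeries ℤ K u ≠ 0 := by
    intro h
    rw [h] at h2
    exact h2 rfl
  refine ⟨h0, le_antisymm (HahnSeries.order_le_of_coeff_ne_zero (by simpa using h2)) ?_⟩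
  by_contra hlt
  push Not at hlt
  have h3 : (HahnSeries.ofPowerSeries ℤ K u).coeff (HahnSeries.ofPowerSeries ℤ K u).order ≠ 0 := by
    rw [Ne, HahnSeries.coeff_order_eq_zero]
    exact h0
  apply h3
  have h4 := PowerSeries.coeff_coe u (HahnSeries.ofPowerSeries ℤ K u).order
  rw [h4, if_pos hlt]

/-- orders of integral powers -/
theorem JSub_order_zpow (K : Type) [Field K] (x : LaurentSeries K) (hx : x ≠ 0) (n : ℤ) :
    (x ^ n).order = n * x.order := by
  have hp : ∀ m : ℕ, (x ^ m).order = m * x.order := by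
    intro m
    induction m with
    | zero => simp
    | succ m ih =>
      rw [pow_succ, HahnSeries.order_mul (pow_ne_zero m hx) hx, ih]
      push_cast
      ring
  rcases Int.eq_nat_or_neg n with ⟨m, rfl | rfl⟩
  · rw [zpow_natCast, hp]
  · have h1 : x ^ (-(m : ℤ)) * x ^ m = 1 := by
      rw [zpow_neg, zpow_natCast]
      exact inv_mul_cancel₀ (pow_ne_zero m hx)
    have h2 := congrArg HahnSeries.order h1
    rw [HahnSeries.order_mul (zpow_ne_zero _ hx) (pow_ne_zero m hx), HahnSeries.order_one, hp] at h2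
    linarith

theorem prf_JSub : JSub := by
  intro k Ω _ _ i g hg
  obtain ⟨ht0, hto⟩ := JSub_atInf_order Ω g hg
  set t : LaurentSeries Ω := atInf Ω g with htdef
  have hti0 : t⁻¹ ≠ 0 := inv_ne_zero ht0
  have htio : (t⁻¹).order = (g.natDegree : ℤ) := by
    have := JSub_order_zpow Ω t ht0 (-1)
    rw [zpow_neg_one] at this
    rw [this, hto]
    ring
  obtain ⟨s, hs, hs0⟩ : ∃ s : PowerSeries Ω, HahnSeries.ofPowerSeries ℤ Ω s = t⁻¹ ∧
      PowerSeries.constantCoeff s = 0 := by
    refine ⟨PowerSeries.X ^ g.natDegree * (t⁻¹).powerSeriesPart,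
      LaurentSeries.X_order_mul_powerSeriesPart htio.symm, ?_⟩
    rw [map_mul, map_pow, PowerSeries.constantCoeff_X, zero_pow (by omega), zero_mul]
  have hss : PowerSeries.HasSubst s := PowerSeries.HasSubst.of_constantCoeff_zero' hs0
  let φ : PowerSeries k →+* PowerSeries Ω :=
    ((PowerSeries.substAlgHom (R := Ω) hss : PowerSeries Ω →ₐ[Ω] PowerSeries Ω) :
      PowerSeries Ω →+* PowerSeries Ω).comp (PowerSeries.map i)
  have hφX : φ PowerSeries.X = s := by
    show (PowerSeries.substAlgHom (R := Ω) hss) (PowerSeries.map i PowerSeries.X) = s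
    rw [PowerSeries.map_X, PowerSeries.substAlgHom_X]
  have hφC : ∀ a : k, φ (PowerSeries.C a) = PowerSeries.C (i a) := by
    intro a
    show (PowerSeries.substAlgHom (R := Ω) hss) (PowerSeries.map i (PowerSeries.C a)) = _
    rw [PowerSeries.map_C]
    exact (PowerSeries.substAlgHom (R := Ω) hss).commutes (i a)
  let φ' : PowerSeries k →+* LaurentSeries Ω := (HahnSeries.ofPowerSeries ℤ Ω).comp φ
  have hφ'X : φ' PowerSeries.X = t⁻¹ := by
    show HahnSeries.ofPowerSeries ℤ Ω (φ PowerSeries.X) = _
    rw [hφX, hs]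
  have hunit : ∀ y : Submonoid.powers (PowerSeries.X : PowerSeries k), IsUnit (φ' y) := by
    rintro ⟨_, n, rfl⟩
    show IsUnit (φ' (PowerSeries.X ^ n))
    rw [map_pow, hφ'X]
    exact (pow_ne_zero n hti0).isUnit
  let ψ : LaurentSeries k →+* LaurentSeries Ω := IsLocalization.lift hunit
  have hψ : ∀ f : PowerSeries k, ψ (HahnSeries.ofPowerSeries ℤ k f) = φ' f := by
    intro f
    exact IsLocalization.lift_eq hunit f
  have hψX : ψ (HahnSeries.single (1 : ℤ) (1 : k)) = t⁻¹ := by
    rw [← HahnSeries.ofPowerSeries_X, hψ, hφ'X]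
  have hψC : ∀ a : k, ψ (HahnSeries.C a) = HahnSeries.C (i a) := by
    intro a
    rw [← HahnSeries.ofPowerSeries_C, hψ]
    show HahnSeries.ofPowerSeries ℤ Ω (φ (PowerSeries.C a)) = _
    rw [hφC, HahnSeries.ofPowerSeries_C]
  have hψs : ∀ n : ℤ, ψ (HahnSeries.single n (1 : k)) = (t⁻¹) ^ n := by
    intro n
    rw [RatFunc.single_zpow, map_zpow₀, hψX]
  refine ⟨ψ, hψC, ?_, ?_⟩
  · intro f
    have h : ψ.comp (atInf k) = (atInf Ω).comp ((Polynomial.compRingHom g).comp (mapRingHom i)) := by
      refine Polynomial.ringHom_ext ?_ ?_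
      · intro a
        show ψ (atInf k (C a)) = atInf Ω (((C a).map i).comp g)
        rw [JSub_atInf_C, hψC, map_C, C_comp, JSub_atInf_C]
      · show ψ (atInf k X) = atInf Ω ((X.map i).comp g)
        rw [JSub_atInf_X, hψs, map_X, X_comp, zpow_neg_one, inv_inv]
    exact DFunLike.congr_fun h f
  · intro a ha
    have h1 : HahnSeries.single a.order (1 : k) * HahnSeries.ofPowerSeries ℤ k a.powerSeriesPart
        = a := LaurentSeries.single_order_mul_powerSeriesPart a
    have hu : IsUnit a.powerSeriesPart := by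
      rw [PowerSeries.isUnit_iff_constantCoeff]
      have : PowerSeries.coeff 0 a.powerSeriesPart ≠ 0 := by
        rw [LaurentSeries.powerSeriesPart_coeff]
        simpa using ha
      rw [PowerSeries.coeff_zero_eq_constantCoeff_apply] at this
      exact this.isUnit
    obtain ⟨h20, h2⟩ := JSub_order_unit Ω (φ a.powerSeriesPart) (hu.map φ)
    have h3 : ψ a = (t⁻¹) ^ a.order * HahnSeries.ofPowerSeries ℤ Ω (φ a.powerSeriesPart) := by
      conv_lhs => rw [← h1]
      rw [map_mul, hψs, hψ]
      rfl
    rw [h3, HahnSeries.order_mul (zpow_ne_zero _ hti0) h20, h2, JSub_order_zpow Ω _ hti0, htio]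
    ring

end MP7b0bad
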