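import Pool.Agent.Work.MP_7b0bad_ag.SV.JStmts

set_option autoImplicit false

/-!
# Topologically nilpotent elements give `Small`
-/

namespace MP7b0bad

open Polynomial

theorem JTNS_mul {κ : Type} [Field κ] (u v : LaurentSeries κ) (hu : ∀ m : ℤ, m ≤ 0 → u.coeff m = 0)
    (hv : ∀ m : ℤ, m < 0 → v.coeff m = 0) (m : ℤ) (hm : m ≤ 0) : (u * v).coeff m = 0 := by
  rw [HahnSeries.coeff_mul]
  refine Finset.sum_eq_zero fun x hx => ?_
  rw [Finset.mem_antidiagonal] at hx
  obtain ⟨-, -, h⟩ := hx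
  rcases le_or_gt x.1 0 with h1 | h1
  · rw [hu _ h1, zero_mul]
  · rw [hv x.2 (by omega), mul_zero]

theorem JTNS_int {κ : Type} [Field κ] (v : LaurentSeries κ) (hv : ∀ m : ℤ, m < 0 → v.coeff m = 0)
    (n : ℕ) : ∀ m : ℤ, m < 0 → (v ^ n).coeff m = 0 := by
  induction n with
  | zero =>
    intro m hm
    rw [pow_zero, HahnSeries.coeff_one, if_neg (by omega)]
  | succ n ih =>
    intro m hm
    rw [pow_succ, HahnSeries.coeff_mul]
    refine Finset.sum_eq_zero fun x hx => ?_
    rw [Finset.mem_antidiagonal] at hx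
    obtain ⟨-, -, h⟩ := hx
    rcases lt_or_ge x.1 0 with h1 | h1
    · rw [ih _ h1, zero_mul]
    · rw [hv x.2 (by omega), mul_zero]

/-- topologically nilpotent constants -/
theorem JTNS_const {κ : Type} [Field κ] {D : Type} [CommRing D] [Algebra (LaurentSeries κ) D]
    (hinj : Function.Injective (algebraMap (LaurentSeries κ) D)) (a : LaurentSeries κ)
    (ha : TN (κ := κ) (algebraMap (LaurentSeries κ) D a)) (m : ℤ) (hm : m ≤ 0) :
    a.coeff m = 0 := by
  by_contra hne
  have ha0 : a ≠ 0 := by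
    rintro rfl
    exact hne rfl
  have hord : a.order ≤ 0 := (HahnSeries.order_le_of_coeff_ne_zero hne).trans hm
  have hb0 : a⁻¹ ≠ 0 := inv_ne_zero ha0
  have hbo : 0 ≤ (a⁻¹).order := by
    have h1 : (a * a⁻¹).order = a.order + (a⁻¹).order := HahnSeries.order_mul ha0 hb0
    rw [mul_inv_cancel₀ ha0, HahnSeries.order_one] at h1
    omega
  have hb : ∀ m : ℤ, m < 0 → (a⁻¹).coeff m = 0 := fun m hm =>
    HahnSeries.coeff_eq_zero_of_lt_order (lt_of_lt_of_le hm hbo)
  obtain ⟨n, c, h1, h2, h3⟩ := ha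
  have h4 : a ^ n + ∑ i : Fin n, c i * a ^ (n - 1 - (i : ℕ)) = 0 := by
    apply hinj
    rw [map_zero, ← h3, map_add, map_pow, map_sum]
    congr 1
    refine Finset.sum_congr rfl fun i _ => ?_
    rw [map_mul, map_pow]
  have h5 : 1 + ∑ i : Fin n, c i * a⁻¹ ^ ((i : ℕ) + 1) = 0 := by
    have h6 : (a ^ n + ∑ i : Fin n, c i * a ^ (n - 1 - (i : ℕ))) * a⁻¹ ^ n = 0 := by
      rw [h4, zero_mul]
    rw [← h6, add_mul, ← mul_pow, mul_inv_cancel₀ ha0, one_pow, Finset.sum_mul]
    congr 1
    refine Finset.sum_congr rfl fun i _ => ?_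
    have h7 : n = (n - 1 - (i : ℕ)) + ((i : ℕ) + 1) := by omega
    have h8 : a⁻¹ ^ n = a⁻¹ ^ (n - 1 - (i : ℕ)) * a⁻¹ ^ ((i : ℕ) + 1) := by
      rw [← pow_add, ← h7]
    rw [h8, mul_assoc, ← mul_assoc (a ^ (n - 1 - (i : ℕ))), ← mul_pow, mul_inv_cancel₀ ha0,
      one_pow, one_mul]
  have h9 : (1 + ∑ i : Fin n, c i * a⁻¹ ^ ((i : ℕ) + 1)).coeff 0 = 1 := by
    rw [HahnSeries.coeff_add, HahnSeries.coeff_one, if_pos rfl, HahnSeries.coeff_sum,
      Finset.sum_eq_zero, add_zero]
    intro i _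
    exact JTNS_mul _ _ (h2 i) (JTNS_int _ hb _) 0 le_rfl
  rw [h5] at h9
  exact zero_ne_one h9

theorem JTNS_zero {κ : Type} [Field κ] {D : Type} [CommRing D] [Algebra (LaurentSeries κ) D] :
    TN (κ := κ) (0 : D) := by
  refine ⟨1, fun _ => 0, one_pos, fun _ _ _ => rfl, ?_⟩
  simp

theorem prf_JTNS (hQTN : QTN) : JTNS := by
  intro κ _ Γ _ _ C D _ _ _ _ _ _ q hC hD hq hqa d j hj
  classical
  obtain ⟨hint, hadd, hmul, hti, hact, -, -, -, -⟩ := hQTN κ Γ D hD
  have hfin : Fintype Γ := Fintype.ofFinite Γ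
  set ξ : D := algebraMap (LaurentSeries κ) D (HahnSeries.single (d : ℤ) (1 : κ)) with hξ
  -- the polynomial
  set F : C[X] := ∏ γ : Γ, (X + Polynomial.C (γ • (-j))) with hF
  set N := Fintype.card Γ with hN
  have hNpos : 0 < N := Fintype.card_pos
  have hcoef : ∀ k, k ≤ N → F.coeff k =
      ∑ t ∈ (Finset.univ : Finset Γ).powersetCard (N - k), ∏ γ ∈ t, γ • (-j) := by
    intro k hk
    have h := Finset.prod_X_add_C_coeff (Finset.univ : Finset Γ) (fun γ => γ • (-j)) (k := k)
      (by rw [Finset.card_univ]; exact hk)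
    rw [Finset.card_univ] at h
    exact h
  have hmon : F.Monic := monic_prod_of_monic _ _ fun γ _ => monic_X_add_C _
  have hnt : Nontrivial C := hC.inj.nontrivial
  have hdeg : F.natDegree = N := by
    rw [hF, natDegree_prod_of_monic _ _ fun γ _ => monic_X_add_C _]
    simp only [natDegree_X_add_C, Finset.sum_const, Finset.card_univ, smul_eq_mul, mul_one, hN]
  have hinv : ∀ (g : Γ) (k : ℕ), g • F.coeff k = F.coeff k := by
    intro g k
    rcases le_or_gt k N with hk | hk
    · rw [hcoef k hk, Finset.smul_sum]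
      refine Finset.sum_bij' (fun t _ => t.map (Equiv.mulLeft g).toEmbedding)
        (fun t _ => t.map (Equiv.mulLeft g⁻¹).toEmbedding) ?_ ?_ ?_ ?_ ?_
      · intro t ht
        rw [Finset.mem_powersetCard] at ht ⊢
        exact ⟨Finset.subset_univ _, by rw [Finset.card_map]; exact ht.2⟩
      · intro t ht
        rw [Finset.mem_powersetCard] at ht ⊢
        exact ⟨Finset.subset_univ _, by rw [Finset.card_map]; exact ht.2⟩
      · intro t _
        rw [Finset.map_map]
        ext x
        simp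
      · intro t _
        rw [Finset.map_map]
        ext x
        simp
      · intro t _
        rw [Finset.prod_map, Finset.smul_prod']
        refine Finset.prod_congr rfl fun x _ => ?_
        rw [smul_smul]
        rfl
    · rw [coeff_eq_zero_of_natDegree_lt (by omega), smul_zero]
  have hex : ∀ k, ∃ a : κ[X], algebraMap κ[X] C a = F.coeff k := fun k =>
    hC.inv _ fun g => hinv g k
  choose a ha using hex
  -- nilpotency
  have hw : ∀ γ : Γ, TN (κ := κ) (γ • (ξ * q (-j))) := by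
    intro γ
    apply hact
    have h1 : IntL (κ := κ) (-1 : D) := by
      refine ⟨1, fun _ => 1, one_pos, fun _ m hm => ?_, ?_⟩
      · rw [HahnSeries.coeff_one, if_neg (by omega)]
      · simp
    have h2 := hmul _ _ hj h1
    have h3 : ξ * q (-j) = ξ * q j * (-1) := by rw [map_neg]; ring
    rw [h3]
    exact h2
  have hprod : ∀ t : Finset Γ, t.Nonempty → TN (κ := κ) (∏ γ ∈ t, γ • (ξ * q (-j))) := by
    intro t ht
    induction ht using Finset.Nonempty.cons_induction with
    | singleton x => rw [Finset.prod_singleton]; exact hw x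
    | cons x s hx hs ih =>
      rw [Finset.prod_cons]
      exact hmul _ _ (hw x) (hti _ ih)
  have hTN : ∀ s : ℕ, 0 < s → TN (κ := κ)
      (∑ t ∈ (Finset.univ : Finset Γ).powersetCard s, ∏ γ ∈ t, γ • (ξ * q (-j))) := by
    intro s hs
    refine Finset.sum_induction _ (TN (κ := κ)) (fun a b => hadd a b) JTNS_zero ?_
    intro t ht
    rw [Finset.mem_powersetCard] at ht
    refine hprod t ?_
    rw [← Finset.card_pos, ht.2]
    exact hs
  have hcomm : ∀ γ : Γ, γ • ξ = ξ := fun γ => hD.comm _ _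
  have hkey : ∀ s : ℕ, s ≤ N → algebraMap (LaurentSeries κ) D
      (HahnSeries.single ((d * s : ℕ) : ℤ) (1 : κ) * atInf κ (a (N - s))) =
      ∑ t ∈ (Finset.univ : Finset Γ).powersetCard s, ∏ γ ∈ t, γ • (ξ * q (-j)) := by
    intro s hs
    rw [map_mul, ← hq, ha, hcoef _ (by omega), map_sum, Finset.mul_sum]
    have h1 : N - (N - s) = s := by omega
    rw [h1]
    refine Finset.sum_congr rfl fun t ht => ?_
    rw [Finset.mem_powersetCard] at ht
    rw [map_prod]
    have h2 : algebraMap (LaurentSeries κ) D (HahnSeries.single ((d * s : ℕ) : ℤ) (1 : κ)) =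
        ξ ^ s := by
      rw [hξ, ← map_pow, HahnSeries.single_pow, one_pow]
      congr 2
      push_cast
      rw [nsmul_eq_mul, mul_comm]
    rw [h2, ← ht.2, ← Finset.prod_const, ← Finset.prod_mul_distrib]
    refine Finset.prod_congr rfl fun γ _ => ?_
    rw [hqa, smul_mul', hcomm]
  have hdeg2 : ∀ s : ℕ, 0 < s → s ≤ N → (a (N - s)).degree < ((s * d : ℕ) : WithBot ℕ) := by
    intro s hs hsN
    rw [degree_lt_iff_coeff_zero]
    intro k hk
    have h1 : TN (κ := κ) (algebraMap (LaurentSeries κ) D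
      (HahnSeries.single ((d * s : ℕ) : ℤ) (1 : κ) * atInf κ (a (N - s)))) := by
      rw [hkey s hsN]
      exact hTN s hs
    have h2 := JTNS_const hD.inj _ h1 (((d * s : ℕ) : ℤ) - k) (by
      rw [mul_comm] at hk
      omega)
    have h3 : (((d * s : ℕ) : ℤ) - k) = (-(k : ℤ)) + ((d * s : ℕ) : ℤ) := by ring
    rw [h3, HahnSeries.coeff_single_mul_add, one_mul, C2b_atInf_coeff, if_pos (by omega)] at h2
    simpa using h2
  refine ⟨N, fun i => a (N - ((i : ℕ) + 1)), hNpos, fun i => hdeg2 _ (by omega) i.2, ?_⟩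
  have h1 : F.eval j = 0 := by
    rw [hF, eval_prod]
    refine Finset.prod_eq_zero (Finset.mem_univ (1 : Γ)) ?_
    rw [one_smul, eval_add, eval_X, eval_C, add_neg_cancel]
  rw [eval_eq_sum_range, hdeg, Finset.sum_range_succ] at h1
  have h2 : F.coeff N = 1 := by
    have h := hmon
    rw [Monic, leadingCoeff, hdeg] at h
    exact h
  rw [h2, one_mul, add_comm] at h1
  rw [← h1]
  congr 1
  rw [← Finset.sum_range_reflect, Finset.sum_range]
  refine Finset.sum_congr rfl fun i _ => ?_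
  have h3 : N - 1 - (i : ℕ) = N - ((i : ℕ) + 1) := by omega
  rw [ha, h3]

end MP7b0bad
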