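import Pool.Agent.Work.MP_7b0bad_ag.SV.JJ
import Pool.Agent.Work.MP_7b0bad_ag.SV.JSub
import Pool.Agent.Work.MP_7b0bad_ag.SV.JDeg
import Pool.Agent.Work.MP_7b0bad_ag.SV.JDom
import Pool.Agent.Work.MP_7b0bad_ag.SV.JGD
import Pool.Agent.Work.MP_7b0bad_ag.SV.JGeo
import Pool.Agent.Work.MP_7b0bad_ag.SV.JTNS
import Pool.Agent.Work.MP_7b0bad_ag.SV.JSm
import Pool.Agent.Work.MP_7b0bad_ag.SV.JApp
import Pool.Agent.Work.MP_7b0bad_ag.SV.JIdK
import Pool.Agent.Work.MP_7b0bad_ag.SV.JLoc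
import Pool.Agent.Work.MP_7b0bad_ag.SV.JCertK
import Pool.Agent.Work.MP_7b0bad_ag.SV.JDes
import Pool.Agent.Work.MP_7b0bad_ag.SV.JIdL
import Pool.Agent.Work.MP_7b0bad_ag.SV.JIdem
import Pool.Agent.Work.MP_7b0bad_ag.SV.JCR
import Pool.Agent.Work.MP_7b0bad_ag.SV.JSpec
import Pool.Agent.Work.MP_7b0bad_ag.SV.JPert
import Pool.Agent.Work.MP_7b0bad_ag.Bd.B12
import Pool.Agent.Work.MP_7b0bad_ag.Bd.B15

set_option autoImplicit false

/-!
# The join: assembly
-/

namespace MP7b0bad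

theorem all_JDom : JDom := prf_JDom prf_JDeg all_YComp
theorem all_JGD : JGD := prf_JGD all_JDom all_QBC
theorem all_JGeo : JGeo := prf_JGeo all_QGL
theorem all_JTNS : JTNS := prf_JTNS all_QTN
theorem all_JSm : JSm := prf_JSm all_QTN
theorem all_JApp : JApp := prf_JApp all_JSm all_QBC all_QFree
theorem all_JIdK : JIdK := prf_JIdK all_QIdem
theorem all_JLoc : JLoc := prf_JLoc all_QBC all_JIdK all_JApp
theorem all_JCertK : JCertK :=
  prf_JCertK all_QBC all_QTen all_QTenG all_JIdK all_JApp all_JTNS all_QTN all_JGeo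
theorem all_JDes : JDes := prf_JDes all_QSpr all_QBC
theorem all_JIdL : JIdL := prf_JIdL all_QTN
theorem all_JIdem : JIdem := prf_JIdem all_JIdL all_QTN
theorem all_JCR : JCR := prf_JCR all_QBC all_QSub all_QSTN all_JIdem all_QTN all_QQuo all_QDomB
theorem all_JSpec : JSpec :=
  prf_JSpec prf_JSub all_JDom all_JGD all_JLoc all_JCertK all_JDes all_JCR
theorem all_JPert : JPert := prf_JPert all_JIdem all_QTN all_QBC all_QTen all_QQuo
theorem all_JJ : JJ := prf_JJ all_JSpec all_JPert prf_JSub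

end MP7b0bad
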