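import Pool.Agent.Work.MP_7b0bad_ag.SV.JA

set_option autoImplicit false

/-!
# Join with arbitrary outer group, part 2: proofs
-/

namespace MP7b0bad.JP

open Polynomial

/-! ## QP1 -/

section

variable {k : Type} [Field k] {N : ℕ} {ξ : Fin N → Fk k} {P : Type} [Group P]
  {P' : Fin N → Type} [∀ i, Group (P' i)] {π : ∀ i, P' i →* P}
  {Q : Fin N → Type} [∀ i, CommRing (Q i)] [∀ i, Algebra (Fk k) (Q i)]
  [∀ i, MulSemiringAction (P' i) (Q i)]

/-- functions of the form `(γ, i) ↦ ∑ s_m a_i(γ⁻¹ e_m)` with a finite index type -/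
def QP1_P (O : Outer k N ξ P P' π Q) (u : P → ∀ i, Q i) : Prop :=
  ∃ (I : Type) (_ : Fintype I) (s : I → Fk k) (e : I → O.A), (∀ m, s m ∈ Ss k) ∧
    ∀ (γ : P) i, u γ i = ∑ m, algebraMap (Fk k) (Q i) (s m) * O.a i (γ⁻¹ • e m)

theorem QP1_P_of_mem (O : Outer k N ξ P P' π Q) (u : P → ∀ i, Q i) (hu : u ∈ SM O) :
    QP1_P O u := by
  unfold SM at hu
  induction hu using Subring.closure_induction with
  | mem x hx =>
    rcases hx with ⟨s, hs, rfl⟩ | ⟨e, rfl⟩
    · refine ⟨Unit, inferInstance, fun _ => s, fun _ => 1, fun _ => hs, fun γ i => ?_⟩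
      simp [smul_one]
    · refine ⟨Unit, inferInstance, fun _ => 1, fun _ => e, fun _ => (Ss k).one_mem, fun γ i => ?_⟩
      simp
  | zero =>
    refine ⟨Empty, inferInstance, fun x => x.elim, fun x => x.elim, fun x => x.elim, fun γ i => ?_⟩
    simp
  | one =>
    refine ⟨Unit, inferInstance, fun _ => 1, fun _ => 1, fun _ => (Ss k).one_mem, fun γ i => ?_⟩
    simp [smul_one]
  | add x y _ _ hx hy =>
    obtain ⟨I, _, r, b, h1, h2⟩ := hx
    obtain ⟨J, _, s, d, h3, h4⟩ := hy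
    refine ⟨I ⊕ J, inferInstance, Sum.elim r s, Sum.elim b d, ?_, fun γ i => ?_⟩
    · rintro (m | m)
      · exact h1 m
      · exact h3 m
    · rw [Pi.add_apply, Pi.add_apply, h2, h4, Fintype.sum_sum_type]
      rfl
  | neg x _ hx =>
    obtain ⟨I, _, r, b, h1, h2⟩ := hx
    refine ⟨I, inferInstance, fun m => - r m, b, fun m => (Ss k).neg_mem (h1 m), fun γ i => ?_⟩
    rw [Pi.neg_apply, Pi.neg_apply, h2, ← Finset.sum_neg_distrib]
    refine Finset.sum_congr rfl fun m _ => ?_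
    rw [map_neg, neg_mul]
  | mul x y _ _ hx hy =>
    obtain ⟨I, _, r, b, h1, h2⟩ := hx
    obtain ⟨J, _, s, d, h3, h4⟩ := hy
    refine ⟨I × J, inferInstance, fun m => r m.1 * s m.2, fun m => b m.1 * d m.2,
      fun m => (Ss k).mul_mem (h1 m.1) (h3 m.2), fun γ i => ?_⟩
    rw [Pi.mul_apply, Pi.mul_apply, h2, h4, Finset.sum_mul_sum, Fintype.sum_prod_type]
    refine Finset.sum_congr rfl fun a _ => Finset.sum_congr rfl fun b _ => ?_
    rw [map_mul, smul_mul', map_mul]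
    ring

theorem QP1_mem_of_P (O : Outer k N ξ P P' π Q) (u : P → ∀ i, Q i) (hu : QP1_P O u) :
    u ∈ SM O := by
  obtain ⟨I, _, s, e, h1, h2⟩ := hu
  have : u = ∑ m, (fun (_ : P) i => algebraMap (Fk k) (Q i) (s m)) *
      (fun (γ : P) i => O.a i (γ⁻¹ • e m)) := by
    funext γ i
    rw [h2, Finset.sum_apply, Finset.sum_apply]
    rfl
  rw [this]
  refine Subring.sum_mem _ fun m _ => Subring.mul_mem _ ?_ ?_
  · exact Subring.subset_closure (Or.inl ⟨s m, h1 m, rfl⟩)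
  · exact Subring.subset_closure (Or.inr ⟨e m, rfl⟩)

theorem QP1_iff (O : Outer k N ξ P P' π Q) (u : P → ∀ i, Q i) :
    u ∈ SM O ↔ ∃ (n : ℕ) (s : Fin n → Fk k) (e : Fin n → O.A), (∀ m, s m ∈ Ss k) ∧
    ∀ (γ : P) i, u γ i = ∑ m, algebraMap (Fk k) (Q i) (s m) * O.a i (γ⁻¹ • e m) := by
  constructor
  · intro hu
    obtain ⟨I, _, s, e, h1, h2⟩ := QP1_P_of_mem O u hu
    refine ⟨Fintype.card I, fun m => s ((Fintype.equivFin I).symm m),
      fun m => e ((Fintype.equivFin I).symm m), fun m => h1 _, fun γ i => ?_⟩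
    rw [h2]
    exact (Equiv.sum_comp (Fintype.equivFin I).symm
      (fun m => algebraMap (Fk k) (Q i) (s m) * O.a i (γ⁻¹ • e m))).symm
  · rintro ⟨n, s, e, h1, h2⟩
    exact QP1_mem_of_P O u ⟨Fin n, inferInstance, s, e, h1, h2⟩

end

theorem prf_QP1 : QP1 := by
  intro k _ N ξ P _ P' _ π Q _ _ _ O u
  refine ⟨QP1_iff O u, fun hu hQ γ i τ => ?_, fun hu δ => ?_⟩
  · obtain ⟨n, s, e, hs, he⟩ := (QP1_iff O u).1 hu
    rw [he, he, Finset.smul_sum]
    refine Finset.sum_congr rfl fun m _ => ?_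
    rw [smul_mul', (hQ i).comm, ← O.a_act, smul_smul, mul_inv_rev, mul_inv_cancel_left]
  · obtain ⟨n, s, e, hs, he⟩ := (QP1_iff O u).1 hu
    refine (QP1_iff O _).2 ⟨n, s, fun m => δ⁻¹ • e m, hs, fun γ i => ?_⟩
    rw [he]
    refine Finset.sum_congr rfl fun m _ => ?_
    rw [smul_smul, mul_inv_rev]

/-! ## QB2 -/

theorem prf_QB2 (hQGL : QGL) (hQFree : QFree) (hQP1 : QP1) (hQC2a : QC2a) (hQVad : QVad) :
    QB2 := by
  intro k _ N V ξ P _ _ P' _ _ π Q _ _ _ O hD hN hQ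
  classical
  have : Module.Free (LaurentSeries k)[X] O.A := hQFree (LaurentSeries k) P O.A O.gal
  have : Module.Finite (LaurentSeries k)[X] O.A := gal_finite O.gal
  let β0 := Module.Free.chooseBasis (LaurentSeries k)[X] O.A
  let β := β0.reindex (Fintype.equivFin (Module.Free.ChooseBasisIndex (LaurentSeries k)[X] O.A))
  have key : ∀ i, ∀ v : P → Q i, (∀ (γ : P) (h : P' i), h • v (γ * π i h) = v γ) →
      ∃! c : Fin _ → Fk k, ∀ γ : P, v γ =
        ∑ l, algebraMap (Fk k) (Q i) (c l) * O.a i (γ⁻¹ • β l) := fun i =>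
    hQGL (LaurentSeries k)[X] (Fk k) (eval₂RingHom (KF k) (ξ i)) P (P' i) (π i) O.A (Q i) (O.a i)
      O.gal (hQ i).comm (hQ i).inj (hQ i).inv (O.a_alg i) (O.a_act i) _ β
  have hC := (hQC2a k N V ξ hD).1
  have part1 : ∀ u : P → ∀ i, Q i, (∀ (γ : P) i (τ : P' i), τ • u (γ * π i τ) i = u γ i) →
      ∃! s : Fin _ → Fin N → Fk k, ∀ (γ : P) i, u γ i =
        ∑ l, algebraMap (Fk k) (Q i) (∑ j, s l j * ξ i ^ (j : ℕ)) * O.a i (γ⁻¹ • β l) := by
    intro u hu
    choose c hc huniq using fun i => key i (fun γ => u γ i) (fun γ h => hu γ i h)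
    choose s hs hsu using fun l => hC (fun i => c i l)
    refine ⟨s, fun γ i => ?_, fun s' hs' => ?_⟩
    · rw [hc i γ]
      refine Finset.sum_congr rfl fun l _ => ?_
      rw [← hs l i]
    · funext l
      refine hsu l (s' l) (fun i => ?_)
      have h1 := huniq i (fun l => ∑ j, s' l j * ξ i ^ (j : ℕ)) (fun γ => hs' γ i)
      show c i l = _
      rw [← h1]
  refine ⟨_, β, part1, fun s => ⟨fun hmem => ?_, fun hs => ?_⟩⟩
  · obtain ⟨n', s', e, hs', he⟩ := (hQP1 k N ξ P P' π Q O _).1.1 hmem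
    have heq := (hQP1 k N ξ P P' π Q O _).2.1 hmem hQ
    obtain ⟨s0, hs0, huniq⟩ := part1 (fun (γ : P) i =>
      ∑ l, algebraMap (Fk k) (Q i) (∑ j, s l j * ξ i ^ (j : ℕ)) * O.a i (γ⁻¹ • β l)) heq
    have hdeg := hD.deg
    have hvad : ∀ f : (LaurentSeries k)[X], ∃ g : Fin N → (LaurentSeries k)[X],
        f = ∑ j, (g j).comp V * X ^ (j : ℕ) := by
      subst hdeg
      exact fun f => hQVad (LaurentSeries k) V f hN
    choose g hg using hvad
    have hev : ∀ (f : (LaurentSeries k)[X]) (i : Fin N), f.eval₂ (KF k) (ξ i) =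
        ∑ j, jj k (g f j) * ξ i ^ (j : ℕ) := by
      intro f i
      conv_lhs => rw [hg f]
      rw [eval₂_finsetSum]
      refine Finset.sum_congr rfl fun j _ => ?_
      rw [eval₂_mul, eval₂_comp, hD.root i, eval₂_X_pow]
      rfl
    have h1 := huniq s (fun γ i => rfl)
    have h2 := huniq (fun l j => ∑ m, s' m * jj k (g (β.repr (e m) l) j)) (by
      intro γ i
      rw [he γ i]
      have h3 : ∀ m, O.a i (γ⁻¹ • e m) =
          ∑ l, algebraMap (Fk k) (Q i) (∑ j, jj k (g (β.repr (e m) l) j) * ξ i ^ (j : ℕ)) *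
            O.a i (γ⁻¹ • β l) := by
        intro m
        conv_lhs => rw [← β.sum_repr (e m)]
        rw [Finset.smul_sum, map_sum]
        refine Finset.sum_congr rfl fun l _ => ?_
        rw [Algebra.smul_def, smul_mul', O.gal.comm, map_mul, O.a_alg, hev]
      simp only [h3]
      simp only [Finset.mul_sum]
      rw [Finset.sum_comm]
      refine Finset.sum_congr rfl fun l _ => ?_
      rw [← Finset.sum_congr rfl fun m _ => mul_assoc _ _ _, ← Finset.sum_mul]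
      congr 1
      rw [← Finset.sum_congr rfl fun m _ => map_mul _ _ _, ← map_sum]
      congr 1
      simp only [Finset.mul_sum, Finset.sum_mul]
      rw [Finset.sum_comm]
      refine Finset.sum_congr rfl fun j _ => Finset.sum_congr rfl fun m _ => ?_
      ring)
    intro l j
    rw [h1, ← h2]
    exact Subring.sum_mem _ fun m _ => Subring.mul_mem _ (hs' m) ((prf_A8 k).2.1 _).2
  · have h1 : (fun (γ : P) i => ∑ l, algebraMap (Fk k) (Q i) (∑ j, s l j * ξ i ^ (j : ℕ)) *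
        O.a i (γ⁻¹ • β l)) = ∑ l, ∑ j, (fun (_ : P) i => algebraMap (Fk k) (Q i) (s l j)) *
        (fun (γ : P) i => O.a i (γ⁻¹ • (algebraMap (LaurentSeries k)[X] O.A (X ^ (j : ℕ)) * β l))) := by
      funext γ i
      rw [Finset.sum_apply, Finset.sum_apply]
      refine Finset.sum_congr rfl fun l _ => ?_
      rw [Finset.sum_apply, Finset.sum_apply, map_sum, Finset.sum_mul]
      refine Finset.sum_congr rfl fun j _ => ?_
      rw [Pi.mul_apply, Pi.mul_apply, smul_mul', O.gal.comm, map_mul (O.a i), O.a_alg,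
        eval₂_X_pow, map_mul (algebraMap (Fk k) (Q i)), mul_assoc]
    rw [h1]
    refine Subring.sum_mem _ fun l _ => Subring.sum_mem _ fun j _ => Subring.mul_mem _ ?_ ?_
    · exact Subring.subset_closure (Or.inl ⟨s l j, hs l j, rfl⟩)
    · exact Subring.subset_closure (Or.inr ⟨_, rfl⟩)

/-! ## QV1 -/

/-- `SM` is stable under translations -/
theorem QV1_tr {k : Type} [Field k] {N : ℕ} {ξ : Fin N → Fk k} {P : Type} [Group P]
    {P' : Fin N → Type} [∀ i, Group (P' i)] {π : ∀ i, P' i →* P}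
    {Q : Fin N → Type} [∀ i, CommRing (Q i)] [∀ i, Algebra (Fk k) (Q i)]
    [∀ i, MulSemiringAction (P' i) (Q i)] (O : Outer k N ξ P P' π Q) (δ : P) {u : P → ∀ i, Q i}
    (hu : u ∈ SM O) : (fun γ => u (δ * γ)) ∈ SM O := by
  unfold SM at hu ⊢
  induction hu using Subring.closure_induction with
  | mem x hx =>
    rcases hx with ⟨r, hr, rfl⟩ | ⟨b, rfl⟩
    · exact Subring.subset_closure (Or.inl ⟨r, hr, rfl⟩)
    · refine Subring.subset_closure (Or.inr ⟨δ⁻¹ • b, ?_⟩)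
      funext γ i
      beta_reduce
      rw [mul_inv_rev, mul_smul]
  | zero => exact Subring.zero_mem _
  | one => exact Subring.one_mem _
  | add x y _ _ hx hy => exact Subring.add_mem _ hx hy
  | neg x _ hx => exact Subring.neg_mem _ hx
  | mul x y _ _ hx hy => exact Subring.mul_mem _ hx hy

section

variable {k : Type} [Field k] {N : ℕ} {ξ : Fin N → Fk k} {G : Type} [Group G] {P : Subgroup G}
  {P' : Fin N → Subgroup G} {hP : ∀ i, P' i ≤ P}
  {Q : Fin N → Type} [∀ i, CommRing (Q i)] [∀ i, Algebra (Fk k) (Q i)]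
  [∀ i, MulSemiringAction (P' i) (Q i)]
  (O : Outer k N ξ P (fun i => P' i) (fun i => Subgroup.inclusion (hP i)) Q)
  (hQ : ∀ i, GalAlg (Fk k) (P' i) (Q i))
  {n : ℕ} (β : Fin n → O.A)
  (r : G ⧸ P → G)
  (hr : ∀ g : G, (r (QuotientGroup.mk g))⁻¹ * g ∈ P)

/-- the element of `P` with `g = r γ` -/
def QV1_gam (g : G) : P := ⟨(r (QuotientGroup.mk g))⁻¹ * g, hr g⟩

/-- the function with given coordinates -/
noncomputable def QV1_fun (a : (G ⧸ P) × Fin n × Fin N → Fk k) : G → ∀ i, Q i :=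
  fun g i => ∑ l, algebraMap (Fk k) (Q i) (∑ j, a (QuotientGroup.mk g, l, j) * ξ i ^ (j : ℕ)) *
    O.a i ((QV1_gam r hr g)⁻¹ • β l)

include hQ in
theorem QV1_mem (a : (G ⧸ P) × Fin n × Fin N → Fk k) :
    QV1_fun O β r hr a ∈ VQ (G := G) hQ := by
  intro g i τ
  have h1 : (QuotientGroup.mk (g * τ) : G ⧸ P) = QuotientGroup.mk g := by
    rw [QuotientGroup.eq, mul_inv_rev, inv_mul_cancel_right]
    exact P.inv_mem (hP i τ.2)
  have h2 : QV1_gam r hr (g * τ) = QV1_gam r hr g * Subgroup.inclusion (hP i) τ := by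
    apply Subtype.ext
    change (r (QuotientGroup.mk (g * τ)))⁻¹ * (g * τ) = (r (QuotientGroup.mk g))⁻¹ * g * τ
    rw [h1, mul_assoc]
  unfold QV1_fun
  rw [Finset.smul_sum]
  refine Finset.sum_congr rfl fun l _ => ?_
  rw [h1, h2, smul_mul', (hQ i).comm, ← O.a_act, mul_inv_rev, mul_smul, smul_inv_smul]

/-- the linear map from coordinates to equivariant functions -/
noncomputable def QV1_lin : ((G ⧸ P) × Fin n × Fin N → Fk k) →ₗ[Fk k] VQ (G := G) hQ where
  toFun a := ⟨QV1_fun O β r hr a, QV1_mem O hQ β r hr a⟩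
  map_add' a b := by
    apply Subtype.ext
    funext g i
    change QV1_fun O β r hr (a + b) g i = QV1_fun O β r hr a g i + QV1_fun O β r hr b g i
    unfold QV1_fun
    rw [← Finset.sum_add_distrib]
    refine Finset.sum_congr rfl fun l _ => ?_
    simp only [Pi.add_apply, add_mul, Finset.sum_add_distrib, map_add]
  map_smul' x a := by
    apply Subtype.ext
    funext g i
    change QV1_fun O β r hr (x • a) g i = x • QV1_fun O β r hr a g i
    rw [Algebra.smul_def]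
    unfold QV1_fun
    rw [Finset.mul_sum]
    refine Finset.sum_congr rfl fun l _ => ?_
    simp only [Pi.smul_apply, smul_eq_mul, mul_assoc, ← Finset.mul_sum, map_mul]

end

theorem prf_QV1 (hQB2 : QB2) : QV1 := by
  classical
  intro k _ N V ξ G _ _ P P' hP Q _ _ _ O hQ hD hN
  have hfin : Finite P := inferInstance
  obtain ⟨n, β, hβ1, hβ2⟩ := hQB2 k N V ξ P (fun i => P' i) (fun i => Subgroup.inclusion (hP i)) Q O
    hD hN hQ
  have hfinq : Finite (G ⧸ P) := inferInstance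
  have hfintq : Fintype (G ⧸ P) := Fintype.ofFinite _
  let r : G ⧸ P → G := Quotient.out
  have hr0 : ∀ x : G ⧸ P, (QuotientGroup.mk (r x) : G ⧸ P) = x := fun x => QuotientGroup.out_eq' x
  have hr : ∀ g : G, (r (QuotientGroup.mk g))⁻¹ * g ∈ P := by
    intro g
    rw [← QuotientGroup.eq]
    exact hr0 _
  let Θ := QV1_lin O hQ (⇑β) r hr
  -- values of `Θ a` on a coset
  have hval : ∀ (a : (G ⧸ P) × Fin n × Fin N → Fk k) (x : G ⧸ P) (γ : P) (i : Fin N),
      ((Θ a : VQ (G := G) hQ) : G → ∀ i, Q i) (r x * γ) i =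
        ∑ l, algebraMap (Fk k) (Q i) (∑ j, a (x, l, j) * ξ i ^ (j : ℕ)) *
          O.a i (γ⁻¹ • β l) := by
    intro a x γ i
    have h1 : (QuotientGroup.mk (r x * γ) : G ⧸ P) = x := by
      rw [← hr0 x, QuotientGroup.eq, hr0 x, mul_inv_rev, inv_mul_cancel_right]
      exact P.inv_mem γ.2
    have h2 : QV1_gam r hr (r x * γ) = γ := by
      apply Subtype.ext
      change (r (QuotientGroup.mk (r x * γ)))⁻¹ * (r x * γ) = γ
      rw [h1, inv_mul_cancel_left]
    change QV1_fun O (⇑β) r hr a (r x * γ) i = _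
    unfold QV1_fun
    rw [h1, h2]
  have hsurj : Function.Surjective Θ := by
    intro v
    have hv : ∀ g i (τ : P' i), τ • (v : G → ∀ i, Q i) (g * τ) i = (v : G → ∀ i, Q i) g i := v.2
    choose a ha _ using fun (x : G ⧸ P) =>
      hβ1 (fun γ i => (v : G → ∀ i, Q i) (r x * γ) i) (fun γ i τ => by
        have := hv (r x * γ) i τ
        rw [mul_assoc] at this
        exact this)
    refine ⟨fun s => a s.1 s.2.1 s.2.2, ?_⟩
    apply Subtype.ext
    funext g i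
    have h1 : g = r (QuotientGroup.mk g) * (⟨_, hr g⟩ : P) := by
      change g = r (QuotientGroup.mk g) * ((r (QuotientGroup.mk g))⁻¹ * g)
      rw [mul_inv_cancel_left]
    conv_lhs => rw [h1]
    rw [hval]
    have h2 := ha (QuotientGroup.mk g) ⟨_, hr g⟩ i
    rw [← h1] at h2
    exact h2.symm
  have hinj : Function.Injective Θ := by
    intro a b hab
    funext s
    obtain ⟨x, l, j⟩ := s
    have hv : ∀ g i (τ : P' i), τ • ((Θ a : VQ (G := G) hQ) : G → ∀ i, Q i) (g * τ) i =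
        ((Θ a : VQ (G := G) hQ) : G → ∀ i, Q i) g i := (Θ a).2
    obtain ⟨a', -, huniq⟩ := hβ1
      (fun γ i => ((Θ a : VQ (G := G) hQ) : G → ∀ i, Q i) (r x * γ) i) (fun γ i τ => by
        have := hv (r x * γ) i τ
        rw [mul_assoc] at this
        exact this)
    have h1 := huniq (fun l j => a (x, l, j)) (fun γ i => hval a x γ i)
    have h2 := huniq (fun l j => b (x, l, j)) (fun γ i => by
      beta_reduce
      rw [hab]
      exact hval b x γ i)
    exact congrFun (congrFun (h1.trans h2.symm) l) j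
  let Ψ : VQ (G := G) hQ ≃ₗ[Fk k] ((G ⧸ P) × Fin n × Fin N → Fk k) :=
    (LinearEquiv.ofBijective Θ ⟨hinj, hsurj⟩).symm
  refine ⟨(G ⧸ P) × Fin n × Fin N, inferInstance, Module.Basis.ofEquivFun Ψ, fun v => ?_⟩
  have hrepr : ∀ s, (Module.Basis.ofEquivFun Ψ).repr v s = Ψ v s := by
    intro s
    rw [Module.Basis.ofEquivFun_repr_apply]
  simp only [hrepr]
  have hΨ : Θ (Ψ v) = v := (LinearEquiv.ofBijective Θ ⟨hinj, hsurj⟩).apply_symm_apply v
  have hcos : ∀ x : G ⧸ P, (fun γ : P => (v : G → ∀ i, Q i) (r x * γ)) =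
      fun (γ : P) i => ∑ l, algebraMap (Fk k) (Q i) (∑ j, Ψ v (x, l, j) * ξ i ^ (j : ℕ)) *
        O.a i (γ⁻¹ • β l) := by
    intro x
    funext γ i
    conv_lhs => rw [← hΨ]
    exact hval _ x γ i
  constructor
  · rintro h ⟨x, l, j⟩
    have h1 := h (r x)
    rw [hcos] at h1
    exact (hβ2 (fun l j => Ψ v (x, l, j))).1 h1 l j
  · intro h g
    have h1 : (fun γ : P => (v : G → ∀ i, Q i) (r (QuotientGroup.mk g) * γ)) ∈ SM O := by
      rw [hcos]
      exact (hβ2 (fun l j => Ψ v (QuotientGroup.mk g, l, j))).2 fun l j => h (QuotientGroup.mk g, l, j)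
    have h2 := QV1_tr O ⟨_, hr g⟩ h1
    have h3 : (fun γ : P => (v : G → ∀ i, Q i) (g * γ)) = fun γ : P =>
        (v : G → ∀ i, Q i) (r (QuotientGroup.mk g) * (((⟨_, hr g⟩ : P) * γ : P) : G)) := by
      funext γ
      have h4 : g * (γ : G) = r (QuotientGroup.mk g) * (((⟨_, hr g⟩ : P) * γ : P) : G) := by
        change g * (γ : G) = r (QuotientGroup.mk g) * ((r (QuotientGroup.mk g))⁻¹ * g * γ)
        rw [mul_assoc, mul_inv_cancel_left]
      rw [← h4]
    rw [h3]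
    exact h2

/-! ## QV3 -/

theorem prf_QV3 (hQV1 : QV1) (hQV2 : QV2) : QV3 := by
  intro k _ N V ξ G _ _ P P' hP H hH Q _ _ _ O c hQ hD hN
  classical
  obtain ⟨ι, _, e, he⟩ := hQV1 k N V ξ G P P' hP Q O hQ hD hN
  obtain ⟨ι', _, f, hf⟩ := hQV2 k N G P' H hH Q c hQ
  obtain ⟨b, hS, hR⟩ := all_PB k (VQ (G := G) hQ) ι ι' e f
  have hself : ∀ (S : Subring (Fk k)) (l i : ι), b.repr (b l) i ∈ S := by
    intro S l i
    rw [Module.Basis.repr_self, Finsupp.single_apply]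
    split_ifs
    · exact S.one_mem
    · exact S.zero_mem
  set θ : ι ≃ Fin (Fintype.card ι) := Fintype.equivFin ι with hθ
  -- expansion
  have hexp : ∀ v : VQ (G := G) hQ, (v : G → ∀ i, Q i) =
      ∑ l : Fin (Fintype.card ι), b.repr v (θ.symm l) • (b (θ.symm l) : G → ∀ i, Q i) := by
    intro v
    have h1 : ∑ i, b.repr v i • (b i : G → ∀ i, Q i) = (v : G → ∀ i, Q i) := by
      have h2 := congrArg (Submodule.subtype (VQ (G := G) hQ)) (b.sum_repr v)
      rw [map_sum] at h2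
      simpa using h2
    rw [← h1]
    exact (Equiv.sum_comp θ.symm fun i => b.repr v i • (b i : G → ∀ i, Q i)).symm
  refine ⟨Fintype.card ι, fun l => (b (θ.symm l) : G → ∀ i, Q i), ?_, ?_, ?_, ?_, ?_⟩
  · intro l
    refine ⟨⟨(b (θ.symm l)).2, ?_⟩, ?_⟩
    · exact (he _).2 ((hS _).1 fun i => hself _ _ i)
    · exact (hf _).2 ((hR _).1 fun i => hself _ _ i)
  · intro v hv
    have hcoord := (hS ⟨v, hv.1⟩).2 ((he ⟨v, hv.1⟩).1 hv.2)
    exact ⟨fun l => b.repr ⟨v, hv.1⟩ (θ.symm l), fun l => hcoord _, hexp ⟨v, hv.1⟩⟩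
  · intro v hv
    have hcoord := (hR ⟨v, hv.1⟩).2 ((hf ⟨v, hv.1⟩).1 hv.2)
    exact ⟨fun l => b.repr ⟨v, hv.1⟩ (θ.symm l), fun l => hcoord _, hexp ⟨v, hv.1⟩⟩
  · intro a ha
    have h0 : ∑ i, a (θ i) • b i = 0 := by
      apply Subtype.ext
      have h3 : ((∑ i, a (θ i) • b i : VQ (G := G) hQ) : G → ∀ i, Q i) =
          ∑ i, a (θ i) • (b i : G → ∀ i, Q i) := by
        have h2 := map_sum (Submodule.subtype (VQ (G := G) hQ)) (fun i => a (θ i) • b i) Finset.univ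
        simpa using h2
      rw [h3]
      have h4 := Equiv.sum_comp θ.symm fun i => a (θ i) • (b i : G → ∀ i, Q i)
      simp only [Equiv.apply_symm_apply] at h4
      rw [← h4]
      exact ha
    have h5 := b.repr_sum_self (fun i => a (θ i))
    rw [h0] at h5
    funext l
    have := congrFun h5 (θ.symm l)
    rw [Equiv.apply_symm_apply] at this
    rw [← this]
    simp
  · intro v hv
    have hc1 := (hS ⟨v, hv.1.1⟩).2 ((he ⟨v, hv.1.1⟩).1 hv.1.2)
    have hc2 := (hR ⟨v, hv.1.1⟩).2 ((hf ⟨v, hv.1.1⟩).1 hv.2)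
    have h6 : ∀ l : Fin (Fintype.card ι), ∃ g : (LaurentSeries k)[X],
        jj k g = b.repr ⟨v, hv.1.1⟩ (θ.symm l) :=
      fun l => (prf_A8 k).2.2 _ (hc2 _) (hc1 _)
    choose g hg using h6
    refine ⟨g, ?_⟩
    simp only [hg]
    exact hexp ⟨v, hv.1.1⟩

/-! ## QV4S -/

section

variable {k : Type} [Field k] {N : ℕ} {ξ : Fin N → Fk k} {G : Type} [Group G] {P : Subgroup G}
  {P' : Fin N → Subgroup G} {hP : ∀ i, P' i ≤ P}
  {Q : Fin N → Type} [∀ i, CommRing (Q i)] [∀ i, Algebra (Fk k) (Q i)]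
  [∀ i, MulSemiringAction (P' i) (Q i)]

/-- the element of `P` that carries the representative to `g` -/
noncomputable def QV4S_ga (P : Subgroup G) (q : G ⧸ P) (g : G)
    (h : (QuotientGroup.mk g : G ⧸ P) = q) : P :=
  ⟨q.out⁻¹ * g, QuotientGroup.eq.1 (by rw [QuotientGroup.out_eq', h])⟩

open Classical in
/-- function supported on a coset -/
noncomputable def QV4S_psi
    (O : Outer k N ξ P (fun i => P' i) (fun i => Subgroup.inclusion (hP i)) Q)
    (q : G ⧸ P) (y : O.A) : G → ∀ i, Q i :=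
  fun g i => if h : (QuotientGroup.mk g : G ⧸ P) = q then O.a i ((QV4S_ga P q g h)⁻¹ • y) else 0

theorem QV4S_mk (q : G ⧸ P) (g : G) (τ : P) (h : (QuotientGroup.mk g : G ⧸ P) = q) :
    (QuotientGroup.mk (g * τ) : G ⧸ P) = q := by
  rw [QuotientGroup.mk_mul_of_mem g τ.2, h]

theorem QV4S_ga_mul (q : G ⧸ P) (g : G) (τ : P) (h : (QuotientGroup.mk g : G ⧸ P) = q)
    (h' : (QuotientGroup.mk (g * τ) : G ⧸ P) = q) :
    QV4S_ga P q (g * τ) h' = QV4S_ga P q g h * τ := by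
  apply Subtype.ext
  show q.out⁻¹ * (g * τ) = q.out⁻¹ * g * τ
  rw [mul_assoc]

theorem QV4S_psi_pos (O : Outer k N ξ P (fun i => P' i) (fun i => Subgroup.inclusion (hP i)) Q)
    (q : G ⧸ P) (y : O.A) (g : G) (i : Fin N) (h : (QuotientGroup.mk g : G ⧸ P) = q) :
    QV4S_psi O q y g i = O.a i ((QV4S_ga P q g h)⁻¹ • y) := dif_pos h

theorem QV4S_psi_neg (O : Outer k N ξ P (fun i => P' i) (fun i => Subgroup.inclusion (hP i)) Q)
    (q : G ⧸ P) (y : O.A) (g : G) (i : Fin N) (h : (QuotientGroup.mk g : G ⧸ P) ≠ q) :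
    QV4S_psi O q y g i = 0 := dif_neg h

theorem QV4S_psi_one_pos
    (O : Outer k N ξ P (fun i => P' i) (fun i => Subgroup.inclusion (hP i)) Q)
    (q : G ⧸ P) (g : G) (i : Fin N) (h : (QuotientGroup.mk g : G ⧸ P) = q) :
    QV4S_psi O q 1 g i = 1 := by
  rw [QV4S_psi_pos O q 1 g i h, smul_one, map_one]

theorem QV4S_psi_EqQ (O : Outer k N ξ P (fun i => P' i) (fun i => Subgroup.inclusion (hP i)) Q)
    (q : G ⧸ P) (y : O.A) : QV4S_psi O q y ∈ EqQ G P' Q := by
  intro g i τ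
  have hτ : (τ : G) ∈ P := hP i τ.2
  by_cases h : (QuotientGroup.mk g : G ⧸ P) = q
  · have h' : (QuotientGroup.mk (g * τ) : G ⧸ P) = q := QV4S_mk q g ⟨τ, hτ⟩ h
    rw [QV4S_psi_pos O q y g i h, QV4S_psi_pos O q y (g * τ) i h']
    have h1 : QV4S_ga P q (g * τ) h' = QV4S_ga P q g h * Subgroup.inclusion (hP i) τ :=
      QV4S_ga_mul q g (Subgroup.inclusion (hP i) τ) h h'
    rw [h1, mul_inv_rev, mul_smul, ← O.a_act i τ, smul_inv_smul]
  · have h' : (QuotientGroup.mk (g * τ) : G ⧸ P) ≠ q := by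
      rw [QuotientGroup.mk_mul_of_mem g hτ]; exact h
    rw [QV4S_psi_neg O q y g i h, QV4S_psi_neg O q y (g * τ) i h', smul_zero]

theorem QV4S_psi_InSQ (O : Outer k N ξ P (fun i => P' i) (fun i => Subgroup.inclusion (hP i)) Q)
    (q : G ⧸ P) (y : O.A) : QV4S_psi O q y ∈ InSQ O := by
  intro g
  by_cases h : (QuotientGroup.mk g : G ⧸ P) = q
  · have h1 : (fun γ : P => QV4S_psi O q y (g * γ)) =
        fun (γ : P) i => O.a i (γ⁻¹ • ((QV4S_ga P q g h)⁻¹ • y)) := by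
      funext γ i
      rw [QV4S_psi_pos O q y (g * γ) i (QV4S_mk q g γ h), QV4S_ga_mul q g γ h, mul_inv_rev,
        mul_smul]
    rw [h1]
    exact Subring.subset_closure (Or.inr ⟨_, rfl⟩)
  · have h1 : (fun γ : P => QV4S_psi O q y (g * γ)) = 0 := by
      funext γ i
      rw [QV4S_psi_neg O q y (g * γ) i (by rw [QuotientGroup.mk_mul_of_mem g γ.2]; exact h)]
      rfl
    rw [h1]
    exact (SM O).zero_mem

theorem QV4S_mem (O : Outer k N ξ P (fun i => P' i) (fun i => Subgroup.inclusion (hP i)) Q)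
    (q : G ⧸ P) (y : O.A) : QV4S_psi O q y ∈ EqQ G P' Q ⊓ InSQ O :=
  ⟨QV4S_psi_EqQ O q y, QV4S_psi_InSQ O q y⟩

theorem QV4S_key (O : Outer k N ξ P (fun i => P' i) (fun i => Subgroup.inclusion (hP i)) Q)
    (σ : G) (hσ : σ ≠ 1) (q : G ⧸ P) :
    ∃ (n : ℕ) (α β : Fin n → G → ∀ i, Q i),
    (∀ m, α m ∈ EqQ G P' Q ⊓ InSQ O ∧ β m ∈ EqQ G P' Q ⊓ InSQ O) ∧
    ∑ m, α m * (β m - trQ σ (β m)) = QV4S_psi O q 1 := by
  have hmk : ∀ g : G, (QuotientGroup.mk g : G ⧸ P) = q →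
      (QuotientGroup.mk (σ⁻¹ * g) : G ⧸ P) = QuotientGroup.mk (σ⁻¹ * q.out) := by
    intro g hg
    have h1 : σ⁻¹ * g = σ⁻¹ * q.out * (QV4S_ga P q g hg : G) := by
      show σ⁻¹ * g = σ⁻¹ * q.out * (q.out⁻¹ * g)
      group
    rw [h1]
    exact QuotientGroup.mk_mul_of_mem _ (QV4S_ga P q g hg).2
  by_cases hq : (QuotientGroup.mk (σ⁻¹ * q.out) : G ⧸ P) = q
  · -- the coset is fixed
    set τ : P := QV4S_ga P q (σ⁻¹ * q.out) hq with hτ
    have hτv : (τ : G) = q.out⁻¹ * (σ⁻¹ * q.out) := rfl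
    have hτ1 : τ⁻¹ ≠ 1 := by
      intro h
      rw [inv_eq_one] at h
      rw [h] at hτv
      apply hσ
      have h1 : q.out⁻¹ * (σ⁻¹ * q.out) = 1 := hτv.symm
      rw [inv_mul_eq_one] at h1
      have h2 : σ⁻¹ = 1 := mul_eq_right.1 h1.symm
      exact inv_eq_one.1 h2
    obtain ⟨n, x, y, hxy⟩ := TII_unr τ⁻¹ (O.gal.unr τ⁻¹ hτ1)
    refine ⟨n, fun m => QV4S_psi O q (x m), fun m => QV4S_psi O q (y m),
      fun m => ⟨QV4S_mem O q _, QV4S_mem O q _⟩, ?_⟩
    funext g i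
    rw [Finset.sum_apply, Finset.sum_apply]
    by_cases hg : (QuotientGroup.mk g : G ⧸ P) = q
    · have hg' : (QuotientGroup.mk (σ⁻¹ * g) : G ⧸ P) = q := by rw [hmk g hg, hq]
      have h1 : QV4S_ga P q (σ⁻¹ * g) hg' = τ * QV4S_ga P q g hg := by
        apply Subtype.ext
        show q.out⁻¹ * (σ⁻¹ * g) = (q.out⁻¹ * (σ⁻¹ * q.out)) * (q.out⁻¹ * g)
        group
      rw [QV4S_psi_one_pos O q g i hg]
      have h2 : ∀ m, (QV4S_psi O q (x m) * (QV4S_psi O q (y m) - trQ σ (QV4S_psi O q (y m)))) g i =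
          O.a i ((QV4S_ga P q g hg)⁻¹ • (x m * (y m - τ⁻¹ • y m))) := by
        intro m
        show QV4S_psi O q (x m) g i * (QV4S_psi O q (y m) g i -
          QV4S_psi O q (y m) (σ⁻¹ * g) i) = _
        rw [QV4S_psi_pos O q (x m) g i hg, QV4S_psi_pos O q (y m) g i hg,
          QV4S_psi_pos O q (y m) (σ⁻¹ * g) i hg', h1, mul_inv_rev, mul_smul, smul_mul', smul_sub,
          map_mul, map_sub]
      rw [Finset.sum_congr rfl fun m _ => h2 m, ← map_sum, ← Finset.smul_sum, hxy, smul_one,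
        map_one]
    · rw [QV4S_psi_neg O q 1 g i hg]
      refine Finset.sum_eq_zero fun m _ => ?_
      show QV4S_psi O q (x m) g i * _ = 0
      rw [QV4S_psi_neg O q (x m) g i hg, zero_mul]
  · refine ⟨1, fun _ => QV4S_psi O q 1, fun _ => QV4S_psi O q 1,
      fun m => ⟨QV4S_mem O q _, QV4S_mem O q _⟩, ?_⟩
    rw [Fin.sum_univ_one]
    funext g i
    show QV4S_psi O q 1 g i * (QV4S_psi O q 1 g i - QV4S_psi O q 1 (σ⁻¹ * g) i) =
      QV4S_psi O q 1 g i
    by_cases hg : (QuotientGroup.mk g : G ⧸ P) = q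
    · have hg' : (QuotientGroup.mk (σ⁻¹ * g) : G ⧸ P) ≠ q := by rw [hmk g hg]; exact hq
      rw [QV4S_psi_one_pos O q g i hg, QV4S_psi_neg O q 1 (σ⁻¹ * g) i hg', sub_zero, mul_one]
    · rw [QV4S_psi_neg O q 1 g i hg, zero_mul]

end

theorem prf_QV4S (_hQP1 : QP1) : QV4S := by
  classical
  intro k _ N ξ G _ _ P P' hP Q _ _ _ O σ _ hσ
  choose n α β hαβ hsum using QV4S_key O σ hσ
  have : Fintype (G ⧸ P) := Fintype.ofFinite _
  set I := Σ q : G ⧸ P, Fin (n q) with hI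
  refine ⟨Fintype.card I,
    fun m => α ((Fintype.equivFin I).symm m).1 ((Fintype.equivFin I).symm m).2,
    fun m => β ((Fintype.equivFin I).symm m).1 ((Fintype.equivFin I).symm m).2,
    fun m => hαβ _ _, ?_⟩
  rw [Equiv.sum_comp (Fintype.equivFin I).symm
    (fun m : I => α m.1 m.2 * (β m.1 m.2 - trQ σ (β m.1 m.2))), Fintype.sum_sigma]
  simp only [hsum]
  funext g i
  rw [Finset.sum_apply, Finset.sum_apply,
    Finset.sum_eq_single (QuotientGroup.mk g : G ⧸ P)]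
  · rw [QV4S_psi_one_pos O _ g i rfl]
    rfl
  · intro q _ hq
    exact QV4S_psi_neg O q 1 g i (Ne.symm hq)
  · intro h
    exact absurd (Finset.mem_univ _) h

/-! ## QT1 -/

theorem QT1_KF (k : Type) [Field k] (a : LaurentSeries k) : KF k a ∈ Rr k := by
  intro j i hi
  change (HahnSeries.C (a.coeff j) : LaurentSeries k).coeff i = 0
  rw [HahnSeries.C_apply, HahnSeries.coeff_single_of_ne (by omega)]

theorem QT1_eval (k : Type) [Field k] (x : Fk k) (hx : x ∈ Rr k) (f : (LaurentSeries k)[X]) :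
    f.eval₂ (KF k) x ∈ Rr k := by
  rw [eval₂_eq_sum_range]
  exact Subring.sum_mem _ fun i _ => Subring.mul_mem _ (QT1_KF k _) (Subring.pow_mem _ hx _)

theorem prf_QT1 : QT1 := by
  intro k _ N V ξ G _ P P' hP H hH Q _ _ _ O c hQ hD
  constructor
  · intro f
    refine ⟨⟨?_, ?_⟩, ?_⟩
    · intro g i τ
      exact (hQ i).comm τ _
    · intro g
      refine Subring.subset_closure (Or.inr ⟨algebraMap _ O.A f, ?_⟩)
      funext γ i
      rw [O.gal.comm, O.a_alg]
      rfl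
    · intro i g
      exact Subring.subset_closure (Or.inl ⟨f.eval₂ (KF k) (ξ i), QT1_eval k _ (hD.mem i) f, rfl⟩)
  · rintro σ v ⟨⟨h1, h2⟩, h3⟩
    refine ⟨⟨?_, ?_⟩, ?_⟩
    · intro g i τ
      have := h1 (σ⁻¹ * g) i τ
      rw [mul_assoc] at this
      exact this
    · intro g
      have := h2 (σ⁻¹ * g)
      simp only [mul_assoc] at this
      exact this
    · intro i g
      have := h3 i (σ⁻¹ * g)
      simp only [mul_assoc] at this
      exact this

/-! ## QS3, invariant elements -/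

theorem QS3_KF_mem (k : Type) [Field k] (c : LaurentSeries k) : KF k c ∈ Ss k := by
  refine ⟨0, fun j i hi => ?_⟩
  have h1 : (KF k c).coeff j = HahnSeries.C (c.coeff j) := rfl
  rw [h1, HahnSeries.C_apply, HahnSeries.coeff_single_of_ne (by omega)]

theorem QS3_W_mem (k : Type) [Field k] : Ww k ∈ Ss k := by
  refine ⟨1, fun j i hi => ?_⟩
  unfold Ww
  rw [HahnSeries.C_apply, HahnSeries.coeff_single]
  split_ifs
  · rw [HahnSeries.coeff_single_of_ne (by omega)]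
  · simp

theorem QS3_jj_mem (k : Type) [Field k] (f : (LaurentSeries k)[X]) : jj k f ∈ Ss k := by
  have h1 : jj k f = f.eval₂ (KF k) (Ww k) := rfl
  rw [h1, eval₂_eq_sum_range]
  exact Subring.sum_mem _ fun i _ =>
    Subring.mul_mem _ (QS3_KF_mem k _) (Subring.pow_mem _ (QS3_W_mem k) i)

/-- invariant elements -/
theorem QS3_inv (hQP1 : QP1) (hQVad : QVad) (k : Type) [Field k] (N : ℕ) (V : (LaurentSeries k)[X])
    (ξ : Fin N → Fk k) (P : Type) [Group P] [Finite P] (P' : Fin N → Type) [∀ i, Group (P' i)]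
    (π : ∀ i, P' i →* P) (Q : Fin N → Type) [∀ i, CommRing (Q i)]
    [∀ i, Algebra (Fk k) (Q i)] [∀ i, MulSemiringAction (P' i) (Q i)]
    (O : Outer k N ξ P P' π Q) (hD : DiscsK k N V ξ) (hN : 0 < N) (u : P → ∀ i, Q i)
    (hu : u ∈ SM O) (hinv : ∀ γ, u γ = u 1) :
    ∃ c : Fin N → Fk k, (∀ j, c j ∈ Ss k) ∧
      ∀ γ i, u γ i = algebraMap (Fk k) (Q i) (∑ j, c j * ξ i ^ (j : ℕ)) := by
  classical
  obtain rfl := hD.deg
  have := Fintype.ofFinite P
  obtain ⟨θ, hθ⟩ := gal_trace_one O.gal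
  obtain ⟨n, s, e, hs, hue⟩ := (hQP1 k _ ξ P P' π Q O u).1.1 hu
  choose f hf using fun m => gal_trace O.gal (θ * e m)
  choose g hg using fun m => hQVad (LaurentSeries k) V (f m) hN
  refine ⟨fun j => ∑ m, s m * jj k (g m j), fun j => Subring.sum_mem _ fun m _ =>
    Subring.mul_mem _ (hs m) (QS3_jj_mem k _), fun γ i => ?_⟩
  have hev : ∀ m, (f m).eval₂ (KF k) (ξ i) = ∑ j, jj k (g m j) * ξ i ^ (j : ℕ) := by
    intro m
    conv_lhs => rw [hg m]
    rw [eval₂_finset_sum]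
    refine Finset.sum_congr rfl fun j _ => ?_
    rw [eval₂_mul, eval₂_pow, eval₂_X, eval₂_comp, hD.root]
    rfl
  have h1 : ∑ δ : P, O.a i (γ⁻¹ • δ • θ) = 1 := by
    rw [← map_sum, ← Finset.smul_sum, hθ, smul_one, map_one]
  have h2 : ∀ δ : P, u γ i = ∑ m, algebraMap (Fk k) (Q i) (s m) * O.a i (γ⁻¹ • δ • e m) := by
    intro δ
    have h3 : u γ i = u (δ⁻¹ * γ) i := by rw [hinv γ, hinv (δ⁻¹ * γ)]
    rw [h3, hue]
    refine Finset.sum_congr rfl fun m _ => ?_
    rw [smul_smul]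
    congr 3
    group
  calc u γ i = (∑ δ : P, O.a i (γ⁻¹ • δ • θ)) * u γ i := by rw [h1, one_mul]
    _ = ∑ δ : P, ∑ m, algebraMap (Fk k) (Q i) (s m) * O.a i (γ⁻¹ • δ • (θ * e m)) := by
        rw [Finset.sum_mul]
        refine Finset.sum_congr rfl fun δ _ => ?_
        rw [h2 δ, Finset.mul_sum]
        refine Finset.sum_congr rfl fun m _ => ?_
        rw [smul_mul', smul_mul', map_mul]
        ring
    _ = ∑ m, algebraMap (Fk k) (Q i) (s m) * O.a i (γ⁻¹ • ∑ δ : P, δ • (θ * e m)) := by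
        rw [Finset.sum_comm]
        refine Finset.sum_congr rfl fun m _ => ?_
        rw [← Finset.mul_sum, Finset.smul_sum, map_sum]
    _ = ∑ m, algebraMap (Fk k) (Q i) (s m * (f m).eval₂ (KF k) (ξ i)) := by
        refine Finset.sum_congr rfl fun m _ => ?_
        rw [← hf m, O.gal.comm, O.a_alg, map_mul]
    _ = algebraMap (Fk k) (Q i) (∑ j, (∑ m, s m * jj k (g m j)) * ξ i ^ (j : ℕ)) := by
        rw [← map_sum]
        congr 1
        simp only [hev, Finset.mul_sum, Finset.sum_mul]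
        rw [Finset.sum_comm]
        refine Finset.sum_congr rfl fun j _ => Finset.sum_congr rfl fun m _ => ?_
        ring

/-! ## QV5 -/

section

variable {k : Type} [Field k] {N : ℕ} {G : Type} [Group G]
  {Q : Fin N → Type} [∀ i, CommRing (Q i)] [∀ i, Algebra (Fk k) (Q i)]

/-- constants -/
noncomputable def QV5_c (k : Type) [Field k] {N : ℕ} (G : Type)
    (Q : Fin N → Type) [∀ i, CommRing (Q i)] [∀ i, Algebra (Fk k) (Q i)] :
    Fk k →+* (G → ∀ i, Q i) :=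
  Pi.ringHom fun _ => Pi.ringHom fun i => algebraMap (Fk k) (Q i)

theorem QV5_smul (r : Fk k) (v : G → ∀ i, Q i) : r • v = QV5_c k G Q r * v := by
  funext g i
  exact Algebra.smul_def r (v g i)

theorem QV5_tr_mul (σ : G) (r : Fk k) (v : G → ∀ i, Q i) :
    trQ σ (QV5_c k G Q r * v) = QV5_c k G Q r * trQ σ v := by
  funext g i
  rfl

theorem QV5_tr_sum (σ : G) {n : ℕ} (s : Fin n → Fk k) (b : Fin n → G → ∀ i, Q i) :
    trQ σ (∑ l, QV5_c k G Q (s l) * b l) = ∑ l, QV5_c k G Q (s l) * trQ σ (b l) := by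
  funext g i
  simp only [trQ, Finset.sum_apply, Pi.mul_apply]
  rfl

theorem QV5_comb (σ : G) (T : Subring (Fk k)) {n : ℕ} (b : Fin n → G → ∀ i, Q i) (m : ℕ)
    (α β : Fin m → G → ∀ i, Q i)
    (hα : ∀ j, ∃ s : Fin n → Fk k, (∀ l, s l ∈ T) ∧ α j = ∑ l, s l • b l)
    (hβ : ∀ j, ∃ s : Fin n → Fk k, (∀ l, s l ∈ T) ∧ β j = ∑ l, s l • b l)
    (h1 : ∑ j, α j * (β j - trQ σ (β j)) = 1) :
    ∃ ρ : Fin n × Fin n → Fk k, (∀ q, ρ q ∈ T) ∧
      ∑ q, QV5_c k G Q (ρ q) * (b q.1 * (b q.2 - trQ σ (b q.2))) = 1 := by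
  simp only [QV5_smul] at hα hβ
  choose s' hs' hα' using hα
  choose s hs hβ' using hβ
  refine ⟨fun q => ∑ j, s' j q.1 * s j q.2, fun q => T.sum_mem fun j _ =>
    T.mul_mem (hs' j q.1) (hs j q.2), ?_⟩
  rw [← h1]
  simp only [map_sum, Finset.sum_mul]
  rw [Finset.sum_comm]
  refine Finset.sum_congr rfl fun j _ => ?_
  have h2 : β j - trQ σ (β j) = ∑ l, QV5_c k G Q (s j l) * (b l - trQ σ (b l)) := by
    rw [hβ' j, QV5_tr_sum, ← Finset.sum_sub_distrib]
    refine Finset.sum_congr rfl fun l _ => ?_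
    rw [mul_sub]
  rw [h2, hα' j, Finset.sum_mul_sum, Fintype.sum_prod_type]
  refine Finset.sum_congr rfl fun q _ => Finset.sum_congr rfl fun l _ => ?_
  rw [map_mul]
  ring

end

section

variable {k : Type} [Field k] {N : ℕ} {ξ : Fin N → Fk k} {G : Type} [Group G] {P : Subgroup G}
  {P' : Fin N → Subgroup G} {hP : ∀ i, P' i ≤ P} {H : Fin N → Subgroup G} {hH : ∀ i, P' i ≤ H i}
  {Q : Fin N → Type} [∀ i, CommRing (Q i)] [∀ i, Algebra (Fk k) (Q i)]
  [∀ i, MulSemiringAction (P' i) (Q i)]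

/-- multiplication by constants -/
theorem QV5_smul_mem
    (O : Outer k N ξ P (fun i => P' i) (fun i => Subgroup.inclusion (hP i)) Q)
    (c : ∀ i, Inner k (H i) (P' i) (Subgroup.inclusion (hH i)) (Q i))
    (hQ : ∀ i, GalAlg (Fk k) (P' i) (Q i))
    (r : Fk k) (hR : r ∈ Rr k) (hS : r ∈ Ss k) (v : G → ∀ i, Q i) (hv : v ∈ BQ O c) :
    QV5_c k G Q r * v ∈ BQ O c := by
  obtain ⟨⟨h1, h2⟩, h3⟩ := hv
  have hsm : ∀ g i, (QV5_c k G Q r * v) g i = algebraMap (Fk k) (Q i) r * v g i := fun g i => rfl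
  refine ⟨⟨?_, ?_⟩, ?_⟩
  · rw [← QV5_smul]
    exact (VQ (G := G) hQ).smul_mem r h1
  · intro g
    have h4 : (fun γ : P => (QV5_c k G Q r * v) (g * γ)) =
        (fun _ i => algebraMap (Fk k) (Q i) r) * (fun γ : P => v (g * γ)) := by
      funext γ i
      exact hsm _ _
    rw [h4]
    exact (SM O).mul_mem (Subring.subset_closure (Or.inl ⟨r, hS, rfl⟩)) (h2 g)
  · intro i g
    have h4 : (fun γ : H i => (QV5_c k G Q r * v) (g * γ) i) =
        (fun _ => algebraMap (Fk k) (Q i) r) * (fun γ : H i => v (g * γ) i) := by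
      funext γ
      exact hsm _ _
    rw [h4]
    exact (RN (c i)).mul_mem (Subring.subset_closure (Or.inl ⟨r, hR, rfl⟩)) (h3 i g)

end

theorem prf_QV5 (hQT1 : QT1) (hQV3 : QV3) (hQV4R : QV4R) (hQV4S : QV4S) : QV5 := by
  intro k _ N V ξ G _ _ P P' hP H hH Q _ _ _ O c σ hQ hD hN hσ
  obtain ⟨n, b, hb, hbS, hbR, hli, hbK⟩ := hQV3 k N V ξ G P P' hP H hH Q O c hQ hD hN
  obtain ⟨hjinj, hjmem, -⟩ := prf_A8 k
  have htr : ∀ v ∈ BQ O c, trQ σ v ∈ BQ O c := (hQT1 k N V ξ G P P' hP H hH Q O c hQ hD).2 σ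
  -- the products
  have hnn : ∀ q : Fin n × Fin n, b q.1 * (b q.2 - trQ σ (b q.2)) ∈ BQ O c := fun q =>
    (BQ O c).mul_mem (hb q.1) ((BQ O c).sub_mem (hb q.2) (htr _ (hb q.2)))
  simp only [QV5_smul] at hbK hli
  choose u hu using fun q => hbK _ (hnn q)
  obtain ⟨v, hv⟩ := hbK 1 (BQ O c).one_mem
  -- the coordinates of 1 from a relation over a subring
  have hcoord : ∀ ρ : Fin n × Fin n → Fk k,
      ∑ q, QV5_c k G Q (ρ q) * (b q.1 * (b q.2 - trQ σ (b q.2))) = 1 →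
      ∀ h, jj k (v h) = ∑ q, ρ q * jj k (u q h) := by
    intro ρ hρ h
    have h1 : ∑ h, QV5_c k G Q (jj k (v h) - ∑ q, ρ q * jj k (u q h)) * b h = 0 := by
      simp only [map_sub, map_sum, map_mul, sub_mul, Finset.sum_sub_distrib, Finset.sum_mul]
      rw [← hv, ← hρ, Finset.sum_comm, ← Finset.sum_sub_distrib]
      refine Finset.sum_eq_zero fun q _ => ?_
      rw [hu q, Finset.mul_sum, sub_eq_zero]
      exact Finset.sum_congr rfl fun h _ => by rw [mul_assoc]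
    have h2 := congrFun (hli _ h1) h
    exact sub_eq_zero.1 h2
  obtain ⟨mR, αR, βR, hR, h1R⟩ := hQV4R k N G P' H hH Q c σ hQ hσ
  obtain ⟨mS, αS, βS, hS, h1S⟩ := hQV4S k N ξ G P P' hP Q O σ hQ hσ
  obtain ⟨ρR, hρR, hR1⟩ := QV5_comb σ (Rr k) b mR αR βR (fun j => hbR _ (hR j).1)
    (fun j => hbR _ (hR j).2) h1R
  obtain ⟨ρS, hρS, hS1⟩ := QV5_comb σ (Ss k) b mS αS βS (fun j => hbS _ (hS j).1)
    (fun j => hbS _ (hS j).2) h1S
  have hcR := hcoord ρR hR1
  have hcS := hcoord ρS hS1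
  let e : Fin (n * n) ≃ Fin n × Fin n := finProdFinEquiv.symm
  obtain ⟨cc, hcc⟩ := prf_LD prf_A8 k n (n * n) (fun a => u (e a)) v
    ⟨fun a => ρR (e a), fun a => hρR _, fun l => by
      rw [hcR l]
      exact (Equiv.sum_comp e (fun q => ρR q * jj k (u q l))).symm⟩
    ⟨fun a => ρS (e a), fun a => hρS _, fun l => by
      rw [hcS l]
      exact (Equiv.sum_comp e (fun q => ρS q * jj k (u q l))).symm⟩
  refine ⟨n * n, fun a => QV5_c k G Q (jj k (cc a)) * b (e a).1, fun a => b (e a).2, fun a =>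
    ⟨QV5_smul_mem O c hQ _ (hjmem _).1 (hjmem _).2 _ (hb _), hb _⟩, ?_⟩
  have h1 : ∀ a, QV5_c k G Q (jj k (cc a)) * b (e a).1 * (b (e a).2 - trQ σ (b (e a).2)) =
      ∑ h, QV5_c k G Q (jj k (cc a * u (e a) h)) * b h := by
    intro a
    rw [mul_assoc, hu (e a), Finset.mul_sum]
    exact Finset.sum_congr rfl fun h _ => by rw [← mul_assoc, map_mul, map_mul]
  simp only [h1]
  rw [Finset.sum_comm]
  conv_rhs => rw [hv]
  refine Finset.sum_congr rfl fun h _ => ?_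
  rw [← Finset.sum_mul, ← map_sum, ← map_sum, hcc h]

/-! ## QV7 -/

theorem prf_QV7 (hQP1 : QP1) (hQVad : QVad) (hQD3 : QD3) (hQC2a : QC2a) : QV7 := by
  intro k _ N V ξ G _ _ P P' hP H hH Q _ _ _ O c hQ hD hN v hv hinv
  have hconst : ∀ g : G, v g = v 1 := by
    intro g
    have h1 := congrFun (hinv g) g
    simp only [trQ, inv_mul_cancel] at h1
    exact h1.symm
  have hS : v ∈ InSQ O := hv.1.2
  have hR : v ∈ InRQ c := hv.2
  -- invariants on `P`
  obtain ⟨a, haS, ha⟩ := QS3_inv hQP1 hQVad k N V ξ P (fun i => P' i)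
    (fun i => Subgroup.inclusion (hP i)) Q O hD hN (fun γ : P => v (1 * γ)) (hS 1) (fun γ => by
      show v (1 * (γ : G)) = v (1 * ((1 : P) : G))
      rw [hconst, ← hconst (1 * ((1 : P) : G))])
  have ha' : ∀ i, v 1 i = algebraMap (Fk k) (Q i) (∑ j, a j * ξ i ^ (j : ℕ)) := by
    intro i
    have h1 := ha 1 i
    simp only [one_mul, OneMemClass.coe_one] at h1
    exact h1
  have hr : ∀ i, ∑ j, a j * ξ i ^ (j : ℕ) ∈ Rr k := by
    intro i
    obtain ⟨r, hr, hr'⟩ := (hQD3 k (H i) (P' i) (Subgroup.inclusion (hH i)) (Q i) (c i) (hQ i)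
      (fun γ : H i => v (1 * γ) i) (hR i 1)).2 (fun γ => by
        show v (1 * (γ : G)) i = v (1 * ((1 : H i) : G)) i
        rw [hconst, ← hconst (1 * ((1 : H i) : G))])
    have h1 := hr' 1
    simp only [one_mul, OneMemClass.coe_one] at h1
    rw [ha' i] at h1
    rw [(hQ i).inj h1]
    exact hr
  have haR : ∀ j, a j ∈ Rr k := (hQC2a k N V ξ hD).2 a hr
  have hg : ∀ j, ∃ f, jj k f = a j := fun j => (prf_A8 k).2.2 (a j) (haR j) (haS j)
  choose g hg using hg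
  refine ⟨∑ j, (g j).comp V * X ^ (j : ℕ), ?_⟩
  funext γ i
  rw [hconst γ, ha' i]
  show _ = algebraMap (Fk k) (Q i) (eval₂RingHom (KF k) (ξ i) (∑ j, (g j).comp V * X ^ (j : ℕ)))
  congr 1
  rw [map_sum]
  refine Finset.sum_congr rfl fun j _ => ?_
  rw [map_mul, map_pow, coe_eval₂RingHom, eval₂_X, eval₂_comp, hD.root i, ← hg j]
  rfl

end MP7b0bad.JP
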