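import Pool.Agent.Work.MP_7b0bad_ag.SV.LStmts
import Pool.Agent.Work.MP_7b0bad_ag.Bd.B03
import Pool.Agent.Work.MP_7b0bad_ag.Bd.B05
import Pool.Agent.Work.MP_7b0bad_ag.Bd.B06
import Pool.Agent.Work.MP_7b0bad_ag.Bd.B10
import Pool.Agent.Work.MP_7b0bad_ag.Bd.B13

set_option autoImplicit false

/-!
# Item T0: `Rel` and `Occurs` are equivalent
-/

namespace MP7b0bad

open Polynomial Pointwise

/-- over an algebraically closed field the inertia group of a place over infinity is its
decomposition group -/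
theorem T0_inertia {k : Type} [Field k] [IsAlgClosed k] {L : Type} [Field L]
    [Algebra (RatFunc k) L] [FiniteDimensional (RatFunc k) L] (A : ValuationSubring L)
    (hA : AtInfty (k := k) A) :
    (ValuationSubring.inertiaSubgroup (RatFunc k) A).map
      (ValuationSubring.decompositionSubgroup (RatFunc k) A).subtype =
      ValuationSubring.decompositionSubgroup (RatFunc k) A := by
  have htop : ValuationSubring.inertiaSubgroup (RatFunc k) A = ⊤ := by
    rw [eq_top_iff]
    intro τ _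
    rw [ValuationSubring.inertiaSubgroup, MonoidHom.mem_ker]
    ext z
    obtain ⟨a, rfl⟩ := IsLocalRing.residue_surjective z
    show τ • IsLocalRing.residue A a = IsLocalRing.residue A a
    rw [← IsLocalRing.ResidueField.residue_smul, ← sub_eq_zero, ← map_sub,
      IsLocalRing.residue_eq_zero_iff, ValuationSubring.valuation_lt_one_iff]
    obtain ⟨c0, hc0⟩ := prf_F6 prf_F3 k L A hA (a : L) a.2
    rw [ValuationSubring.mem_nonunits_iff] at hc0
    have h1 := F8_dec A (τ : L ≃ₐ[RatFunc k] L) τ.2 _ hc0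
    rw [map_sub, AlgEquiv.commutes] at h1
    have h2 := A.valuation.map_sub_lt h1 hc0
    rw [sub_sub_sub_cancel_right] at h2
    exact h2
  rw [htop, ← MonoidHom.range_eq_map, Subgroup.range_subtype]

theorem T0_mem {k : Type} [Field k] {L : Type} [Field L] [Algebra (RatFunc k) L] {G : Type}
    [Group G] (φ : G ≃* (L ≃ₐ[RatFunc k] L)) (G₀ : Subgroup G) (g : G) :
    φ g ∈ G₀.map φ.toMonoidHom ↔ g ∈ G₀ := by
  constructor
  · rintro ⟨h, hh, he⟩
    have : h = g := φ.injective he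
    rw [← this]
    exact hh
  · intro h
    exact ⟨g, h, rfl⟩

theorem prf_T0 (hT0core : T0core) (hT0et : T0et) (hT0tr : T0tr) : T0 := by
  intro k _ _ G _ _ G₀
  constructor
  · rintro ⟨B, iB1, iB2, iB3, E, iE1, iE2, iE3, j, hB, hdB, hE, hdE, hj1, hj2⟩
    obtain ⟨L, iF, iA, ι, hinj, hι, hfd, hgal, φ, hφ⟩ := prf_QF1 prf_QFree k G B hB hdB
    have hfin := gal_finite hE
    have hint : Algebra.IsIntegral (LaurentSeries k) E := Algebra.IsIntegral.of_finite _ _
    have hfield : IsField E :=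
      isField_of_isIntegral_of_isField' (Field.toIsField (LaurentSeries k))
    let _ : Field E := hfield.toField
    obtain ⟨A, hA, -, hA'⟩ := hT0core k G G₀ B E j L ι φ hB hE hj1 hj2 hinj hι hφ
    refine ⟨L, iF, iA, hfd, hgal, φ, ?_, A, hA.1, hA.2, hA'⟩
    exact prf_F2 k G B L ι φ (gal_finite hB) hι hφ hB.unr
  · rintro ⟨L, iF, iA, hfd, hgal, φ, hunr, A, hA1, hA2, hA3⟩
    obtain ⟨B, iB1, iB2, iB3, ι, hdB, hB, hinj, hι, hφ⟩ := hT0et k G L φ hunr
    obtain ⟨B', jB1, jB2, jB3, q, hB', hq, hqact, -, -⟩ :=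
      prf_QBC k[X] (LaurentSeries k) (atInf k) G B hB
    have hnt : Nontrivial B' := hB'.inj.nontrivial
    obtain ⟨𝔪, h𝔪⟩ := Ideal.exists_maximal B'
    obtain ⟨G₁, E, iE1, iE2, iE3, π, hG₁, hE, hπs, hπ0, hπa, hπact, -, -, -, -, -⟩ :=
      prf_YComp (LaurentSeries k) G B' hB' 𝔪 h𝔪.isPrime
    have hj1 : ∀ f : k[X], (π.comp q) (algebraMap k[X] B f) =
        algebraMap (LaurentSeries k) E (atInf k f) := by
      intro f
      rw [RingHom.comp_apply, hq, hπa]
    have hj2 : ∀ (g : G₁) (b : B), (π.comp q) ((g : G) • b) = g • (π.comp q) b := by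
      intro g b
      rw [RingHom.comp_apply, RingHom.comp_apply, hqact, hπact]
    have hRel : Rel k G G₁ :=
      ⟨B, iB1, iB2, iB3, E, inferInstance, iE2, iE3, π.comp q, hB, hdB, hE, inferInstance,
        hj1, hj2⟩
    obtain ⟨A', hA', hst, -⟩ := hT0core k G G₁ B E (π.comp q) L ι φ hB hE hj1 hj2 hinj hι hφ
    obtain ⟨σ, hσ⟩ := hT0tr k L A' A hA' ⟨hA1, hA2⟩
    have h1 : G₀.map φ.toMonoidHom = ValuationSubring.decompositionSubgroup (RatFunc k) A := by
      rw [← hA3, T0_inertia A ⟨hA1, hA2⟩]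
    have h2 : ∀ g : G, g ∈ G₀ ↔ φ g • A = A := by
      intro g
      rw [← T0_mem φ G₀ g, h1]
      exact Iff.rfl
    have h3 : ∀ g : G, g ∈ G₁ ↔ φ g • A' = A' := by
      intro g
      rw [← T0_mem φ G₁ g]
      exact (hst (φ g)).symm
    have h4 : G₁.map (MulAut.conj (φ.symm σ)).toMonoidHom = G₀ := by
      ext g
      have h5 : g ∈ G₁.map (MulAut.conj (φ.symm σ)).toMonoidHom ↔
          (φ.symm σ)⁻¹ * g * φ.symm σ ∈ G₁ := by
        constructor
        · rintro ⟨h, hh, rfl⟩
          have h6 : (φ.symm σ)⁻¹ * (MulAut.conj (φ.symm σ)).toMonoidHom h * φ.symm σ = h := by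
            show (φ.symm σ)⁻¹ * (φ.symm σ * h * (φ.symm σ)⁻¹) * φ.symm σ = h
            group
          rw [h6]
          exact hh
        · intro hh
          refine ⟨_, hh, ?_⟩
          show φ.symm σ * ((φ.symm σ)⁻¹ * g * φ.symm σ) * (φ.symm σ)⁻¹ = g
          group
      rw [h5, h3, h2, map_mul, map_mul, map_inv, MulEquiv.apply_symm_apply, mul_smul, mul_smul,
        hσ, inv_smul_eq_iff, hσ]
    have h5 := prf_QIso k G G (MulAut.conj (φ.symm σ)) G₁ hRel
    rwa [h4] at h5

end MP7b0bad
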