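import Pool.Agent.Work.MP_7b0bad_ag.SV.LStmts

set_option autoImplicit false

/-!
Item T0core: the place given by the local field.
-/

namespace MP7b0bad

open Polynomial Pointwise

theorem T0core_v1 {F : Type} [Field F] {v : F → ℝ} (hv : Nrm F v) : v 1 = 1 := by
  have h := hv.mul 1 1
  have h1 := hv.pos 1 one_ne_zero
  rw [one_mul] at h
  exact mul_left_cancel₀ h1.ne' (by rw [← h, mul_one])

theorem T0core_vneg {F : Type} [Field F] {v : F → ℝ} (hv : Nrm F v) (x : F) : v (-x) = v x := by
  have h := hv.mul (-1) (-1)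
  rw [neg_mul_neg, one_mul, T0core_v1 hv] at h
  have h1 : 0 < v (-1) := hv.pos (-1) (neg_ne_zero.2 one_ne_zero)
  have h2 : v (-1) = 1 := by nlinarith
  rw [← neg_one_mul, hv.mul, h2, one_mul]

theorem T0core_vinv {F : Type} [Field F] {v : F → ℝ} (hv : Nrm F v) {x : F} (hx : x ≠ 0) :
    v x⁻¹ * v x = 1 := by
  rw [← hv.mul, inv_mul_cancel₀ hx, T0core_v1 hv]

theorem T0core_nonneg {F : Type} [Field F] {v : F → ℝ} (hv : Nrm F v) (x : F) : 0 ≤ v x := by
  by_cases h : x = 0
  · rw [h, hv.zero]
  · exact (hv.pos x h).le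

/-- the place -/
def T0core_A {L F : Type} [Field L] [Field F] (J : L →+* F) {v : F → ℝ} (hv : Nrm F v) :
    ValuationSubring L where
  carrier := {x | v (J x) ≤ 1}
  mul_mem' := by
    intro a b ha hb
    simp only [Set.mem_ofPred_eq] at ha hb ⊢
    rw [map_mul, hv.mul]
    exact mul_le_one₀ ha (T0core_nonneg hv _) hb
  one_mem' := by
    simp only [Set.mem_ofPred_eq]
    rw [map_one, T0core_v1 hv]
  add_mem' := by
    intro a b ha hb
    simp only [Set.mem_ofPred_eq] at ha hb ⊢
    rw [map_add]
    exact (hv.add _ _).trans (max_le ha hb)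
  zero_mem' := by
    simp only [Set.mem_ofPred_eq]
    rw [map_zero, hv.zero]
    exact zero_le_one
  neg_mem' := by
    intro a ha
    simp only [Set.mem_ofPred_eq] at ha ⊢
    rw [map_neg, T0core_vneg hv]
    exact ha
  mem_or_inv_mem' := by
    intro x
    simp only [Set.mem_ofPred_eq]
    by_cases hx : x = 0
    · left
      rw [hx, map_zero, hv.zero]
      exact zero_le_one
    · have hJ : J x ≠ 0 := (_root_.map_ne_zero J).2 hx
      rcases le_total (v (J x)) 1 with h | h
      · exact Or.inl h
      · right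
        rw [map_inv₀]
        have h1 := T0core_vinv hv hJ
        have h2 := T0core_nonneg hv (J x)⁻¹
        nlinarith

theorem T0core_mem {L F : Type} [Field L] [Field F] (J : L →+* F) {v : F → ℝ} (hv : Nrm F v)
    (x : L) : x ∈ T0core_A J hv ↔ v (J x) ≤ 1 := Iff.rfl

theorem T0core_ext {B L E : Type} [CommRing B] [IsDomain B] [Field L] [Field E] (ι : B →+* L)
    (j : B →+* E) (hι : Function.Injective ι) (hj : Function.Injective j)
    (hfr : ∀ z : L, ∃ s b : B, s ≠ 0 ∧ ι s * z = ι b) : ∃ J : L →+* E, ∀ b, J (ι b) = j b := by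
  let _ : Algebra B L := ι.toAlgebra
  have hal : ∀ b : B, algebraMap B L b = ι b := fun b => rfl
  have hloc : IsFractionRing B L := by
    refine (isLocalization_iff (nonZeroDivisors B) L).2 ⟨fun y => ?_, fun z => ?_, fun {x y} h => ?_⟩
    · rw [hal, isUnit_iff_ne_zero]
      exact (map_ne_zero_iff ι hι).2 (nonZeroDivisors.ne_zero y.2)
    · obtain ⟨s, b, hs, h⟩ := hfr z
      exact ⟨⟨b, ⟨s, mem_nonZeroDivisors_of_ne_zero hs⟩⟩, by rw [hal, hal, mul_comm]; exact h⟩
    · exact ⟨1, by rw [hι h]⟩
  refine ⟨IsFractionRing.lift hj, fun b => ?_⟩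
  rw [← hal, IsFractionRing.lift_algebraMap]

theorem T0core_jinj {k : Type} [Field k] {G : Type} [Group G] [Finite G] {B : Type} [CommRing B]
    [IsDomain B] [Algebra k[X] B] [MulSemiringAction G B] {E : Type} [Field E]
    [Algebra (LaurentSeries k) E] (j : B →+* E) (hB : GalAlg k[X] G B)
    (hj : ∀ f : k[X], j (algebraMap k[X] B f) = algebraMap (LaurentSeries k) E (atInf k f)) :
    Function.Injective j := by
  have := Fintype.ofFinite G
  rw [injective_iff_map_eq_zero]
  intro b hb
  by_contra hb0
  obtain ⟨a, ha⟩ := hB.inv (∏ g : G, g • b) (fun h => by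
    rw [Finset.smul_prod']
    simp only [smul_smul]
    exact Fintype.prod_equiv (Equiv.mulLeft h) _ _ (fun g => rfl))
  have h1 : ∏ g : G, g • b ≠ 0 := by
    rw [Finset.prod_ne_zero_iff]
    intro g _ h
    exact hb0 ((smul_eq_zero_iff_eq g).1 h)
  have h2 : a ≠ 0 := by
    rintro rfl
    rw [map_zero] at ha
    exact h1 ha.symm
  have h3 : j (∏ g : G, g • b) = 0 := by
    rw [map_prod]
    exact Finset.prod_eq_zero (Finset.mem_univ 1) (by rw [one_smul, hb])
  rw [← ha, hj, map_eq_zero] at h3
  exact h2 (E7_atInf_inj k (by rw [h3, map_zero]))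

theorem prf_T0core (hSVn : SVn) (hT0fr : T0fr) : T0core := by
  intro k _ _ G _ _ G₀ B _ _ _ _ E _ _ _ j L _ _ _ _ ι φ hB hE hj1 hj2 hιi hι hφ
  obtain ⟨v, c, hc0, hc1, hv, -, hvG, hvc⟩ := hSVn k G₀ E hE
  have hfr := hT0fr k G B L ι φ hB hιi hι hφ
  have hjinj := T0core_jinj j hB hj1
  have halg : ∀ a : k[X], a ≠ 0 → algebraMap k[X] B a ≠ 0 := fun a ha =>
    (map_ne_zero_iff _ hB.inj).2 ha
  obtain ⟨J, hJ⟩ := T0core_ext ι j hιi hjinj (fun z => by
    obtain ⟨a, b, ha, h⟩ := hfr z
    exact ⟨algebraMap k[X] B a, b, halg a ha, by rw [hι]; exact h⟩)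
  -- `J` on rational functions
  have hJf : ∀ f : k[X], J (algebraMap (RatFunc k) L (algebraMap k[X] (RatFunc k) f)) =
      algebraMap (LaurentSeries k) E (atInf k f) := by
    intro f
    rw [← hι, hJ, hj1]
  have hJX : J (algebraMap (RatFunc k) L RatFunc.X) =
      algebraMap (LaurentSeries k) E (HahnSeries.single (-1 : ℤ) (1 : k)) := by
    rw [← RatFunc.algebraMap_X, hJf, C2b_atInf_X]
  have hJC : ∀ a : k, J (algebraMap (RatFunc k) L (algebraMap k (RatFunc k) a)) =
      algebraMap (LaurentSeries k) E (HahnSeries.C a) := by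
    intro a
    have h : algebraMap k (RatFunc k) a = algebraMap k[X] (RatFunc k) (C a) := by
      rw [IsScalarTower.algebraMap_apply k k[X] (RatFunc k), Polynomial.algebraMap_eq]
    rw [h, hJf, C2b_atInf_C]
  -- equivariance
  have hJG : ∀ (g : G₀) (z : L), J (φ (g : G) z) = g • J z := by
    intro g z
    obtain ⟨a, b, ha, h⟩ := hfr z
    have h1 : J (φ (g : G) (algebraMap (RatFunc k) L (algebraMap k[X] (RatFunc k) a) * z)) =
        g • J (algebraMap (RatFunc k) L (algebraMap k[X] (RatFunc k) a) * z) := by
      rw [h, hφ, hJ, hJ, hj2]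
    rw [map_mul (φ (g : G)), AlgEquiv.commutes, map_mul J, map_mul J, smul_mul', hJf, hE.comm] at h1
    refine mul_left_cancel₀ ?_ h1
    rw [ne_eq, map_eq_zero]
    intro h0
    exact ha (E7_atInf_inj k (by rw [h0, map_zero]))
  have hvX : v (J (algebraMap (RatFunc k) L RatFunc.X)) = c⁻¹ := by
    rw [hJX, hvc _ (by simp), HahnSeries.order_single one_ne_zero, zpow_neg_one]
  have hA : AtInfty (k := k) (T0core_A J hv) := by
    refine ⟨fun a => ?_, fun h => ?_⟩
    · rw [T0core_mem, hJC]
      by_cases ha : a = 0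
      · rw [ha, map_zero, map_zero, hv.zero]
        exact zero_le_one
      · rw [hvc _ ((_root_.map_ne_zero _).2 ha), HahnSeries.C_apply, HahnSeries.order_single ha, zpow_zero]
    · rw [T0core_mem, hvX] at h
      exact absurd ((one_lt_inv₀ hc0).2 hc1) (not_lt.2 h)
  -- the decomposition group
  have hdec : ∀ s : L ≃ₐ[RatFunc k] L, s • T0core_A J hv = T0core_A J hv ↔
      s ∈ G₀.map φ.toMonoidHom := by
    intro s
    constructor
    · intro hs
      rw [← IntermediateField.fixingSubgroup_fixedField (G₀.map φ.toMonoidHom),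
        IntermediateField.mem_fixingSubgroup_iff]
      intro x hx
      have hx' : ∀ g : G₀, φ (g : G) x = x := by
        intro g
        exact (IntermediateField.mem_fixedField_iff _ x).1 hx (φ (g : G)) ⟨g, g.2, rfl⟩
      obtain ⟨a, ha⟩ := hE.inv (J x) (fun g => by rw [← hJG, hx'])
      have key : ∀ n : ℕ, v (J (s x - x)) ≤ c ^ n := by
        intro n
        set f := E4_P a (n : ℤ) n with hf
        set y : L := algebraMap (RatFunc k) L RatFunc.X with hy
        have hy0 : y ≠ 0 := by
          rw [hy, ne_eq, map_eq_zero]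
          exact RatFunc.X_ne_zero
        set F : L := algebraMap (RatFunc k) L (algebraMap k[X] (RatFunc k) f) with hF
        have hJy : J (y ^ n) = algebraMap (LaurentSeries k) E (HahnSeries.single (-(n : ℤ)) (1 : k)) := by
          rw [map_pow, hJX, ← map_pow, HahnSeries.single_pow]
          simp
        have hJF : J F = J (y ^ n) * algebraMap (LaurentSeries k) E (E4_tr a n) := by
          rw [hF, hJf, hf, E4_atInf_P a n n le_rfl, map_mul, hJy]
        -- the difference
        have hd : v (algebraMap (LaurentSeries k) E (a - E4_tr a n)) ≤ c ^ n := by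
          by_cases h0 : a - E4_tr a n = 0
          · rw [h0, map_zero, hv.zero]
            positivity
          · rw [hvc _ h0]
            have h1 : (n : ℤ) ≤ (a - E4_tr a n).order := by
              by_contra hlt
              push Not at hlt
              have h2 := HahnSeries.coeff_order_eq_zero.not.2 h0
              apply h2
              rw [HahnSeries.coeff_sub, E4_tr_coeff, if_pos hlt, sub_self]
            have h3 : c ^ (a - E4_tr a n).order ≤ c ^ (n : ℤ) :=
              zpow_le_zpow_right_of_le_one₀ hc0 hc1.le h1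
            rwa [zpow_natCast] at h3
        have hz : x * y ^ n - F ∈ T0core_A J hv := by
          rw [T0core_mem, map_sub, map_mul, hJF, ← ha]
          have e : algebraMap (LaurentSeries k) E a * J (y ^ n) -
              J (y ^ n) * algebraMap (LaurentSeries k) E (E4_tr a n) =
              J (y ^ n) * algebraMap (LaurentSeries k) E (a - E4_tr a n) := by
            rw [map_sub]
            ring
          rw [e, hv.mul, hJy, hvc _ (by simp), HahnSeries.order_single one_ne_zero, zpow_neg,
            zpow_natCast]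
          have hcn : 0 < c ^ n := by positivity
          rw [inv_mul_le_iff₀ hcn, mul_one]
          exact hd
        have hsz : s (x * y ^ n - F) ∈ T0core_A J hv := by
          have h := ValuationSubring.smul_mem_pointwise_smul s _ _ hz
          rw [hs] at h
          exact h
        have hsz2 : s (x * y ^ n - F) = (s x - F / y ^ n) * y ^ n := by
          have h1 : s y = y := s.commutes _
          have h2 : s F = F := s.commutes _
          rw [map_sub, map_mul, map_pow, h1, h2]
          field_simp
        have hvy : v (J (y ^ n)) = (c ^ n)⁻¹ := by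
          rw [hJy, hvc _ (by simp), HahnSeries.order_single one_ne_zero, zpow_neg, zpow_natCast]
        have hcn : 0 < c ^ n := by positivity
        have h1 : v (J (s x - F / y ^ n)) ≤ c ^ n := by
          rw [hsz2, T0core_mem, map_mul, hv.mul, hvy, mul_inv_le_iff₀ hcn, one_mul] at hsz
          exact hsz
        have h2 : v (J (F / y ^ n - x)) ≤ c ^ n := by
          have e : J (F / y ^ n - x) = -algebraMap (LaurentSeries k) E (a - E4_tr a n) := by
            rw [map_sub, map_div₀, hJF, ← ha, map_sub, mul_div_cancel_left₀]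
            · ring
            · rw [ne_eq, map_eq_zero]
              exact pow_ne_zero _ hy0
          rw [e, T0core_vneg hv]
          exact hd
        have h3 : J (s x - x) = J (s x - F / y ^ n) + J (F / y ^ n - x) := by
          rw [← map_add]
          congr 1
          ring
        rw [h3]
        exact (hv.add _ _).trans (max_le h1 h2)
      have h0 : v (J (s x - x)) ≤ 0 :=
        ge_of_tendsto' (tendsto_pow_atTop_nhds_zero_of_lt_one hc0.le hc1) key
      have h1 : J (s x - x) = 0 := by
        by_contra hne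
        exact absurd (hv.pos _ hne) (not_lt.2 h0)
      rw [map_eq_zero, sub_eq_zero] at h1
      exact h1
    · rintro ⟨g, hg, rfl⟩
      have hmem : ∀ (h : G₀) (x : L), φ (h : G) x ∈ T0core_A J hv ↔ x ∈ T0core_A J hv := by
        intro h x
        rw [T0core_mem, T0core_mem, hJG, hvG]
      ext x
      rw [ValuationSubring.mem_pointwise_smul_iff_inv_smul_mem]
      have h1 : (φ.toMonoidHom g)⁻¹ • x = φ ((⟨g, hg⟩ : G₀)⁻¹ : G₀) x := by
        change (φ g)⁻¹ x = _
        rw [← map_inv]
        rfl
      rw [h1, hmem]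
  refine ⟨T0core_A J hv, hA, hdec, ?_⟩
  set A := T0core_A J hv with hAdef
  have hF6 : F6 := prf_F6 prf_F3
  have hDeq : ValuationSubring.decompositionSubgroup (RatFunc k) A = G₀.map φ.toMonoidHom := by
    ext s
    exact hdec s
  have htop : ValuationSubring.inertiaSubgroup (RatFunc k) A = ⊤ := by
    rw [eq_top_iff]
    intro τ _
    rw [ValuationSubring.inertiaSubgroup, MonoidHom.mem_ker]
    ext z
    obtain ⟨a, rfl⟩ := IsLocalRing.residue_surjective z
    show τ • IsLocalRing.residue A a = IsLocalRing.residue A a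
    rw [← IsLocalRing.ResidueField.residue_smul, ← sub_eq_zero, ← map_sub,
      IsLocalRing.residue_eq_zero_iff, ValuationSubring.valuation_lt_one_iff]
    obtain ⟨c0, hc0⟩ := hF6 k L A hA (a : L) a.2
    rw [ValuationSubring.mem_nonunits_iff] at hc0
    have h1 := F8_dec A (τ : L ≃ₐ[RatFunc k] L) τ.2 _ hc0
    rw [map_sub, AlgEquiv.commutes] at h1
    have h2 := A.valuation.map_sub_lt h1 hc0
    rw [sub_sub_sub_cancel_right] at h2
    exact h2
  rw [htop, ← MonoidHom.range_eq_map, Subgroup.range_subtype, hDeq]

end MP7b0bad
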