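import Pool.Agent.Work.MP_7b0bad_ag.SV.LStmts

set_option autoImplicit false

/-!
# Item T0et: the integral closure of `k[x]` is etale when the cover is unramified
-/

namespace MP7b0bad

open Polynomial
open scoped Pointwise

/-- the local ring `B_n` inside the field of fractions, as a valuation subring -/
theorem T0et_total (B L : Type) [CommRing B] [IsDedekindDomain B] [Field L] [Algebra B L]
    [IsFractionRing B L] (n : Ideal B) [hn : n.IsPrime] (h0 : n ≠ ⊥) (a b : B) :
    ∃ c s : B, s ∉ n ∧ (b * s = a * c ∨ a * s = b * c) := by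
  have hD : IsDiscreteValuationRing (Localization.AtPrime n) :=
    IsLocalization.AtPrime.isDiscreteValuationRing_of_dedekind_domain B h0 _
  have key : ∀ a b : B, algebraMap B (Localization.AtPrime n) a ∣
      algebraMap B (Localization.AtPrime n) b → ∃ c s : B, s ∉ n ∧ b * s = a * c := by
    intro a b h
    obtain ⟨y, hy⟩ := h
    obtain ⟨⟨c, s⟩, hc⟩ := IsLocalization.surj n.primeCompl y
    refine ⟨c, s, s.2, ?_⟩
    apply IsLocalization.injective (Localization.AtPrime n) n.primeCompl_le_nonZeroDivisors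
    rw [map_mul, map_mul, hy, mul_assoc]
    simp only at hc
    rw [hc]
  rcases ValuationRing.dvd_total (algebraMap B (Localization.AtPrime n) a)
    (algebraMap B (Localization.AtPrime n) b) with h | h
  · obtain ⟨c, s, hs, h1⟩ := key a b h
    exact ⟨c, s, hs, Or.inl h1⟩
  · obtain ⟨c, s, hs, h1⟩ := key b a h
    exact ⟨c, s, hs, Or.inr h1⟩

/-- the valuation subring `B_n` -/
def T0et_A (B L : Type) [CommRing B] [IsDedekindDomain B] [Field L] [Algebra B L]
    [IsFractionRing B L] (n : Ideal B) [hn : n.IsPrime] (h0 : n ≠ ⊥) : ValuationSubring L where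
  carrier := {x | ∃ a s : B, s ∉ n ∧ x * algebraMap B L s = algebraMap B L a}
  zero_mem' := ⟨0, 1, (Ideal.ne_top_iff_one n).1 hn.ne_top, by simp⟩
  one_mem' := ⟨1, 1, (Ideal.ne_top_iff_one n).1 hn.ne_top, by simp⟩
  add_mem' := by
    rintro x y ⟨a, s, hs, h1⟩ ⟨b, t, ht, h2⟩
    refine ⟨a * t + b * s, s * t, fun h => (hn.mem_or_mem h).elim hs ht, ?_⟩
    rw [map_mul, map_add, map_mul, map_mul, ← h1, ← h2]
    ring
  mul_mem' := by
    rintro x y ⟨a, s, hs, h1⟩ ⟨b, t, ht, h2⟩
    refine ⟨a * b, s * t, fun h => (hn.mem_or_mem h).elim hs ht, ?_⟩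
    rw [map_mul, map_mul, ← h1, ← h2]
    ring
  neg_mem' := by
    rintro x ⟨a, s, hs, h1⟩
    refine ⟨-a, s, hs, ?_⟩
    rw [map_neg, ← h1]
    ring
  mem_or_inv_mem' := by
    intro x
    obtain ⟨a, b, hb, hx⟩ := IsFractionRing.div_surjective (A := B) x
    have hb0 : algebraMap B L b ≠ 0 := by
      intro h
      have h1 : b = 0 := (IsFractionRing.injective B L) (by rw [h, map_zero])
      exact nonZeroDivisors.ne_zero hb h1
    by_cases ha0 : algebraMap B L a = 0
    · left
      refine ⟨0, 1, (Ideal.ne_top_iff_one n).1 hn.ne_top, ?_⟩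
      rw [← hx, ha0]
      simp
    obtain ⟨c, s, hs, h | h⟩ := T0et_total B L n h0 a b
    · right
      refine ⟨c, s, hs, ?_⟩
      have h3 : algebraMap B L b * algebraMap B L s = algebraMap B L a * algebraMap B L c := by
        rw [← map_mul, ← map_mul, h]
      rw [← hx, inv_div, div_mul_eq_mul_div, h3, mul_div_assoc, mul_comm, div_mul_cancel₀ _ ha0]
    · left
      refine ⟨c, s, hs, ?_⟩
      have h3 : algebraMap B L a * algebraMap B L s = algebraMap B L b * algebraMap B L c := by
        rw [← map_mul, ← map_mul, h]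
      rw [← hx, div_mul_eq_mul_div, h3, mul_div_assoc, mul_comm, div_mul_cancel₀ _ hb0]

theorem T0et_mem (B L : Type) [CommRing B] [IsDedekindDomain B] [Field L] [Algebra B L]
    [IsFractionRing B L] (n : Ideal B) [hn : n.IsPrime] (h0 : n ≠ ⊥) (x : L) :
    x ∈ T0et_A B L n h0 ↔ ∃ a s : B, s ∉ n ∧ x * algebraMap B L s = algebraMap B L a := Iff.rfl

/-- the quotients `c / t` with `c ∈ n`, `t ∉ n` are not units -/
theorem T0et_max (B L : Type) [CommRing B] [IsDedekindDomain B] [Field L] [Algebra B L]
    [IsFractionRing B L] (n : Ideal B) [hn : n.IsPrime] (h0 : n ≠ ⊥) (x : T0et_A B L n h0)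
    (c t : B) (hc : c ∈ n) (ht : t ∉ n) (h : (x : L) * algebraMap B L t = algebraMap B L c) :
    x ∈ IsLocalRing.maximalIdeal (T0et_A B L n h0) := by
  rw [IsLocalRing.mem_maximalIdeal, mem_nonunits_iff]
  intro hu
  obtain ⟨y, hy⟩ := hu.exists_right_inv
  obtain ⟨a, s, hs, h1⟩ := y.2
  have h2 : (x : L) * (y : L) = 1 := by
    have := congrArg Subtype.val hy
    exact this
  have h3 : algebraMap B L (t * s) = algebraMap B L (c * a) := by
    rw [map_mul, map_mul, ← h, ← h1]
    calc algebraMap B L t * algebraMap B L s = (1 : L) * (algebraMap B L t * algebraMap B L s) := by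
          rw [one_mul]
      _ = _ := by rw [← h2]; ring
  have h4 : t * s = c * a := IsFractionRing.injective B L h3
  have h5 : t * s ∈ n := by
    rw [h4]
    exact n.mul_mem_right a hc
  exact (hn.mem_or_mem h5).elim ht hs

/-- an automorphism which is congruent to the identity modulo `n` is in the inertia group -/
theorem T0et_in (K B L : Type) [Field K] [CommRing B] [IsDedekindDomain B] [Field L] [Algebra B L]
    [Algebra K L] [IsFractionRing B L] (n : Ideal B) [hn : n.IsPrime] (h0 : n ≠ ⊥)
    (s : L ≃ₐ[K] L) (e : B → B) (he : ∀ b, s (algebraMap B L b) = algebraMap B L (e b))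
    (hne : ∀ b, b - e b ∈ n) (e' : B → B)
    (he' : ∀ b, s.symm (algebraMap B L b) = algebraMap B L (e' b)) (hne' : ∀ b, b - e' b ∈ n)
    (hI : ValuationSubring.inertiaSubgroup K (T0et_A B L n h0) = ⊥) : s = 1 := by
  have hmem : ∀ b, b ∉ n → e b ∉ n := fun b hb h => hb (by
    have := n.add_mem (hne b) h
    rwa [sub_add_cancel] at this)
  have hmem' : ∀ b, b ∉ n → e' b ∉ n := fun b hb h => hb (by
    have := n.add_mem (hne' b) h
    rwa [sub_add_cancel] at this)
  have hs1 : ∀ x ∈ T0et_A B L n h0, s x ∈ T0et_A B L n h0 := by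
    rintro x ⟨a, t, ht, h1⟩
    refine ⟨e a, e t, hmem t ht, ?_⟩
    rw [← he, ← he, ← map_mul, h1]
  have hs2 : ∀ x ∈ T0et_A B L n h0, s.symm x ∈ T0et_A B L n h0 := by
    rintro x ⟨a, t, ht, h1⟩
    refine ⟨e' a, e' t, hmem' t ht, ?_⟩
    rw [← he', ← he', ← map_mul, h1]
  have hst : s ∈ (T0et_A B L n h0).decompositionSubgroup K := by
    rw [MulAction.mem_stabilizer_iff]
    ext x
    rw [ValuationSubring.mem_smul_pointwise_iff_exists]
    constructor
    · rintro ⟨y, hy, rfl⟩
      exact hs1 y hy
    · intro hx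
      exact ⟨s.symm x, hs2 x hx, s.apply_symm_apply x⟩
  have hin : (⟨s, hst⟩ : (T0et_A B L n h0).decompositionSubgroup K) ∈
      ValuationSubring.inertiaSubgroup K (T0et_A B L n h0) := by
    show MulSemiringAction.toRingAut ((T0et_A B L n h0).decompositionSubgroup K)
        (IsLocalRing.ResidueField (T0et_A B L n h0)) ⟨s, hst⟩ = 1
    apply RingEquiv.ext
    intro r
    obtain ⟨x, rfl⟩ := IsLocalRing.residue_surjective r
    show (⟨s, hst⟩ : (T0et_A B L n h0).decompositionSubgroup K) •
      IsLocalRing.residue (T0et_A B L n h0) x = IsLocalRing.residue (T0et_A B L n h0) x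
    rw [← IsLocalRing.ResidueField.residue_smul]
    rw [← sub_eq_zero, ← map_sub, IsLocalRing.residue_eq_zero_iff]
    obtain ⟨a, t, ht, h1⟩ := x.2
    refine T0et_max B L n h0 _ (e a * t - a * e t) (e t * t) ?_ ?_ ?_
    · have h2 : e a * t - a * e t = a * (t - e t) - t * (a - e a) := by ring
      rw [h2]
      exact n.sub_mem (n.mul_mem_left _ (hne t)) (n.mul_mem_left _ (hne a))
    · exact fun h => (hn.mem_or_mem h).elim (hmem t ht) ht
    · have h2 : s (x : L) * algebraMap B L (e t) = algebraMap B L (e a) := by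
        rw [← he, ← he, ← map_mul, h1]
      have h3 : ((((⟨s, hst⟩ : (T0et_A B L n h0).decompositionSubgroup K) • x - x :
          T0et_A B L n h0)) : L) = s (x : L) - x := rfl
      rw [h3, map_sub, map_mul, map_mul, map_mul, ← h2, ← h1]
      ring
  rw [hI, Subgroup.mem_bot] at hin
  exact congrArg Subtype.val hin


section

variable (k : Type) [Field k] (G : Type) [Group G] (L : Type) [Field L]
  [Algebra (RatFunc k) L] [Algebra k[X] L] [IsScalarTower k[X] (RatFunc k) L]
  (φ : G ≃* (L ≃ₐ[RatFunc k] L))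

theorem T0et_isInt (s : L ≃ₐ[RatFunc k] L) (b : integralClosure k[X] L) :
    s (b : L) ∈ integralClosure k[X] L := by
  have h : IsIntegral k[X] (b : L) := b.2
  exact h.map ((s : L →ₐ[RatFunc k] L).restrictScalars k[X])

/-- the action on the integral closure -/
noncomputable abbrev T0et_act : MulSemiringAction G (integralClosure k[X] L) where
  smul g b := ⟨φ g (b : L), T0et_isInt k L (φ g) b⟩
  one_smul b := Subtype.ext (by
    show φ 1 (b : L) = b
    rw [map_one]; rfl)
  mul_smul g h b := Subtype.ext (by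
    show φ (g * h) (b : L) = φ g (φ h (b : L))
    rw [map_mul]; rfl)
  smul_zero g := Subtype.ext (map_zero (φ g))
  smul_add g b c := Subtype.ext (map_add (φ g) _ _)
  smul_one g := Subtype.ext (map_one (φ g))
  smul_mul g b c := Subtype.ext (map_mul (φ g) _ _)

end

theorem T0et_core (k : Type) [Field k] (G : Type) [Group G] [Finite G] (L : Type) [Field L]
    [Algebra (RatFunc k) L] [FiniteDimensional (RatFunc k) L] [IsGalois (RatFunc k) L]
    [Algebra k[X] L] [IsScalarTower k[X] (RatFunc k) L]
    (φ : G ≃* (L ≃ₐ[RatFunc k] L))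
    (hA : ∀ A : ValuationSubring L,
      (∀ c : k, algebraMap (RatFunc k) L (algebraMap k (RatFunc k) c) ∈ A) →
      algebraMap (RatFunc k) L RatFunc.X ∈ A →
      ValuationSubring.inertiaSubgroup (RatFunc k) A = ⊥) :
    letI := T0et_act k G L φ
    GalAlg k[X] G (integralClosure k[X] L) := by
  letI := T0et_act k G L φ
  have hinjL : Function.Injective (algebraMap k[X] L) := by
    rw [IsScalarTower.algebraMap_eq k[X] (RatFunc k) L]
    exact (algebraMap (RatFunc k) L).injective.comp (RatFunc.algebraMap_injective k)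
  have hsm : ∀ (g : G) (b : integralClosure k[X] L), ((g • b : integralClosure k[X] L) : L) =
    φ g (b : L) := fun _ _ => rfl
  have hval : ∀ a : k[X], ((algebraMap k[X] (integralClosure k[X] L) a :
      integralClosure k[X] L) : L) = algebraMap k[X] L a := fun _ => rfl
  refine ⟨?_, ?_, ?_, ?_⟩
  · intro g a
    apply Subtype.ext
    rw [hsm, hval, IsScalarTower.algebraMap_apply k[X] (RatFunc k) L, AlgEquiv.commutes]
  · intro a b h
    exact hinjL (congrArg Subtype.val h)
  · intro b hb
    have h1 : (b : L) ∈ Set.range (algebraMap (RatFunc k) L) := by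
      rw [IsGalois.mem_range_algebraMap_iff_fixed]
      intro s
      have h := congrArg Subtype.val (hb (φ.symm s))
      have h2 : φ (φ.symm s) (b : L) = b := h
      rwa [φ.apply_symm_apply] at h2
    obtain ⟨y, hy⟩ := h1
    have h2 : IsIntegral k[X] y := by
      rw [← isIntegral_algebraMap_iff (algebraMap (RatFunc k) L).injective, hy]
      exact b.2
    obtain ⟨a, ha⟩ := (IsIntegrallyClosed.isIntegral_iff (R := k[X])).1 h2
    refine ⟨a, Subtype.ext ?_⟩
    rw [hval, IsScalarTower.algebraMap_apply k[X] (RatFunc k) L, ha, hy]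
  · intro σ hσ
    by_contra hne
    obtain ⟨n, hn, hle⟩ := Ideal.exists_le_maximal _ hne
    haveI : n.IsPrime := hn.isPrime
    haveI : IsDedekindDomain (integralClosure k[X] L) :=
      integralClosure.isDedekindDomain k[X] (RatFunc k) L
    haveI : IsFractionRing (integralClosure k[X] L) L :=
      integralClosure.isFractionRing_of_finite_extension (A := k[X]) (RatFunc k) L
    have hn0 : n ≠ ⊥ := by
      rintro rfl
      apply hσ
      apply φ.injective
      rw [map_one]
      have h1 : ∀ b : integralClosure k[X] L, φ σ (b : L) = b := by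
        intro b
        have h2 : b - σ • b ∈ (⊥ : Ideal (integralClosure k[X] L)) :=
          hle (Ideal.subset_span ⟨b, rfl⟩)
        rw [Ideal.mem_bot, sub_eq_zero] at h2
        rw [← hsm, ← h2]
      apply AlgEquiv.ext
      intro x
      obtain ⟨a, b, _, rfl⟩ := IsFractionRing.div_surjective (A := integralClosure k[X] L) x
      rw [map_div₀]
      show φ σ (a : L) / φ σ (b : L) = (a : L) / (b : L)
      rw [h1, h1]
    have hk : ∀ a : k[X], algebraMap k[X] L a ∈ T0et_A (integralClosure k[X] L) L n hn0 := by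
      intro a
      refine ⟨algebraMap k[X] (integralClosure k[X] L) a, 1,
        (Ideal.ne_top_iff_one n).1 hn.ne_top, ?_⟩
      rw [map_one, mul_one]
      rfl
    have hI := hA (T0et_A (integralClosure k[X] L) L n hn0) (fun c => by
        have h2 : algebraMap k (RatFunc k) c = algebraMap k[X] (RatFunc k) (C c) := by
          rw [IsScalarTower.algebraMap_apply k k[X] (RatFunc k)]
          rfl
        rw [h2, ← IsScalarTower.algebraMap_apply k[X] (RatFunc k) L]
        exact hk _) (by
        rw [← RatFunc.algebraMap_X, ← IsScalarTower.algebraMap_apply k[X] (RatFunc k) L]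
        exact hk _)
    have h3 : φ σ = 1 := by
      refine T0et_in (RatFunc k) (integralClosure k[X] L) L n hn0 (φ σ) (fun b => σ • b)
        (fun b => rfl) (fun b => hle (Ideal.subset_span ⟨b, rfl⟩)) (fun b => σ⁻¹ • b) ?_ ?_ hI
      · intro b
        show (φ σ).symm (b : L) = φ σ⁻¹ (b : L)
        rw [map_inv]
        rfl
      · intro b
        have h4 : b - σ⁻¹ • b = -(σ⁻¹ • b - σ • (σ⁻¹ • b)) := by
          rw [smul_inv_smul]
          ring
        show b - σ⁻¹ • b ∈ n
        rw [h4]
        exact n.neg_mem (hle (Ideal.subset_span ⟨_, rfl⟩))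
    exact hσ (φ.injective (by rw [h3, map_one]))

theorem prf_T0et : T0et := by
  intro k _ G _ _ L _ _ _ _ φ hA
  letI : Algebra k[X] L :=
    ((algebraMap (RatFunc k) L).comp (algebraMap k[X] (RatFunc k))).toAlgebra
  haveI : IsScalarTower k[X] (RatFunc k) L := IsScalarTower.of_algebraMap_eq fun _ => rfl
  exact ⟨integralClosure k[X] L, inferInstance, inferInstance, T0et_act k G L φ,
    (integralClosure k[X] L).val.toRingHom, inferInstance, T0et_core k G L φ hA,
    Subtype.val_injective, fun _ => rfl, fun _ _ => rfl⟩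

end MP7b0bad
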