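import Pool.Agent.Work.MP_7b0bad_ag.SV.LStmts

set_option autoImplicit false

namespace MP7b0bad

open Polynomial Pointwise

/-- the set of the `z` with `a z = ι b` -/
def T0fr_S (k : Type) [Field k] {B : Type} [CommRing B] [IsDomain B] [Algebra k[X] B] {L : Type}
    [Field L] [Algebra (RatFunc k) L] (ι : B →+* L)
    (hι : ∀ a : k[X], ι (algebraMap k[X] B a) =
      algebraMap (RatFunc k) L (algebraMap k[X] (RatFunc k) a)) : Subalgebra (RatFunc k) L where
  carrier := {z | ∃ (a : k[X]) (b : B), a ≠ 0 ∧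
    algebraMap (RatFunc k) L (algebraMap k[X] (RatFunc k) a) * z = ι b}
  mul_mem' := by
    rintro z w ⟨a, b, ha, h⟩ ⟨a', b', ha', h'⟩
    refine ⟨a * a', b * b', mul_ne_zero ha ha', ?_⟩
    rw [map_mul, map_mul, map_mul, ← h, ← h']
    ring
  add_mem' := by
    rintro z w ⟨a, b, ha, h⟩ ⟨a', b', ha', h'⟩
    refine ⟨a * a', algebraMap k[X] B a' * b + algebraMap k[X] B a * b', mul_ne_zero ha ha', ?_⟩
    rw [map_add, map_mul, map_mul ι, map_mul, map_mul, hι, hι, ← h, ← h']
    ring
  algebraMap_mem' := by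
    intro q
    refine ⟨q.denom, algebraMap k[X] B q.num, q.denom_ne_zero, ?_⟩
    rw [hι, ← map_mul]
    congr 1
    have h := RatFunc.num_div_denom q
    have h0 : algebraMap k[X] (RatFunc k) q.denom ≠ 0 :=
      RatFunc.algebraMap_ne_zero q.denom_ne_zero
    rw [div_eq_iff h0] at h
    rw [h]
    ring

theorem prf_T0fr : T0fr := by
  intro k _ G _ _ B _ _ _ _ L _ _ _ _ ι φ hB hinj hι hφ z
  let S := T0fr_S k ι hι
  let M : IntermediateField (RatFunc k) L := S.toIntermediateField (fun x hx =>
    S.inv_mem_of_algebraic (x := ⟨x, hx⟩) (Algebra.IsAlgebraic.isAlgebraic _))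
  have hbM : ∀ b : B, ι b ∈ M := fun b => ⟨1, b, one_ne_zero, by simp⟩
  have hfix : M.fixingSubgroup = ⊥ := by
    rw [eq_bot_iff]
    intro σ hσ
    obtain ⟨g, rfl⟩ := φ.surjective σ
    rw [Subgroup.mem_bot]
    have hg : g = 1 := by
      by_contra hne
      have h := hB.unr g hne
      have h2 : {x : B | ∃ b : B, x = b - g • b} ⊆ {0} := by
        rintro x ⟨b, rfl⟩
        have h3 := (IntermediateField.mem_fixingSubgroup_iff M (φ g)).1 hσ (ι b) (hbM b)
        rw [hφ] at h3
        rw [hinj h3, sub_self]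
        rfl
      have h4 : Ideal.span {x : B | ∃ b : B, x = b - g • b} ≤ ⊥ := by
        rw [Ideal.span_le]
        intro x hx
        exact h2 hx
      rw [h] at h4
      exact bot_ne_top (top_le_iff.1 h4)
    rw [hg, map_one]
  have htop : M = ⊤ := by
    have h := IsGalois.fixedField_fixingSubgroup M
    rw [hfix] at h
    rw [← h]
    exact IntermediateField.fixedField_bot
  have hz : z ∈ M := by
    rw [htop]
    trivial
  exact hz

end MP7b0bad
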