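import Pool.Agent.Work.MP_7b0bad_ag.SV.IELS
import Pool.Agent.Work.MP_7b0bad_ag.SV.IQLLG
import Pool.Agent.Work.MP_7b0bad_ag.SV.IQR2G
import Pool.Agent.Work.MP_7b0bad_ag.SV.ISVc
import Pool.Agent.Work.MP_7b0bad_ag.SV.ISVd
import Pool.Agent.Work.MP_7b0bad_ag.SV.ISVn
import Pool.Agent.Work.MP_7b0bad_ag.SV.IT0
import Pool.Agent.Work.MP_7b0bad_ag.SV.IT0core
import Pool.Agent.Work.MP_7b0bad_ag.SV.IT0et
import Pool.Agent.Work.MP_7b0bad_ag.SV.IT0fr
import Pool.Agent.Work.MP_7b0bad_ag.SV.IT0tr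
import Pool.Agent.Work.MP_7b0bad_ag.SV.ISVtw
import Pool.Agent.Work.MP_7b0bad_ag.Bd.B12
import Pool.Agent.Work.MP_7b0bad_ag.Bd.B15

set_option autoImplicit false

/-!
# Block SV, local part: assembly
-/

namespace MP7b0bad

theorem all_SVn : SVn := prf_SVn
theorem all_SVd : SVd := prf_SVd all_SVn
theorem all_SVc : SVc := prf_SVc
theorem all_ELS : ELS := prf_ELS all_SVd all_SVc
theorem all_T0fr : T0fr := prf_T0fr
theorem all_T0core : T0core := prf_T0core all_SVn all_T0fr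
theorem all_T0et : T0et := prf_T0et
theorem all_T0tr : T0tr := prf_T0tr
theorem all_T0 : T0 := prf_T0 all_T0core all_T0et all_T0tr
theorem all_SVtw : SVtw := prf_SVtw all_SVd
theorem all_QLLG : QLLG := prf_QLLG all_SVtw all_QELN all_QASN all_YComp
theorem all_QR2G : QR2G := prf_QR2G all_QLLG all_QELN all_QASN all_QDenV all_QComp all_QSub

end MP7b0bad
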