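import Pool.Agent.Work.MP_7b0bad_ag.SV.GTStmts

set_option autoImplicit false

/-!
Item GCom of block [7b0bad GT]: commutators of coordinate functions.
-/

namespace MP7b0bad
namespace GT

open scoped commutatorElement

section

variable {G : Type} [Group G] (N : Subgroup G) [N.Normal] (I : Type)

/-- functions with values in `N` -/
def GCom_psi : (I → N) →* Fib N I where
  toFun f := ⟨fun i => (f i : G), fun i j => N.mul_mem (N.inv_mem (f i).2) (f j).2⟩
  map_one' := rfl
  map_mul' _ _ := rfl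

lemma GCom_psi_apply (f : I → N) (i : I) : (GCom_psi N I f).1 i = (f i : G) := rfl

lemma GCom_dg_apply (g : G) (i : I) : (dg N I g).1 i = g := rfl

variable [DecidableEq I]

lemma GCom_comm_mem {a g : G} (ha : a ∈ N) : ⁅a, g⁆ ∈ N := by
  rw [commutatorElement_def, mul_assoc, mul_assoc, ← mul_assoc g]
  exact N.mul_mem ha (Subgroup.Normal.conj_mem inferInstance _ (N.inv_mem ha) _)

/-- commutator of a coordinate function with a constant function -/
lemma GCom_single_dg (i : I) (a : N) (g : G) :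
    ⁅GCom_psi N I (Pi.mulSingle i a), dg N I g⁆ =
      GCom_psi N I (Pi.mulSingle i ⟨⁅(a : G), g⁆, GCom_comm_mem N a.2⟩) := by
  apply Subtype.ext
  funext j
  have h1 : (⁅GCom_psi N I (Pi.mulSingle i a), dg N I g⁆ : Fib N I).1 j =
      ⁅((Pi.mulSingle i a : I → N) j : G), g⁆ := rfl
  rw [h1, GCom_psi_apply]
  by_cases hj : j = i
  · subst hj
    simp
  · simp [Pi.mulSingle_eq_of_ne hj]

lemma GCom_dg_single (i : I) (a b : N) :
    ⁅dg N I (a : G), GCom_psi N I (Pi.mulSingle i b)⁆ =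
      GCom_psi N I (Pi.mulSingle i ⟨⁅(a : G), (b : G)⁆, GCom_comm_mem N a.2⟩) := by
  apply Subtype.ext
  funext j
  have h1 : (⁅dg N I (a : G), GCom_psi N I (Pi.mulSingle i b)⁆ : Fib N I).1 j =
      ⁅(a : G), ((Pi.mulSingle i b : I → N) j : G)⁆ := rfl
  rw [h1, GCom_psi_apply]
  by_cases hj : j = i
  · subst hj
    simp
  · simp [Pi.mulSingle_eq_of_ne hj]

/-- coordinate functions with values in a subgroup `K` suffice -/
lemma GCom_pi [Finite I] (K : Subgroup G) (H : Subgroup (Fib N I))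
    (h : ∀ (i : I) (a : N), (a : G) ∈ K → GCom_psi N I (Pi.mulSingle i a) ∈ H) (f : I → N)
    (hf : ∀ i, (f i : G) ∈ K) : GCom_psi N I f ∈ H := by
  have h1 : f ∈ H.comap (GCom_psi N I) :=
    Subgroup.pi_mem_of_mulSingle_mem f (fun i => h i (f i) (hf i))
  exact h1

/-- the coordinate functions in a subgroup form a subgroup -/
lemma GCom_le (H : Subgroup (Fib N I)) (i : I) (A B : Subgroup G)
    (h : ∀ a ∈ A, ∀ b ∈ B, ∃ hab : ⁅a, b⁆ ∈ N,
      GCom_psi N I (Pi.mulSingle i (⟨⁅a, b⁆, hab⟩ : N)) ∈ H) (a : N) (ha : (a : G) ∈ ⁅A, B⁆) :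
    GCom_psi N I (Pi.mulSingle i a) ∈ H := by
  set K : Subgroup N := (H.comap (GCom_psi N I)).comap (MonoidHom.mulSingle (fun _ : I => N) i)
    with hK
  have h1 : ⁅A, B⁆ ≤ K.map N.subtype := by
    rw [Subgroup.commutator_le]
    intro x hx y hy
    obtain ⟨hab, hm⟩ := h x hx y hy
    exact ⟨⟨⁅x, y⁆, hab⟩, hm, rfl⟩
  obtain ⟨b, hb, hba⟩ := h1 ha
  have h2 : b = a := Subtype.ext hba
  subst h2
  exact hb

end

theorem prf_GCom : GCom := by
  classical
  intro G _ _ N _ I _ h1 h2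
  constructor
  · intro f hf
    have e : f = GCom_psi N I (fun i => ⟨f.1 i, hf.1 i⟩) := Subtype.ext (funext fun i => rfl)
    rw [e]
    refine GCom_pi N I ⊤ _ ?_ _ (fun i => trivial)
    intro i a _
    refine GCom_le N I _ i N ⊤ ?_ a (h1 a.2)
    intro x hx g _
    refine ⟨GCom_comm_mem N hx, ?_⟩
    have h3 := GCom_single_dg N I i ⟨x, hx⟩ g
    rw [← h3]
    refine Subgroup.commutator_mem_commutator ?_ trivial
    exact ⟨fun j => ((Pi.mulSingle i (⟨x, hx⟩ : N) : I → N) j).2,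
      fun j k => N.mul_mem (N.inv_mem ((Pi.mulSingle i (⟨x, hx⟩ : N) : I → N) j).2)
        ((Pi.mulSingle i (⟨x, hx⟩ : N) : I → N) k).2⟩
  · have hdg : ∀ a ∈ N, dg N I a ∈ FK N I N ⁅N, N⁆ := by
      intro a ha
      refine ⟨fun i => ha, fun i j => ?_⟩
      have : ((dg N I a).1 i)⁻¹ * (dg N I a).1 j = 1 := by
        rw [GCom_dg_apply, GCom_dg_apply, inv_mul_cancel]
      rw [this]
      exact Subgroup.one_mem _
    have hc : ⁅N, (⊤ : Subgroup G)⁆ ≤
        (⁅FK N I N ⁅N, N⁆, (⊤ : Subgroup (Fib N I))⁆).comap (dg N I) := by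
      rw [Subgroup.commutator_le]
      intro a ha g _
      rw [Subgroup.mem_comap, map_commutatorElement]
      exact Subgroup.commutator_mem_commutator (hdg a ha) trivial
    have hz : ∀ (i : I) (z : N), (z : G) ∈ ⁅N, N⁆ →
        GCom_psi N I (Pi.mulSingle i z) ∈ ⁅FK N I N ⁅N, N⁆, (⊤ : Subgroup (Fib N I))⁆ := by
      intro i z hz
      refine GCom_le N I _ i N N ?_ z hz
      intro a ha b hb
      refine ⟨GCom_comm_mem N ha, ?_⟩
      have h3 := GCom_dg_single N I i ⟨a, ha⟩ ⟨b, hb⟩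
      rw [← h3]
      exact Subgroup.commutator_mem_commutator (hdg a ha) trivial
    intro f hf
    rcases isEmpty_or_nonempty I with hI | ⟨⟨i0⟩⟩
    · have : f = 1 := Subtype.ext (funext fun i => (hI.false i).elim)
      rw [this]
      exact Subgroup.one_mem _
    · have hle : ⁅N, N⁆ ≤ N := Subgroup.commutator_le_left N N
      set g : I → N := fun j => ⟨(f.1 i0)⁻¹ * f.1 j, hle (hf.2 i0 j)⟩ with hg
      have e : f = dg N I (f.1 i0) * GCom_psi N I g := by
        apply Subtype.ext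
        funext j
        have : (dg N I (f.1 i0) * GCom_psi N I g).1 j = f.1 i0 * ((f.1 i0)⁻¹ * f.1 j) := rfl
        rw [this, mul_inv_cancel_left]
      rw [e]
      refine Subgroup.mul_mem _ (hc (h1 (hf.1 i0))) ?_
      exact GCom_pi N I ⁅N, N⁆ _ hz g (fun j => hf.2 i0 j)

end GT
end MP7b0bad
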