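import Mathlib
import Pool.Agent.Work.MP_7b0bad_ag.SV.GTStmts

/-!
Proof of the statement GQuo: the data pass to quotients.
-/

set_option autoImplicit false

open Subgroup

namespace MP7b0bad
namespace GT

/-- the data pass to quotients -/
theorem prf_GQuo : GQuo := by
  intro p _ G G' _ _ _ q P c hq h
  refine ⟨⟨h.pgr.map q, ?_, ?_, ?_⟩, ?_⟩
  · rintro u hu
    obtain ⟨v, hv, rfl⟩ := Subgroup.mem_map.1 hu
    exact Subgroup.mem_map.2 ⟨c * v * c⁻¹, h.nrm v hv, by simp⟩
  · intro hd
    exact h.cop (hd.trans (orderOf_map_dvd q c))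
  · rw [Subgroup.coe_map, ← Subgroup.map_normalClosure _ q hq, h.ncl,
      Subgroup.map_top_of_surjective q hq]
  · unfold Pc
    rw [Subgroup.map_sup, MonoidHom.map_zpowers]

end GT
end MP7b0bad
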