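import Pool.Agent.Work.MP_7b0bad_ag.SV.GTStmts

set_option autoImplicit false

/-!
# From the axioms given by the analytic part (`RAx`) to the axioms `TAx`

The embedding theorem `fab` gives no surjectivity, and the splitting theorem `spl` is available only
for irreducible kernels. For `M` elementary abelian with `[M, G] = M`, `M₀ ≤ M` central and `M / M₀`
irreducible: `fab` gives `G'` with `M G' = G`; `spl` applied `|J|` times gives
`(M / M₀)^J ⋊ G'`, `cen` gives `M^J ⋊ G'` with inertia group `P ⟨c z⟩`, `z ∈ M₀^J`; there are two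
coordinates with the same `z j`, and `(m, g) ↦ m j (m j')⁻¹ g` maps onto `G`.
-/

namespace MP7b0bad
namespace GT

/-- the data without the condition on the normal closure -/
structure Dat0 (p : ℕ) {G : Type} [Group G] (P : Subgroup G) (c : G) : Prop where
  pgr : IsPGroup p P
  nrm : ∀ u ∈ P, c * u * c⁻¹ ∈ P
  cop : ¬ p ∣ orderOf c

/-- the properties proved by the analytic part -/
structure RAx (p : ℕ) (R : ∀ (G : Type) [Group G], Subgroup G → Prop) : Prop where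
  /-- quotients -/
  quo : ∀ (G G' : Type) [Group G] [Finite G] [Group G'] (q : G →* G') (G₀ : Subgroup G),
    Function.Surjective q → R G G₀ → R G' (G₀.map q)
  /-- the trivial group -/
  triv : ∀ (G : Type) [Group G], Subsingleton G → ∀ G₀ : Subgroup G, R G G₀
  /-- base change `x = u ^ m` -/
  bc : ∀ (G : Type) [Group G] [Finite G] (P : Subgroup G) (c : G) (m : ℕ), Dat0 p P c → ¬ p ∣ m →
    R G (Pc P c) → R G (Pc P (c ^ m))
  /-- central kernels -/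
  cen : ∀ (G : Type) [Group G] [Finite G] (r : ℕ) (Z P : Subgroup G) [Z.Normal] (c : G),
    r.Prime → r ≠ p → Dat0 p P c → (∀ a ∈ Z, a ^ r = 1) → Z ≤ Subgroup.center G →
    R (G ⧸ Z) ((Pc P c).map (QuotientGroup.mk' Z)) →
    ∃ z ∈ Z, ∃ G' : Subgroup G, Z ⊔ G' = ⊤ ∧ P ≤ G' ∧ c * z ∈ G' ∧
      R G' ((Pc P (c * z)).subgroupOf G')
  /-- abelian `r`-kernels `M` with `[M, G] = M` -/
  fab : ∀ (G : Type) [Group G] [Finite G] (r : ℕ) (M P : Subgroup G) [M.Normal] (c : G),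
    r.Prime → r ≠ p → Dat0 p P c → (∀ a ∈ M, a ^ r = 1) → (∀ a ∈ M, ∀ b ∈ M, a * b = b * a) →
    M ≤ ⁅M, (⊤ : Subgroup G)⁆ → R (G ⧸ M) ((Pc P c).map (QuotientGroup.mk' M)) →
    ∃ G' : Subgroup G, Pc P c ≤ G' ∧ M ⊔ G' = ⊤ ∧ R G' ((Pc P c).subgroupOf G')
  /-- abelian `p`-kernels -/
  pke : ∀ (G : Type) [Group G] [Finite G] (N P : Subgroup G) [N.Normal] (c : G), Dat0 p P c →
    (∀ a ∈ N, a ^ p = 1) → (∀ a ∈ N, ∀ b ∈ N, a * b = b * a) →
    R (G ⧸ N) ((Pc P c).map (QuotientGroup.mk' N)) →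
    ∃ G' : Subgroup G, Pc P c ≤ G' ∧ N ⊔ G' = ⊤ ∧ R G' ((Pc P c).subgroupOf G')
  /-- split irreducible noncentral kernels -/
  spl : ∀ (G : Type) [Group G] [Finite G] (l : ℕ) (V H P : Subgroup G) [V.Normal] (c : G),
    l.Prime → Dat0 p P c → (∀ a ∈ V, a ^ l = 1) → (∀ a ∈ V, ∀ b ∈ V, a * b = b * a) →
    (∀ K : Subgroup G, K.Normal → K ≤ V → K = ⊥ ∨ K = V) → ¬ V ≤ Subgroup.center G →
    V ⊓ H = ⊥ → V ⊔ H = ⊤ → Pc P c ≤ H → R H ((Pc P c).subgroupOf H) → R G (Pc P c)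

/-- `spl` for sections `B / A` -/
def GSplS : Prop := ∀ (p : ℕ) [Fact p.Prime] (R : ∀ (G : Type) [Group G], Subgroup G → Prop),
  RAx p R → ∀ (G : Type) [Group G] [Finite G] (l : ℕ) (A B H P : Subgroup G) [A.Normal] [B.Normal]
  (c : G), l.Prime → Dat0 p P c → A ≤ B → A ≤ H → (∀ b ∈ B, b ^ l ∈ A) → ⁅B, B⁆ ≤ A →
  (∀ K : Subgroup G, K.Normal → A ≤ K → K ≤ B → K = A ∨ K = B) →
  ¬ ⁅B, (⊤ : Subgroup G)⁆ ≤ A → B ⊓ H ≤ A → B ⊔ H = ⊤ → Pc P c ≤ H →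
  R (G ⧸ B) ((Pc P c).map (QuotientGroup.mk' B)) → R (G ⧸ A) ((Pc P c).map (QuotientGroup.mk' A))

/-- central kernels, with the condition on the normal closure -/
def GCenR : Prop := ∀ (p : ℕ) [Fact p.Prime] (R : ∀ (G : Type) [Group G], Subgroup G → Prop),
  RAx p R → ∀ (G : Type) [Group G] [Finite G] (r : ℕ) (Z P : Subgroup G) [Z.Normal] (c : G),
  r.Prime → r ≠ p → Dat p P c → (∀ a ∈ Z, a ^ r = 1) → Z ≤ Subgroup.center G →
  R (G ⧸ Z) ((Pc P c).map (QuotientGroup.mk' Z)) → ∃ z ∈ Z, R G (Pc P (c * z))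

/-- minimal normal `p`-subgroups -/
def GPksR : Prop := ∀ (p : ℕ) [Fact p.Prime] (R : ∀ (G : Type) [Group G], Subgroup G → Prop),
  RAx p R → ∀ (G : Type) [Group G] [Finite G] (N P : Subgroup G) [N.Normal] (c : G), Dat p P c →
  (∀ a ∈ N, a ^ p = 1) → (∀ a ∈ N, ∀ b ∈ N, a * b = b * a) →
  (∀ K : Subgroup G, K.Normal → K ≤ N → K = ⊥ ∨ K = N) →
  R (G ⧸ N) ((Pc P c).map (QuotientGroup.mk' N)) → R G (Pc P c)

/-! ## `M^J ⋊ G'` -/

section

variable {G : Type} [Group G] (M M0 G' : Subgroup G) [M.Normal] (J : Type)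

/-- `M^J ⋊ G'`: functions `f` on `Option J` with `f none ∈ G'` that are constant modulo `M` -/
def EE : Subgroup (Option J → G) :=
  Fib M (Option J) ⊓ G'.comap (Pi.evalMonoidHom (fun _ : Option J => G) none)

/-- constant functions -/
def dE : G' →* EE M G' J where
  toFun g := ⟨fun _ => g, ⟨fun i j => by simp, g.2⟩⟩
  map_one' := rfl
  map_mul' _ _ := rfl

/-- the functions with `f none = 1` and `f j ∈ M₀` for `j ∈ A` -/
def EA (A : Set J) : Subgroup (EE M G' J) where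
  carrier := {f | f.1 none = 1 ∧ ∀ j ∈ A, f.1 (some j) ∈ M0}
  one_mem' := ⟨rfl, fun _ _ => M0.one_mem⟩
  mul_mem' := by
    intro f g hf hg
    refine ⟨?_, fun j hj => M0.mul_mem (hf.2 j hj) (hg.2 j hj)⟩
    show f.1 none * g.1 none = 1
    rw [hf.1, hg.1, one_mul]
  inv_mem' := by
    intro f hf
    refine ⟨?_, fun j hj => M0.inv_mem (hf.2 j hj)⟩
    show (f.1 none)⁻¹ = 1
    rw [hf.1, inv_one]

end

/-- normality of `EA` and the homomorphism `(m, g) ↦ m j (m j')⁻¹ g` -/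
def GEA : Prop := ∀ (G : Type) [Group G] (M M0 G' : Subgroup G) [M.Normal] (J : Type),
  (M0.Normal → ∀ A : Set J, (EA M M0 G' J A).Normal) ∧
  ((∀ a ∈ M, ∀ b ∈ M, a * b = b * a) → M ⊔ G' = ⊤ → ∀ j j' : J, j ≠ j' →
    ∃ φ : EE M G' J →* G, (∀ f, φ f = f.1 (some j) * (f.1 (some j'))⁻¹ * f.1 none) ∧
      Function.Surjective φ)

/-- the covers with group `(M / M₀)^J ⋊ G'` -/
def GChn : Prop := ∀ (p : ℕ) [Fact p.Prime] (R : ∀ (G : Type) [Group G], Subgroup G → Prop),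
  RAx p R → ∀ (G : Type) [Group G] [Finite G] (r : ℕ) (M M0 G' P : Subgroup G) [M.Normal] (c : G)
  (J : Type) [Finite J] [(EA M M0 G' J Set.univ).Normal] (c' : G'), r.Prime → Dat0 p P c →
  (c' : G) = c → Pc P c ≤ G' → M0.Normal → M0 ≤ M → (∀ a ∈ M, a ^ r ∈ M0) → ⁅M, M⁆ ≤ M0 →
  (∀ K : Subgroup G, K.Normal → M0 ≤ K → K ≤ M → K = M0 ∨ K = M) →
  ¬ ⁅M, (⊤ : Subgroup G)⁆ ≤ M0 → M ⊔ G' = ⊤ → R G' ((Pc P c).subgroupOf G') →
  R (EE M G' J ⧸ EA M M0 G' J Set.univ)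
    ((Pc ((P.subgroupOf G').map (dE M G' J)) (dE M G' J c')).map
      (QuotientGroup.mk' (EA M M0 G' J Set.univ)))

/-- elementary abelian `M = [M, G]` with `M₀ ≤ M` central and `M / M₀` irreducible -/
def GF3a : Prop := ∀ (p : ℕ) [Fact p.Prime] (R : ∀ (G : Type) [Group G], Subgroup G → Prop),
  RAx p R → ∀ (G : Type) [Group G] [Finite G] (r : ℕ) (M M0 P : Subgroup G) [M.Normal] (c : G),
  r.Prime → r ≠ p → Dat p P c → M0.Normal → M0 ≤ M → M0 ≤ Subgroup.center G →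
  (∀ a ∈ M, a ^ r = 1) → (∀ a ∈ M, ∀ b ∈ M, a * b = b * a) → M ≤ ⁅M, (⊤ : Subgroup G)⁆ →
  (∀ K : Subgroup G, K.Normal → M0 ≤ K → K ≤ M → K = M0 ∨ K = M) →
  R (G ⧸ M) ((Pc P c).map (QuotientGroup.mk' M)) → R G (Pc P c)

/-- elementary abelian `M = [M, G]` -/
def GF3b : Prop := ∀ (p : ℕ) [Fact p.Prime] (R : ∀ (G : Type) [Group G], Subgroup G → Prop),
  RAx p R → ∀ (G : Type) [Group G] [Finite G] (r : ℕ) (N P : Subgroup G) [N.Normal] (c : G),
  r.Prime → r ≠ p → Dat p P c → (∀ a ∈ N, a ^ r = 1) → (∀ a ∈ N, ∀ b ∈ N, a * b = b * a) →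
  N ≤ ⁅N, (⊤ : Subgroup G)⁆ →
  R (G ⧸ N) ((Pc P c).map (QuotientGroup.mk' N)) → R G (Pc P c)

/-- the axioms `TAx` follow -/
def GAx : Prop := ∀ (p : ℕ) [Fact p.Prime] (R : ∀ (G : Type) [Group G], Subgroup G → Prop),
  RAx p R → TAx p R

end GT
end MP7b0bad
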