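import Pool.Agent.Work.MP_7b0bad_ag.SV.LStmts

set_option autoImplicit false

/-!
# T0tr: the Galois group is transitive on the places over infinity

Valuation rings of `L` with the same trace on `K` are conjugate under the Galois group.
-/

namespace MP7b0bad

open Polynomial Pointwise

theorem T0tr_mem_ic {K L : Type} [Field K] [Field L] [Algebra K L] (R : ValuationSubring K) (b : L)
    (h : ∀ V : ValuationSubring L, (∀ r ∈ R, algebraMap K L r ∈ V) → b ∈ V) :
    b ∈ integralClosure R L := by
  by_contra hb
  have hI : IsIntegrallyClosedIn (integralClosure R L).toSubring L :=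
    inferInstanceAs (IsIntegrallyClosedIn (integralClosure R L) L)
  obtain ⟨V, hV, hbV⟩ := Subring.exists_le_valuationSubring_of_isIntegrallyClosedIn
    (R := (integralClosure R L).toSubring) hb
  refine hbV (h V fun r hr => hV ?_)
  exact (integralClosure R L).algebraMap_mem ⟨r, hr⟩

/-- two valuation rings with the same trace on `K`; if the centre of `A'` on the integral closure
is contained in the centre of `A`, then `A ≤ A'` -/
theorem T0tr_le {K L : Type} [Field K] [Field L] [Algebra K L] [Algebra.IsAlgebraic K L]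
    (A A' : ValuationSubring L) (hR : A.comap (algebraMap K L) = A'.comap (algebraMap K L))
    (hc : ∀ b ∈ integralClosure (A.comap (algebraMap K L)) L, A'.valuation b < 1 →
      A.valuation b < 1) : A ≤ A' := by
  intro x hx
  by_cases hx0 : x = 0
  · rw [hx0]; exact A'.zero_mem
  obtain ⟨p, hp0, hp⟩ := Algebra.IsAlgebraic.isAlgebraic (R := K) x
  -- the largest index with maximal valuation
  have hex : ∃ i, p.coeff i ≠ 0 ∧ (∀ j, p.coeff j / p.coeff i ∈ A.comap (algebraMap K L)) ∧
      ∀ j, i < j → p.coeff j ≠ 0 → p.coeff i / p.coeff j ∉ A.comap (algebraMap K L) := by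
    set R := A.comap (algebraMap K L) with hRdef
    set v := R.valuation with hv
    obtain ⟨m, hm, hmax⟩ := Finset.exists_max_image p.support (fun i => v (p.coeff i))
      (by simpa [Polynomial.support_nonempty] using hp0)
    set S := p.support.filter (fun i => v (p.coeff i) = v (p.coeff m)) with hS
    have hSne : S.Nonempty := ⟨m, by simp [hS, Polynomial.mem_support_iff.1 hm]⟩
    obtain ⟨i, hi, himax⟩ := Finset.exists_max_image S id hSne
    have hi' := Finset.mem_filter.1 hi
    have hi0 : p.coeff i ≠ 0 := Polynomial.mem_support_iff.1 hi'.1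
    have hvi : v (p.coeff i) ≠ 0 := (Valuation.ne_zero_iff v).2 hi0
    refine ⟨i, hi0, fun j => ?_, fun j hj hj0 hmem => ?_⟩
    · rw [← ValuationSubring.valuation_le_one_iff, map_div₀]
      by_cases hj : p.coeff j = 0
      · rw [hj, map_zero, zero_div]; exact zero_le
      · refine (div_le_one₀ (zero_lt_iff.2 hvi)).2 ?_
        rw [hi'.2]
        exact hmax j (Polynomial.mem_support_iff.2 hj)
    · rw [← ValuationSubring.valuation_le_one_iff, map_div₀] at hmem
      have hvj : v (p.coeff j) ≠ 0 := (Valuation.ne_zero_iff v).2 hj0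
      have h1 := (div_le_one₀ (zero_lt_iff.2 hvj)).1 hmem
      have h2 : v (p.coeff j) = v (p.coeff m) :=
        le_antisymm (hmax j (Polynomial.mem_support_iff.2 hj0)) (hi'.2 ▸ h1)
      have := himax j (Finset.mem_filter.2 ⟨Polynomial.mem_support_iff.2 hj0, h2⟩)
      simp only [id] at this
      omega
  obtain ⟨i, hi0, hiR, hilt⟩ := hex
  set q : ℕ → K := fun j => p.coeff j / p.coeff i with hq
  have hq1 : q i = 1 := div_self hi0
  set n := p.natDegree with hn
  have hin : i ≤ n := Polynomial.le_natDegree_of_ne_zero hi0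
  have hsum : ∑ j ∈ Finset.range (n + 1), algebraMap K L (q j) * x ^ j = 0 := by
    have h1 : Polynomial.aeval x p = 0 := hp
    rw [Polynomial.aeval_eq_sum_range] at h1
    have h2 : ∑ j ∈ Finset.range (n + 1), algebraMap K L (q j) * x ^ j =
        (algebraMap K L (p.coeff i))⁻¹ * ∑ j ∈ Finset.range (n + 1), p.coeff j • x ^ j := by
      rw [Finset.mul_sum]
      refine Finset.sum_congr rfl fun j _ => ?_
      rw [hq, map_div₀, Algebra.smul_def]
      ring
    rw [h2, h1, mul_zero]
  set b : L := ∑ m ∈ Finset.range (n + 1 - i), algebraMap K L (q (i + m)) * x ^ m with hb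
  -- the difference `b - 1` is in the maximal ideal of `A`
  have hvx : A.valuation x ≤ 1 := (A.valuation_le_one_iff x).2 hx
  have hbA : A.valuation (b - 1) < 1 := by
    have h0 : b - 1 = ∑ m ∈ Finset.range (n - i), algebraMap K L (q (i + (m + 1))) *
        x ^ (m + 1) := by
      rw [hb, show n + 1 - i = (n - i) + 1 by omega, Finset.sum_range_succ']
      simp [hq1]
    rw [h0]
    refine Valuation.map_sum_lt A.valuation one_ne_zero fun m _ => ?_
    rw [map_mul, map_pow]
    have h1 : A.valuation (algebraMap K L (q (i + (m + 1)))) < 1 := by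
      by_cases hz : p.coeff (i + (m + 1)) = 0
      · rw [hq]; simp only [hz, zero_div, map_zero]; exact zero_lt_one
      · have hmem : algebraMap K L (q (i + (m + 1))) ∈ A := hiR _
        have hle := (A.valuation_le_one_iff _).2 hmem
        refine lt_of_le_of_ne hle fun he => hilt (i + (m + 1)) (by omega) hz ?_
        rw [ValuationSubring.mem_comap, ← A.valuation_le_one_iff]
        have h3 : algebraMap K L (p.coeff i / p.coeff (i + (m + 1))) =
            (algebraMap K L (q (i + (m + 1))))⁻¹ := by
          rw [hq, ← map_inv₀, inv_div]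
        rw [h3, map_inv₀, he, inv_one]
    calc _ ≤ A.valuation (algebraMap K L (q (i + (m + 1)))) * 1 := by
          gcongr; exact pow_le_one₀ zero_le hvx
      _ < 1 := by rwa [mul_one]
  have hbunit : ¬ A.valuation b < 1 := by
    intro h
    have : A.valuation (1 : L) < 1 := by
      have h2 : (1 : L) = b - (b - 1) := by ring
      rw [h2]
      exact Valuation.map_sub_lt A.valuation h hbA
    rw [map_one] at this
    exact lt_irrefl _ this
  have hb0 : b ≠ 0 := by
    intro h; apply hbunit; rw [h, map_zero]; exact zero_lt_one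
  have hipos : 0 < i := by
    rcases Nat.eq_zero_or_pos i with h | h
    · exfalso; apply hb0
      rw [hb, h]
      simpa using hsum
    · exact h
  set c : L := ∑ m ∈ Finset.range i, algebraMap K L (q (i - 1 - m)) * x⁻¹ ^ m with hcdef
  have hrel : x * b + c = 0 := by
    have h1 : x ^ (i - 1) * (x * b + c) = 0 := by
      rw [← hsum, show n + 1 = i + (n + 1 - i) by omega, Finset.sum_range_add, mul_add, add_comm]
      congr 1
      · rw [hcdef, Finset.mul_sum, ← Finset.sum_range_reflect (fun j => algebraMap K L (q j) * x ^ j)]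
        refine Finset.sum_congr rfl fun m hm => ?_
        have hm' := Finset.mem_range.1 hm
        have : x ^ (i - 1) = x ^ (i - 1 - m) * x ^ m := by rw [← pow_add]; congr 1; omega
        rw [this, inv_pow]
        field_simp
      · rw [hb, Finset.mul_sum, Finset.mul_sum]
        refine Finset.sum_congr rfl fun m _ => ?_
        have : x ^ (i + m) = x ^ (i - 1) * (x * x ^ m) := by
          rw [← pow_succ', ← pow_add]; congr 1; omega
        rw [this]; ring
    exact (mul_eq_zero.1 h1).resolve_left (pow_ne_zero _ hx0)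
  have hqR : ∀ j, q j ∈ A.comap (algebraMap K L) := hiR
  have hcV : ∀ V : ValuationSubring L, (∀ r ∈ A.comap (algebraMap K L), algebraMap K L r ∈ V) →
      (b ∈ V ∧ c ∈ V) := by
    intro V hV
    rcases V.mem_or_inv_mem x with h | h
    · have h1 : b ∈ V := V.toSubring.sum_mem fun m _ =>
        V.toSubring.mul_mem (hV _ (hqR _)) (V.toSubring.pow_mem h m)
      refine ⟨h1, ?_⟩
      have : c = - (x * b) := by linear_combination hrel
      rw [this]
      exact V.toSubring.neg_mem (V.toSubring.mul_mem h h1)
    · have h1 : c ∈ V := V.toSubring.sum_mem fun m _ =>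
        V.toSubring.mul_mem (hV _ (hqR _)) (V.toSubring.pow_mem h m)
      refine ⟨?_, h1⟩
      have : b = - (c * x⁻¹) := by
        field_simp
        linear_combination hrel
      rw [this]
      exact V.toSubring.neg_mem (V.toSubring.mul_mem h1 h)
  have hbic := T0tr_mem_ic (A.comap (algebraMap K L)) b fun V hV => (hcV V hV).1
  have hA' : ∀ r ∈ A.comap (algebraMap K L), algebraMap K L r ∈ A' := by
    intro r hr
    rw [hR] at hr
    exact hr
  have hbA' : b ∈ A' := (hcV A' hA').1
  have hcA' : c ∈ A' := (hcV A' hA').2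
  have hbn : ¬ A'.valuation b < 1 := fun h => hbunit (hc b hbic h)
  have hb1 : A'.valuation b = 1 := le_antisymm ((A'.valuation_le_one_iff b).2 hbA') (not_lt.1 hbn)
  have hbinv : b⁻¹ ∈ A' := by
    rw [← A'.valuation_le_one_iff, map_inv₀, hb1, inv_one]
  have : x = - (c * b⁻¹) := by
    field_simp
    linear_combination hrel
  rw [this]
  exact A'.toSubring.neg_mem (A'.toSubring.mul_mem hcA' hbinv)


/-- valuation rings with the same trace on `K` are conjugate -/
theorem T0tr_conj {K L : Type} [Field K] [Field L] [Algebra K L] [FiniteDimensional K L]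
    [IsGalois K L] (A A' : ValuationSubring L)
    (hR : A.comap (algebraMap K L) = A'.comap (algebraMap K L)) :
    ∃ σ : L ≃ₐ[K] L, σ • A = A' := by
  set R := A.comap (algebraMap K L) with hRdef
  let B := integralClosure R L
  have hBV : ∀ V : ValuationSubring L, (∀ r ∈ R, algebraMap K L r ∈ V) → ∀ b : B, (b : L) ∈ V := by
    intro V hV b
    obtain ⟨f, hf, hfb⟩ := b.2
    by_contra hb
    have hb0 : (b : L) ≠ 0 := fun h => hb (h ▸ V.zero_mem)
    have hI : IsIntegrallyClosedIn V L := inferInstance
    have hint : IsIntegral V (b : L) := by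
      let φ : R →+* V := ((algebraMap K L).comp R.subtype).codRestrict V.toSubring
        (fun r => hV r r.2)
      refine ⟨f.map φ, hf.map φ, ?_⟩
      rw [Polynomial.eval₂_map]
      exact hfb
    obtain ⟨y, hy⟩ := (IsIntegrallyClosedIn.algebraMap_eq_of_integral (R := V) (A := L) hint)
    exact hb (hy ▸ y.2)
  have hA : ∀ r ∈ R, algebraMap K L r ∈ A := fun r hr => hr
  have hA' : ∀ r ∈ R, algebraMap K L r ∈ A' := fun r hr => by rw [hR] at hr; exact hr
  -- centres
  let jA : B →+* A := (integralClosure R L).val.toRingHom.codRestrict A.toSubring (hBV A hA)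
  let jA' : B →+* A' := (integralClosure R L).val.toRingHom.codRestrict A'.toSubring (hBV A' hA')
  let P : Ideal B := (IsLocalRing.maximalIdeal A).comap jA
  let Q : Ideal B := (IsLocalRing.maximalIdeal A').comap jA'
  have hPm : ∀ b : B, b ∈ P ↔ A.valuation (b : L) < 1 := by
    intro b
    rw [← ValuationSubring.mem_nonunits_iff]
    exact (ValuationSubring.coe_mem_nonunits_iff (A := A) (a := jA b)).symm
  have hQm : ∀ b : B, b ∈ Q ↔ A'.valuation (b : L) < 1 := by
    intro b
    rw [← ValuationSubring.mem_nonunits_iff]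
    exact (ValuationSubring.coe_mem_nonunits_iff (A := A') (a := jA' b)).symm
  have hPQ : P.under R = Q.under R := by
    ext r
    have h1 : ((algebraMap R B r : B) : L) = algebraMap K L (r : K) := rfl
    have key : ∀ V : ValuationSubring L, R = V.comap (algebraMap K L) →
        (V.valuation (algebraMap K L (r : K)) < 1 ↔ ((r : K) = 0 ∨ (r : K)⁻¹ ∉ R)) := by
      intro V hV
      have h2 : (r : K)⁻¹ ∈ R ↔ (r : K)⁻¹ ∈ V.comap (algebraMap K L) := by rw [← hV]
      rw [h2, ValuationSubring.mem_comap, map_inv₀, ← ValuationSubring.mem_nonunits_iff,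
        ValuationSubring.mem_nonunits_iff_or]
      simp
    change algebraMap R B r ∈ P ↔ algebraMap R B r ∈ Q
    rw [hPm, hQm, h1, key A rfl, key A' hR]
  have : P.IsPrime := Ideal.IsPrime.comap _
  have : Q.IsPrime := Ideal.IsPrime.comap _
  have : IsFractionRing B L := integralClosure.isFractionRing_of_finite_extension K L
  have : Algebra.IsInvariant R B (B ≃ₐ[R] B) := Algebra.isInvariant_of_isGalois' R K L B
  have : Finite (B ≃ₐ[R] B) := Finite.of_equiv _ (galRestrict R K L B).toEquiv
  obtain ⟨g, hg⟩ := Algebra.IsInvariant.exists_smul_of_under_eq R B (B ≃ₐ[R] B) P Q hPQ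
  let σ : L ≃ₐ[K] L := (galRestrict R K L B).symm g
  have hσ : ∀ b : B, ((g b : B) : L) = σ (b : L) := by
    intro b
    have h1 := algebraMap_galRestrict_apply R (K := K) (L := L) (B := B) σ b
    rw [show galRestrict R K L B σ = g from (galRestrict R K L B).apply_symm_apply g] at h1
    exact h1
  have hcomm : ∀ (τ : L ≃ₐ[K] L) (V : ValuationSubring L), (τ • V).comap (algebraMap K L) =
      V.comap (algebraMap K L) := by
    intro τ V
    ext r
    rw [ValuationSubring.mem_comap, ValuationSubring.mem_comap,
      ValuationSubring.mem_smul_pointwise_iff_exists]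
    constructor
    · rintro ⟨s, hs, h⟩
      have h2 : s = algebraMap K L r := by
        apply τ.injective
        rw [AlgEquiv.commutes]
        exact h
      rwa [← h2]
    · intro h
      exact ⟨_, h, τ.commutes r⟩
  have hval : ∀ (τ : L ≃ₐ[K] L) (V : ValuationSubring L) (x : L),
      (τ • V).valuation (τ x) < 1 ↔ V.valuation x < 1 := by
    intro τ V x
    rw [← ValuationSubring.mem_nonunits_iff, ← ValuationSubring.mem_nonunits_iff,
      ValuationSubring.mem_nonunits_iff_or, ValuationSubring.mem_nonunits_iff_or,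
      ValuationSubring.mem_smul_pointwise_iff_exists]
    have h1 : (∃ s ∈ V, τ • s = (τ x)⁻¹) ↔ x⁻¹ ∈ V := by
      constructor
      · rintro ⟨s, hs, h⟩
        have h2 : s = x⁻¹ := by
          apply τ.injective
          rw [map_inv₀]
          exact h
        rwa [← h2]
      · intro h
        exact ⟨_, h, map_inv₀ τ x⟩
    rw [h1]
    simp
  refine ⟨σ, le_antisymm ?_ ?_⟩
  · refine T0tr_le (K := K) _ _ ((hcomm σ A).trans hR) ?_
    rw [hcomm σ A]
    intro b hb hlt
    have h2 : (⟨b, hb⟩ : B) ∈ g • P := by
      rw [← hg, hQm]; exact hlt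
    obtain ⟨b', hb', he⟩ := (Ideal.mem_pointwise_smul_iff_inv_smul_mem.1 h2 : g⁻¹ • (⟨b, hb⟩ : B) ∈ P) |> fun h =>
      (⟨_, h, smul_inv_smul g _⟩ : ∃ b' : B, b' ∈ P ∧ g • b' = ⟨b, hb⟩)
    have h3 : σ (b' : L) = b := by
      rw [← hσ b']
      exact congrArg Subtype.val he
    rw [← h3, hval]
    exact (hPm b').1 hb'
  · refine T0tr_le (K := K) _ _ (((hcomm σ A).trans hR).symm) ?_
    rw [← hR]
    intro b hb hlt
    have h5 : (⟨b, hb⟩ : B) ∈ Q := by
      rw [hg]
      have h4 : g⁻¹ • (⟨b, hb⟩ : B) ∈ P := by
        rw [hPm, ← hval σ A, ← hσ]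
        have : g (g⁻¹ • (⟨b, hb⟩ : B)) = ⟨b, hb⟩ := smul_inv_smul g _
        rw [this]
        exact hlt
      exact Ideal.mem_pointwise_smul_iff_inv_smul_mem.2 h4
    exact (hQm _).1 h5

open Classical in
theorem T0tr_comap {k : Type} [Field k] {L : Type} [Field L] [Algebra (RatFunc k) L]
    (A : ValuationSubring L) (hA : AtInfty (k := k) A) (r : RatFunc k) :
    r ∈ A.comap (algebraMap (RatFunc k) L) ↔ RatFunc.inftyValuation k r ≤ 1 := by
  set v := A.valuation.comap (algebraMap (RatFunc k) L) with hv
  have htriv : v.IsTrivialOn k := by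
    refine ⟨fun a ha => ?_⟩
    have h1 : A.valuation (algebraMap (RatFunc k) L (algebraMap k (RatFunc k) a)) ≤ 1 :=
      (A.valuation_le_one_iff _).2 (hA.1 a)
    have h2 : A.valuation (algebraMap (RatFunc k) L (algebraMap k (RatFunc k) a⁻¹)) ≤ 1 :=
      (A.valuation_le_one_iff _).2 (hA.1 a⁻¹)
    have h3 : A.valuation (algebraMap (RatFunc k) L (algebraMap k (RatFunc k) a)) *
        A.valuation (algebraMap (RatFunc k) L (algebraMap k (RatFunc k) a⁻¹)) = 1 := by
      rw [← map_mul, ← map_mul, ← map_mul, mul_inv_cancel₀ ha, map_one, map_one, map_one]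
    refine le_antisymm h1 ?_
    by_contra hlt
    rw [not_le] at hlt
    have : A.valuation (algebraMap (RatFunc k) L (algebraMap k (RatFunc k) a)) *
        A.valuation (algebraMap (RatFunc k) L (algebraMap k (RatFunc k) a⁻¹)) < 1 :=
      mul_lt_one_of_lt_of_le hlt h2
    rw [h3] at this
    exact lt_irrefl _ this
  have hX : 1 < v RatFunc.X := by
    have := hA.2
    rw [← A.valuation_le_one_iff, not_le] at this
    exact this
  have he := RatFunc.valuation_isEquiv_inftyValuation_of_one_lt_valuation_X hX
  rw [ValuationSubring.mem_comap, ← A.valuation_le_one_iff]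
  exact he.le_one_iff_le_one

theorem prf_T0tr : T0tr := by
  intro k _ L _ _ _ _ A A' hA hA'
  refine T0tr_conj A A' ?_
  ext r
  rw [T0tr_comap A hA, T0tr_comap A' hA']

end MP7b0bad
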