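import Pool.Agent.Work.MP_7b0bad_ag.Bd.B12

set_option autoImplicit false

/-!
# Join with arbitrary outer group, part 1: patching without the field at infinity

Copies of the statements and proofs of the library (QP1, QB2, QV1, QV3, QV4S, QV5, QV7, QT1) for
outer torsors without the local extension at infinity.
-/

namespace MP7b0bad.JP

open Polynomial

/-- The outer torsor (any finite group `P`) over the `x`-line over `K = k((T))` with its maps to the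
algebras `Q i` over `F` at the discs. -/
structure Outer (k : Type) [Field k] (N : ℕ) (ξ : Fin N → Fk k) (P : Type) [Group P]
    (P' : Fin N → Type) [∀ i, Group (P' i)] (π : ∀ i, P' i →* P)
    (Q : Fin N → Type) [∀ i, CommRing (Q i)] [∀ i, Algebra (Fk k) (Q i)]
    [∀ i, MulSemiringAction (P' i) (Q i)] where
  A : Type
  [ringA : CommRing A]
  [algA : Algebra (LaurentSeries k)[X] A]
  [actA : MulSemiringAction P A]
  gal : GalAlg (LaurentSeries k)[X] P A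
  a : ∀ i, A →+* Q i
  a_alg : ∀ i (f : (LaurentSeries k)[X]),
    a i (algebraMap (LaurentSeries k)[X] A f) = algebraMap (Fk k) (Q i) (f.eval₂ (KF k) (ξ i))
  a_act : ∀ i (g : P' i) (e : A), a i (π i g • e) = g • a i e

attribute [instance] Outer.ringA Outer.algA Outer.actA
/-- functions on `P` with values in the `S`-span of the outer torsor -/
noncomputable def SM {k : Type} [Field k] {N : ℕ} {ξ : Fin N → Fk k} {P : Type} [Group P]
    {P' : Fin N → Type} [∀ i, Group (P' i)] {π : ∀ i, P' i →* P}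
    {Q : Fin N → Type} [∀ i, CommRing (Q i)] [∀ i, Algebra (Fk k) (Q i)]
    [∀ i, MulSemiringAction (P' i) (Q i)] (O : Outer k N ξ P P' π Q) :
    Subring (P → ∀ i, Q i) :=
  Subring.closure ({u | ∃ s ∈ Ss k, u = fun _ i => algebraMap (Fk k) (Q i) s} ∪
    {u | ∃ e : O.A, u = fun γ i => O.a i (γ⁻¹ • e)})

section

variable {k : Type} [Field k] {N : ℕ} {ξ : Fin N → Fk k} {G : Type} [Group G] {P : Subgroup G}
  {P' : Fin N → Subgroup G} {hP : ∀ i, P' i ≤ P} {H : Fin N → Subgroup G} {hH : ∀ i, P' i ≤ H i}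
  {Q : Fin N → Type} [∀ i, CommRing (Q i)] [∀ i, Algebra (Fk k) (Q i)]
  [∀ i, MulSemiringAction (P' i) (Q i)]

/-- functions whose restrictions to the cosets of `P` are in `SM` -/
noncomputable def InSQ (O : Outer k N ξ P (fun i => P' i) (fun i => Subgroup.inclusion (hP i)) Q) :
    Subring (G → ∀ i, Q i) where
  carrier := {v | ∀ g : G, (fun γ : P => v (g * γ)) ∈ SM O}
  one_mem' := fun g => (SM O).one_mem
  mul_mem' := fun {u v} hu hv g => (SM O).mul_mem (hu g) (hv g)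
  zero_mem' := fun g => (SM O).zero_mem
  add_mem' := fun {u v} hu hv g => (SM O).add_mem (hu g) (hv g)
  neg_mem' := fun {u} hu g => (SM O).neg_mem (hu g)

/-- the patched ring -/
noncomputable def BQ (O : Outer k N ξ P (fun i => P' i) (fun i => Subgroup.inclusion (hP i)) Q)
    (c : ∀ i, Inner k (H i) (P' i) (Subgroup.inclusion (hH i)) (Q i)) :
    Subring (G → ∀ i, Q i) := EqQ G P' Q ⊓ InSQ O ⊓ InRQ c

end

/-- description of `SM`, equivariance and translates -/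
def QP1 : Prop := ∀ (k : Type) [Field k] (N : ℕ) (ξ : Fin N → Fk k) (P : Type) [Group P]
  (P' : Fin N → Type) [∀ i, Group (P' i)] (π : ∀ i, P' i →* P)
  (Q : Fin N → Type) [∀ i, CommRing (Q i)] [∀ i, Algebra (Fk k) (Q i)]
  [∀ i, MulSemiringAction (P' i) (Q i)] (O : Outer k N ξ P P' π Q) (u : P → ∀ i, Q i),
  (u ∈ SM O ↔ ∃ (n : ℕ) (s : Fin n → Fk k) (e : Fin n → O.A), (∀ m, s m ∈ Ss k) ∧
    ∀ (γ : P) i, u γ i = ∑ m, algebraMap (Fk k) (Q i) (s m) * O.a i (γ⁻¹ • e m)) ∧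
  (u ∈ SM O → (∀ i, GalAlg (Fk k) (P' i) (Q i)) →
    ∀ (γ : P) i (τ : P' i), τ • u (γ * π i τ) i = u γ i) ∧
  (u ∈ SM O → ∀ δ : P, (fun γ => u (δ * γ)) ∈ SM O)

/-- basis adapted to `SM` -/
def QB2 : Prop := ∀ (k : Type) [Field k] (N : ℕ) (V : (LaurentSeries k)[X]) (ξ : Fin N → Fk k)
  (P : Type) [Group P] [Finite P] (P' : Fin N → Type) [∀ i, Group (P' i)] [∀ i, Finite (P' i)]
  (π : ∀ i, P' i →* P) (Q : Fin N → Type) [∀ i, CommRing (Q i)] [∀ i, Algebra (Fk k) (Q i)]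
  [∀ i, MulSemiringAction (P' i) (Q i)] (O : Outer k N ξ P P' π Q), DiscsK k N V ξ → 0 < N →
  (∀ i, GalAlg (Fk k) (P' i) (Q i)) →
  ∃ (n : ℕ) (β : Module.Basis (Fin n) (LaurentSeries k)[X] O.A),
    (∀ u : P → ∀ i, Q i, (∀ (γ : P) i (τ : P' i), τ • u (γ * π i τ) i = u γ i) →
      ∃! s : Fin n → Fin N → Fk k, ∀ (γ : P) i, u γ i =
        ∑ l, algebraMap (Fk k) (Q i) (∑ j, s l j * ξ i ^ (j : ℕ)) * O.a i (γ⁻¹ • β l)) ∧
    ∀ s : Fin n → Fin N → Fk k, (fun (γ : P) i =>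
        ∑ l, algebraMap (Fk k) (Q i) (∑ j, s l j * ξ i ^ (j : ℕ)) * O.a i (γ⁻¹ • β l)) ∈ SM O ↔
      ∀ l j, s l j ∈ Ss k

/-- basis adapted to `InSQ` -/
def QV1 : Prop := ∀ (k : Type) [Field k] (N : ℕ) (V : (LaurentSeries k)[X]) (ξ : Fin N → Fk k)
  (G : Type) [Group G] [Finite G] (P : Subgroup G) (P' : Fin N → Subgroup G) (hP : ∀ i, P' i ≤ P)
  (Q : Fin N → Type) [∀ i, CommRing (Q i)] [∀ i, Algebra (Fk k) (Q i)]
  [∀ i, MulSemiringAction (P' i) (Q i)]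
  (O : Outer k N ξ P (fun i => P' i) (fun i => Subgroup.inclusion (hP i)) Q)
  (hQ : ∀ i, GalAlg (Fk k) (P' i) (Q i)), DiscsK k N V ξ → 0 < N →
  ∃ (ι' : Type) (_ : Fintype ι') (e : Module.Basis ι' (Fk k) (VQ (G := G) hQ)),
    ∀ v : VQ (G := G) hQ, (v : G → ∀ i, Q i) ∈ InSQ O ↔ ∀ i, e.repr v i ∈ Ss k

/-- a common basis -/
def QV3 : Prop := ∀ (k : Type) [Field k] (N : ℕ) (V : (LaurentSeries k)[X]) (ξ : Fin N → Fk k)
  (G : Type) [Group G] [Finite G] (P : Subgroup G) (P' : Fin N → Subgroup G) (hP : ∀ i, P' i ≤ P)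
  (H : Fin N → Subgroup G) (hH : ∀ i, P' i ≤ H i)
  (Q : Fin N → Type) [∀ i, CommRing (Q i)] [∀ i, Algebra (Fk k) (Q i)]
  [∀ i, MulSemiringAction (P' i) (Q i)]
  (O : Outer k N ξ P (fun i => P' i) (fun i => Subgroup.inclusion (hP i)) Q)
  (c : ∀ i, Inner k (H i) (P' i) (Subgroup.inclusion (hH i)) (Q i)),
  (∀ i, GalAlg (Fk k) (P' i) (Q i)) → DiscsK k N V ξ → 0 < N →
  ∃ (n : ℕ) (b : Fin n → G → ∀ i, Q i), (∀ l, b l ∈ BQ O c) ∧
    (∀ v ∈ EqQ G P' Q ⊓ InSQ O, ∃ s : Fin n → Fk k, (∀ l, s l ∈ Ss k) ∧ v = ∑ l, s l • b l) ∧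
    (∀ v ∈ EqQ G P' Q ⊓ InRQ c, ∃ s : Fin n → Fk k, (∀ l, s l ∈ Rr k) ∧ v = ∑ l, s l • b l) ∧
    (∀ a : Fin n → Fk k, ∑ l, a l • b l = 0 → a = 0) ∧
    ∀ v ∈ BQ O c, ∃ f : Fin n → (LaurentSeries k)[X], v = ∑ l, jj k (f l) • b l

def QV4S : Prop := ∀ (k : Type) [Field k] (N : ℕ) (ξ : Fin N → Fk k)
  (G : Type) [Group G] [Finite G] (P : Subgroup G) (P' : Fin N → Subgroup G) (hP : ∀ i, P' i ≤ P)
  (Q : Fin N → Type) [∀ i, CommRing (Q i)] [∀ i, Algebra (Fk k) (Q i)]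
  [∀ i, MulSemiringAction (P' i) (Q i)]
  (O : Outer k N ξ P (fun i => P' i) (fun i => Subgroup.inclusion (hP i)) Q) (σ : G),
  (∀ i, GalAlg (Fk k) (P' i) (Q i)) → σ ≠ 1 →
  ∃ (n : ℕ) (α β : Fin n → G → ∀ i, Q i),
    (∀ m, α m ∈ EqQ G P' Q ⊓ InSQ O ∧ β m ∈ EqQ G P' Q ⊓ InSQ O) ∧
    ∑ m, α m * (β m - trQ σ (β m)) = 1

def QV5 : Prop := ∀ (k : Type) [Field k] (N : ℕ) (V : (LaurentSeries k)[X]) (ξ : Fin N → Fk k)
  (G : Type) [Group G] [Finite G] (P : Subgroup G) (P' : Fin N → Subgroup G) (hP : ∀ i, P' i ≤ P)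
  (H : Fin N → Subgroup G) (hH : ∀ i, P' i ≤ H i)
  (Q : Fin N → Type) [∀ i, CommRing (Q i)] [∀ i, Algebra (Fk k) (Q i)]
  [∀ i, MulSemiringAction (P' i) (Q i)]
  (O : Outer k N ξ P (fun i => P' i) (fun i => Subgroup.inclusion (hP i)) Q)
  (c : ∀ i, Inner k (H i) (P' i) (Subgroup.inclusion (hH i)) (Q i)) (σ : G),
  (∀ i, GalAlg (Fk k) (P' i) (Q i)) → DiscsK k N V ξ → 0 < N → σ ≠ 1 →
  ∃ (n : ℕ) (α β : Fin n → G → ∀ i, Q i), (∀ m, α m ∈ BQ O c ∧ β m ∈ BQ O c) ∧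
    ∑ m, α m * (β m - trQ σ (β m)) = 1

/-- invariants of the patched ring -/
def QV7 : Prop := ∀ (k : Type) [Field k] (N : ℕ) (V : (LaurentSeries k)[X]) (ξ : Fin N → Fk k)
  (G : Type) [Group G] [Finite G] (P : Subgroup G) (P' : Fin N → Subgroup G) (hP : ∀ i, P' i ≤ P)
  (H : Fin N → Subgroup G) (hH : ∀ i, P' i ≤ H i)
  (Q : Fin N → Type) [∀ i, CommRing (Q i)] [∀ i, Algebra (Fk k) (Q i)]
  [∀ i, MulSemiringAction (P' i) (Q i)]
  (O : Outer k N ξ P (fun i => P' i) (fun i => Subgroup.inclusion (hP i)) Q)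
  (c : ∀ i, Inner k (H i) (P' i) (Subgroup.inclusion (hH i)) (Q i)),
  (∀ i, GalAlg (Fk k) (P' i) (Q i)) → DiscsK k N V ξ → 0 < N →
  ∀ v ∈ BQ O c, (∀ σ : G, trQ σ v = v) → ∃ f : (LaurentSeries k)[X], v = cstQ k ξ G Q f

/-- constants and translations -/
def QT1 : Prop := ∀ (k : Type) [Field k] (N : ℕ) (V : (LaurentSeries k)[X]) (ξ : Fin N → Fk k)
  (G : Type) [Group G] (P : Subgroup G) (P' : Fin N → Subgroup G) (hP : ∀ i, P' i ≤ P)
  (H : Fin N → Subgroup G) (hH : ∀ i, P' i ≤ H i)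
  (Q : Fin N → Type) [∀ i, CommRing (Q i)] [∀ i, Algebra (Fk k) (Q i)]
  [∀ i, MulSemiringAction (P' i) (Q i)]
  (O : Outer k N ξ P (fun i => P' i) (fun i => Subgroup.inclusion (hP i)) Q)
  (c : ∀ i, Inner k (H i) (P' i) (Subgroup.inclusion (hH i)) (Q i)),
  (∀ i, GalAlg (Fk k) (P' i) (Q i)) → DiscsK k N V ξ →
  (∀ f, cstQ k ξ G Q f ∈ BQ O c) ∧ ∀ (σ : G), ∀ v ∈ BQ O c, trQ σ v ∈ BQ O c

end MP7b0bad.JP
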