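import Pool.Agent.Work.MP_7b0bad_ag.SV.JB

set_option autoImplicit false

/-!
# Join with arbitrary outer group, part 3: the patching theorem with one disc
-/

namespace MP7b0bad.JP

open Polynomial TensorProduct

/-- the ring `RN c` has no zero divisors -/
theorem RN_mul_zero (hQB1 : QB1) {k : Type} [Field k] {H P' : Type} [Group H] [Finite H] [Group P']
    [Finite P'] {π : P' →* H} {Q : Type} [CommRing Q] [Algebra (Fk k) Q] [MulSemiringAction P' Q]
    (c : Inner k H P' π Q) (hQ : GalAlg (Fk k) P' Q) (u v : H → Q) (hu : u ∈ RN c)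
    (hv : v ∈ RN c) (huv : u * v = 0) : u = 0 ∨ v = 0 := by
  classical
  obtain ⟨χ, hχ⟩ := prf_A3 k
  have := c.dom
  obtain ⟨n, β, hβ1, hβ2⟩ := hQB1 k H P' π Q c hQ
  let τ : k[X] →+* Rr k := (toX k).codRestrict (Rr k) (D3_toX_mem k)
  have hτ : ∀ a, ((τ a : Rr k) : Fk k) = toX k a := fun a => rfl
  let _ : Algebra k[X] (Rr k) := τ.toAlgebra
  have halg : ∀ f, algebraMap k[X] (Rr k) f = τ f := fun f => rfl
  have h1 : ∀ γ : H, ∃ F : (Rr k) ⊗[k[X]] c.B →+* Q,
      ∀ r b, F (r ⊗ₜ b) = algebraMap (Fk k) Q (r : Fk k) * c.ι (γ⁻¹ • b) := by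
    intro γ
    refine QTh_lift ((algebraMap (Fk k) Q).comp (Rr k).subtype)
      (c.ι.comp (MulSemiringAction.toRingHom H c.B γ⁻¹)) fun f => ?_
    simp only [RingHom.comp_apply, MulSemiringAction.toRingHom_apply]
    rw [halg, c.gal.comm, c.ι_alg]
    rfl
  choose F1 hF1 using h1
  obtain ⟨F2, hF2⟩ := QTh_lift (R := k[X]) ((D3_map (algebraMap k[X] c.B)).comp χ)
    (HahnSeries.C : c.B →+* LaurentSeries c.B) (fun f => by
      rw [RingHom.comp_apply, halg, D3_chi χ hχ]
      ext n
      rw [D3_map_coeff, D3_coeff_C, D3_coeff_C]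
      split_ifs <;> simp)
  let bb : Module.Basis (Fin n) (Rr k) ((Rr k) ⊗[k[X]] c.B) := Algebra.TensorProduct.basis (Rr k) β
  have hbb : ∀ z : (Rr k) ⊗[k[X]] c.B, z = ∑ l, (bb.repr z l) ⊗ₜ β l := by
    intro z
    conv_lhs => rw [← bb.sum_repr z]
    refine Finset.sum_congr rfl fun l _ => ?_
    rw [Algebra.TensorProduct.basis_apply, TensorProduct.smul_tmul', smul_eq_mul, mul_one]
  have hF2inj : ∀ z, F2 z = 0 → z = 0 := by
    intro z hz
    rw [hbb z, map_sum] at hz
    have h3 : ∀ l, bb.repr z l = 0 := by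
      intro l
      apply D3_chi_inj χ hχ
      refine HahnSeries.ext (funext fun m => ?_)
      have h4 : ∑ l, (χ (bb.repr z l)).coeff m • β l = 0 := by
        have h2 := congrArg (fun f : LaurentSeries c.B => f.coeff m) hz
        simp only [HahnSeries.coeff_sum, HahnSeries.coeff_zero] at h2
        rw [← h2]
        refine Finset.sum_congr rfl fun l _ => ?_
        rw [hF2, mul_comm, HahnSeries.C_mul_eq_smul, HahnSeries.coeff_smul, RingHom.comp_apply,
          D3_map_coeff, Algebra.smul_def, smul_eq_mul, mul_comm]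
      have h5 := Fintype.linearIndependent_iff.1 β.linearIndependent _ h4 l
      rw [h5]
      simp
    rw [hbb z]
    refine Finset.sum_eq_zero fun l _ => ?_
    rw [h3, TensorProduct.zero_tmul]
  -- every element of `RN c` comes from the tensor product
  have hpre : ∀ u ∈ RN c, ∃ z, (∀ γ, F1 γ z = u γ) := by
    intro u hu
    let S : Subring (H → Q) :=
      { carrier := {u | ∃ z, ∀ γ, F1 γ z = u γ}
        one_mem' := ⟨1, fun γ => by rw [map_one]; rfl⟩
        mul_mem' := by
          rintro a b ⟨z, hz⟩ ⟨z', hz'⟩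
          exact ⟨z * z', fun γ => by rw [map_mul, hz, hz']; rfl⟩
        zero_mem' := ⟨0, fun γ => by rw [map_zero]; rfl⟩
        add_mem' := by
          rintro a b ⟨z, hz⟩ ⟨z', hz'⟩
          exact ⟨z + z', fun γ => by rw [map_add, hz, hz']; rfl⟩
        neg_mem' := by
          rintro a ⟨z, hz⟩
          exact ⟨((-1 : Rr k) ⊗ₜ 1) * z, fun γ => by
            rw [map_mul, hF1, hz, smul_one, map_one, mul_one, Subring.coe_neg, Subring.coe_one,
              map_neg, map_one, neg_one_mul]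
            rfl⟩ }
    have hle : RN c ≤ S := by
      refine Subring.closure_le.2 ?_
      rintro v (⟨s, hs, rfl⟩ | ⟨e, rfl⟩)
      · refine ⟨(⟨s, hs⟩ : Rr k) ⊗ₜ 1, fun γ => ?_⟩
        rw [hF1, smul_one, map_one, mul_one]
      · refine ⟨1 ⊗ₜ e, fun γ => ?_⟩
        rw [hF1]
        simp
    exact hle hu
  have hF1inj : ∀ z, (∀ γ, F1 γ z = 0) → z = 0 := by
    intro z hz
    have h2 := (hβ1 0 (fun γ τ => by simp)).unique
      (y₁ := fun l => ((bb.repr z l : Rr k) : Fk k)) (y₂ := 0)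
      (fun γ => by
        have h3 := hz γ
        rw [hbb z, map_sum] at h3
        rw [Pi.zero_apply, ← h3]
        refine Finset.sum_congr rfl fun l _ => ?_
        rw [hF1]) (fun γ => by simp)
    rw [hbb z]
    refine Finset.sum_eq_zero fun l _ => ?_
    have h3 : bb.repr z l = 0 := Subtype.ext (congrFun h2 l)
    rw [h3, TensorProduct.zero_tmul]
  obtain ⟨z, hz⟩ := hpre u hu
  obtain ⟨z', hz'⟩ := hpre v hv
  have h0 : z * z' = 0 := by
    apply hF1inj
    intro γ
    rw [map_mul, hz, hz']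
    exact congrFun huv γ
  have h3 : F2 z * F2 z' = 0 := by rw [← map_mul, h0, map_zero]
  rcases mul_eq_zero.1 h3 with h | h
  · left
    funext γ
    rw [← hz, hF2inj z h, map_zero]
    rfl
  · right
    funext γ
    rw [← hz', hF2inj z' h, map_zero]
    rfl

/-- the map of `SM` to a local extension at infinity with group `G₀` -/
theorem prf_JTh (hQC2a : QC2a) (hQC2c : QC2c) (hQB2 : QB2) (hQP1 : QP1)
    (k : Type) [Field k] (N : ℕ) (V : (LaurentSeries k)[X]) (ξ : Fin N → Fk k)
    (P : Type) [Group P] [Finite P] (P' : Fin N → Type) [∀ i, Group (P' i)] [∀ i, Finite (P' i)]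
    (π : ∀ i, P' i →* P) (Q : Fin N → Type) [∀ i, CommRing (Q i)] [∀ i, Algebra (Fk k) (Q i)]
    [∀ i, MulSemiringAction (P' i) (Q i)] (O : Outer k N ξ P P' π Q) (hD : DiscsK k N V ξ)
    (hN : 0 < N) (hG : ∀ i, GalAlg (Fk k) (P' i) (Q i))
    (G₀ : Type) [Group G₀] (π₀ : G₀ →* P) (E : Type) [CommRing E]
    [Algebra (LaurentSeries (LaurentSeries k)) E] [MulSemiringAction G₀ E]
    (hEc : ∀ (g : G₀) (a : LaurentSeries (LaurentSeries k)),
      g • algebraMap (LaurentSeries (LaurentSeries k)) E a =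
        algebraMap (LaurentSeries (LaurentSeries k)) E a) (j : O.A →+* E)
    (j_alg : ∀ f : (LaurentSeries k)[X], j (algebraMap (LaurentSeries k)[X] O.A f) =
      algebraMap (LaurentSeries (LaurentSeries k)) E (atInf (LaurentSeries k) f))
    (j_act : ∀ (g : G₀) (e : O.A), j (π₀ g • e) = g • j e) :
    ∃ Θ : SM O →+* E,
      (∀ (e : O.A) (h : (fun (γ : P) i => O.a i (γ⁻¹ • e)) ∈ SM O), Θ ⟨_, h⟩ = j e) ∧
      ∀ (u : P → ∀ i, Q i) (h : u ∈ SM O) (δ : G₀) (h' : (fun γ => u ((π₀ δ)⁻¹ * γ)) ∈ SM O),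
        Θ ⟨_, h'⟩ = δ • Θ ⟨u, h⟩ := by
  obtain ⟨A1, _, o, x, a, aI, h1, h2, h3, h4, h5, h6, h7⟩ := hQC2c k N V ξ hD hN
  obtain ⟨n, β, hβ1, hβ2⟩ := hQB2 k N V ξ P P' π Q O hD hN hG
  -- K → S
  let ks : LaurentSeries k →+* Ss k :=
    ((jj k).comp (C : LaurentSeries k →+* (LaurentSeries k)[X])).codRestrict (Ss k)
      (fun c => by rw [RingHom.comp_apply, QTh_jjC]; exact QTh_KF_Ss k c)
  let κ : (LaurentSeries k)[X] →+* A1 := eval₂RingHom (o.comp ks) x
  have hκa : ∀ i f, a i (κ f) = f.eval₂ (KF k) (ξ i) := by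
    intro i f
    have : (a i).comp κ = eval₂RingHom (KF k) (ξ i) := by
      refine Polynomial.ringHom_ext (fun c => ?_) ?_
      · simp only [κ, RingHom.comp_apply, coe_eval₂RingHom, eval₂_C]
        rw [h1]
        change jj k (C c) = _
        exact QTh_jjC k c
      · simp only [κ, RingHom.comp_apply, coe_eval₂RingHom, eval₂_X]
        exact h2 i
    exact congrArg (fun g => g f) this
  have hκI : ∀ f, aI (κ f) = atInf (LaurentSeries k) f := by
    intro f
    have : aI.comp κ = atInf (LaurentSeries k) := by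
      refine Polynomial.ringHom_ext (fun c => ?_) ?_
      · simp only [κ, RingHom.comp_apply, coe_eval₂RingHom, eval₂_C]
        have := h6 (C c) (by rw [QTh_jjC]; exact QTh_KF_Ss k c)
        rw [C_comp] at this
        exact this
      · simp only [κ, RingHom.comp_apply, coe_eval₂RingHom, eval₂_X]
        exact h5
    exact congrArg (fun g => g f) this
  let _ : Algebra (LaurentSeries k)[X] A1 := κ.toAlgebra
  have halg : ∀ f, algebraMap (LaurentSeries k)[X] A1 f = κ f := fun f => rfl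
  -- the map to functions
  have hUi : ∀ (γ : P) (i : Fin N), ∃ F : A1 ⊗[(LaurentSeries k)[X]] O.A →+* Q i,
      ∀ α e, F (α ⊗ₜ e) = algebraMap (Fk k) (Q i) (a i α) * O.a i (γ⁻¹ • e) := by
    intro γ i
    refine QTh_lift ((algebraMap (Fk k) (Q i)).comp (a i))
      ((O.a i).comp (MulSemiringAction.toRingHom P O.A γ⁻¹)) fun f => ?_
    simp only [RingHom.comp_apply, MulSemiringAction.toRingHom_apply]
    rw [halg, hκa, O.gal.comm, O.a_alg]
  choose Ui hUi using hUi
  obtain ⟨W, hW⟩ := QTh_lift (R := (LaurentSeries k)[X])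
    ((algebraMap (LaurentSeries (LaurentSeries k)) E).comp aI) j (fun f => by
      rw [RingHom.comp_apply, halg, hκI, j_alg])
  let U : A1 ⊗[(LaurentSeries k)[X]] O.A →+* (P → ∀ i, Q i) :=
    RingHom.pi fun γ => RingHom.pi fun i => Ui γ i
  have hU : ∀ z γ i, U z γ i = Ui γ i z := fun z γ i => rfl
  -- basis
  let bb : Module.Basis (Fin n) A1 (A1 ⊗[(LaurentSeries k)[X]] O.A) :=
    Algebra.TensorProduct.basis A1 β
  have hbb : ∀ z : A1 ⊗[(LaurentSeries k)[X]] O.A, z = ∑ l, (bb.repr z l) ⊗ₜ β l := by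
    intro z
    conv_lhs => rw [← bb.sum_repr z]
    refine Finset.sum_congr rfl fun l _ => ?_
    rw [Algebra.TensorProduct.basis_apply, TensorProduct.smul_tmul', smul_eq_mul, mul_one]
  -- coordinates
  have hco : ∀ z : A1 ⊗[(LaurentSeries k)[X]] O.A, ∃ c : Fin n → Fin N → Ss k,
      (∀ l, bb.repr z l = ∑ j, o (c l j) * x ^ (j : ℕ)) ∧
      U z = fun (γ : P) i => ∑ l, algebraMap (Fk k) (Q i) (∑ j, (c l j : Fk k) * ξ i ^ (j : ℕ)) *
        O.a i (γ⁻¹ • β l) := by
    intro z
    choose c hc using fun l => h7 (bb.repr z l)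
    refine ⟨c, hc, ?_⟩
    funext γ i
    rw [hU]
    conv_lhs => rw [hbb z]
    rw [map_sum]
    refine Finset.sum_congr rfl fun l _ => ?_
    rw [hUi, hc l, map_sum]
    congr 2
    refine Finset.sum_congr rfl fun j _ => ?_
    rw [map_mul, map_pow, h1, h2]
  have hUinj : Function.Injective U := by
    rw [injective_iff_map_eq_zero]
    intro z hz
    obtain ⟨c, hc1, hc2⟩ := hco z
    have hu := hβ1 0 (fun γ i τ => by simp)
    have e1 : (fun l j => (c l j : Fk k)) = (fun _ _ => 0 : Fin n → Fin N → Fk k) := by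
      refine hu.unique (fun γ i => ?_) (fun γ i => ?_)
      · have := congrFun (congrFun (hc2.symm.trans hz) γ) i
        exact this.symm
      · simp
    have e2 : ∀ l j, c l j = 0 := fun l j => by
      have := congrFun (congrFun e1 l) j
      exact Subtype.ext this
    have e3 : bb.repr z = 0 := by
      ext l
      rw [hc1 l]
      simp [e2]
    exact bb.repr.map_eq_zero_iff.1 e3
  have hUmem : ∀ z, U z ∈ SM O := by
    intro z
    obtain ⟨c, hc1, hc2⟩ := hco z
    rw [hc2]
    exact (hβ2 (fun l j => (c l j : Fk k))).2 fun l j => (c l j).2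
  have hUe : ∀ e : O.A, U (1 ⊗ₜ e) = fun (γ : P) i => O.a i (γ⁻¹ • e) := by
    intro e
    funext γ i
    rw [hU, hUi, map_one, map_one, one_mul]
  have hUsurj : ∀ u ∈ SM O, ∃ z, U z = u := by
    intro u hu
    have hle : SM O ≤ U.range := by
      refine Subring.closure_le.2 ?_
      rintro v (⟨s, hs, rfl⟩ | ⟨e, rfl⟩)
      · refine ⟨(o ⟨s, hs⟩) ⊗ₜ 1, ?_⟩
        funext γ i
        rw [hU, hUi, h1, smul_one, map_one, mul_one]
      · exact ⟨1 ⊗ₜ e, hUe e⟩
    exact hle hu
  let U' : A1 ⊗[(LaurentSeries k)[X]] O.A →+* SM O := U.codRestrict (SM O) hUmem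
  have hU'b : Function.Bijective U' := by
    refine ⟨fun z z' h => hUinj (congrArg Subtype.val h), fun u => ?_⟩
    obtain ⟨z, hz⟩ := hUsurj u.1 u.2
    exact ⟨z, Subtype.ext hz⟩
  let E' := RingEquiv.ofBijective U' hU'b
  have hE : ∀ z (u : P → ∀ i, Q i) (h : u ∈ SM O), U z = u → E'.symm ⟨u, h⟩ = z := by
    intro z u h hz
    rw [RingEquiv.symm_apply_eq]
    exact Subtype.ext hz.symm
  refine ⟨W.comp E'.symm.toRingHom, ?_, ?_⟩
  · intro e h
    change W (E'.symm ⟨_, h⟩) = _
    rw [hE (1 ⊗ₜ e) _ h (hUe e), hW]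
    simp
  · intro u h δ h'
    change W (E'.symm ⟨_, h'⟩) = δ • W (E'.symm ⟨u, h⟩)
    obtain ⟨z, hz⟩ := hUsurj u h
    obtain ⟨Dδ, hDδ⟩ := QTh_lift (R := (LaurentSeries k)[X]) (A := A1) (B := O.A)
      (Algebra.TensorProduct.includeLeftRingHom : A1 →+* A1 ⊗[(LaurentSeries k)[X]] O.A)
      ((Algebra.TensorProduct.includeRight : O.A →ₐ[(LaurentSeries k)[X]] A1 ⊗[(LaurentSeries k)[X]] O.A).toRingHom.comp
        (MulSemiringAction.toRingHom P O.A (π₀ δ))) (fun f => by
          rw [RingHom.comp_apply, MulSemiringAction.toRingHom_apply, O.gal.comm]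
          change (algebraMap (LaurentSeries k)[X] A1 f) ⊗ₜ[(LaurentSeries k)[X]] (1 : O.A) =
            (1 : A1) ⊗ₜ[(LaurentSeries k)[X]] (algebraMap (LaurentSeries k)[X] O.A f)
          rw [Algebra.algebraMap_eq_smul_one, Algebra.algebraMap_eq_smul_one]
          exact TensorProduct.smul_tmul f (1 : A1) (1 : O.A))
    have hDδ' : ∀ α e, Dδ (α ⊗ₜ e) = α ⊗ₜ (π₀ δ • e) := by
      intro α e
      rw [hDδ]
      change (α ⊗ₜ[(LaurentSeries k)[X]] (1 : O.A)) *
        ((1 : A1) ⊗ₜ[(LaurentSeries k)[X]] (π₀ δ • e)) = _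
      rw [Algebra.TensorProduct.tmul_mul_tmul, one_mul, mul_one]
    have hUD : U (Dδ z) = fun γ => u ((π₀ δ)⁻¹ * γ) := by
      funext γ i
      rw [← hz, hU, hU]
      have : (Ui γ i).comp Dδ = Ui ((π₀ δ)⁻¹ * γ) i := by
        refine RingHom.ext fun t => ?_
        induction t using TensorProduct.induction_on with
        | zero => simp
        | tmul α e =>
          rw [RingHom.comp_apply, hDδ', hUi, hUi, mul_inv_rev, inv_inv, mul_smul]
        | add s t hs ht => rw [map_add, map_add, hs, ht]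
      exact congrArg (fun g => g z) this
    have hWD : W (Dδ z) = δ • W z := by
      have : W.comp Dδ = (MulSemiringAction.toRingHom G₀ E δ).comp W := by
        refine RingHom.ext fun t => ?_
        induction t using TensorProduct.induction_on with
        | zero => simp
        | tmul α e =>
          rw [RingHom.comp_apply, hDδ', RingHom.comp_apply, MulSemiringAction.toRingHom_apply,
            hW, hW, smul_mul', RingHom.comp_apply, hEc, j_act]
        | add s t hs ht => rw [map_add, map_add, hs, ht]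
      exact congrArg (fun g => g z) this
    rw [hE (Dδ z) _ h' hUD, hE z u h hz, hWD]

end MP7b0bad.JP
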