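import Pool.Agent.Work.MP_7b0bad_ag.SV.JC

set_option autoImplicit false

/-!
# Join with arbitrary outer group, part 4: the patching theorem with one disc
-/

namespace MP7b0bad.JP

open Polynomial

theorem a_QP1 : QP1 := prf_QP1
theorem a_QB2 : QB2 := prf_QB2 all_QGL all_QFree a_QP1 all_QC2a all_QVad
theorem a_QV1 : QV1 := prf_QV1 a_QB2
theorem a_QV3 : QV3 := prf_QV3 a_QV1 all_QV2
theorem a_QV4S : QV4S := prf_QV4S a_QP1
theorem a_QT1 : QT1 := prf_QT1
theorem a_QV5 : QV5 := prf_QV5 a_QT1 a_QV3 all_QV4R a_QV4S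
theorem a_QV7 : QV7 := prf_QV7 a_QP1 all_QVad all_QD3 all_QC2a

/-- an inner cover with group `G` as an inner cover with group `⊤` -/
noncomputable def innerTop {k : Type} [Field k] {G : Type} [Group G] {P' : Subgroup G} {Q : Type}
    [CommRing Q] [Algebra (Fk k) Q] [MulSemiringAction P' Q] (c : Inner k G P' P'.subtype Q) :
    Inner k (⊤ : Subgroup G) P' (Subgroup.inclusion (le_top : P' ≤ ⊤)) Q where
  B := c.B
  gal :=
    { comm := fun g a => c.gal.comm (g : G) a
      inj := c.gal.inj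
      inv := fun b hb => c.gal.inv b fun g => hb ⟨g, Subgroup.mem_top g⟩
      unr := fun σ hσ => c.gal.unr (σ : G) fun h => hσ (Subtype.ext h) }
  dom := c.dom
  ι := c.ι
  ι_alg := c.ι_alg
  ι_act := fun g b => c.ι_act g b

theorem res_mem {k : Type} [Field k] {N : ℕ} {ξ : Fin N → Fk k} {G : Type} [Group G]
    {P : Subgroup G} {P' : Fin N → Subgroup G} {hP : ∀ i, P' i ≤ P} {H : Fin N → Subgroup G}
    {hH : ∀ i, P' i ≤ H i} {Q : Fin N → Type} [∀ i, CommRing (Q i)] [∀ i, Algebra (Fk k) (Q i)]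
    [∀ i, MulSemiringAction (P' i) (Q i)]
    (O : Outer k N ξ P (fun i => P' i) (fun i => Subgroup.inclusion (hP i)) Q)
    (c : ∀ i, Inner k (H i) (P' i) (Subgroup.inclusion (hH i)) (Q i))
    {v : G → ∀ i, Q i} (hv : v ∈ BQ O c) : (fun γ : P => v γ) ∈ SM O := by
  have h1 : v ∈ InSQ O := hv.1.2
  have h2 := h1 1
  simpa only [one_mul] using h2

/-- restriction to `P` -/
noncomputable def res {k : Type} [Field k] {N : ℕ} {ξ : Fin N → Fk k} {G : Type} [Group G]
    {P : Subgroup G} {P' : Fin N → Subgroup G} {hP : ∀ i, P' i ≤ P} {H : Fin N → Subgroup G}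
    {hH : ∀ i, P' i ≤ H i} {Q : Fin N → Type} [∀ i, CommRing (Q i)] [∀ i, Algebra (Fk k) (Q i)]
    [∀ i, MulSemiringAction (P' i) (Q i)]
    (O : Outer k N ξ P (fun i => P' i) (fun i => Subgroup.inclusion (hP i)) Q)
    (c : ∀ i, Inner k (H i) (P' i) (Subgroup.inclusion (hH i)) (Q i)) : BQ O c →+* SM O where
  toFun v := ⟨fun γ : P => v.1 γ, res_mem O c v.2⟩
  map_one' := rfl
  map_mul' _ _ := rfl
  map_zero' := rfl
  map_add' _ _ := rfl

/-- the patching theorem with one disc, outer group `H`, inner group `G` -/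
theorem JPT (k : Type) [Field k] (V : (LaurentSeries k)[X]) (ξ : Fk k)
    (G : Type) [Group G] [Finite G] (H P' : Subgroup G) (hP : P' ≤ H)
    (Q : Type) [CommRing Q] [Algebra (Fk k) Q] [MulSemiringAction P' Q]
    (hQ : GalAlg (Fk k) P' Q) (hV : V.natDegree = 1) (hξ : ξ ∈ Rr k)
    (hVξ : V.eval₂ (KF k) ξ = Ww k)
    (A : Type) [CommRing A] [Algebra (LaurentSeries k)[X] A] [MulSemiringAction H A] (a : A →+* Q)
    (hA : GalAlg (LaurentSeries k)[X] H A)
    (a_alg : ∀ f : (LaurentSeries k)[X],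
      a (algebraMap (LaurentSeries k)[X] A f) = algebraMap (Fk k) Q (f.eval₂ (KF k) ξ))
    (a_act : ∀ (g : P') (e : A), a (Subgroup.inclusion hP g • e) = g • a e)
    (c : Inner k G P' P'.subtype Q) (G₀ : Subgroup G) (h0 : G₀ ≤ H) (E : Type) [CommRing E]
    [Algebra (LaurentSeries (LaurentSeries k)) E] [MulSemiringAction G₀ E] (j : A →+* E)
    (hE : GalAlg (LaurentSeries (LaurentSeries k)) G₀ E)
    (j_alg : ∀ f : (LaurentSeries k)[X], j (algebraMap (LaurentSeries k)[X] A f) =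
      algebraMap (LaurentSeries (LaurentSeries k)) E (atInf (LaurentSeries k) f))
    (j_act : ∀ (g : G₀) (e : A), j (Subgroup.inclusion h0 g • e) = g • j e) :
    ∃ (B : Type) (_ : CommRing B) (_ : Algebra (LaurentSeries k)[X] B)
      (_ : MulSemiringAction G B) (ι : B →+* E),
      GalAlg (LaurentSeries k)[X] G B ∧ IsDomain B ∧
      (∀ f : (LaurentSeries k)[X], ι (algebraMap (LaurentSeries k)[X] B f) =
        algebraMap (LaurentSeries (LaurentSeries k)) E (atInf (LaurentSeries k) f)) ∧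
      ∀ (g : G₀) (b : B), ι ((g : G) • b) = g • ι b := by
  classical
  let O : Outer k 1 (fun _ => ξ) H (fun _ => P') (fun _ => Subgroup.inclusion hP) (fun _ => Q) :=
    { A := A
      gal := hA
      a := fun _ => a
      a_alg := fun _ f => a_alg f
      a_act := fun _ g e => a_act g e }
  let c' : ∀ i : Fin 1, Inner k ((fun _ => ⊤ : Fin 1 → Subgroup G) i)
      ((fun _ => P' : Fin 1 → Subgroup G) i) (Subgroup.inclusion (le_top)) ((fun _ => Q) i) :=
    fun _ => innerTop c
  have hQ' : ∀ i : Fin 1, GalAlg (Fk k) ((fun _ => P' : Fin 1 → Subgroup G) i)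
      ((fun _ => Q : Fin 1 → Type) i) := fun _ => hQ
  have hD : DiscsK k 1 V (fun _ => ξ) :=
    { deg := hV
      mem := fun _ => hξ
      root := fun _ => hVξ
      ne := fun i i' h => absurd (Subsingleton.elim i i') h
      unit := fun i i' h => absurd (Subsingleton.elim i i') h }
  have hN : 0 < 1 := one_pos
  obtain ⟨hcst, htr⟩ := a_QT1 k 1 V (fun _ => ξ) G H (fun _ => P') (fun _ => hP) (fun _ => ⊤)
    (fun _ => le_top) (fun _ => Q) O c' hQ' hD
  obtain ⟨Θ, hΘe, hΘδ⟩ := prf_JTh all_QC2a all_QC2c a_QB2 a_QP1 k 1 V (fun _ => ξ) H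
    (fun _ => P') (fun _ => Subgroup.inclusion hP) (fun _ => Q) O hD hN hQ' G₀
    (Subgroup.inclusion h0) E hE.comm j j_alg j_act
  let ι : BQ O c' →+* E := Θ.comp (res O c')
  have hι1 : ∀ (f : (LaurentSeries k)[X]) (h : cstQ k (fun _ => ξ) G (fun _ => Q) f ∈ BQ O c'),
      ι ⟨cstQ k (fun _ => ξ) G (fun _ => Q) f, h⟩ =
      algebraMap (LaurentSeries (LaurentSeries k)) E (atInf (LaurentSeries k) f) := by
    intro f h
    have e1 : (fun (γ : H) (i : Fin 1) => O.a i (γ⁻¹ • algebraMap (LaurentSeries k)[X] O.A f)) =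
        fun γ : H => cstQ k (fun _ => ξ) G (fun _ => Q) f γ := by
      funext γ i
      rw [O.gal.comm, O.a_alg]
      rfl
    have h2 : (fun (γ : H) (i : Fin 1) =>
        O.a i (γ⁻¹ • algebraMap (LaurentSeries k)[X] O.A f)) ∈ SM O := by
      rw [e1]; exact res_mem O c' h
    have e2 : res O c' ⟨cstQ k (fun _ => ξ) G (fun _ => Q) f, h⟩ = ⟨_, h2⟩ := Subtype.ext e1.symm
    change Θ (res O c' _) = _
    rw [e2, hΘe]
    exact j_alg f
  have hι2 : ∀ (g : G₀) (v : G → ∀ _ : Fin 1, Q) (h : v ∈ BQ O c')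
      (h' : trQ (g : G) v ∈ BQ O c'), ι ⟨trQ (g : G) v, h'⟩ = g • ι ⟨v, h⟩ := by
    intro g v h h'
    have h2 : (fun γ : H => (fun γ : H => v γ) ((Subgroup.inclusion h0 g)⁻¹ * γ)) ∈ SM O :=
      res_mem O c' h'
    exact hΘδ (fun γ : H => v γ) (res_mem O c' h) g h2
  let algB : Algebra (LaurentSeries k)[X] (BQ O c') :=
    RingHom.toAlgebra ((cstQ k (fun _ => ξ) G (fun _ => Q)).codRestrict (BQ O c') hcst)
  let actB : MulSemiringAction G (BQ O c') :=
    { smul := fun σ v => ⟨trQ σ v.1, htr σ v.1 v.2⟩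
      one_smul := fun v => by
        apply Subtype.ext
        funext g
        show v.1 (1⁻¹ * g) = v.1 g
        rw [inv_one, one_mul]
      mul_smul := fun σ τ v => by
        apply Subtype.ext
        funext g
        show v.1 ((σ * τ)⁻¹ * g) = v.1 (τ⁻¹ * (σ⁻¹ * g))
        rw [mul_inv_rev, mul_assoc]
      smul_zero := fun σ => rfl
      smul_add := fun σ u v => rfl
      smul_one := fun σ => rfl
      smul_mul := fun σ u v => rfl }
  have hmem : ∀ v ∈ BQ O c', (fun γ : (⊤ : Subgroup G) => v γ 0) ∈ RN (c' 0) := by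
    intro v hv
    have h1 : v ∈ InRQ c' := hv.2
    have h2 := h1 0 1
    simpa only [one_mul] using h2
  have hQnt : Nontrivial Q := hQ.inj.nontrivial
  have hdom : IsDomain (BQ O c') := by
    have hnz : NoZeroDivisors (BQ O c') := by
      refine ⟨fun {u v} huv => ?_⟩
      have h1 := RN_mul_zero all_QB1 (c' 0) (hQ' 0) _ _ (hmem u.1 u.2) (hmem v.1 v.2) (by
        funext γ
        have h2 := congrArg Subtype.val huv
        exact congrFun (congrFun h2 γ) 0)
      rcases h1 with h | h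
      · left
        apply Subtype.ext
        funext g i
        rw [Subsingleton.elim i 0]
        exact congrFun h ⟨g, Subgroup.mem_top g⟩
      · right
        apply Subtype.ext
        funext g i
        rw [Subsingleton.elim i 0]
        exact congrFun h ⟨g, Subgroup.mem_top g⟩
    have hnt : Nontrivial (BQ O c') := by
      refine ⟨0, 1, fun h => ?_⟩
      have h2 := congrFun (congrFun (congrArg Subtype.val h) (1 : G)) (0 : Fin 1)
      exact zero_ne_one (α := Q) h2
    exact NoZeroDivisors.to_isDomain _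
  refine ⟨↥(BQ O c'), inferInstance, algB, actB, ι, ?_, hdom, ?_, ?_⟩
  · refine @GalAlg.mk (LaurentSeries k)[X] _ G _ ↥(BQ O c') _ algB actB ?_ ?_ ?_ ?_
    · intro g a
      apply Subtype.ext
      rfl
    · intro a b hab
      have h2 : ι ⟨cstQ k (fun _ => ξ) G (fun _ => Q) a, hcst a⟩ =
        ι ⟨cstQ k (fun _ => ξ) G (fun _ => Q) b, hcst b⟩ := congrArg ι hab
      rw [hι1, hι1] at h2
      exact TI_atInf_injective _ (hE.inj h2)
    · intro b hb
      obtain ⟨f, hf⟩ := a_QV7 k 1 V (fun _ => ξ) G H (fun _ => P') (fun _ => hP) (fun _ => ⊤)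
        (fun _ => le_top) (fun _ => Q) O c' hQ' hD hN b.1 b.2
        (fun σ => congrArg Subtype.val (hb σ))
      exact ⟨f, Subtype.ext hf.symm⟩
    · intro σ hσ
      obtain ⟨n, α, β, hαβ, h1⟩ := a_QV5 k 1 V (fun _ => ξ) G H (fun _ => P') (fun _ => hP)
        (fun _ => ⊤) (fun _ => le_top) (fun _ => Q) O c' σ hQ' hD hN hσ
      refine TII_unr' σ n (fun m => (⟨α m, (hαβ m).1⟩ : BQ O c'))
        (fun m => (⟨β m, (hαβ m).2⟩ : BQ O c')) ?_
      apply (BQ O c').subtype_injective
      rw [map_sum, map_one]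
      exact h1
  · intro f
    exact hι1 f (hcst f)
  · intro g b
    exact hι2 g b.1 b.2 (htr g b.1 b.2)

end MP7b0bad.JP
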