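import Pool.Agent.Work.MP_7b0bad_ag.SV.JStmts
import Pool.Agent.Work.MP_7b0bad_ag.SV.JD

set_option autoImplicit false

/-!
# The join with arbitrary outer group: assembly
-/

namespace MP7b0bad

open Polynomial

/-- equivariance of a homomorphism from a base change -/
theorem JJ_eqv {R' : Type} [CommRing R'] {Γ Δ : Type} [Group Γ] [Group Δ] {B A T : Type}
    [CommRing B] [MulSemiringAction Γ B] [CommRing A] [Algebra R' A] [MulSemiringAction Γ A]
    [CommRing T] [MulSemiringAction Δ T] (q : B →+* A) (F : A →+* T) (π : Δ → Γ)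
    (hgen : ∀ z : A, ∃ (n : ℕ) (r : Fin n → R') (b : Fin n → B),
      z = ∑ i, algebraMap R' A (r i) * q (b i))
    (hA : ∀ (g : Γ) (r : R'), g • algebraMap R' A r = algebraMap R' A r)
    (hT : ∀ (g : Δ) (r : R'), g • F (algebraMap R' A r) = F (algebraMap R' A r))
    (hq : ∀ (g : Γ) (b : B), q (g • b) = g • q b)
    (hF : ∀ (g : Δ) (b : B), F (q (π g • b)) = g • F (q b)) (g : Δ) (z : A) :
    F (π g • z) = g • F z := by
  obtain ⟨n, r, b, rfl⟩ := hgen z
  rw [Finset.smul_sum, map_sum, map_sum, Finset.smul_sum]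
  refine Finset.sum_congr rfl fun i _ => ?_
  rw [smul_mul', hA, map_mul, map_mul, smul_mul', hT, ← hq, hF]

theorem JJ_KF_C (k : Type) [Field k] (c : k) : KF k (HahnSeries.C c) = kF k c := by
  refine HahnSeries.ext ?_
  funext n
  change HahnSeries.C ((HahnSeries.C c : LaurentSeries k).coeff n) = _
  by_cases hn : n = 0
  · subst hn
    simp [kF, HahnSeries.C_apply]
  · simp [kF, HahnSeries.C_apply, HahnSeries.coeff_single_of_ne hn]

theorem JJ_KF_single (k : Type) [Field k] (n : ℤ) (c : k) :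
    KF k (HahnSeries.single n c) = HahnSeries.single n (HahnSeries.C c) := by
  refine HahnSeries.ext ?_
  funext m
  change HahnSeries.C ((HahnSeries.single n c : LaurentSeries k).coeff m) = _
  by_cases hm : m = n
  · subst hm
    simp
  · rw [HahnSeries.coeff_single_of_ne hm, HahnSeries.coeff_single_of_ne hm, map_zero]

/-- the polynomial `f(x / T ^ 2) + T ^ m x ^ M` -/
noncomputable def JJg (k : Type) [Field k] (f : k[X]) (m : ℤ) (M : ℕ) : (LaurentSeries k)[X] :=
  (f.map (HahnSeries.C : k →+* LaurentSeries k)).comp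
    (C (HahnSeries.single (-2 : ℤ) (1 : k)) * X) + C (HahnSeries.single m (1 : k)) * X ^ M

theorem JJg_natDegree (k : Type) [Field k] (f : k[X]) (m : ℤ) (M : ℕ) (hM : f.natDegree < M) :
    (JJg k f m M).natDegree = M := by
  have h0 : (HahnSeries.single m (1 : k) : LaurentSeries k) ≠ 0 := by
    rw [Ne, HahnSeries.single_eq_zero_iff]; exact one_ne_zero
  have h1 : (C (HahnSeries.single m (1 : k)) * X ^ M : (LaurentSeries k)[X]).natDegree = M :=
    natDegree_C_mul_X_pow M _ h0
  have h2 : ((f.map (HahnSeries.C : k →+* LaurentSeries k)).comp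
      (C (HahnSeries.single (-2 : ℤ) (1 : k)) * X)).natDegree < M := by
    refine lt_of_le_of_lt natDegree_comp_le ?_
    have h3 : (C (HahnSeries.single (-2 : ℤ) (1 : k)) * X : (LaurentSeries k)[X]).natDegree ≤ 1 :=
      natDegree_C_mul_le _ _ |>.trans natDegree_X_le
    have h4 : (f.map (HahnSeries.C : k →+* LaurentSeries k)).natDegree ≤ f.natDegree :=
      natDegree_map_le
    calc _ ≤ f.natDegree * 1 := Nat.mul_le_mul h4 h3
      _ < M := by omega
  unfold JJg
  rw [natDegree_add_eq_right_of_natDegree_lt (by rw [h1]; exact h2), h1]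

theorem JJ_KF_one (k : Type) [Field k] (n : ℤ) :
    KF k (HahnSeries.single n 1) = HahnSeries.single n (1 : LaurentSeries k) := by
  rw [JJ_KF_single, map_one]

theorem JJ_Ww (k : Type) [Field k] :
    Ww k = HahnSeries.single (0 : ℤ) (HahnSeries.single (1 : ℤ) (1 : k) : LaurentSeries k) := by
  rw [Ww, HahnSeries.C_apply]

theorem JJ_xi_pow (k : Type) [Field k] (M : ℕ) : (Tt k * Ww k) ^ M =
    HahnSeries.single (M : ℤ) (HahnSeries.single (M : ℤ) (1 : k) : LaurentSeries k) := by
  rw [JJ_Ww, Tt, HahnSeries.single_mul_single, HahnSeries.single_pow, one_mul,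
    HahnSeries.single_pow, one_pow]
  congr 2
  · simp
  · simp

theorem JJg_eval (k : Type) [Field k] (f : k[X]) (m : ℤ) (M : ℕ) :
    (JJg k f m M).eval₂ (KF k) (Tt k * Ww k) = toX k f +
      HahnSeries.single (m + M) (HahnSeries.single (M : ℤ) (1 : k) : LaurentSeries k) := by
  unfold JJg
  rw [eval₂_add, eval₂_comp, eval₂_map, eval₂_mul, eval₂_C, eval₂_X, eval₂_mul, eval₂_C,
    eval₂_X_pow]
  have e1 : (KF k).comp (HahnSeries.C : k →+* LaurentSeries k) = kF k :=
    RingHom.ext fun c => JJ_KF_C k c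
  have e2 : KF k (HahnSeries.single (-2 : ℤ) (1 : k)) * (Tt k * Ww k) = XX k := by
    have h3 : (Tt k)⁻¹ = HahnSeries.single (-1 : ℤ) (1 : LaurentSeries k) := by
      refine inv_eq_of_mul_eq_one_right ?_
      rw [Tt, HahnSeries.single_mul_single]
      simp
    rw [JJ_KF_one, XX, h3, JJ_Ww, Tt, HahnSeries.single_mul_single,
      HahnSeries.single_mul_single, HahnSeries.single_mul_single]
    simp
  have e3 : KF k (HahnSeries.single m (1 : k)) * (Tt k * Ww k) ^ M =
      HahnSeries.single (m + M) (HahnSeries.single (M : ℤ) (1 : k) : LaurentSeries k) := by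
    rw [JJ_KF_one, JJ_xi_pow, HahnSeries.single_mul_single, one_mul]
  rw [e1, e2, e3]
  rfl

/-- THE JOIN -/
theorem prf_JJ (hSpec : JSpec) (hPert : JPert) (hSub : JSub) : JJ := by
  intro k _ _ G _ _ H G₀ P' h0 hP BH EH _ _ _ _ _ _ ιH gBH gEH dEH ιH_alg ιH_act Ψ E' _ _ _ _ _ _
    ι φ f gΨ dΨ gE' ι_alg ι_act φ_alg φ_act
  -- the algebra `Q`
  obtain ⟨ψF, -, hψF⟩ := all_QPsi k
  obtain ⟨Q, rQ, aQ, mQ, q, gQ, q_alg, q_act, -, -⟩ :=
    all_QBC (LaurentSeries k) (Fk k) ψF P' E' gE'
  -- the inner cover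
  let c : Inner k G P' P'.subtype Q :=
    { B := Ψ
      gal := gΨ
      dom := dΨ
      ι := q.comp ι
      ι_alg := fun a => by
        rw [RingHom.comp_apply, ι_alg, q_alg, hψF]
      ι_act := fun τ x => by
        rw [RingHom.comp_apply, RingHom.comp_apply, ← q_act, ← ι_act]
        rfl }
  -- perturbation
  obtain ⟨m, hm⟩ := hPert k (LaurentSeries k) HahnSeries.C H P' (Subgroup.inclusion hP) BH Q
    (toX k f) (q.comp φ) gBH gQ (fun a => by
      rw [RingHom.comp_apply, φ_alg, q_alg, hψF]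
      congr 1
      change (a.comp f).eval₂ (kF k) (XX k) = a.eval₂ (kF k) (f.eval₂ (kF k) (XX k))
      rw [eval₂_comp]) (fun g x => by
      rw [RingHom.comp_apply, RingHom.comp_apply, ← q_act, ← φ_act])
  let M : ℕ := Nat.card G₀ * (f.natDegree + 1) + 1
  have hM : f.natDegree < M := by
    have h1 : 0 < Nat.card G₀ := Nat.card_pos
    have h2 : 1 * (f.natDegree + 1) ≤ Nat.card G₀ * (f.natDegree + 1) :=
      Nat.mul_le_mul_right _ h1
    show f.natDegree < Nat.card G₀ * (f.natDegree + 1) + 1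
    omega
  have hMc : Nat.Coprime M (Nat.card G₀) := by
    show Nat.Coprime (Nat.card G₀ * (f.natDegree + 1) + 1) (Nat.card G₀)
    simp [Nat.coprime_mul_left_add_left]
  obtain ⟨φ₁, φ₁_alg, φ₁_act⟩ := hm
    (HahnSeries.single (m + M) (HahnSeries.single (M : ℤ) (1 : k) : LaurentSeries k))
    (fun t ht => HahnSeries.coeff_single_of_ne (by omega))
  let g : (LaurentSeries k)[X] := JJg k f m M
  have hg : g.natDegree = M := JJg_natDegree k f m M hM
  have hg0 : 0 < g.natDegree := by rw [hg]; omega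
  -- the outer cover
  let μ : k[X] →+* (LaurentSeries k)[X] :=
    (compRingHom g).comp (mapRingHom (HahnSeries.C : k →+* LaurentSeries k))
  have hμ : ∀ a, μ a = (a.map (HahnSeries.C : k →+* LaurentSeries k)).comp g := fun a => rfl
  obtain ⟨A, rA, aA, mA, qA, gA, qA_alg, qA_act, uA, genA⟩ :=
    all_QBC k[X] (LaurentSeries k)[X] μ H BH gBH
  obtain ⟨a, a_q, a_alg⟩ := uA Q φ₁
    ((algebraMap (Fk k) Q).comp (eval₂RingHom (KF k) (Tt k * Ww k))) (fun x => by
      rw [φ₁_alg, RingHom.comp_apply, coe_eval₂RingHom, hμ, eval₂_comp, eval₂_map, JJg_eval]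
      congr 2
      exact RingHom.ext fun c => (JJ_KF_C k c).symm)
  have a_act : ∀ (τ : P') (z : A), a (Subgroup.inclusion hP τ • z) = τ • a z :=
    JJ_eqv qA a (Subgroup.inclusion hP) genA gA.comm
      (fun τ r => by rw [a_alg, RingHom.comp_apply, gQ.comm]) qA_act
      (fun τ b => by rw [a_q, a_q, φ₁_act])
  -- the field at infinity
  obtain ⟨ψg, hψg⟩ := hSub k (LaurentSeries k) HahnSeries.C g hg0
  obtain ⟨E, rE, aE, mE, s, gE, s_alg, s_act, -, -⟩ :=
    all_QBC (LaurentSeries k) (LaurentSeries (LaurentSeries k)) ψg G₀ EH gEH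
  obtain ⟨j, j_q, j_alg⟩ := uA E (s.comp ιH)
    ((algebraMap (LaurentSeries (LaurentSeries k)) E).comp (atInf (LaurentSeries k))) (fun x => by
      rw [RingHom.comp_apply, RingHom.comp_apply, ιH_alg, s_alg, hψg.p, hμ])
  have j_act : ∀ (τ : G₀) (z : A), j (Subgroup.inclusion h0 τ • z) = τ • j z :=
    JJ_eqv qA j (Subgroup.inclusion h0) genA gA.comm
      (fun τ r => by rw [j_alg, RingHom.comp_apply, gE.comm]) qA_act
      (fun τ b => by
        rw [j_q, j_q, RingHom.comp_apply, RingHom.comp_apply, ιH_act, s_act])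
  -- patching
  let V : (LaurentSeries k)[X] := C (HahnSeries.single (-1 : ℤ) (1 : k)) * X
  have hV : V.natDegree = 1 := by
    have h0 : (HahnSeries.single (-1 : ℤ) (1 : k) : LaurentSeries k) ≠ 0 := by
      rw [Ne, HahnSeries.single_eq_zero_iff]; exact one_ne_zero
    exact natDegree_C_mul_X _ h0
  have hξ : Tt k * Ww k ∈ Rr k := by
    intro t i hi
    have h1 := JJ_xi_pow k 1
    rw [pow_one] at h1
    rw [h1, HahnSeries.coeff_single]
    split_ifs
    · rw [HahnSeries.coeff_single_of_ne]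
      simp only [Nat.cast_one, ne_eq]
      omega
    · simp
  have hVξ : V.eval₂ (KF k) (Tt k * Ww k) = Ww k := by
    show (C (HahnSeries.single (-1 : ℤ) (1 : k)) * X : (LaurentSeries k)[X]).eval₂ (KF k)
      (Tt k * Ww k) = Ww k
    rw [eval₂_mul, eval₂_C, eval₂_X, JJ_KF_one, ← mul_assoc, Tt, HahnSeries.single_mul_single]
    simp
  obtain ⟨B, rB, aB, mB, ιB, gB, dB, ιB_alg, ιB_act⟩ := JP.JPT k V (Tt k * Ww k) G H P' hP Q gQ hV
    hξ hVξ A a gA (fun x => by rw [a_alg, RingHom.comp_apply, coe_eval₂RingHom]) a_act c G₀ h0 E j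
    gE (fun x => by rw [j_alg, RingHom.comp_apply]) j_act
  let ac : Algebra k (LaurentSeries k) := RingHom.toAlgebra HahnSeries.C
  have hC : (algebraMap k (LaurentSeries k)) = HahnSeries.C := rfl
  exact hSpec k (LaurentSeries k) G H G₀ h0 BH EH ιH gBH gEH dEH ιH_alg ιH_act g hg0
    (by rw [hg]; exact hMc) ψg (by rw [hC]; exact hψg) B E ιB s gB dB gE ιB_alg ιB_act s_alg
    (fun τ x => by rw [s_act])

end MP7b0bad
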