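import Pool.Agent.Work.MP_7b0bad_ag.SV.JStmts

set_option autoImplicit false

/-!
# Existence of the local data of `BH`
-/

namespace MP7b0bad

open Polynomial

theorem prf_JLoc (hQBC : QBC) (hIdK : JIdK) (hApp : JApp) : JLoc := by
  intro k _ H G₀ _ _ _ _ b hb BH EH _ _ _ _ _ _ ιH hBH hEH hι hact
  obtain ⟨D, iD1, iD2, iD3, q, gal, q_alg, q_act, univ, gen⟩ :=
    hQBC k[X] (LaurentSeries k) (atInf k) H BH hBH
  obtain ⟨π, π_q, π_alg⟩ := univ EH ιH (algebraMap (LaurentSeries k) EH) hι
  have π_act : ∀ (τ : G₀) (z : D), π (b τ • z) = τ • π z := by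
    intro τ z
    obtain ⟨n, r, x, rfl⟩ := gen z
    rw [Finset.smul_sum, map_sum, map_sum, Finset.smul_sum]
    refine Finset.sum_congr rfl fun m _ => ?_
    rw [smul_mul', map_mul, map_mul, smul_mul', gal.comm, ← q_act, π_q, π_q, π_alg, hact,
      hEH.comm]
  obtain ⟨e, he1, he2, _, _, he5, he6⟩ :=
    hIdK (LaurentSeries k) H G₀ b D EH π hb gal hEH π_alg π_act
  obtain ⟨dH, βH, hd⟩ := hApp k H BH D q hBH gal q_alg q_act e
  exact ⟨dH, βH, D, iD1, iD2, iD3, q, π, e,
    { gal := gal
      q_alg := q_alg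
      q_act := q_act
      univ := univ
      gen := gen
      π_alg := π_alg
      π_q := π_q
      π_act := π_act
      idem := he1
      inv := he2
      one := he5
      ker := he6
      app := hd }⟩

end MP7b0bad
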