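import Pool.Agent.Work.MP_7b0bad_ag.SV.VStmts2
import Pool.Agent.Work.MP_7b0bad_ag.Bd.B12

set_option autoImplicit false

/-!
# Block SV, lifts (helper33): embedding problems over `k(x)` with abelian kernel of exponent `r`

`Γ = Gal(Ω / k(x))`, `r ≠ p` a prime. Every continuous `φ : Γ → G ⧸ M`, `M` normal, abelian, of
exponent `r`, has a continuous lift `Γ → G`. Central steps for `r`-groups over open subgroups of `Γ`
come from `YCross` and Kummer theory (`VKumL`), all kernels in `r`-groups from `VKumL` by induction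
(`VRG`), the general case by averaging over the cosets of the preimage of a Sylow `r`-subgroup
(`VAvg`).
-/

namespace MP7b0bad.SV

open Polynomial

/-- open subgroups of a Galois group -/
def Opn {F Ω : Type} [Field F] [Field Ω] [Algebra F Ω] (Γ' : Subgroup (Ω ≃ₐ[F] Ω)) : Prop :=
  ∃ S : Finset Ω, ∀ γ : Ω ≃ₐ[F] Ω, (∀ x ∈ S, γ x = x) → γ ∈ Γ'

/-- continuity of a homomorphism from a subgroup of a Galois group -/
def CtsOn {F Ω : Type} [Field F] [Field Ω] [Algebra F Ω] {Γ' : Subgroup (Ω ≃ₐ[F] Ω)}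
    {G : Type} [Group G] (Φ : Γ' →* G) : Prop :=
  ∃ S : Finset Ω, ∀ γ : Γ', (∀ x ∈ S, (γ : Ω ≃ₐ[F] Ω) x = x) → Φ γ = 1

/-- VNor. Open normal subgroups are a basis. PROOF. Let `T` be the set of all roots in `Ω` of the
minimal polynomials over `F` of the elements of `S` (finite), `Γ₀` the pointwise stabiliser of `T`.
`T` is stable under `Γ`, so `Γ₀` is normal. -/
def VNor : Prop := ∀ (F Ω : Type) [Field F] [Field Ω] [Algebra F Ω] [IsGalois F Ω] (S : Finset Ω),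
  ∃ Γ₀ : Subgroup (Ω ≃ₐ[F] Ω), Γ₀.Normal ∧ (∀ γ ∈ Γ₀, ∀ x ∈ S, γ x = x) ∧ Opn Γ₀

/-- VAct. The field `L` defined by a continuous homomorphism `φ` from an open subgroup `Γ'` to a
finite group, with the action of the image of `φ`. PROOF. Let `S` be a finite subset of `Ω` such
that every `γ ∈ Γ` which fixes `S` lies in `Γ'` and satisfies `φ γ = 1`. Let
`H = (ker φ) ≤ Γ' ≤ Γ` (that is `φ.ker.map Γ'.subtype`) and `L = fixedField H`. `L` is contained in
the fixed field of the fixing subgroup of `F(S)`, which is `F(S)` (infinite Galois theory: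
`InfiniteGalois.fixedField_fixingSubgroup`), so `L` is finite over `F`. `H` is open, hence closed,
so `fixingSubgroup L = H` (`InfiniteGalois.fixingSubgroup_fixedField`). `L` is stable under `Γ'`
because `ker φ` is normal in `Γ'`. For `g = φ γ` put `g • x = γ x`; this is well defined because
`ker φ` is trivial on `L`; if `g • x = x` for all `x ∈ L` then `γ ∈ fixingSubgroup L = H`, so `g = 1`.
-/
def VAct : Prop := ∀ (F Ω : Type) [Field F] [Field Ω] [Algebra F Ω] [IsGalois F Ω]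
  (Γ' : Subgroup (Ω ≃ₐ[F] Ω)), Opn Γ' → ∀ (Q : Type) [Group Q] (φ : Γ' →* Q),
  CtsOn φ → ∃ (L : Type) (_ : Field L) (_ : Algebra F L) (_ : MulSemiringAction φ.range L)
    (e : L →ₐ[F] Ω), FiniteDimensional F L ∧
    (∀ (γ : Γ') (g : φ.range) (x : L), (g : Q) = φ γ → e (g • x) = (γ : Ω ≃ₐ[F] Ω) (e x)) ∧
    (∀ g : φ.range, g ≠ 1 → ∃ x : L, g • x ≠ x) ∧
    ∀ (g : φ.range) (a : F), g • algebraMap F L a = algebraMap F L a

/-- VKumL. Central embedding problems of `r`-groups over open subgroups. PROOF. Take `L`, `e` from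
`VAct` for `φ : Γ' → S ⧸ N`; identify `L` with its image in `Ω`. Let `A ≤ S` be the preimage of the
image of `φ` (`N ≤ A`); `A` acts on `L` through `A → φ.range` with kernel `N`. `A` is an `r`-group,
so solvable. `k` has a primitive `r`-th root of unity and `N` is cyclic of order `r`: let
`χ : N → kˣ → Lˣ` be an injective character. `YCross` gives `f : A → Lˣ` with
`f (g h) = f g * g • f h` and `f = χ` on `N`. So `f (g n) = f g * χ n` for `n ∈ N` and `f ^ r` factors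
through `A ⧸ N ≃ φ.range`; by `YH90` there is `α ∈ Lˣ` with `g • α = (f g) ^ r * α` for all `g ∈ A`.
Let `w ∈ Ω` with `w ^ r = α` (`r ≠ 0` in `Ω`: separable polynomial). For `γ ∈ Γ'` and `g ∈ A` with
`g N = φ γ` we have `(γ w) ^ r = γ α = g • α = (f g * w) ^ r`, so `γ w = ζ f(g) w` with `ζ ^ r = 1`,
`ζ = χ n` for exactly one `n ∈ N`; so there is exactly one `g ∈ A` with `g N = φ γ` and
`γ w = f g * w`. Let `Φ γ` be this `g`. Homomorphism: `γ δ w = γ (f h * w) = (g • f h) * f g * w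
= f (g h) * w`. Continuity: if `φ γ = 1` and `γ w = w` then `Φ γ ∈ N` and `χ (Φ γ) = 1`. -/
def VKumL : Prop := ∀ (k Ω : Type) [Field k] [IsAlgClosed k] [Field Ω] [Algebra (RatFunc k) Ω]
  [IsGalois (RatFunc k) Ω] [IsSepClosed Ω] (r : ℕ), r.Prime → (r : k) ≠ 0 →
  ∀ (S : Type) [Group S] [Finite S] (N : Subgroup S) [N.Normal], IsPGroup r S →
  (∀ n ∈ N, ∀ s : S, n * s = s * n) → Nat.card N = r →
  ∀ Γ' : Subgroup (Ω ≃ₐ[RatFunc k] Ω), Opn Γ' → ∀ φ : Γ' →* S ⧸ N, CtsOn φ →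
  ∃ Φ : Γ' →* S, CtsOn Φ ∧ ∀ γ, (Φ γ : S ⧸ N) = φ γ

/-- VRG. Embedding problems of `r`-groups over open subgroups. PROOF. Induction on `Nat.card M` (for
all `S`). If `M = ⊥` compose with `S ⧸ ⊥ ≃ S`. Otherwise `M` meets the centre of the `r`-group `S`
(Mathlib: `IsPGroup.bot_lt_center`-type results for a normal subgroup: the number of fixed points of
the conjugation action of `S` on `M` is divisible by `r`), so it contains a central subgroup `N` of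
order `r`. Apply the induction hypothesis to `S ⧸ N`, the image of `M` (order `Nat.card M / r`) and
`Γ' → S ⧸ M ≃ (S ⧸ N) ⧸ (M ⧸ N)`, then `VKumL`. -/
def VRG : Prop := ∀ (k Ω : Type) [Field k] [IsAlgClosed k] [Field Ω] [Algebra (RatFunc k) Ω]
  [IsGalois (RatFunc k) Ω] [IsSepClosed Ω] (r : ℕ), r.Prime → (r : k) ≠ 0 →
  ∀ (S : Type) [Group S] [Finite S] (M : Subgroup S) [M.Normal], IsPGroup r S →
  ∀ Γ' : Subgroup (Ω ≃ₐ[RatFunc k] Ω), Opn Γ' → ∀ φ : Γ' →* S ⧸ M, CtsOn φ →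
  ∃ Φ : Γ' →* S, CtsOn Φ ∧ ∀ γ, (Φ γ : S ⧸ M) = φ γ

/-- VAvg. Averaging. PROOF. Choose representatives `t` of the cosets `Γ / Γ_S`, the representative
of `Γ_S` being `1`, elements `l_t ∈ G` over `φ t`, `l_1 = 1`, and put `λ (t s) = l_t * ΦS s` for
`s ∈ Γ_S`. Then `λ γ` lies over `φ γ` and `λ (γ s) = λ γ * ΦS s` for all `γ ∈ Γ`, `s ∈ Γ_S`, `λ = ΦS`
on `Γ_S`. Put `c(γ,δ) = λ γ * λ δ * (λ (γ δ))⁻¹ ∈ M`; `c(γ, δ s) = c(γ,δ)` for `s ∈ Γ_S`, and
`(λ γ * c(δ,ε) * (λ γ)⁻¹) * c(γ, δ ε) = c(γ,δ) * c(γ δ, ε)`. Let `U γ = ∏ c(γ, ε)` over the cosets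
`ε` (the values commute), `n' = Γ_S.index`. The product of the last equation over `ε`:
`(λ γ * U δ * (λ γ)⁻¹) * U γ = c(γ,δ) ^ n' * U (γ δ)`. Let `m n' = 1` modulo `r`, `u = U ^ m`:
`(λ γ * u δ * (λ γ)⁻¹) * u γ = c(γ,δ) * u (γ δ)`. So `Φ γ = (u γ)⁻¹ * λ γ` is a homomorphism over
`φ`. If `γ ∈ Γ₀` then `λ γ = ΦS γ = 1` and `λ (γ δ) = λ (δ (δ⁻¹ γ δ)) = λ δ`, so `c(γ,δ) = 1` for all
`δ`, `u γ = 1` and `Φ γ = 1`. -/
def VAvg : Prop := ∀ (Γ : Type) [Group Γ] (Γ₀ ΓS : Subgroup Γ) [Γ₀.Normal] (r : ℕ), r.Prime →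
  Γ₀ ≤ ΓS → ¬ r ∣ ΓS.index → ∀ (G : Type) [Group G] (M : Subgroup G) [M.Normal],
  (∀ a ∈ M, ∀ b ∈ M, a * b = b * a) → (∀ a ∈ M, a ^ r = 1) →
  ∀ (φ : Γ →* G ⧸ M) (ΦS : ΓS →* G), (∀ s : ΓS, (ΦS s : G ⧸ M) = φ s) →
  (∀ s : ΓS, (s : Γ) ∈ Γ₀ → ΦS s = 1) →
  ∃ Φ : Γ →* G, (∀ γ, (Φ γ : G ⧸ M) = φ γ) ∧ ∀ γ ∈ Γ₀, Φ γ = 1

/-! `VLift` is defined in `SV/VStmts2.lean`.

VLift. Embedding problems over `k(x)` with abelian kernel of exponent `r`. PROOF from `VRG`,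
`VAvg`, `VNor`. Let `G₁ ≤ G` be the preimage of the image of `φ` (`M ≤ G₁`), `P` a Sylow
`r`-subgroup of `G₁`, `S ≤ G` its image; `M ≤ S` (a normal `r`-subgroup of `G₁`). Let
`Γ_S = φ⁻¹(S ⧸ M)`, an open subgroup, of index `[G₁ : P]` (`Subgroup.index_comap`), prime to `r`.
`φ` gives `φ_S : Γ_S → S ⧸ (M ∩ S)` (the subgroup `M.subgroupOf S`); lift it to `Φ_S : Γ_S → S` by
`VRG`. Let `Γ₀` be an open normal subgroup contained in `Γ_S` with `Φ_S = 1` on `Γ₀` (`VNor`) and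
apply `VAvg`. -/

end MP7b0bad.SV
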