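import Pool.Agent.Work.MP_7b0bad_ag.SV.VStmts2
import Pool.Agent.Work.MP_7b0bad_ag.SV.LStmts

set_option autoImplicit false

/-!
# Item VAP: a function with given divisor modulo `r`
-/

namespace MP7b0bad.SV

open Polynomial

/-- factoring a homomorphism through an injective one -/
theorem VAP_lift {A B C : Type} [CommRing A] [CommRing B] [CommRing C] (f : A →+* C) (g : B →+* C)
    (hg : Function.Injective g) (h : ∀ a, ∃ b, g b = f a) :
    ∃ e : A →+* B, ∀ a, g (e a) = f a := by
  choose e he using h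
  refine ⟨{ toFun := e
            map_one' := hg (by rw [he, map_one, map_one])
            map_mul' := fun x y => hg (by rw [he, map_mul, map_mul, he, he])
            map_zero' := hg (by rw [he, map_zero, map_zero])
            map_add' := fun x y => hg (by rw [he, map_add, map_add, he, he]) }, he⟩

/-- a nonzero element divides a nonzero polynomial -/
theorem VAP_norm {k : Type} [Field k] {Q : Type} [Group Q] [Finite Q] {B : Type} [CommRing B]
    [IsDomain B] [Algebra k[X] B] [MulSemiringAction Q B] (hG : GalAlg k[X] Q B) (c : B)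
    (hc : c ≠ 0) : ∃ d : k[X], d ≠ 0 ∧ ∃ b : B, algebraMap k[X] B d = c * b := by
  classical
  have hF : Fintype Q := Fintype.ofFinite Q
  have hinv : ∀ g : Q, g • (∏ g' : Q, g' • c) = ∏ g' : Q, g' • c := by
    intro g
    rw [Finset.smul_prod']
    exact Fintype.prod_equiv (Equiv.mulLeft g) _ _ fun x => by
      rw [smul_smul]
      rfl
  obtain ⟨d, hd⟩ := hG.inv _ hinv
  have hne : (∏ g' : Q, g' • c) ≠ 0 := by
    rw [Finset.prod_ne_zero_iff]
    intro g _ h0
    apply hc
    have h1 := congrArg (fun z => g⁻¹ • z) h0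
    simpa using h1
  refine ⟨d, ?_, ?_⟩
  · intro h0
    rw [h0, map_zero] at hd
    exact hne hd.symm
  · have h1 : (1 : Q) • c ∣ ∏ g' : Q, g' • c := Finset.dvd_prod_of_mem _ (Finset.mem_univ 1)
    rw [one_smul] at h1
    obtain ⟨b, hb⟩ := h1
    exact ⟨b, by rw [hd, hb]⟩

/-- the value of a polynomial at a point -/
theorem VAP_ev {k : Type} [Field k] {B : Type} [CommRing B] [Algebra k[X] B] (y : B →+* k)
    (hy : Pt y) (d : k[X]) :
    y (algebraMap k[X] B d) = d.eval (y (algebraMap k[X] B X)) := by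
  have h : y.comp (algebraMap k[X] B) = Polynomial.evalRingHom (y (algebraMap k[X] B X)) := by
    refine Polynomial.ringHom_ext ?_ ?_
    · intro a
      simp [hy a]
    · simp
  exact congrArg (fun f : k[X] →+* k => f d) h

/-- two places of `B` over the same point differ by a nontrivial element -/
theorem VAP_unr {k : Type} [Field k] {Q : Type} [Group Q] {B : Type} [CommRing B]
    [Algebra k[X] B] [MulSemiringAction Q B] (hG : GalAlg k[X] Q B) (y : B →+* k) (c : Q)
    (h : ∀ b : B, y (c • b) = y b) : c = 1 := by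
  by_contra hc
  have h1 := hG.unr c hc
  have h2 : Ideal.span {x : B | ∃ b : B, x = b - c • b} ≤ RingHom.ker y := by
    rw [Ideal.span_le]
    rintro x ⟨b, rfl⟩
    show y (b - c • b) = 0
    rw [map_sub, h, sub_self]
  rw [h1] at h2
  have h3 : (1 : B) ∈ RingHom.ker y := h2 trivial
  have h4 : y 1 = 0 := h3
  rw [map_one] at h4
  exact one_ne_zero h4

/-- the completion of `B` at an unramified place -/
theorem VAP_loc {k : Type} [Field k] {Ω Λ : Type} [Field Ω] [Algebra (RatFunc k) Ω] [Field Λ]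
    [Algebra (LaurentSeries k) Λ] [IsGalois (LaurentSeries k) Λ] {Q : Type} [Group Q]
    (φ : (Ω ≃ₐ[RatFunc k] Ω) →* Q) {B : Type} [CommRing B] [Algebra k[X] B]
    [MulSemiringAction Q B] (β : B →+* Ω)
    (hβa : ∀ a : k[X], β (algebraMap k[X] B a) =
      algebraMap (RatFunc k) Ω (algebraMap k[X] (RatFunc k) a))
    (hβγ : ∀ (γ : Ω ≃ₐ[RatFunc k] Ω) (b : B), γ (β b) = β (φ γ • b)) (a : k)
    (hu : UnrAt (Λ := Λ) φ a) (h : RatFunc k →+* LaurentSeries k) (j : Ω →+* Λ)
    (ρ : (Λ ≃ₐ[LaurentSeries k] Λ) →* (Ω ≃ₐ[RatFunc k] Ω)) (hh : IsH h (pA a))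
    (hj : Comp h j ρ) :
    ∃ jb : B →+* LaurentSeries k, Cpl a jb ∧ ∀ b, lΛ Λ (jb b) = j (β b) := by
  have hinj : Function.Injective (algebraMap (LaurentSeries k) Λ) :=
    (algebraMap (LaurentSeries k) Λ).injective
  have hfix : ∀ x : B, ∃ a : LaurentSeries k,
      algebraMap (LaurentSeries k) Λ a = (j.comp β) x := by
    intro x
    refine (InfiniteGalois.mem_range_algebraMap_iff_fixed (k := LaurentSeries k) (K := Λ)
      ((j.comp β) x)).2 fun δ => ?_
    show δ (j (β x)) = j (β x)
    rw [← hj.res δ, hβγ, hu h j ρ hh hj δ, one_smul]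
  obtain ⟨e, he⟩ := VAP_lift (j.comp β) (algebraMap (LaurentSeries k) Λ) hinj hfix
  refine ⟨e, ⟨?_, ?_⟩, he⟩
  · intro c
    apply hinj
    rw [he]
    show j (β (algebraMap k[X] B (C c))) = _
    rw [hβa, hj.alg, RatFunc.algebraMap_C, hh.cst]
  · apply hinj
    rw [he]
    show j (β (algebraMap k[X] B X)) = _
    rw [hβa, hj.alg, RatFunc.algebraMap_X, hh.X]
    rfl

/-- translates of completions -/
theorem VAP_cpl {k : Type} [Field k] {Q : Type} [Group Q] {B : Type} [CommRing B]
    [Algebra k[X] B] [MulSemiringAction Q B] (hG : GalAlg k[X] Q B) (a : k)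
    (jb : B →+* LaurentSeries k) (hj : Cpl a jb) (c : Q) :
    Cpl a (jb.comp (MulSemiringAction.toRingHom Q B c)) := by
  refine ⟨?_, ?_⟩
  · intro x
    show jb (c • algebraMap k[X] B (C x)) = _
    rw [hG.comm]
    exact hj.1 x
  · show jb (c • algebraMap k[X] B X) = _
    rw [hG.comm]
    exact hj.2

theorem prf_VAP (hAPC : APC) (hAPOrd : APOrd) (hRg : VRg) (hFld : VFld) (hELS : ELS)
    (hRoot : YRoot) : VAP := by
  classical
  intro k _ p Ω Λ _ _ _ _ hI jI ρI hB r hr hrp Q _ _ φ hcφ hsφ huφ s hs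
  have hac : IsAlgClosed k := hB.ac
  have hch : CharP k p := hB.ch
  have hgΩ : IsGalois (RatFunc k) Ω := hB.galΩ
  have hgΛ : IsGalois (LaurentSeries k) Λ := hB.galΛ
  have hrk : (r : k) ≠ 0 := by
    rw [Ne, CharP.cast_eq_zero_iff k p r]
    intro hd
    exact hrp ((Nat.prime_dvd_prime_iff_eq hB.pr hr).1 hd).symm
  obtain ⟨B, iB, aB, mB, β, hG, hdB, hβi, hβa, hβγ⟩ :=
    hRg k p Ω Λ hI jI ρI hB Q φ hcφ hsφ huφ
  -- the place over infinity
  let Ψ : (Λ ≃ₐ[LaurentSeries k] Λ) →* Q := φ.comp ρI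
  let D : Subgroup Q := Ψ.range
  let ΨD : (Λ ≃ₐ[LaurentSeries k] Λ) →* D := Ψ.rangeRestrict
  have hΨDv : ∀ δ, ((ΨD δ : D) : Q) = φ (ρI δ) := fun δ => rfl
  have hcΨ : Cts ΨD := by
    obtain ⟨S, hS⟩ := hcφ
    refine ⟨S.image jI, fun δ hδ => ?_⟩
    apply Subtype.ext
    rw [hΨDv]
    show φ (ρI δ) = 1
    apply hS
    intro x hx
    apply jI.injective
    rw [hB.comp.res]
    exact hδ _ (Finset.mem_image_of_mem _ hx)
  obtain ⟨E, iE, aE, mE, βE, hGE, hβEa, hβEγ, hβEs⟩ := hFld (LaurentSeries k) Λ D ΨD hcΨ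
    Ψ.rangeRestrict_surjective
  obtain ⟨φE, hφEc, -⟩ := hELS k D E inferInstance hGE
  have hβEi : Function.Injective βE := βE.injective
  have hfixE : ∀ b : B, ∃ x : E, βE x = (jI.comp β) b := by
    intro b
    apply hβEs
    intro δ hδ
    show δ (jI (β b)) = jI (β b)
    have h1 : φ (ρI δ) = 1 := by
      rw [← hΨDv, hδ]
      rfl
    rw [← hB.comp.res, hβγ, h1, one_smul]
  obtain ⟨e, he⟩ := VAP_lift (jI.comp β) βE hβEi hfixE
  have he' : ∀ b, βE (e b) = jI (β b) := he
  have heD : ∀ (d : D) (b : B), e ((d : Q) • b) = d • e b := by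
    intro d b
    obtain ⟨δ, rfl⟩ := Ψ.rangeRestrict_surjective d
    apply hβEi
    rw [he']
    have h1 : βE (ΨD δ • e b) = δ (βE (e b)) := (hβEγ δ (e b)).symm
    show jI (β ((φ (ρI δ)) • b)) = βE (ΨD δ • e b)
    rw [h1, he', ← hβγ, hB.comp.res]
  have hei : Function.Injective e := by
    intro b b' hbb
    apply hβi
    apply jI.injective
    rw [← he', ← he', hbb]
  let l : Q → B →+* LaurentSeries k := fun c =>
    (φE.toRingHom.comp e).comp (MulSemiringAction.toRingHom Q B c)
  have hl : ∀ c b, l c b = φE (e (c • b)) := fun c b => rfl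
  have hlK : ∀ c, KHom (l c) := by
    intro c x
    rw [hl, hG.comm, ← hφEc x]
    congr 1
    apply hβEi
    rw [he', hβa, hB.comp.alg, RatFunc.algebraMap_C, hB.isH.cst, hβEa]
  have hlI : ∀ c, Function.Injective (l c) := by
    intro c b b' hbb
    rw [hl, hl] at hbb
    exact MulAction.injective c (hei (φE.injective hbb))
  let en : Q ≃ Fin (Nat.card Q) := Finite.equivFin Q
  obtain ⟨c₁, hc₁, hAP⟩ := hAPC k r hrk Q B hG (Nat.card Q) (fun i => l (en.symm i))
    (fun i => hlK _) (fun i => hlI _)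
  obtain ⟨d, hd0, b₁, hdb⟩ := VAP_norm hG c₁ hc₁
  refine ⟨d.roots.toFinset, ?_⟩
  intro a ha h j ρ hh hj c₀ hc₀
  have hda : d.eval a ≠ 0 := by
    intro h0
    apply ha
    rw [Multiset.mem_toFinset, Polynomial.mem_roots hd0]
    exact h0
  obtain ⟨jb, hjb, hjβ⟩ := VAP_loc (Λ := Λ) φ β hβa hβγ a (huφ a) h j ρ hh hj
  -- points
  have hpt : ∀ c : Q, ∃ y : B →+* k, Pt y ∧ (∀ b, (jb (c • b)).coeff 0 = y b) ∧
      y (algebraMap k[X] B X) = a := by
    intro c
    exact (hAPOrd k Q B hG a _ (VAP_cpl hG a jb hjb c)).2.1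
  obtain ⟨y, hyP, hyc, hyX⟩ := hpt 1
  obtain ⟨y', hyP', hyc', hyX'⟩ := hpt c₀
  have hyc1 : ∀ b, (jb b).coeff 0 = y b := by
    intro b
    have := hyc b
    rwa [one_smul] at this
  have hnz : ∀ z : B →+* k, Pt z → z (algebraMap k[X] B X) = a → z c₁ ≠ 0 := by
    intro z hz hzX h0
    apply hda
    rw [← hzX, ← VAP_ev z hz d, hdb, map_mul, h0, zero_mul]
  obtain ⟨F, hF0, hFl, hFj⟩ := hAP y y' hyP hyP' (hnz y hyP hyX) (hnz y' hyP' hyX')
  have hsβ : ∀ (c : Q) (b : B), s c (β b) = β (c • b) := by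
    intro c b
    rw [hβγ, hs]
  refine ⟨β F, ?_, ?_, ?_, ?_, ?_⟩
  · intro h0
    apply hF0
    apply hβi
    rw [h0, map_zero]
  · intro γ hγ
    rw [hβγ, hγ, one_smul]
  · -- the places over `a`
    intro c
    have hC := VAP_cpl hG a jb hjb c
    have hcF : jb (c • F) ≠ 0 := by
      intro h0
      apply hF0
      apply (hAPOrd k Q B hG a _ hC).2.2 hdB
      rw [map_zero]
      exact h0
    refine ⟨HahnSeries.single (-(jb (c • F)).order) (1 : k) * jb (c • F), (jb (c • F)).order,
      ?_, ?_, ?_, ?_⟩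
    · exact mul_ne_zero (HahnSeries.single_ne_zero one_ne_zero) hcF
    · rw [HahnSeries.order_mul (HahnSeries.single_ne_zero one_ne_zero) hcF,
        HahnSeries.order_single one_ne_zero, neg_add_cancel]
    · rw [hsβ, ← hjβ]
      congr 1
      rw [← mul_assoc, HahnSeries.single_mul_single, add_neg_cancel, one_mul]
      show jb (c • F) = 1 * jb (c • F)
      rw [one_mul]
    · have h1 := hFj a _ hC
      have h2 : hit y (jb.comp (MulSemiringAction.toRingHom Q B c)) = if c = 1 then 1 else 0 := by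
        unfold hit
        have h3 : (∀ b : B, ((jb.comp (MulSemiringAction.toRingHom Q B c)) b).coeff 0 = y b) ↔
            c = 1 := by
          constructor
          · intro h4
            apply VAP_unr hG y c
            intro b
            rw [← h4 b, ← hyc1]
            rfl
          · rintro rfl b
            show (jb ((1 : Q) • b)).coeff 0 = y b
            rw [one_smul, hyc1]
        simp only [h3]
      have h5 : hit y' (jb.comp (MulSemiringAction.toRingHom Q B c)) =
          if c = c₀ then 1 else 0 := by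
        unfold hit
        have h3 : (∀ b : B, ((jb.comp (MulSemiringAction.toRingHom Q B c)) b).coeff 0 = y' b) ↔
            c = c₀ := by
          constructor
          · intro h4
            have h6 : c * c₀⁻¹ = 1 := by
              apply VAP_unr hG y
              intro b
              have h7 := h4 (c₀⁻¹ • b)
              rw [← hyc'] at h7
              have h8 : (jb (c • c₀⁻¹ • b)).coeff 0 = (jb (c₀ • c₀⁻¹ • b)).coeff 0 := h7
              rw [smul_inv_smul, hyc1, hyc1, smul_smul] at h8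
              exact h8
            exact mul_inv_eq_one.1 h6
          · rintro rfl b
            exact hyc' b
        simp only [h3]
      rw [h2, h5] at h1
      exact h1
  · -- the other places
    intro a' haa h' j' ρ' hh' hj'
    obtain ⟨jb', hjb', hjβ'⟩ := VAP_loc (Λ := Λ) φ β hβa hβγ a' (huφ a') h' j' ρ' hh' hj'
    obtain ⟨hO1, ⟨z, hzP, hzc, hzX⟩, hO3⟩ := hAPOrd k Q B hG a' jb' hjb'
    have hne : ∀ w : B →+* k, w (algebraMap k[X] B X) = a → hit w jb' = 0 := by
      intro w hw
      unfold hit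
      rw [if_neg]
      intro h0
      apply haa
      rw [← hzX, ← hw, ← hzc, h0]
    have h1 := hFj a' jb' hjb'
    rw [hne y hyX, hne y' hyX', sub_zero, add_zero] at h1
    have h2 : jb' F ≠ 0 := by
      intro h0
      apply hF0
      apply hO3 hdB
      rw [h0, map_zero]
    obtain ⟨v, hv⟩ := hRoot k r hrk (jb' F) h2 h1
    exact ⟨v, by rw [← hjβ', hv]⟩
  · -- infinity
    have hx : ∀ c : Q, ∃ x : E, x ^ r = e (c • F) := by
      intro c
      have h1 := hFl (en c)
      have h2 : l (en.symm (en c)) F = φE (e (c • F)) := by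
        rw [Equiv.symm_apply_apply, hl]
      rw [h2] at h1
      have h3 : φE (e (c • F)) ≠ 0 := by
        intro h0
        apply hF0
        apply hlI c
        rw [map_zero, hl, h0]
      obtain ⟨v, hv⟩ := hRoot k r hrk _ h3 h1
      refine ⟨φE.symm v, ?_⟩
      apply φE.injective
      rw [map_pow, RingEquiv.apply_symm_apply, hv]
    choose x hx using hx
    let rep : Q → Q := fun c => Quotient.out (Quotient.mk (QuotientGroup.rightRel D) c)
    have hrep : ∀ c, c * (rep c)⁻¹ ∈ D := by
      intro c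
      have h1 : (QuotientGroup.rightRel D) (rep c) c := Quotient.mk_out c
      rwa [QuotientGroup.rightRel_apply] at h1
    have hrep2 : ∀ g ∈ D, ∀ c, rep (g * c) = rep c := by
      intro g hg c
      have h1 : Quotient.mk (QuotientGroup.rightRel D) (g * c) =
          Quotient.mk (QuotientGroup.rightRel D) c := by
        apply Quotient.sound
        show (QuotientGroup.rightRel D) (g * c) c
        rw [QuotientGroup.rightRel_apply, mul_inv_rev, ← mul_assoc, mul_inv_cancel, one_mul]
        exact D.inv_mem hg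
      show Quotient.out _ = Quotient.out _
      rw [h1]
    let yy : Q → Λ := fun c => βE ((⟨c * (rep c)⁻¹, hrep c⟩ : D) • x (rep c))
    have hyr : ∀ c, jI (s c (β F)) = yy c ^ r := by
      intro c
      show _ = (βE ((⟨c * (rep c)⁻¹, hrep c⟩ : D) • x (rep c))) ^ r
      rw [← map_pow, ← smul_pow', hx, ← heD, he', smul_smul]
      show _ = jI (β ((c * (rep c)⁻¹ * rep c) • F))
      rw [inv_mul_cancel_right, hsβ]
    refine ⟨yy, ?_, ?_, hyr⟩
    · intro c h0
      have h1 := hyr c
      rw [h0, zero_pow hr.ne_zero, hsβ] at h1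
      apply hF0
      have h2 : c • F = 0 := by
        apply hβi
        apply jI.injective
        rw [h1, map_zero, map_zero]
      have h3 := congrArg (fun z => c⁻¹ • z) h2
      simpa using h3
    · intro δ c
      show δ (βE ((⟨c * (rep c)⁻¹, hrep c⟩ : D) • x (rep c))) =
        βE ((⟨φ (ρI δ) * c * (rep (φ (ρI δ) * c))⁻¹, hrep _⟩ : D) • x (rep (φ (ρI δ) * c)))
      rw [hβEγ, smul_smul]
      have hD : φ (ρI δ) ∈ D := ⟨δ, rfl⟩
      have h1 := hrep2 _ hD c
      have h2 : (ΨD δ * ⟨c * (rep c)⁻¹, hrep c⟩ : D) =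
          ⟨φ (ρI δ) * c * (rep (φ (ρI δ) * c))⁻¹, hrep _⟩ := by
        apply Subtype.ext
        show φ (ρI δ) * (c * (rep c)⁻¹) = φ (ρI δ) * c * (rep (φ (ρI δ) * c))⁻¹
        rw [h1, mul_assoc]
      rw [h2, show x (rep (φ (ρI δ) * c)) = x (rep c) from by rw [h1]]

end MP7b0bad.SV
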