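import Pool.Agent.Work.MP_7b0bad_ag.SV.VStmts2

set_option autoImplicit false

namespace MP7b0bad.SV

open Polynomial

/-- the twist of a homomorphism by a homomorphism to a central subgroup -/
theorem VCenG_tw {Γ G A : Type} [Group Γ] [Group G] [CommGroup A] (i : A →* G)
    (hi : ∀ (a : A) (g : G), i a * g = g * i a) (κ : Γ →* A) (Φ : Γ →* G) :
    ∃ Φ' : Γ →* G, ∀ γ, Φ' γ = i (κ γ) * Φ γ := by
  refine ⟨{ toFun := fun γ => i (κ γ) * Φ γ, map_one' := by simp, map_mul' := fun x y => ?_ },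
    fun γ => rfl⟩
  change i (κ (x * y)) * Φ (x * y) = i (κ x) * Φ x * (i (κ y) * Φ y)
  rw [map_mul, map_mul, map_mul]
  calc i (κ x) * i (κ y) * (Φ x * Φ y) = i (κ x) * (i (κ y) * Φ x) * Φ y := by group
    _ = i (κ x) * (Φ x * i (κ y)) * Φ y := by rw [hi (κ y) (Φ x)]
    _ = i (κ x) * Φ x * (i (κ y) * Φ y) := by group

/-- the twist is continuous -/
theorem VCenG_cts {F Ω : Type} [Field F] [Field Ω] [Algebra F Ω] {G A : Type} [Group G]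
    [CommGroup A] (i : A →* G) (κ : (Ω ≃ₐ[F] Ω) →* A) (Φ Φ' : (Ω ≃ₐ[F] Ω) →* G) (hκ : Cts κ)
    (hΦ : Cts Φ) (h : ∀ γ, Φ' γ = i (κ γ) * Φ γ) : Cts Φ' := by
  classical
  obtain ⟨S, hS⟩ := hκ
  obtain ⟨T, hT⟩ := hΦ
  refine ⟨S ∪ T, fun γ hγ => ?_⟩
  rw [h, hS γ fun x hx => hγ x (Finset.mem_union_left _ hx),
    hT γ fun x hx => hγ x (Finset.mem_union_right _ hx), map_one, one_mul]

/-- the place over `x = a` -/
theorem VCenG_pl (hH : VH) (hPl : VPl) {k : Type} [Field k] (Ω Λ : Type) [Field Ω]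
    [Algebra (RatFunc k) Ω] [Field Λ] [Algebra (LaurentSeries k) Λ] [IsGalois (RatFunc k) Ω]
    [IsGalois (LaurentSeries k) Λ] [IsSepClosed Λ] (a : k) :
    ∃ (h : RatFunc k →+* LaurentSeries k) (j : Ω →+* Λ)
      (ρ : (Λ ≃ₐ[LaurentSeries k] Λ) →* (Ω ≃ₐ[RatFunc k] Ω)), IsH h (pA a) ∧ Comp h j ρ := by
  obtain ⟨h, hh⟩ := (hH k).1 (pA a) (fun c hc => by
    have h1 := congrArg (fun u : LaurentSeries k => u.coeff 1) hc
    simp [pA] at h1)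
  obtain ⟨j, ρ, hC⟩ := (hPl (RatFunc k) (LaurentSeries k) Ω Λ h).1
  exact ⟨h, j, ρ, hh, hC⟩

/-- removing the ramification at finitely many points -/
theorem VCenG_rem (hTwC : VTwC) (hLv : VLv) (hH : VH) (hPl : VPl)
    {k : Type} [Field k] {p : ℕ} {Ω Λ : Type} [Field Ω]
    [Algebra (RatFunc k) Ω] [Field Λ] [Algebra (LaurentSeries k) Λ]
    {hI : RatFunc k →+* LaurentSeries k} {jI : Ω →+* Λ}
    {ρI : (Λ ≃ₐ[LaurentSeries k] Λ) →* (Ω ≃ₐ[RatFunc k] Ω)} (hB : Base k p Ω Λ hI jI ρI)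
    {r : ℕ} {ζ : k} {t : Λ} (hr : r.Prime) (hrp : r ≠ p) (ht : Tm r ζ t)
    {G A Q : Type} [Group G] [Finite G] [CommGroup A] [Finite A] [Group Q] (i : A →* G)
    (hi : Function.Injective i) (hc : ∀ (a : A) (g : G), i a * g = g * i a)
    (hA : ∀ a : A, a ^ r = 1) (q : G →* Q) (hq : ∀ g : G, q g = 1 ↔ g ∈ i.range)
    (φ : (Ω ≃ₐ[RatFunc k] Ω) →* Q) (hφ : ∀ a : k, UnrAt (Λ := Λ) φ a) (S : Finset k) :
    ∀ Φ : (Ω ≃ₐ[RatFunc k] Ω) →* G, Cts Φ → (∀ γ, q (Φ γ) = φ γ) →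
      (∀ a ∉ S, UnrAt (Λ := Λ) Φ a) →
      ∃ Φ' : (Ω ≃ₐ[RatFunc k] Ω) →* G, Cts Φ' ∧ (∀ γ, q (Φ' γ) = φ γ) ∧
        ∀ a : k, UnrAt (Λ := Λ) Φ' a := by
  classical
  have := hB.ac
  have := hB.ch
  haveI : Fact p.Prime := ⟨hB.pr⟩
  have := hB.galΩ
  have := hB.scΩ
  have := hB.galΛ
  have := hB.scΛ
  induction S using Finset.induction_on with
  | empty => exact fun Φ h1 h2 h3 => ⟨Φ, h1, h2, fun a => h3 a (Finset.notMem_empty a)⟩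
  | insert a₁ S ha₁ ih =>
    intro Φ h1 h2 h3
    obtain ⟨h, j, ρ, hh, hC⟩ := VCenG_pl hH hPl Ω Λ a₁
    have hLva := hLv k p Ω Λ hI jI ρI hB r ζ t hr hrp ht G A i hi hA
    obtain ⟨v, hv⟩ := (hLva Φ h1 a₁ h j ρ hh hC).1 (fun δ => by
      have h5 : q (Φ (ρ δ)) = 1 := by
        rw [h2]
        exact hφ a₁ h j ρ hh hC δ
      obtain ⟨b, hb⟩ := (hq _).1 h5
      exact ⟨b, hb.symm⟩)
    obtain ⟨κ, hκ1, hκ2, hκ3⟩ := hTwC k p Ω Λ hI jI ρI hB r ζ t hr hrp ht A hA a₁ v⁻¹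
    obtain ⟨Φ', hΦ'⟩ := VCenG_tw i hc κ Φ
    have hΦ'c : Cts Φ' := VCenG_cts i κ Φ Φ' hκ1 h1 hΦ'
    refine ih Φ' hΦ'c (fun γ => ?_) (fun a ha => ?_)
    · rw [hΦ', map_mul, (hq (i (κ γ))).2 ⟨κ γ, rfl⟩, one_mul, h2]
    · by_cases haa : a = a₁
      · subst haa
        refine (hLva Φ' hΦ'c a h j ρ hh hC).2.1 (fun δ n hn => ?_)
        rw [hΦ', hκ3 h j ρ hh hC δ n hn, hv δ n hn, ← map_mul, ← mul_pow, inv_mul_cancel]
      · intro h' j' ρ' hh' hC' δ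
        rw [hΦ', hκ2 a haa h' j' ρ' hh' hC' δ,
          h3 a (fun hm => (Finset.mem_insert.1 hm).elim haa ha) h' j' ρ' hh' hC' δ, map_one,
          one_mul]

theorem prf_VCenG (hLift : VLift) (hRam : VRam) (hTwC : VTwC) (hLv : VLv) (hCyc : VCyc)
    (hLT : VLT) (hH : VH) (hPl : VPl) (hCp : VCp) : VCenG := by
  intro k _ p Ω Λ _ _ _ _ hI jI ρI hB G _ _ r Z P _ c hr hrp hD hZr hZc φ hφ
  classical
  have := hB.ac
  have := hB.ch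
  haveI : Fact p.Prime := ⟨hB.pr⟩
  have := hB.galΩ
  have := hB.scΩ
  have := hB.galΛ
  have := hB.scΛ
  have hpr : ¬ p ∣ r := fun hd => hrp (((Nat.prime_dvd_prime_iff_eq hB.pr hr).1 hd).symm)
  have hrk : (r : k) ≠ 0 := fun h0 => hpr ((CharP.cast_eq_zero_iff k p r).1 h0)
  haveI : NeZero (r : k) := ⟨hrk⟩
  haveI : NeZero r := ⟨hr.ne_zero⟩
  obtain ⟨ζ, hζ⟩ := HasEnoughRootsOfUnity.exists_primitiveRoot k r
  obtain ⟨t, ht⟩ := (hLT k p Λ r ζ hr.pos hpr hζ).1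
  have hZm : ∀ a ∈ Z, ∀ g : G, a * g = g * a := fun a ha g =>
    ((Subgroup.mem_center_iff.1 (hZc ha)) g).symm
  have hZcc : ∀ a ∈ Z, ∀ b ∈ Z, a * b = b * a := fun a ha b _ => hZm a ha b
  letI : CommGroup Z :=
    { (inferInstance : Group Z) with
      mul_comm := fun a b => Subtype.ext (hZcc a a.2 b b.2) }
  have hZr' : ∀ a : Z, a ^ r = 1 := fun a => by
    apply Subtype.ext
    have := hZr a a.2
    simpa using this
  obtain ⟨Φ₁, hΦ₁, hΦ₁q⟩ := hLift k Ω p r hr hrp G Z hZcc hZr φ hφ.cts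
  set q : G →* G ⧸ Z := QuotientGroup.mk' Z with hq
  have hq1 : ∀ g : G, q g = 1 ↔ g ∈ Z.subtype.range := fun g => by
    rw [hq, QuotientGroup.mk'_apply, QuotientGroup.eq_one_iff, Subgroup.range_subtype]
  obtain ⟨S, hS⟩ := hRam k p Ω Λ hI jI ρI hB G Φ₁ hΦ₁
  obtain ⟨Φ, hΦc, hΦq, hΦu⟩ := VCenG_rem hTwC hLv hH hPl hB hr hrp ht Z.subtype
    Z.subtype_injective (fun a g => hZm a a.2 g) hZr' q hq1 φ hφ.unr S Φ₁ hΦ₁ hΦ₁q hS
  refine ⟨Φ, hΦc, hΦq, hΦu, ?_⟩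
  have hcard : ¬ p ∣ Nat.card Z := by
    haveI : Fact r.Prime := ⟨hr⟩
    have hpg : IsPGroup r Z := fun g => ⟨1, by rw [pow_one]; exact hZr' g⟩
    obtain ⟨n, hn⟩ := hpg.exists_card_eq
    intro hd
    rw [hn] at hd
    exact hpr (hB.pr.dvd_of_dvd_pow hd)
  have hmap : (Φ.comp ρI).range.map q = (P ⊔ Subgroup.zpowers c).map q := by
    have h2 : (φ.comp ρI).range = (P ⊔ Subgroup.zpowers c).map q := hφ.inf
    have h3 : q.comp (Φ.comp ρI) = φ.comp ρI := MonoidHom.ext fun δ => hΦq (ρI δ)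
    rw [← h2, ← h3, MonoidHom.range_comp q (Φ.comp ρI)]
  have hsup : (Φ.comp ρI).range ⊔ Z = P ⊔ Subgroup.zpowers c ⊔ Z := by
    have h4 := Subgroup.map_eq_map_iff.1 hmap
    rwa [hq, QuotientGroup.ker_mk'] at h4
  exact hCyc k p Λ G P Z c hD.pgr hD.nrm hD.cop hZc hcard (Φ.comp ρI)
    (hCp.2.1 _ _ _ _ hI jI ρI hB.comp _ Φ hΦc) hsup

end MP7b0bad.SV
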