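import Pool.Agent.Work.MP_7b0bad_ag.SV.LiftStmts

set_option autoImplicit false

/-!
# Item VKumL: central embedding problems of `r`-groups over open subgroups
-/

namespace MP7b0bad.SV

open Polynomial

/-- an injective character of a group of prime order with values in the roots of unity -/
theorem VKumL_char (k : Type) [Field k] [IsAlgClosed k] (r : ℕ) (hr : r.Prime) (hrk : (r : k) ≠ 0)
    (N : Type) [Group N] (hN : Nat.card N = r) :
    ∃ χ : N →* kˣ, Function.Injective χ ∧ ∀ c : kˣ, c ^ r = 1 → ∃ n, χ n = c := by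
  have : Fact r.Prime := ⟨hr⟩
  have : NeZero (r : k) := ⟨hrk⟩
  have : Finite N := Nat.finite_of_card_ne_zero (by rw [hN]; exact hr.ne_zero)
  obtain ⟨ζ, hζ⟩ := HasEnoughRootsOfUnity.exists_primitiveRoot k r
  have hcyc : IsCyclic N := isCyclic_of_prime_card hN
  obtain ⟨g, hg⟩ := hcyc.exists_generator
  have hog : orderOf g = r := by
    rw [← hN]
    exact orderOf_eq_card_of_forall_mem_zpowers hg
  set z : kˣ := (hζ.isUnit hr.ne_zero).unit with hz
  have hzp : IsPrimitiveRoot z r := by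
    rw [← IsPrimitiveRoot.coe_units_iff, hz, IsUnit.unit_spec]
    exact hζ
  have hoz : orderOf z = r := hzp.eq_orderOf.symm
  set χ : N →* kˣ := monoidHomOfForallMemZpowers hg (g' := z) (by rw [hog, hoz]) with hχ
  have hχg : χ g = z := monoidHomOfForallMemZpowers_apply_gen _ _
  refine ⟨χ, ?_, ?_⟩
  · rw [injective_iff_map_eq_one]
    intro n hn
    obtain ⟨i, rfl⟩ := Subgroup.mem_zpowers_iff.1 (hg n)
    rw [map_zpow, hχg, ← orderOf_dvd_iff_zpow_eq_one, hoz] at hn
    rw [← orderOf_dvd_iff_zpow_eq_one, hog]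
    exact hn
  · intro c hc
    have : NeZero r := ⟨hr.ne_zero⟩
    obtain ⟨i, _, hi⟩ := hζ.eq_pow_of_pow_eq_one (ξ := (c : k)) (by
      rw [← Units.val_pow_eq_pow_val, hc, Units.val_one])
    refine ⟨g ^ i, ?_⟩
    rw [map_pow, hχg]
    apply Units.ext
    rw [Units.val_pow_eq_pow_val, hz, IsUnit.unit_spec, hi]

theorem prf_VKumL (hA : VAct) (hC : YCross) (hH : YH90) : VKumL := by
  intro k Ω _ _ _ _ _ _ r hr hrk S _ _ N _ hS hcent hcard Γ' hΓ' φ hφ
  classical
  obtain ⟨L, _, _, _, e, hfd, he, hfaith, hfix⟩ := hA (RatFunc k) Ω Γ' hΓ' (S ⧸ N) φ hφ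
  have := hfd
  -- the preimage of the image of `φ`
  set A : Subgroup S := φ.range.comap (QuotientGroup.mk' N) with hAdef
  have hNA : N ≤ A := by
    intro n hn
    rw [hAdef, Subgroup.mem_comap]
    have h1 : QuotientGroup.mk' N n = 1 := (QuotientGroup.eq_one_iff n).2 hn
    rw [h1]
    exact one_mem _
  let π : A →* φ.range := ((QuotientGroup.mk' N).comp A.subtype).codRestrict φ.range (fun a => a.2)
  have hπ : ∀ a : A, ((π a : φ.range) : S ⧸ N) = ((a : S) : S ⧸ N) := fun a => rfl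
  have hπ1 : ∀ a : A, π a = 1 ↔ (a : S) ∈ N := by
    intro a
    rw [← Subtype.coe_inj, hπ]
    exact QuotientGroup.eq_one_iff _
  letI instA : MulSemiringAction A L := MulSemiringAction.compHom L π
  have hsm : ∀ (a : A) (x : L), a • x = π a • x := fun a x => rfl
  -- the character
  set N' : Subgroup A := N.subgroupOf A with hN'
  have hN'mem : ∀ a : A, a ∈ N' ↔ (a : S) ∈ N := fun a => Subgroup.mem_subgroupOf
  have : N'.Normal := Subgroup.normal_subgroupOf
  have hN'card : Nat.card N' = r := by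
    rw [← hcard]
    exact Nat.card_congr (Subgroup.subgroupOfEquivOfLe hNA).toEquiv
  obtain ⟨χ0, hχ0inj, hχ0surj⟩ := VKumL_char k r hr hrk N' hN'card
  let ι : k →+* L := (algebraMap (RatFunc k) L).comp RatFunc.C
  let χ : N' →* Lˣ := (Units.map (ι : k →* L)).comp χ0
  have hχv : ∀ n : N', ((χ n : Lˣ) : L) = ι ((χ0 n : kˣ) : k) := fun n => rfl
  have hχinj : Function.Injective χ := by
    intro a b hab
    apply hχ0inj
    apply Units.ext
    apply ι.injective
    rw [← hχv, ← hχv, hab]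
  have hχr : ∀ n : N', χ n ^ r = 1 := by
    intro n
    rw [← map_pow, ← hN'card, pow_card_eq_one', map_one]
  -- the crossed homomorphism
  have hsolv : Group.IsSolvable A := by
    have : Fact r.Prime := ⟨hr⟩
    have h1 : IsPGroup r A := hS.to_subgroup A
    have := h1.isNilpotent
    infer_instance
  obtain ⟨f, hf, hfN⟩ := hC k L A N' hsolv
    (fun n hn x => by rw [hsm, (hπ1 n).2 ((hN'mem n).1 hn), one_smul])
    (fun g hg => hfaith (π g) (fun h => hg ((hN'mem g).2 ((hπ1 g).1 h))))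
    (fun g a => hfix (π g) a) χ
    (fun g n => by rw [hχv]; exact hfix (π g) _)
    (fun g n n' h => by
      have h1 : n' = n := by
        apply Subtype.ext
        apply Subtype.ext
        rw [h]
        have h2 := hcent ((n : A) : S) ((hN'mem _).1 n.2) (g : S)
        show (g : S) * ((n : A) : S) * (g : S)⁻¹ = ((n : A) : S)
        rw [← h2, mul_inv_cancel_right]
      rw [h1])
  have hfN' : ∀ (g : A) (n : N'), f (g * n) = f g * χ n := by
    intro g n
    apply Units.ext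
    rw [hf, hfN, hχv, Units.val_mul, hχv]
    congr 1
    exact hfix (π g) _
  -- the cocycle `f ^ r` of the quotient
  have hsec : ∀ q : φ.range, ∃ a : A, π a = q := by
    rintro ⟨q, hq⟩
    obtain ⟨s, rfl⟩ := QuotientGroup.mk_surjective q
    exact ⟨⟨s, hq⟩, Subtype.ext rfl⟩
  choose sec hsec using hsec
  have hdiff : ∀ a b : A, π a = π b → ∃ n : N', b = a * n := by
    intro a b hab
    refine ⟨⟨a⁻¹ * b, ?_⟩, by simp⟩
    rw [hN'mem, ← hπ1, map_mul, map_inv, hab, inv_mul_cancel]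
  have hFr : ∀ a : A, f (sec (π a)) ^ r = f a ^ r := by
    intro a
    obtain ⟨n, hn⟩ := hdiff a (sec (π a)) (hsec (π a)).symm
    rw [hn, hfN', mul_pow, hχr, mul_one]
  obtain ⟨α, hα⟩ := hH φ.range L hfaith (fun q => f (sec q) ^ r) (by
    intro g h
    have h1 : f (sec (g * h)) ^ r = f (sec g * sec h) ^ r := by
      rw [← hFr (sec g * sec h), map_mul, hsec, hsec]
    show ((f (sec (g * h)) ^ r : Lˣ) : L) = ((f (sec g) ^ r : Lˣ) : L) *
      (g • ((f (sec h) ^ r : Lˣ) : L))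
    rw [h1, Units.val_pow_eq_pow_val, hf, Units.val_pow_eq_pow_val, Units.val_pow_eq_pow_val,
      mul_pow, smul_pow', hsm, hsec])
  have hα' : ∀ a : A, π a • (α : L) = (f a : L) ^ r * α := by
    intro a
    rw [hα]
    show ((f (sec (π a)) ^ r : Lˣ) : L) * _ = _
    rw [hFr, Units.val_pow_eq_pow_val]
  -- the root
  have hrΩ : NeZero (r : Ω) := by
    refine ⟨fun h => hrk ?_⟩
    apply (e.toRingHom.comp ι).injective
    rw [map_natCast, map_zero, h]
  obtain ⟨w, hw⟩ := IsSepClosed.exists_pow_nat_eq (e (α : L)) r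
  have hw0 : w ≠ 0 := by
    rintro rfl
    rw [zero_pow hr.ne_zero] at hw
    exact (map_ne_zero e).2 α.ne_zero hw.symm
  have hef0 : ∀ a : A, e (f a : L) ≠ 0 := fun a => (map_ne_zero e).2 (f a).ne_zero
  -- existence
  have hex : ∀ γ : Γ', ∃ g : A, (((g : S) : S ⧸ N)) = φ γ ∧
      (γ : Ω ≃ₐ[RatFunc k] Ω) w = e (f g : L) * w := by
    intro γ
    set s : A := sec ⟨φ γ, ⟨γ, rfl⟩⟩ with hs
    have hsγ : ((s : S) : S ⧸ N) = φ γ := by
      rw [← hπ, hs, hsec]
    have h1 : ((γ : Ω ≃ₐ[RatFunc k] Ω) w / (e (f s : L) * w)) ^ r = 1 := by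
      have h2 : ((γ : Ω ≃ₐ[RatFunc k] Ω) w) ^ r = (e (f s : L) * w) ^ r := by
        rw [← map_pow, hw, ← he γ (π s) (α : L) (by rw [hπ, hsγ]), hα', map_mul, map_pow, mul_pow,
          hw]
      rw [div_pow, h2, div_self (pow_ne_zero _ (mul_ne_zero (hef0 s) hw0))]
    -- the root of unity comes from `k`
    obtain ⟨c, hc⟩ : ∃ c : k, e (ι c) = (γ : Ω ≃ₐ[RatFunc k] Ω) w / (e (f s : L) * w) := by
      have : NeZero (r : k) := ⟨hrk⟩
      obtain ⟨ζ, hζ⟩ := HasEnoughRootsOfUnity.exists_primitiveRoot k r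
      have hζΩ : IsPrimitiveRoot (e (ι ζ)) r := by
        have := hζ.map_of_injective (f := e.toRingHom.comp ι) (e.toRingHom.comp ι).injective
        exact this
      have : NeZero r := ⟨hr.ne_zero⟩
      obtain ⟨i, _, hi⟩ := hζΩ.eq_pow_of_pow_eq_one h1
      exact ⟨ζ ^ i, by rw [map_pow, map_pow, hi]⟩
    have hcr : c ^ r = 1 := by
      apply (e.toRingHom.comp ι).injective
      rw [map_pow, map_one]
      show e (ι c) ^ r = 1
      rw [hc, h1]
    have hc0 : c ≠ 0 := by
      rintro rfl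
      rw [zero_pow hr.ne_zero] at hcr
      exact zero_ne_one hcr
    obtain ⟨n, hn⟩ := hχ0surj (Units.mk0 c hc0) (by
      apply Units.ext
      rw [Units.val_pow_eq_pow_val, Units.val_mk0, hcr, Units.val_one])
    refine ⟨s * n, ?_, ?_⟩
    · rw [Subgroup.coe_mul, QuotientGroup.mk_mul, hsγ,
        (QuotientGroup.eq_one_iff _).2 ((hN'mem _).1 n.2), mul_one]
    · rw [hfN', Units.val_mul, hχv, hn, Units.val_mk0, map_mul, hc]
      field_simp [hef0 s, hw0]
  choose Ψ hΨ1 hΨ2 using hex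
  -- uniqueness
  have huniq : ∀ (a b : A), ((a : S) : S ⧸ N) = ((b : S) : S ⧸ N) →
      e (f a : L) * w = e (f b : L) * w → a = b := by
    intro a b hab h
    obtain ⟨n, hn⟩ := hdiff a b (Subtype.ext hab)
    have h1 : (f a : L) = f b := e.injective (mul_right_cancel₀ hw0 h)
    have h2 : f a = f a * χ n := by
      rw [← hfN', ← hn]
      exact Units.ext h1
    have h3 : χ n = 1 := by
      rw [eq_comm, mul_eq_left] at h2
      exact h2
    have h4 : n = 1 := hχinj (by rw [h3, map_one])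
    rw [hn, h4, Subgroup.coe_one, mul_one]
  have hmul : ∀ γ δ : Γ', Ψ (γ * δ) = Ψ γ * Ψ δ := by
    intro γ δ
    apply huniq
    · rw [hΨ1, Subgroup.coe_mul, QuotientGroup.mk_mul, hΨ1, hΨ1, map_mul]
    · rw [← hΨ2, Subgroup.coe_mul, AlgEquiv.mul_apply, hΨ2, map_mul, hΨ2,
        ← he γ (π (Ψ γ)) _ (by rw [hπ, hΨ1]), hf, map_mul, hsm]
      ring
  let Φ : Γ' →* S := A.subtype.comp (MonoidHom.mk' Ψ hmul)
  refine ⟨Φ, ?_, fun γ => hΨ1 γ⟩
  obtain ⟨T, hT⟩ := hφ
  refine ⟨insert w T, ?_⟩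
  intro γ hγ
  have h1 : φ γ = 1 := hT γ (fun x hx => hγ x (Finset.mem_insert_of_mem hx))
  have h2 : (γ : Ω ≃ₐ[RatFunc k] Ω) w = w := hγ w (Finset.mem_insert_self _ _)
  have hf1 : f 1 = 1 := by
    have h3 := hfN' 1 1
    rw [Subgroup.coe_one, mul_one, map_one, mul_one] at h3
    have h4 := hfN 1
    rw [map_one] at h4
    exact h4
  have h3 : Ψ γ = 1 := by
    apply huniq
    · rw [hΨ1, h1]
      rfl
    · rw [← hΨ2, h2, hf1, Units.val_one, map_one, one_mul]
  show ((Ψ γ : A) : S) = 1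
  rw [h3]
  rfl

end MP7b0bad.SV
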