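import Pool.Agent.Work.MP_7b0bad_ag.SV.VStmts2

set_option autoImplicit false

/-!
# VSpp: split kernels of exponent `p`
-/

namespace MP7b0bad.SV

open Polynomial

/-- `P ⟨c⟩` is solvable -/
theorem VSpp_solv {G : Type} [Group G] [Finite G] (p : ℕ) [Fact p.Prime] (P : Subgroup G) (c : G)
    (hD : GT.Dat0 p P c) : Group.IsSolvable (GT.Pc P c) := by
  have hnorm : P ⊔ Subgroup.zpowers c ≤ Subgroup.normalizer (P : Set G) := by
    refine sup_le Subgroup.le_normalizer ?_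
    rw [Subgroup.zpowers_le]
    have : P.map (MulAut.conj c).toMonoidHom = P := by
      apply Subgroup.eq_of_le_of_card_ge
      · rintro _ ⟨u, hu, rfl⟩
        exact hD.nrm u hu
      · rw [Subgroup.card_map_of_injective (MulAut.conj c).injective]
    rw [Subgroup.mem_normalizer_iff]
    intro u
    constructor
    · exact hD.nrm u
    · intro hu
      rw [← this] at hu
      obtain ⟨u', hu', h⟩ := hu
      have : u' = u := (MulAut.conj c).injective h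
      exact this ▸ hu'
  set K : Subgroup G := P ⊔ Subgroup.zpowers c with hK
  have hPK : P ≤ K := le_sup_left
  have hcK : Subgroup.zpowers c ≤ K := le_sup_right
  have hN : (P.subgroupOf K).Normal := Subgroup.normal_subgroupOf_of_le_normalizer hnorm
  have : Group.IsSolvable P := by
    have := hD.pgr.isNilpotent
    infer_instance
  have : Group.IsSolvable (P.subgroupOf K) :=
    Group.isSolvable_of_isSolvable_injective
      (f := (Subgroup.subgroupOfEquivOfLe hPK).toMonoidHom)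
      (Subgroup.subgroupOfEquivOfLe hPK).injective
  have htop : (P.subgroupOf K) ⊔ (Subgroup.zpowers c).subgroupOf K = ⊤ := by
    rw [← Subgroup.subgroupOf_sup hPK hcK]
    exact Subgroup.subgroupOf_self _
  have hmap : ((Subgroup.zpowers c).subgroupOf K).map (QuotientGroup.mk' (P.subgroupOf K)) = ⊤ := by
    have h1 := congrArg (Subgroup.map (QuotientGroup.mk' (P.subgroupOf K))) htop
    rw [Subgroup.map_sup, Subgroup.map_top_of_surjective _ (QuotientGroup.mk'_surjective _)] at h1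
    rw [← h1]
    have h2 : (P.subgroupOf K).map (QuotientGroup.mk' (P.subgroupOf K)) = ⊥ := by
      rw [Subgroup.map_eq_bot_iff, QuotientGroup.ker_mk']
    rw [h2, bot_sup_eq]
  have : Group.IsSolvable (K ⧸ (P.subgroupOf K)) := by
    apply Group.isSolvable_of_comm
    intro a b
    have ha : a ∈ ((Subgroup.zpowers c).subgroupOf K).map
      (QuotientGroup.mk' (P.subgroupOf K)) := by rw [hmap]; trivial
    have hb : b ∈ ((Subgroup.zpowers c).subgroupOf K).map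
      (QuotientGroup.mk' (P.subgroupOf K)) := by rw [hmap]; trivial
    obtain ⟨x, hx, rfl⟩ := ha
    obtain ⟨y, hy, rfl⟩ := hb
    rw [← map_mul, ← map_mul]
    congr 1
    apply Subtype.ext
    obtain ⟨n, hn⟩ := hx
    obtain ⟨l, hl⟩ := hy
    simp only [Subgroup.subtype_apply] at hn hl
    simp only [Subgroup.coe_mul]
    rw [← hn, ← hl]
    exact zpow_mul_comm c n l
  exact (Group.isSolvable_iff_subgroup_quotient (P.subgroupOf K)).2 ⟨inferInstance, inferInstance⟩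

/-- the abelian normal subgroup as a group with an action -/
theorem VSpp_abk {G : Type} [Group G] [Finite G] (p : ℕ) (V : Subgroup G) [V.Normal]
    (hp : ∀ a ∈ V, a ^ p = 1) (hc : ∀ a ∈ V, ∀ b ∈ V, a * b = b * a) :
    ∃ (A : Type) (_ : CommGroup A) (_ : Finite A) (i : A →* G) (act : G →* MulAut A),
      AbK p i act ∧ i.range = V := by
  let _ : CommGroup V := { (inferInstance : Group V) with
    mul_comm := fun a b => Subtype.ext (hc a a.2 b b.2) }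
  refine ⟨V, inferInstance, inferInstance, V.subtype, MulAut.conjNormal, ⟨?_, ?_, ?_⟩, ?_⟩
  · exact V.subtype_injective
  · intro g a
    rfl
  · intro a
    exact Subtype.ext (hp a a.2)
  · exact Subgroup.range_subtype V

/-- a `p`-group acting on a non-trivial group of exponent `p` has a non-trivial fixed point -/
theorem VSpp_fix (p : ℕ) [Fact p.Prime] {G A : Type} [Group G] [Finite G] [CommGroup A] [Finite A]
    (act : G →* MulAut A) (P₃ : Subgroup G) (hP : IsPGroup p P₃) (hA : ∀ a : A, a ^ p = 1)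
    (hA1 : ∃ a : A, a ≠ 1) : ∃ v : A, v ≠ 1 ∧ ∀ g ∈ P₃, act g v = v := by
  let _ : MulAction P₃ A := MulAction.compHom A (act.comp P₃.subtype)
  have hsm : ∀ (g : P₃) (a : A), g • a = act g a := fun g a => rfl
  obtain ⟨a, ha⟩ := hA1
  have hord : orderOf a = p := orderOf_eq_prime (hA a) ha
  have hdvd : p ∣ Nat.card A := hord ▸ orderOf_dvd_natCard a
  have h1 : (1 : A) ∈ MulAction.fixedPoints P₃ A := by
    intro g
    rw [hsm, map_one]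
  obtain ⟨v, hv, hv1⟩ := hP.exists_fixed_point_of_prime_dvd_card_of_fixed_point A hdvd h1
  exact ⟨v, hv1.symm, fun g hg => hv ⟨g, hg⟩⟩

/-- an element with `x ^ p = x` is a natural number -/
theorem VSpp_nat {Λ : Type} [Field Λ] (p : ℕ) [Fact p.Prime] [CharP Λ p] (x : Λ)
    (hx : x ^ p = x) : ∃ m : ℕ, x = (m : Λ) := by
  have h1 : x ∈ (⊥ : Subfield Λ) := (Subfield.mem_bot_iff_pow_eq_self Λ p).2 hx
  obtain ⟨n, hn⟩ := (mem_bot_iff_intCast p Λ).1 h1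
  have : NeZero p := ⟨(Fact.out : p.Prime).ne_zero⟩
  refine ⟨((n : ZMod p)).val, ?_⟩
  rw [← hn]
  have h2 : (ZMod.castHom (dvd_refl p) Λ) ((((n : ZMod p)).val : ℕ) : ZMod p) =
      (ZMod.castHom (dvd_refl p) Λ) (n : ZMod p) := by
    rw [ZMod.natCast_zmod_val]
  rw [map_natCast, map_intCast] at h2
  exact h2.symm

/-- the difference of two roots of an Artin-Schreier equation -/
theorem VSpp_as {Λ : Type} [Field Λ] (p : ℕ) [Fact p.Prime] [CharP Λ p] (x y : Λ)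
    (h : x ^ p - x = y ^ p - y) : ∃ m : ℕ, x = y + (m : Λ) := by
  obtain ⟨m, hm⟩ := VSpp_nat p (x - y) (by
    rw [sub_pow_char]
    linear_combination h)
  exact ⟨m, by rw [← hm]; ring⟩

/-- Artin-Schreier equations are soluble -/
theorem VSpp_root {Ω : Type} [Field Ω] [IsSepClosed Ω] (p : ℕ) [Fact p.Prime] [CharP Ω p]
    (c : Ω) : ∃ z : Ω, z ^ p - z = c := by
  have hp : 1 < p := (Fact.out : p.Prime).one_lt
  have hdeg : (X ^ p - X - C c : Polynomial Ω).natDegree = p := by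
    have : (X ^ p - X - C c : Polynomial Ω) = X ^ p - (X + C c) := by ring
    rw [this, natDegree_sub_eq_left_of_natDegree_lt]
    · exact natDegree_X_pow p
    · rw [natDegree_X_add_C, natDegree_X_pow]
      exact hp
  have hsep : (X ^ p - X - C c : Polynomial Ω).Separable := by
    rw [Polynomial.separable_def]
    have : derivative (X ^ p - X - C c : Polynomial Ω) = -1 := by
      simp [derivative_X_pow]
    rw [this]
    exact isCoprime_one_right.neg_right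
  obtain ⟨z, hz⟩ := IsSepClosed.exists_root (X ^ p - X - C c : Polynomial Ω) (by
    intro h0
    have h1 : (X ^ p - X - C c : Polynomial Ω).natDegree = 0 :=
      natDegree_eq_of_degree_eq_some (n := 0) (by simpa using h0)
    omega) hsep
  refine ⟨z, ?_⟩
  simp only [IsRoot.def, eval_sub, eval_pow, eval_X, eval_C] at hz
  exact sub_eq_zero.1 hz

/-- `N` of prime index, `φ` onto, and an element of the kernel outside `N` -/
theorem VSpp_idx {Γ H : Type} [Group Γ] [Group H] (p : ℕ) (hp : p.Prime) (N : Subgroup Γ)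
    (hN : N.index = p) (φ : Γ →* H) (hφ : Function.Surjective φ)
    (hδ : ∃ δ : Γ, φ δ = 1 ∧ δ ∉ N) : ∀ x : H, ∃ γ ∈ N, φ γ = x := by
  by_contra hcon
  push Not at hcon
  obtain ⟨x, hx⟩ := hcon
  set N' : Subgroup Γ := (N.map φ).comap φ with hN'
  have hle : N ≤ N' := Subgroup.le_comap_map φ N
  have hdvd : N'.index ∣ p := hN ▸ Subgroup.index_dvd_of_le hle
  obtain ⟨δ, hδ1, hδ2⟩ := hδ
  have hδN' : δ ∈ N' := by
    rw [hN', Subgroup.mem_comap, hδ1]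
    exact one_mem _
  rcases (Nat.dvd_prime hp).1 hdvd with h1 | h1
  · rw [Subgroup.index_eq_one] at h1
    obtain ⟨γ, hγ⟩ := hφ x
    have h2 : γ ∈ N' := h1 ▸ Subgroup.mem_top γ
    obtain ⟨γ', hγ', h⟩ := h2
    exact hx γ' hγ' (h.trans hγ)
  · have h2 : N.relIndex N' * N'.index = N.index := Subgroup.relIndex_mul_index hle
    rw [h1, hN] at h2
    have h3 : N.relIndex N' = 1 := by
      have := hp.pos
      nlinarith [Nat.eq_of_mul_eq_mul_right this (h2.trans (one_mul p).symm)]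
    exact hδ2 (Subgroup.relIndex_eq_one.1 h3 hδN')

/-- the parameter at infinity is the inverse of `s` -/
theorem VSpp_pI (k : Type) [Field k] : pI k = (HahnSeries.single (1 : ℤ) (1 : k))⁻¹ := by
  rw [HahnSeries.inv_single, inv_one, pI]

/-- the tame base change -/
theorem VSpp_loc (hLW : VLW) (hSt : VSt) (hBcI : VBcI) (hBcU : VBcU) (hSur : VSur) (hLT : VLT)
    (hH : VH) (hPl : VPl) (hCp : VCp) (hSub : VSub) {k : Type} [Field k] (p : ℕ) {Ω Λ : Type}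
    [Field Ω] [Algebra (RatFunc k) Ω] [Field Λ] [Algebra (LaurentSeries k) Λ]
    (hI : RatFunc k →+* LaurentSeries k) (jI : Ω →+* Λ)
    (ρI : (Λ ≃ₐ[LaurentSeries k] Λ) →* (Ω ≃ₐ[RatFunc k] Ω)) (hB : Base k p Ω Λ hI jI ρI)
    {H : Type} [Group H] [Finite H] (Φ : (Ω ≃ₐ[RatFunc k] Ω) →* H) (hcts : Cts Φ)
    (hsur : Function.Surjective Φ) (hunr : ∀ a : k, UnrAt (Λ := Λ) Φ a)
    (hsolv : Group.IsSolvable (Φ.comp ρI).range) :
    ∃ (m : ℕ) (h₁ : RatFunc k →+* RatFunc k) (e₁ : Ω →+* Ω)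
      (ρ₁ : (Ω ≃ₐ[RatFunc k] Ω) →* (Ω ≃ₐ[RatFunc k] Ω)),
      0 < m ∧ IsR h₁ (X ^ m : k[X]) ∧ Comp h₁ e₁ ρ₁ ∧ Cts (Φ.comp ρ₁) ∧
      Function.Surjective (Φ.comp ρ₁) ∧ (∀ a : k, UnrAt (Λ := Λ) (Φ.comp ρ₁) a) ∧
      ∀ δ, ∃ n : ℕ, (Φ (ρ₁ (ρI δ))) ^ (p ^ n) = 1 := by
  have _i1 := hB.ac
  have _i2 := hB.ch
  have _i3 : Fact p.Prime := ⟨hB.pr⟩
  have _i4 := hB.galΩ
  have _i5 := hB.scΩ
  have _i6 := hB.galΛ
  have _i7 := hB.scΛ
  have hctsI : Cts (Φ.comp ρI) := hCp.2.1 _ _ _ _ hI jI ρI hB.comp H Φ hcts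
  have hctsD : Cts (Φ.comp ρI).rangeRestrict := by
    obtain ⟨S, hS⟩ := hctsI
    exact ⟨S, fun γ hγ => Subtype.ext (hS γ hγ)⟩
  obtain ⟨m, hm, hpm, hW⟩ := hLW k p Λ (Φ.comp ρI).range hsolv (Φ.comp ρI).rangeRestrict hctsD
  have _i8 : NeZero (m : k) := ⟨fun h => hpm ((CharP.cast_eq_zero_iff k p m).1 h)⟩
  obtain ⟨ζ, hζ⟩ := HasEnoughRootsOfUnity.exists_primitiveRoot k m
  obtain ⟨⟨t, ht⟩, -⟩ := hLT k p Λ m ζ hm hpm hζ
  have hdeg : 0 < (X ^ m : k[X]).natDegree := by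
    rw [natDegree_X_pow]
    exact hm
  obtain ⟨h₁, hh₁⟩ := (hH k).2.2.1 (X ^ m) hdeg
  obtain ⟨⟨e₁, ρ₁, hc₁⟩, -⟩ := hPl (RatFunc k) (RatFunc k) Ω Ω h₁
  obtain ⟨σ, hσC, hσs, -⟩ := hSub k (HahnSeries.single (m : ℤ) (1 : k)) (by simp) (by
    rw [HahnSeries.order_single one_ne_zero]
    exact_mod_cast hm)
  obtain ⟨⟨jσ, ρσ, hcσ⟩, -⟩ := hPl (LaurentSeries k) (LaurentSeries k) Λ Λ σ
  have hσp : σ (pI k) = (X ^ m : k[X]).eval₂ HahnSeries.C (pI k) := by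
    rw [eval₂_pow, eval₂_X, VSpp_pI, map_inv₀, hσs, inv_pow, HahnSeries.single_pow]
    simp
  obtain ⟨γ₀, hγ₀⟩ := hBcI k p Ω Λ hI jI ρI hB (X ^ m) h₁ e₁ ρ₁ hh₁ hc₁ σ jσ ρσ hσC hσp hcσ
  have hrange := hSt k p Λ m hm hpm t ht.root σ jσ ρσ hσC hσs hcσ
  refine ⟨m, h₁, e₁, ρ₁, hm, hh₁, hc₁, hCp.2.1 _ _ _ _ h₁ e₁ ρ₁ hc₁ H Φ hcts,
    hSur k p Ω Λ hI jI ρI hB m h₁ e₁ ρ₁ hm hpm hh₁ hc₁ H Φ hcts hsur hunr,
    fun a => hBcU k p Ω Λ hI jI ρI hB H Φ (X ^ m) hdeg h₁ e₁ ρ₁ hh₁ hc₁ a (hunr _), ?_⟩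
  intro δ
  have hst : ρσ δ ∈ MulAction.stabilizer (Λ ≃ₐ[LaurentSeries k] Λ) t := hrange ▸ ⟨δ, rfl⟩
  obtain ⟨n, hn⟩ := (hW m t dvd_rfl hm hpm ht.root)
    ⟨(Φ.comp ρI).rangeRestrict (ρσ δ), ⟨ρσ δ, hst, rfl⟩⟩
  refine ⟨n, ?_⟩
  have hn' : (Φ (ρI (ρσ δ))) ^ (p ^ n) = 1 :=
    congrArg (fun x => ((x.1 : (Φ.comp ρI).range) : H)) hn
  rw [hγ₀, map_mul, map_mul, map_inv]
  have h1 : (Φ γ₀)⁻¹ * Φ (ρI (ρσ δ)) * Φ γ₀ = (Φ γ₀)⁻¹ * Φ (ρI (ρσ δ)) * ((Φ γ₀)⁻¹)⁻¹ := by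
    rw [inv_inv]
  rw [h1, conj_pow, hn', mul_one, mul_inv_cancel]

/-- **VSpp**: split kernels of exponent `p` -/
theorem prf_VSpp (hAsc : VAsc) (hGen : VGen) (hLW : VLW) (hSt : VSt) (hBcI : VBcI) (hBcU : VBcU)
    (hSur : VSur) (hGrp : VGrp) (hNrm : VNrm) (hLT : VLT) (hH : VH) (hPl : VPl) (hCp : VCp)
    (hSub : VSub) : VSpp := by
  intro k _ p Ω Λ _ _ _ _ hI jI ρI hB G _ _ V H P _ c hD hVp hVc hVm hVn hVH hVH2 hPH Φ hΦ
  have _i1 := hB.ac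
  have _i2 := hB.ch
  have _i3 : Fact p.Prime := ⟨hB.pr⟩
  have _i4 := hB.galΩ
  have _i5 := hB.scΩ
  have _i6 := hB.galΛ
  have _i7 := hB.scΛ
  have _i8 : CharP Λ p := charP_of_injective_ringHom
    (f := (algebraMap (LaurentSeries k) Λ).comp (HahnSeries.C (Γ := ℤ) (R := k)))
    (RingHom.injective _) p
  have _i9 : CharP Ω p := charP_of_injective_ringHom
    (f := (algebraMap (RatFunc k) Ω).comp (RatFunc.C (K := k))) (RingHom.injective _) p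
  have hsolv : Group.IsSolvable (Φ.comp ρI).range := by
    rw [hΦ.inf]
    have := VSpp_solv p P c hD
    exact Group.isSolvable_of_isSolvable_injective
      (f := (Subgroup.subgroupOfEquivOfLe hPH).toMonoidHom)
      (Subgroup.subgroupOfEquivOfLe hPH).injective
  obtain ⟨m, h₁, e₁, ρ₁, hm, hh₁, hc₁, hcts₁, hsur₁, hunr₁, hp₁⟩ :=
    VSpp_loc hLW hSt hBcI hBcU hSur hLT hH hPl hCp hSub p hI jI ρI hB Φ hΦ.cts hΦ.surj hΦ.unr
      hsolv
  obtain ⟨A, _, _, i, act, hA, hiV⟩ := VSpp_abk p V hVp hVc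
  set Φu : (Ω ≃ₐ[RatFunc k] Ω) →* G := H.subtype.comp (Φ.comp ρ₁) with hΦu
  have hP₃ : IsPGroup p (Φu.comp ρI).range := by
    rintro ⟨_, δ, rfl⟩
    obtain ⟨n, hn⟩ := hp₁ δ
    refine ⟨n, Subtype.ext ?_⟩
    exact congrArg (fun x : H => (x : G)) hn
  have hA1 : ∃ a : A, a ≠ 1 := by
    by_contra hcon
    push Not at hcon
    apply hVn
    rw [← hiV]
    rintro _ ⟨a, rfl⟩
    rw [hcon a, map_one]
    exact one_mem _
  obtain ⟨v, hv1, hv⟩ := VSpp_fix p act _ hP₃ hA.exp hA1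
  obtain ⟨b, hb, hbgen⟩ := hGen k p Λ H ((Φ.comp ρ₁).comp ρI)
    (hCp.2.1 _ _ _ _ hI jI ρI hB.comp H (Φ.comp ρ₁) hcts₁)
  obtain ⟨Φ₂, hcts₂, heqv, hunr₂, hform⟩ := hAsc k p Ω Λ hI jI ρI hB G A i act hA Φu
    (hCp.2.2 _ _ H G (Φ.comp ρ₁) H.subtype hcts₁)
    (fun a h j ρ hh hj δ => by
      have := hunr₁ a h j ρ hh hj δ
      exact congrArg (fun x : H => (x : G)) this)
    v (fun δ => hv _ ⟨δ, rfl⟩) b
  -- the polynomial
  set f₂ : k[X] := C b⁻¹ * (X ^ p - X) with hf₂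
  have hf₂deg : f₂.natDegree = p := by
    rw [hf₂, natDegree_C_mul (inv_ne_zero hb)]
    exact FiniteField.X_pow_card_sub_X_natDegree_eq k hB.pr.one_lt
  have hf₂pos : 0 < f₂.natDegree := hf₂deg ▸ hB.pr.pos
  obtain ⟨h₂, hh₂⟩ := (hH k).2.2.1 f₂ hf₂pos
  obtain ⟨⟨e₂, ρ₂, hc₂⟩, -⟩ := hPl (RatFunc k) (RatFunc k) Ω Ω h₂
  obtain ⟨hNn, hNi, hNz⟩ := (hNrm k p Ω Λ hI jI ρI hB f₂ h₂ e₂ ρ₂ hh₂ hc₂).2 b hb rfl
  obtain ⟨zΩ, hzΩ⟩ := VSpp_root p (algebraMap (RatFunc k) Ω (RatFunc.C b * RatFunc.X))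
  set z : Λ := jI zΩ with hz
  have hzeq : z ^ p - z = lΛ Λ (HahnSeries.single (-1 : ℤ) b) := by
    rw [hz, ← map_pow, ← map_sub, hzΩ, hB.comp.alg, map_mul, hB.isH.cst, hB.isH.X, pI]
    congr 1
    rw [HahnSeries.C_apply, HahnSeries.single_mul_single, zero_add, mul_one]
  obtain ⟨a₀, ha₀⟩ := hform z hzeq
  obtain ⟨δ₀, hδ₀1, hδ₀2⟩ := hbgen z hzeq
  have hδ₀N : ρI δ₀ ∉ ρ₂.range := by
    intro hmem
    have h1 := (hNz zΩ hzΩ (ρI δ₀)).1 hmem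
    apply hδ₀2
    rw [hz, ← hB.comp.res, h1]
  have hN := VSpp_idx p hB.pr ρ₂.range hNi (Φ.comp ρ₁) hsur₁ ⟨ρI δ₀, hδ₀1, hδ₀N⟩
  -- surjectivity
  have hsur₂ : (Φ₂.comp ρ₂).range = ⊤ := by
    apply hGrp G V Φ₂.range (Φ₂.comp ρ₂).range hVc hVm hVn
    · rintro _ ⟨γ, rfl⟩
      exact ⟨ρ₂ γ, rfl⟩
    · rintro _ ⟨γ, rfl⟩ _ ⟨γ', rfl⟩
      obtain ⟨γ'', h⟩ := hNn.conj_mem (ρ₂ γ') ⟨γ', rfl⟩ γ
      refine ⟨γ'', ?_⟩
      rw [MonoidHom.comp_apply, h, map_mul, map_mul, map_inv, MonoidHom.comp_apply]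
    · rw [eq_top_iff, ← hVH2]
      refine sup_le le_sup_right ?_
      intro x hx
      obtain ⟨γ, hγN, hγ⟩ := hN ⟨x, hx⟩
      obtain ⟨a, ha⟩ := heqv γ
      have hγ' : Φu γ = x := congrArg (fun x : H => (x : G)) hγ
      have hxeq : x = (i a)⁻¹ * Φ₂ γ := by
        rw [ha, hγ']
        group
      rw [hxeq]
      apply Subgroup.mul_mem
      · exact Subgroup.inv_mem _ (Subgroup.mem_sup_right (hiV ▸ ⟨a, rfl⟩))
      · obtain ⟨γ', rfl⟩ := hγN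
        exact Subgroup.mem_sup_left ⟨γ', rfl⟩
    · intro hbot
      obtain ⟨m', hm'⟩ := VSpp_as p (δ₀ z) z (by
        rw [← map_pow, ← map_sub, hzeq]
        exact δ₀.commutes _)
      have h1 := ha₀ δ₀ m' hm'
      have h2 : Φu (ρI δ₀) = 1 := congrArg (fun x : H => (x : G)) hδ₀1
      rw [h2, map_one, MulAut.one_apply, mul_inv_cancel, one_mul, mul_one] at h1
      have h3 : i (v ^ m') ∈ Φ₂.range ⊓ V := ⟨⟨ρI δ₀, h1⟩, hiV ▸ ⟨v ^ m', rfl⟩⟩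
      rw [hbot, Subgroup.mem_bot] at h3
      have h4 : v ^ m' = 1 := hA.inj (by rw [h3, map_one])
      have h5 : orderOf v = p := orderOf_eq_prime (hA.exp v) hv1
      have h6 : p ∣ m' := h5 ▸ orderOf_dvd_of_pow_eq_one h4
      apply hδ₀2
      rw [hm', (CharP.cast_eq_zero_iff Λ p m').2 h6, add_zero]
  -- at infinity
  set g₂ : LaurentSeries k := f₂.eval₂ HahnSeries.C (pI k) with hg₂
  have hg₂eq : g₂ = HahnSeries.C b⁻¹ * (pI k ^ p - pI k) := by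
    rw [hg₂, hf₂, eval₂_mul, eval₂_C, eval₂_sub, eval₂_pow, eval₂_X]
  have hpIp : pI k ^ p = HahnSeries.single (-(p : ℤ)) (1 : k) := by
    rw [pI, HahnSeries.single_pow]
    simp
  have hg₂co : g₂.coeff (-(p : ℤ)) = b⁻¹ := by
    rw [hg₂eq, hpIp, pI, HahnSeries.C_apply, mul_sub, HahnSeries.single_mul_single,
      HahnSeries.single_mul_single, HahnSeries.coeff_sub, zero_add, zero_add, mul_one,
      HahnSeries.coeff_single_same, HahnSeries.coeff_single_of_ne, sub_zero]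
    have := hB.pr.one_lt
    omega
  have hg₂ne : g₂ ≠ 0 := by
    intro h0
    rw [h0, HahnSeries.coeff_zero] at hg₂co
    exact inv_ne_zero hb hg₂co.symm
  have hg₂ord : 0 < (g₂⁻¹).order := by
    have h1 : g₂.order ≤ -(p : ℤ) := HahnSeries.order_le_of_coeff_ne_zero (by
      rw [hg₂co]
      exact inv_ne_zero hb)
    have h2 : (g₂ * g₂⁻¹).order = g₂.order + (g₂⁻¹).order :=
      HahnSeries.order_mul hg₂ne (inv_ne_zero hg₂ne)
    rw [mul_inv_cancel₀ hg₂ne, HahnSeries.order_one] at h2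
    have := hB.pr.pos
    omega
  obtain ⟨σ₂, hσ₂C, hσ₂s, -⟩ := hSub k g₂⁻¹ (inv_ne_zero hg₂ne) hg₂ord
  have hσ₂p : σ₂ (pI k) = g₂ := by
    rw [VSpp_pI, map_inv₀, hσ₂s, inv_inv]
  obtain ⟨⟨j₂, ρσ₂, hcσ₂⟩, -⟩ := hPl (LaurentSeries k) (LaurentSeries k) Λ Λ σ₂
  obtain ⟨γ₂, hγ₂⟩ := hBcI k p Ω Λ hI jI ρI hB f₂ h₂ e₂ ρ₂ hh₂ hc₂ σ₂ j₂ ρσ₂ hσ₂C hσ₂p hcσ₂
  have hfix : ∀ δ, ρσ₂ δ z = z := by
    intro δ
    apply j₂.injective
    rw [hcσ₂.res]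
    obtain ⟨n, hn⟩ := VSpp_as p (j₂ z) (lΛ Λ (pI k)) (by
      rw [← map_pow, ← map_sub, hzeq, hcσ₂.alg, ← map_pow, ← map_sub]
      congr 1
      have h1 : (HahnSeries.single (-1 : ℤ) b : LaurentSeries k) = HahnSeries.C b * pI k := by
        rw [pI, HahnSeries.C_apply, HahnSeries.single_mul_single, zero_add, mul_one]
      rw [h1, map_mul, hσ₂C, hσ₂p, hg₂eq, ← mul_assoc, ← map_mul, mul_inv_cancel₀ hb, map_one,
        one_mul])
    rw [hn, map_add, map_natCast]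
    congr 1
    exact δ.commutes _
  have hloc : ∀ δ, Φ₂ (ρI (ρσ₂ δ)) = (i a₀)⁻¹ * Φu (ρI (ρσ₂ δ)) * i a₀ := by
    intro δ
    have h1 := ha₀ (ρσ₂ δ) 0 (by rw [hfix]; simp)
    rw [h1, pow_zero, mul_one, mul_comm (act _ a₀), map_mul, hA.conj, map_inv]
    group
  set w : G := (Φu γ₂)⁻¹ * i a₀ * Φ₂ γ₂ with hw
  set Ψ : (Ω ≃ₐ[RatFunc k] Ω) →* G := (MulAut.conj w).toMonoidHom.comp (Φ₂.comp ρ₂) with hΨ
  refine ⟨f₂ ^ m, h₂.comp h₁, e₂.comp e₁, ρ₁.comp ρ₂, Ψ, ?_, ⟨?_, ?_⟩, ?_, ?_, ?_, ?_, ?_⟩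
  · rw [natDegree_pow]
    exact Nat.mul_pos hm hf₂pos
  · intro a
    rw [RingHom.comp_apply, hh₁.cst, hh₂.cst]
  · rw [RingHom.comp_apply, hh₁.X, map_pow, map_pow, map_pow, RatFunc.algebraMap_X, hh₂.X]
  · exact hCp.1 _ _ _ _ _ _ h₁ h₂ e₁ e₂ ρ₁ ρ₂ hc₁ hc₂
  · exact hCp.2.2 _ _ G G (Φ₂.comp ρ₂) _ (hCp.2.1 _ _ _ _ h₂ e₂ ρ₂ hc₂ G Φ₂ hcts₂)
  · rw [hΨ, MonoidHom.coe_comp]
    exact (MulAut.conj w).surjective.comp (MonoidHom.range_eq_top.1 hsur₂)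
  · intro a h j ρ hh hj δ
    have h1 : Φ₂ (ρ₂ (ρ δ)) = 1 :=
      hBcU k p Ω Λ hI jI ρI hB G Φ₂ f₂ hf₂pos h₂ e₂ ρ₂ hh₂ hc₂ a (hunr₂ _) h j ρ hh hj δ
    change w * Φ₂ (ρ₂ (ρ δ)) * w⁻¹ = 1
    rw [h1, mul_one, mul_inv_cancel]
  · intro δ
    change w * Φ₂ (ρ₂ (ρI δ)) * w⁻¹ = Φu (ρ₂ (ρI δ))
    rw [hγ₂, map_mul, map_mul, map_inv, hloc, map_mul, map_mul, map_inv, hw]
    group

end MP7b0bad.SV
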