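import Pool.Agent.Work.MP_7b0bad_ag.AP.Stmts
import Pool.Agent.Work.MP_7b0bad_ag.SV.JStmts
import Pool.Agent.Work.MP_7b0bad_ag.SV.GRStmts
import Pool.Agent.Work.MP_7b0bad_ag.SV.VStmts

set_option autoImplicit false

/-!
# Statements of the Galois part (block SV), part 2
-/

namespace MP7b0bad.SV

open Polynomial

/-! ## Approximation -/

/-- weak approximation for rational functions -/
def VWR : Prop := ∀ (k : Type) [Field k] [Infinite k] (X : Finset k) (u : k → LaurentSeries k)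
  (uI : LaurentSeries k) (hp : k → (RatFunc k →+* LaurentSeries k))
  (hI : RatFunc k →+* LaurentSeries k), (∀ a ∈ X, IsH (hp a) (pA a)) → IsH hI (pI k) → ∀ N : ℤ,
  ∃ R : RatFunc k, (∀ a ∈ X, ∀ n < N, (hp a R - u a).coeff n = 0) ∧
    ∀ n < N, (hI R - uI).coeff n = 0

/-- weak approximation in the field of a cover: prescribed orders at the places over finitely many
points and prescribed class modulo `r`-th powers over infinity -/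
def VWA : Prop := ∀ (k : Type) [Field k] (p : ℕ) (Ω Λ : Type) [Field Ω] [Algebra (RatFunc k) Ω]
  [Field Λ] [Algebra (LaurentSeries k) Λ] (hI : RatFunc k →+* LaurentSeries k) (jI : Ω →+* Λ)
  (ρI : (Λ ≃ₐ[LaurentSeries k] Λ) →* (Ω ≃ₐ[RatFunc k] Ω)), Base k p Ω Λ hI jI ρI →
  ∀ r : ℕ, r.Prime → r ≠ p → ∀ (Q : Type) [Group Q] [Finite Q] (φ : (Ω ≃ₐ[RatFunc k] Ω) →* Q),
  Cts φ → Function.Surjective φ → (∀ a : k, UnrAt (Λ := Λ) φ a) →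
  ∀ s : Q → (Ω ≃ₐ[RatFunc k] Ω), (∀ c, φ (s c) = c) →
  ∀ (X : Finset k) (hp : k → (RatFunc k →+* LaurentSeries k)) (jp : k → (Ω →+* Λ))
    (ρp : k → ((Λ ≃ₐ[LaurentSeries k] Λ) →* (Ω ≃ₐ[RatFunc k] Ω))),
  (∀ a ∈ X, IsH (hp a) (pA a) ∧ Comp (hp a) (jp a) (ρp a)) →
  ∀ (n : k → Q → ℤ) (e : Q → Λ), (∀ c, e c ≠ 0) →
  (∀ (δ : Λ ≃ₐ[LaurentSeries k] Λ) c, δ (e c) = e (φ (ρI δ) * c)) →
  ∃ F : Ω, F ≠ 0 ∧ (∀ γ : Ω ≃ₐ[RatFunc k] Ω, φ γ = 1 → γ F = F) ∧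
    (∀ a ∈ X, ∀ c, ∃ v : LaurentSeries k, v ≠ 0 ∧ v.order = 0 ∧
      jp a (s c F) = lΛ Λ (HahnSeries.single (n a c) (1 : k) * v)) ∧
    ∃ y : Q → Λ, (∀ c, y c ≠ 0) ∧
      (∀ (δ : Λ ≃ₐ[LaurentSeries k] Λ) c, δ (y c) = y (φ (ρI δ) * c)) ∧
      ∀ c, jI (s c F) = e c * y c ^ r

open Classical in
/-- the lemma APC for two places over the same point, in the field of a cover -/
def VAP : Prop := ∀ (k : Type) [Field k] (p : ℕ) (Ω Λ : Type) [Field Ω] [Algebra (RatFunc k) Ω]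
  [Field Λ] [Algebra (LaurentSeries k) Λ] (hI : RatFunc k →+* LaurentSeries k) (jI : Ω →+* Λ)
  (ρI : (Λ ≃ₐ[LaurentSeries k] Λ) →* (Ω ≃ₐ[RatFunc k] Ω)), Base k p Ω Λ hI jI ρI →
  ∀ r : ℕ, r.Prime → r ≠ p → ∀ (Q : Type) [Group Q] [Finite Q] (φ : (Ω ≃ₐ[RatFunc k] Ω) →* Q),
  Cts φ → Function.Surjective φ → (∀ a : k, UnrAt (Λ := Λ) φ a) →
  ∀ s : Q → (Ω ≃ₐ[RatFunc k] Ω), (∀ c, φ (s c) = c) →
  ∃ Z : Finset k, ∀ a ∉ Z, ∀ (h : RatFunc k →+* LaurentSeries k) (j : Ω →+* Λ)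
    (ρ : (Λ ≃ₐ[LaurentSeries k] Λ) →* (Ω ≃ₐ[RatFunc k] Ω)), IsH h (pA a) → Comp h j ρ →
  ∀ c₀ : Q, c₀ ≠ 1 →
  ∃ F : Ω, F ≠ 0 ∧ (∀ γ : Ω ≃ₐ[RatFunc k] Ω, φ γ = 1 → γ F = F) ∧
    (∀ c, ∃ (v : LaurentSeries k) (n : ℤ), v ≠ 0 ∧ v.order = 0 ∧
      j (s c F) = lΛ Λ (HahnSeries.single n (1 : k) * v) ∧
      (r : ℤ) ∣ n - (if c = 1 then 1 else 0) + (if c = c₀ then 1 else 0)) ∧
    (∀ a' : k, a' ≠ a → ∀ (h' : RatFunc k →+* LaurentSeries k) (j' : Ω →+* Λ)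
      (ρ' : (Λ ≃ₐ[LaurentSeries k] Λ) →* (Ω ≃ₐ[RatFunc k] Ω)), IsH h' (pA a') → Comp h' j' ρ' →
      ∃ v : LaurentSeries k, j' F = lΛ Λ (v ^ r)) ∧
    ∃ y : Q → Λ, (∀ c, y c ≠ 0) ∧
      (∀ (δ : Λ ≃ₐ[LaurentSeries k] Λ) c, δ (y c) = y (φ (ρI δ) * c)) ∧
      ∀ c, jI (s c F) = y c ^ r

/-! ## Moving the ramification -/

/-- changing the tame value at one point; no change at the other points of `X` -/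
def VMv1 : Prop := ∀ (k : Type) [Field k] (p : ℕ) (Ω Λ : Type) [Field Ω] [Algebra (RatFunc k) Ω]
  [Field Λ] [Algebra (LaurentSeries k) Λ] (hI : RatFunc k →+* LaurentSeries k) (jI : Ω →+* Λ)
  (ρI : (Λ ≃ₐ[LaurentSeries k] Λ) →* (Ω ≃ₐ[RatFunc k] Ω)), Base k p Ω Λ hI jI ρI →
  ∀ (r : ℕ) (ζ : k) (t : Λ), r.Prime → r ≠ p → Tm r ζ t →
  ∀ (G A Q : Type) [Group G] [Finite G] [CommGroup A] [Finite A] [Group Q] [Finite Q]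
  (i : A →* G) (act : G →* MulAut A) (q : G →* Q), AbK r i act →
  (∀ g : G, q g = 1 ↔ g ∈ i.range) → ∀ Φ : (Ω ≃ₐ[RatFunc k] Ω) →* G, Cts Φ →
  Function.Surjective (q.comp Φ) → (∀ a : k, UnrAt (Λ := Λ) (q.comp Φ) a) →
  ∀ (X : Finset k) (a₁ : k) (h₁ : RatFunc k →+* LaurentSeries k) (j₁ : Ω →+* Λ)
    (ρ₁ : (Λ ≃ₐ[LaurentSeries k] Λ) →* (Ω ≃ₐ[RatFunc k] Ω)), IsH h₁ (pA a₁) → Comp h₁ j₁ ρ₁ →
  ∀ v v' : A, LV ζ t i Φ ρ₁ v →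
  ∃ Φ' : (Ω ≃ₐ[RatFunc k] Ω) →* G, Cts Φ' ∧ Eqv i Φ Φ' ∧ LV ζ t i Φ' ρ₁ v' ∧
    (∀ a ∈ X, a ≠ a₁ → ∀ (h : RatFunc k →+* LaurentSeries k) (j : Ω →+* Λ)
      (ρ : (Λ ≃ₐ[LaurentSeries k] Λ) →* (Ω ≃ₐ[RatFunc k] Ω)), IsH h (pA a) → Comp h j ρ →
      ∀ δ, Φ' (ρ δ) = Φ (ρ δ)) ∧
    ∃ b : A, ∀ δ, Φ' (ρI δ) = (i b)⁻¹ * Φ (ρI δ) * i b

/-- killing the ramification at a general point; no change elsewhere -/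
def VMv2 : Prop := ∀ (k : Type) [Field k] (p : ℕ) (Ω Λ : Type) [Field Ω] [Algebra (RatFunc k) Ω]
  [Field Λ] [Algebra (LaurentSeries k) Λ] (hI : RatFunc k →+* LaurentSeries k) (jI : Ω →+* Λ)
  (ρI : (Λ ≃ₐ[LaurentSeries k] Λ) →* (Ω ≃ₐ[RatFunc k] Ω)), Base k p Ω Λ hI jI ρI →
  ∀ (r : ℕ) (ζ : k) (t : Λ), r.Prime → r ≠ p → Tm r ζ t →
  ∀ (G A Q : Type) [Group G] [Finite G] [CommGroup A] [Finite A] [Group Q] [Finite Q]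
  (i : A →* G) (act : G →* MulAut A) (q : G →* Q), AbK r i act →
  (∀ g : G, q g = 1 ↔ g ∈ i.range) →
  Subgroup.closure {x : A | ∃ (g : G) (a : A), x = act g a * a⁻¹} = ⊤ →
  ∀ φ : (Ω ≃ₐ[RatFunc k] Ω) →* Q, Cts φ → Function.Surjective φ →
  (∀ a : k, UnrAt (Λ := Λ) φ a) →
  ∃ Z : Finset k, ∀ a₁ ∉ Z, ∀ Φ : (Ω ≃ₐ[RatFunc k] Ω) →* G, Cts Φ → q.comp Φ = φ →
  ∃ Φ' : (Ω ≃ₐ[RatFunc k] Ω) →* G, Cts Φ' ∧ Eqv i Φ Φ' ∧ UnrAt (Λ := Λ) Φ' a₁ ∧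
    (∀ a : k, a ≠ a₁ → ∀ (h : RatFunc k →+* LaurentSeries k) (j : Ω →+* Λ)
      (ρ : (Λ ≃ₐ[LaurentSeries k] Λ) →* (Ω ≃ₐ[RatFunc k] Ω)), IsH h (pA a) → Comp h j ρ →
      ∀ δ, Φ' (ρ δ) = Φ (ρ δ)) ∧
    ∃ b : A, ∀ δ, Φ' (ρI δ) = (i b)⁻¹ * Φ (ρI δ) * i b

/-- moving all the ramification: unramified outside `a₀`, tame value `v` at `a₀`, no change (up to
conjugation by `A`) at infinity -/
def VMov : Prop := ∀ (k : Type) [Field k] (p : ℕ) (Ω Λ : Type) [Field Ω] [Algebra (RatFunc k) Ω]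
  [Field Λ] [Algebra (LaurentSeries k) Λ] (hI : RatFunc k →+* LaurentSeries k) (jI : Ω →+* Λ)
  (ρI : (Λ ≃ₐ[LaurentSeries k] Λ) →* (Ω ≃ₐ[RatFunc k] Ω)), Base k p Ω Λ hI jI ρI →
  ∀ (r : ℕ) (ζ : k) (t : Λ), r.Prime → r ≠ p → Tm r ζ t →
  ∀ (G A Q : Type) [Group G] [Finite G] [CommGroup A] [Finite A] [Group Q] [Finite Q]
  (i : A →* G) (act : G →* MulAut A) (q : G →* Q), AbK r i act →
  (∀ g : G, q g = 1 ↔ g ∈ i.range) →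
  Subgroup.closure {x : A | ∃ (g : G) (a : A), x = act g a * a⁻¹} = ⊤ →
  ∀ Φ : (Ω ≃ₐ[RatFunc k] Ω) →* G, Cts Φ → Function.Surjective (q.comp Φ) →
  (∀ a : k, UnrAt (Λ := Λ) (q.comp Φ) a) →
  ∀ (a₀ : k) (h₀ : RatFunc k →+* LaurentSeries k) (j₀ : Ω →+* Λ)
    (ρ₀ : (Λ ≃ₐ[LaurentSeries k] Λ) →* (Ω ≃ₐ[RatFunc k] Ω)), IsH h₀ (pA a₀) → Comp h₀ j₀ ρ₀ →
  ∀ v : A, ∃ Φ' : (Ω ≃ₐ[RatFunc k] Ω) →* G, Cts Φ' ∧ Eqv i Φ Φ' ∧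
    (∀ a : k, a ≠ a₀ → UnrAt (Λ := Λ) Φ' a) ∧ LV ζ t i Φ' ρ₀ v ∧
    ∃ b : A, ∀ δ, Φ' (ρI δ) = (i b)⁻¹ * Φ (ρI δ) * i b

/-! ## Embedding problems with `r`-kernel -/

/-- existence of lifts (proved in part LIFT) -/
def VLift : Prop := ∀ (k Ω : Type) [Field k] [IsAlgClosed k] [Field Ω] [Algebra (RatFunc k) Ω]
  [IsGalois (RatFunc k) Ω] [IsSepClosed Ω] (p r : ℕ) [Fact p.Prime] [CharP k p], r.Prime →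
  r ≠ p → ∀ (G : Type) [Group G] [Finite G] (M : Subgroup G) [M.Normal],
  (∀ a ∈ M, ∀ b ∈ M, a * b = b * a) → (∀ a ∈ M, a ^ r = 1) →
  ∀ φ : (Ω ≃ₐ[RatFunc k] Ω) →* G ⧸ M, Cts φ →
  ∃ Φ : (Ω ≃ₐ[RatFunc k] Ω) →* G, Cts Φ ∧ ∀ γ, (Φ γ : G ⧸ M) = φ γ

/-- changing a lift so that it has a given restriction to the place over infinity -/
def VLoc : Prop := ∀ (k : Type) [Field k] (p : ℕ) (Ω Λ : Type) [Field Ω] [Algebra (RatFunc k) Ω]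
  [Field Λ] [Algebra (LaurentSeries k) Λ] (hI : RatFunc k →+* LaurentSeries k) (jI : Ω →+* Λ)
  (ρI : (Λ ≃ₐ[LaurentSeries k] Λ) →* (Ω ≃ₐ[RatFunc k] Ω)), Base k p Ω Λ hI jI ρI →
  ∀ r : ℕ, r.Prime → r ≠ p →
  ∀ (G A Q : Type) [Group G] [Finite G] [CommGroup A] [Finite A] [Group Q] [Finite Q]
  (i : A →* G) (act : G →* MulAut A) (q : G →* Q), AbK r i act →
  (∀ g : G, q g = 1 ↔ g ∈ i.range) → ∀ Φ : (Ω ≃ₐ[RatFunc k] Ω) →* G, Cts Φ →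
  Function.Surjective (q.comp Φ) → (∀ a : k, UnrAt (Λ := Λ) (q.comp Φ) a) →
  ∀ Ψ : (Λ ≃ₐ[LaurentSeries k] Λ) →* G, Cts Ψ → Group.IsSolvable Ψ.range →
  Group.IsSolvable (Φ.comp ρI).range → (∀ δ, q (Ψ δ) = q (Φ (ρI δ))) →
  ∃ Φ' : (Ω ≃ₐ[RatFunc k] Ω) →* G, Cts Φ' ∧ Eqv i Φ Φ' ∧
    ∃ b : A, ∀ δ, Φ' (ρI δ) = (i b)⁻¹ * Ψ δ * i b

/-- abelian `r`-kernels, in terms of homomorphisms -/
def VFabG : Prop := ∀ (k : Type) [Field k] (p : ℕ) (Ω Λ : Type) [Field Ω] [Algebra (RatFunc k) Ω]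
  [Field Λ] [Algebra (LaurentSeries k) Λ] (hI : RatFunc k →+* LaurentSeries k) (jI : Ω →+* Λ)
  (ρI : (Λ ≃ₐ[LaurentSeries k] Λ) →* (Ω ≃ₐ[RatFunc k] Ω)), Base k p Ω Λ hI jI ρI →
  ∀ (G : Type) [Group G] [Finite G] (r : ℕ) (M P : Subgroup G) [M.Normal] (c : G),
  r.Prime → r ≠ p → GT.Dat0 p P c → (∀ a ∈ M, a ^ r = 1) → (∀ a ∈ M, ∀ b ∈ M, a * b = b * a) →
  M ≤ ⁅M, (⊤ : Subgroup G)⁆ → ∀ φ : (Ω ≃ₐ[RatFunc k] Ω) →* G ⧸ M,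
  Cov Λ φ ρI ((GT.Pc P c).map (QuotientGroup.mk' M)) →
  ∃ Φ : (Ω ≃ₐ[RatFunc k] Ω) →* G, Cts Φ ∧ (∀ γ, (Φ γ : G ⧸ M) = φ γ) ∧
    (∀ a : k, UnrAt (Λ := Λ) Φ a) ∧ (Φ.comp ρI).range = GT.Pc P c

/-- central `r`-kernels, in terms of homomorphisms -/
def VCenG : Prop := ∀ (k : Type) [Field k] (p : ℕ) (Ω Λ : Type) [Field Ω] [Algebra (RatFunc k) Ω]
  [Field Λ] [Algebra (LaurentSeries k) Λ] (hI : RatFunc k →+* LaurentSeries k) (jI : Ω →+* Λ)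
  (ρI : (Λ ≃ₐ[LaurentSeries k] Λ) →* (Ω ≃ₐ[RatFunc k] Ω)), Base k p Ω Λ hI jI ρI →
  ∀ (G : Type) [Group G] [Finite G] (r : ℕ) (Z P : Subgroup G) [Z.Normal] (c : G),
  r.Prime → r ≠ p → GT.Dat0 p P c → (∀ a ∈ Z, a ^ r = 1) → Z ≤ Subgroup.center G →
  ∀ φ : (Ω ≃ₐ[RatFunc k] Ω) →* G ⧸ Z, Cov Λ φ ρI ((GT.Pc P c).map (QuotientGroup.mk' Z)) →
  ∃ Φ : (Ω ≃ₐ[RatFunc k] Ω) →* G, Cts Φ ∧ (∀ γ, (Φ γ : G ⧸ Z) = φ γ) ∧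
    (∀ a : k, UnrAt (Λ := Λ) Φ a) ∧ ∃ z ∈ Z, (Φ.comp ρI).range = GT.Pc P (c * z)

/-! ## Split kernels -/

/-- the result of the construction for split kernels: after a polynomial base change there is a
lift to `G` that agrees with `Φ` at infinity -/
def SplOut {k Ω Λ : Type} [Field k] [Field Ω] [Algebra (RatFunc k) Ω] [Field Λ]
    [Algebra (LaurentSeries k) Λ] (ρI : (Λ ≃ₐ[LaurentSeries k] Λ) →* (Ω ≃ₐ[RatFunc k] Ω))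
    {G : Type} [Group G] {H : Subgroup G} (Φ : (Ω ≃ₐ[RatFunc k] Ω) →* H) : Prop :=
  ∃ (f : k[X]) (h : RatFunc k →+* RatFunc k) (e : Ω →+* Ω)
    (ρe : (Ω ≃ₐ[RatFunc k] Ω) →* (Ω ≃ₐ[RatFunc k] Ω)) (Ψ : (Ω ≃ₐ[RatFunc k] Ω) →* G),
    0 < f.natDegree ∧ IsR h f ∧ Comp h e ρe ∧ Cts Ψ ∧ Function.Surjective Ψ ∧
    (∀ a : k, UnrAt (Λ := Λ) Ψ a) ∧ ∀ δ, Ψ (ρI δ) = (Φ (ρe (ρI δ)) : G)

/-- split kernels of order prime to `p` -/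
def VSpr : Prop := ∀ (k : Type) [Field k] (p : ℕ) (Ω Λ : Type) [Field Ω] [Algebra (RatFunc k) Ω]
  [Field Λ] [Algebra (LaurentSeries k) Λ] (hI : RatFunc k →+* LaurentSeries k) (jI : Ω →+* Λ)
  (ρI : (Λ ≃ₐ[LaurentSeries k] Λ) →* (Ω ≃ₐ[RatFunc k] Ω)), Base k p Ω Λ hI jI ρI →
  ∀ (G : Type) [Group G] [Finite G] (r : ℕ) (V H P : Subgroup G) [V.Normal] (c : G),
  r.Prime → r ≠ p → GT.Dat0 p P c → (∀ a ∈ V, a ^ r = 1) → (∀ a ∈ V, ∀ b ∈ V, a * b = b * a) →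
  (∀ K : Subgroup G, K.Normal → K ≤ V → K = ⊥ ∨ K = V) → ¬ V ≤ Subgroup.center G →
  V ⊓ H = ⊥ → V ⊔ H = ⊤ → GT.Pc P c ≤ H →
  ∀ Φ : (Ω ≃ₐ[RatFunc k] Ω) →* H, Cov Λ Φ ρI ((GT.Pc P c).subgroupOf H) → SplOut ρI Φ

/-- split kernels of exponent `p` -/
def VSpp : Prop := ∀ (k : Type) [Field k] (p : ℕ) (Ω Λ : Type) [Field Ω] [Algebra (RatFunc k) Ω]
  [Field Λ] [Algebra (LaurentSeries k) Λ] (hI : RatFunc k →+* LaurentSeries k) (jI : Ω →+* Λ)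
  (ρI : (Λ ≃ₐ[LaurentSeries k] Λ) →* (Ω ≃ₐ[RatFunc k] Ω)), Base k p Ω Λ hI jI ρI →
  ∀ (G : Type) [Group G] [Finite G] (V H P : Subgroup G) [V.Normal] (c : G),
  GT.Dat0 p P c → (∀ a ∈ V, a ^ p = 1) → (∀ a ∈ V, ∀ b ∈ V, a * b = b * a) →
  (∀ K : Subgroup G, K.Normal → K ≤ V → K = ⊥ ∨ K = V) → ¬ V ≤ Subgroup.center G →
  V ⊓ H = ⊥ → V ⊔ H = ⊤ → GT.Pc P c ≤ H →
  ∀ Φ : (Ω ≃ₐ[RatFunc k] Ω) →* H, Cov Λ Φ ρI ((GT.Pc P c).subgroupOf H) → SplOut ρI Φ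

/-- Artin-Schreier classes with prescribed local class at infinity -/
def VAsc : Prop := ∀ (k : Type) [Field k] (p : ℕ) (Ω Λ : Type) [Field Ω] [Algebra (RatFunc k) Ω]
  [Field Λ] [Algebra (LaurentSeries k) Λ] (hI : RatFunc k →+* LaurentSeries k) (jI : Ω →+* Λ)
  (ρI : (Λ ≃ₐ[LaurentSeries k] Λ) →* (Ω ≃ₐ[RatFunc k] Ω)), Base k p Ω Λ hI jI ρI →
  ∀ (G A : Type) [Group G] [Finite G] [CommGroup A] [Finite A] (i : A →* G)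
  (act : G →* MulAut A), AbK p i act → ∀ Φ : (Ω ≃ₐ[RatFunc k] Ω) →* G, Cts Φ →
  (∀ a : k, UnrAt (Λ := Λ) Φ a) → ∀ v : A, (∀ δ, act (Φ (ρI δ)) v = v) → ∀ b : k,
  ∃ Φ' : (Ω ≃ₐ[RatFunc k] Ω) →* G, Cts Φ' ∧ Eqv i Φ Φ' ∧ (∀ a : k, UnrAt (Λ := Λ) Φ' a) ∧
    ∀ z : Λ, z ^ p - z = lΛ Λ (HahnSeries.single (-1 : ℤ) b) →
    ∃ a₀ : A, ∀ (δ : Λ ≃ₐ[LaurentSeries k] Λ) (m : ℕ), δ z = z + (m : Λ) →
      Φ' (ρI δ) = i (act (Φ (ρI δ)) a₀ * a₀⁻¹ * v ^ m) * Φ (ρI δ)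

/-- Artin-Schreier extensions independent of a given extension -/
def VGen : Prop := ∀ (k : Type) [Field k] [IsAlgClosed k] (p : ℕ) [Fact p.Prime] [CharP k p]
  (Λ : Type) [Field Λ] [Algebra (LaurentSeries k) Λ] [IsGalois (LaurentSeries k) Λ]
  [IsSepClosed Λ] (D : Type) [Group D] [Finite D] (Ψ : (Λ ≃ₐ[LaurentSeries k] Λ) →* D), Cts Ψ →
  ∃ b : k, b ≠ 0 ∧ ∀ z : Λ, z ^ p - z = lΛ Λ (HahnSeries.single (-1 : ℤ) b) →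
    ∃ δ : Λ ≃ₐ[LaurentSeries k] Λ, Ψ δ = 1 ∧ δ z ≠ z

/-- the image of a base change is normal -/
def VNrm : Prop := ∀ (k : Type) [Field k] (p : ℕ) (Ω Λ : Type) [Field Ω] [Algebra (RatFunc k) Ω]
  [Field Λ] [Algebra (LaurentSeries k) Λ] (hI : RatFunc k →+* LaurentSeries k) (jI : Ω →+* Λ)
  (ρI : (Λ ≃ₐ[LaurentSeries k] Λ) →* (Ω ≃ₐ[RatFunc k] Ω)), Base k p Ω Λ hI jI ρI →
  ∀ (f : k[X]) (h : RatFunc k →+* RatFunc k) (e : Ω →+* Ω)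
    (ρe : (Ω ≃ₐ[RatFunc k] Ω) →* (Ω ≃ₐ[RatFunc k] Ω)), IsR h f → Comp h e ρe →
  (∀ m : ℕ, 0 < m → ¬ p ∣ m → f = X ^ m → ρe.range.Normal ∧
    ∃ (C : Type) (_ : CommGroup C) (_ : Finite C) (χ : (Ω ≃ₐ[RatFunc k] Ω) →* C), Cts χ ∧
      χ.ker = ρe.range ∧ ¬ p ∣ Nat.card C) ∧
  ∀ b : k, b ≠ 0 → f = C b⁻¹ * (X ^ p - X) → ρe.range.Normal ∧ ρe.range.index = p ∧
    ∀ z : Ω, z ^ p - z = algebraMap (RatFunc k) Ω (RatFunc.C b * RatFunc.X) →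
      ∀ γ : Ω ≃ₐ[RatFunc k] Ω, γ ∈ ρe.range ↔ γ z = z

/-- surjectivity after base change with abelian group of order prime to `p` -/
def VSur : Prop := ∀ (k : Type) [Field k] (p : ℕ) (Ω Λ : Type) [Field Ω] [Algebra (RatFunc k) Ω]
  [Field Λ] [Algebra (LaurentSeries k) Λ] (hI : RatFunc k →+* LaurentSeries k) (jI : Ω →+* Λ)
  (ρI : (Λ ≃ₐ[LaurentSeries k] Λ) →* (Ω ≃ₐ[RatFunc k] Ω)), Base k p Ω Λ hI jI ρI →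
  ∀ (m : ℕ) (h : RatFunc k →+* RatFunc k) (e : Ω →+* Ω)
    (ρe : (Ω ≃ₐ[RatFunc k] Ω) →* (Ω ≃ₐ[RatFunc k] Ω)), 0 < m → ¬ p ∣ m → IsR h (X ^ m) →
  Comp h e ρe → ∀ (G : Type) [Group G] [Finite G] (Φ : (Ω ≃ₐ[RatFunc k] Ω) →* G), Cts Φ →
  Function.Surjective Φ → (∀ a : k, UnrAt (Λ := Λ) Φ a) → Function.Surjective (Φ.comp ρe)

/-- group theory for the surjectivity over the base change -/
def VGrp : Prop := ∀ (G : Type) [Group G] [Finite G] (V J JN : Subgroup G) [V.Normal],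
  (∀ a ∈ V, ∀ b ∈ V, a * b = b * a) → (∀ K : Subgroup G, K.Normal → K ≤ V → K = ⊥ ∨ K = V) →
  ¬ V ≤ Subgroup.center G → JN ≤ J → (∀ g ∈ J, ∀ x ∈ JN, g * x * g⁻¹ ∈ JN) → JN ⊔ V = ⊤ →
  J ⊓ V ≠ ⊥ → JN = ⊤

/-- ramification at `0` killed by `y = x ^ m` -/
def VBc0 : Prop := ∀ (k : Type) [Field k] (p : ℕ) (Ω Λ : Type) [Field Ω] [Algebra (RatFunc k) Ω]
  [Field Λ] [Algebra (LaurentSeries k) Λ] (hI : RatFunc k →+* LaurentSeries k) (jI : Ω →+* Λ)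
  (ρI : (Λ ≃ₐ[LaurentSeries k] Λ) →* (Ω ≃ₐ[RatFunc k] Ω)), Base k p Ω Λ hI jI ρI →
  ∀ (r m : ℕ) (ζ : k) (t : Λ), r.Prime → r ≠ p → Tm r ζ t → 0 < m → r ∣ m → ¬ p ∣ m →
  ∀ (G A : Type) [Group G] [Finite G] [CommGroup A] (i : A →* G), (∀ a : A, a ^ r = 1) →
  ∀ Φ : (Ω ≃ₐ[RatFunc k] Ω) →* G, (∀ a : k, a ≠ 0 → UnrAt (Λ := Λ) Φ a) →
  ∀ (h₀ : RatFunc k →+* LaurentSeries k) (j₀ : Ω →+* Λ)
    (ρ₀ : (Λ ≃ₐ[LaurentSeries k] Λ) →* (Ω ≃ₐ[RatFunc k] Ω)), IsH h₀ (pA 0) → Comp h₀ j₀ ρ₀ →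
  ∀ v : A, LV ζ t i Φ ρ₀ v → ∀ (h : RatFunc k →+* RatFunc k) (e : Ω →+* Ω)
    (ρe : (Ω ≃ₐ[RatFunc k] Ω) →* (Ω ≃ₐ[RatFunc k] Ω)), IsR h (X ^ m) → Comp h e ρe →
  ∀ a : k, UnrAt (Λ := Λ) (Φ.comp ρe) a

/-- the join theorem in terms of homomorphisms -/
def VJG : Prop := ∀ (k : Type) [Field k] (p : ℕ) (Ω Λ : Type) [Field Ω] [Algebra (RatFunc k) Ω]
  [Field Λ] [Algebra (LaurentSeries k) Λ] (hI : RatFunc k →+* LaurentSeries k) (jI : Ω →+* Λ)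
  (ρI : (Λ ≃ₐ[LaurentSeries k] Λ) →* (Ω ≃ₐ[RatFunc k] Ω)), Base k p Ω Λ hI jI ρI →
  ∀ (G : Type) [Group G] [Finite G] (H G₀ : Subgroup G), G₀ ≤ H →
  ∀ Φ : (Ω ≃ₐ[RatFunc k] Ω) →* H, Cov Λ Φ ρI (G₀.subgroupOf H) → SplOut ρI Φ → Rel k G G₀

/-- existence of the base fields -/
def VBase : Prop := ∀ (k : Type) [Field k] [IsAlgClosed k] (p : ℕ) [Fact p.Prime] [CharP k p],
  ∃ (Ω Λ : Type) (_ : Field Ω) (_ : Algebra (RatFunc k) Ω) (_ : Field Λ)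
    (_ : Algebra (LaurentSeries k) Λ) (hI : RatFunc k →+* LaurentSeries k) (jI : Ω →+* Λ)
    (ρI : (Λ ≃ₐ[LaurentSeries k] Λ) →* (Ω ≃ₐ[RatFunc k] Ω)), Base k p Ω Λ hI jI ρI

/-- base change `x = u ^ m` -/
def VBC : Prop := ∀ (k : Type) [Field k] [IsAlgClosed k] (p : ℕ) [Fact p.Prime] [CharP k p]
  (G : Type) [Group G] [Finite G] (P : Subgroup G) (c : G) (m : ℕ), GT.Dat0 p P c → ¬ p ∣ m →
  Rel k G (GT.Pc P c) → Rel k G (GT.Pc P (c ^ m))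

/-- quotients and the trivial group -/
def VQuo : Prop := (∀ (k : Type) [Field k] [IsAlgClosed k] (p : ℕ) [Fact p.Prime] [CharP k p]
    (G G' : Type) [Group G] [Finite G] [Group G'] (q : G →* G') (G₀ : Subgroup G),
    Function.Surjective q → Rel k G G₀ → Rel k G' (G₀.map q)) ∧
  ∀ (k : Type) [Field k] [IsAlgClosed k] (p : ℕ) [Fact p.Prime] [CharP k p]
    (G : Type) [Group G], Subsingleton G → ∀ G₀ : Subgroup G, Rel k G G₀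

/-- the axioms -/
def VRAx : Prop := ∀ (k : Type) [Field k] [IsAlgClosed k] (p : ℕ) [Fact p.Prime] [CharP k p],
  GT.RAx p (fun G _ G₀ => Rel k G G₀)

end MP7b0bad.SV
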